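import Mathlib

/-!
# A closed subgroup of a torus is the annihilator of its annihilator

Proof plan.  Suppose `t ∉ H`.  `H` and `t H` are disjoint compact sets; take a continuous real
function `φ` with `φ = 0` on `H` and `φ = 1` on `t H` (Urysohn).  The characters
`x ↦ ∏ i, x i ^ m i` span a dense star subalgebra of `C(ι → Circle, ℂ)` (Stone-Weierstrass,
`ContinuousMap.starSubalgebra_topologicalClosure_eq_top_of_separatesPoints`), so there is a finite
combination `ψ` within `1/3` of `φ`.  With the Haar probability measure of `H` compare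
`∫ ψ (h)` and `∫ ψ (t h)`: a character that is nontrivial on `H` has integral `0`, and a character
that is trivial on `H` has the value `1` at `t` by assumption; so the two integrals agree, but one is
within `1/3` of `0` and the other within `1/3` of `1`.
-/

namespace RB

open MeasureTheory

/-- Integration of a continuous function along a continuous map from a compact space. -/
noncomputable def Br2_int {K X : Type} [TopologicalSpace K] [CompactSpace K] [MeasurableSpace K]
    [OpensMeasurableSpace K] (μ : Measure K) [IsFiniteMeasure μ] [TopologicalSpace X]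
    [CompactSpace X] (g : C(K, X)) : C(X, ℂ) →L[ℂ] ℂ :=
  LinearMap.mkContinuous
    { toFun := fun f => ∫ h, f (g h) ∂μ
      map_add' := fun f f' => integral_add
        ((f.comp g).continuous.integrable_of_hasCompactSupport (HasCompactSupport.of_compactSpace _))
        ((f'.comp g).continuous.integrable_of_hasCompactSupport (HasCompactSupport.of_compactSpace _))
      map_smul' := fun c f => integral_smul c fun h => f (g h) } (μ.real Set.univ) fun f => by
    rw [mul_comm]
    exact norm_integral_le_of_norm_le_const (ae_of_all _ fun h => f.norm_coe_le_norm (g h))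

/-- The additive model of the torus. -/
noncomputable def Br2_E (ι : Type) : (ι → Circle) ≃ₜ UnitAddTorus ι :=
  Homeomorph.piCongrRight fun _ => (AddCircle.homeomorphCircle one_ne_zero).symm

theorem Br2_mFourier {ι : Type} [Fintype ι] (m : ι → ℤ) (x : ι → Circle) :
    UnitAddTorus.mFourier m (Br2_E ι x) = ((∏ i, x i ^ m i : Circle) : ℂ) := by
  change ∏ i, fourier (m i) ((AddCircle.homeomorphCircle one_ne_zero).symm (x i)) = _
  rw [← Circle.coeHom_apply, map_prod]
  refine Finset.prod_congr rfl fun i _ => ?_
  rw [fourier_apply, AddCircle.toCircle_zsmul, ← AddCircle.homeomorphCircle_apply one_ne_zero,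
    Homeomorph.apply_symm_apply, Circle.coeHom_apply]

theorem torus_dual {ι : Type} [Fintype ι] (H : Subgroup (ι → Circle))
    (hH : IsClosed (H : Set (ι → Circle))) (t : ι → Circle)
    (ht : ∀ m : ι → ℤ, (∀ h ∈ H, ∏ i, h i ^ m i = 1) → ∏ i, t i ^ m i = 1) : t ∈ H := by
  by_contra htH
  have : CompactSpace H := isCompact_iff_compactSpace.1 hH.isCompact
  borelize ↥H
  let μ : Measure H := Measure.haar
  let g₀ : C(H, UnitAddTorus ι) := ⟨fun h => Br2_E ι h, by fun_prop⟩
  let g₁ : C(H, UnitAddTorus ι) := ⟨fun h => Br2_E ι (t * h), by fun_prop⟩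
  have hmul : ∀ (m : ι → ℤ) (x y : ι → Circle), ∏ i, (x * y) i ^ m i =
      (∏ i, x i ^ m i) * ∏ i, y i ^ m i := fun m x y => by
    simp only [Pi.mul_apply, mul_zpow, Finset.prod_mul_distrib]
  have key : Br2_int μ g₀ = Br2_int μ g₁ := by
    refine ContinuousLinearMap.ext_on (s := Set.range (UnitAddTorus.mFourier (d := ι)))
      (Submodule.dense_iff_topologicalClosure_eq_top.2 UnitAddTorus.span_mFourier_closure_eq_top) ?_
    rintro _ ⟨m, rfl⟩
    change ∫ h : H, UnitAddTorus.mFourier m (Br2_E ι h) ∂μ =
      ∫ h : H, UnitAddTorus.mFourier m (Br2_E ι (t * h)) ∂μ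
    simp only [Br2_mFourier, hmul, Circle.coe_mul, integral_const_mul]
    by_cases hm : ∀ h ∈ H, ∏ i, h i ^ m i = 1
    · rw [ht m hm, Circle.coe_one, one_mul]
    · push Not at hm
      obtain ⟨h₀, hh₀, hne⟩ := hm
      have h1 := integral_mul_left_eq_self (μ := μ)
        (fun h : H => ((∏ i, (h : ι → Circle) i ^ m i : Circle) : ℂ)) ⟨h₀, hh₀⟩
      simp only [Subgroup.coe_mul, hmul, Circle.coe_mul, integral_const_mul] at h1
      have h2 : ∫ h : H, ((∏ i, (h : ι → Circle) i ^ m i : Circle) : ℂ) ∂μ = 0 := by
        by_contra h3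
        exact hne (Circle.coe_eq_one.1 (mul_left_eq_self₀.1 h1 |>.resolve_right h3))
      rw [h2, mul_zero]
  have hc₀ : IsClosed (Set.range g₀) := (isCompact_range g₀.continuous).isClosed
  have hc₁ : IsClosed (Set.range g₁) := (isCompact_range g₁.continuous).isClosed
  have hd : Disjoint (Set.range g₀) (Set.range g₁) := by
    rw [Set.disjoint_left]
    rintro _ ⟨a, rfl⟩ ⟨b, hb⟩
    have h1 : t * b = a := (Br2_E ι).injective hb
    exact htH (by rw [eq_mul_inv_of_mul_eq h1]; exact H.mul_mem a.2 (H.inv_mem b.2))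
  obtain ⟨φ, h0, h1, -⟩ := exists_continuous_zero_one_of_isClosed hc₀ hc₁ hd
  have h2 := congrArg (fun L : C(UnitAddTorus ι, ℂ) →L[ℂ] ℂ =>
    L ⟨fun x => (φ x : ℂ), by fun_prop⟩) key
  change ∫ h, (φ (g₀ h) : ℂ) ∂μ = ∫ h, (φ (g₁ h) : ℂ) ∂μ at h2
  simp only [h0 (Set.mem_range_self _), h1 (Set.mem_range_self _), Pi.zero_apply, Pi.one_apply,
    Complex.ofReal_zero, Complex.ofReal_one, integral_zero, integral_const, Complex.real_smul,
    mul_one] at h2
  exact (measureReal_univ_pos (μ := μ)).ne' (Complex.ofReal_eq_zero.1 h2.symm)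

end RB
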