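import Mathlib

/-!
# Real bordism of augmented groups: the definitions used in the statement
-/

open Matrix OnePoint
open scoped unitInterval

namespace RB

universe u

/-- The action of the sign group on scalars: `1` acts trivially and `-1` by conjugation. -/
noncomputable def tw {K : Type} [Star K] (u : ℤˣ) (z : K) : K := if u = 1 then z else star z

theorem tw_one {K : Type} [Star K] (z : K) : tw 1 z = z := if_pos rfl

theorem tw_neg_one {K : Type} [Star K] (z : K) : tw (-1) z = star z := if_neg (by decide)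

/-- `tw u` as a ring homomorphism of the complex numbers. -/
noncomputable def twR (u : ℤˣ) : ℂ →+* ℂ := if u = 1 then RingHom.id ℂ else starRingEnd ℂ

theorem twR_apply (u : ℤˣ) (z : ℂ) : twR u z = tw u z := by
  unfold twR tw; split_ifs <;> rfl

theorem tw_eq_twR (u : ℤˣ) : (tw u : ℂ → ℂ) = twR u := funext fun z => (twR_apply u z).symm

theorem tw_star (u : ℤˣ) (z : ℂ) : tw u (star z) = star (tw u z) := by
  unfold tw; split_ifs <;> rfl

variable {G : Type u} [Group G] [TopologicalSpace G]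

/-- A Real representation of the augmented group `η : G → {1, -1}` on `ℂ ^ ι`: the element `g`
acts by `v ↦ mat g * v` if `η g = 1` and by `v ↦ mat g * conj v` if `η g = -1`, with `mat g`
unitary and continuous in `g`. -/
structure RealRep (η : G →* ℤˣ) where
  ι : Type
  [fin : Fintype ι]
  [dec : DecidableEq ι]
  mat : G → Matrix ι ι ℂ
  cont : Continuous mat
  unitary : ∀ g, (mat g)ᴴ * mat g = 1
  mat_one : mat 1 = 1
  mat_mul : ∀ g h, mat (g * h) = mat g * (mat h).map (tw (η g))

attribute [instance] RealRep.fin RealRep.dec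

/-- `P` is an orthogonal projection of trace `m`, and `v` lies in its range. -/
def IsTot {ι : Type} [Fintype ι] (m : ℕ) (P : Matrix ι ι ℂ) (v : ι → ℂ) : Prop :=
  Pᴴ = P ∧ P * P = P ∧ P.trace = m ∧ P *ᵥ v = v

/-- The total space of the tautological bundle over the Grassmannian of `m`-dimensional complex
subspaces of `ℂ ^ ι`: a subspace is recorded by its orthogonal projection `P` (whose trace is
its dimension), together with a vector `v` of the subspace. -/
def Tot (ι : Type) [Fintype ι] (m : ℕ) : Type :=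
  {q : Matrix ι ι ℂ × (ι → ℂ) // IsTot m q.1 q.2}

instance (ι : Type) [Fintype ι] (m : ℕ) : TopologicalSpace (Tot ι m) :=
  inferInstanceAs (TopologicalSpace (Subtype _))

variable {η : G →* ℤˣ}

namespace RealRep

/-- The action on vectors. -/
noncomputable def act (V : RealRep η) (g : G) (v : V.ι → ℂ) : V.ι → ℂ :=
  V.mat g *ᵥ fun i => tw (η g) (v i)

/-- The direct sum. -/
noncomputable def sum (V W : RealRep η) : RealRep η where
  ι := V.ι ⊕ W.ι
  mat g := fromBlocks (V.mat g) 0 0 (W.mat g)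
  cont := V.cont.matrix_fromBlocks continuous_const continuous_const W.cont
  unitary g := by
    simp [fromBlocks_conjTranspose, fromBlocks_multiply, V.unitary, W.unitary]
  mat_one := by simp [V.mat_one, W.mat_one]
  mat_mul g h := by
    rw [V.mat_mul, W.mat_mul, fromBlocks_map, tw_eq_twR, fromBlocks_multiply]
    simp

/-- The action on `V ⊕ σ`, where `σ` is the real line with the sign action through `η`. -/
noncomputable def actSig (V : RealRep η) (g : G) (x : (V.ι → ℂ) × ℝ) : (V.ι → ℂ) × ℝ :=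
  (V.act g x.1, ((η g : ℤ) : ℝ) * x.2)

/-- The action on matrices (conjugation of operators by the action on vectors). -/
noncomputable def actMat (V : RealRep η) (g : G) (P : Matrix V.ι V.ι ℂ) : Matrix V.ι V.ι ℂ :=
  V.mat g * P.map (tw (η g)) * (V.mat g)ᴴ

theorem isTot_act (V : RealRep η) (m : ℕ) (g : G) (q : Tot V.ι m) :
    IsTot m (V.actMat g q.1.1) (V.act g q.1.2) := by
  obtain ⟨⟨P, v⟩, h1, h2, h3, h4⟩ := q
  have hu := V.unitary g
  have e1 : (P.map (tw (η g)))ᴴ = P.map (tw (η g)) := by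
    ext i j
    have := congrFun (congrFun h1 i) j
    simp only [conjTranspose_apply, map_apply] at this ⊢
    rw [← tw_star, this]
  have e2 : P.map (tw (η g)) * P.map (tw (η g)) = P.map (tw (η g)) := by
    rw [tw_eq_twR, ← Matrix.map_mul]; exact congrArg (fun Q => Q.map (twR (η g))) h2
  unfold actMat
  refine ⟨?_, ?_, ?_, ?_⟩
  · simp only [conjTranspose_mul, conjTranspose_conjTranspose, e1, Matrix.mul_assoc]
  · simp only [Matrix.mul_assoc]
    rw [← Matrix.mul_assoc (V.mat g)ᴴ, hu, Matrix.one_mul, ← Matrix.mul_assoc (P.map _), e2]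
  · rw [trace_mul_cycle, hu, Matrix.one_mul, tw_eq_twR, ← AddMonoidHom.map_trace]
    exact (congrArg (twR (η g)) h3).trans (map_natCast _ m)
  · simp only [act, mulVec_mulVec, Matrix.mul_assoc, hu, Matrix.mul_one]
    rw [← mulVec_mulVec]
    congr 1
    ext i
    have : (P *ᵥ v) i = v i := congrFun h4 i
    conv_rhs => rw [← this]
    rw [tw_eq_twR]
    exact (RingHom.map_mulVec (twR (η g)) P v i).symm

/-- The action on the total space of the tautological bundle. -/
noncomputable def actTot (V : RealRep η) (m : ℕ) (g : G) (q : Tot V.ι m) : Tot V.ι m :=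
  ⟨(V.actMat g q.1.1, V.act g q.1.2), V.isTot_act m g q⟩

end RealRep

/-- A map of one-point compactifications commutes with the given actions. -/
def Equivar {G : Type u} {X Y : Type} (α : G → X → X) (β : G → Y → Y)
    (f : OnePoint X → OnePoint Y) : Prop :=
  ∀ g x, f (OnePoint.map (α g) x) = OnePoint.map (β g) (f x)

/-- The block matrix `1 ⊕ P ⊕ 0`. -/
def blockMat (ι κ' : Type) {κ : Type} [DecidableEq ι] (P : Matrix κ κ ℂ) :
    Matrix (ι ⊕ κ ⊕ κ') (ι ⊕ κ ⊕ κ') ℂ :=
  fromBlocks 1 0 0 (fromBlocks P 0 0 0)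

/-- The block vector `u ⊕ v ⊕ 0`. -/
def blockVec {ι κ : Type} (κ' : Type) (u : ι → ℂ) (v : κ → ℂ) : ι ⊕ κ ⊕ κ' → ℂ :=
  Sum.elim u (Sum.elim v 0)

theorem isTot_block {ι κ : Type} (κ' : Type) [Fintype ι] [DecidableEq ι] [Fintype κ] [Fintype κ']
    {m : ℕ} (u : ι → ℂ) (q : Tot κ m) :
    IsTot (Fintype.card ι + m) (blockMat ι κ' q.1.1) (blockVec κ' u q.1.2) := by
  obtain ⟨⟨P, v⟩, h1, h2, h3, h4⟩ := q
  simp only at h1 h2 h3 h4
  unfold blockMat blockVec
  refine ⟨?_, ?_, ?_, ?_⟩
  · simp [fromBlocks_conjTranspose, h1]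
  · simp [fromBlocks_multiply, h2]
  · simp only [Matrix.trace, Matrix.diag] at h3
    simp [Matrix.trace, Fintype.sum_sum_type, h3]
  · simp [fromBlocks_mulVec, h4]

/-- The structure map of the Thom spectrum: `(u, (P, v)) ↦ (1 ⊕ P ⊕ 0, u ⊕ v ⊕ 0)`. -/
def addBlock {ι κ κ' : Type} [Fintype ι] [DecidableEq ι] [Fintype κ] [Fintype κ'] {m : ℕ}
    (u : ι → ℂ) (q : Tot κ m) : Tot (ι ⊕ κ ⊕ κ') (Fintype.card ι + m) :=
  ⟨(blockMat ι κ' q.1.1, blockVec κ' u q.1.2), isTot_block κ' u q⟩

/-- The stabilisation of `f : S ^ (W ⊕ σ) → Th (U, m)` by `V`, followed by the enlargement of the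
ambient representation by `U'`: a map `S ^ (V ⊕ W ⊕ σ) → Th (V ⊕ U ⊕ U', dim V + m)`. -/
def stab (V W U U' : RealRep η) {m : ℕ} (f : OnePoint ((W.ι → ℂ) × ℝ) → OnePoint (Tot U.ι m))
    (x : OnePoint (((V.sum W).ι → ℂ) × ℝ)) :
    OnePoint (Tot (V.sum (U.sum U')).ι (Fintype.card V.ι + m)) :=
  x.elim ∞ fun y => (f ((y.1 ∘ Sum.inr, y.2) : (W.ι → ℂ) × ℝ)).map (addBlock (y.1 ∘ Sum.inl))

/-- A map of one-point compactifications is null-homotopic through based equivariant maps. -/
def NullHtp {G : Type u} {X Y : Type} [TopologicalSpace X] [TopologicalSpace Y] (α : G → X → X)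
    (β : G → Y → Y) (f : OnePoint X → OnePoint Y) : Prop :=
  ∃ H : C(OnePoint X × I, OnePoint Y), (∀ x, H (x, 0) = f x) ∧ (∀ x, H (x, 1) = ∞) ∧
    (∀ t, H (∞, t) = ∞) ∧ ∀ t, Equivar α β fun x => H (x, t)

/-- The group `π ^ G _ (k ρ - 1) (MR_η)` vanishes: since `k ρ - 1 = (k - 1) ρ + σ`, its elements
are represented by based equivariant maps `S ^ (W ⊕ σ) → Th (U, m)` with `dim W - m = k - 1`, and
such a map represents zero iff it is equivariantly null-homotopic after a stabilisation. -/
def PiVanishes (η : G →* ℤˣ) (k : ℤ) : Prop :=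
  ∀ (W U : RealRep η) (m : ℕ), (Fintype.card W.ι : ℤ) - m = k - 1 →
    ∀ f : C(OnePoint ((W.ι → ℂ) × ℝ), OnePoint (Tot U.ι m)), f ∞ = ∞ →
      Equivar W.actSig (U.actTot m) f →
      ∃ V U' : RealRep η, NullHtp (V.sum W).actSig ((V.sum (U.sum U')).actTot _) (stab V W U U' f)

/-- Quasi-abelian augmented groups: the kernel `A` of `η` is abelian, and either `η` is trivial or
`G` is the semidirect product of `A` with an involution acting on `A` by inversion. -/
def IsQuasiAbelian {G : Type u} [Group G] (η : G →* ℤˣ) : Prop :=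
  (∀ a b, η a = 1 → η b = 1 → a * b = b * a) ∧
    ((∀ g, η g = 1) ∨ ∃ τ, η τ = -1 ∧ τ * τ = 1 ∧ ∀ a, η a = 1 → τ * a * τ⁻¹ = a⁻¹)

end RB
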