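import Pool.Agent.Work.MP_666b5d_gt.Serre
import Pool.Agent.Work.MP_666b5d_gt.Stmt
import Pool.Agent.Work.MP_666b5d_gt.Br2

-- merged part: Pool.Agent.Work.MP_666b5d_gt.Src
section
/-!
# Exactness in the source

`SNDR`: a closed subspace `i : A → X` with open complement `j : U → X` and an equivariant proper
deformation `D` of `X` that pushes `{ψ ≤ 1}` into `A = {ψ = 0}`.

Proof plan for `SNDR.core`.  `f ≃ f ∘ D₁` (`Ht.of_pre`).  On `{ψ ≤ 1}` write `D₁ x = i (r x)` with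
`r` continuous on that set.  With the null-homotopy `N` of `f ∘ i` put
`H (x, t) = N (r x, t * (1 - ψ x))` for `ψ x ≤ 1` and `f (D₁ x)` for `1 ≤ ψ x` (the two agree on
`ψ = 1`; `H` tends to `∞` because `D₁` and `i` are proper).  Then `H₁` is `∞` on `range i`, so
`H₁ = (H₁.res0 j).ext0 j`.
-/

open Set Filter Topology OnePoint
open scoped unitInterval

namespace RB

open Act

variable {S A X U Y Z : Type} [TopologicalSpace A] [TopologicalSpace X] [TopologicalSpace U]
  [TopologicalSpace Y] [TopologicalSpace Z]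

/-- Closed subspace with open complement and a deformation of the source. -/
structure SNDR (𝒢 : Set S) (αA : Act S A) (α : Act S X) (αU : Act S U) (i : A → X) (j : U → X) :
    Prop where
  hi : IsClosedEmbedding i
  ei : ∀ g ∈ 𝒢, ∀ a, i (αA g a) = α g (i a)
  hj : OEmb 𝒢 αU α j
  ex : ∃ (ψ : X → ℝ) (D : X × I → X), Continuous ψ ∧ (∀ x, 0 ≤ ψ x) ∧
    (∀ g ∈ 𝒢, ∀ x, ψ (α g x) = ψ x) ∧ range i = {x | ψ x = 0} ∧ range j = {x | 0 < ψ x} ∧
    IsProperMap D ∧ (∀ x, D (x, 0) = x) ∧ (∀ x, ψ x ≤ 1 → ψ (D (x, 1)) = 0) ∧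
    ∀ g ∈ 𝒢, ∀ x t, D (α g x, t) = α g (D (x, t))

variable {𝒢 : Set S} {αA : Act S A} {α : Act S X} {αU : Act S U} {i : A → X} {j : U → X}
  {β : Act S Y} {D : Set Y}

theorem SNDR.pmap (h : SNDR 𝒢 αA α αU i j) : PMap 𝒢 αA α i := ⟨h.hi.isProperMap, h.ei⟩

theorem SNDR.core [LC A] [LC X] [LC U] [LC Y] (h : SNDR 𝒢 αA α αU i j) {f : BM X Y}
    (hf : Good 𝒢 α β D f) (h0 : Ht 𝒢 αA β D (f.pre i h.pmap.proper) BM.zero) :
    ∃ g : BM U Y, Good 𝒢 αU β D g ∧ Ht 𝒢 α β D f (g.ext0 j h.hj.emb) := by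
  classical
  obtain ⟨ψ, P, hψ, hψ0, hψe, hri, hrj, hP, hP0, hP1, hPe⟩ := h.ex
  obtain ⟨N, hN, hN0, hN1⟩ := h0
  have hex : ∀ x : {x // ψ x ≤ 1}, ∃ a, i a = P (x.1, 1) := fun x => by
    have : P (x.1, 1) ∈ range i := by rw [hri]; exact hP1 x.1 x.2
    exact this
  choose r hr using hex
  have hP1p : IsProperMap fun x : X => P (x, 1) := hP.comp (proper_at 1)
  have hrc : Continuous r := by
    rw [h.hi.isEmbedding.continuous_iff]
    have e : i ∘ r = fun x : {x // ψ x ≤ 1} => P (x.1, 1) := funext hr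
    rw [e]
    exact hP1p.continuous.comp continuous_subtype_val
  let τ : X × I → I := fun p => projIcc 0 1 zero_le_one ((p.2 : ℝ) * (1 - ψ p.1))
  have hτ : Continuous τ := continuous_projIcc.comp (by fun_prop)
  let F : X × I → OnePoint Y := fun p =>
    if hp : ψ p.1 ≤ 1 then N.f (r ⟨p.1, hp⟩, τ p) else f.f (P (p.1, 1))
  have hF0 : ∀ p : X × I, τ p = 0 → F p = f.f (P (p.1, 1)) := by
    intro p hp
    by_cases h1 : ψ p.1 ≤ 1
    · simp only [F, dif_pos h1, hp, hN0, BM.pre_f, hr]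
    · simp only [F, dif_neg h1]
  have hFc : Continuous F := by
    have c1 : ContinuousOn F {p | ψ p.1 ≤ 1} := by
      rw [continuousOn_iff_continuous_domRestrict]
      have e : ({p : X × I | ψ p.1 ≤ 1}.domRestrict F) = fun p => N.f (r ⟨p.1.1, p.2⟩, τ p.1) := by
        funext p
        exact dif_pos p.2
      rw [e]
      refine N.cont.comp (Continuous.prodMk (hrc.comp ?_) (hτ.comp continuous_subtype_val))
      exact (continuous_fst.comp continuous_subtype_val).subtype_mk _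
    have c2 : ContinuousOn F {p | 1 ≤ ψ p.1} := by
      refine ((f.cont.comp hP1p.continuous).comp continuous_fst).continuousOn.congr ?_
      intro p hp
      refine hF0 p (projIcc_of_le_left _ ?_)
      exact mul_nonpos_of_nonneg_of_nonpos p.2.2.1 (sub_nonpos.2 hp)
    have c3 := c1.union_of_isClosed c2 (isClosed_le (hψ.comp continuous_fst) continuous_const)
      (isClosed_le continuous_const (hψ.comp continuous_fst))
    have e : {p : X × I | ψ p.1 ≤ 1} ∪ {p | 1 ≤ ψ p.1} = univ :=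
      eq_univ_of_forall fun p => le_total (ψ p.1) 1
    rwa [e, continuousOn_univ] at c3
  have hFt : ∀ K : Set Y, IsCompact K → ∃ C : Set (X × I), IsCompact C ∧
      ∀ p (y : Y), F p = y → y ∈ K → p ∈ C := by
    intro K hK
    obtain ⟨C₁, hC₁, h₁⟩ := N.exists_compact hK
    obtain ⟨C₂, hC₂, h₂⟩ := f.exists_compact hK
    refine ⟨((fun x : X => P (x, 1)) ⁻¹' (i '' (Prod.fst '' C₁) ∪ C₂)) ×ˢ univ,
      (hP1p.isCompact_preimage (((hC₁.image continuous_fst).image h.hi.continuous).union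
        hC₂)).prod isCompact_univ, ?_⟩
    intro p y hy hyK
    refine ⟨?_, trivial⟩
    by_cases h1 : ψ p.1 ≤ 1
    · simp only [F, dif_pos h1] at hy
      exact Or.inl ⟨r ⟨p.1, h1⟩, ⟨_, h₁ _ y hy hyK, rfl⟩, hr _⟩
    · simp only [F, dif_neg h1] at hy
      exact Or.inr (h₂ _ y hy hyK)
  let H : BM (X × I) Y := BM.mk' F hFc hFt
  have hH : Good 𝒢 (α.prod triv) β D H := by
    constructor
    · intro g hg p
      show F (α g p.1, p.2) = (F p).map (β g)
      by_cases h1 : ψ p.1 ≤ 1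
      · have h2 : ψ (α g p.1) ≤ 1 := by rw [hψe g hg]; exact h1
        have e1 : r ⟨α g p.1, h2⟩ = αA g (r ⟨p.1, h1⟩) := by
          apply h.hi.injective
          rw [hr, h.ei g hg, hr, hPe g hg]
        have e2 : τ (α g p.1, p.2) = τ p := by simp only [τ, hψe g hg]
        simp only [F, dif_pos h1, dif_pos h2, e1, e2]
        exact hN.eqv g hg (r ⟨p.1, h1⟩, τ p)
      · have h2 : ¬ ψ (α g p.1) ≤ 1 := by rw [hψe g hg]; exact h1
        simp only [F, dif_neg h1, dif_neg h2, hPe g hg]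
        exact hf.eqv g hg _
    · intro p y hy
      change F p = y at hy
      by_cases h1 : ψ p.1 ≤ 1
      · simp only [F, dif_pos h1] at hy
        exact hN.mem _ y hy
      · simp only [F, dif_neg h1] at hy
        exact hf.mem _ y hy
  let H₁ : BM X Y := H.pre (fun x => (x, 1)) (proper_at 1)
  have hz : ∀ x ∉ range j, H₁.f x = ∞ := by
    intro x hx
    rw [hrj] at hx
    have e : ψ x = 0 := le_antisymm (not_lt.1 hx) (hψ0 x)
    have h1 : ψ x ≤ 1 := by rw [e]; exact zero_le_one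
    have e2 : τ (x, 1) = 1 := projIcc_of_right_le _ (by simp [e])
    show F (x, 1) = ∞
    simp only [F, dif_pos h1, e2, hN1, BM.zero_f]
  refine ⟨H₁.res0 j h.hj.emb hz, ⟨?_, ?_⟩, ?_⟩
  · intro g hg u
    show H.f (j (αU g u), 1) = (H.f (j u, 1)).map (β g)
    rw [h.hj.eqv g hg]
    exact hH.eqv g hg (j u, 1)
  · intro u y hy
    exact hH.mem _ y hy
  · have s1 : Ht 𝒢 α β D f (f.pre _ hP1p) :=
      Ht.of_pre (P := P) hf ⟨hP, fun g hg p => hPe g hg p.1 p.2⟩ (fun x => by rw [hP0])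
        (fun x => rfl)
    refine s1.trans ⟨H, hH, fun x => hF0 (x, 0) (projIcc_of_le_left _ (by simp)), fun x => ?_⟩
    by_cases hx : x ∈ range j
    · obtain ⟨u, rfl⟩ := hx
      rw [BM.ext0_j]
      rfl
    · rw [BM.ext0_not _ _ _ hx]
      exact hz x hx

theorem SNDR.prodR (h : SNDR 𝒢 αA α αU i j) (γ : Act S Z) :
    SNDR 𝒢 (αA.prod γ) (α.prod γ) (αU.prod γ) (Prod.map i id) (Prod.map j id) := by
  obtain ⟨ψ, P, hψ, hψ0, hψe, hri, hrj, hP, hP0, hP1, hPe⟩ := h.ex
  refine ⟨h.hi.prodMap IsClosedEmbedding.id, fun g hg a => Prod.ext (h.ei g hg a.1) rfl,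
    h.hj.prodR γ, fun p => ψ p.1, fun p => (P (p.1.1, p.2), p.1.2), hψ.comp continuous_fst,
    fun p => hψ0 _, fun g hg p => hψe g hg _, ?_, ?_, ?_, fun p => Prod.ext (hP0 _) rfl,
    fun p hp => hP1 _ hp, fun g hg p t => Prod.ext (hPe g hg _ _) rfl⟩
  · rw [range_prodMap, hri, range_id]
    ext p
    simp
  · rw [range_prodMap, hrj, range_id]
    ext p
    simp
  · exact (hP.prodMap (isProperMap_id (X := Z))).comp
      (((Homeomorph.prodAssoc X Z I).trans
        ((Homeomorph.refl X).prodCongr (Homeomorph.prodComm Z I))).trans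
          (Homeomorph.prodAssoc X I Z).symm).isProperMap

theorem SNDR.prodL (h : SNDR 𝒢 αA α αU i j) (γ : Act S Z) :
    SNDR 𝒢 (γ.prod αA) (γ.prod α) (γ.prod αU) (Prod.map id i) (Prod.map id j) := by
  obtain ⟨ψ, P, hψ, hψ0, hψe, hri, hrj, hP, hP0, hP1, hPe⟩ := h.ex
  refine ⟨IsClosedEmbedding.id.prodMap h.hi, fun g hg a => Prod.ext rfl (h.ei g hg a.2),
    h.hj.prodL γ, fun p => ψ p.2, fun p => (p.1.1, P (p.1.2, p.2)), hψ.comp continuous_snd,
    fun p => hψ0 _, fun g hg p => hψe g hg _, ?_, ?_, ?_, fun p => Prod.ext rfl (hP0 _),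
    fun p hp => hP1 _ hp, fun g hg p t => Prod.ext rfl (hPe g hg _ _)⟩
  · rw [range_prodMap, hri, range_id]
    ext p
    simp
  · rw [range_prodMap, hrj, range_id]
    ext p
    simp
  · exact ((isProperMap_id (X := Z)).prodMap hP).comp (Homeomorph.prodAssoc Z X I).isProperMap

/-- Nonzero vectors. -/
abbrev Nz (V : Type) [Zero V] : Type := {u : V // u ≠ 0}

instance (V : Type) [NormedAddCommGroup V] [ProperSpace V] : LocallyCompactSpace (Nz V) :=
  (isOpen_ne (x := (0 : V))).locallyCompactSpace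

/-- The action on nonzero vectors. -/
noncomputable abbrev Act.nz {V : Type} [Zero V] (γ : Act S V) : Act S (Nz V) := γ.sub (· ≠ 0)

variable {V : Type} [NormedAddCommGroup V] [NormedSpace ℝ V]

/-- Norm preserving and homogeneous actions. -/
structure NIso (𝒢 : Set S) (γ : Act S V) : Prop where
  norm_eq : ∀ g ∈ 𝒢, ∀ u, ‖γ g u‖ = ‖u‖
  smul : ∀ g ∈ 𝒢, ∀ (r : ℝ) u, γ g (r • u) = r • γ g u

theorem NIso.nz_val {γ : Act S V} (h : NIso 𝒢 γ) {g : S} (hg : g ∈ 𝒢) (u : Nz V) :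
    (γ.nz g u).1 = γ g u.1 := by
  refine Act.sub_val γ (· ≠ 0) ?_
  rw [← norm_ne_zero_iff, h.norm_eq g hg, norm_ne_zero_iff]
  exact u.2

/-- The radial coordinate with values in `J`. -/
noncomputable def nJ (u : Nz V) : J := ⟨‖u.1‖ / (1 + ‖u.1‖), by
  have h0 : 0 < ‖u.1‖ := norm_pos_iff.2 u.2
  exact ⟨by positivity, (div_lt_one (by positivity)).2 (by linarith)⟩⟩

theorem nJ_pmap [ProperSpace V] {γ : Act S V} (h : NIso 𝒢 γ) :
    PMap 𝒢 γ.nz triv (nJ : Nz V → J) := by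
  constructor
  · refine proper_of_compact ?_ ?_
    · refine Continuous.subtype_mk ?_ _
      refine Continuous.div (by fun_prop) (by fun_prop) fun u => ?_
      positivity
    · intro K hK
      have hc : Continuous fun s : J => s.1 / (1 - s.1) :=
        Continuous.div (by fun_prop) (by fun_prop) fun s => (sub_pos.2 s.2.2).ne'
      have hK' := hK.image hc
      have hC : IsCompact ((fun v : V => ‖v‖) ⁻¹' ((fun s : J => s.1 / (1 - s.1)) '' K)) := by
        obtain ⟨b, hb⟩ := hK'.bddAbove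
        refine (isCompact_closedBall (0 : V) b).of_isClosed_subset
          (hK'.isClosed.preimage continuous_norm) fun v hv => ?_
        rw [mem_closedBall_zero_iff]
        exact hb hv
      refine ⟨Subtype.val ⁻¹' ((fun v : V => ‖v‖) ⁻¹' ((fun s : J => s.1 / (1 - s.1)) '' K)),
        ?_, ?_⟩
      · rw [Subtype.isCompact_iff, image_preimage_eq_of_subset]
        · exact hC
        · rintro v ⟨s, -, hs⟩
          refine ⟨⟨v, ?_⟩, rfl⟩
          have h1 : 0 < s.1 / (1 - s.1) := div_pos s.2.1 (sub_pos.2 s.2.2)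
          have hs' : s.1 / (1 - s.1) = ‖v‖ := hs
          rw [hs'] at h1
          exact norm_pos_iff.1 h1
      · intro u hu
        refine ⟨nJ u, hu, ?_⟩
        have h0 : 0 < ‖u.1‖ := norm_pos_iff.2 u.2
        show ‖u.1‖ / (1 + ‖u.1‖) / (1 - ‖u.1‖ / (1 + ‖u.1‖)) = ‖u.1‖
        field_simp
        ring
  · intro g hg u
    apply Subtype.ext
    show ‖(γ.nz g u).1‖ / (1 + ‖(γ.nz g u).1‖) = ‖u.1‖ / (1 + ‖u.1‖)
    rw [h.nz_val hg, h.norm_eq g hg]

theorem nz_oemb {γ : Act S V} (h : NIso 𝒢 γ) : OEmb 𝒢 γ.nz γ Subtype.val := by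
  refine ⟨(isOpen_ne (x := (0 : V))).isOpenEmbedding_subtypeVal, fun g hg u => h.nz_val hg u, ?_⟩
  rintro g hg x ⟨u, hu⟩
  refine ⟨⟨x, ?_⟩, rfl⟩
  rw [← norm_ne_zero_iff, ← h.norm_eq g hg, ← hu, norm_ne_zero_iff]
  exact u.2

omit [NormedSpace ℝ V] in
theorem Src_closedEmb : IsClosedEmbedding fun x : X => (x, (0 : V)) := by
  refine ⟨isEmbedding_prodMkLeft _, ?_⟩
  have e : range (fun x : X => (x, (0 : V))) = Prod.snd ⁻¹' {0} := by
    ext p
    constructor
    · rintro ⟨x, rfl⟩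
      rfl
    · intro hp
      exact ⟨p.1, Prod.ext rfl hp.symm⟩
  rw [e]
  exact isClosed_singleton.preimage continuous_snd

/-- The zero section.  Take `ψ = ‖u‖` and `D (u, t) = (max (‖u‖ - t) 0 / ‖u‖) • u`. -/
theorem sndr_zero [ProperSpace V] {γ : Act S V} (h : NIso 𝒢 γ) (α : Act S X) :
    SNDR 𝒢 α (α.prod γ) (α.prod γ.nz) (fun x => (x, 0)) (Prod.map id Subtype.val) := by
  let d : V × I → V := fun p => (1 - (p.2 : ℝ) / max ‖p.1‖ 1) • p.1
  have hm : ∀ v : V, 0 < max ‖v‖ 1 := fun v => lt_max_of_lt_right one_pos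
  have hdc : Continuous d := by
    refine Continuous.smul (continuous_const.sub ?_) continuous_fst
    exact Continuous.div (by fun_prop) (by fun_prop) fun p => (hm _).ne'
  have hd : IsProperMap d := by
    refine proper_of_compact hdc fun K hK => ?_
    obtain ⟨b, hb⟩ := hK.isBounded.exists_norm_le
    refine ⟨Metric.closedBall 0 (b + 1) ×ˢ univ, (isCompact_closedBall _ _).prod isCompact_univ,
      fun p hp => ⟨?_, trivial⟩⟩
    rw [mem_closedBall_zero_iff]
    have h1 := hb _ hp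
    have h2 : ‖((p.2 : ℝ) / max ‖p.1‖ 1) • p.1‖ ≤ 1 := by
      rw [norm_smul, Real.norm_of_nonneg (div_nonneg p.2.2.1 (hm _).le), div_mul_eq_mul_div,
        div_le_one (hm _)]
      exact (mul_le_of_le_one_left (norm_nonneg _) p.2.2.2).trans (le_max_left _ _)
    have h3 : p.1 = d p + ((p.2 : ℝ) / max ‖p.1‖ 1) • p.1 := by
      simp only [d, sub_smul, one_smul, sub_add_cancel]
    calc ‖p.1‖ = ‖d p + ((p.2 : ℝ) / max ‖p.1‖ 1) • p.1‖ := congrArg _ h3
      _ ≤ b + 1 := (norm_add_le _ _).trans (add_le_add h1 h2)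
  have hz : ∀ g ∈ 𝒢, γ g 0 = 0 := fun g hg => by
    rw [← norm_eq_zero, h.norm_eq g hg, norm_zero]
  refine ⟨Src_closedEmb, fun g hg x => Prod.ext rfl (hz g hg).symm,
    (nz_oemb h).prodL α, fun p => ‖p.2‖, fun p => (p.1.1, d (p.1.2, p.2)), by fun_prop,
    fun p => norm_nonneg _, fun g hg p => h.norm_eq g hg _, ?_, ?_, ?_, ?_, ?_, ?_⟩
  · ext p
    constructor
    · rintro ⟨x, rfl⟩
      exact norm_zero
    · intro hp
      exact ⟨p.1, Prod.ext rfl (norm_eq_zero.1 hp).symm⟩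
  · ext p
    constructor
    · rintro ⟨x, rfl⟩
      exact norm_pos_iff.2 x.2.2
    · intro hp
      exact ⟨(p.1, ⟨p.2, norm_pos_iff.1 hp⟩), rfl⟩
  · exact ((isProperMap_id (X := X)).prodMap hd).comp (Homeomorph.prodAssoc X V I).isProperMap
  · intro p
    simp [d]
  · intro p hp
    have hp' : ‖p.2‖ ≤ 1 := hp
    simp [d, max_eq_right hp']
  · intro g hg p t
    refine Prod.ext rfl ?_
    show d (γ g p.2, t) = γ g (d (p.2, t))
    simp only [d, h.norm_eq g hg, h.smul g hg]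

end RB
end

-- merged part: Pool.Agent.Work.MP_666b5d_gt.Gam
section
/-!
# The group `Hom (M, S¹) ⋊ {±1}` and its Real characters
-/

open Set Filter Topology Matrix

namespace RB

open Act

/-- The dual group of `M` extended by the inversion. -/
@[ext] structure Gam (M : Type) [AddCommGroup M] where
  a : AddChar M Circle
  e : ℤˣ

variable {M : Type} [AddCommGroup M]

noncomputable instance : Mul (Gam M) := ⟨fun g h => ⟨g.a * h.a ^ (g.e : ℤ), g.e * h.e⟩⟩

noncomputable instance : One (Gam M) := ⟨⟨1, 1⟩⟩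

noncomputable instance : Inv (Gam M) := ⟨fun g => ⟨g.a ^ (-(g.e : ℤ)), g.e⟩⟩

theorem Gam.mul_a (g h : Gam M) : (g * h).a = g.a * h.a ^ (g.e : ℤ) := rfl

theorem Gam.mul_e (g h : Gam M) : (g * h).e = g.e * h.e := rfl

theorem Gam.one_a : (1 : Gam M).a = 1 := rfl

theorem Gam.one_e : (1 : Gam M).e = 1 := rfl

theorem Gam.inv_a (g : Gam M) : g⁻¹.a = g.a ^ (-(g.e : ℤ)) := rfl

theorem Gam.inv_e (g : Gam M) : g⁻¹.e = g.e := rfl

noncomputable instance : Group (Gam M) := Group.ofLeftAxioms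
  (fun g h k => Gam.ext (by
    simp only [Gam.mul_a, Gam.mul_e, Units.val_mul, mul_zpow, ← _root_.zpow_mul, mul_assoc,
      mul_comm (h.e : ℤ) (g.e : ℤ)]) (by simp only [Gam.mul_e, mul_assoc]))
  (fun g => Gam.ext (by simp [Gam.mul_a, Gam.one_a, Gam.one_e]) (by simp [Gam.mul_e, Gam.one_e]))
  (fun g => Gam.ext (by
    rw [Gam.mul_a, Gam.inv_a, Gam.inv_e, Gam.one_a, ← _root_.zpow_add, neg_add_cancel,
      zpow_zero]) (by
    rw [Gam.mul_e, Gam.inv_e, Gam.one_e, Int.units_mul_self]))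

noncomputable instance : TopologicalSpace (Gam M) :=
  .induced (fun g => ((fun w => g.a w : M → Circle), g.e)) inferInstance

theorem Gam.continuous_iff {X : Type} [TopologicalSpace X] {c : X → Gam M} :
    Continuous c ↔ (∀ w, Continuous fun x => (c x).a w) ∧ Continuous fun x => (c x).e := by
  rw [continuous_induced_rng, continuous_prodMk, continuous_pi_iff]
  rfl

instance : IsTopologicalGroup (Gam M) := by
  have ha : ∀ w, Continuous fun g : Gam M => g.a w := (Gam.continuous_iff.1 continuous_id).1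
  have he : Continuous fun g : Gam M => g.e := (Gam.continuous_iff.1 continuous_id).2
  have hz : Continuous fun p : ℤˣ × Circle => p.2 ^ (p.1 : ℤ) :=
    continuous_prod_of_discrete_left.2 fun u => continuous_zpow (u : ℤ)
  refine { continuous_mul := ?_, continuous_inv := ?_ }
  · refine Gam.continuous_iff.2 ⟨fun w => ?_, (he.comp continuous_fst).mul (he.comp continuous_snd)⟩
    simp only [Gam.mul_a, AddChar.mul_apply, AddChar.zpow_apply]
    exact ((ha w).comp continuous_fst).mul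
      (hz.comp ((he.comp continuous_fst).prodMk ((ha w).comp continuous_snd)))
  · refine Gam.continuous_iff.2 ⟨fun w => ?_, he⟩
    simp only [Gam.inv_a, _root_.zpow_neg, AddChar.inv_apply', AddChar.zpow_apply]
    exact (hz.comp (he.prodMk (ha w))).inv

/-- The value of the character as a complex number. -/
noncomputable def ch (g : Gam M) (w : M) : ℂ := (g.a w : ℂ)

theorem ch_add (g : Gam M) (v w : M) : ch g (v + w) = ch g v * ch g w := by
  simp only [ch, AddChar.map_add_eq_mul, Circle.coe_mul]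

theorem ch_zero (g : Gam M) : ch g 0 = 1 := by
  simp only [ch, AddChar.map_zero_eq_one, Circle.coe_one]

theorem ch_neg (g : Gam M) (w : M) : ch g (-w) = star (ch g w) := by
  simp only [ch, AddChar.map_neg_eq_inv, Circle.coe_inv_eq_conj]
  rfl

theorem ch_sub (g : Gam M) (v w : M) : ch g (v - w) = ch g v * star (ch g w) := by
  rw [sub_eq_add_neg, ch_add, ch_neg]

theorem star_ch_mul (g : Gam M) (w : M) : star (ch g w) * ch g w = 1 := by
  rw [← ch_neg, ← ch_add, neg_add_cancel, ch_zero]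

theorem norm_ch (g : Gam M) (w : M) : ‖ch g w‖ = 1 := by
  exact Circle.norm_coe _

theorem ch_mul (g h : Gam M) (w : M) : ch (g * h) w = ch g w * tw g.e (ch h w) := by
  simp only [ch, Gam.mul_a, AddChar.mul_apply, AddChar.zpow_apply, Circle.coe_mul]
  congr 1
  rcases Int.units_eq_one_or g.e with e | e <;> rw [e]
  · rw [tw_one, Units.val_one, zpow_one]
  · rw [tw_neg_one, Units.val_neg, Units.val_one, _root_.zpow_neg, zpow_one,
      Circle.coe_inv_eq_conj]
    rfl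

theorem ch_one (w : M) : ch (1 : Gam M) w = 1 := by
  rfl

theorem ch_eq_one {g : Gam M} {w : M} : ch g w = 1 ↔ g.a w = 1 := by
  exact Circle.coe_eq_one

theorem continuous_ch (w : M) : Continuous fun g : Gam M => ch g w := by
  exact continuous_subtype_val.comp ((Gam.continuous_iff.1 continuous_id).1 w)

theorem Gam_tw_mul (u : ℤˣ) (z z' : ℂ) : tw u (z * z') = tw u z * tw u z' := by
  simp only [← twR_apply, map_mul]

theorem Gam_tw_real (u : ℤˣ) (r : ℝ) : tw u (r : ℂ) = r := by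
  rcases Int.units_eq_one_or u with rfl | rfl
  · rw [tw_one]
  · rw [tw_neg_one]
    exact Complex.conj_ofReal r

theorem Gam_tw_tw (u v : ℤˣ) (z : ℂ) : tw (u * v) z = tw u (tw v z) :=
  (ga_cj (K := ℂ)).mul u trivial v trivial z

theorem Gam_cont_tw : Continuous fun p : Gam M × ℂ => tw p.1.e p.2 := by
  have he : Continuous fun g : Gam M => g.e := (Gam.continuous_iff.1 continuous_id).2
  exact (ga_cj (K := ℂ)).cont.comp_continuous (f := fun p : Gam M × ℂ => (p.1.e, p.2))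
    ((he.comp continuous_fst).prodMk continuous_snd) fun _ => ⟨trivial, trivial⟩

theorem Gam_compactSpace : CompactSpace (Gam M) := by
  let φ : Gam M → (M → Circle) × ℤˣ := fun g => (fun w => g.a w, g.e)
  have hi : IsInducing φ := ⟨rfl⟩
  have hr : range φ = {p | p.1 0 = 1} ∩ ⋂ v, ⋂ w, {p | p.1 (v + w) = p.1 v * p.1 w} := by
    ext p
    simp only [mem_inter_iff, mem_iInter, mem_ofPred_eq]
    constructor
    · rintro ⟨g, rfl⟩
      exact ⟨g.a.map_zero_eq_one, g.a.map_add_eq_mul⟩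
    · rintro ⟨h0, h1⟩
      exact ⟨⟨⟨p.1, h0, h1⟩, p.2⟩, rfl⟩
  have hc : IsClosed (range φ) := by
    rw [hr]
    refine (isClosed_eq (by fun_prop) continuous_const).inter
      (isClosed_iInter fun v => isClosed_iInter fun w => isClosed_eq (by fun_prop) (by fun_prop))
  refine ⟨hi.isCompact_iff.2 ?_⟩
  rw [image_univ]
  exact hc.isCompact

/-- The Real character of weight `w`. -/
noncomputable def cw (w : M) : Act (Gam M) ℂ := fun g z => ch g w * tw g.e z

/-- The sum of Real characters. -/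
noncomputable def rp {ι : Type} (w : ι → M) : Act (Gam M) (ι → ℂ) :=
  fun g v i => ch g (w i) * tw g.e (v i)

/-- The action on matrices. -/
noncomputable def mp {κ ι : Type} (u : κ → M) (w : ι → M) : Act (Gam M) (Matrix κ ι ℂ) :=
  fun g A => Matrix.of fun i j => ch g (u i - w j) * tw g.e (A i j)

/-- Actions through the sign. -/
abbrev sa {X : Type} (s : Act ℤˣ X) : Act (Gam M) X := Act.via Gam.e s

section Mat

variable {ι κ ν : Type} (u : κ → M) (w : ι → M) (x : ν → M) (g : Gam M)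

theorem mp_apply (A : Matrix κ ι ℂ) (i j) : mp u w g A i j = ch g (u i - w j) * tw g.e (A i j) :=
  rfl

theorem mp_mul [Fintype ν] (A : Matrix κ ν ℂ) (B : Matrix ν ι ℂ) :
    mp u w g (A * B) = mp u x g A * mp x w g B := by
  ext i j
  simp only [mp_apply, Matrix.mul_apply, ← twR_apply, map_sum, map_mul, Finset.mul_sum]
  refine Finset.sum_congr rfl fun k _ => ?_
  rw [← sub_add_sub_cancel (u i) (x k) (w j), ch_add]
  ring

theorem mp_conjTranspose (A : Matrix κ ι ℂ) : (mp u w g A)ᴴ = mp w u g Aᴴ := by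
  ext i j
  simp only [conjTranspose_apply, mp_apply, star_mul', tw_star, ← ch_neg, neg_sub]

theorem mp_mulVec [Fintype ι] (A : Matrix κ ι ℂ) (v : ι → ℂ) :
    mp u w g A *ᵥ rp w g v = rp u g (A *ᵥ v) := by
  ext i
  simp only [mulVec, dotProduct, mp_apply, rp, ← twR_apply, map_sum, map_mul, Finset.mul_sum]
  refine Finset.sum_congr rfl fun k _ => ?_
  rw [← sub_add_cancel (u i) (w k), ch_add, add_sub_cancel_right]
  ring

theorem mp_one [DecidableEq κ] : mp u u g 1 = 1 := by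
  ext i j
  rw [mp_apply, ← twR_apply]
  by_cases h : i = j
  · subst h
    rw [one_apply_eq, sub_self, ch_zero, map_one, one_mul]
  · rw [one_apply_ne h, map_zero, mul_zero]

theorem mp_zero : mp u w g 0 = 0 := by
  ext i j
  rw [mp_apply, ← twR_apply, Matrix.zero_apply, map_zero, mul_zero]

theorem mp_add (A B : Matrix κ ι ℂ) : mp u w g (A + B) = mp u w g A + mp u w g B := by
  ext i j
  simp only [mp_apply, Matrix.add_apply, ← twR_apply, map_add, mul_add]

theorem mp_neg (A : Matrix κ ι ℂ) : mp u w g (-A) = - mp u w g A := by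
  ext i j
  simp only [mp_apply, Matrix.neg_apply, ← twR_apply, map_neg, mul_neg]

theorem mp_smul (r : ℝ) (A : Matrix κ ι ℂ) : mp u w g ((r : ℂ) • A) = (r : ℂ) • mp u w g A := by
  ext i j
  simp only [mp_apply, Matrix.smul_apply, smul_eq_mul, Gam_tw_mul, Gam_tw_real]
  ring

theorem mp_trace [Fintype κ] (A : Matrix κ κ ℂ) : (mp u u g A).trace = tw g.e A.trace := by
  simp only [Matrix.trace, Matrix.diag, mp_apply, sub_self, ch_zero, one_mul, ← twR_apply, map_sum]

theorem rp_add (v v' : ι → ℂ) : rp w g (v + v') = rp w g v + rp w g v' := by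
  ext i
  simp only [rp, Pi.add_apply, ← twR_apply, map_add, mul_add]

theorem rp_zero : rp w g 0 = 0 := by
  ext i
  simp only [rp, Pi.zero_apply, ← twR_apply, map_zero, mul_zero]

theorem rp_smul (r : ℝ) (v : ι → ℂ) : rp w g ((r : ℂ) • v) = (r : ℂ) • rp w g v := by
  ext i
  simp only [rp, Pi.smul_apply, smul_eq_mul, Gam_tw_mul, Gam_tw_real]
  ring

end Mat

/-- A matrix that commutes with the symmetries. -/
def MInv {κ ι : Type} (𝒢 : Set (Gam M)) (u : κ → M) (w : ι → M) (A : Matrix κ ι ℂ) : Prop :=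
  ∀ g ∈ 𝒢, mp u w g A = A

/-- The annihilator of `Λ`, with or without the inversion. -/
noncomputable def ctx (Λ : AddSubgroup M) (ε : Bool) : Subgroup (Gam M) where
  carrier := {g | (∀ w ∈ Λ, g.a w = 1) ∧ (ε = false → g.e = 1)}
  mul_mem' := by
    intro g h hg hh
    refine ⟨fun w hw => ?_, fun e => ?_⟩
    · rw [Gam.mul_a, AddChar.mul_apply, AddChar.zpow_apply, hg.1 w hw, hh.1 w hw, _root_.one_zpow,
        one_mul]
    · rw [Gam.mul_e, hg.2 e, hh.2 e, one_mul]
  one_mem' := ⟨fun _ _ => rfl, fun _ => rfl⟩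
  inv_mem' := by
    intro g hg
    refine ⟨fun w hw => ?_, hg.2⟩
    rw [Gam.inv_a, AddChar.zpow_apply, hg.1 w hw, _root_.one_zpow]

theorem mem_ctx {Λ : AddSubgroup M} {ε : Bool} {g : Gam M} :
    g ∈ ctx Λ ε ↔ (∀ w ∈ Λ, g.a w = 1) ∧ (ε = false → g.e = 1) := Iff.rfl

theorem ctx_mono {Λ Λ' : AddSubgroup M} (h : Λ ≤ Λ') (ε : Bool) :
    (ctx Λ' ε : Set (Gam M)) ⊆ ctx Λ ε := fun _ hg => ⟨fun w hw => hg.1 w (h hw), hg.2⟩

theorem ctx_false_sub (Λ : AddSubgroup M) (ε : Bool) :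
    (ctx Λ false : Set (Gam M)) ⊆ ctx Λ ε := fun _ hg => ⟨hg.1, fun _ => hg.2 rfl⟩

theorem isCompact_ctx (Λ : AddSubgroup M) (ε : Bool) : IsCompact (ctx Λ ε : Set (Gam M)) := by
  have ha : ∀ w, Continuous fun g : Gam M => g.a w := (Gam.continuous_iff.1 continuous_id).1
  have he : Continuous fun g : Gam M => g.e := (Gam.continuous_iff.1 continuous_id).2
  have := Gam_compactSpace (M := M)
  refine IsClosed.isCompact ?_
  have e : (ctx Λ ε : Set (Gam M)) =
      (⋂ w ∈ Λ, {g : Gam M | g.a w = 1}) ∩ ⋂ _ : ε = false, {g : Gam M | g.e = 1} := by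
    ext g
    simp only [SetLike.mem_coe, mem_ctx, mem_inter_iff, mem_iInter, mem_ofPred_eq]
  rw [e]
  exact (isClosed_biInter fun w _ => isClosed_eq (ha w) continuous_const).inter
    (isClosed_iInter fun _ => isClosed_eq he continuous_const)

theorem eq_one_of_mem_ctx_top {g : Gam M} (hg : g ∈ ctx (⊤ : AddSubgroup M) false) : g = 1 := by
  refine Gam.ext ?_ (hg.2 rfl)
  ext w
  rw [hg.1 w trivial]
  rfl

theorem ga_cw (w : M) : GA univ (cw w) := by
  refine ⟨fun z => ?_, fun g _ h _ z => ?_, Continuous.continuousOn ?_⟩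
  · simp only [cw, ch_one, Gam.one_e, tw_one, one_mul]
  · simp only [cw, ch_mul, Gam.mul_e, Gam_tw_mul, Gam_tw_tw, mul_assoc]
  · exact ((continuous_ch w).comp continuous_fst).mul Gam_cont_tw

theorem ga_rp {ι : Type} (w : ι → M) : GA univ (rp w) := by
  refine ⟨fun v => funext fun i => (ga_cw (w i)).one (v i),
    fun g hg h hh v => funext fun i => (ga_cw (w i)).mul g hg h hh (v i),
    Continuous.continuousOn (continuous_pi fun i => ?_)⟩
  exact ((continuous_ch (w i)).comp continuous_fst).mul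
    (Gam_cont_tw.comp (f := fun p : Gam M × (ι → ℂ) => (p.1, p.2 i)) (by fun_prop))

theorem ga_mp {κ ι : Type} (u : κ → M) (w : ι → M) : GA univ (mp u w) := by
  refine ⟨fun A => Matrix.ext fun i j => (ga_cw (u i - w j)).one (A i j),
    fun g hg h hh A => Matrix.ext fun i j => (ga_cw (u i - w j)).mul g hg h hh (A i j),
    Continuous.continuousOn (continuous_matrix fun i j => ?_)⟩
  exact ((continuous_ch (u i - w j)).comp continuous_fst).mul
    (Gam_cont_tw.comp (f := fun p : Gam M × Matrix κ ι ℂ => (p.1, p.2 i j))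
      (continuous_fst.prodMk (continuous_snd.matrix_elem i j)))

theorem ga_sa {X : Type} [TopologicalSpace X] {s : Act ℤˣ X} (h : GA univ s) :
    GA (univ : Set (Gam M)) (sa s) := by
  have he : Continuous fun g : Gam M => g.e := (Gam.continuous_iff.1 continuous_id).2
  refine ⟨h.one, fun g _ k _ x => h.mul g.e trivial k.e trivial x, ?_⟩
  exact h.cont.comp (f := fun p : Gam M × X => (p.1.e, p.2))
    ((he.comp continuous_fst).prodMk continuous_snd).continuousOn fun _ _ => ⟨trivial, trivial⟩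

theorem niso_cw (𝒢 : Set (Gam M)) (w : M) : NIso 𝒢 (cw w) := by
  refine ⟨fun g _ z => ?_, fun g _ r z => ?_⟩
  · rw [cw, norm_mul, norm_ch, one_mul]
    rcases Int.units_eq_one_or g.e with e | e <;> rw [e]
    · rw [tw_one]
    · rw [tw_neg_one, norm_star]
  · simp only [cw, Complex.real_smul, Gam_tw_mul, Gam_tw_real]
    ring

theorem niso_sg (𝒢 : Set (Gam M)) : NIso 𝒢 (sa sg) := by
  refine ⟨fun g _ z => ?_, fun g _ r z => ?_⟩
  · rcases Int.units_eq_one_or g.e with e | e <;> simp [sg, e]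
  · simp only [Act.via_apply, sg, smul_eq_mul]
    ring

theorem Gam_ga_nz {V : Type} [NormedAddCommGroup V] [NormedSpace ℝ V] {γ : Act (Gam M) V}
    (h : GA univ γ) (h' : NIso univ γ) : GA univ γ.nz := by
  refine GA.sub (𝒦 := (⊤ : Subgroup (Gam M))) h fun g _ x hx => ?_
  rw [← norm_ne_zero_iff, h'.norm_eq g trivial, norm_ne_zero_iff]
  exact hx

theorem ga_nz_cw (w : M) : GA univ (cw w).nz := by
  exact Gam_ga_nz (ga_cw w) (niso_cw univ w)

theorem ga_nz_sg : GA (univ : Set (Gam M)) (sa sg).nz := by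
  exact Gam_ga_nz (ga_sa ga_sg) (niso_sg univ)

/-- Actions of the whole group that factor through the sign. -/
structure SgnOnly {X : Type} [TopologicalSpace X] (α : Act (Gam M) X) : Prop where
  ga : GA univ α
  eq : ∀ g h : Gam M, g.e = h.e → α g = α h

section

variable {X Y : Type} [TopologicalSpace X] [TopologicalSpace Y]

theorem SgnOnly.triv : SgnOnly (triv : Act (Gam M) X) := ⟨GA.triv, fun _ _ _ => rfl⟩

theorem SgnOnly.prod {α : Act (Gam M) X} {β : Act (Gam M) Y} (h : SgnOnly α) (h' : SgnOnly β) :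
    SgnOnly (α.prod β) := by
  refine ⟨h.ga.prod h'.ga, fun g k e => funext fun p => ?_⟩
  rw [prod_apply, prod_apply, h.eq g k e, h'.eq g k e]

theorem SgnOnly.sa {s : Act ℤˣ X} (h : GA univ s) : SgnOnly (sa s : Act (Gam M) X) := by
  exact ⟨ga_sa h, fun _ _ e => congrArg s e⟩

theorem sgnOnly_sg : SgnOnly (sa sg : Act (Gam M) ℝ) := SgnOnly.sa ga_sg

end

end RB
end

-- merged part: Pool.Agent.Work.MP_666b5d_gt.Ea
section
/-!
# The tautological bundles over all Grassmannians of `ℂ ^ κ`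

Proof hints.  The entries of a Hermitian idempotent have norm `≤ 1`
(`P i i = ∑ j, ‖P i j‖ ^ 2`), so the projections form a compact set.  The trace of a Hermitian
idempotent is its rank (`LinearMap.IsProj.trace`, or eigenvalues `0, 1`).
-/

open Set Filter Topology Matrix
open scoped unitInterval

namespace RB

open Act

/-- Orthogonal projections. -/
def IsP {𝕜 κ : Type} [RCLike 𝕜] [Fintype κ] (P : Matrix κ κ 𝕜) : Prop := Pᴴ = P ∧ P * P = P

/-- The rank of a projection, read off from the trace. -/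
noncomputable def rk {𝕜 κ : Type} [RCLike 𝕜] [Fintype κ] (P : Matrix κ κ 𝕜) : ℤ :=
  round (RCLike.re P.trace)

section

variable {𝕜 κ : Type} [RCLike 𝕜] [Fintype κ] {P : Matrix κ κ 𝕜}

theorem Ea_diag (h : IsP P) (i : κ) : P i i = ((∑ j, ‖P i j‖ ^ 2 : ℝ) : 𝕜) := by
  conv_lhs => rw [← h.2, mul_apply]
  rw [RCLike.ofReal_sum]
  refine Finset.sum_congr rfl fun j _ => ?_
  rw [show P j i = star (P i j) from by rw [← conjTranspose_apply, h.1], RCLike.star_def,
    RCLike.mul_conj, RCLike.ofReal_pow]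

theorem Ea_closedP : IsClosed {P : Matrix κ κ 𝕜 | IsP P} :=
  (isClosed_eq continuous_id.matrix_conjTranspose continuous_id).inter
    (isClosed_eq (continuous_id.matrix_mul continuous_id) continuous_id)

theorem Ea_rk (h : IsP P) : ∃ n : ℕ, n ≤ Fintype.card κ ∧ P.trace = n ∧ rk P = n := by
  classical
  have h1 : IsIdempotentElem (Matrix.toLin' P) := by
    rw [IsIdempotentElem, Module.End.mul_eq_comp, ← Matrix.toLin'_mul, h.2]
  have h2 := (LinearMap.IsIdempotentElem.isProj_range _ h1).trace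
  rw [Matrix.trace_toLin'_eq] at h2
  refine ⟨_, ?_, h2, ?_⟩
  · exact (Submodule.finrank_le _).trans (Module.finrank_fintype_fun_eq_card 𝕜).le
  · rw [rk, h2, RCLike.natCast_re, round_natCast]

theorem IsP.norm_le (h : IsP P) (i j : κ) : ‖P i j‖ ≤ 1 := by
  have h1 := Ea_diag h i
  have h2 : 0 ≤ ∑ j, ‖P i j‖ ^ 2 := Finset.sum_nonneg fun _ _ => by positivity
  have h3 : ∀ k, ‖P i k‖ ^ 2 ≤ ∑ j, ‖P i j‖ ^ 2 := fun k =>
    Finset.single_le_sum (f := fun j => ‖P i j‖ ^ 2) (fun _ _ => by positivity) (Finset.mem_univ k)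
  have h4 : ‖P i i‖ = ∑ j, ‖P i j‖ ^ 2 := by
    conv_lhs => rw [h1, RCLike.norm_ofReal, abs_of_nonneg h2]
  have h5 := h3 i
  have h6 := h3 j
  rw [← h4] at h5 h6
  have h7 : ‖P i i‖ ≤ 1 := by nlinarith [norm_nonneg (P i i)]
  nlinarith [norm_nonneg (P i j)]

theorem isCompact_isP : IsCompact {P : Matrix κ κ 𝕜 | IsP P} := by
  have := FiniteDimensional.proper_rclike 𝕜 𝕜
  have hK : IsCompact (X := Matrix κ κ 𝕜)
      (Set.pi univ fun _ : κ => Set.pi univ fun _ : κ => Metric.closedBall (0 : 𝕜) 1) :=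
    isCompact_univ_pi fun _ => isCompact_univ_pi fun _ => isCompact_closedBall 0 1
  refine hK.of_isClosed_subset Ea_closedP fun P h i _ j _ => ?_
  rw [mem_closedBall_zero_iff]
  exact IsP.norm_le h i j

theorem IsP.rk_cast (h : IsP P) : ((rk P : ℤ) : 𝕜) = P.trace := by
  obtain ⟨n, -, h1, h2⟩ := Ea_rk h
  rw [h1, h2, Int.cast_natCast]

theorem IsP.rk_nonneg (h : IsP P) : 0 ≤ rk P := by
  obtain ⟨n, -, -, h2⟩ := Ea_rk h
  rw [h2]
  exact Int.natCast_nonneg n

theorem IsP.rk_le (h : IsP P) : rk P ≤ Fintype.card κ := by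
  obtain ⟨n, h0, -, h2⟩ := Ea_rk h
  rw [h2]
  exact_mod_cast h0

theorem IsP.eq_zero (h : IsP P) (h0 : P.trace = 0) : P = 0 := by
  have h1 : P.trace = ((∑ i, ∑ j, ‖P i j‖ ^ 2 : ℝ) : 𝕜) := by
    rw [RCLike.ofReal_sum]
    exact Finset.sum_congr rfl fun i _ => Ea_diag h i
  rw [h0, eq_comm, RCLike.ofReal_eq_zero, Finset.sum_eq_zero_iff_of_nonneg
    fun _ _ => Finset.sum_nonneg fun _ _ => by positivity] at h1
  ext i j
  have h2 := (Finset.sum_eq_zero_iff_of_nonneg fun _ _ => by positivity).1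
    (h1 i (Finset.mem_univ i)) j (Finset.mem_univ j)
  simpa using h2

theorem rk_locallyConstant {X : Type} [TopologicalSpace X] {F : X → Matrix κ κ 𝕜}
    (hF : Continuous F) (h : ∀ x, IsP (F x)) : IsLocallyConstant fun x => rk (F x) := by
  rw [IsLocallyConstant.iff_continuous,
    Int.isClosedEmbedding_coe_real.isInducing.continuous_iff]
  refine (RCLike.continuous_re.comp hF.matrix_trace).congr fun x => ?_
  simp only [Function.comp]
  rw [← (h x).rk_cast, RCLike.intCast_re]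

/-- The square of the Euclidean norm. -/
noncomputable def nsq (v : κ → 𝕜) : ℝ := ∑ i, ‖v i‖ ^ 2

theorem nsq_nonneg (v : κ → 𝕜) : 0 ≤ nsq v := by
  exact Finset.sum_nonneg fun _ _ => by positivity

theorem nsq_cast (v : κ → 𝕜) : ((nsq v : ℝ) : 𝕜) = star v ⬝ᵥ v := by
  simp [nsq, dotProduct, RCLike.conj_mul]

theorem continuous_nsq : Continuous (nsq : (κ → 𝕜) → ℝ) := by
  unfold nsq
  fun_prop

theorem isCompact_nsq (R : ℝ) : IsCompact {v : κ → 𝕜 | nsq v ≤ R} := by
  have := FiniteDimensional.proper_rclike 𝕜 𝕜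
  refine (isCompact_univ_pi fun _ : κ => isCompact_closedBall (0 : 𝕜) √R).of_isClosed_subset
    (isClosed_le continuous_nsq continuous_const) fun v h i _ => ?_
  rw [mem_closedBall_zero_iff]
  exact Real.le_sqrt_of_sq_le ((Finset.single_le_sum (f := fun j => ‖v j‖ ^ 2)
    (fun _ _ => by positivity) (Finset.mem_univ i)).trans h)

theorem nsq_add {v c : κ → 𝕜} (h : star v ⬝ᵥ c = 0) : nsq (v + c) = nsq v + nsq c := by
  have h' : star c ⬝ᵥ v = 0 := by rw [star_dotProduct, h, star_zero]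
  refine RCLike.ofReal_injective (K := 𝕜) ?_
  rw [RCLike.ofReal_add, nsq_cast, nsq_cast, nsq_cast, star_add, add_dotProduct, dotProduct_add,
    dotProduct_add, h, h', add_zero, zero_add]

theorem nsq_iso {κ' : Type} [Fintype κ'] [DecidableEq κ] {B : Matrix κ' κ 𝕜} (h : Bᴴ * B = 1)
    (v : κ → 𝕜) : nsq (B *ᵥ v) = nsq v := by
  refine RCLike.ofReal_injective (K := 𝕜) ?_
  rw [nsq_cast, nsq_cast, star_mulVec, ← dotProduct_mulVec, mulVec_mulVec, h, one_mulVec]

end

/-- Pairs of a projection and a vector in its range. -/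
def Ea (κ : Type) [Fintype κ] : Type :=
  {q : Matrix κ κ ℂ × (κ → ℂ) // IsP q.1 ∧ q.1 *ᵥ q.2 = q.2}

variable {M : Type} [AddCommGroup M] {κ κ' ν : Type} [Fintype κ] [Fintype κ'] [Fintype ν]

instance : TopologicalSpace (Ea κ) := inferInstanceAs (TopologicalSpace (Subtype _))

instance : T2Space (Ea κ) := inferInstanceAs (T2Space (Subtype _))

theorem Ea_closed : IsClosed {q : Matrix κ κ ℂ × (κ → ℂ) | IsP q.1 ∧ q.1 *ᵥ q.2 = q.2} :=
  (Ea_closedP.preimage continuous_fst).inter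
    (isClosed_eq (continuous_fst.matrix_mulVec continuous_snd) continuous_snd)

theorem Ea_conj [DecidableEq κ] {B : Matrix κ' κ ℂ} (hB : Bᴴ * B = 1) {P : Matrix κ κ ℂ}
    {v : κ → ℂ} {Q : Matrix κ' κ' ℂ} {c : κ' → ℂ} (ho : Bᴴ * Q = 0) (hP : IsP P ∧ P *ᵥ v = v)
    (hQ : IsP Q ∧ Q *ᵥ c = c) :
    IsP (B * P * Bᴴ + Q) ∧ (B * P * Bᴴ + Q) *ᵥ (B *ᵥ v + c) = B *ᵥ v + c := by
  have ho' : Q * B = 0 := by
    rw [← hQ.1.1, ← conjTranspose_conjTranspose B, ← conjTranspose_mul, ho, conjTranspose_zero]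
  have e1 : (B * P * Bᴴ + Q) * B = B * P := by
    rw [Matrix.add_mul, ho', add_zero, Matrix.mul_assoc, hB, Matrix.mul_one]
  have e2 : (B * P * Bᴴ + Q) * Q = Q := by
    rw [Matrix.add_mul, Matrix.mul_assoc, ho, Matrix.mul_zero, zero_add, hQ.1.2]
  refine ⟨⟨?_, ?_⟩, ?_⟩
  · rw [conjTranspose_add, conjTranspose_mul, conjTranspose_mul, conjTranspose_conjTranspose,
      hP.1.1, hQ.1.1, Matrix.mul_assoc]
  · rw [Matrix.mul_add, e2, ← Matrix.mul_assoc, ← Matrix.mul_assoc, e1, Matrix.mul_assoc B P P,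
      hP.1.2]
  · rw [mulVec_add, mulVec_mulVec, e1, ← mulVec_mulVec, hP.2, ← hQ.2, mulVec_mulVec, e2]

theorem ea_proper_snd : IsProperMap fun q : Ea κ => q.1.2 := by
  refine proper_of_compact (continuous_snd.comp continuous_subtype_val) fun K hK => ?_
  exact ⟨_, Ea_closed.isClosedEmbedding_subtypeVal.isCompact_preimage (isCompact_isP.prod hK),
    fun x hx => ⟨x.2.1, hx⟩⟩

instance : LocallyCompactSpace (Ea κ) := by
  have : LocallyCompactSpace (Matrix κ κ ℂ) := inferInstanceAs (LocallyCompactSpace (κ → κ → ℂ))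
  exact Ea_closed.locallyCompactSpace

/-- A continuous map into `Ea κ` whose vector part is proper is proper. -/
theorem proper_to_ea {X : Type} [TopologicalSpace X] {h : X → Ea κ} (hc : Continuous h)
    (hp : IsProperMap fun x => (h x).1.2) : IsProperMap h := by
  exact isProperMap_of_comp_of_t2 hc ea_proper_snd.continuous hp

/-- The action on the tautological bundle. -/
noncomputable def ea (u : κ → M) : Act (Gam M) (Ea κ) :=
  fun g q => ⟨(mp u u g q.1.1, rp u g q.1.2), by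
    refine ⟨⟨?_, ?_⟩, ?_⟩
    · rw [mp_conjTranspose, q.2.1.1]
    · rw [← mp_mul, q.2.1.2]
    · rw [mp_mulVec, q.2.2]⟩

theorem ga_ea (u : κ → M) : GA univ (ea u) := by
  refine ⟨fun q => Subtype.ext (Prod.ext ((ga_mp u u).one _) ((ga_rp u).one _)),
    fun g hg h hh q => Subtype.ext (Prod.ext ((ga_mp u u).mul g hg h hh _)
      ((ga_rp u).mul g hg h hh _)), ?_⟩
  have h1 := (ga_mp u u).cont
  have h2 := (ga_rp u).cont
  rw [univ_prod_univ, continuousOn_univ] at h1 h2 ⊢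
  have h3 : Continuous fun p : Gam M × Ea κ => p.2.1 := continuous_subtype_val.comp continuous_snd
  exact Continuous.subtype_mk ((h1.comp (continuous_fst.prodMk h3.fst)).prodMk
    (h2.comp (continuous_fst.prodMk h3.snd))) _

theorem ea_trace (u : κ → M) (g : Gam M) (q : Ea κ) : (ea u g q).1.1.trace = q.1.1.trace := by
  change (mp u u g q.1.1).trace = _
  rw [mp_trace, ← q.2.1.rk_cast, tw_eq_twR, map_intCast]

/-- Orthogonal sum. -/
def Ea.sum (q : Ea κ) (r : Ea ν) : Ea (κ ⊕ ν) :=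
  ⟨(fromBlocks q.1.1 0 0 r.1.1, Sum.elim q.1.2 r.1.2), by
    refine ⟨⟨?_, ?_⟩, ?_⟩
    · simp only [fromBlocks_conjTranspose, conjTranspose_zero, q.2.1.1, r.2.1.1]
    · simp only [fromBlocks_multiply, Matrix.mul_zero, Matrix.zero_mul, add_zero, zero_add,
        q.2.1.2, r.2.1.2]
    · simp only [fromBlocks_mulVec, zero_mulVec, add_zero, zero_add, Sum.elim_comp_inl,
        Sum.elim_comp_inr, q.2.2, r.2.2]⟩

theorem Ea.sum_proper : IsProperMap fun p : Ea κ × Ea ν => Ea.sum p.1 p.2 := by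
  have h := (Homeomorph.sumArrowHomeomorphProdArrow (X := ℂ) (ι := κ)
    (ι' := ν)).symm.isProperMap.comp (ea_proper_snd.prodMap ea_proper_snd)
  have h1 : Continuous fun p : Ea κ × Ea ν => p.1.1 := continuous_subtype_val.comp continuous_fst
  have h2 : Continuous fun p : Ea κ × Ea ν => p.2.1 := continuous_subtype_val.comp continuous_snd
  exact proper_to_ea (Continuous.subtype_mk ((h1.fst.matrix_fromBlocks continuous_const
    continuous_const h2.fst).prodMk h.continuous) _) h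

theorem Ea.sum_trace (q : Ea κ) (r : Ea ν) :
    (Ea.sum q r).1.1.trace = q.1.1.trace + r.1.1.trace := by
  simp [Ea.sum, trace, Fintype.sum_sum_type]

theorem Ea.sum_ea (u : κ → M) (ω : ν → M) (g : Gam M) (q : Ea κ) (r : Ea ν) :
    Ea.sum (ea u g q) (ea ω g r) = ea (Sum.elim u ω) g (Ea.sum q r) := by
  refine Subtype.ext (Prod.ext ?_ ?_)
  · ext (i | i) (j | j)
    · rfl
    · simp [Ea.sum, ea, mp_apply, tw_eq_twR]
    · simp [Ea.sum, ea, mp_apply, tw_eq_twR]
    · rfl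
  · funext i
    cases i <;> rfl

/-- The whole space with a vector. -/
def Ea.full [DecidableEq ν] (z : ν → ℂ) : Ea ν := ⟨(1, z), by exact ⟨⟨conjTranspose_one, Matrix.mul_one _⟩, one_mulVec _⟩⟩

theorem Ea.full_proper [DecidableEq ν] : IsProperMap (Ea.full : (ν → ℂ) → Ea ν) := by
  exact proper_to_ea (Continuous.subtype_mk (continuous_const.prodMk continuous_id) _)
    isProperMap_id

theorem Ea.full_ea [DecidableEq ν] (ω : ν → M) (g : Gam M) (z : ν → ℂ) :
    Ea.full (rp ω g z) = ea ω g (Ea.full z) := by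
  exact Subtype.ext (Prod.ext (mp_one ω g).symm rfl)

theorem Ea.full_trace [DecidableEq ν] (z : ν → ℂ) :
    (Ea.full z).1.1.trace = (Fintype.card ν : ℂ) := by
  exact trace_one

open Classical in
/-- The matrix of a map of index sets. -/
noncomputable def emb {κ κ' : Type} (b : κ → κ') : Matrix κ' κ ℂ :=
  Matrix.of fun j' j => if j' = b j then 1 else 0

theorem emb_iso [DecidableEq κ] {b : κ → κ'} (hb : Function.Injective b) :
    (emb b)ᴴ * emb b = 1 := by
  ext j k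
  rw [mul_apply, Finset.sum_eq_single (b j) (fun x _ hx => by simp [emb, hx]) (by simp)]
  simp [emb, one_apply, hb.eq_iff]

theorem emb_conjTranspose_mulVec (b : κ → κ') (v : κ' → ℂ) : (emb b)ᴴ *ᵥ v = v ∘ b := by
  funext j
  rw [mulVec, dotProduct, Finset.sum_eq_single (b j) (fun x _ hx => by simp [emb, hx]) (by simp)]
  simp [emb]

omit [Fintype κ] [Fintype κ'] in
theorem emb_inv {𝒢 : Set (Gam M)} {u : κ → M} {u' : κ' → M} {b : κ → κ'}
    (h : ∀ g ∈ 𝒢, ∀ j, ch g (u' (b j)) = ch g (u j)) : MInv 𝒢 u' u (emb b) := by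
  intro g hg
  ext j' j
  by_cases e : j' = b j
  · rw [mp_apply, e, ch_sub, h g hg, mul_comm (ch g (u j)), star_ch_mul]
    simp [emb, tw_eq_twR]
  · simp [mp_apply, emb, e, tw_eq_twR]

/-- Extension by zero along an embedding of index sets. -/
noncomputable def Ea.ext0 (b : κ ↪ κ') (q : Ea κ) : Ea κ' :=
  ⟨(emb b * q.1.1 * (emb b)ᴴ, emb b *ᵥ q.1.2), by
    classical
    simpa only [add_zero] using Ea_conj (emb_iso b.injective) (Q := 0) (c := 0)
      (Matrix.mul_zero _) q.2 ⟨⟨conjTranspose_zero, Matrix.mul_zero _⟩, zero_mulVec _⟩⟩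

theorem Ea.ext0_eq (b : κ ↪ κ') {q : Ea κ} {q' : Ea κ'}
    (h₁ : ∀ j k, q'.1.1 (b j) (b k) = q.1.1 j k) (h₂ : ∀ j' ∉ range b, ∀ k', q'.1.1 j' k' = 0)
    (h₃ : ∀ j, q'.1.2 (b j) = q.1.2 j) : Ea.ext0 b q = q' := by
  classical
  have e0 : ∀ j' ∉ range b, ∀ j, emb b j' j = 0 := fun j' hj j =>
    if_neg fun e => hj ⟨j, e.symm⟩
  have e1 : ∀ j k, emb b (b j) k = (1 : Matrix κ κ ℂ) j k := fun j k => by
    simp [emb, one_apply]
  refine Subtype.ext (Prod.ext ?_ ?_)
  · ext j' k'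
    change (emb b * q.1.1 * (emb b)ᴴ) j' k' = _
    by_cases hj : j' ∈ range b
    · by_cases hk : k' ∈ range b
      · obtain ⟨j, rfl⟩ := hj
        obtain ⟨k, rfl⟩ := hk
        simp [mul_apply, e1, one_apply, h₁]
      · rw [← q'.2.1.1, conjTranspose_apply, h₂ k' hk]
        simp [mul_apply, e0 k' hk]
    · rw [h₂ j' hj]
      simp [mul_apply, e0 j' hj]
  · funext j'
    change (emb b *ᵥ q.1.2) j' = _
    by_cases hj : j' ∈ range b
    · obtain ⟨j, rfl⟩ := hj
      simp [mulVec, dotProduct, e1, one_apply, h₃]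
    · rw [← q'.2.2]
      simp [mulVec, dotProduct, e0 j' hj, h₂ j' hj]

/-! ### Families of transitions -/

/-- Product with a target factor. -/
def Tr.prodY {A T A' T' : Type} [TopologicalSpace A] [TopologicalSpace T] [TopologicalSpace A']
    [TopologicalSpace T'] (μ : Tr A T A' T') (Y : Type) [TopologicalSpace Y] :
    Tr A (T × Y) A' (T' × Y) where
  a := μ.a
  Ψ q := (μ.Ψ (q.1.1, q.2), q.1.2)
  ca := μ.ca
  cΨ := by
    exact (μ.cΨ.comp (continuous_fst.fst.prodMk continuous_snd)).prodMk continuous_fst.snd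
  p1 := by
    intro K' hK'
    obtain ⟨K, hK, h⟩ := μ.p1 _ (hK'.image continuous_fst)
    exact ⟨_, hK.prod (hK'.image continuous_snd), fun t x hx =>
      ⟨h _ _ ⟨_, hx, rfl⟩, ⟨_, hx, rfl⟩⟩⟩
  p2 := by
    intro K' C hK' hC
    obtain ⟨C', hC', h⟩ := μ.p2 _ _ (hK'.image continuous_fst) hC
    exact ⟨C', hC', fun t x hx hx' => h _ _ ⟨_, hx, rfl⟩ hx'⟩

theorem Tr.Eqv.prodY {S A T A' T' : Type} [TopologicalSpace A] [TopologicalSpace T]
    [TopologicalSpace A'] [TopologicalSpace T'] {μ : Tr A T A' T'} {𝒢 : Set S} {α : Act S A}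
    {τ : Act S T} {α' : Act S A'} {τ' : Act S T'} (h : μ.Eqv 𝒢 α τ α' τ') {Y : Type}
    [TopologicalSpace Y] (β : Act S Y) : (μ.prodY Y).Eqv 𝒢 α (τ.prod β) α' (τ'.prod β) := by
  exact ⟨h.ea, fun g hg t x => Prod.ext (h.eΨ g hg t.1 x) rfl⟩

/-- A family of isometries `B x` with a complementary datum `r x`. -/
structure Fam (A A' κ κ' : Type) [TopologicalSpace A] [TopologicalSpace A'] [Fintype κ]
    [DecidableEq κ] [Fintype κ'] where
  a : A' → A
  B : A' → Matrix κ' κ ℂ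
  r : A' → Ea κ'
  ca : Continuous a
  cB : Continuous B
  cr : Continuous r
  iso : ∀ x, (B x)ᴴ * B x = 1
  orth : ∀ x, (B x)ᴴ * (r x).1.1 = 0
  proper : IsProperMap fun x => (a x, (r x).1.2)

variable {A A' : Type} [TopologicalSpace A] [TopologicalSpace A'] [DecidableEq κ]

theorem Fam.Ea_nsq (F : Fam A A' κ κ') (x : A') (v : κ → ℂ) :
    nsq (F.B x *ᵥ v + (F.r x).1.2) = nsq v + nsq (F.r x).1.2 := by
  rw [nsq_add, nsq_iso (F.iso x)]
  rw [star_mulVec, ← dotProduct_mulVec, ← (F.r x).2.2, mulVec_mulVec, F.orth, zero_mulVec,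
    dotProduct_zero]

/-- The transition `(P, v) ↦ (B P Bᴴ + Q, B v + c)`. -/
noncomputable def Fam.tr (F : Fam A A' κ κ') : Tr A (Ea κ) A' (Ea κ') where
  a := F.a
  Ψ p := ⟨(F.B p.2 * p.1.1.1 * (F.B p.2)ᴴ + (F.r p.2).1.1, F.B p.2 *ᵥ p.1.1.2 + (F.r p.2).1.2),
    by exact Ea_conj (F.iso p.2) (F.orth p.2) p.1.2 (F.r p.2).2⟩
  ca := F.ca
  cΨ := by
    have h1 : Continuous fun p : Ea κ × A' => p.1.1 := continuous_subtype_val.comp continuous_fst
    have h2 : Continuous fun p : Ea κ × A' => (F.r p.2).1 :=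
      continuous_subtype_val.comp (F.cr.comp continuous_snd)
    have h3 : Continuous fun p : Ea κ × A' => F.B p.2 := F.cB.comp continuous_snd
    exact Continuous.subtype_mk
      ((((h3.matrix_mul h1.fst).matrix_mul h3.matrix_conjTranspose).add h2.fst).prodMk
        ((h3.matrix_mulVec h1.snd).add h2.snd)) _
  p1 := by
    intro K' hK'
    obtain ⟨R, hR⟩ := hK'.bddAbove_image
      (continuous_nsq.comp ea_proper_snd.continuous).continuousOn
    refine ⟨_, ea_proper_snd.isCompact_preimage (isCompact_nsq R), fun t x hx => ?_⟩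
    have h1 : nsq (F.B x *ᵥ t.1.2 + (F.r x).1.2) ≤ R := hR ⟨_, hx, rfl⟩
    rw [F.Ea_nsq] at h1
    change nsq t.1.2 ≤ R
    linarith [nsq_nonneg (F.r x).1.2]
  p2 := by
    intro K' C hK' hC
    obtain ⟨R, hR⟩ := hK'.bddAbove_image
      (continuous_nsq.comp ea_proper_snd.continuous).continuousOn
    refine ⟨_, F.proper.isCompact_preimage (hC.prod (isCompact_nsq R)), fun t x hx hx' =>
      ⟨hx', ?_⟩⟩
    have h1 : nsq (F.B x *ᵥ t.1.2 + (F.r x).1.2) ≤ R := hR ⟨_, hx, rfl⟩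
    rw [F.Ea_nsq] at h1
    change nsq (F.r x).1.2 ≤ R
    linarith [nsq_nonneg t.1.2]

theorem Fam.tr_trace (F : Fam A A' κ κ') (q : Ea κ) (x : A') :
    (F.tr.Ψ (q, x)).1.1.trace = q.1.1.trace + (F.r x).1.1.trace := by
  change (F.B x * q.1.1 * (F.B x)ᴴ + (F.r x).1.1).trace = _
  rw [trace_add, trace_mul_cycle, F.iso, Matrix.one_mul]

theorem Fam.eqv (F : Fam A A' κ κ') {𝒢 : Set (Gam M)} {α : Act (Gam M) A} {α' : Act (Gam M) A'}
    {u : κ → M} {u' : κ' → M} (ha : ∀ g ∈ 𝒢, ∀ x, F.a (α' g x) = α g (F.a x))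
    (hB : ∀ g ∈ 𝒢, ∀ x, F.B (α' g x) = mp u' u g (F.B x))
    (hr : ∀ g ∈ 𝒢, ∀ x, F.r (α' g x) = ea u' g (F.r x)) : F.tr.Eqv 𝒢 α (ea u) α' (ea u') := by
  refine ⟨ha, fun g hg t x => Subtype.ext (Prod.ext ?_ ?_)⟩
  · change F.B (α' g x) * mp u u g t.1.1 * (F.B (α' g x))ᴴ + (F.r (α' g x)).1.1 =
      mp u' u' g (F.B x * t.1.1 * (F.B x)ᴴ + (F.r x).1.1)
    rw [hB g hg, hr g hg, mp_add, mp_mul u' u' u, mp_mul u' u u, mp_conjTranspose]
    rfl
  · change F.B (α' g x) *ᵥ rp u g t.1.2 + (F.r (α' g x)).1.2 =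
      rp u' g (F.B x *ᵥ t.1.2 + (F.r x).1.2)
    rw [hB g hg, hr g hg, rp_add, mp_mulVec]
    rfl

end RB
end

-- merged part: Pool.Agent.Work.MP_666b5d_gt.Mor
section
/-!
# Matrix morphisms between levels and the rotation lemma

A morphism `(A, B, C)` sends `f` to `v' ↦ (B P Bᴴ + C Cᴴ, B v + C v')`, `(P, v) = f (Aᴴ v')`.

Proof plan for `exists_path`.  Let `c = cos (π t / 2)`, `s = sin (π t / 2)`, `E = A Aᴴ`.  Put
`A_t = fromRows (s • A) (c • 1)`, `B_t = fromRows 0 (fromRows (c • 1) (fromRows (s • B) 0))`,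
`C'_t = fromRows (c • 1) (fromRows 0 (fromRows (s • C) (-(s • Aᴴ))))`,
`Q_t = fromCols (1 - (1 - c) • E) (-(s • A))`, `C_t = C'_t * Q_t`.  Then `C'_tᴴ C'_t = 1`,
`Q_tᴴ Q_t = 1 - A_t A_tᴴ`, `B_tᴴ C'_t = 0` (use `C * A = 0`, which follows from
`(C A)ᴴ (C A) = 0`).  This is a path of morphisms from `std` (`t = 0`) to `μ.comp nu` (`t = 1`); make
it a `Fam` on `(ι' ⊕ ι → ℂ) × I` (`nsq v' = nsq (A_tᴴ v') + nsq (C_t v')`).
-/

open Set Filter Topology Matrix
open scoped unitInterval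

namespace RB

open Act

/-- Matrix morphisms. -/
structure MMor (ι κ ι' κ' : Type) [Fintype ι] [DecidableEq ι] [Fintype κ] [DecidableEq κ]
    [Fintype ι'] [DecidableEq ι'] [Fintype κ'] where
  A : Matrix ι' ι ℂ
  B : Matrix κ' κ ℂ
  C : Matrix κ' ι' ℂ
  hA : Aᴴ * A = 1
  hB : Bᴴ * B = 1
  hC : Cᴴ * C = 1 - A * Aᴴ
  hBC : Bᴴ * C = 0

variable {M : Type} [AddCommGroup M] {ι κ ι' κ' ι'' κ'' : Type} [Fintype ι] [DecidableEq ι]
  [Fintype κ] [DecidableEq κ] [Fintype ι'] [DecidableEq ι'] [Fintype κ'] [DecidableEq κ']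
  [Fintype ι''] [DecidableEq ι''] [Fintype κ''] [DecidableEq κ'']

section MorInv

variable {𝒢 : Set (Gam M)} {α β γ : Type} {u : α → M} {w : β → M} {x : γ → M}

theorem Mor_inv_zero : MInv 𝒢 u w 0 := fun g _ => mp_zero u w g

theorem Mor_inv_one [DecidableEq α] : MInv 𝒢 u u 1 := fun g _ => mp_one u g

theorem Mor_inv_mul [Fintype γ] {A : Matrix α γ ℂ} {B : Matrix γ β ℂ} (hA : MInv 𝒢 u x A)
    (hB : MInv 𝒢 x w B) : MInv 𝒢 u w (A * B) := fun g hg => by
  rw [mp_mul u w x g, hA g hg, hB g hg]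

theorem Mor_inv_ct {A : Matrix α β ℂ} (hA : MInv 𝒢 u w A) : MInv 𝒢 w u Aᴴ := fun g hg => by
  rw [← mp_conjTranspose, hA g hg]

theorem Mor_inv_add {A B : Matrix α β ℂ} (hA : MInv 𝒢 u w A) (hB : MInv 𝒢 u w B) :
    MInv 𝒢 u w (A + B) := fun g hg => by
  rw [mp_add, hA g hg, hB g hg]

theorem Mor_inv_neg {A : Matrix α β ℂ} (hA : MInv 𝒢 u w A) : MInv 𝒢 u w (-A) := fun g hg => by
  rw [mp_neg, hA g hg]

theorem Mor_inv_sub {A B : Matrix α β ℂ} (hA : MInv 𝒢 u w A) (hB : MInv 𝒢 u w B) :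
    MInv 𝒢 u w (A - B) := by
  rw [sub_eq_add_neg]; exact Mor_inv_add hA (Mor_inv_neg hB)

theorem Mor_inv_smul (r : ℝ) {A : Matrix α β ℂ} (hA : MInv 𝒢 u w A) :
    MInv 𝒢 u w ((r : ℂ) • A) := fun g hg => by
  rw [mp_smul, hA g hg]

theorem Mor_inv_rows {A : Matrix α β ℂ} {B : Matrix γ β ℂ} (hA : MInv 𝒢 u w A)
    (hB : MInv 𝒢 x w B) : MInv 𝒢 (Sum.elim u x) w (fromRows A B) := fun g hg => by
  ext i j
  rcases i with i | i
  · exact congrFun (congrFun (hA g hg) i) j
  · exact congrFun (congrFun (hB g hg) i) j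

theorem Mor_inv_cols {A : Matrix α β ℂ} {B : Matrix α γ ℂ} (hA : MInv 𝒢 u w A)
    (hB : MInv 𝒢 u x B) : MInv 𝒢 u (Sum.elim w x) (fromCols A B) := fun g hg => by
  ext i j
  rcases j with j | j
  · exact congrFun (congrFun (hA g hg) i) j
  · exact congrFun (congrFun (hB g hg) i) j

theorem Mor_inv_blocks {δ : Type} {y : δ → M} {A : Matrix α β ℂ} {B : Matrix α γ ℂ}
    {C : Matrix δ β ℂ} {D : Matrix δ γ ℂ} (hA : MInv 𝒢 u w A) (hB : MInv 𝒢 u x B)
    (hC : MInv 𝒢 y w C) (hD : MInv 𝒢 y x D) :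
    MInv 𝒢 (Sum.elim u y) (Sum.elim w x) (fromBlocks A B C D) := by
  rw [← fromRows_fromCols_eq_fromBlocks]
  exact Mor_inv_rows (Mor_inv_cols hA hB) (Mor_inv_cols hC hD)

theorem Mor_inv_mulVec [Fintype β] {A : Matrix α β ℂ} (hA : MInv 𝒢 u w A) {g : Gam M}
    (hg : g ∈ 𝒢) (v : β → ℂ) : A *ᵥ rp w g v = rp u g (A *ᵥ v) := by
  rw [← mp_mulVec u w g, hA g hg]

end MorInv

namespace MMor

section MorAlg

variable (μ : MMor ι κ ι' κ') {ρ : Type}

omit [DecidableEq κ'] in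
theorem Mor_CA : μ.C * μ.A = 0 := by
  have h : (μ.C * μ.A)ᴴ * (μ.C * μ.A) = 0 := by
    rw [conjTranspose_mul, Matrix.mul_assoc, ← Matrix.mul_assoc μ.Cᴴ, μ.hC, Matrix.sub_mul,
      Matrix.one_mul, Matrix.mul_assoc, μ.hA, Matrix.mul_one, sub_self, Matrix.mul_zero]
  open scoped ComplexOrder in exact conjTranspose_mul_self_eq_zero.1 h

omit [DecidableEq κ'] in
theorem Mor_AC : μ.Aᴴ * μ.Cᴴ = 0 := by
  rw [← conjTranspose_mul, μ.Mor_CA, conjTranspose_zero]

omit [DecidableEq κ'] in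
theorem Mor_CB : μ.Cᴴ * μ.B = 0 := by
  have h := congrArg conjTranspose μ.hBC
  rwa [conjTranspose_mul, conjTranspose_conjTranspose, conjTranspose_zero] at h

omit [DecidableEq κ'] in
theorem Mor_AA' (X : Matrix ι ρ ℂ) : μ.Aᴴ * (μ.A * X) = X := by
  rw [← Matrix.mul_assoc, μ.hA, Matrix.one_mul]

omit [DecidableEq κ'] in
theorem Mor_BB' (X : Matrix κ ρ ℂ) : μ.Bᴴ * (μ.B * X) = X := by
  rw [← Matrix.mul_assoc, μ.hB, Matrix.one_mul]

omit [DecidableEq κ'] in
theorem Mor_CC' (X : Matrix ι' ρ ℂ) : μ.Cᴴ * (μ.C * X) = X - μ.A * (μ.Aᴴ * X) := by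
  rw [← Matrix.mul_assoc, μ.hC, Matrix.sub_mul, Matrix.one_mul, Matrix.mul_assoc]

omit [DecidableEq κ'] in
theorem Mor_BC' (X : Matrix ι' ρ ℂ) : μ.Bᴴ * (μ.C * X) = 0 := by
  rw [← Matrix.mul_assoc, μ.hBC, Matrix.zero_mul]

omit [DecidableEq κ'] in
theorem Mor_CB' (X : Matrix κ ρ ℂ) : μ.Cᴴ * (μ.B * X) = 0 := by
  rw [← Matrix.mul_assoc, μ.Mor_CB, Matrix.zero_mul]

omit [DecidableEq κ'] in
theorem Mor_CA' (X : Matrix ι ρ ℂ) : μ.C * (μ.A * X) = 0 := by
  rw [← Matrix.mul_assoc, μ.Mor_CA, Matrix.zero_mul]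

omit [DecidableEq κ'] in
theorem Mor_AC' (X : Matrix κ' ρ ℂ) : μ.Aᴴ * (μ.Cᴴ * X) = 0 := by
  rw [← Matrix.mul_assoc, μ.Mor_AC, Matrix.zero_mul]

omit [DecidableEq κ'] in
theorem Mor_CCC : μ.C * μ.Cᴴ * μ.C = μ.C := by
  rw [Matrix.mul_assoc, μ.hC, Matrix.mul_sub, Matrix.mul_one, μ.Mor_CA', sub_zero]

omit [DecidableEq κ'] in
theorem Mor_mem (v : ι' → ℂ) : IsP (μ.C * μ.Cᴴ) ∧ (μ.C * μ.Cᴴ) *ᵥ (μ.C *ᵥ v) = μ.C *ᵥ v := by
  refine ⟨⟨?_, ?_⟩, ?_⟩
  · rw [conjTranspose_mul, conjTranspose_conjTranspose]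
  · rw [← Matrix.mul_assoc, μ.Mor_CCC]
  · rw [mulVec_mulVec, μ.Mor_CCC]

omit [DecidableEq κ'] in
theorem Mor_orth : μ.Bᴴ * (μ.C * μ.Cᴴ) = 0 := μ.Mor_BC' _

omit [DecidableEq κ'] in
theorem Mor_recover (v : ι' → ℂ) : μ.A *ᵥ (μ.Aᴴ *ᵥ v) + μ.Cᴴ *ᵥ (μ.C *ᵥ v) = v := by
  rw [mulVec_mulVec, mulVec_mulVec, μ.hC, ← add_mulVec, add_sub_cancel, one_mulVec]

omit [DecidableEq κ'] in
theorem Mor_trace : (μ.C * μ.Cᴴ).trace = (Fintype.card ι' : ℂ) - (Fintype.card ι : ℂ) := by
  rw [trace_mul_comm, μ.hC, trace_sub, trace_mul_comm, μ.hA, trace_one, trace_one]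

end MorAlg

/-- The family attached to a morphism. -/
noncomputable def fam (μ : MMor ι κ ι' κ') : Fam (ι → ℂ) (ι' → ℂ) κ κ' where
  a v := μ.Aᴴ *ᵥ v
  B _ := μ.B
  r v := ⟨(μ.C * μ.Cᴴ, μ.C *ᵥ v), by exact μ.Mor_mem v⟩
  ca := by exact continuous_const.matrix_mulVec continuous_id
  cB := continuous_const
  cr := by
    exact (continuous_const.prodMk (continuous_const.matrix_mulVec continuous_id)).subtype_mk _
  iso _ := μ.hB
  orth := by exact fun _ => μ.Mor_orth
  proper := by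
    exact proper_of_leftInverse (r := fun p : (ι → ℂ) × (κ' → ℂ) => μ.A *ᵥ p.1 + μ.Cᴴ *ᵥ p.2)
      ((continuous_const.matrix_mulVec continuous_id).prodMk
        (continuous_const.matrix_mulVec continuous_id))
      ((continuous_const.matrix_mulVec continuous_fst).add
        (continuous_const.matrix_mulVec continuous_snd)) μ.Mor_recover

/-- The transition data of a morphism. -/
noncomputable def tr (μ : MMor ι κ ι' κ') : Tr (ι → ℂ) (Ea κ) (ι' → ℂ) (Ea κ') := μ.fam.tr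

theorem tr_a (μ : MMor ι κ ι' κ') (v : ι' → ℂ) : μ.tr.a v = μ.Aᴴ *ᵥ v := rfl

theorem tr_Ψ (μ : MMor ι κ ι' κ') (q : Ea κ) (v : ι' → ℂ) : (μ.tr.Ψ (q, v)).1 =
    (μ.B * q.1.1 * μ.Bᴴ + μ.C * μ.Cᴴ, μ.B *ᵥ q.1.2 + μ.C *ᵥ v) := rfl

theorem tr_trace (μ : MMor ι κ ι' κ') (q : Ea κ) (v : ι' → ℂ) :
    (μ.tr.Ψ (q, v)).1.1.trace - (Fintype.card ι' : ℂ) = q.1.1.trace - (Fintype.card ι : ℂ) := by
  have h : (μ.tr.Ψ (q, v)).1.1.trace = q.1.1.trace + (μ.C * μ.Cᴴ).trace := μ.fam.tr_trace q v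
  rw [h, μ.Mor_trace]; ring

/-- Equivariance of a morphism. -/
structure Inv (μ : MMor ι κ ι' κ') (𝒢 : Set (Gam M)) (w : ι → M) (u : κ → M) (w' : ι' → M)
    (u' : κ' → M) : Prop where
  hA : MInv 𝒢 w' w μ.A
  hB : MInv 𝒢 u' u μ.B
  hC : MInv 𝒢 u' w' μ.C

omit [DecidableEq κ'] in
theorem Inv.Mor_r {μ : MMor ι κ ι' κ'} {𝒢 : Set (Gam M)} {w : ι → M} {u : κ → M} {w' : ι' → M}
    {u' : κ' → M} (h : μ.Inv 𝒢 w u w' u') {g : Gam M} (hg : g ∈ 𝒢) (v : ι' → ℂ) :
    μ.fam.r (rp w' g v) = ea u' g (μ.fam.r v) :=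
  Subtype.ext (Prod.ext (Mor_inv_mul h.hC (Mor_inv_ct h.hC) g hg).symm (Mor_inv_mulVec h.hC hg v))

theorem Inv.eqv {μ : MMor ι κ ι' κ'} {𝒢 : Set (Gam M)} {w : ι → M} {u : κ → M} {w' : ι' → M}
    {u' : κ' → M} (h : μ.Inv 𝒢 w u w' u') : μ.tr.Eqv 𝒢 (rp w) (ea u) (rp w') (ea u') := by
  exact μ.fam.eqv (fun g hg v => Mor_inv_mulVec (Mor_inv_ct h.hA) hg v)
    (fun g hg _ => (h.hB g hg).symm) fun g hg v => h.Mor_r hg v

/-- First `μ`, then `ν`. -/
noncomputable def comp (μ : MMor ι κ ι' κ') (ν : MMor ι' κ' ι'' κ'') : MMor ι κ ι'' κ'' where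
  A := ν.A * μ.A
  B := ν.B * μ.B
  C := ν.B * μ.C * ν.Aᴴ + ν.C
  hA := by rw [conjTranspose_mul, Matrix.mul_assoc, ν.Mor_AA', μ.hA]
  hB := by rw [conjTranspose_mul, Matrix.mul_assoc, ν.Mor_BB', μ.hB]
  hC := by
    simp only [conjTranspose_add, conjTranspose_mul, conjTranspose_conjTranspose, Matrix.add_mul,
      Matrix.mul_add, Matrix.mul_assoc, ν.Mor_BB', ν.Mor_CB', ν.hBC, ν.hC, μ.Mor_CC',
      Matrix.mul_sub, Matrix.mul_zero, add_zero, zero_add]
    abel
  hBC := by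
    simp only [conjTranspose_mul, Matrix.mul_add, Matrix.mul_assoc, ν.Mor_BB', ν.hBC, μ.Mor_BC',
      Matrix.mul_zero, add_zero]

theorem tr_comp (μ : MMor ι κ ι' κ') (ν : MMor ι' κ' ι'' κ'') :
    (μ.comp ν).tr = μ.tr.comp ν.tr := by
  refine Tr.ext (fun v => ?_) fun q v => Subtype.ext (Prod.ext ?_ ?_)
  · change (ν.A * μ.A)ᴴ *ᵥ v = μ.Aᴴ *ᵥ (ν.Aᴴ *ᵥ v)
    rw [conjTranspose_mul, mulVec_mulVec]
  · change ν.B * μ.B * q.1.1 * (ν.B * μ.B)ᴴ +
      (ν.B * μ.C * ν.Aᴴ + ν.C) * (ν.B * μ.C * ν.Aᴴ + ν.C)ᴴ =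
      ν.B * (μ.B * q.1.1 * μ.Bᴴ + μ.C * μ.Cᴴ) * ν.Bᴴ + ν.C * ν.Cᴴ
    simp only [conjTranspose_add, conjTranspose_mul, conjTranspose_conjTranspose, Matrix.add_mul,
      Matrix.mul_add, Matrix.mul_assoc, ν.Mor_AA', ν.Mor_CA', ν.Mor_AC, Matrix.mul_zero, add_zero,
      zero_add, add_assoc]
  · change (ν.B * μ.B) *ᵥ q.1.2 + (ν.B * μ.C * ν.Aᴴ + ν.C) *ᵥ v =
      ν.B *ᵥ (μ.B *ᵥ q.1.2 + μ.C *ᵥ (ν.Aᴴ *ᵥ v)) + ν.C *ᵥ v
    simp only [mulVec_add, add_mulVec, mulVec_mulVec, Matrix.mul_assoc, add_assoc]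

theorem Inv.comp {μ : MMor ι κ ι' κ'} {ν : MMor ι' κ' ι'' κ''} {𝒢 : Set (Gam M)} {w : ι → M}
    {u : κ → M} {w' : ι' → M} {u' : κ' → M} {w'' : ι'' → M} {u'' : κ'' → M}
    (h : μ.Inv 𝒢 w u w' u') (h' : ν.Inv 𝒢 w' u' w'' u'') : (μ.comp ν).Inv 𝒢 w u w'' u'' := by
  exact ⟨Mor_inv_mul h'.hA h.hA, Mor_inv_mul h'.hB h.hB,
    Mor_inv_add (Mor_inv_mul (Mor_inv_mul h'.hB h.hC) (Mor_inv_ct h'.hA)) h'.hC⟩

/-- The standard stabilisation by `ι'` and enlargement by `κ' ⊕ ι`. -/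
noncomputable def std (ι κ ι' κ' : Type) [Fintype ι] [DecidableEq ι] [Fintype κ] [DecidableEq κ]
    [Fintype ι'] [DecidableEq ι'] [Fintype κ'] : MMor ι κ (ι' ⊕ ι) (ι' ⊕ κ ⊕ κ' ⊕ ι) where
  A := fromRows 0 1
  B := fromRows 0 (fromRows 1 0)
  C := fromBlocks 1 0 0 0
  hA := by simp [conjTranspose_fromRows_eq_fromCols_conjTranspose, fromCols_mul_fromRows]
  hB := by simp [conjTranspose_fromRows_eq_fromCols_conjTranspose, fromCols_mul_fromRows]
  hC := by
    rw [conjTranspose_fromRows_eq_fromCols_conjTranspose, fromRows_mul_fromCols,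
      fromBlocks_conjTranspose, fromBlocks_multiply, ← fromBlocks_one, sub_eq_add_neg,
      fromBlocks_neg, fromBlocks_add]
    simp
  hBC := by
    rw [conjTranspose_fromRows_eq_fromCols_conjTranspose, fromCols_mul_fromBlocks]
    simp

/-- The other morphism into the same level. -/
noncomputable def nu (ι κ ι' κ' : Type) [Fintype ι] [DecidableEq ι] [Fintype κ]
    [Fintype ι'] [DecidableEq ι'] [Fintype κ'] [DecidableEq κ'] :
    MMor ι' κ' (ι' ⊕ ι) (ι' ⊕ κ ⊕ κ' ⊕ ι) where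
  A := fromRows 1 0
  B := fromRows 0 (fromRows 0 (fromRows 1 0))
  C := fromBlocks 0 0 0 (fromRows 0 (fromRows 0 1))
  hA := by simp [conjTranspose_fromRows_eq_fromCols_conjTranspose, fromCols_mul_fromRows]
  hB := by simp [conjTranspose_fromRows_eq_fromCols_conjTranspose, fromCols_mul_fromRows]
  hC := by
    rw [conjTranspose_fromRows_eq_fromCols_conjTranspose, fromRows_mul_fromCols,
      fromBlocks_conjTranspose, fromBlocks_multiply, ← fromBlocks_one, sub_eq_add_neg,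
      fromBlocks_neg, fromBlocks_add]
    simp [conjTranspose_fromRows_eq_fromCols_conjTranspose, fromCols_mul_fromRows]
  hBC := by
    rw [conjTranspose_fromRows_eq_fromCols_conjTranspose, fromCols_mul_fromBlocks]
    simp [conjTranspose_fromRows_eq_fromCols_conjTranspose, fromCols_mul_fromRows]

theorem std_a (v : ι' ⊕ ι → ℂ) : (std ι κ ι' κ').tr.a v = v ∘ Sum.inr := by
  change (fromRows (0 : Matrix ι' ι ℂ) (1 : Matrix ι ι ℂ))ᴴ *ᵥ v = _
  rw [conjTranspose_fromRows_eq_fromCols_conjTranspose, fromCols_mulVec]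
  simp

theorem std_Ψ (q : Ea κ) (v : ι' ⊕ ι → ℂ) : ((std ι κ ι' κ').tr.Ψ (q, v)).1 =
    (fromBlocks 1 0 0 (fromBlocks q.1.1 0 0 0), Sum.elim (v ∘ Sum.inl) (Sum.elim q.1.2 0)) := by
  rw [tr_Ψ]
  refine Prod.ext ?_ ?_
  · simp only [std]
    rw [conjTranspose_fromRows_eq_fromCols_conjTranspose, fromRows_mul, fromRows_mul_fromCols,
      fromBlocks_conjTranspose, fromBlocks_multiply, fromBlocks_add,
      conjTranspose_fromRows_eq_fromCols_conjTranspose, fromRows_mul, fromRows_mul_fromCols]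
    simp
  · simp only [std]
    rw [fromRows_mulVec, fromRows_mulVec, fromBlocks_mulVec]
    ext i
    rcases i with i | i | i <;> simp

theorem std_inv (w : ι → M) (u : κ → M) (w' : ι' → M) (u' : κ' → M) :
    (std ι κ ι' κ').Inv univ w u (Sum.elim w' w) (Sum.elim w' (Sum.elim u (Sum.elim u' w))) := by
  exact ⟨Mor_inv_rows Mor_inv_zero Mor_inv_one,
    Mor_inv_rows Mor_inv_zero (Mor_inv_rows Mor_inv_one Mor_inv_zero),
    Mor_inv_blocks Mor_inv_one Mor_inv_zero Mor_inv_zero Mor_inv_zero⟩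

theorem nu_inv (w : ι → M) (u : κ → M) (w' : ι' → M) (u' : κ' → M) :
    (nu ι κ ι' κ').Inv univ w' u' (Sum.elim w' w) (Sum.elim w' (Sum.elim u (Sum.elim u' w))) := by
  exact ⟨Mor_inv_rows Mor_inv_one Mor_inv_zero,
    Mor_inv_rows Mor_inv_zero (Mor_inv_rows Mor_inv_zero (Mor_inv_rows Mor_inv_one Mor_inv_zero)),
    Mor_inv_blocks Mor_inv_zero Mor_inv_zero Mor_inv_zero
      (Mor_inv_rows Mor_inv_zero (Mor_inv_rows Mor_inv_zero Mor_inv_one))⟩

omit [DecidableEq κ'] in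
theorem Mor_ext {μ ν : MMor ι κ ι' κ'} (hA : μ.A = ν.A) (hB : μ.B = ν.B) (hC : μ.C = ν.C) :
    μ = ν := by
  cases μ; cases ν; congr

/-- The family attached to a continuous path of morphisms. -/
noncomputable def Mor_pathFam (ν : I → MMor ι κ ι' κ') (cA : Continuous fun t => (ν t).A)
    (cB : Continuous fun t => (ν t).B) (cC : Continuous fun t => (ν t).C) :
    Fam (ι → ℂ) ((ι' → ℂ) × I) κ κ' where
  a x := (ν x.2).Aᴴ *ᵥ x.1
  B x := (ν x.2).B
  r x := (ν x.2).fam.r x.1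
  ca := (cA.comp continuous_snd).matrix_conjTranspose.matrix_mulVec continuous_fst
  cB := cB.comp continuous_snd
  cr := (((cC.comp continuous_snd).matrix_mul (cC.comp continuous_snd).matrix_conjTranspose).prodMk
    ((cC.comp continuous_snd).matrix_mulVec continuous_fst)).subtype_mk _
  iso x := (ν x.2).hB
  orth x := (ν x.2).Mor_orth
  proper := by
    have h : IsProperMap fun x : (ι' → ℂ) × I =>
        (((ν x.2).Aᴴ *ᵥ x.1, (ν x.2).C *ᵥ x.1), x.2) :=
      proper_of_leftInverse (r := fun p : ((ι → ℂ) × (κ' → ℂ)) × I =>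
          ((ν p.2).A *ᵥ p.1.1 + (ν p.2).Cᴴ *ᵥ p.1.2, p.2))
        ((((cA.comp continuous_snd).matrix_conjTranspose.matrix_mulVec continuous_fst).prodMk
          ((cC.comp continuous_snd).matrix_mulVec continuous_fst)).prodMk continuous_snd)
        ((((cA.comp continuous_snd).matrix_mulVec continuous_fst.fst).add
          ((cC.comp continuous_snd).matrix_conjTranspose.matrix_mulVec
            continuous_fst.snd)).prodMk continuous_snd)
        fun x => Prod.ext ((ν x.2).Mor_recover x.1) rfl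
    exact proper_fst.comp h

theorem Mor_path (ν : I → MMor ι κ ι' κ') (cA : Continuous fun t => (ν t).A)
    (cB : Continuous fun t => (ν t).B) (cC : Continuous fun t => (ν t).C) {𝒢 : Set (Gam M)}
    {w : ι → M} {u : κ → M} {w' : ι' → M} {u' : κ' → M} (h : ∀ t, (ν t).Inv 𝒢 w u w' u') :
    ∃ H : Tr (ι → ℂ) (Ea κ) ((ι' → ℂ) × I) (Ea κ'),
      H.Eqv 𝒢 (rp w) (ea u) ((rp w').prod triv) (ea u') ∧
      (∀ q x, (H.Ψ (q, x)).1.1.trace - (Fintype.card ι' : ℂ) =
        q.1.1.trace - (Fintype.card ι : ℂ)) ∧ ∀ t, H.slice t = (ν t).tr := by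
  refine ⟨(Mor_pathFam ν cA cB cC).tr, ?_, fun q x => (ν x.2).tr_trace q x.1,
    fun t => Tr.ext (fun _ => rfl) fun _ _ => rfl⟩
  exact (Mor_pathFam ν cA cB cC).eqv
    (fun g hg x => Mor_inv_mulVec (Mor_inv_ct (h x.2).hA) hg x.1)
    (fun g hg x => ((h x.2).hB g hg).symm) fun g hg x => (h x.2).Mor_r hg x.1

theorem Mor_ct_smul {α β : Type} (r : ℝ) (A : Matrix α β ℂ) :
    ((r : ℂ) • A)ᴴ = (r : ℂ) • Aᴴ := by
  rw [conjTranspose_smul, Complex.star_def, Complex.conj_ofReal]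

section MorRot

variable (μ : MMor ι κ ι' κ') (c s : ℝ)

/-- The isometric factor of the complement. -/
noncomputable def Mor_C' : Matrix (ι' ⊕ κ ⊕ κ' ⊕ ι) ι' ℂ :=
  fromRows ((c : ℂ) • 1) (fromRows 0 (fromRows ((s : ℂ) • μ.C) (-((s : ℂ) • μ.Aᴴ))))

/-- The coisometric factor of the complement. -/
noncomputable def Mor_Q : Matrix ι' (ι' ⊕ ι) ℂ :=
  fromCols (1 - ((1 - c : ℝ) : ℂ) • (μ.A * μ.Aᴴ)) (-((s : ℂ) • μ.A))

variable {c s}

omit [DecidableEq κ'] in
theorem Mor_C'_iso (h : (c : ℂ) ^ 2 + (s : ℂ) ^ 2 = 1) :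
    (μ.Mor_C' c s)ᴴ * μ.Mor_C' c s = 1 := by
  simp only [Mor_C', conjTranspose_fromRows_eq_fromCols_conjTranspose, fromCols_mul_fromRows,
    Mor_ct_smul, conjTranspose_neg, conjTranspose_one, conjTranspose_zero,
    conjTranspose_conjTranspose, Matrix.smul_mul, Matrix.mul_smul, Matrix.neg_mul, Matrix.mul_neg,
    Matrix.zero_mul, Matrix.one_mul, μ.hC]
  linear_combination (norm := module) h • (1 : Matrix ι' ι' ℂ)

/-- The rotated morphism. -/
noncomputable def Mor_rot (h : (c : ℂ) ^ 2 + (s : ℂ) ^ 2 = 1) :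
    MMor ι κ (ι' ⊕ ι) (ι' ⊕ κ ⊕ κ' ⊕ ι) where
  A := fromRows ((s : ℂ) • μ.A) ((c : ℂ) • 1)
  B := fromRows 0 (fromRows ((c : ℂ) • 1) (fromRows ((s : ℂ) • μ.B) 0))
  C := μ.Mor_C' c s * μ.Mor_Q c s
  hA := by
    simp only [conjTranspose_fromRows_eq_fromCols_conjTranspose, fromCols_mul_fromRows,
      Mor_ct_smul, conjTranspose_one, Matrix.smul_mul, Matrix.mul_smul, Matrix.one_mul, μ.hA]
    linear_combination (norm := module) h • (1 : Matrix ι ι ℂ)
  hB := by
    simp only [conjTranspose_fromRows_eq_fromCols_conjTranspose, fromCols_mul_fromRows,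
      Mor_ct_smul, conjTranspose_one, conjTranspose_zero, Matrix.smul_mul, Matrix.mul_smul,
      Matrix.one_mul, Matrix.zero_mul, μ.hB]
    linear_combination (norm := module) h • (1 : Matrix κ κ ℂ)
  hC := by
    rw [conjTranspose_mul, Matrix.mul_assoc, ← Matrix.mul_assoc (μ.Mor_C' c s)ᴴ, μ.Mor_C'_iso h,
      Matrix.one_mul, Mor_Q, conjTranspose_fromRows_eq_fromCols_conjTranspose,
      conjTranspose_fromCols_eq_fromRows_conjTranspose, fromRows_mul_fromCols,
      fromRows_mul_fromCols, ← fromBlocks_one, sub_eq_add_neg (fromBlocks _ _ _ _),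
      fromBlocks_neg, fromBlocks_add, fromBlocks_inj]
    simp only [Mor_ct_smul, conjTranspose_neg, conjTranspose_one, conjTranspose_sub,
      conjTranspose_mul, conjTranspose_conjTranspose, Matrix.smul_mul, Matrix.mul_smul,
      Matrix.neg_mul, Matrix.mul_neg, Matrix.sub_mul, Matrix.mul_sub, Matrix.one_mul,
      Matrix.mul_one, Matrix.mul_assoc, μ.Mor_AA', μ.hA]
    push_cast
    refine ⟨?_, ?_, ?_, ?_⟩
    · linear_combination (norm := module) h • (μ.A * μ.Aᴴ : Matrix ι' ι' ℂ)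
    · module
    · module
    · linear_combination (norm := module) h • (1 : Matrix ι ι ℂ)
  hBC := by
    rw [← Matrix.mul_assoc]
    simp only [Mor_C', conjTranspose_fromRows_eq_fromCols_conjTranspose, fromCols_mul_fromRows,
      Mor_ct_smul, conjTranspose_zero, Matrix.smul_mul, Matrix.mul_smul, Matrix.zero_mul,
      Matrix.mul_zero, μ.hBC, smul_zero, add_zero]

omit [DecidableEq κ'] in
theorem Mor_rot_inv (h : (c : ℂ) ^ 2 + (s : ℂ) ^ 2 = 1) {𝒢 : Set (Gam M)} {w : ι → M}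
    {u : κ → M} {w' : ι' → M} {u' : κ' → M} (hμ : μ.Inv 𝒢 w u w' u') :
    (μ.Mor_rot h).Inv 𝒢 w u (Sum.elim w' w) (Sum.elim w' (Sum.elim u (Sum.elim u' w))) :=
  ⟨Mor_inv_rows (Mor_inv_smul s hμ.hA) (Mor_inv_smul c Mor_inv_one),
    Mor_inv_rows Mor_inv_zero (Mor_inv_rows (Mor_inv_smul c Mor_inv_one)
      (Mor_inv_rows (Mor_inv_smul s hμ.hB) Mor_inv_zero)),
    Mor_inv_mul (x := w') (Mor_inv_rows (Mor_inv_smul c Mor_inv_one) (Mor_inv_rows Mor_inv_zero
      (Mor_inv_rows (Mor_inv_smul s hμ.hC) (Mor_inv_neg (Mor_inv_smul s (Mor_inv_ct hμ.hA))))))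
      (Mor_inv_cols (Mor_inv_sub Mor_inv_one
        (Mor_inv_smul _ (Mor_inv_mul hμ.hA (Mor_inv_ct hμ.hA))))
        (Mor_inv_neg (Mor_inv_smul s hμ.hA)))⟩

omit [DecidableEq κ'] in
theorem Mor_rot_zero (h : (c : ℂ) ^ 2 + (s : ℂ) ^ 2 = 1) (hc : c = 1) (hs : s = 0) :
    μ.Mor_rot h = std ι κ ι' κ' := by
  subst hc hs
  refine Mor_ext ?_ ?_ ?_
  · simp [Mor_rot, std]
  · simp [Mor_rot, std]
  · simp only [Mor_rot, std, Mor_C', Mor_Q]
    rw [fromRows_mul_fromCols, fromBlocks_inj]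
    simp

theorem Mor_rot_one (h : (c : ℂ) ^ 2 + (s : ℂ) ^ 2 = 1) (hc : c = 0) (hs : s = 1) :
    μ.Mor_rot h = μ.comp (nu ι κ ι' κ') := by
  subst hc hs
  refine Mor_ext ?_ ?_ ?_
  · simp [Mor_rot, comp, nu, fromRows_mul]
  · simp [Mor_rot, comp, nu, fromRows_mul]
  · simp only [Mor_rot, comp, nu, Mor_C', Mor_Q]
    rw [conjTranspose_fromRows_eq_fromCols_conjTranspose, fromRows_mul_fromCols,
      fromRows_mul _ _ μ.C, fromRows_mul_fromCols, fromBlocks_add, fromBlocks_inj]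
    simp only [fromRows_mul]
    simp [Matrix.mul_sub, μ.Mor_CA', μ.Mor_CA, μ.Mor_AA', μ.hA]

end MorRot

theorem Mor_cont_rows {X α β γ : Type} [TopologicalSpace X] {A : X → Matrix α γ ℂ}
    {B : X → Matrix β γ ℂ} (hA : Continuous A) (hB : Continuous B) :
    Continuous fun x => fromRows (A x) (B x) := by
  refine continuous_matrix fun i j => ?_
  rcases i with i | i
  · exact hA.matrix_elem i j
  · exact hB.matrix_elem i j

theorem Mor_cont_cols {X α β γ : Type} [TopologicalSpace X] {A : X → Matrix α β ℂ}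
    {B : X → Matrix α γ ℂ} (hA : Continuous A) (hB : Continuous B) :
    Continuous fun x => fromCols (A x) (B x) := by
  refine continuous_matrix fun i j => ?_
  rcases j with j | j
  · exact hA.matrix_elem i j
  · exact hB.matrix_elem i j

theorem Mor_cont_smul {X α β : Type} [TopologicalSpace X] {r : X → ℝ} (hr : Continuous r)
    (A : Matrix α β ℂ) : Continuous fun x => (r x : ℂ) • A :=
  (Complex.continuous_ofReal.comp hr).smul continuous_const

/-- The rotation lemma. -/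
theorem exists_path {μ : MMor ι κ ι' κ'} {𝒢 : Set (Gam M)} {w : ι → M} {u : κ → M} {w' : ι' → M}
    {u' : κ' → M} (h : μ.Inv 𝒢 w u w' u') :
    ∃ H : Tr (ι → ℂ) (Ea κ) ((ι' ⊕ ι → ℂ) × I) (Ea (ι' ⊕ κ ⊕ κ' ⊕ ι)),
      H.Eqv 𝒢 (rp w) (ea u) ((rp (Sum.elim w' w)).prod triv)
        (ea (Sum.elim w' (Sum.elim u (Sum.elim u' w)))) ∧
      (∀ q x, (H.Ψ (q, x)).1.1.trace - (Fintype.card (ι' ⊕ ι) : ℂ) =
        q.1.1.trace - (Fintype.card ι : ℂ)) ∧
      H.slice 0 = (std ι κ ι' κ').tr ∧ H.slice 1 = μ.tr.comp (nu ι κ ι' κ').tr := by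
  let c : I → ℝ := fun t => Real.cos (Real.pi / 2 * t)
  let s : I → ℝ := fun t => Real.sin (Real.pi / 2 * t)
  have hc : Continuous c := by fun_prop
  have hs : Continuous s := by fun_prop
  have hcs : ∀ t, (c t : ℂ) ^ 2 + (s t : ℂ) ^ 2 = 1 := fun t => by
    exact_mod_cast Real.cos_sq_add_sin_sq (Real.pi / 2 * t)
  obtain ⟨H, h1, h2, h3⟩ := Mor_path (fun t => μ.Mor_rot (hcs t))
    (Mor_cont_rows (Mor_cont_smul hs _) (Mor_cont_smul hc _))
    (Mor_cont_rows continuous_const (Mor_cont_rows (Mor_cont_smul hc _)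
      (Mor_cont_rows (Mor_cont_smul hs _) continuous_const)))
    ((Mor_cont_rows (Mor_cont_smul hc _) (Mor_cont_rows continuous_const
      (Mor_cont_rows (Mor_cont_smul hs _) (Mor_cont_smul hs _).neg))).matrix_mul
      (Mor_cont_cols (continuous_const.sub (Mor_cont_smul (continuous_const.sub hc) _))
        (Mor_cont_smul hs _).neg))
    fun t => μ.Mor_rot_inv (hcs t) h
  refine ⟨H, h1, h2, ?_, ?_⟩
  · rw [h3, μ.Mor_rot_zero _ (by simp [c]) (by simp [s])]
  · rw [h3, μ.Mor_rot_one _ (by simp [c]) (by simp [s]), tr_comp]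

end MMor

end RB
end

-- merged part: Pool.Agent.Work.MP_666b5d_gt.XS
section
/-!
# Grassmannians with vectors in the range and in the kernel

`XS 𝕜 ι α β n` consists of a projection `P` of trace `n` on `𝕜 ^ ι`, vectors indexed by `α` in its
range and vectors indexed by `β` in its kernel.  For the index set `Option ι` let `e` be the basis
vector `none`; the closed part is `{P e = e} = {P none none = 1}` (if `P none none = 1` then the
other entries of that row and column vanish, as `P i i = ∑ j, ‖P i j‖ ^ 2`).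
-/

open Set Filter Topology Matrix
open scoped unitInterval

namespace RB

open Act

/-- Projections of trace `n` with vectors in the range and in the kernel. -/
def XS (𝕜 : Type) [RCLike 𝕜] (ι α β : Type) [Fintype ι] (n : ℤ) : Type :=
  {q : Matrix ι ι 𝕜 × Matrix ι α 𝕜 × Matrix ι β 𝕜 //
    IsP q.1 ∧ q.1.trace = (n : 𝕜) ∧ q.1 * q.2.1 = q.2.1 ∧ q.1 * q.2.2 = 0}

variable {𝕜 : Type} [RCLike 𝕜] {ι ι' α β : Type} [Fintype ι] [Fintype ι'] {n n' : ℤ}

instance : TopologicalSpace (XS 𝕜 ι α β n) := inferInstanceAs (TopologicalSpace (Subtype _))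

instance : T2Space (XS 𝕜 ι α β n) := inferInstanceAs (T2Space (Subtype _))

theorem XS_closed : IsClosed {q : Matrix ι ι 𝕜 × Matrix ι α 𝕜 × Matrix ι β 𝕜 |
    IsP q.1 ∧ q.1.trace = (n : 𝕜) ∧ q.1 * q.2.1 = q.2.1 ∧ q.1 * q.2.2 = 0} :=
  (Ea_closedP.preimage continuous_fst).inter
    ((isClosed_eq continuous_fst.matrix_trace continuous_const).inter
      ((isClosed_eq (continuous_fst.matrix_mul continuous_snd.fst) continuous_snd.fst).inter
        (isClosed_eq (continuous_fst.matrix_mul continuous_snd.snd) continuous_const)))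

theorem XS_val : Continuous fun q : XS 𝕜 ι α β n => q.1 := continuous_subtype_val

instance [Fintype α] [Fintype β] : LocallyCompactSpace (XS 𝕜 ι α β n) := by
  have := FiniteDimensional.proper_rclike 𝕜 𝕜
  have : LocallyCompactSpace (Matrix ι ι 𝕜) := inferInstanceAs (LocallyCompactSpace (ι → ι → 𝕜))
  have : LocallyCompactSpace (Matrix ι α 𝕜) := inferInstanceAs (LocallyCompactSpace (ι → α → 𝕜))
  have : LocallyCompactSpace (Matrix ι β 𝕜) := inferInstanceAs (LocallyCompactSpace (ι → β → 𝕜))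
  exact XS_closed.locallyCompactSpace

instance [IsEmpty α] [IsEmpty β] : CompactSpace (XS 𝕜 ι α β n) := by
  refine isCompact_iff_compactSpace.1
    ((isCompact_isP.prod (isCompact_singleton (x := (0, 0)))).of_isClosed_subset XS_closed
      fun q hq => ⟨hq.1, Prod.ext ?_ ?_⟩)
  · ext i a
    exact isEmptyElim a
  · ext i b
    exact isEmptyElim b

/-- Forgetting the projection is proper. -/
theorem xs_proper : IsProperMap fun q : XS 𝕜 ι α β n => q.1.2 := by
  have : CompactSpace {P : Matrix ι ι 𝕜 // IsP P} := isCompact_iff_compactSpace.1 isCompact_isP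
  have h1 : IsProperMap fun q : XS 𝕜 ι α β n =>
      ((⟨q.1.1, q.2.1⟩, q.1.2) : {P : Matrix ι ι 𝕜 // IsP P} × Matrix ι α 𝕜 × Matrix ι β 𝕜) :=
    isProperMap_of_comp_of_t2 (g := fun r : {P : Matrix ι ι 𝕜 // IsP P} × Matrix ι α 𝕜 ×
        Matrix ι β 𝕜 => (r.1.1, r.2))
      ((XS_val.fst.subtype_mk _).prodMk XS_val.snd)
      ((continuous_subtype_val.comp continuous_fst).prodMk continuous_snd)
      XS_closed.isClosedEmbedding_subtypeVal.isProperMap
  exact (isProperMap_snd_of_compactSpace (X := {P : Matrix ι ι 𝕜 // IsP P})).comp h1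

/-- The twist as a ring homomorphism. -/
noncomputable def XS_tw (u : ℤˣ) : 𝕜 →+* 𝕜 := if u = 1 then RingHom.id 𝕜 else starRingEnd 𝕜

theorem XS_tw_eq (u : ℤˣ) : (tw u : 𝕜 → 𝕜) = XS_tw u := by
  funext z
  unfold XS_tw tw
  split_ifs <;> rfl

theorem XS_tw_star (u : ℤˣ) (z : 𝕜) : tw u (star z) = star (tw u z) := by
  unfold tw
  split_ifs <;> rfl

theorem XS_tw_pi (u : ℤˣ) (f : α → 𝕜) (a : α) : tw u f a = tw u (f a) := by
  unfold tw
  split_ifs <;> rfl

theorem XS_tw_zero (u : ℤˣ) : tw u (0 : 𝕜) = 0 := by rw [XS_tw_eq, map_zero]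

theorem XS_tw_one (u : ℤˣ) : tw u (1 : 𝕜) = 1 := by rw [XS_tw_eq, map_one]

/-- The conjugation action. -/
noncomputable def xa : Act ℤˣ (XS 𝕜 ι α β n) := fun u q =>
  ⟨(q.1.1.map (tw u), q.1.2.1.map (tw u), q.1.2.2.map (tw u)), by
    obtain ⟨⟨h1, h2⟩, h3, h4, h5⟩ := q.2
    refine ⟨⟨?_, ?_⟩, ?_, ?_, ?_⟩
    · ext i j
      change star (tw u (q.1.1 j i)) = tw u (q.1.1 i j)
      rw [← XS_tw_star, ← conjTranspose_apply, h1]
    · rw [XS_tw_eq, ← Matrix.map_mul, h2]
    · rw [XS_tw_eq, ← AddMonoidHom.map_trace, h3, map_intCast]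
    · rw [XS_tw_eq, ← Matrix.map_mul, h4]
    · rw [XS_tw_eq, ← Matrix.map_mul, h5, Matrix.map_zero _ (map_zero _)]⟩

theorem ga_xa : GA univ (xa : Act ℤˣ (XS 𝕜 ι α β n)) := by
  have h1 := (ga_cj (K := 𝕜)).cont
  rw [univ_prod_univ, continuousOn_univ] at h1
  have h2 : ∀ {μ ν : Type} {F : ℤˣ × XS 𝕜 ι α β n → Matrix μ ν 𝕜}, Continuous F →
      Continuous fun p => (F p).map (tw p.1) := fun hF =>
    continuous_matrix fun i j => h1.comp (continuous_fst.prodMk (hF.matrix_elem i j))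
  have h3 : Continuous fun p : ℤˣ × XS 𝕜 ι α β n => p.2.1 := XS_val.comp continuous_snd
  refine ⟨fun q => Subtype.ext (Prod.ext ?_ (Prod.ext ?_ ?_)),
    fun g _ h _ q => Subtype.ext (Prod.ext ?_ (Prod.ext ?_ ?_)), ?_⟩
  · exact Matrix.ext fun i j => tw_one _
  · exact Matrix.ext fun i j => tw_one _
  · exact Matrix.ext fun i j => tw_one _
  · exact Matrix.ext fun i j => (ga_cj (K := 𝕜)).mul g trivial h trivial _
  · exact Matrix.ext fun i j => (ga_cj (K := 𝕜)).mul g trivial h trivial _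
  · exact Matrix.ext fun i j => (ga_cj (K := 𝕜)).mul g trivial h trivial _
  · rw [univ_prod_univ, continuousOn_univ]
    exact Continuous.subtype_mk ((h2 h3.fst).prodMk ((h2 h3.snd.fst).prodMk (h2 h3.snd.snd))) _

theorem xs_isEmpty (h : n < 0 ∨ (Fintype.card ι : ℤ) < n) : IsEmpty (XS 𝕜 ι α β n) := by
  refine ⟨fun q => ?_⟩
  have h1 : rk q.1.1 = n := Int.cast_injective (α := 𝕜) (q.2.1.rk_cast.trans q.2.2.1)
  have h2 := q.2.1.rk_nonneg
  have h3 := q.2.1.rk_le
  omega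

/-- Adding the new basis vector to the range. -/
def xsI (h : n = n' + 1) (p : XS 𝕜 ι α β n' × (α → 𝕜)) : XS 𝕜 (Option ι) α β n :=
  ⟨(Matrix.of fun i j => i.elim (j.elim 1 fun _ => 0) fun i => j.elim 0 fun j => p.1.1.1 i j,
    Matrix.of fun i a => i.elim (p.2 a) fun i => p.1.1.2.1 i a,
    Matrix.of fun i b => i.elim 0 fun i => p.1.1.2.2 i b), by
    obtain ⟨⟨h1, h2⟩, h3, h4, h5⟩ := p.1.2
    have h1' : ∀ i j, star (p.1.1.1 j i) = p.1.1.1 i j := fun i j => congrFun (congrFun h1 i) j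
    have h2' := fun i j => (mul_apply ..).symm.trans (congrFun (congrFun h2 i) j)
    have h4' := fun i j => (mul_apply ..).symm.trans (congrFun (congrFun h4 i) j)
    have h5' := fun i j => (mul_apply ..).symm.trans (congrFun (congrFun h5 i) j)
    refine ⟨⟨?_, ?_⟩, ?_, ?_, ?_⟩
    · ext (_ | i) (_ | j) <;> simp [-RCLike.star_def, h1']
    · ext (_ | i) (_ | j) <;> simp [mul_apply, h2']
    · have e : (n : 𝕜) = p.1.1.1.trace + 1 := by rw [h3, h, Int.cast_add, Int.cast_one]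
      rw [e]
      simp [trace, add_comm]
    · ext (_ | i) a <;> simp [mul_apply, h4']
    · ext (_ | i) b <;> simp [mul_apply, h5']⟩

theorem xsI_emb (h : n = n' + 1) :
    IsClosedEmbedding (xsI h : XS 𝕜 ι α β n' × (α → 𝕜) → XS 𝕜 (Option ι) α β n) := by
  have h3 : Continuous fun p : XS 𝕜 ι α β n' × (α → 𝕜) => p.1.1 := XS_val.comp continuous_fst
  have hc : Continuous (xsI h : XS 𝕜 ι α β n' × (α → 𝕜) → XS 𝕜 (Option ι) α β n) := by
    refine Continuous.subtype_mk (Continuous.prodMk (continuous_matrix ?_)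
      (Continuous.prodMk (continuous_matrix ?_) (continuous_matrix ?_))) _
    · rintro (_ | i) (_ | j)
      · exact continuous_const
      · exact continuous_const
      · exact continuous_const
      · exact h3.fst.matrix_elem i j
    · rintro (_ | i) a
      · exact (continuous_apply a).comp continuous_snd
      · exact h3.snd.fst.matrix_elem i a
    · rintro (_ | i) b
      · exact continuous_const
      · exact h3.snd.snd.matrix_elem i b
  have hg : Continuous fun q : XS 𝕜 (Option ι) α β n =>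
      ((q.1.1.submatrix some some, q.1.2.1.submatrix some id, q.1.2.2.submatrix some id),
        q.1.2.1 none) :=
    ((XS_val.fst.matrix_submatrix _ _).prodMk ((XS_val.snd.fst.matrix_submatrix _ _).prodMk
      (XS_val.snd.snd.matrix_submatrix _ _))).prodMk
      (continuous_pi fun a => XS_val.snd.fst.matrix_elem none a)
  have hv : IsClosedEmbedding (Prod.map (fun q : XS 𝕜 ι α β n' => q.1) (id : (α → 𝕜) → α → 𝕜)) :=
    XS_closed.isClosedEmbedding_subtypeVal.prodMap IsClosedEmbedding.id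
  refine IsClosedEmbedding.of_continuous_injective_isClosedMap hc (fun p p' e => hv.injective ?_)
    (isProperMap_of_comp_of_t2 hc hg hv.isProperMap).isClosedMap
  exact congrArg (fun q : XS 𝕜 (Option ι) α β n =>
      ((q.1.1.submatrix some some, q.1.2.1.submatrix some id, q.1.2.2.submatrix some id),
        q.1.2.1 none)) e

theorem XS_row {P : Matrix (Option ι) (Option ι) 𝕜} (hP : IsP P) (h : P none none = 1) (j : ι) :
    P none (some j) = 0 ∧ P (some j) none = 0 := by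
  have h1 := Ea_diag hP none
  rw [Fintype.sum_option, h, norm_one, one_pow, RCLike.ofReal_add, RCLike.ofReal_one,
    left_eq_add, RCLike.ofReal_eq_zero,
    Finset.sum_eq_zero_iff_of_nonneg fun _ _ => by positivity] at h1
  have h2 : P none (some j) = 0 := by simpa using h1 j (Finset.mem_univ j)
  refine ⟨h2, ?_⟩
  rw [← hP.1, conjTranspose_apply, h2, star_zero]

theorem xsI_range (h : n = n' + 1) :
    range (xsI h : XS 𝕜 ι α β n' × (α → 𝕜) → XS 𝕜 (Option ι) α β n) =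
      {q | q.1.1 none none = 1} := by
  ext q
  constructor
  · rintro ⟨p, rfl⟩
    rfl
  · intro hq
    have hq' : q.1.1 none none = 1 := hq
    obtain ⟨⟨h1, h2⟩, h3, h4, h5⟩ := q.2
    have r1 := fun j => (XS_row q.2.1 hq' j).1
    have r2 := fun j => (XS_row q.2.1 hq' j).2
    have h2' := fun i j => (mul_apply ..).symm.trans (congrFun (congrFun h2 i) j)
    have h4' := fun i j => (mul_apply ..).symm.trans (congrFun (congrFun h4 i) j)
    have h5' := fun i j => (mul_apply ..).symm.trans (congrFun (congrFun h5 i) j)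
    simp only [Fintype.sum_option] at h2' h4' h5'
    refine ⟨(⟨(q.1.1.submatrix some some, q.1.2.1.submatrix some id, q.1.2.2.submatrix some id),
      ⟨?_, ?_⟩, ?_, ?_, ?_⟩, q.1.2.1 none), Subtype.ext (Prod.ext ?_ (Prod.ext ?_ ?_))⟩
    · rw [conjTranspose_submatrix, h1]
    · ext i j
      simpa [mul_apply, r2] using h2' (some i) (some j)
    · have e : (n : 𝕜) = n' + 1 := by rw [h, Int.cast_add, Int.cast_one]
      have h3' := h3.trans e
      rw [trace, Fintype.sum_option, diag_apply, hq', add_comm] at h3'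
      exact add_right_cancel h3'
    · ext i a
      simpa [mul_apply, r2] using h4' (some i) a
    · ext i b
      simpa [mul_apply, r2] using h5' (some i) b
    · ext (_ | i) (_ | j)
      · exact hq'.symm
      · exact (r1 j).symm
      · exact (r2 i).symm
      · rfl
    · ext (_ | i) a <;> rfl
    · ext (_ | i) b
      · simpa [xsI, r1, hq'] using (h5' none b).symm
      · rfl

theorem xsI_eqv (h : n = n' + 1) (u : ℤˣ) (p : XS 𝕜 ι α β n' × (α → 𝕜)) :
    xsI h (xa.prod cj u p) = xa u (xsI h p) := by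
  refine Subtype.ext (Prod.ext ?_ (Prod.ext ?_ ?_))
  · ext (_ | i) (_ | j)
    · exact (XS_tw_one u).symm
    · exact (XS_tw_zero u).symm
    · exact (XS_tw_zero u).symm
    · rfl
  · ext (_ | i) a
    · exact XS_tw_pi u p.2 a
    · rfl
  · ext (_ | i) b
    · exact (XS_tw_zero u).symm
    · rfl

/-- Adding the new basis vector to the kernel. -/
def xsK (p : XS 𝕜 ι α β n × (β → 𝕜)) : XS 𝕜 (Option ι) α β n :=
  ⟨(Matrix.of fun i j => i.elim 0 fun i => j.elim 0 fun j => p.1.1.1 i j,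
    Matrix.of fun i a => i.elim 0 fun i => p.1.1.2.1 i a,
    Matrix.of fun i b => i.elim (p.2 b) fun i => p.1.1.2.2 i b), by
    obtain ⟨⟨h1, h2⟩, h3, h4, h5⟩ := p.1.2
    have h1' : ∀ i j, star (p.1.1.1 j i) = p.1.1.1 i j := fun i j => congrFun (congrFun h1 i) j
    have h2' := fun i j => (mul_apply ..).symm.trans (congrFun (congrFun h2 i) j)
    have h4' := fun i j => (mul_apply ..).symm.trans (congrFun (congrFun h4 i) j)
    have h5' := fun i j => (mul_apply ..).symm.trans (congrFun (congrFun h5 i) j)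
    refine ⟨⟨?_, ?_⟩, ?_, ?_, ?_⟩
    · ext (_ | i) (_ | j) <;> simp [-RCLike.star_def, h1']
    · ext (_ | i) (_ | j) <;> simp [mul_apply, h2']
    · refine Eq.trans ?_ h3
      simp [trace]
    · ext (_ | i) a <;> simp [mul_apply, h4']
    · ext (_ | i) b <;> simp [mul_apply, h5']⟩

theorem XS_dual [DecidableEq ι] (h : n' = Fintype.card ι - n) (q : XS 𝕜 ι α β n) :
    IsP (1 - q.1.1) ∧ (1 - q.1.1).trace = (n' : 𝕜) ∧ (1 - q.1.1) * q.1.2.2 = q.1.2.2 ∧
      (1 - q.1.1) * q.1.2.1 = 0 := by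
  obtain ⟨⟨h1, h2⟩, h3, h4, h5⟩ := q.2
  refine ⟨⟨?_, ?_⟩, ?_, ?_, ?_⟩
  · rw [conjTranspose_sub, conjTranspose_one, h1]
  · rw [Matrix.sub_mul, Matrix.one_mul, Matrix.mul_sub, Matrix.mul_one, h2, sub_self, sub_zero]
  · rw [trace_sub, trace_one, h3, h, Int.cast_sub, Int.cast_natCast]
  · rw [Matrix.sub_mul, Matrix.one_mul, h5, sub_zero]
  · rw [Matrix.sub_mul, Matrix.one_mul, h4, sub_self]

/-- The complementary projection. -/
def xsDual [DecidableEq ι] (h : n' = Fintype.card ι - n) : XS 𝕜 ι α β n ≃ₜ XS 𝕜 ι β α n' where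
  toFun q := ⟨(1 - q.1.1, q.1.2.2, q.1.2.1), by exact XS_dual h q⟩
  invFun q := ⟨(1 - q.1.1, q.1.2.2, q.1.2.1), by exact XS_dual (by omega) q⟩
  left_inv := by exact fun q => Subtype.ext (Prod.ext (sub_sub_cancel _ _) rfl)
  right_inv := by exact fun q => Subtype.ext (Prod.ext (sub_sub_cancel _ _) rfl)
  continuous_toFun := by
    exact Continuous.subtype_mk ((continuous_const.sub XS_val.fst).prodMk
      (XS_val.snd.snd.prodMk XS_val.snd.fst)) _
  continuous_invFun := by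
    exact Continuous.subtype_mk ((continuous_const.sub XS_val.fst).prodMk
      (XS_val.snd.snd.prodMk XS_val.snd.fst)) _

theorem xsDual_eqv [DecidableEq ι] (h : n' = Fintype.card ι - n) (u : ℤˣ) (q : XS 𝕜 ι α β n) :
    xsDual h (xa u q) = xa u (xsDual h q) := by
  refine Subtype.ext (Prod.ext ?_ rfl)
  change 1 - q.1.1.map (tw u) = (1 - q.1.1).map (tw u)
  rw [XS_tw_eq, Matrix.map_sub _ (map_sub _), Matrix.map_one _ (map_zero _) (map_one _)]

theorem XS_re (e : ι' ≃ ι) (q : XS 𝕜 ι α β n) :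
    IsP (q.1.1.submatrix e e) ∧ (q.1.1.submatrix e e).trace = (n : 𝕜) ∧
      q.1.1.submatrix e e * q.1.2.1.submatrix e id = q.1.2.1.submatrix e id ∧
      q.1.1.submatrix e e * q.1.2.2.submatrix e id = 0 := by
  obtain ⟨⟨h1, h2⟩, h3, h4, h5⟩ := q.2
  refine ⟨⟨?_, ?_⟩, ?_, ?_, ?_⟩
  · rw [conjTranspose_submatrix, h1]
  · rw [submatrix_mul_equiv, h2]
  · exact (e.sum_comp fun i => q.1.1 i i).trans h3
  · rw [submatrix_mul_equiv, h4]
  · rw [submatrix_mul_equiv, h5]
    rfl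

/-- Reindexing. -/
def xsRe (e : ι ≃ ι') : XS 𝕜 ι α β n ≃ₜ XS 𝕜 ι' α β n where
  toFun q := ⟨(q.1.1.submatrix e.symm e.symm, q.1.2.1.submatrix e.symm id,
    q.1.2.2.submatrix e.symm id), by exact XS_re e.symm q⟩
  invFun q := ⟨(q.1.1.submatrix e e, q.1.2.1.submatrix e id, q.1.2.2.submatrix e id),
    by exact XS_re e q⟩
  left_inv := by exact fun q => Subtype.ext (by simp)
  right_inv := by exact fun q => Subtype.ext (by simp)
  continuous_toFun := by
    exact Continuous.subtype_mk ((XS_val.fst.matrix_submatrix _ _).prodMk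
      ((XS_val.snd.fst.matrix_submatrix _ _).prodMk (XS_val.snd.snd.matrix_submatrix _ _))) _
  continuous_invFun := by
    exact Continuous.subtype_mk ((XS_val.fst.matrix_submatrix _ _).prodMk
      ((XS_val.snd.fst.matrix_submatrix _ _).prodMk (XS_val.snd.snd.matrix_submatrix _ _))) _

theorem xsRe_eqv (e : ι ≃ ι') (u : ℤˣ) (q : XS 𝕜 ι α β n) :
    xsRe e (xa u q) = xa u (xsRe e q) := by
  rfl

end RB
end

-- merged part: Pool.Agent.Work.MP_666b5d_gt.XS2
section
/-!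
# The open part `{P e ≠ e}`

Proof plan.  Given `(P', V', U')` on `ι` with the extra range vector `p` (column `none` of `V'`) and
`b : β → 𝕜`, let `G` be the `Option ι × ι` matrix with row `none` equal to `pᴴ` and the identity
below.  Put `P = G (P' - (1 + |p|²)⁻¹ p pᴴ) Gᴴ` (the projection onto the graph
`{x + ⟨p, x⟩ e | x ∈ range P'}`), `V = G V'`, `U = (0 ⊕ U') + (e - p) b`.  Then
`P none none = |p|² / (1 + |p|²)`.  Inverse on `λ = P none none ≠ 1`: `q = (1 - P) e`,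
`|q|² = 1 - λ`, `p = - (1 - λ)⁻¹ q'` with `q'` the `ι`-part of `q` (so `p i = (1 - λ)⁻¹ P (some i) none`),
`P'` is the `ι`-block of `P + (1 - λ)⁻¹ q qᴴ`, `V'` is the `ι`-part of `V`, `b` is the row `none` of
`U` and `U' = U_ι + p b`.  Both maps are continuous, so this is a homeomorphism onto an open set.
-/

open Set Filter Topology Matrix
open scoped unitInterval

namespace RB

open Act

variable {𝕜 : Type} [RCLike 𝕜] {ι α β : Type} [Fintype ι] {n : ℤ}

section rankOne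

variable {κ γ : Type} [Fintype κ] {w : κ → 𝕜} {c : 𝕜} {R : Matrix κ κ 𝕜}

omit [Fintype κ] in
theorem XS2_zero (w : κ → 𝕜) : vecMulVec w (0 : γ → 𝕜) = 0 := by
  ext i j
  simp [vecMulVec_apply]

/-- A multiple of the rank one matrix of a vector. -/
def XS2_E (c : 𝕜) (w : κ → 𝕜) : Matrix κ κ 𝕜 := c • vecMulVec w (star w)

theorem XS2_mul_E (M : Matrix γ κ 𝕜) : M * XS2_E c w = c • vecMulVec (M *ᵥ w) (star w) := by
  rw [XS2_E, Matrix.mul_smul, mul_vecMulVec]

theorem XS2_E_mul (M : Matrix κ γ 𝕜) : XS2_E c w * M = c • vecMulVec w (star w ᵥ* M) := by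
  rw [XS2_E, Matrix.smul_mul, vecMulVec_mul]

theorem XS2_E_vec (h1 : c * (star w ⬝ᵥ w) = 1) : XS2_E c w *ᵥ w = w := by
  rw [XS2_E, smul_mulVec, vecMulVec_mulVec, op_smul_eq_smul, smul_smul, h1, one_smul]

theorem XS2_E_isP (hc : star c = c) (h1 : c * (star w ⬝ᵥ w) = 1) : IsP (XS2_E c w) :=
  ⟨by rw [XS2_E, conjTranspose_smul, conjTranspose_vecMulVec, star_star, hc],
    by rw [XS2_mul_E, XS2_E_vec h1, XS2_E]⟩

theorem XS2_E_trace (h1 : c * (star w ⬝ᵥ w) = 1) : (XS2_E c w).trace = 1 := by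
  rw [XS2_E, trace_smul, trace_vecMulVec, dotProduct_comm, smul_eq_mul, h1]

theorem XS2_vec (hR : IsP R) : star w ᵥ* R = star (R *ᵥ w) := by
  rw [star_mulVec, hR.1]

theorem XS2_sub (hR : IsP R) (hw : R *ᵥ w = w) (hc : star c = c) (h1 : c * (star w ⬝ᵥ w) = 1) :
    IsP (R - XS2_E c w) := by
  have hE := XS2_E_isP hc h1
  have e1 : R * XS2_E c w = XS2_E c w := by rw [XS2_mul_E, hw, XS2_E]
  have e2 : XS2_E c w * R = XS2_E c w := by rw [XS2_E_mul, XS2_vec hR, hw, XS2_E]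
  refine ⟨by rw [conjTranspose_sub, hR.1, hE.1], ?_⟩
  rw [Matrix.sub_mul, Matrix.mul_sub, Matrix.mul_sub, hR.2, hE.2, e1, e2, sub_self, sub_zero]

theorem XS2_add (hR : IsP R) (hw : R *ᵥ w = 0) (hc : star c = c) (h1 : c * (star w ⬝ᵥ w) = 1) :
    IsP (R + XS2_E c w) := by
  have hE := XS2_E_isP hc h1
  have e1 : R * XS2_E c w = 0 := by rw [XS2_mul_E, hw, zero_vecMulVec, smul_zero]
  have e2 : XS2_E c w * R = 0 := by
    rw [XS2_E_mul, XS2_vec hR, hw, star_zero, XS2_zero, smul_zero]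
  refine ⟨by rw [conjTranspose_add, hR.1, hE.1], ?_⟩
  rw [Matrix.add_mul, Matrix.mul_add, Matrix.mul_add, hR.2, hE.2, e1, e2, add_zero, zero_add]

end rankOne

section block

variable {γ : Type}

/-- The normalising constant. -/
noncomputable def XS2_c (p : ι → 𝕜) : 𝕜 := (1 + star p ⬝ᵥ p)⁻¹

/-- The vector `e - p`. -/
def XS2_w (p : ι → 𝕜) : Option ι → 𝕜 := fun i => i.elim 1 fun i => -p i

/-- Adding the new basis vector to the range. -/
def XS2_R (P : Matrix ι ι 𝕜) : Matrix (Option ι) (Option ι) 𝕜 :=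
  Matrix.of fun i j => i.elim (j.elim 1 fun _ => 0) fun i => j.elim 0 fun j => P i j

/-- Adding a row. -/
def XS2_B (r : γ → 𝕜) (M : Matrix ι γ 𝕜) : Matrix (Option ι) γ 𝕜 :=
  Matrix.of fun i a => i.elim (r a) fun i => M i a

theorem XS2_ne (p : ι → 𝕜) : 1 + star p ⬝ᵥ p ≠ 0 := by
  have h : 1 + star p ⬝ᵥ p = ((1 + ∑ i, ‖p i‖ ^ 2 : ℝ) : 𝕜) := by
    simp [dotProduct, RCLike.conj_mul]
  rw [h, RCLike.ofReal_ne_zero]
  positivity

theorem XS2_c_ne (p : ι → 𝕜) : XS2_c p ≠ 0 := inv_ne_zero (XS2_ne p)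

theorem XS2_c_star (p : ι → 𝕜) : star (XS2_c p) = XS2_c p := by
  rw [XS2_c, star_inv₀, star_add, star_one, ← star_dotProduct]

theorem XS2_w_w (p : ι → 𝕜) : star (XS2_w p) ⬝ᵥ XS2_w p = 1 + star p ⬝ᵥ p := by
  simp [dotProduct, XS2_w, Fintype.sum_option]

theorem XS2_c_w (p : ι → 𝕜) : XS2_c p * (star (XS2_w p) ⬝ᵥ XS2_w p) = 1 := by
  rw [XS2_w_w, XS2_c, inv_mul_cancel₀ (XS2_ne p)]

theorem XS2_R_B (P : Matrix ι ι 𝕜) (r : γ → 𝕜) (M : Matrix ι γ 𝕜) :
    XS2_R P * XS2_B r M = XS2_B r (P * M) := by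
  ext i a
  cases i <;> simp [XS2_R, XS2_B, mul_apply, Fintype.sum_option]

theorem XS2_R_w (P : Matrix ι ι 𝕜) (p : ι → 𝕜) : XS2_R P *ᵥ XS2_w p = XS2_w (P *ᵥ p) := by
  ext i
  cases i <;> simp [XS2_R, XS2_w, mulVec, dotProduct, Fintype.sum_option]

theorem XS2_w_B (p : ι → 𝕜) (r : γ → 𝕜) (M : Matrix ι γ 𝕜) :
    star (XS2_w p) ᵥ* XS2_B r M = r - star p ᵥ* M := by
  ext a
  simp [XS2_B, XS2_w, vecMul, dotProduct, Fintype.sum_option, sub_eq_add_neg]

theorem XS2_R_trace (P : Matrix ι ι 𝕜) : (XS2_R P).trace = P.trace + 1 := by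
  simp [XS2_R, trace, Fintype.sum_option, add_comm]

theorem XS2_R_isP {P : Matrix ι ι 𝕜} : IsP (XS2_R P) ↔ IsP P := by
  refine ⟨fun h => ⟨?_, ?_⟩, fun h => ⟨?_, ?_⟩⟩
  · ext i j
    exact congrFun₂ h.1 (some i) (some j)
  · ext i j
    simpa [XS2_R, mul_apply, Fintype.sum_option] using congrFun₂ h.2 (some i) (some j)
  · ext i j
    rcases i with _ | i <;> rcases j with _ | j
    · simp [XS2_R]
    · simp [XS2_R]
    · simp [XS2_R]
    · exact congrFun₂ h.1 i j
  · ext i j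
    rcases i with _ | i <;> rcases j with _ | j
    · simp [XS2_R, mul_apply, Fintype.sum_option]
    · simp [XS2_R, mul_apply, Fintype.sum_option]
    · simp [XS2_R, mul_apply, Fintype.sum_option]
    · simpa [XS2_R, mul_apply, Fintype.sum_option] using congrFun₂ h.2 i j

end block

/-- The ambient space. -/
abbrev XS2_T (𝕜 ι α β : Type) : Type := Matrix ι ι 𝕜 × Matrix ι α 𝕜 × Matrix ι β 𝕜

/-- The chart. -/
noncomputable def XS2_J (x : XS2_T 𝕜 ι (Option α) β × (β → 𝕜)) : XS2_T 𝕜 (Option ι) α β :=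
  (XS2_R x.1.1 - XS2_E (XS2_c fun i => x.1.2.1 i none) (XS2_w fun i => x.1.2.1 i none),
    XS2_B (star (fun i => x.1.2.1 i none) ᵥ* x.1.2.1.submatrix id some)
      (x.1.2.1.submatrix id some),
    XS2_B 0 x.1.2.2 + vecMulVec (XS2_w fun i => x.1.2.1 i none) x.2)

/-- The extra range vector read off from the projection. -/
noncomputable def XS2_p (P : Matrix (Option ι) (Option ι) 𝕜) : ι → 𝕜 :=
  fun i => (1 - P none none)⁻¹ * P (some i) none

/-- The inverse of the chart. -/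
noncomputable def XS2_K (y : XS2_T 𝕜 (Option ι) α β) : XS2_T 𝕜 ι (Option α) β × (β → 𝕜) :=
  ((y.1.submatrix some some + XS2_E (1 - y.1 none none) (XS2_p y.1),
    Matrix.of fun i a => a.elim (XS2_p y.1 i) fun a => y.2.1 (some i) a,
    y.2.2.submatrix some id + vecMulVec (XS2_p y.1) (y.2.2 none)), y.2.2 none)

theorem XS2_J_none (x : XS2_T 𝕜 ι (Option α) β × (β → 𝕜)) :
    1 - (XS2_J x).1 none none = XS2_c fun i => x.1.2.1 i none := by
  simp [XS2_J, XS2_R, XS2_E, XS2_w, vecMulVec_apply]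

theorem XS2_J_p (x : XS2_T 𝕜 ι (Option α) β × (β → 𝕜)) :
    XS2_p (XS2_J x).1 = fun i => x.1.2.1 i none := by
  ext i
  rw [XS2_p, XS2_J_none, inv_mul_eq_iff_eq_mul₀ (XS2_c_ne _)]
  simp [XS2_J, XS2_R, XS2_E, XS2_w, vecMulVec_apply]

theorem XS2_K_J (x : XS2_T 𝕜 ι (Option α) β × (β → 𝕜)) : XS2_K (XS2_J x) = x := by
  rw [XS2_K, XS2_J_p, XS2_J_none]
  refine Prod.ext (Prod.ext ?_ (Prod.ext ?_ ?_)) ?_
  · ext i j
    simp [XS2_J, XS2_R, XS2_E, XS2_w, vecMulVec_apply]
  · ext i a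
    cases a <;> simp [XS2_J, XS2_B]
  · ext i b
    simp [XS2_J, XS2_B, XS2_w, vecMulVec_apply]
  · ext b
    simp [XS2_J, XS2_B, XS2_w, vecMulVec_apply]

theorem XS2_J_mem {x : XS2_T 𝕜 ι (Option α) β × (β → 𝕜)} (h : IsP x.1.1 ∧ x.1.1.trace = (n : 𝕜) ∧
      x.1.1 * x.1.2.1 = x.1.2.1 ∧ x.1.1 * x.1.2.2 = 0) :
    IsP (XS2_J x).1 ∧ (XS2_J x).1.trace = (n : 𝕜) ∧ (XS2_J x).1 * (XS2_J x).2.1 = (XS2_J x).2.1 ∧
      (XS2_J x).1 * (XS2_J x).2.2 = 0 := by
  obtain ⟨⟨P, V, U⟩, b⟩ := x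
  obtain ⟨h1, h2, h3, h4⟩ := h
  dsimp only [XS2_J] at h1 h2 h3 h4 ⊢
  have hp : P *ᵥ (fun i => V i none) = fun i => V i none := funext fun i => congrFun₂ h3 i none
  have hV : P * V.submatrix id some = V.submatrix id some := by
    ext i a
    exact congrFun₂ h3 i (some a)
  generalize (fun i => V i none) = p at hp ⊢
  have hw : XS2_R P *ᵥ XS2_w p = XS2_w p := by rw [XS2_R_w, hp]
  refine ⟨XS2_sub (XS2_R_isP.2 h1) hw (XS2_c_star p) (XS2_c_w p), ?_, ?_, ?_⟩
  · rw [trace_sub, XS2_R_trace, XS2_E_trace (XS2_c_w p), h2, add_sub_cancel_right]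
  · rw [Matrix.sub_mul, XS2_R_B, hV, XS2_E_mul, XS2_w_B, sub_self, XS2_zero, smul_zero,
      sub_zero]
  · have hU : star p ᵥ* U = 0 := by
      rw [← hp, ← XS2_vec h1, vecMul_vecMul, h4, vecMul_zero]
    rw [Matrix.mul_add, mul_vecMulVec, sub_mulVec, hw, XS2_E_vec (XS2_c_w p), sub_self,
      zero_vecMulVec, add_zero, Matrix.sub_mul, XS2_R_B, h4, XS2_E_mul, XS2_w_B, hU, sub_self,
      XS2_zero, smul_zero, sub_zero]
    ext i b
    cases i <;> rfl

section inverse

variable {P : Matrix (Option ι) (Option ι) 𝕜}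

theorem XS2_herm (hP : IsP P) (i j : Option ι) : star (P i j) = P j i := congrFun₂ hP.1 j i

theorem XS2_P_w (hP : IsP P) (h : P none none ≠ 1) : P *ᵥ XS2_w (XS2_p P) = 0 := by
  have hc : 1 - P none none ≠ 0 := sub_ne_zero.2 h.symm
  ext i
  have e := congrFun₂ hP.2 i none
  rw [mul_apply, Fintype.sum_option] at e
  have e' : ∑ j, P i (some j) * XS2_p P j =
      (1 - P none none)⁻¹ * ∑ j, P i (some j) * P (some j) none := by
    rw [Finset.mul_sum]
    exact Finset.sum_congr rfl fun j _ => by rw [XS2_p]; ring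
  simp only [mulVec, dotProduct, Fintype.sum_option, XS2_w, Option.elim, mul_neg,
    Finset.sum_neg_distrib, e', Pi.zero_apply, eq_sub_of_add_eq' e]
  field_simp
  ring

theorem XS2_star_c (hP : IsP P) : star (1 - P none none) = 1 - P none none := by
  rw [star_sub, star_one, XS2_herm hP]

theorem XS2_row (hP : IsP P) (h : P none none ≠ 1) (j : ι) :
    P none (some j) = (1 - P none none) * star (XS2_p P j) := by
  rw [XS2_p, star_mul', star_inv₀, XS2_star_c hP, XS2_herm hP,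
    mul_inv_cancel_left₀ (sub_ne_zero.2 h.symm)]

theorem XS2_c_p (hP : IsP P) (h : P none none ≠ 1) : XS2_c (XS2_p P) = 1 - P none none := by
  have e := congrFun (XS2_P_w hP h) none
  simp only [mulVec, dotProduct, Fintype.sum_option, XS2_w, Option.elim, mul_neg,
    Finset.sum_neg_distrib, Pi.zero_apply, XS2_row hP h, mul_assoc, ← Finset.mul_sum] at e
  rw [XS2_c]
  refine inv_eq_of_mul_eq_one_left ?_
  simp only [dotProduct, Pi.star_apply]
  linear_combination -e

theorem XS2_R_K (hP : IsP P) (h : P none none ≠ 1) :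
    XS2_R (P.submatrix some some + XS2_E (1 - P none none) (XS2_p P)) =
      P + XS2_E (XS2_c (XS2_p P)) (XS2_w (XS2_p P)) := by
  rw [XS2_c_p hP h]
  ext i j
  rcases i with _ | i <;> rcases j with _ | j
  · simp [XS2_R, XS2_E, XS2_w, vecMulVec_apply]
  · simp [XS2_R, XS2_E, XS2_w, vecMulVec_apply, XS2_row hP h j]
  · simp [XS2_R, XS2_E, XS2_w, vecMulVec_apply, XS2_p, sub_ne_zero.2 h.symm]
  · simp [XS2_R, XS2_E, XS2_w, vecMulVec_apply]

omit [RCLike 𝕜] [Fintype ι] in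
theorem XS2_B_eta {γ : Type} (V : Matrix (Option ι) γ 𝕜) :
    XS2_B (V none) (V.submatrix some id) = V := by
  ext i a
  cases i <;> rfl

theorem XS2_V (hP : IsP P) (h : P none none ≠ 1) {V : Matrix (Option ι) α 𝕜} (hV : P * V = V) :
    star (XS2_w (XS2_p P)) ᵥ* V = 0 := by
  rw [← hV, ← vecMul_vecMul, XS2_vec hP, XS2_P_w hP h, star_zero, zero_vecMul]

theorem XS2_U (hP : IsP P) (h : P none none ≠ 1) {U : Matrix (Option ι) β 𝕜} (hU : P * U = 0) :
    XS2_c (XS2_p P) • star (XS2_w (XS2_p P)) ᵥ* U = U none := by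
  ext b
  have e := congrFun₂ hU none b
  simp only [mul_apply, Fintype.sum_option, XS2_row hP h, mul_assoc, ← Finset.mul_sum,
    Matrix.zero_apply] at e
  simp only [XS2_c_p hP h, Pi.smul_apply, vecMul, dotProduct, Fintype.sum_option, XS2_w,
    Option.elim, Pi.star_apply, star_one, star_neg, neg_mul, Finset.sum_neg_distrib, smul_eq_mul]
  linear_combination -e

omit [Fintype ι] in
theorem XS2_U' (U : Matrix (Option ι) β 𝕜) (p : ι → 𝕜) :
    XS2_B 0 (U.submatrix some id + vecMulVec p (U none)) + vecMulVec (XS2_w p) (U none) = U := by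
  ext i b
  cases i <;> simp [XS2_B, XS2_w, vecMulVec_apply]

end inverse

theorem XS2_J_K {y : XS2_T 𝕜 (Option ι) α β} (hP : IsP y.1) (hV : y.1 * y.2.1 = y.2.1)
    (h : y.1 none none ≠ 1) : XS2_J (XS2_K y) = y := by
  obtain ⟨P, V, U⟩ := y
  refine Prod.ext ?_ (Prod.ext ?_ (XS2_U' U _))
  · exact sub_eq_of_eq_add (XS2_R_K hP h)
  · have e := XS2_V hP h hV
    rw [← XS2_B_eta V, XS2_w_B, sub_eq_zero] at e
    change XS2_B (star (XS2_p P) ᵥ* V.submatrix some id) (V.submatrix some id) = V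
    rw [← e, XS2_B_eta]

theorem XS2_K_mem {y : XS2_T 𝕜 (Option ι) α β} (hy : IsP y.1 ∧ y.1.trace = (n : 𝕜) ∧
      y.1 * y.2.1 = y.2.1 ∧ y.1 * y.2.2 = 0) (h : y.1 none none ≠ 1) :
    IsP (XS2_K y).1.1 ∧ (XS2_K y).1.1.trace = (n : 𝕜) ∧
      (XS2_K y).1.1 * (XS2_K y).1.2.1 = (XS2_K y).1.2.1 ∧
      (XS2_K y).1.1 * (XS2_K y).1.2.2 = 0 := by
  obtain ⟨P, V, U⟩ := y
  obtain ⟨h1, h2, h3, h4⟩ := hy
  dsimp only [XS2_K] at h h1 h2 h3 h4 ⊢
  have hR := XS2_R_K h1 h
  have hw := XS2_P_w h1 h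
  have hV := XS2_V h1 h h3
  have hU := XS2_U h1 h h4
  generalize P.submatrix some some + XS2_E (1 - P none none) (XS2_p P) = Q at hR ⊢
  generalize XS2_p P = p at hR hw hV hU ⊢
  have hw' : XS2_R Q *ᵥ XS2_w p = XS2_w p := by
    rw [hR, add_mulVec, hw, XS2_E_vec (XS2_c_w p), zero_add]
  refine ⟨XS2_R_isP.1 (hR ▸ XS2_add h1 hw (XS2_c_star p) (XS2_c_w p)), ?_, ?_, ?_⟩
  · have e := congrArg trace hR
    rw [XS2_R_trace, trace_add, XS2_E_trace (XS2_c_w p), h2] at e
    exact add_right_cancel e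
  · have e : XS2_R Q * V = V := by
      rw [hR, Matrix.add_mul, h3, XS2_E_mul, hV, XS2_zero, smul_zero, add_zero]
    rw [← XS2_B_eta V, XS2_R_B] at e
    rw [XS2_R_w] at hw'
    ext i a
    rcases a with _ | a
    · exact neg_injective (congrFun hw' (some i))
    · exact congrFun₂ e (some i) a
  · have e : XS2_R Q * U = vecMulVec (XS2_w p) (U none) := by
      rw [hR, Matrix.add_mul, h4, XS2_E_mul, zero_add, ← vecMulVec_smul, hU]
    conv_lhs at e => rw [← XS2_U' U p]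
    rw [Matrix.mul_add, mul_vecMulVec, hw', add_eq_right, XS2_R_B] at e
    ext i b
    exact congrFun₂ e (some i) b

theorem XS2_J_cont : Continuous (XS2_J : XS2_T 𝕜 ι (Option α) β × (β → 𝕜) → _) := by
  have hc : Continuous fun x : XS2_T 𝕜 ι (Option α) β × (β → 𝕜) =>
      XS2_c fun i => x.1.2.1 i none := by
    refine Continuous.inv₀ ?_ fun x => XS2_ne _
    simp only [dotProduct, Pi.star_apply]
    fun_prop
  refine Continuous.prodMk (continuous_matrix fun i j => ?_)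
    (Continuous.prodMk (continuous_matrix fun i a => ?_) (continuous_matrix fun i b => ?_))
  · rcases i with _ | i <;> rcases j with _ | j <;>
      simp only [XS2_R, XS2_E, XS2_w, vecMulVec_apply, Matrix.sub_apply, of_apply, Matrix.smul_apply,
        Option.elim, Pi.star_apply, smul_eq_mul] <;> fun_prop
  · rcases i with _ | i <;>
      simp only [XS2_B, vecMul, dotProduct, of_apply, submatrix_apply, Option.elim,
        Pi.star_apply, id] <;> fun_prop
  · rcases i with _ | i <;>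
      simp only [XS2_B, XS2_w, vecMulVec_apply, Matrix.add_apply, of_apply, Option.elim,
        Pi.zero_apply] <;> fun_prop

omit [Fintype ι] in
theorem XS2_K_cont {Z : Type} [TopologicalSpace Z] {y : Z → XS2_T 𝕜 (Option ι) α β}
    (hy : Continuous y) (h : ∀ z, (y z).1 none none ≠ 1) : Continuous fun z => XS2_K (y z) := by
  have hp : ∀ i, Continuous fun z => XS2_p (y z).1 i := fun i =>
    (Continuous.inv₀ (by fun_prop) fun z => sub_ne_zero.2 (h z).symm).mul (by fun_prop)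
  refine Continuous.prodMk (Continuous.prodMk (continuous_matrix fun i j => ?_)
    (Continuous.prodMk (continuous_matrix fun i a => ?_) (continuous_matrix fun i b => ?_))) ?_
  · simp only [XS2_E, vecMulVec_apply, Matrix.add_apply, submatrix_apply, Matrix.smul_apply, Pi.star_apply,
      smul_eq_mul]
    fun_prop
  · rcases a with _ | a <;> simp only [of_apply, Option.elim] <;> fun_prop
  · simp only [vecMulVec_apply, Matrix.add_apply, submatrix_apply, id]
    fun_prop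
  · fun_prop

theorem XS2_J_star (x : XS2_T 𝕜 ι (Option α) β × (β → 𝕜)) :
    XS2_J ((x.1.1.map star, x.1.2.1.map star, x.1.2.2.map star), star x.2) =
      ((XS2_J x).1.map star, (XS2_J x).2.1.map star, (XS2_J x).2.2.map star) := by
  have hc : XS2_c (fun i => star (x.1.2.1 i none)) = star (XS2_c fun i => x.1.2.1 i none) := by
    simp [XS2_c, dotProduct]
  refine Prod.ext ?_ (Prod.ext ?_ ?_)
  · ext i j
    rcases i with _ | i <;> rcases j with _ | j <;>
      simp only [XS2_J, XS2_R, XS2_E, XS2_w, vecMulVec_apply, Matrix.sub_apply, of_apply, Matrix.smul_apply,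
        Option.elim, Pi.star_apply, smul_eq_mul, map_apply, hc, star_sub, star_mul', star_neg,
        star_one, star_zero]
  · ext i a
    rcases i with _ | i <;> simp [XS2_J, XS2_B, vecMul, dotProduct]
  · ext i b
    rcases i with _ | i <;> simp [XS2_J, XS2_B, XS2_w, vecMulVec_apply]

theorem exists_xsJ : ∃ j : XS 𝕜 ι (Option α) β n × (β → 𝕜) → XS 𝕜 (Option ι) α β n,
    IsOpenEmbedding j ∧ (∀ u p, j (xa.prod cj u p) = xa u (j p)) ∧
      range j = {q | q.1.1 none none ≠ 1} := by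
  have hne : ∀ x : XS2_T 𝕜 ι (Option α) β × (β → 𝕜), (XS2_J x).1 none none ≠ 1 := fun x e =>
    XS2_c_ne _ ((XS2_J_none x).symm.trans (sub_eq_zero.2 e.symm))
  have cv : ∀ {ι α β : Type} [Fintype ι], Continuous fun q : XS 𝕜 ι α β n => q.1 :=
    continuous_subtype_val
  have cK : Continuous fun q : {q : XS 𝕜 (Option ι) α β n // q.1.1 none none ≠ 1} =>
      XS2_K q.1.1 := XS2_K_cont (cv.comp continuous_subtype_val) fun q => q.2
  let e : XS 𝕜 ι (Option α) β n × (β → 𝕜) ≃ₜ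
      {q : XS 𝕜 (Option ι) α β n // q.1.1 none none ≠ 1} :=
    { toFun := fun p => ⟨⟨XS2_J (p.1.1, p.2), XS2_J_mem p.1.2⟩, hne _⟩
      invFun := fun q => (⟨(XS2_K q.1.1).1, XS2_K_mem q.1.2 q.2⟩, (XS2_K q.1.1).2)
      left_inv := fun p => Prod.ext (Subtype.ext (congrArg Prod.fst (XS2_K_J (p.1.1, p.2))))
        (congrArg Prod.snd (XS2_K_J (p.1.1, p.2)) :)
      right_inv := fun q => Subtype.ext (Subtype.ext (XS2_J_K q.1.2.1 q.1.2.2.2.1 q.2))
      continuous_toFun := ((XS2_J_cont.comp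
        ((cv.comp continuous_fst).prodMk continuous_snd)).subtype_mk _).subtype_mk _
      continuous_invFun := (cK.fst.subtype_mk _).prodMk cK.snd }
  have ho : IsOpen {q : XS 𝕜 (Option ι) α β n | q.1.1 none none ≠ 1} :=
    isOpen_ne_fun (by have := cv (ι := Option ι) (α := α) (β := β); fun_prop) continuous_const
  refine ⟨fun p => (e p).1, ho.isOpenEmbedding_subtypeVal.comp e.isOpenEmbedding,
    fun u p => Subtype.ext ?_, ?_⟩
  · change XS2_J ((p.1.1.1.map (tw u), p.1.1.2.1.map (tw u), p.1.1.2.2.map (tw u)), tw u p.2) =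
      ((XS2_J (p.1.1, p.2)).1.map (tw u), (XS2_J (p.1.1, p.2)).2.1.map (tw u),
        (XS2_J (p.1.1, p.2)).2.2.map (tw u))
    rcases Int.units_eq_one_or u with rfl | rfl
    · rw [show (tw 1 : 𝕜 → 𝕜) = id from funext tw_one, tw_one]
      simp only [Matrix.map_id]
    · rw [show (tw (-1) : 𝕜 → 𝕜) = star from funext tw_neg_one, tw_neg_one]
      exact XS2_J_star (p.1.1, p.2)
  · ext q
    exact ⟨fun ⟨p, hp⟩ => hp ▸ (e p).2, fun hq => ⟨e.symm ⟨q, hq⟩, by simp⟩⟩

end RB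
end

-- merged part: Pool.Agent.Work.MP_666b5d_gt.Br1
section
/-!
# Real representations of quasi-abelian groups are sums of Real characters

Proof plan.  Work in `EuclideanSpace ℂ V.ι`.  The operators `mat a`, `η a = 1`, are commuting
unitaries.  Show by induction on the dimension that every subspace `W` invariant under all `mat a`
and under the antiunitary involution `θ v = mat τ * conj v` (or `θ` absent) has an orthonormal basis
of common eigenvectors fixed by `θ`: a minimal nonzero invariant subspace of the commuting family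
is a common eigenspace (an eigenspace of one operator is invariant under the others), the common
eigenspace for `χ` inside `W` is `θ`-invariant (`a θ v = θ a⁻¹ v = conj (χ a)⁻¹ θ v = χ a θ v`),
and it contains a nonzero `θ`-fixed vector (`v + θ v` or `i (v - θ v)`); pass to the orthogonal
complement of that vector in `W`.  The columns of `S` are the basis vectors; for `η g = -1` write
`g = a τ`.  Continuity of `χ i`: it is the diagonal entry of `Sᴴ * mat g * S.map (tw (η g))`, and `η`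
is continuous into a discrete group.
-/

open Matrix

namespace RB

universe u

section

open scoped ComplexOrder

variable {G : Type u} [Group G] [TopologicalSpace G] {η : G →* ℤˣ} (V : RealRep η)

theorem Br1_tw_mul (u u' : ℤˣ) (z : ℂ) : tw (u * u') z = tw u (tw u' z) := by
  rcases Int.units_eq_one_or u with rfl | rfl <;> rcases Int.units_eq_one_or u' with rfl | rfl <;>
    simp [tw_one, tw_neg_one]

theorem Br1_tw_real (u : ℤˣ) (r : ℝ) : tw u (r : ℂ) = r := by
  rcases Int.units_eq_one_or u with rfl | rfl <;> simp [tw_one, tw_neg_one]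

theorem Br1_act (g : G) (v : V.ι → ℂ) : V.act g v = V.mat g *ᵥ (twR (η g) ∘ v) := by
  rw [RealRep.act, tw_eq_twR]
  rfl

theorem Br1_add (g : G) (v w : V.ι → ℂ) : V.act g (v + w) = V.act g v + V.act g w := by
  rw [Br1_act, Br1_act, Br1_act, ← mulVec_add]
  congr 1
  funext i
  exact map_add _ _ _

theorem Br1_smul (g : G) (c : ℂ) (v : V.ι → ℂ) :
    V.act g (c • v) = tw (η g) c • V.act g v := by
  rw [Br1_act, Br1_act, ← mulVec_smul, ← twR_apply]
  congr 1
  funext i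
  exact map_mul _ _ _

theorem Br1_one (v : V.ι → ℂ) : V.act 1 v = v := by
  simp [RealRep.act, V.mat_one, tw_one]

theorem Br1_mul (g h : G) (v : V.ι → ℂ) : V.act (g * h) v = V.act g (V.act h v) := by
  rw [Br1_act, Br1_act, Br1_act, V.mat_mul, ← mulVec_mulVec, tw_eq_twR]
  congr 1
  funext i
  rw [Function.comp_apply, RingHom.map_mulVec]
  congr 1
  funext k
  simp only [Function.comp_apply, twR_apply, map_mul, Br1_tw_mul]

theorem Br1_ip (g : G) (v w : V.ι → ℂ) :
    star (V.act g v) ⬝ᵥ V.act g w = tw (η g) (star v ⬝ᵥ w) := by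
  rw [Br1_act, Br1_act, star_mulVec, dotProduct_mulVec, vecMul_vecMul, V.unitary, vecMul_one,
    ← twR_apply, RingHom.map_dotProduct]
  congr 1
  funext i
  simp only [Pi.star_apply, Function.comp_apply, twR_apply, tw_star]

/-- A nonzero invariant subspace contains a common eigenvector of the linear operators. -/
theorem Br1_eig (hab : ∀ a b, η a = 1 → η b = 1 → a * b = b * a) (W : Submodule ℂ (V.ι → ℂ)) :
    W ≠ ⊥ → (∀ a, η a = 1 → ∀ v ∈ W, V.act a v ∈ W) →
      ∃ v ∈ W, v ≠ 0 ∧ ∀ a, η a = 1 → ∃ c : ℂ, V.act a v = c • v := by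
  induction W using WellFoundedLT.induction with
  | ind W ih =>
    intro h0 hW
    by_cases h : ∀ a, η a = 1 → ∃ c : ℂ, ∀ v ∈ W, V.act a v = c • v
    · obtain ⟨v, hv, hv0⟩ := (Submodule.ne_bot_iff W).1 h0
      exact ⟨v, hv, hv0, fun a ha => (h a ha).imp fun c hc => hc v hv⟩
    push Not at h
    obtain ⟨a, ha, h⟩ := h
    have e : ∀ v, V.act a v = (V.mat a).mulVecLin v := fun v => by
      simp [RealRep.act, ha, tw_one]
    have : Nontrivial W := Submodule.nontrivial_iff_ne_bot.2 h0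
    obtain ⟨c, hc⟩ := Module.End.exists_eigenvalue
      ((V.mat a).mulVecLin.restrict (p := W) (q := W) fun v hv => e v ▸ hW a ha v hv)
    obtain ⟨w, hw⟩ := hc.exists_hasEigenvector
    obtain ⟨x, hx, hx'⟩ := h c
    have hm : ∀ v, v ∈ W ⊓ Module.End.eigenspace (V.mat a).mulVecLin c ↔
        v ∈ W ∧ V.act a v = c • v := fun v => by
      rw [Submodule.mem_inf, Module.End.mem_eigenspace_iff, e]
    obtain ⟨v, hv, h1⟩ := ih (W ⊓ Module.End.eigenspace (V.mat a).mulVecLin c)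
      (lt_of_le_of_ne inf_le_left fun h1 => hx' ((hm x).1 (h1.symm ▸ hx)).2)
      ((Submodule.ne_bot_iff _).2 ⟨w.1, (hm _).2 ⟨w.2, by
        rw [e]
        exact congrArg Subtype.val hw.apply_eq_smul⟩, fun h1 => hw.2 (Subtype.ext h1)⟩)
      fun b hb v hv => by
        rw [hm] at hv ⊢
        refine ⟨hW b hb v hv.1, ?_⟩
        rw [← Br1_mul, hab a b ha hb, Br1_mul, hv.2, Br1_smul, hb, tw_one]
    exact ⟨v, hv.1, h1⟩

/-- Common eigenvectors that are fixed by the involution. -/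
def Br1_Good (τ : G) (v : V.ι → ℂ) : Prop :=
  (∀ g, ∃ c : ℂ, V.act g v = c • v) ∧ (η τ = -1 → V.act τ v = v)

variable (hab : ∀ a b, η a = 1 → η b = 1 → a * b = b * a) (τ : G)
  (hττ : τ * τ = 1) (hinv : η τ = -1 → ∀ a, η a = 1 → τ * a * τ⁻¹ = a⁻¹)
  (hgen : (∀ g, η g = 1) ∨ η τ = -1)
include hab hττ hinv hgen

theorem Br1_good (W : Submodule ℂ (V.ι → ℂ)) (h0 : W ≠ ⊥) (hW : ∀ g, ∀ v ∈ W, V.act g v ∈ W) :
    ∃ v ∈ W, v ≠ 0 ∧ Br1_Good V τ v := by
  obtain ⟨v, hv, hv0, h⟩ := Br1_eig V hab W h0 fun a _ => hW a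
  rcases hgen with hg | hτ
  · refine ⟨v, hv, hv0, fun g => h g (hg g), fun h1 => ?_⟩
    rw [hg] at h1
    exact absurd h1 (by decide)
  have h1 : ∀ a, η a = 1 → ∃ c : ℂ, V.act a v = c • v ∧ V.act a (V.act τ v) = c • V.act τ v := by
    intro a ha
    have ha' : η a⁻¹ = 1 := by rw [map_inv, ha, inv_one]
    obtain ⟨c, hc⟩ := h a ha
    obtain ⟨c', hc'⟩ := h a⁻¹ ha'
    have h2 := Br1_ip V a v (V.act a⁻¹ v)
    rw [← Br1_mul, mul_inv_cancel, Br1_one, hc, hc', ha, tw_one, star_smul, smul_dotProduct,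
      dotProduct_smul, smul_eq_mul, smul_eq_mul] at h2
    have h3 := mul_right_cancel₀ (dotProduct_star_self_eq_zero.not.2 hv0) h2
    have h4 : a * τ = τ * a⁻¹ := by
      have h5 := hinv hτ a⁻¹ ha'
      rw [inv_inv] at h5
      conv_lhs => rw [← h5]
      rw [inv_mul_cancel_right]
    refine ⟨c, hc, ?_⟩
    rw [← Br1_mul, h4, Br1_mul, hc', Br1_smul, hτ, tw_neg_one, ← h3, star_star]
  have h2 : ∀ w, V.act τ w = w → (∀ a, η a = 1 → ∃ c : ℂ, V.act a w = c • w) →
      Br1_Good V τ w := fun w h3 h4 => by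
    refine ⟨fun g => ?_, fun _ => h3⟩
    rcases Int.units_eq_one_or (η g) with hg | hg
    · exact h4 g hg
    · have h5 := h4 (g * τ) (by rw [map_mul, hg, hτ]; decide)
      rwa [Br1_mul, h3] at h5
  by_cases h3 : v + V.act τ v = 0
  · refine ⟨Complex.I • v, W.smul_mem _ hv, smul_ne_zero Complex.I_ne_zero hv0, h2 _ ?_ ?_⟩
    · rw [Br1_smul, hτ, tw_neg_one, (neg_eq_of_add_eq_zero_right h3).symm]
      simp
    · intro a ha
      obtain ⟨c, hc⟩ := h a ha
      exact ⟨c, by rw [Br1_smul, ha, tw_one, hc, smul_comm]⟩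
  · refine ⟨_, W.add_mem hv (hW τ v hv), h3, h2 _ ?_ ?_⟩
    · rw [Br1_add, ← Br1_mul, hττ, Br1_one, add_comm]
    · intro a ha
      obtain ⟨c, hc, hc'⟩ := h1 a ha
      exact ⟨c, by rw [Br1_add, hc, hc', smul_add]⟩

theorem Br1_unit (W : Submodule ℂ (V.ι → ℂ)) (h0 : W ≠ ⊥) (hW : ∀ g, ∀ v ∈ W, V.act g v ∈ W) :
    ∃ v ∈ W, star v ⬝ᵥ v = 1 ∧ Br1_Good V τ v := by
  obtain ⟨v, hv, hv0, h1, h2⟩ := Br1_good V hab τ hττ hinv hgen W h0 hW
  obtain ⟨r, hr, e⟩ := RCLike.pos_iff_exists_ofReal.1 (dotProduct_star_self_pos_iff.2 hv0)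
  have e' : star v ⬝ᵥ v = (r : ℂ) := e.symm
  refine ⟨(((Real.sqrt r)⁻¹ : ℝ) : ℂ) • v, W.smul_mem _ hv, ?_, fun g => ?_, fun h => ?_⟩
  · rw [star_smul, smul_dotProduct, dotProduct_smul, e', smul_eq_mul, smul_eq_mul,
      Complex.star_def, Complex.conj_ofReal, ← Complex.ofReal_mul, ← Complex.ofReal_mul,
      ← mul_assoc, ← mul_inv, Real.mul_self_sqrt hr.le, inv_mul_cancel₀ hr.ne', Complex.ofReal_one]
  · obtain ⟨c, hc⟩ := h1 g
    exact ⟨c, by rw [Br1_smul, Br1_tw_real, hc, smul_comm]⟩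
  · rw [Br1_smul, Br1_tw_real, h2 h]

theorem Br1_basis (k : ℕ) (hk : k ≤ Fintype.card V.ι) : ∃ b : Fin k → V.ι → ℂ,
    (∀ i j, star (b i) ⬝ᵥ b j = if i = j then 1 else 0) ∧ ∀ i, Br1_Good V τ (b i) := by
  induction k with
  | zero => exact ⟨Fin.elim0, fun i => i.elim0, fun i => i.elim0⟩
  | succ k ih =>
    obtain ⟨b, h1, h2⟩ := ih (by omega)
    have hm : ∀ v, v ∈ LinearMap.ker (Matrix.of fun i => star (b i)).mulVecLin ↔
        ∀ i, star (b i) ⬝ᵥ v = 0 := fun v => by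
      rw [LinearMap.mem_ker, funext_iff]
      rfl
    obtain ⟨v, hv, h3, h4⟩ := Br1_unit V hab τ hττ hinv hgen
      (LinearMap.ker (Matrix.of fun i => star (b i)).mulVecLin)
      (LinearMap.ker_ne_bot_of_finrank_lt (by simpa using hk)) fun g v hv => by
        rw [hm] at hv ⊢
        intro i
        obtain ⟨c, hc⟩ := (h2 i).1 g⁻¹
        have h5 := Br1_ip V g (V.act g⁻¹ (b i)) v
        rwa [← Br1_mul, mul_inv_cancel, Br1_one, hc, star_smul, smul_dotProduct, hv, smul_zero,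
          ← twR_apply, map_zero] at h5
    rw [hm] at hv
    refine ⟨Fin.cons v b, fun i j => ?_, fun i => ?_⟩
    · refine Fin.cases ?_ (fun i => ?_) i <;> refine Fin.cases ?_ (fun j => ?_) j
      · simpa using h3
      · rw [Fin.cons_zero, Fin.cons_succ, star_dotProduct, hv, star_zero,
          if_neg (Fin.succ_ne_zero j).symm]
      · rw [Fin.cons_zero, Fin.cons_succ, hv, if_neg (Fin.succ_ne_zero i)]
      · simpa using h1 i j
    · refine Fin.cases ?_ (fun i => ?_) i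
      · exact h4
      · exact h2 i

end

theorem RealRep.diag {G : Type u} [Group G] [TopologicalSpace G] {η : G →* ℤˣ}
    (hη : Continuous η) (V : RealRep η) (hab : ∀ a b, η a = 1 → η b = 1 → a * b = b * a) (τ : G)
    (hττ : τ * τ = 1) (hinv : η τ = -1 → ∀ a, η a = 1 → τ * a * τ⁻¹ = a⁻¹)
    (hgen : (∀ g, η g = 1) ∨ η τ = -1) :
    ∃ (S : Matrix V.ι V.ι ℂ) (χ : V.ι → G → Circle), Sᴴ * S = 1 ∧ (∀ i, Continuous (χ i)) ∧
      (∀ g, Sᴴ * V.mat g * S.map (tw (η g)) = diagonal fun i => (χ i g : ℂ)) ∧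
      (η τ = -1 → ∀ i, χ i τ = 1) := by
  obtain ⟨b₀, h1, h2⟩ := Br1_basis V hab τ hττ hinv hgen _ le_rfl
  obtain ⟨b, hb, h3⟩ : ∃ b : V.ι → V.ι → ℂ, (∀ i j, star (b i) ⬝ᵥ b j = if i = j then 1 else 0) ∧
      ∀ i, Br1_Good V τ (b i) :=
    ⟨fun i => b₀ (Fintype.equivFin _ i), fun i j => by simp [h1], fun i => h2 _⟩
  choose c hc using fun i => (h3 i).1
  have h4 : ∀ g i j, (((Matrix.of b)ᵀ)ᴴ * V.mat g * (Matrix.of b)ᵀ.map (tw (η g))) i j =
      if i = j then c i g else 0 := fun g i j => by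
    have h5 : (((Matrix.of b)ᵀ)ᴴ * V.mat g * (Matrix.of b)ᵀ.map (tw (η g))) i j =
        star (b i) ⬝ᵥ V.act g (b j) := by
      rw [Matrix.mul_assoc]
      rfl
    rw [h5, hc, dotProduct_smul, hb]
    split_ifs with h
    · rw [h, smul_eq_mul, mul_one]
    · rw [smul_zero]
  have h5 : ∀ i g, ‖c i g‖ = 1 := fun i g => by
    have h6 := Br1_ip V g (b i) (b i)
    rw [hc, star_smul, smul_dotProduct, dotProduct_smul, hb, if_pos rfl, ← twR_apply, map_one,
      smul_eq_mul, smul_eq_mul, mul_one] at h6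
    have h7 := congrArg norm h6
    rw [norm_mul, norm_star, norm_one] at h7
    nlinarith [norm_nonneg (c i g)]
  refine ⟨(Matrix.of b)ᵀ, fun i g => ⟨c i g, mem_sphere_zero_iff_norm.2 (h5 i g)⟩, ?_,
    fun i => ?_, fun g => ?_, fun h i => ?_⟩
  · ext i j
    exact (hb i j).trans one_apply.symm
  · refine Continuous.subtype_mk ?_ _
    have h6 : Continuous fun g => (Matrix.of b)ᵀ.map (tw (η g)) :=
      (continuous_of_discreteTopology (f := fun u : ℤˣ => (Matrix.of b)ᵀ.map (tw u))).comp hη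
    refine (((continuous_const.matrix_mul V.cont).matrix_mul h6).matrix_elem i i).congr
      fun g => (h4 g i i).trans (if_pos rfl)
  · ext i j
    rw [h4, diagonal_apply]
  · have h6 := congrArg (star (b i) ⬝ᵥ ·) ((hc i τ).symm.trans ((h3 i).2 h))
    simp only [dotProduct_smul, hb, if_true, smul_eq_mul, mul_one] at h6
    exact Subtype.ext h6

end RB
end

-- merged part: Pool.Agent.Work.MP_666b5d_gt.Br3
section
/-!
# A compact quasi-abelian group acts on two Real representations through some `ctx Λ ε`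

Proof plan.  Diagonalise `W` and `U` with the same `τ` (`RealRep.diag`; `τ = 1` for the trivial
augmentation), and let `χ = Sum.elim χ_W χ_U`.  From `mat_mul`,
`χ i (g h) = χ i g * tw (η g) (χ i h)`.  Put `(ρ g).a m = ∏ i, χ i g ^ m i`, `(ρ g).e = η g`,
`Λ = {m | ∀ a, η a = 1 → ∏ i, χ i a ^ m i = 1}` and `ε = true` iff `η τ = -1`.  The image `H` of
`ker η` in the torus is a compact subgroup; by `torus_dual` every character `a` of `M` killing `Λ`
(determined by `t i = a (Pi.single i 1)`) comes from `H`.  Elements with sign `-1` are `a τ`, and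
`ρ τ = ⟨1, -1⟩`.
-/

open Set Matrix

namespace RB

universe u

theorem Br3_tw_coe (u : ℤˣ) (z : Circle) : tw u (z : ℂ) = ((z ^ (u : ℤ) : Circle) : ℂ) := by
  rcases Int.units_eq_one_or u with rfl | rfl
  · rw [tw_one, Units.val_one, zpow_one]
  · rw [tw_neg_one, Units.val_neg, Units.val_one, _root_.zpow_neg, zpow_one,
      Circle.coe_inv_eq_conj]
    rfl

theorem Br3_cocycle {G : Type u} [Group G] [TopologicalSpace G] {η : G →* ℤˣ} (V : RealRep η)
    {S : Matrix V.ι V.ι ℂ} {χ : V.ι → G → Circle} (hS : Sᴴ * S = 1)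
    (hd : ∀ g, Sᴴ * V.mat g * S.map (tw (η g)) = diagonal fun i => (χ i g : ℂ)) (i : V.ι)
    (g h : G) : χ i (g * h) = χ i g * χ i h ^ (η g : ℤ) := by
  have h1 : S.map (twR (η g)) * Sᴴ.map (twR (η g)) = 1 := by
    rw [← Matrix.map_mul, mul_eq_one_comm.1 hS]
    exact Matrix.map_one _ (map_zero _) (map_one _)
  have h2 : S.map (tw (η (g * h))) = (S.map (tw (η h))).map (twR (η g)) := by
    ext a b
    simp only [map_apply, twR_apply, map_mul, Br1_tw_mul]
  have h3 : Sᴴ * V.mat (g * h) * S.map (tw (η (g * h))) =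
      (Sᴴ * V.mat g * S.map (tw (η g))) *
        (Sᴴ * V.mat h * S.map (tw (η h))).map (twR (η g)) := by
    rw [V.mat_mul, h2, Matrix.map_mul, Matrix.map_mul, tw_eq_twR (η g)]
    simp only [Matrix.mul_assoc]
    rw [← Matrix.mul_assoc (S.map (twR (η g))), h1, Matrix.one_mul]
  rw [hd, hd, hd, diagonal_map (map_zero _), diagonal_mul_diagonal] at h3
  have h4 := congrFun (diagonal_injective h3) i
  apply Subtype.ext
  rw [h4, twR_apply, Br3_tw_coe, Circle.coe_mul]

/-- The character of the lattice with prescribed values on the standard basis. -/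
noncomputable def Br3_chr {ι : Type} [Fintype ι] (t : ι → Circle) : AddChar (ι → ℤ) Circle where
  toFun m := ∏ i, t i ^ m i
  map_zero_eq_one' := by simp
  map_add_eq_mul' m m' := by
    simp only [Pi.add_apply, _root_.zpow_add, Finset.prod_mul_distrib]

theorem Br3_chr_apply {ι : Type} [Fintype ι] (t : ι → Circle) (m : ι → ℤ) :
    Br3_chr t m = ∏ i, t i ^ m i := rfl

theorem Br3_chr_single {ι : Type} [Fintype ι] [DecidableEq ι] (t : ι → Circle) (i : ι) :
    Br3_chr t (Pi.single i 1) = t i := by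
  rw [Br3_chr_apply, Finset.prod_eq_single i]
  · simp
  · intro j _ hj
    simp [Pi.single_eq_of_ne hj]
  · simp

theorem Br3_map_sum {M ι : Type} [AddCommGroup M] (a : AddChar M Circle) (s : Finset ι)
    (f : ι → M) : a (∑ i ∈ s, f i) = ∏ i ∈ s, a (f i) := by
  classical
  induction s using Finset.induction_on with
  | empty => simp
  | insert i s hi ih => rw [Finset.sum_insert hi, Finset.prod_insert hi, a.map_add_eq_mul, ih]

theorem Br3_chr_eq {ι : Type} [Fintype ι] [DecidableEq ι] (a : AddChar (ι → ℤ) Circle) :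
    Br3_chr (fun i => a (Pi.single i 1)) = a := by
  ext m
  congr 1
  conv_rhs => rw [← Finset.univ_sum_single m, Br3_map_sum]
  rw [Br3_chr_apply]
  refine Finset.prod_congr rfl fun i _ => ?_
  rw [← a.map_zsmul_eq_zpow, ← Pi.single_smul, smul_eq_mul, mul_one]

theorem Br3_rho {G : Type u} [Group G] [TopologicalSpace G] [CompactSpace G] {η : G →* ℤˣ}
    (hη : Continuous η) {ι : Type} [Fintype ι] [DecidableEq ι] (χ : ι → G → Circle)
    (hc : ∀ i, Continuous (χ i)) (hm : ∀ i g h, χ i (g * h) = χ i g * χ i h ^ (η g : ℤ)) (τ : G)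
    (hτ : η τ = -1 → ∀ i, χ i τ = 1) (hgen : (∀ g, η g = 1) ∨ η τ = -1) :
    ∃ (ρ : G →* Gam (ι → ℤ)) (Λ : AddSubgroup (ι → ℤ)) (ε : Bool), Continuous ρ ∧
      (∀ g, (ρ g).e = η g) ∧ range ρ = (ctx Λ ε : Set (Gam (ι → ℤ))) ∧
      ∀ g i, (ρ g).a (Pi.single i 1) = χ i g := by
  let ρ : G →* Gam (ι → ℤ) := MonoidHom.mk' (fun g => ⟨Br3_chr fun i => χ i g, η g⟩) fun g h => by
    refine Gam.ext ?_ (map_mul η g h)
    ext m
    congr 1
    simp only [Gam.mul_a, AddChar.mul_apply, AddChar.zpow_apply, Br3_chr_apply, hm, mul_zpow,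
      Finset.prod_mul_distrib, ← Finset.prod_zpow, ← _root_.zpow_mul, mul_comm (η g : ℤ)]
  have ha : ∀ g, (ρ g).a = Br3_chr fun i => χ i g := fun _ => rfl
  have he : ∀ g, (ρ g).e = η g := fun _ => rfl
  have h1 : ∀ i, χ i 1 = 1 := fun i => by
    have := hm i 1 1
    rw [mul_one, map_one, Units.val_one, zpow_one] at this
    exact left_eq_mul.1 this
  have hρτ : η τ = -1 → ∀ g, (ρ (g * τ)).a = (ρ g).a := fun h g => by
    simp only [ha, hm, hτ h, _root_.one_zpow, mul_one]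
  let H : Subgroup (ι → Circle) :=
    { carrier := (fun g i => χ i g) '' {g | η g = 1}
      mul_mem' := by
        rintro _ _ ⟨g, hg, rfl⟩ ⟨h, hh, rfl⟩
        have hg' : η g = 1 := hg
        have hh' : η h = 1 := hh
        refine ⟨g * h, ?_, ?_⟩
        · change η (g * h) = 1
          rw [map_mul, hg', hh', one_mul]
        · funext i
          simp only [hm, hg', Units.val_one, zpow_one, Pi.mul_apply]
      one_mem' := ⟨1, map_one η, funext h1⟩
      inv_mem' := by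
        rintro _ ⟨g, hg, rfl⟩
        have hg' : η g = 1 := hg
        refine ⟨g⁻¹, ?_, ?_⟩
        · change η g⁻¹ = 1
          rw [map_inv, hg', inv_one]
        · funext i
          have := hm i g g⁻¹
          rw [mul_inv_cancel, h1, hg', Units.val_one, zpow_one] at this
          exact eq_inv_of_mul_eq_one_right this.symm }
  have hH : IsClosed (H : Set (ι → Circle)) :=
    ((isClosed_eq hη continuous_const).isCompact.image (continuous_pi hc)).isClosed
  let Λ : AddSubgroup (ι → ℤ) :=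
    { carrier := {m | ∀ g, η g = 1 → (ρ g).a m = 1}
      add_mem' := fun h h' g hg => by rw [AddChar.map_add_eq_mul, h g hg, h' g hg, one_mul]
      zero_mem' := fun g _ => AddChar.map_zero_eq_one _
      neg_mem' := fun h g hg => by rw [AddChar.map_neg_eq_inv, h g hg, inv_one] }
  refine ⟨ρ, Λ, decide (η τ = -1), ?_, he, ?_, fun g i => Br3_chr_single _ i⟩
  · refine continuous_induced_rng.2 (Continuous.prodMk (continuous_pi fun w => ?_) hη)
    exact continuous_finsetProd (f := fun i g => χ i g ^ w i) _ fun i _ => (hc i).zpow _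
  · ext γ
    rw [SetLike.mem_coe, mem_ctx]
    constructor
    · rintro ⟨g, rfl⟩
      refine ⟨fun w hw => ?_, fun h => ?_⟩
      · rcases Int.units_eq_one_or (η g) with hg | hg
        · exact hw g hg
        · have h2 : η τ = -1 := hgen.resolve_left fun h => by
            rw [h g] at hg
            exact absurd hg (by decide)
          rw [← hρτ h2]
          exact hw _ (by rw [map_mul, hg, h2]; decide)
      · exact hgen.resolve_right (of_decide_eq_false h) g
    · rintro ⟨h2, h3⟩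
      obtain ⟨g, hg, h4⟩ := torus_dual H hH (fun i => γ.a (Pi.single i 1)) fun m hm' => by
        rw [← Br3_chr_apply, Br3_chr_eq]
        exact h2 m fun g hg => hm' _ ⟨g, hg, rfl⟩
      have hg' : η g = 1 := hg
      have h5 : (ρ g).a = γ.a := by
        rw [ha, ← Br3_chr_eq γ.a]
        exact congrArg Br3_chr h4
      rcases Int.units_eq_one_or γ.e with h6 | h6
      · exact ⟨g, Gam.ext h5 (by rw [he, hg', h6])⟩
      · have h7 : η τ = -1 := by
          by_contra h8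
          rw [h3 (decide_eq_false h8)] at h6
          exact absurd h6 (by decide)
        exact ⟨g * τ, Gam.ext ((hρτ h7 g).trans h5) (by rw [he, map_mul, hg', h7, h6, one_mul])⟩

theorem exists_rho {G : Type u} [Group G] [TopologicalSpace G] [IsTopologicalGroup G]
    [CompactSpace G] {η : G →* ℤˣ} (hη : Continuous η) (hq : IsQuasiAbelian η) (W U : RealRep η) :
    ∃ (ρ : G →* Gam (W.ι ⊕ U.ι → ℤ)) (Λ : AddSubgroup (W.ι ⊕ U.ι → ℤ)) (ε : Bool)
      (SW : Matrix W.ι W.ι ℂ) (SU : Matrix U.ι U.ι ℂ), Continuous ρ ∧ (∀ g, (ρ g).e = η g) ∧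
      range ρ = (ctx Λ ε : Set (Gam (W.ι ⊕ U.ι → ℤ))) ∧ SWᴴ * SW = 1 ∧ SUᴴ * SU = 1 ∧
      (∀ g, SWᴴ * W.mat g * SW.map (tw (η g)) =
        diagonal fun i => ch (ρ g) (Pi.single (Sum.inl i) 1)) ∧
      ∀ g, SUᴴ * U.mat g * SU.map (tw (η g)) =
        diagonal fun i => ch (ρ g) (Pi.single (Sum.inr i) 1) := by
  obtain ⟨hab, hq⟩ := hq
  obtain ⟨τ, hττ, hinv, hgen⟩ : ∃ τ : G, τ * τ = 1 ∧
      (η τ = -1 → ∀ a, η a = 1 → τ * a * τ⁻¹ = a⁻¹) ∧ ((∀ g, η g = 1) ∨ η τ = -1) := by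
    rcases hq with h | ⟨τ, h1, h2, h3⟩
    · refine ⟨1, one_mul 1, fun h1 => ?_, Or.inl h⟩
      rw [map_one] at h1
      exact absurd h1 (by decide)
    · exact ⟨τ, h2, fun _ => h3, Or.inr h1⟩
  obtain ⟨SW, χW, w1, w2, w3, w4⟩ := RealRep.diag hη W hab τ hττ hinv hgen
  obtain ⟨SU, χU, u1, u2, u3, u4⟩ := RealRep.diag hη U hab τ hττ hinv hgen
  obtain ⟨ρ, Λ, ε, h1, h2, h3, h4⟩ := Br3_rho hη (Sum.elim χW χU)
    (fun i => by
      rcases i with i | i
      exacts [w2 i, u2 i])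
    (fun i => by
      rcases i with i | i
      exacts [Br3_cocycle W w1 w3 i, Br3_cocycle U u1 u3 i]) τ
    (fun h i => by
      rcases i with i | i
      exacts [w4 h i, u4 h i]) hgen
  refine ⟨ρ, Λ, ε, SW, SU, h1, h2, h3, w1, u1, fun g => ?_, fun g => ?_⟩
  · simp only [w3, ch, h4, Sum.elim_inl]
  · simp only [u3, ch, h4, Sum.elim_inr]

end RB
end
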