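import Mathlib
import Pool.Agent.Work.MP_666b5d_gt.Stmt

-- merged part: Pool.Agent.Work.MP_666b5d_gt.Sing
section
-- merged part: Pool.Agent.Work.MP_666b5d_gt.OP
section
/-!
# Based maps of one-point compactifications

`BM X Y` is a based map `X⁺ → Y⁺`, recorded as a continuous map `X → Y⁺` tending to `∞` at
infinity.  All spaces are Hausdorff and locally compact (`LC`).

Proof hints.  A neighbourhood basis of `∞` in `Y⁺` is given by the complements of compact sets
(`OnePoint.hasBasis_nhds_infty`-like lemmas, `OnePoint.tendsto_nhds_infty'`,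
`OnePoint.continuous_iff`, `OnePoint.isOpen_def`); prove `tend_iff` and `cont_ob` first, the rest
follows from them.
-/

open Set Filter Topology OnePoint
open scoped unitInterval

namespace RB

/-- Hausdorff and locally compact. -/
class abbrev LC (X : Type) [TopologicalSpace X] : Prop := T2Space X, LocallyCompactSpace X

section

variable {X Y Z X' U : Type}

/-- Extension of `k` to the one-point compactification by `∞ ↦ ∞`. -/
def ob (a : OnePoint Y) (k : Y → OnePoint Z) : OnePoint Z := a.elim ∞ k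

@[simp] theorem ob_infty (k : Y → OnePoint Z) : ob ∞ k = ∞ := rfl

@[simp] theorem ob_coe (y : Y) (k : Y → OnePoint Z) : ob (y : OnePoint Y) k = k y := rfl

theorem ob_map {W : Type} (a : OnePoint Y) (h : Y → W) (k : W → OnePoint Z) :
    ob (a.map h) k = ob a (fun y => k (h y)) := by
  induction a using OnePoint.rec <;> rfl

theorem map_ob {W : Type} (a : OnePoint Y) (k : Y → OnePoint Z) (h : Z → W) :
    (ob a k).map h = ob a (fun y => (k y).map h) := by
  induction a using OnePoint.rec <;> rfl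

theorem ob_ob {W : Type} (a : OnePoint Y) (k : Y → OnePoint Z) (l : Z → OnePoint W) :
    ob (ob a k) l = ob a (fun y => ob (k y) l) := by
  induction a using OnePoint.rec <;> rfl

theorem ob_some (a : OnePoint Y) (h : Y → Z) : ob a (fun y => (h y : OnePoint Z)) = a.map h := by
  induction a using OnePoint.rec <;> rfl

theorem omap_map {W : Type} (a : OnePoint Y) (h : Y → Z) (k : Z → W) :
    (a.map h).map k = a.map (fun y => k (h y)) := by
  induction a using OnePoint.rec <;> rfl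

theorem omap_id (a : OnePoint Y) : a.map (fun y => y) = a := by
  induction a using OnePoint.rec <;> rfl

theorem omap_congr (a : OnePoint Y) {h k : Y → Z} (H : ∀ y : Y, a = y → h y = k y) :
    a.map h = a.map k := by
  induction a using OnePoint.rec
  · rfl
  · exact congrArg _ (H _ rfl)

theorem omap_eq_coe {a : OnePoint Y} {h : Y → Z} {z : Z} :
    a.map h = (z : OnePoint Z) ↔ ∃ y : Y, a = y ∧ h y = z := by
  induction a using OnePoint.rec
  · simp
  · simp

theorem ob_eq_coe {a : OnePoint Y} {k : Y → OnePoint Z} {z : Z} :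
    ob a k = (z : OnePoint Z) ↔ ∃ y : Y, a = y ∧ k y = z := by
  induction a using OnePoint.rec
  · simp
  · simp

end

/-- Based maps `X⁺ → Y⁺`. -/
structure BM (X Y : Type) [TopologicalSpace X] [TopologicalSpace Y] where
  f : X → OnePoint Y
  cont : Continuous f
  tend : Tendsto f (cocompact X) (𝓝 ∞)

variable {X Y Z X' U : Type} [TopologicalSpace X] [TopologicalSpace Y] [TopologicalSpace Z]
  [TopologicalSpace X'] [TopologicalSpace U]

@[ext] theorem BM.ext {f g : BM X Y} (h : ∀ x, f.f x = g.f x) : f = g := by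
  cases f; cases g; congr; exact funext h

theorem OP_tend [T2Space Y] {α : Type} {l : Filter α} {f : α → OnePoint Y} :
    Tendsto f l (𝓝 ∞) ↔ ∀ K : Set Y, IsCompact K → ∀ᶠ x in l, ∀ y : Y, f x = y → y ∉ K := by
  have e : ∀ (K : Set Y) (a : OnePoint Y),
      a ∈ ((↑) '' Kᶜ ∪ {∞} : Set (OnePoint Y)) ↔ ∀ y : Y, a = y → y ∉ K := fun K a => by
    induction a using OnePoint.rec <;> simp
  simp only [hasBasis_nhds_infty.tendsto_right_iff, e]
  exact ⟨fun h K hK => h K ⟨hK.isClosed, hK⟩, fun h K hK => h K hK.2⟩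

theorem OP_closed [T2Space Y] {f : X → OnePoint Y} (hf : Continuous f) {K : Set Y}
    (hK : IsCompact K) : IsClosed {x | ∃ y ∈ K, f x = (y : OnePoint Y)} := by
  have := (isClosed_image_coe.2 ⟨hK.isClosed, hK⟩).preimage hf
  simpa only [preimage, mem_image, eq_comm] using this

theorem OP_open {f : X → OnePoint Y} (hf : Continuous f) : IsOpen {x | f x ≠ ∞} :=
  (isClosed_infty.preimage hf).isOpen_compl

omit [TopologicalSpace X] [TopologicalSpace U] in
open Classical in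
theorem OP_inv {j : U → X} (hj : Function.Injective j) (u : U) :
    (if h : ∃ v, j v = j u then (h.choose : OnePoint U) else ∞) = u := by
  have h : ∃ v, j v = j u := ⟨u, rfl⟩
  rw [dif_pos h, hj h.choose_spec]

omit [TopologicalSpace X] [TopologicalSpace U] in
open Classical in
theorem OP_inv_eq {j : U → X} {x : X} {u : U}
    (e : (if h : ∃ v, j v = x then (h.choose : OnePoint U) else ∞) = u) : j u = x := by
  split_ifs at e with h
  · rw [← coe_eq_coe.1 e, h.choose_spec]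
  · exact absurd e (infty_ne_coe u)

open Classical in
theorem OP_inv_cont {j : U → X} (hj : IsEmbedding j) :
    ContinuousOn (fun x => if h : ∃ v, j v = x then (h.choose : OnePoint U) else ∞) (range j) := by
  rw [← image_univ, hj.isInducing.continuousOn_image_iff]
  exact continuous_coe.continuousOn.congr fun u _ => OP_inv hj.injective u

/-- Tending to `∞` at infinity: the set of points with values in a compact set is relatively
compact. -/
theorem tend_iff [T2Space Y] (f : X → OnePoint Y) :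
    Tendsto f (cocompact X) (𝓝 ∞) ↔
      ∀ K : Set Y, IsCompact K → ∃ C : Set X, IsCompact C ∧ ∀ x (y : Y), f x = y → y ∈ K → x ∈ C := by
  rw [OP_tend]
  refine forall₂_congr fun K _ => hasBasis_cocompact.eventually_iff.trans ?_
  exact exists_congr fun C => and_congr_right fun _ =>
    ⟨fun h x y e hy => by_contra fun hx => h hx y e hy, fun h x hx y e hy => hx (h x y e hy)⟩

theorem BM.exists_compact [T2Space Y] (f : BM X Y) {K : Set Y} (hK : IsCompact K) :
    ∃ C : Set X, IsCompact C ∧ ∀ x (y : Y), f.f x = y → y ∈ K → x ∈ C :=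
  (tend_iff f.f).1 f.tend K hK

/-- The set of points with values in a compact set is compact. -/
theorem BM.isCompact_pre [T2Space Y] (f : BM X Y) {K : Set Y} (hK : IsCompact K) :
    IsCompact {x | ∃ y ∈ K, f.f x = (y : OnePoint Y)} := by
  obtain ⟨C, hC, h⟩ := f.exists_compact hK
  exact hC.of_isClosed_subset (OP_closed f.cont hK) fun x ⟨y, hy, e⟩ => h x y e hy

theorem BM.isOpen_fin [T2Space Y] (f : BM X Y) : IsOpen {x | f.f x ≠ ∞} :=
  OP_open f.cont

/-- Main continuity criterion.  `k` only has to be continuous on a set `S` that contains all the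
pairs `(a x, x)`, and finite values of `k` in a compact set must, near any given point, force the
first coordinate into a compact set. -/
theorem cont_ob [T2Space Y] [T2Space Z] {a : X → OnePoint Y} (ha : Continuous a)
    {k : Y × X → OnePoint Z} {S : Set (Y × X)} (hS : ∀ x (y : Y), a x = y → (y, x) ∈ S)
    (hk : ContinuousOn k S)
    (hp : ∀ x₀, ∀ K' : Set Z, IsCompact K' → ∃ K : Set Y, IsCompact K ∧
      ∀ᶠ x in 𝓝 x₀, ∀ (y : Y) (z : Z), (y, x) ∈ S → k (y, x) = z → z ∈ K' → y ∈ K) :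
    Continuous fun x => ob (a x) fun y => k (y, x) := by
  refine continuous_iff_continuousAt.2 fun x₀ => ?_
  have ha' : Tendsto a (𝓝 x₀) (𝓝 (a x₀)) := ha.continuousAt
  rw [ContinuousAt]
  induction h : a x₀ using OnePoint.rec with
  | infty =>
    rw [h] at ha'
    refine OP_tend.2 fun K' hK' => ?_
    obtain ⟨K, hK, h1⟩ := hp x₀ K' hK'
    filter_upwards [h1, OP_tend.1 ha' K hK] with x h2 h3 z e hz
    obtain ⟨y, e1, e2⟩ := ob_eq_coe.1 e
    exact h3 y e1 (h2 y z (hS x y e1) e2 hz)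
  | coe y₀ =>
    rw [h] at ha'
    intro N hN
    have h1 := mem_nhdsWithin_iff_eventually.1 (hk _ (hS x₀ y₀ h) hN)
    rw [nhds_prod_eq, eventually_prod_iff] at h1
    obtain ⟨p, hp1, q, hq, h2⟩ := h1
    have h3 := mem_map.1 (ha' (isOpenEmbedding_coe.image_mem_nhds.2 hp1))
    rw [mem_map]
    filter_upwards [hq, h3] with x hx ⟨y, hy, e⟩
    rw [mem_preimage, ← e]
    exact h2 hy hx (hS x y e.symm)

/-- A function that is continuous on an open set `W`, equal to `∞` outside, and whose finite values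
in a compact set are taken only on a closed subset of `W`, is continuous. -/
theorem cont_of_open [T2Space Y] {f : X → OnePoint Y} {W : Set X} (hW : IsOpen W)
    (hc : ContinuousOn f W) (h0 : ∀ x ∉ W, f x = ∞)
    (hp : ∀ K : Set Y, IsCompact K → ∃ C : Set X, IsClosed C ∧ C ⊆ W ∧
      ∀ x (y : Y), f x = y → y ∈ K → x ∈ C) : Continuous f := by
  refine continuous_iff_continuousAt.2 fun x₀ => ?_
  by_cases hx : x₀ ∈ W
  · exact hc.continuousAt (hW.mem_nhds hx)
  · rw [ContinuousAt, h0 x₀ hx]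
    refine OP_tend.2 fun K hK => ?_
    obtain ⟨C, hC, hCW, h⟩ := hp K hK
    filter_upwards [hC.isOpen_compl.mem_nhds fun h' => hx (hCW h')] with x h1 y e hy
    exact h1 (h x y e hy)

/-- Constructor from continuity and the compactness criterion. -/
def BM.mk' [T2Space Y] (f : X → OnePoint Y) (hc : Continuous f)
    (hp : ∀ K : Set Y, IsCompact K → ∃ C : Set X, IsCompact C ∧
      ∀ x (y : Y), f x = y → y ∈ K → x ∈ C) : BM X Y :=
  ⟨f, hc, (tend_iff f).2 hp⟩

/-- The constant map. -/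
def BM.zero : BM X Y := ⟨fun _ => ∞, continuous_const, tendsto_const_nhds⟩

@[simp] theorem BM.zero_f (x : X) : (BM.zero : BM X Y).f x = ∞ := rfl

/-- A proper map. -/
def BM.ofProper [T2Space Y] (h : X → Y) (hh : IsProperMap h) : BM X Y :=
  ⟨fun x => (h x : OnePoint Y), continuous_coe.comp hh.continuous, (tend_iff _).2 fun K hK =>
    ⟨h ⁻¹' K, hh.isCompact_preimage hK, fun x y e hy => by rwa [← coe_eq_coe.1 e] at hy⟩⟩

@[simp] theorem BM.ofProper_f [T2Space Y] (h : X → Y) (hh : IsProperMap h) (x : X) :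
    (BM.ofProper h hh).f x = (h x : OnePoint Y) := rfl

theorem OP_comp_cont [T2Space Y] [T2Space Z] (g : BM Y Z) {a : X → OnePoint Y}
    (ha : Continuous a) : Continuous fun x => ob (a x) g.f :=
  cont_ob ha (k := fun p => g.f p.1) (S := univ) (fun _ _ _ => mem_univ _)
    (g.cont.comp continuous_fst).continuousOn fun _ _ hK' =>
      (g.exists_compact hK').imp fun _ h => ⟨h.1, .of_forall fun _ y z _ => h.2 y z⟩

theorem OP_comp_tend [T2Space Y] [T2Space Z] (g : BM Y Z) (f : BM X Y) :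
    Tendsto (fun x => ob (f.f x) g.f) (cocompact X) (𝓝 ∞) := by
  refine (tend_iff _).2 fun K hK => ?_
  obtain ⟨C, hC, h⟩ := g.exists_compact hK
  obtain ⟨D, hD, h'⟩ := f.exists_compact hC
  refine ⟨D, hD, fun x z e hz => ?_⟩
  obtain ⟨y, e1, e2⟩ := ob_eq_coe.1 e
  exact h' x y e1 (h y z e2 hz)

/-- Composition. -/
def BM.comp [T2Space Y] [T2Space Z] (g : BM Y Z) (f : BM X Y) : BM X Z :=
  ⟨fun x => ob (f.f x) g.f, OP_comp_cont g f.cont, OP_comp_tend g f⟩

@[simp] theorem BM.comp_f [T2Space Y] [T2Space Z] (g : BM Y Z) (f : BM X Y) (x : X) :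
    (g.comp f).f x = ob (f.f x) g.f := rfl

/-- Precomposition with a proper map. -/
def BM.pre (f : BM X Y) (h : X' → X) (hh : IsProperMap h) : BM X' Y :=
  ⟨fun x => f.f (h x), f.cont.comp hh.continuous, f.tend.comp
    (hasBasis_cocompact.tendsto_right_iff.2 fun _ hK =>
      (hh.isCompact_preimage hK).compl_mem_cocompact)⟩

@[simp] theorem BM.pre_f (f : BM X Y) (h : X' → X) (hh : IsProperMap h) (x : X') :
    (f.pre h hh).f x = f.f (h x) := rfl

/-- Postcomposition with a proper map. -/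
def BM.map [T2Space Y] [T2Space Z] (f : BM X Y) (h : Y → Z) (hh : IsProperMap h) : BM X Z :=
  ⟨fun x => (f.f x).map h,
    ((BM.ofProper h hh).comp f).cont.congr fun x => ob_some (f.f x) h,
    ((BM.ofProper h hh).comp f).tend.congr fun x => ob_some (f.f x) h⟩

@[simp] theorem BM.map_f [T2Space Y] [T2Space Z] (f : BM X Y) (h : Y → Z) (hh : IsProperMap h)
    (x : X) : (f.map h hh).f x = (f.f x).map h := rfl

open Classical in
/-- The collapse map of an open embedding. -/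
noncomputable def BM.coll [T2Space X] [T2Space U] (j : U → X) (hj : IsOpenEmbedding j) : BM X U :=
  ⟨fun x => if h : ∃ u, j u = x then (h.choose : OnePoint U) else ∞,
    cont_of_open hj.isOpen_range (OP_inv_cont hj.isEmbedding) (fun _ hx => dif_neg hx)
      fun K hK => ⟨j '' K, (hK.image hj.continuous).isClosed, image_subset_range _ _,
        fun _ u e hu => ⟨u, hu, OP_inv_eq e⟩⟩,
    (tend_iff _).2 fun K hK => ⟨j '' K, hK.image hj.continuous,
      fun _ u e hu => ⟨u, hu, OP_inv_eq e⟩⟩⟩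

theorem BM.coll_j [T2Space X] [T2Space U] (j : U → X) (hj : IsOpenEmbedding j) (u : U) :
    (BM.coll j hj).f (j u) = (u : OnePoint U) :=
  OP_inv hj.injective u

theorem BM.coll_not [T2Space X] [T2Space U] (j : U → X) (hj : IsOpenEmbedding j) {x : X}
    (hx : x ∉ range j) : (BM.coll j hj).f x = ∞ :=
  dif_neg hx

/-- Extension by `∞` along an open embedding. -/
noncomputable def BM.ext0 [T2Space X] [T2Space U] [T2Space Y] (g : BM U Y) (j : U → X)
    (hj : IsOpenEmbedding j) : BM X Y := g.comp (BM.coll j hj)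

theorem BM.ext0_j [T2Space X] [T2Space U] [T2Space Y] (g : BM U Y) (j : U → X)
    (hj : IsOpenEmbedding j) (u : U) : (g.ext0 j hj).f (j u) = g.f u := by
  rw [BM.ext0, BM.comp_f, BM.coll_j, ob_coe]

theorem BM.ext0_not [T2Space X] [T2Space U] [T2Space Y] (g : BM U Y) (j : U → X)
    (hj : IsOpenEmbedding j) {x : X} (hx : x ∉ range j) : (g.ext0 j hj).f x = ∞ := by
  rw [BM.ext0, BM.comp_f, BM.coll_not j hj hx, ob_infty]

/-- Restriction to an open subspace outside which the map is `∞`. -/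
def BM.res0 [T2Space Y] (f : BM X Y) (j : U → X) (hj : IsOpenEmbedding j)
    (h0 : ∀ x ∉ range j, f.f x = ∞) : BM U Y :=
  ⟨fun u => f.f (j u), f.cont.comp hj.continuous, (tend_iff _).2 fun _ hK =>
    ⟨_, hj.isInducing.isCompact_preimage' (f.isCompact_pre hK) fun x ⟨y, _, e⟩ =>
      by_contra fun hx => infty_ne_coe y ((h0 x hx).symm.trans e),
      fun _ y e hy => ⟨y, hy, e⟩⟩⟩

@[simp] theorem BM.res0_f [T2Space Y] (f : BM X Y) (j : U → X) (hj : IsOpenEmbedding j)
    (h0 : ∀ x ∉ range j, f.f x = ∞) (u : U) : (f.res0 j hj h0).f u = f.f (j u) := rfl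

open Classical in
/-- Lifting along a closed embedding that contains all finite values. -/
noncomputable def BM.lift [T2Space Y] [T2Space Z] (f : BM X Y) (i : Z → Y)
    (hi : IsClosedEmbedding i) (hf : ∀ x (y : Y), f.f x = y → y ∈ range i) : BM X Z :=
  ⟨fun x => ob (f.f x) fun y => if h : ∃ z, i z = y then (h.choose : OnePoint Z) else ∞,
    cont_ob f.cont (S := Prod.fst ⁻¹' range i)
      (k := fun p => if h : ∃ z, i z = p.1 then (h.choose : OnePoint Z) else ∞) hf
      ((OP_inv_cont hi.isEmbedding).comp continuousOn_fst fun _ h => h) fun _ K hK =>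
        ⟨i '' K, hK.image hi.continuous, .of_forall fun _ _ z _ e hz => ⟨z, hz, OP_inv_eq e⟩⟩,
    (tend_iff _).2 fun _ hK => (f.exists_compact (hK.image hi.continuous)).imp fun _ h =>
      ⟨h.1, fun x z e hz => by
        obtain ⟨y, e1, e2⟩ := ob_eq_coe.1 e
        exact h.2 x y e1 ⟨z, hz, OP_inv_eq e2⟩⟩⟩

theorem BM.lift_map [T2Space Y] [T2Space Z] (f : BM X Y) (i : Z → Y)
    (hi : IsClosedEmbedding i) (hf : ∀ x (y : Y), f.f x = y → y ∈ range i) (x : X) :
    ((f.lift i hi hf).f x).map i = f.f x := by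
  dsimp only [BM.lift]
  induction h : f.f x using OnePoint.rec with
  | infty => rfl
  | coe y =>
    obtain ⟨z, rfl⟩ := hf x y h
    rw [ob_coe, OP_inv hi.injective, map_some]

theorem BM.lift_eq_coe [T2Space Y] [T2Space Z] (f : BM X Y) (i : Z → Y)
    (hi : IsClosedEmbedding i) (hf : ∀ x (y : Y), f.f x = y → y ∈ range i) (x : X) (z : Z) :
    (f.lift i hi hf).f x = (z : OnePoint Z) ↔ f.f x = (i z : OnePoint Y) := by
  dsimp only [BM.lift]
  refine ⟨fun e => ?_, fun e => by rw [e, ob_coe, OP_inv hi.injective]⟩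
  obtain ⟨y, e1, e2⟩ := ob_eq_coe.1 e
  rw [e1, OP_inv_eq e2]

theorem omap_injective {i : Z → Y} (hi : Function.Injective i) :
    Function.Injective (OnePoint.map i) :=
  Option.map_injective hi

theorem OP_map_cont [T2Space Y] [T2Space Z] {a : X → OnePoint Y} (ha : Continuous a)
    {h : Y × X → Z} (hh : Continuous h) {r : Z → Y} (hr : Continuous r)
    (e : ∀ p, r (h p) = p.1) : Continuous fun x => (a x).map fun y => h (y, x) :=
  (cont_ob ha (k := fun p => (h p : OnePoint Z)) (S := univ) (fun _ _ _ => mem_univ _)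
    (continuous_coe.comp hh).continuousOn fun _ K hK => ⟨r '' K, hK.image hr,
      .of_forall fun x y z _ e' hz => ⟨z, hz, by rw [← coe_eq_coe.1 e', e]⟩⟩).congr
    fun x => ob_some (a x) _

/-- Product with the identity of `Z`. -/
def BM.prodId [T2Space Y] (f : BM X Y) (Z : Type) [TopologicalSpace Z] [T2Space Z] :
    BM (X × Z) (Y × Z) :=
  ⟨fun p => (f.f p.1).map fun y => (y, p.2),
    OP_map_cont (f.cont.comp continuous_fst) (h := fun q : Y × X × Z => (q.1, q.2.2)) (by fun_prop)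
      continuous_fst fun _ => rfl,
    (tend_iff _).2 fun K hK => by
      obtain ⟨C, hC, h⟩ := f.exists_compact (hK.image continuous_fst)
      refine ⟨C ×ˢ (Prod.snd '' K), hC.prod (hK.image continuous_snd), fun p q e hq => ?_⟩
      obtain ⟨y, e1, rfl⟩ := omap_eq_coe.1 e
      exact ⟨h _ y e1 ⟨_, hq, rfl⟩, _, hq, rfl⟩⟩

@[simp] theorem BM.prodId_f [T2Space Y] (f : BM X Y) (Z : Type) [TopologicalSpace Z] [T2Space Z]
    (p : X × Z) : (f.prodId Z).f p = (f.f p.1).map fun y => (y, p.2) := rfl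

/-- Product of the identity of `K` with a based map. -/
def BM.idProd [T2Space Y] (K : Type) [TopologicalSpace K] [T2Space K] (k : BM X Y) :
    BM (K × X) (K × Y) :=
  ⟨fun p => (k.f p.2).map fun y => (p.1, y),
    OP_map_cont (k.cont.comp continuous_snd) (h := fun q : Y × K × X => (q.2.1, q.1)) (by fun_prop)
      continuous_snd fun _ => rfl,
    (tend_iff _).2 fun L hL => by
      obtain ⟨C, hC, h⟩ := k.exists_compact (hL.image continuous_snd)
      refine ⟨(Prod.fst '' L) ×ˢ C, (hL.image continuous_fst).prod hC, fun p q e hq => ?_⟩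
      obtain ⟨y, e1, rfl⟩ := omap_eq_coe.1 e
      exact ⟨⟨_, hq, rfl⟩, h _ y e1 ⟨_, hq, rfl⟩⟩⟩

@[simp] theorem BM.idProd_f [T2Space Y] (K : Type) [TopologicalSpace K] [T2Space K] (k : BM X Y)
    (p : K × X) : (k.idProd K).f p = (k.f p.2).map fun y => (p.1, y) := rfl

open Classical in
/-- The tuple of finite values, if all values are finite. -/
noncomputable def tup {ν : Type} (a : ν → OnePoint Y) : OnePoint (ν → Y) :=
  if h : ∀ k, ∃ y : Y, a k = y then ((fun k => (h k).choose : ν → Y) : OnePoint (ν → Y)) else ∞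

omit [TopologicalSpace Y] in
theorem tup_coe {ν : Type} (y : ν → Y) :
    tup (fun k => (y k : OnePoint Y)) = (y : OnePoint (ν → Y)) := by
  have h : ∀ k, ∃ z : Y, (y k : OnePoint Y) = z := fun k => ⟨y k, rfl⟩
  rw [tup, dif_pos h]
  exact congrArg _ (funext fun k => (coe_eq_coe.1 (h k).choose_spec).symm)

omit [TopologicalSpace Y] in
theorem tup_infty {ν : Type} {a : ν → OnePoint Y} {k : ν} (hk : a k = ∞) : tup a = ∞ :=
  dif_neg fun h => (h k).elim fun y e => infty_ne_coe y (hk.symm.trans e)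

omit [TopologicalSpace Y] in
theorem OP_tup_eq {ν : Type} {a : ν → OnePoint Y} {y : ν → Y} (e : tup a = y) (k : ν) :
    a k = y k := by
  rw [tup] at e
  split_ifs at e with h
  · rw [← coe_eq_coe.1 e]
    exact (h k).choose_spec
  · exact absurd e (infty_ne_coe y)

theorem OP_tup_cont [T2Space Y] {ν : Type} [Finite ν] {a : ν → X → OnePoint Y}
    (ha : ∀ k, Continuous (a k)) : Continuous fun x => tup fun k => a k x := by
  refine cont_of_open (isOpen_iInter_of_finite fun k => OP_open (ha k)) ?_ (fun x hx => ?_)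
    fun K hK => ⟨_, isClosed_iInter fun k => OP_closed (ha k) (hK.image (continuous_apply k)),
      iInter_mono fun k x ⟨y, _, e⟩ e' => infty_ne_coe y (e'.symm.trans e),
      fun x y e hy => mem_iInter.2 fun k => ⟨y k, ⟨y, hy, rfl⟩, OP_tup_eq e k⟩⟩
  · rw [continuousOn_iff_continuous_domRestrict]
    have h : ∀ (x : ⋂ k, {x | a k x ≠ ∞}) k, ∃ y : Y, (y : OnePoint Y) = a k x := fun x k =>
      ne_infty_iff_exists.1 (mem_iInter.1 x.2 k)
    choose y hy using h
    have hc : Continuous y := continuous_pi fun k =>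
      isOpenEmbedding_coe.isInducing.continuous_iff.2
        (((ha k).comp continuous_subtype_val).congr fun x => (hy x k).symm)
    refine (continuous_coe.comp hc).congr fun x => ?_
    simp only [domRestrict_apply, ← hy, tup_coe, Function.comp]
  · obtain ⟨k, hk⟩ := not_forall.1 (mt mem_iInter.2 hx)
    exact tup_infty (k := k) (not_not.1 hk)

/-- Finite smash product of maps with a common source; the family of the `h k` has to be jointly
proper. -/
noncomputable def BM.pi [T2Space Y] {ν : Type} [Fintype ν] (f : ν → BM X Y) (h : ν → X' → X)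
    (hh : IsProperMap fun x k => h k x) : BM X' (ν → Y) :=
  ⟨fun x => tup fun k => (f k).f (h k x),
    OP_tup_cont fun k => (f k).cont.comp ((continuous_apply k).comp hh.continuous),
    (tend_iff _).2 fun K hK => by
      choose C hC h1 using fun k => (f k).exists_compact (hK.image (continuous_apply k))
      exact ⟨_, hh.isCompact_preimage (isCompact_univ_pi hC),
        fun x y e hy k _ => h1 k _ (y k) (OP_tup_eq e k) ⟨y, hy, rfl⟩⟩⟩

theorem BM.pi_f [T2Space Y] {ν : Type} [Fintype ν] (f : ν → BM X Y) (h : ν → X' → X)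
    (hh : IsProperMap fun x k => h k x) (x : X') :
    (BM.pi f h hh).f x = tup fun k => (f k).f (h k x) := rfl

/-- The associated map of one-point compactifications. -/
def BM.toC [T2Space X] (f : BM X Y) : C(OnePoint X, OnePoint Y) := ⟨fun a => ob a f.f,
  (OnePoint.continuous_iff _).2 ⟨by
    rw [coclosedCompact_eq_cocompact]
    exact f.tend, f.cont⟩⟩

/-- A based map of one-point compactifications. -/
def BM.ofC [T2Space X] (F : C(OnePoint X, OnePoint Y)) (h : F ∞ = ∞) : BM X Y :=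
  ⟨fun x => F x, F.continuous.comp continuous_coe, by
    rw [← h, ← coclosedCompact_eq_cocompact]
    exact ((OnePoint.continuous_iff _).1 F.continuous).1⟩

/-- A homotopy of based maps as a map on `X⁺ × I`. -/
def BM.toCI [T2Space X] [T2Space Y] (H : BM (X × I) Y) : C(OnePoint X × I, OnePoint Y) :=
  ⟨fun p => ob p.1 fun x => H.f (x, p.2),
    cont_ob continuous_fst (k := fun q : X × OnePoint X × I => H.f (q.1, q.2.2)) (S := univ)
      (fun _ _ _ => mem_univ _) (H.cont.comp (by fun_prop)).continuousOn fun _ _ hK => by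
        obtain ⟨C, hC, h⟩ := H.exists_compact hK
        exact ⟨_, hC.image continuous_fst, .of_forall fun _ _ z _ e hz => ⟨_, h _ z e hz, rfl⟩⟩⟩

/-- A based homotopy on `X⁺ × I` as a based map on `X × I`. -/
def BM.ofCI [T2Space X] [T2Space Y] (H : C(OnePoint X × I, OnePoint Y)) (h : ∀ t, H (∞, t) = ∞) :
    BM (X × I) Y :=
  ⟨fun p => H (p.1, p.2),
    H.continuous.comp ((continuous_coe.comp continuous_fst).prodMk continuous_snd),
    (tend_iff _).2 fun K hK => by
      refine ⟨_, (isOpenEmbedding_coe.isInducing.prodMap .id).isCompact_preimage'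
        (OP_closed H.continuous hK).isCompact ?_, fun _ y e hy => ⟨y, hy, e⟩⟩
      rintro ⟨a, t⟩ ⟨y, -, e⟩
      induction a using OnePoint.rec with
      | infty => exact absurd ((h t).symm.trans e) (infty_ne_coe y)
      | coe x => exact ⟨(x, t), rfl⟩⟩

/-! ### Proper maps -/

theorem proper_of_compact [LC Y] {h : X → Y} (hc : Continuous h)
    (hp : ∀ K : Set Y, IsCompact K → ∃ C : Set X, IsCompact C ∧ ∀ x, h x ∈ K → x ∈ C) :
    IsProperMap h :=
  isProperMap_iff_isCompact_preimage.2 ⟨hc, fun K hK => (hp K hK).elim fun _ h =>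
    h.1.of_isClosed_subset (hK.isClosed.preimage hc) h.2⟩

theorem proper_of_leftInverse [T2Space Y] {h : X → Y} {r : Y → X} (hc : Continuous h)
    (hr : Continuous r) (hl : ∀ x, r (h x) = x) : IsProperMap h :=
  (Function.LeftInverse.isClosedEmbedding hl hr hc).isProperMap

theorem closedEmb_of_leftInverse [T2Space Y] {h : X → Y} {r : Y → X} (hc : Continuous h)
    (hr : Continuous r) (hl : ∀ x, r (h x) = x) : IsClosedEmbedding h :=
  Function.LeftInverse.isClosedEmbedding hl hr hc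

theorem proper_at (t : I) : IsProperMap fun x : X => (x, t) := by
  refine IsClosedEmbedding.isProperMap ⟨isEmbedding_prodMkLeft t, ?_⟩
  convert (isClosed_singleton (x := t)).preimage (continuous_snd (X := X)) using 1
  ext ⟨x, s⟩
  simp [eq_comm]

theorem proper_fst : IsProperMap (Prod.fst : X × I → X) :=
  isProperMap_fst_of_compactSpace

end RB
end

-- merged part: Pool.Agent.Work.MP_666b5d_gt.Ht
section
/-!
# Actions, equivariant based maps, homotopies, transition data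

Actions are plain functions; `𝒢` is the set of symmetries that maps have to commute with, and `D`
is a set that has to contain all finite values.
-/

open Set Filter Topology OnePoint
open scoped unitInterval

namespace RB

/-- An action of the symmetries `S` on `X` (no axioms). -/
abbrev Act (S X : Type) := S → X → X

namespace Act

variable {S X Y : Type}

/-- The trivial action. -/
def triv : Act S X := fun _ x => x

/-- The product action. -/
def prod (α : Act S X) (β : Act S Y) : Act S (X × Y) := fun g p => (α g p.1, β g p.2)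

open Classical in
/-- The action on a subtype (junk where the predicate is not preserved). -/
noncomputable def sub (α : Act S X) (p : X → Prop) : Act S {x // p x} :=
  fun g x => if h : p (α g x.1) then ⟨α g x.1, h⟩ else x

@[simp] theorem triv_apply (g : S) (x : X) : (triv : Act S X) g x = x := rfl

@[simp] theorem prod_apply (α : Act S X) (β : Act S Y) (g : S) (p : X × Y) :
    α.prod β g p = (α g p.1, β g p.2) := rfl

theorem sub_val (α : Act S X) (p : X → Prop) {g : S} {x : {x // p x}} (h : p (α g x.1)) :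
    (α.sub p g x).1 = α g x.1 := by
  simp [sub, h]

end Act

open Act

variable {S X Y Z X' Y' U : Type} [TopologicalSpace X] [TopologicalSpace Y] [TopologicalSpace Z]
  [TopologicalSpace X'] [TopologicalSpace Y'] [TopologicalSpace U]

/-- Equivariant, with finite values in `D`. -/
structure Good (𝒢 : Set S) (α : Act S X) (β : Act S Y) (D : Set Y) (f : BM X Y) : Prop where
  eqv : ∀ g ∈ 𝒢, ∀ x, f.f (α g x) = (f.f x).map (β g)
  mem : ∀ x (y : Y), f.f x = y → y ∈ D

/-- Homotopic through good maps. -/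
def Ht (𝒢 : Set S) (α : Act S X) (β : Act S Y) (D : Set Y) (f g : BM X Y) : Prop :=
  ∃ H : BM (X × I) Y, Good 𝒢 (α.prod triv) β D H ∧ (∀ x, H.f (x, 0) = f.f x) ∧
    ∀ x, H.f (x, 1) = g.f x

/-- Non-equivariantly homotopic. -/
abbrev Ht0 (f g : BM X Y) : Prop := Ht (∅ : Set ℤˣ) triv triv univ f g

/-- An equivariant proper map. -/
structure PMap (𝒢 : Set S) (α' : Act S X') (α : Act S X) (h : X' → X) : Prop where
  proper : IsProperMap h
  eqv : ∀ g ∈ 𝒢, ∀ x, h (α' g x) = α g (h x)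

/-- An equivariant open embedding whose range has invariant complement. -/
structure OEmb (𝒢 : Set S) (αU : Act S U) (α : Act S X) (j : U → X) : Prop where
  emb : IsOpenEmbedding j
  eqv : ∀ g ∈ 𝒢, ∀ u, j (αU g u) = α g (j u)
  back : ∀ g ∈ 𝒢, ∀ x, α g x ∈ range j → x ∈ range j

/-- A continuous action of the subgroup `𝒢`. -/
structure GA [Group S] [TopologicalSpace S] (𝒢 : Set S) (α : Act S X) : Prop where
  one : ∀ x, α 1 x = x
  mul : ∀ g ∈ 𝒢, ∀ h ∈ 𝒢, ∀ x, α (g * h) x = α g (α h x)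
  cont : ContinuousOn (fun p : S × X => α p.1 p.2) (𝒢 ×ˢ univ)

variable {𝒢 ℋ : Set S} {α : Act S X} {β : Act S Y} {γ : Act S Z} {α' : Act S X'} {β' : Act S Y'}
  {αU : Act S U} {D : Set Y} {D' : Set Y'} {f g k : BM X Y}

theorem Good.zero : Good 𝒢 α β D BM.zero := ⟨fun _ _ _ => rfl, fun _ _ h => by simp at h⟩

theorem Good.mono (hf : Good 𝒢 α β D f) (h : ℋ ⊆ 𝒢) : Good ℋ α β D f :=
  ⟨fun g hg => hf.eqv g (h hg), hf.mem⟩

theorem Good.monoD (hf : Good 𝒢 α β D f) {D₁ : Set Y} (h : D ⊆ D₁) : Good 𝒢 α β D₁ f :=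
  ⟨hf.eqv, fun x y hy => h (hf.mem x y hy)⟩

theorem Good.congr (hf : Good 𝒢 α β D f) {α₁ : Act S X} {β₁ : Act S Y}
    (h₁ : ∀ g ∈ 𝒢, ∀ x, α₁ g x = α g x) (h₂ : ∀ g ∈ 𝒢, ∀ y, β₁ g y = β g y) :
    Good 𝒢 α₁ β₁ D f :=
  ⟨fun g hg x => by rw [h₁ g hg, hf.eqv g hg, funext (h₂ g hg)], hf.mem⟩

theorem Good.of_empty {S' : Type} {α₁ : Act S' X} {β₁ : Act S' Y} (hf : Good 𝒢 α β D f) :
    Good (∅ : Set S') α₁ β₁ D f := ⟨fun _ h => h.elim, hf.mem⟩

theorem Good.empty_univ (f : BM X Y) : Good (∅ : Set S) α β univ f :=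
  ⟨fun _ h => h.elim, fun _ _ _ => trivial⟩

theorem Good.pre (hf : Good 𝒢 α β D f) {h : X' → X} (hh : PMap 𝒢 α' α h) :
    Good 𝒢 α' β D (f.pre h hh.proper) := by
  refine ⟨fun g hg x => ?_, fun x y hy => hf.mem _ y hy⟩
  rw [BM.pre_f, BM.pre_f, hh.eqv g hg, hf.eqv g hg]

theorem Good.comp [T2Space Y] [T2Space Y'] (hf : Good 𝒢 α β D f) {l : BM Y Y'}
    (hl : Good 𝒢 β β' univ l) (hD : ∀ y ∈ D, ∀ y' : Y', l.f y = y' → y' ∈ D') :
    Good 𝒢 α β' D' (l.comp f) := by
  refine ⟨fun g hg x => ?_, fun x y' hy => ?_⟩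
  · rw [BM.comp_f, BM.comp_f, hf.eqv g hg, ob_map, map_ob]
    exact congrArg _ (funext fun y => hl.eqv g hg y)
  · obtain ⟨y, h1, h2⟩ := ob_eq_coe.1 hy
    exact hD y (hf.mem x y h1) y' h2

theorem Good.map [T2Space Y] [T2Space Y'] (hf : Good 𝒢 α β D f) {h : Y → Y'}
    (hh : PMap 𝒢 β β' h) (hD : ∀ y ∈ D, h y ∈ D') : Good 𝒢 α β' D' (f.map h hh.proper) := by
  refine ⟨fun g hg x => ?_, fun x y' hy => ?_⟩
  · rw [BM.map_f, BM.map_f, hf.eqv g hg, omap_map, omap_map]
    exact omap_congr _ fun y _ => hh.eqv g hg y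
  · obtain ⟨y, h1, rfl⟩ := omap_eq_coe.1 hy
    exact hD y (hf.mem x y h1)

theorem Good.ofProper [T2Space Y] {h : X → Y} (hh : PMap 𝒢 α β h) :
    Good 𝒢 α β univ (BM.ofProper h hh.proper) := by
  refine ⟨fun g hg x => ?_, fun _ _ _ => trivial⟩
  rw [BM.ofProper_f, BM.ofProper_f, hh.eqv g hg]
  rfl

theorem Good.coll [T2Space X] [T2Space U] {j : U → X} (hj : OEmb 𝒢 αU α j) :
    Good 𝒢 α αU univ (BM.coll j hj.emb) := by
  refine ⟨fun g hg x => ?_, fun _ _ _ => trivial⟩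
  by_cases hx : x ∈ range j
  · obtain ⟨u, rfl⟩ := hx
    rw [← hj.eqv g hg, BM.coll_j, BM.coll_j]
    rfl
  · rw [BM.coll_not _ _ hx, BM.coll_not _ _ fun h => hx (hj.back g hg x h)]
    rfl

theorem Good.ext0 [T2Space X] [T2Space U] [T2Space Y] {l : BM U Y} (hl : Good 𝒢 αU β D l)
    {j : U → X} (hj : OEmb 𝒢 αU α j) : Good 𝒢 α β D (l.ext0 j hj.emb) := by
  exact (Good.coll hj).comp (hl.monoD (subset_univ _)) fun u _ y hy => hl.mem u y hy

theorem Good.prodId [T2Space Y] [T2Space Z] (hf : Good 𝒢 α β D f) (γ : Act S Z) :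
    Good 𝒢 (α.prod γ) (β.prod γ) (D ×ˢ univ) (f.prodId Z) := by
  refine ⟨fun g hg p => ?_, fun p q hq => ?_⟩
  · rw [BM.prodId_f, BM.prodId_f, prod_apply, hf.eqv g hg, omap_map, omap_map]
    rfl
  · obtain ⟨y, h1, rfl⟩ := omap_eq_coe.1 hq
    exact ⟨hf.mem _ y h1, trivial⟩

theorem Good.idProd [T2Space Y] [T2Space Z] (hf : Good 𝒢 α β D f) (γ : Act S Z) :
    Good 𝒢 (γ.prod α) (γ.prod β) (univ ×ˢ D) (f.idProd Z) := by
  refine ⟨fun g hg p => ?_, fun p q hq => ?_⟩
  · rw [BM.idProd_f, BM.idProd_f, prod_apply, hf.eqv g hg, omap_map, omap_map]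
    rfl
  · obtain ⟨y, h1, rfl⟩ := omap_eq_coe.1 hq
    exact ⟨trivial, hf.mem _ y h1⟩

theorem Good.lift [T2Space Y] [T2Space Z] (hf : Good 𝒢 α β D f) {i : Z → Y}
    (hi : IsClosedEmbedding i) (he : ∀ g ∈ 𝒢, ∀ z, i (γ g z) = β g (i z))
    (hr : ∀ x (y : Y), f.f x = y → y ∈ range i) : Good 𝒢 α γ (i ⁻¹' D) (f.lift i hi hr) := by
  refine ⟨fun g hg x => omap_injective hi.injective ?_,
    fun x z hz => hf.mem x _ ((f.lift_eq_coe i hi hr x z).1 hz)⟩
  rw [BM.lift_map, hf.eqv g hg, ← f.lift_map i hi hr x, omap_map, omap_map]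
  exact omap_congr _ fun z _ => (he g hg z).symm

theorem PMap.id : PMap 𝒢 α α id := ⟨isProperMap_id, fun _ _ _ => rfl⟩

theorem PMap.comp {X'' : Type} [TopologicalSpace X''] {α'' : Act S X''} {h : X' → X}
    {h' : X'' → X'} (hh : PMap 𝒢 α' α h) (hh' : PMap 𝒢 α'' α' h') : PMap 𝒢 α'' α (h ∘ h') := by
  refine ⟨hh.proper.comp hh'.proper, fun g hg x => ?_⟩
  rw [Function.comp_apply, hh'.eqv g hg, hh.eqv g hg, Function.comp_apply]

theorem PMap.mono {h : X' → X} (hh : PMap 𝒢 α' α h) (h' : ℋ ⊆ 𝒢) : PMap ℋ α' α h :=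
  ⟨hh.proper, fun g hg => hh.eqv g (h' hg)⟩

theorem PMap.prodR {h : X' → X} (hh : PMap 𝒢 α' α h) (γ : Act S Z) :
    PMap 𝒢 (α'.prod γ) (α.prod γ) (Prod.map h _root_.id) := by
  exact ⟨hh.proper.prodMap isProperMap_id, fun g hg x => Prod.ext (hh.eqv g hg x.1) rfl⟩

theorem PMap.prodL {h : X' → X} (hh : PMap 𝒢 α' α h) (γ : Act S Z) :
    PMap 𝒢 (γ.prod α') (γ.prod α) (Prod.map _root_.id h) := by
  exact ⟨isProperMap_id.prodMap hh.proper, fun g hg x => Prod.ext rfl (hh.eqv g hg x.2)⟩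

theorem PMap.homeo (e : X' ≃ₜ X) (he : ∀ g ∈ 𝒢, ∀ x, e (α' g x) = α g (e x)) : PMap 𝒢 α' α e :=
  ⟨e.isProperMap, he⟩

theorem PMap.homeo_symm (e : X' ≃ₜ X) (he : ∀ g ∈ 𝒢, ∀ x, e (α' g x) = α g (e x)) :
    PMap 𝒢 α α' e.symm := by
  refine ⟨e.symm.isProperMap, fun g hg x => e.injective ?_⟩
  rw [he g hg, e.apply_symm_apply, e.apply_symm_apply]

theorem OEmb.mono {j : U → X} (hj : OEmb 𝒢 αU α j) (h' : ℋ ⊆ 𝒢) : OEmb ℋ αU α j :=
  ⟨hj.emb, fun g hg => hj.eqv g (h' hg), fun g hg => hj.back g (h' hg)⟩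

theorem OEmb.comp {j : U → X} (hj : OEmb 𝒢 αU α j) {j' : X' → U} (hj' : OEmb 𝒢 α' αU j') :
    OEmb 𝒢 α' α (j ∘ j') := by
  refine ⟨hj.emb.comp hj'.emb, fun g hg u => ?_, ?_⟩
  · rw [Function.comp_apply, hj'.eqv g hg, hj.eqv g hg, Function.comp_apply]
  · rintro g hg x ⟨v, hv⟩
    obtain ⟨u, rfl⟩ := hj.back g hg x ⟨j' v, hv⟩
    rw [← hj.eqv g hg] at hv
    obtain ⟨w, rfl⟩ := hj'.back g hg u ⟨v, hj.emb.injective hv⟩
    exact ⟨w, rfl⟩

theorem OEmb.prodR {j : U → X} (hj : OEmb 𝒢 αU α j) (γ : Act S Z) :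
    OEmb 𝒢 (αU.prod γ) (α.prod γ) (Prod.map j id) := by
  refine ⟨hj.emb.prodMap IsOpenEmbedding.id, fun g hg u => Prod.ext (hj.eqv g hg u.1) rfl, ?_⟩
  rintro g hg x ⟨v, hv⟩
  obtain ⟨u, hu⟩ := hj.back g hg x.1 ⟨v.1, congrArg Prod.fst hv⟩
  exact ⟨(u, x.2), Prod.ext hu rfl⟩

theorem OEmb.prodL {j : U → X} (hj : OEmb 𝒢 αU α j) (γ : Act S Z) :
    OEmb 𝒢 (γ.prod αU) (γ.prod α) (Prod.map id j) := by
  refine ⟨IsOpenEmbedding.id.prodMap hj.emb, fun g hg u => Prod.ext rfl (hj.eqv g hg u.2), ?_⟩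
  rintro g hg x ⟨v, hv⟩
  obtain ⟨u, hu⟩ := hj.back g hg x.2 ⟨v.2, congrArg Prod.snd hv⟩
  exact ⟨(x.1, u), Prod.ext rfl hu⟩

/-- A change of the time parameter. -/
theorem Ht_time {r : I → I} (hr : Continuous r) :
    PMap 𝒢 (α.prod triv) (α.prod triv) (Prod.map id r) :=
  PMap.prodL (α' := triv) (α := triv) ⟨hr.isProperMap, fun _ _ _ => rfl⟩ α

theorem Ht_ray : ∃ φ : Ici (0 : ℝ) → I, IsOpenEmbedding φ ∧ φ ⟨0, self_mem_Ici⟩ = 0 ∧
    (1 : I) ∉ range φ := by
  have h0 : ∀ r : Ici (0 : ℝ), (0 : ℝ) ≤ r := fun r => r.2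
  have h1 : ∀ r : Ici (0 : ℝ), (0 : ℝ) < 1 + r := fun r => by linarith [h0 r]
  let φ : Ici (0 : ℝ) → I := fun r => ⟨r / (1 + r), div_nonneg (h0 r) (h1 r).le,
    (div_le_one (h1 r)).2 (by linarith)⟩
  have hr : range φ = Iio 1 := by
    ext t
    constructor
    · rintro ⟨r, rfl⟩
      change (r : ℝ) / (1 + r) < 1
      exact (div_lt_one (h1 r)).2 (by linarith)
    · intro ht
      have ht' : (0 : ℝ) < 1 - t := sub_pos.2 ht
      refine ⟨⟨t / (1 - t), div_nonneg t.2.1 ht'.le⟩, Subtype.ext ?_⟩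
      change (t : ℝ) / (1 - t) / (1 + t / (1 - t)) = t
      field_simp
      ring
  have hm : StrictMono φ := fun r s hrs => by
    have : (r : ℝ) < s := hrs
    change (r : ℝ) / (1 + r) < s / (1 + s)
    rw [div_lt_div_iff₀ (h1 r) (h1 s)]
    linarith
  refine ⟨φ, ⟨hm.isEmbedding_of_ordConnected (hr ▸ ordConnected_Iio), hr ▸ isOpen_Iio⟩,
    Subtype.ext (by simp [φ]), ?_⟩
  rw [hr]
  exact lt_irrefl (1 : I)

theorem Ht.left (h : Ht 𝒢 α β D f g) : Good 𝒢 α β D f := by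
  obtain ⟨H, hH, h0, -⟩ := h
  refine ⟨fun g hg x => ?_, fun x y hy => hH.mem (x, 0) y ((h0 x).trans hy)⟩
  rw [← h0, ← h0]
  exact hH.eqv g hg (x, 0)

theorem Ht.right (h : Ht 𝒢 α β D f g) : Good 𝒢 α β D g := by
  obtain ⟨H, hH, -, h1⟩ := h
  refine ⟨fun g hg x => ?_, fun x y hy => hH.mem (x, 1) y ((h1 x).trans hy)⟩
  rw [← h1, ← h1]
  exact hH.eqv g hg (x, 1)

theorem Ht.refl (hf : Good 𝒢 α β D f) : Ht 𝒢 α β D f f := by
  exact ⟨f.pre Prod.fst proper_fst, hf.pre ⟨proper_fst, fun _ _ _ => rfl⟩, fun _ => rfl,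
    fun _ => rfl⟩

theorem Ht.of_eq (hf : Good 𝒢 α β D f) (h : ∀ x, f.f x = g.f x) : Ht 𝒢 α β D f g := by
  rw [← BM.ext h]; exact Ht.refl hf

theorem Ht.symm (h : Ht 𝒢 α β D f g) : Ht 𝒢 α β D g f := by
  obtain ⟨H, hH, h0, h1⟩ := h
  refine ⟨_, hH.pre (Ht_time unitInterval.continuous_symm), fun x => ?_, fun x => ?_⟩
  · simpa using h1 x
  · simpa using h0 x

theorem Ht.trans [T2Space Y] (h : Ht 𝒢 α β D f g) (h' : Ht 𝒢 α β D g k) : Ht 𝒢 α β D f k := by
  obtain ⟨H, hH, h0, h1⟩ := h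
  obtain ⟨H', hH', h0', h1'⟩ := h'
  have c₁ : Continuous fun t : I => projIcc (0 : ℝ) 1 zero_le_one (2 * t) :=
    continuous_projIcc.comp (by fun_prop)
  have c₂ : Continuous fun t : I => projIcc (0 : ℝ) 1 zero_le_one (2 * t - 1) :=
    continuous_projIcc.comp (by fun_prop)
  have g₁ := hH.pre (Ht_time c₁)
  have g₂ := hH'.pre (Ht_time c₂)
  set A := H.pre _ (Ht_time (𝒢 := 𝒢) (α := α) c₁).proper with hA
  set B := H'.pre _ (Ht_time (𝒢 := 𝒢) (α := α) c₂).proper with hB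
  have hc : Continuous fun p : X × I => if (p.2 : ℝ) ≤ 1 / 2 then A.f p else B.f p := by
    refine Continuous.if_le A.cont B.cont (by fun_prop) continuous_const ?_
    rintro ⟨x, t⟩ ht
    have ht' : (t : ℝ) = 1 / 2 := ht
    have e₁ : projIcc (0 : ℝ) 1 zero_le_one (2 * t) = 1 := projIcc_of_right_le _ (by linarith)
    have e₂ : projIcc (0 : ℝ) 1 zero_le_one (2 * t - 1) = 0 := projIcc_of_le_left _ (by linarith)
    change H.f (x, projIcc (0 : ℝ) 1 zero_le_one (2 * t)) =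
      H'.f (x, projIcc (0 : ℝ) 1 zero_le_one (2 * t - 1))
    rw [e₁, e₂, h1, h0']
  refine ⟨⟨_, hc, A.tend.if' B.tend⟩, ⟨fun g hg p => ?_, fun p y hy => ?_⟩, fun x => ?_,
    fun x => ?_⟩
  · change (if (p.2 : ℝ) ≤ 1 / 2 then A.f _ else B.f _) =
      (if (p.2 : ℝ) ≤ 1 / 2 then A.f p else B.f p).map _
    split_ifs
    exacts [g₁.eqv g hg p, g₂.eqv g hg p]
  · change (if (p.2 : ℝ) ≤ 1 / 2 then A.f p else B.f p) = _ at hy
    split_ifs at hy
    exacts [g₁.mem p y hy, g₂.mem p y hy]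
  · have e₁ : projIcc (0 : ℝ) 1 zero_le_one (2 * (0 : I)) = 0 := projIcc_of_le_left _ (by simp)
    change (if ((0 : I) : ℝ) ≤ 1 / 2 then H.f (x, projIcc (0 : ℝ) 1 zero_le_one (2 * (0 : I)))
      else _) = _
    rw [if_pos (by simp), e₁, h0]
  · have e₂ : projIcc (0 : ℝ) 1 zero_le_one (2 * (1 : I) - 1) = 1 :=
      projIcc_of_right_le _ (by norm_num)
    change (if ((1 : I) : ℝ) ≤ 1 / 2 then _
      else H'.f (x, projIcc (0 : ℝ) 1 zero_le_one (2 * (1 : I) - 1))) = _
    rw [if_neg (by norm_num), e₂, h1']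

theorem Ht.mono (h : Ht 𝒢 α β D f g) (h' : ℋ ⊆ 𝒢) : Ht ℋ α β D f g := by
  obtain ⟨H, hH, h0, h1⟩ := h
  exact ⟨H, hH.mono h', h0, h1⟩

theorem Ht.monoD (h : Ht 𝒢 α β D f g) {D₁ : Set Y} (h' : D ⊆ D₁) : Ht 𝒢 α β D₁ f g := by
  obtain ⟨H, hH, h0, h1⟩ := h
  exact ⟨H, hH.monoD h', h0, h1⟩

theorem Ht.congr (h : Ht 𝒢 α β D f g) {α₁ : Act S X} {β₁ : Act S Y}
    (h₁ : ∀ g ∈ 𝒢, ∀ x, α₁ g x = α g x) (h₂ : ∀ g ∈ 𝒢, ∀ y, β₁ g y = β g y) :
    Ht 𝒢 α₁ β₁ D f g := by
  obtain ⟨H, hH, h0, h1⟩ := h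
  exact ⟨H, hH.congr (fun g hg p => Prod.ext (h₁ g hg p.1) rfl) h₂, h0, h1⟩

theorem Ht.of_empty {S' : Type} {α₁ : Act S' X} {β₁ : Act S' Y} (h : Ht 𝒢 α β D f g) :
    Ht (∅ : Set S') α₁ β₁ D f g := by
  obtain ⟨H, hH, h0, h1⟩ := h
  exact ⟨H, hH.of_empty, h0, h1⟩

theorem Ht.pre (h : Ht 𝒢 α β D f g) {p : X' → X} (hp : PMap 𝒢 α' α p) :
    Ht 𝒢 α' β D (f.pre p hp.proper) (g.pre p hp.proper) := by
  obtain ⟨H, hH, h0, h1⟩ := h
  exact ⟨_, hH.pre (hp.prodR triv), fun x => h0 (p x), fun x => h1 (p x)⟩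

theorem Ht.comp [T2Space Y] [T2Space Y'] (h : Ht 𝒢 α β D f g) {l : BM Y Y'}
    (hl : Good 𝒢 β β' univ l) (hD : ∀ y ∈ D, ∀ y' : Y', l.f y = y' → y' ∈ D') :
    Ht 𝒢 α β' D' (l.comp f) (l.comp g) := by
  obtain ⟨H, hH, h0, h1⟩ := h
  exact ⟨_, hH.comp hl hD, fun x => by rw [BM.comp_f, BM.comp_f, h0],
    fun x => by rw [BM.comp_f, BM.comp_f, h1]⟩

theorem Ht.map [T2Space Y] [T2Space Y'] (h : Ht 𝒢 α β D f g) {p : Y → Y'}
    (hp : PMap 𝒢 β β' p) (hD : ∀ y ∈ D, p y ∈ D') :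
    Ht 𝒢 α β' D' (f.map p hp.proper) (g.map p hp.proper) := by
  obtain ⟨H, hH, h0, h1⟩ := h
  exact ⟨_, hH.map hp hD, fun x => by rw [BM.map_f, BM.map_f, h0],
    fun x => by rw [BM.map_f, BM.map_f, h1]⟩

theorem Ht.ext0 [T2Space X] [T2Space U] [T2Space Y] {l l' : BM U Y} (h : Ht 𝒢 αU β D l l')
    {j : U → X} (hj : OEmb 𝒢 αU α j) : Ht 𝒢 α β D (l.ext0 j hj.emb) (l'.ext0 j hj.emb) := by
  obtain ⟨H, hH, h0, h1⟩ := h
  have key : ∀ (t : I) (m : BM U Y), (∀ u, H.f (u, t) = m.f u) → ∀ x,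
      (H.ext0 _ (hj.prodR (triv : Act S I)).emb).f (x, t) = (m.ext0 j hj.emb).f x := by
    intro t m hm x
    by_cases hx : x ∈ range j
    · obtain ⟨u, rfl⟩ := hx
      rw [BM.ext0_j, ← hm]
      exact BM.ext0_j H _ (hj.prodR (triv : Act S I)).emb (u, t)
    · rw [BM.ext0_not _ _ _ hx, BM.ext0_not]
      rintro ⟨q, hq⟩
      exact hx ⟨q.1, congrArg Prod.fst hq⟩
  exact ⟨_, hH.ext0 (hj.prodR triv), key 0 l h0, key 1 l' h1⟩

theorem Ht.prodId [T2Space Y] [T2Space Z] (h : Ht 𝒢 α β D f g) (γ : Act S Z) :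
    Ht 𝒢 (α.prod γ) (β.prod γ) (D ×ˢ univ) (f.prodId Z) (g.prodId Z) := by
  obtain ⟨H, hH, h0, h1⟩ := h
  let e : (X × Z) × I ≃ₜ (X × I) × Z :=
    { toFun := fun p => ((p.1.1, p.2), p.1.2)
      invFun := fun p => ((p.1.1, p.2), p.1.2)
      left_inv := fun _ => rfl
      right_inv := fun _ => rfl
      continuous_toFun := by fun_prop
      continuous_invFun := by fun_prop }
  have he : PMap 𝒢 ((α.prod γ).prod triv) ((α.prod triv).prod γ) e :=
    PMap.homeo e fun _ _ _ => rfl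
  refine ⟨_, (hH.prodId γ).pre he, fun p => ?_, fun p => ?_⟩
  · rw [BM.prodId_f, ← h0]
    rfl
  · rw [BM.prodId_f, ← h1]
    rfl

/-- A proper equivariant homotopy in the source. -/
theorem Ht.of_pre (hf : Good 𝒢 α β D f) {P : X' × I → X} (hP : PMap 𝒢 (α'.prod triv) α P)
    {f₀ f₁ : BM X' Y} (h₀ : ∀ x, f₀.f x = f.f (P (x, 0))) (h₁ : ∀ x, f₁.f x = f.f (P (x, 1))) :
    Ht 𝒢 α' β D f₀ f₁ := by
  exact ⟨_, hf.pre hP, fun x => (h₀ x).symm, fun x => (h₁ x).symm⟩

/-- A map that extends over a ray is null-homotopic (collapse `[0, ∞) ≅ [0, 1) ⊆ I`). -/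
theorem null_of_ray [T2Space X] [T2Space Y] {H : BM (X × Ici (0 : ℝ)) Y}
    (hH : Good 𝒢 (α.prod triv) β D H) (h0 : ∀ x, H.f (x, ⟨0, self_mem_Ici⟩) = f.f x) :
    Ht 𝒢 α β D f BM.zero := by
  obtain ⟨φ, hφ, e0, e1⟩ := Ht_ray
  have hj : OEmb 𝒢 (α.prod triv) (α.prod triv) (Prod.map id φ : X × Ici (0 : ℝ) → X × I) :=
    OEmb.prodL (αU := triv) (α := triv) ⟨hφ, fun _ _ _ => rfl, fun _ _ _ h => h⟩ α
  refine ⟨_, hH.ext0 hj, fun x => ?_, fun x => ?_⟩
  · rw [← h0, ← e0]
    exact BM.ext0_j H _ hj.emb (x, ⟨0, self_mem_Ici⟩)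
  · refine BM.ext0_not _ _ _ ?_
    rintro ⟨q, hq⟩
    exact e1 ⟨q.2, congrArg Prod.snd hq⟩

section GA

variable [Group S] [TopologicalSpace S]

theorem GA.triv : GA 𝒢 (triv : Act S X) := ⟨fun _ => rfl, fun _ _ _ _ _ => rfl, continuousOn_snd⟩

theorem GA.prod (h : GA 𝒢 α) (h' : GA 𝒢 β) : GA 𝒢 (α.prod β) := by
  refine ⟨fun p => Prod.ext (h.one _) (h'.one _),
    fun g hg g' hg' p => Prod.ext (h.mul g hg g' hg' _) (h'.mul g hg g' hg' _), ?_⟩
  exact (h.cont.comp (f := fun p : S × (X × Y) => (p.1, p.2.1)) (by fun_prop)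
    fun p hp => ⟨hp.1, trivial⟩).prodMk
    (h'.cont.comp (f := fun p : S × (X × Y) => (p.1, p.2.2)) (by fun_prop)
      fun p hp => ⟨hp.1, trivial⟩)

theorem GA.mono (h : GA 𝒢 α) (h' : ℋ ⊆ 𝒢) : GA ℋ α := by
  exact ⟨h.one, fun g hg g' hg' => h.mul g (h' hg) g' (h' hg'),
    h.cont.mono (prod_mono h' Subset.rfl)⟩

theorem GA.sub {𝒦 : Subgroup S} (h : GA (𝒦 : Set S) α) {p : X → Prop}
    (hp : ∀ g ∈ 𝒦, ∀ x, p x → p (α g x)) : GA (𝒦 : Set S) (α.sub p) := by
  have hv : ∀ g ∈ 𝒦, ∀ x : {x // p x}, (α.sub p g x).1 = α g x.1 := fun g hg x =>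
    sub_val α p (hp g hg x.1 x.2)
  refine ⟨fun x => Subtype.ext ?_, fun g hg g' hg' x => Subtype.ext ?_, ?_⟩
  · rw [hv 1 𝒦.one_mem, h.one]
  · rw [hv _ (𝒦.mul_mem hg hg'), hv g hg, hv g' hg', h.mul g hg g' hg']
  · rw [IsInducing.subtypeVal.continuousOn_iff]
    refine (h.cont.comp (f := fun q : S × {x // p x} => (q.1, q.2.1)) (by fun_prop)
      fun q hq => ⟨hq.1, trivial⟩).congr fun q hq => hv q.1 hq.1 q.2

theorem GA.continuous (h : GA 𝒢 α) {g : S} (hg : g ∈ 𝒢) : Continuous (α g) := by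
  exact h.cont.comp_continuous (f := fun x : X => (g, x)) (by fun_prop) fun _ => ⟨hg, trivial⟩

theorem GA.proper {𝒦 : Subgroup S} (h : GA (𝒦 : Set S) α) {g : S} (hg : g ∈ 𝒦) :
    IsProperMap (α g) := by
  let e : X ≃ₜ X :=
    { toFun := α g
      invFun := α g⁻¹
      left_inv := fun x => by rw [← h.mul _ (𝒦.inv_mem hg) _ hg, inv_mul_cancel, h.one]
      right_inv := fun x => by rw [← h.mul _ hg _ (𝒦.inv_mem hg), mul_inv_cancel, h.one]
      continuous_toFun := h.continuous hg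
      continuous_invFun := h.continuous (𝒦.inv_mem hg) }
  exact e.isProperMap

end GA

/-! ### Homotopy classes -/

/-- Homotopy classes of good maps. -/
def HC (𝒢 : Set S) (α : Act S X) (β : Act S Y) (D : Set Y) : Type :=
  Quot fun f g : {f : BM X Y // Good 𝒢 α β D f} => Ht 𝒢 α β D f.1 g.1

/-- The class of a good map. -/
def HC.mk (f : BM X Y) (hf : Good 𝒢 α β D f) : HC 𝒢 α β D := Quot.mk _ ⟨f, hf⟩

instance : Zero (HC 𝒢 α β D) := ⟨HC.mk BM.zero Good.zero⟩

theorem HC.zero_def : (0 : HC 𝒢 α β D) = HC.mk BM.zero Good.zero := rfl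

theorem HC.mk_surj (x : HC 𝒢 α β D) : ∃ f hf, x = HC.mk f hf := by
  obtain ⟨⟨f, hf⟩, rfl⟩ := Quot.exists_rep x
  exact ⟨f, hf, rfl⟩

theorem HC.mk_eq_mk [T2Space Y] {hf : Good 𝒢 α β D f} {hg : Good 𝒢 α β D g} :
    HC.mk f hf = HC.mk g hg ↔ Ht 𝒢 α β D f g := by
  refine ⟨fun h => ?_, fun h => Quot.sound h⟩
  have e : Equivalence fun f g : {f : BM X Y // Good 𝒢 α β D f} => Ht 𝒢 α β D f.1 g.1 :=
    ⟨fun f => Ht.refl f.2, Ht.symm, Ht.trans⟩
  exact e.eqvGen_iff.1 (Quot.eqvGen_exact h)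

end RB
end

-- merged part: Pool.Agent.Work.MP_666b5d_gt.Tr
section
/-!
# Transition data

`μ : Tr A T A' T'` turns a based map `f : A⁺ → T⁺` into the based map
`x ↦ μ.Ψ (f (μ.a x), x)` from `A'⁺` to `T'⁺`.
-/

open Set Filter Topology OnePoint
open scoped unitInterval

namespace RB

open Act

/-- Transition data. -/
structure Tr (A T A' T' : Type) [TopologicalSpace A] [TopologicalSpace T] [TopologicalSpace A']
    [TopologicalSpace T'] where
  a : A' → A
  Ψ : T × A' → T'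
  ca : Continuous a
  cΨ : Continuous Ψ
  p1 : ∀ K' : Set T', IsCompact K' → ∃ K : Set T, IsCompact K ∧ ∀ t x, Ψ (t, x) ∈ K' → t ∈ K
  p2 : ∀ (K' : Set T') (C : Set A), IsCompact K' → IsCompact C →
    ∃ C' : Set A', IsCompact C' ∧ ∀ t x, Ψ (t, x) ∈ K' → a x ∈ C → x ∈ C'

namespace Tr

variable {S A T A' T' A'' T'' : Type} [TopologicalSpace A] [TopologicalSpace T]
  [TopologicalSpace A'] [TopologicalSpace T'] [TopologicalSpace A''] [TopologicalSpace T'']

@[ext] theorem ext {μ ν : Tr A T A' T'} (h₁ : ∀ x, μ.a x = ν.a x)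
    (h₂ : ∀ t x, μ.Ψ (t, x) = ν.Ψ (t, x)) : μ = ν := by
  cases μ; cases ν; congr
  · exact funext h₁
  · exact funext fun p => h₂ p.1 p.2

/-- The transformed map. -/
def ap [T2Space T] [T2Space T'] (μ : Tr A T A' T') (f : BM A T) : BM A' T' :=
  ⟨fun x => (f.f (μ.a x)).map fun t => μ.Ψ (t, x), by
    simp only [← ob_some]
    refine cont_ob (k := fun p => (μ.Ψ p : OnePoint T')) (S := univ) (f.cont.comp μ.ca)
      (fun _ _ _ => trivial) (continuous_coe.comp μ.cΨ).continuousOn fun x₀ K' hK' => ?_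
    obtain ⟨K, hK, h⟩ := μ.p1 K' hK'
    refine ⟨K, hK, Eventually.of_forall fun x y z _ e hz => h y x ?_⟩
    rwa [coe_eq_coe.1 e], by
    refine (tend_iff _).2 fun K' hK' => ?_
    obtain ⟨K, hK, h⟩ := μ.p1 K' hK'
    obtain ⟨C, hC, h'⟩ := f.exists_compact hK
    obtain ⟨C', hC', h''⟩ := μ.p2 K' C hK' hC
    refine ⟨C', hC', fun x z e hz => ?_⟩
    obtain ⟨t, e₁, rfl⟩ := omap_eq_coe.1 e
    exact h'' t x hz (h' _ t e₁ (h t x hz))⟩

@[simp] theorem ap_f [T2Space T] [T2Space T'] (μ : Tr A T A' T') (f : BM A T) (x : A') :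
    (μ.ap f).f x = (f.f (μ.a x)).map fun t => μ.Ψ (t, x) := rfl

theorem ap_zero [T2Space T] [T2Space T'] (μ : Tr A T A' T') : μ.ap BM.zero = BM.zero :=
  BM.ext fun _ => rfl

/-- First `μ`, then `ν`. -/
def comp (μ : Tr A T A' T') (ν : Tr A' T' A'' T'') : Tr A T A'' T'' where
  a x := μ.a (ν.a x)
  Ψ p := ν.Ψ (μ.Ψ (p.1, ν.a p.2), p.2)
  ca := μ.ca.comp ν.ca
  cΨ := ν.cΨ.comp ((μ.cΨ.comp (continuous_fst.prodMk (ν.ca.comp continuous_snd))).prodMk
    continuous_snd)
  p1 := fun K'' hK'' => by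
    obtain ⟨K', hK', h'⟩ := ν.p1 K'' hK''
    obtain ⟨K, hK, h⟩ := μ.p1 K' hK'
    exact ⟨K, hK, fun t x hx => h t _ (h' _ x hx)⟩
  p2 := fun K'' C hK'' hC => by
    obtain ⟨K', hK', h⟩ := ν.p1 K'' hK''
    obtain ⟨C', hC', h'⟩ := μ.p2 K' C hK' hC
    obtain ⟨C'', hC'', h''⟩ := ν.p2 K'' C' hK'' hC'
    exact ⟨C'', hC'', fun t x hx hx' => h'' _ x hx (h' t _ (h _ x hx) hx')⟩

theorem ap_comp [T2Space T] [T2Space T'] [T2Space T''] (μ : Tr A T A' T') (ν : Tr A' T' A'' T'')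
    (f : BM A T) : (μ.comp ν).ap f = ν.ap (μ.ap f) :=
  BM.ext fun x => by simp only [ap_f, omap_map]; rfl

/-- Precomposition with a proper map. -/
def pre (μ : Tr A T A' T') (h : A'' → A') (hh : IsProperMap h) : Tr A T A'' T' where
  a x := μ.a (h x)
  Ψ p := μ.Ψ (p.1, h p.2)
  ca := μ.ca.comp hh.continuous
  cΨ := μ.cΨ.comp (continuous_fst.prodMk (hh.continuous.comp continuous_snd))
  p1 := fun K' hK' => by
    obtain ⟨K, hK, h'⟩ := μ.p1 K' hK'
    exact ⟨K, hK, fun t x hx => h' t _ hx⟩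
  p2 := fun K' C hK' hC => by
    obtain ⟨C', hC', h'⟩ := μ.p2 K' C hK' hC
    exact ⟨_, hh.isCompact_preimage hC', fun t x hx hx' => h' t _ hx hx'⟩

/-- A time slice of a path of transition data. -/
def slice (H : Tr A T (A' × I) T') (t : I) : Tr A T A' T' := H.pre (fun x => (x, t)) (proper_at t)

/-- The constant path. -/
def const (μ : Tr A T A' T') : Tr A T (A' × I) T' := μ.pre Prod.fst proper_fst

/-- Product with a source factor `X` and a target factor `Y`. -/
def prod (μ : Tr A T A' T') (X Y : Type) [TopologicalSpace X] [TopologicalSpace Y] :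
    Tr (X × A) (T × Y) (X × A') (T' × Y) where
  a p := (p.1, μ.a p.2)
  Ψ q := (μ.Ψ (q.1.1, q.2.2), q.1.2)
  ca := continuous_fst.prodMk (μ.ca.comp continuous_snd)
  cΨ := (μ.cΨ.comp (continuous_fst.fst.prodMk continuous_snd.snd)).prodMk continuous_fst.snd
  p1 := fun K' hK' => by
    obtain ⟨K, hK, h⟩ := μ.p1 _ (hK'.image continuous_fst)
    exact ⟨_, hK.prod (hK'.image continuous_snd), fun t x hx =>
      ⟨h _ _ ⟨_, hx, rfl⟩, ⟨_, hx, rfl⟩⟩⟩
  p2 := fun K' C hK' hC => by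
    obtain ⟨C', hC', h⟩ := μ.p2 _ _ (hK'.image continuous_fst) (hC.image continuous_snd)
    exact ⟨_, (hC.image continuous_fst).prod hC', fun t x hx hx' =>
      ⟨⟨_, hx', rfl⟩, h _ _ ⟨_, hx, rfl⟩ ⟨_, hx', rfl⟩⟩⟩

theorem comp_prod (μ : Tr A T A' T') (ν : Tr A' T' A'' T'') (X Y : Type) [TopologicalSpace X]
    [TopologicalSpace Y] : (μ.comp ν).prod X Y = (μ.prod X Y).comp (ν.prod X Y) := rfl

/-- Equivariance of transition data. -/
structure Eqv (μ : Tr A T A' T') (𝒢 : Set S) (α : Act S A) (τ : Act S T) (α' : Act S A')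
    (τ' : Act S T') : Prop where
  ea : ∀ g ∈ 𝒢, ∀ x, μ.a (α' g x) = α g (μ.a x)
  eΨ : ∀ g ∈ 𝒢, ∀ t x, μ.Ψ (τ g t, α' g x) = τ' g (μ.Ψ (t, x))

variable {𝒢 ℋ : Set S} {α : Act S A} {τ : Act S T} {α' : Act S A'} {τ' : Act S T'}
  {α'' : Act S A''} {τ'' : Act S T''} {D : Set T} {D' : Set T'}

theorem Eqv.mono {μ : Tr A T A' T'} (h : μ.Eqv 𝒢 α τ α' τ') (h' : ℋ ⊆ 𝒢) :
    μ.Eqv ℋ α τ α' τ' := ⟨fun g hg => h.ea g (h' hg), fun g hg => h.eΨ g (h' hg)⟩

theorem Eqv.comp {μ : Tr A T A' T'} {ν : Tr A' T' A'' T''} (h : μ.Eqv 𝒢 α τ α' τ')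
    (h' : ν.Eqv 𝒢 α' τ' α'' τ'') : (μ.comp ν).Eqv 𝒢 α τ α'' τ'' := by
  refine ⟨fun g hg x => ?_, fun g hg t x => ?_⟩
  · change μ.a (ν.a _) = α g (μ.a (ν.a x))
    rw [h'.ea g hg, h.ea g hg]
  · change ν.Ψ (μ.Ψ (_, ν.a _), _) = τ'' g (ν.Ψ (μ.Ψ (t, ν.a x), x))
    dsimp only
    rw [h'.ea g hg, h.eΨ g hg, h'.eΨ g hg]

theorem Eqv.pre {μ : Tr A T A' T'} (h : μ.Eqv 𝒢 α τ α' τ') {p : A'' → A'}
    (hp : PMap 𝒢 α'' α' p) : (μ.pre p hp.proper).Eqv 𝒢 α τ α'' τ' := by
  refine ⟨fun g hg x => ?_, fun g hg t x => ?_⟩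
  · change μ.a (p _) = α g (μ.a (p x))
    rw [hp.eqv g hg, h.ea g hg]
  · change μ.Ψ (_, p _) = τ' g (μ.Ψ (t, p x))
    dsimp only
    rw [hp.eqv g hg, h.eΨ g hg]

theorem Eqv.slice {H : Tr A T (A' × I) T'} (h : H.Eqv 𝒢 α τ (α'.prod triv) τ') (t : I) :
    (H.slice t).Eqv 𝒢 α τ α' τ' := by
  exact h.pre (p := fun x => (x, t)) ⟨proper_at t, fun _ _ _ => rfl⟩

theorem Eqv.const {μ : Tr A T A' T'} (h : μ.Eqv 𝒢 α τ α' τ') :
    μ.const.Eqv 𝒢 α τ (α'.prod triv) τ' := by
  exact h.pre (p := Prod.fst) ⟨proper_fst, fun _ _ _ => rfl⟩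

theorem Eqv.prod {μ : Tr A T A' T'} (h : μ.Eqv 𝒢 α τ α' τ') {X Y : Type} [TopologicalSpace X]
    [TopologicalSpace Y] (ξ : Act S X) (β : Act S Y) :
    (μ.prod X Y).Eqv 𝒢 (ξ.prod α) (τ.prod β) (ξ.prod α') (τ'.prod β) := by
  exact ⟨fun g hg x => Prod.ext rfl (h.ea g hg x.2),
    fun g hg t x => Prod.ext (h.eΨ g hg t.1 x.2) rfl⟩

variable [T2Space T] [T2Space T']

theorem good_ap {μ : Tr A T A' T'} (h : μ.Eqv 𝒢 α τ α' τ')
    (hD : ∀ t ∈ D, ∀ x, μ.Ψ (t, x) ∈ D') {f : BM A T} (hf : Good 𝒢 α τ D f) :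
    Good 𝒢 α' τ' D' (μ.ap f) := by
  refine ⟨fun g hg x => ?_, fun x z hz => ?_⟩
  · rw [ap_f, ap_f, h.ea g hg, hf.eqv g hg, omap_map, omap_map]
    exact omap_congr _ fun t _ => h.eΨ g hg t x
  · obtain ⟨t, e, rfl⟩ := omap_eq_coe.1 hz
    exact hD t (hf.mem _ t e) x

theorem ht_ap {μ : Tr A T A' T'} (h : μ.Eqv 𝒢 α τ α' τ')
    (hD : ∀ t ∈ D, ∀ x, μ.Ψ (t, x) ∈ D') {f g : BM A T} (hf : Ht 𝒢 α τ D f g) :
    Ht 𝒢 α' τ' D' (μ.ap f) (μ.ap g) := by
  obtain ⟨H, hH, h0, h1⟩ := hf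
  let ν : Tr (A × I) T (A' × I) T' :=
    { a := fun p => (μ.a p.1, p.2)
      Ψ := fun q => μ.Ψ (q.1, q.2.1)
      ca := (μ.ca.comp continuous_fst).prodMk continuous_snd
      cΨ := μ.cΨ.comp (continuous_fst.prodMk continuous_snd.fst)
      p1 := fun K' hK' => by
        obtain ⟨K, hK, h'⟩ := μ.p1 K' hK'
        exact ⟨K, hK, fun t x hx => h' t _ hx⟩
      p2 := fun K' C hK' hC => by
        obtain ⟨C', hC', h'⟩ := μ.p2 K' _ hK' (hC.image continuous_fst)
        exact ⟨_, hC'.prod isCompact_univ, fun t x hx hx' =>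
          ⟨h' t _ hx ⟨_, hx', rfl⟩, trivial⟩⟩ }
  have hν : ν.Eqv 𝒢 (α.prod triv) τ (α'.prod triv) τ' :=
    ⟨fun g hg x => Prod.ext (h.ea g hg x.1) rfl, fun g hg t x => h.eΨ g hg t x.1⟩
  refine ⟨_, good_ap hν (fun t ht x => hD t ht x.1) hH, fun x => ?_, fun x => ?_⟩
  · rw [ap_f, ap_f, ← h0]
  · rw [ap_f, ap_f, ← h1]

/-- A path of transition data gives a homotopy. -/
theorem ht_path {H : Tr A T (A' × I) T'} (h : H.Eqv 𝒢 α τ (α'.prod triv) τ')
    (hD : ∀ t ∈ D, ∀ x, H.Ψ (t, x) ∈ D') {f : BM A T} (hf : Good 𝒢 α τ D f) :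
    Ht 𝒢 α' τ' D' ((H.slice 0).ap f) ((H.slice 1).ap f) := by
  exact ⟨_, good_ap h hD hf, fun _ => rfl, fun _ => rfl⟩

/-- A path of transition data gives a homotopy, with extra factors. -/
theorem ht_path_prod {H : Tr A T (A' × I) T'} (h : H.Eqv 𝒢 α τ (α'.prod triv) τ')
    {X Y : Type} [TopologicalSpace X] [TopologicalSpace Y] [T2Space Y] {ξ : Act S X} {β : Act S Y}
    {E : Set (T × Y)} {E' : Set (T' × Y)}
    (hD : ∀ t y, (t, y) ∈ E → ∀ x, (H.Ψ (t, x), y) ∈ E') {f : BM (X × A) (T × Y)}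
    (hf : Good 𝒢 (ξ.prod α) (τ.prod β) E f) :
    Ht 𝒢 (ξ.prod α') (τ'.prod β) E' (((H.slice 0).prod X Y).ap f) (((H.slice 1).prod X Y).ap f) := by
  have hp : PMap 𝒢 ((ξ.prod α').prod triv) (ξ.prod (α'.prod triv)) (Homeomorph.prodAssoc X A' I) :=
    PMap.homeo _ fun _ _ _ => rfl
  exact ⟨_, good_ap ((h.prod ξ β).pre hp) (fun t ht x => hD t.1 t.2 ht _) hf, fun _ => rfl,
    fun _ => rfl⟩

end Tr

end RB
end

-- merged part: Pool.Agent.Work.MP_666b5d_gt.HA1
section
/-!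
# Finite generation of homology: complexes inside one abelian group

`RelFG B Z` says that `Z` is finitely generated modulo `B`.  A complex is a family of subgroups
`S n` of one abelian group with differentials `d (n + 1) : S (n + 1) → S n`.

Proof hints.  Subgroups of finitely generated abelian groups are finitely generated (`ℤ` is
noetherian; pass to `AddSubgroup.toIntSubmodule` or to the quotient by `B`).  `RelFG.of_hom` is the
key lemma; the three `ses_*` statements are diagram chases with it.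
-/

namespace RB

section

variable {G G' : Type*} [AddCommGroup G] [AddCommGroup G']

theorem HA1_le {A B : AddSubgroup G} (h : B.FG) (hle : A ≤ B) : A.FG :=
  (Submodule.fg_iff_addSubgroup_fg A.toIntSubmodule).1
    (((Submodule.fg_iff_addSubgroup_fg B.toIntSubmodule).2 h).of_le hle)

theorem HA1_map {A : AddSubgroup G} (h : A.FG) (f : G →+ G') : (A.map f).FG := by
  obtain ⟨S, rfl, hS⟩ := (AddSubgroup.fg_iff A).1 h
  exact (AddSubgroup.fg_iff _).2 ⟨f '' S, (f.map_closure S).symm, hS.image f⟩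

theorem HA1_lift {Z : AddSubgroup G} (f : G →+ G') (h : (Z.map f).FG) :
    ∃ F : AddSubgroup G, F.FG ∧ F ≤ Z ∧ Z ≤ f.ker ⊔ F := by
  obtain ⟨S, e, hS⟩ := (AddSubgroup.fg_iff _).1 h
  obtain ⟨T, hTZ, hT, rfl⟩ := hS.exists_subset_finite_image_eq (f := f) (s := Z)
    (by rw [← AddSubgroup.coe_map, ← e]; exact AddSubgroup.subset_closure)
  refine ⟨.closure T, (AddSubgroup.fg_iff _).2 ⟨T, rfl, hT⟩, (AddSubgroup.closure_le _).2 hTZ, ?_⟩
  rw [sup_comm, ← AddSubgroup.map_le_map_iff, f.map_closure, e]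

end

section

variable {G G' : Type} [AddCommGroup G] [AddCommGroup G']

/-- `Z` is finitely generated modulo `B`. -/
def RelFG (B Z : AddSubgroup G) : Prop := ∃ F : AddSubgroup G, F.FG ∧ Z ≤ B ⊔ F

theorem RelFG.of_le {B Z : AddSubgroup G} (h : Z ≤ B) : RelFG B Z :=
  ⟨⊥, AddSubgroup.FG.bot, h.trans le_sup_left⟩

theorem RelFG.of_fg {B Z : AddSubgroup G} (h : Z.FG) : RelFG B Z :=
  ⟨Z, h, le_sup_right⟩

theorem RelFG.mono {B Z B' Z' : AddSubgroup G} (h : RelFG B Z) (hB : B ≤ B') (hZ : Z' ≤ Z) :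
    RelFG B' Z' :=
  h.imp fun _ hF => ⟨hF.1, hZ.trans (hF.2.trans (sup_le_sup_right hB _))⟩

theorem RelFG.trans {A B C : AddSubgroup G} (h : RelFG A B) (h' : RelFG B C) : RelFG A C := by
  obtain ⟨F, hF, h1⟩ := h
  obtain ⟨F', hF', h2⟩ := h'
  exact ⟨F ⊔ F', hF.sup hF', h2.trans ((sup_le_sup_right h1 _).trans (sup_assoc _ _ _).le)⟩

theorem RelFG.sup {B Z Z' : AddSubgroup G} (h : RelFG B Z) (h' : RelFG B Z') :
    RelFG B (Z ⊔ Z') := by
  obtain ⟨F, hF, h1⟩ := h
  obtain ⟨F', hF', h2⟩ := h'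
  exact ⟨F ⊔ F', hF.sup hF', sup_le (h1.trans (sup_le_sup_left le_sup_left _))
    (h2.trans (sup_le_sup_left le_sup_right _))⟩

theorem RelFG.map {B Z : AddSubgroup G} (h : RelFG B Z) (f : G →+ G') :
    RelFG (B.map f) (Z.map f) := by
  obtain ⟨F, hF, h1⟩ := h
  exact ⟨F.map f, HA1_map hF f, (AddSubgroup.map_mono h1).trans (AddSubgroup.map_sup _ _ _).le⟩

theorem HA1_quot {B Z : AddSubgroup G} (h : RelFG B Z) : (Z.map (QuotientAddGroup.mk' B)).FG := by
  obtain ⟨F, hF, h1⟩ := h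
  refine HA1_le (HA1_map hF (QuotientAddGroup.mk' B)) ?_
  rwa [AddSubgroup.map_le_map_iff, QuotientAddGroup.ker_mk', sup_comm]

/-- The finitely generated subgroup can be chosen inside `Z`. -/
theorem RelFG.exists_le {B Z : AddSubgroup G} (h : RelFG B Z) :
    ∃ F : AddSubgroup G, F.FG ∧ F ≤ Z ∧ Z ≤ B ⊔ F := by
  simpa only [QuotientAddGroup.ker_mk'] using HA1_lift _ (HA1_quot h)

theorem RelFG.of_hom {B Z : AddSubgroup G} {B' Z' : AddSubgroup G'} (f : G →+ G')
    (h : RelFG B' Z') (hZ : ∀ z ∈ Z, f z ∈ Z') (hk : RelFG B (Z ⊓ B'.comap f)) : RelFG B Z := by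
  obtain ⟨F, hF, h1, h2⟩ := HA1_lift (Z := Z) ((QuotientAddGroup.mk' B').comp f) (by
    rw [← AddSubgroup.map_map]
    exact HA1_le (HA1_quot h) (AddSubgroup.map_mono (AddSubgroup.map_le_iff_le_comap.2 hZ)))
  rw [← AddMonoidHom.comap_ker, QuotientAddGroup.ker_mk'] at h2
  refine hk.trans ⟨F, hF, fun z hz => ?_⟩
  obtain ⟨a, ha, b, hb, rfl⟩ := AddSubgroup.mem_sup.1 (h2 hz)
  exact AddSubgroup.add_mem_sup ⟨(add_mem_cancel_right (h1 hb)).1 hz, ha⟩ hb

/-- The same for a homomorphism defined on `Z` only. -/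
theorem RelFG.of_hom' {B Z : AddSubgroup G} {B' Z' : AddSubgroup G'} (f : Z →+ G')
    (h : RelFG B' Z') (hZ : ∀ z, f z ∈ Z') (hk : RelFG B ((B'.comap f).map Z.subtype)) :
    RelFG B Z := by
  have h1 : RelFG (B'.comap f) ⊤ := .of_hom f h (fun z _ => hZ z) (.of_le inf_le_right)
  exact hk.trans ((h1.map Z.subtype).mono le_rfl fun z hz => ⟨⟨z, hz⟩, trivial, rfl⟩)

theorem relFG_bot_top : RelFG (⊥ : AddSubgroup G) ⊤ ↔ AddGroup.FG G :=
  ⟨fun ⟨_, hF, h⟩ => ⟨HA1_le hF (h.trans (bot_sup_eq _).le)⟩, fun h => .of_fg h.out⟩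

theorem relFG_iff_quot {B Z : AddSubgroup G} :
    RelFG B Z ↔ AddGroup.FG (Z ⧸ B.addSubgroupOf Z) := by
  constructor
  · intro h
    have h1 : RelFG (B.addSubgroupOf Z) ⊤ :=
      .of_hom Z.subtype h (fun z _ => z.2) (.of_le inf_le_right)
    have h2 := HA1_quot h1
    rw [AddSubgroup.map_top_of_surjective _ (QuotientAddGroup.mk'_surjective _)] at h2
    exact ⟨h2⟩
  · intro h
    refine .of_hom' (QuotientAddGroup.mk' (B.addSubgroupOf Z)) (relFG_bot_top.2 h)
      (fun _ => trivial) (.of_le ?_)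
    rintro _ ⟨z, hz, rfl⟩
    exact (QuotientAddGroup.eq_zero_iff z).1 hz

/-- An abelian group with an exact sequence `A → G → C` with finitely generated ends. -/
theorem fg_of_exact {A C : Type*} {G : Type*} [AddCommGroup A] [AddCommGroup G] [AddCommGroup C]
    (hA : AddGroup.FG A) (hC : AddGroup.FG C) (i : A →+ G) (p : G →+ C)
    (h : ∀ x, p x = 0 → x ∈ i.range) : AddGroup.FG G := by
  obtain ⟨F, hF, -, h1⟩ := HA1_lift (Z := ⊤) p (HA1_le hC.out le_top)
  refine ⟨HA1_le ((HA1_map hA.out i).sup hF) (h1.trans (sup_le_sup_right ?_ _))⟩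
  rw [← AddMonoidHom.range_eq_map]
  exact h

/-- A finitely generated abelian group in which every element is divisible by every prime is
trivial. -/
theorem eq_zero_of_divisible {G : Type*} [AddCommGroup G] (hG : AddGroup.FG G)
    (h : ∀ p : ℕ, p.Prime → ∀ x : G, ∃ y, x = p • y) (x : G) : x = 0 := by
  have h1 : ∀ n : ℕ, n ≠ 0 → ∀ x : G, ∃ y, x = n • y := by
    intro n
    induction n using induction_on_primes with
    | zero => exact fun e => absurd rfl e
    | one => exact fun _ x => ⟨x, (one_smul _ _).symm⟩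
    | prime_mul p a hp ih =>
      intro e x
      obtain ⟨y, rfl⟩ := h p hp x
      obtain ⟨z, rfl⟩ := ih (right_ne_zero_of_mul e) y
      exact ⟨z, (mul_smul _ _ _).symm⟩
  obtain ⟨r, hr, h2⟩ := Submodule.exists_sub_one_mem_and_smul_eq_zero_of_fg_of_le_smul
    (Ideal.span {(2 : ℤ)}) ⊤ (Module.Finite.iff_addGroup_fg.2 hG).fg_top fun x _ => by
      obtain ⟨y, rfl⟩ := h 2 Nat.prime_two x
      rw [← natCast_zsmul]
      exact Submodule.smul_mem_smul (Ideal.subset_span rfl) trivial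
  have h3 : r.natAbs ≠ 0 := by
    have := Ideal.mem_span_singleton.1 hr
    omega
  obtain ⟨y, rfl⟩ := h1 _ h3 x
  rw [← natCast_zsmul, Int.natCast_natAbs]
  rcases abs_choice r with e | e <;> simp [e, h2 y trivial]

end

/-- A complex of subgroups of one abelian group. -/
structure Cx where
  G : Type
  [grp : AddCommGroup G]
  d : ℕ → G →+ G
  S : ℕ → AddSubgroup G
  d0 : ∀ x ∈ S 0, d 0 x = 0
  dS : ∀ n, ∀ x ∈ S (n + 1), d (n + 1) x ∈ S n
  dd : ∀ n, ∀ x ∈ S (n + 1), d n (d (n + 1) x) = 0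

attribute [instance] Cx.grp

namespace Cx

/-- Cycles. -/
def Z (C : Cx) (n : ℕ) : AddSubgroup C.G := C.S n ⊓ (C.d n).ker

/-- Boundaries. -/
def B (C : Cx) (n : ℕ) : AddSubgroup C.G := (C.S (n + 1)).map (C.d (n + 1))

/-- The homology in degree `n` is finitely generated. -/
def FG (C : Cx) (n : ℕ) : Prop := RelFG (C.B n) (C.Z n)

/-- Chain maps. -/
structure Hom (C D : Cx) where
  f : ℕ → C.G →+ D.G
  mem : ∀ n, ∀ x ∈ C.S n, f n x ∈ D.S n
  comm : ∀ n, ∀ x ∈ C.S (n + 1), f n (C.d (n + 1) x) = D.d (n + 1) (f (n + 1) x)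

/-- Short exact sequences. -/
structure SES {A B C : Cx} (i : Hom A B) (p : Hom B C) : Prop where
  inj : ∀ n, ∀ x ∈ A.S n, i.f n x = 0 → x = 0
  comp : ∀ n, ∀ x ∈ A.S n, p.f n (i.f n x) = 0
  ex : ∀ n, ∀ y ∈ B.S n, p.f n y = 0 → ∃ x ∈ A.S n, i.f n x = y
  surj : ∀ n, ∀ z ∈ C.S n, ∃ y ∈ B.S n, p.f n y = z

variable {A B C : Cx} {i : Hom A B} {p : Hom B C}

theorem HA1_Z (f : Hom A B) {n : ℕ} {x : A.G} (hx : x ∈ A.Z n) : f.f n x ∈ B.Z n := by
  refine ⟨f.mem n x hx.1, ?_⟩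
  cases n with
  | zero => exact B.d0 _ (f.mem 0 x hx.1)
  | succ n =>
    exact (f.comm n x hx.1).symm.trans (by rw [show A.d (n + 1) x = 0 from hx.2, map_zero])

theorem HA1_B (f : Hom A B) (n : ℕ) : (A.B n).map (f.f n) ≤ B.B n := by
  rintro _ ⟨_, ⟨x, hx, rfl⟩, rfl⟩
  exact ⟨_, f.mem _ x hx, (f.comm n x hx).symm⟩

theorem HA1_BZ (C : Cx) (n : ℕ) : C.B n ≤ C.Z n := by
  rintro _ ⟨x, hx, rfl⟩
  exact ⟨C.dS n x hx, C.dd n x hx⟩

theorem HA1_inj (h : SES i p) {n : ℕ} {x : A.G} (hx : x ∈ A.S n) (hz : i.f n x ∈ B.Z n) :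
    x ∈ A.Z n := by
  refine ⟨hx, ?_⟩
  cases n with
  | zero => exact A.d0 _ hx
  | succ n => exact h.inj n _ (A.dS n x hx) ((i.comm n x hx).trans hz.2)

/-- A chain whose image is a boundary. -/
theorem HA1_ex (h : SES i p) {n : ℕ} {y : B.G} (hy : y ∈ B.S n) (hb : p.f n y ∈ C.B n) :
    ∃ x ∈ A.S n, ∃ b ∈ B.B n, b + i.f n x = y := by
  obtain ⟨c, hc, e⟩ := hb
  obtain ⟨w, hw, rfl⟩ := h.surj _ c hc
  obtain ⟨x, hx, e'⟩ := h.ex n (y - B.d (n + 1) w) (sub_mem hy (B.dS n w hw))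
    (by rw [map_sub, p.comm n w hw, e, sub_self])
  exact ⟨x, hx, _, ⟨w, hw, rfl⟩, by rw [e', add_sub_cancel]⟩

theorem ses_mid (h : SES i p) {n : ℕ} (hA : A.FG n) (hC : C.FG n) : B.FG n := by
  refine RelFG.of_hom (p.f n) hC (fun _ => HA1_Z p) (((RelFG.of_le le_rfl).sup
    ((RelFG.map hA (i.f n)).mono (HA1_B i n) le_rfl)).mono le_rfl fun y hy => ?_)
  obtain ⟨x, hx, b, hb, rfl⟩ := HA1_ex h hy.1.1 hy.2
  exact AddSubgroup.add_mem_sup hb
    ⟨x, HA1_inj h hx ((add_mem_cancel_left (HA1_BZ B n hb)).1 hy.1), rfl⟩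

theorem ses_left (h : SES i p) {n : ℕ} (hB : B.FG n) (hC : C.FG (n + 1)) : A.FG n := by
  have h1 : RelFG (B.B (n + 1) ⊔ (A.S (n + 1)).map (i.f (n + 1)))
      (B.S (n + 1) ⊓ (C.Z (n + 1)).comap (p.f (n + 1))) := by
    refine RelFG.of_hom (p.f (n + 1)) hC (fun _ hy => hy.2) (.of_le fun y hy => ?_)
    obtain ⟨x, hx, b, hb, rfl⟩ := HA1_ex h hy.1.1 hy.2
    exact AddSubgroup.add_mem_sup hb ⟨x, hx, rfl⟩
  have h2 : (B.B (n + 1) ⊔ (A.S (n + 1)).map (i.f (n + 1))).map (B.d (n + 1)) ≤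
      (A.B n).map (i.f n) := by
    rw [AddSubgroup.map_sup]
    refine sup_le ?_ ?_
    · rintro _ ⟨b, hb, rfl⟩
      rw [show B.d (n + 1) b = 0 from (HA1_BZ B _ hb).2]
      exact zero_mem _
    · rintro _ ⟨_, ⟨x, hx, rfl⟩, rfl⟩
      exact ⟨_, ⟨x, hx, rfl⟩, i.comm n x hx⟩
  refine RelFG.of_hom (i.f n) hB (fun _ => HA1_Z i) (RelFG.of_hom (i.f n)
    ((h1.map (B.d (n + 1))).mono h2 le_rfl) ?_ (.of_le ?_))
  · rintro x ⟨hx, y, hy, e⟩
    refine ⟨y, ⟨hy, p.mem _ y hy, ?_⟩, e⟩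
    exact (p.comm n y hy).symm.trans (by rw [e, h.comp n x hx.1])
  · rintro x ⟨⟨hx, -⟩, b, hb, e⟩
    rwa [← sub_eq_zero.1 (h.inj n _ (sub_mem (HA1_BZ A n hb).1 hx.1)
      (by rw [map_sub, e, sub_self]))]

theorem ses_right (h : SES i p) {n : ℕ} (hB : B.FG n) (hA : ∀ m, m + 1 = n → A.FG m) :
    C.FG n := by
  have h1 : RelFG (B.B n ⊔ (A.S n).map (i.f n)) (B.Z n ⊔ (A.S n).map (i.f n)) :=
    (RelFG.mono hB le_sup_left le_rfl).sup (.of_le le_sup_right)
  have h2 : RelFG (B.B n ⊔ (A.S n).map (i.f n)) (B.S n ⊓ (C.Z n).comap (p.f n)) := by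
    cases n with
    | zero => exact h1.mono le_rfl fun y hy => AddSubgroup.mem_sup_left ⟨hy.1, B.d0 y hy.1⟩
    | succ n =>
      refine RelFG.of_hom (B.d (n + 1)) (RelFG.map (hA n rfl) (i.f n)) (fun y hy => ?_)
        (h1.mono le_rfl ?_)
      · obtain ⟨x, hx, e⟩ := h.ex n _ (B.dS n y hy.1) ((p.comm n y hy.1).trans hy.2.2)
        exact ⟨x, HA1_inj h hx (e ▸ HA1_BZ B n ⟨y, hy.1, rfl⟩), e⟩
      · rintro y ⟨⟨hy, -⟩, _, ⟨x, hx, rfl⟩, e⟩
        rw [← sub_add_cancel y (i.f (n + 1) x)]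
        refine AddSubgroup.add_mem_sup ⟨(B.S (n + 1)).sub_mem hy (i.mem _ x hx), ?_⟩ ⟨x, hx, rfl⟩
        exact (map_sub _ _ _).trans (by rw [← i.comm n x hx, e, sub_self])
  refine (h2.map (p.f n)).mono ?_ fun z hz => ?_
  · rw [AddSubgroup.map_sup]
    refine sup_le (HA1_B p n) ?_
    rintro _ ⟨_, ⟨x, hx, rfl⟩, rfl⟩
    rw [h.comp n x hx]
    exact zero_mem _
  · obtain ⟨y, hy, rfl⟩ := h.surj n z hz.1
    exact ⟨y, ⟨hy, hz⟩, rfl⟩

/-- Surjective on homology. -/
theorem FG.of_surj (f : Hom A B) {n : ℕ} (hA : A.FG n)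
    (h : ∀ z ∈ B.Z n, ∃ x ∈ A.Z n, z - f.f n x ∈ B.B n) : B.FG n := by
  refine ((RelFG.of_le le_rfl).sup ((RelFG.map hA (f.f n)).mono (HA1_B f n) le_rfl)).mono le_rfl
    fun z hz => ?_
  obtain ⟨x, hx, e⟩ := h z hz
  rw [← sub_add_cancel z (f.f n x)]
  exact AddSubgroup.add_mem_sup e ⟨x, hx, rfl⟩

/-- Injective on homology. -/
theorem FG.of_inj (f : Hom A B) {n : ℕ} (hB : B.FG n)
    (h : ∀ x ∈ A.Z n, f.f n x ∈ B.B n → x ∈ A.B n) : A.FG n :=
  RelFG.of_hom (f.f n) hB (fun _ => HA1_Z f) (.of_le fun x hx => h x hx.1 hx.2)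

/-- A subcomplex. -/
def sub (C : Cx) (S' : ℕ → AddSubgroup C.G) (hle : ∀ n, S' n ≤ C.S n)
    (hd : ∀ n, ∀ x ∈ S' (n + 1), C.d (n + 1) x ∈ S' n) : Cx where
  G := C.G
  d := C.d
  S := S'
  d0 x hx := C.d0 x (hle 0 hx)
  dS := hd
  dd n x hx := C.dd n x (hle _ hx)

/-- The product of two complexes. -/
def prod (C D : Cx) : Cx where
  G := C.G × D.G
  d n := (C.d n).prodMap (D.d n)
  S n := (C.S n).prod (D.S n)
  d0 _ hx := Prod.ext (C.d0 _ hx.1) (D.d0 _ hx.2)
  dS n _ hx := ⟨C.dS n _ hx.1, D.dS n _ hx.2⟩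
  dd n _ hx := Prod.ext (C.dd n _ hx.1) (D.dd n _ hx.2)

theorem FG.prod {n : ℕ} (hA : A.FG n) (hB : B.FG n) : (A.prod B).FG n := by
  obtain ⟨F, hF, h1⟩ := hA
  obtain ⟨F', hF', h2⟩ := hB
  refine ⟨F.prod F', hF.prod hF', fun z hz => ?_⟩
  obtain ⟨_, ⟨a, ha, rfl⟩, b, hb, e⟩ :=
    AddSubgroup.mem_sup.1 (h1 (x := z.1) ⟨hz.1.1, congrArg Prod.fst hz.2⟩)
  obtain ⟨_, ⟨a', ha', rfl⟩, b', hb', e'⟩ :=
    AddSubgroup.mem_sup.1 (h2 (x := z.2) ⟨hz.1.2, congrArg Prod.snd hz.2⟩)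
  exact AddSubgroup.mem_sup.2 ⟨_, ⟨(a, a'), ⟨ha, ha'⟩, rfl⟩, (b, b'), ⟨hb, hb'⟩, Prod.ext e e'⟩

end Cx

end RB
end

-- merged part: Pool.Agent.Work.MP_666b5d_gt.HA2
section
/-!
# Cubical objects and their unnormalised chains

A cubical object is one type `Y` with face operators `fc i ε`; an `n`-cube is an element of `Y`
considered with the faces `i < n` only.  The chain groups are all equal to `Y →₀ A`.

Proof hints.  `d_d`: with `Δ i = fc i false - fc i true` one has `Δ i Δ (j+1) = Δ j Δ i` for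
`i ≤ j`; split the double sum into `k ≤ i` and `k > i`, or induct on `n` with `d_succ`.
`FT.coeff`: induct on the number of generators of `A` (or use the structure theorem): a short exact
sequence of coefficients gives a short exact sequence of complexes; for `ℤ / m` use
`0 → ℤ → ℤ → ℤ / m → 0`.
`mv`: the complex of chains supported on `p ∨ q` is the quotient of the product of the two
subcomplexes by the chains supported on `p ∧ q`; use `ses_right` and `FG.of_surj`.
-/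

open Finsupp

namespace RB

/-- Cubical objects. -/
structure CS where
  Y : Type
  fc : ℕ → Bool → Y → Y
  fc_fc : ∀ i j, i ≤ j → ∀ ε δ y, fc i ε (fc (j + 1) δ y) = fc j δ (fc i ε y)

namespace CS

/-- The differential on `n`-chains. -/
noncomputable def d (X : CS) (A : Type) [AddCommGroup A] (n : ℕ) : (X.Y →₀ A) →+ (X.Y →₀ A) :=
  ∑ i ∈ Finset.range n, (-1 : ℤ) ^ i •
    (mapDomain.addMonoidHom (X.fc i false) - mapDomain.addMonoidHom (X.fc i true))

variable {X X' X'' : CS} {A : Type} [AddCommGroup A]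

theorem d_zero : X.d A 0 = 0 := by simp [d]

theorem HA2_d_apply (n : ℕ) (c : X.Y →₀ A) : X.d A n c =
    ∑ i ∈ Finset.range n, (-1 : ℤ) ^ i •
      (mapDomain (X.fc i false) c - mapDomain (X.fc i true) c) := by
  simp [d, AddMonoidHom.finsetSum_apply]

theorem HA2_alt {G : Type} [AddCommGroup G] (Δ : ℕ → G →+ G)
    (h : ∀ i j, i ≤ j → ∀ c, Δ i (Δ (j + 1) c) = Δ j (Δ i c)) (n : ℕ) (c : G) :
    (∑ i ∈ Finset.range n, (-1 : ℤ) ^ i • Δ i)
      ((∑ i ∈ Finset.range (n + 1), (-1 : ℤ) ^ i • Δ i) c) = 0 := by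
  induction n with
  | zero => simp
  | succ n ih =>
    have e : (∑ i ∈ Finset.range n, (-1 : ℤ) ^ i • Δ i) (Δ (n + 1) c) =
        Δ n ((∑ i ∈ Finset.range n, (-1 : ℤ) ^ i • Δ i) c) := by
      simp only [AddMonoidHom.finsetSum_apply, AddMonoidHom.smul_apply, map_sum, map_zsmul]
      exact Finset.sum_congr rfl fun i hi => by rw [h i n (Finset.mem_range.1 hi).le]
    rw [Finset.sum_range_succ _ (n + 1)]
    rw [Finset.sum_range_succ _ n] at ih ⊢
    generalize (∑ i ∈ Finset.range n, (-1 : ℤ) ^ i • Δ i) = D at e ih ⊢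
    simp only [AddMonoidHom.add_apply, AddMonoidHom.smul_apply, map_add, map_zsmul] at ih ⊢
    rw [e, h n n le_rfl, pow_succ]
    linear_combination (norm := module) ih

theorem d_single (n : ℕ) (y : X.Y) (a : A) : X.d A n (single y a) =
    ∑ i ∈ Finset.range n, (-1 : ℤ) ^ i • (single (X.fc i false y) a - single (X.fc i true y) a) := by
  simp only [HA2_d_apply, mapDomain_single]

theorem d_d (n : ℕ) (c : X.Y →₀ A) : X.d A n (X.d A (n + 1) c) = 0 := by
  refine HA2_alt (fun i => mapDomain.addMonoidHom (X.fc i false) -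
    mapDomain.addMonoidHom (X.fc i true)) (fun i j hij c => ?_) n c
  have e : ∀ ε δ, mapDomain (X.fc i ε) (mapDomain (X.fc (j + 1) δ) c) =
      mapDomain (X.fc j δ) (mapDomain (X.fc i ε) c) := by
    intro ε δ
    rw [← mapDomain_comp, ← mapDomain_comp]
    congr 1
    exact funext (X.fc_fc i j hij ε δ)
  simp only [AddMonoidHom.sub_apply, map_sub, mapDomain.addMonoidHom_apply, e]
  abel

/-- The chain complex. -/
noncomputable def cx (X : CS) (A : Type) [AddCommGroup A] : Cx where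
  G := X.Y →₀ A
  d := X.d A
  S _ := ⊤
  d0 x _ := by rw [d_zero]; rfl
  dS _ _ _ := trivial
  dd n x _ := d_d n x

/-- All homology groups with coefficients in `A` are finitely generated. -/
def FT (X : CS) (A : Type) [AddCommGroup A] : Prop :=
  ∀ n, RelFG (X.d A (n + 1)).range (X.d A n).ker

theorem ft_iff : X.FT A ↔ ∀ n, (X.cx A).FG n := by
  refine forall_congr' fun n => ?_
  have e1 : (X.cx A).B n = (X.d A (n + 1)).range := (AddMonoidHom.range_eq_map _).symm
  have e2 : (X.cx A).Z n = (X.d A n).ker := top_inf_eq _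
  unfold Cx.FG
  rw [e1, e2]
  rfl

/-- Maps commuting with the faces. -/
def IsHom (X X' : CS) (f : X.Y → X'.Y) : Prop := ∀ i ε y, f (X.fc i ε y) = X'.fc i ε (f y)

theorem IsHom.comm {f : X.Y → X'.Y} (hf : IsHom X X' f) (n : ℕ) (c : X.Y →₀ A) :
    mapDomain f (X.d A n c) = X'.d A n (mapDomain f c) := by
  have e : ∀ i ε, mapDomain f (mapDomain (X.fc i ε) c) = mapDomain (X'.fc i ε) (mapDomain f c) := by
    intro i ε
    rw [← mapDomain_comp, ← mapDomain_comp]
    congr 1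
    exact funext (hf i ε)
  rw [HA2_d_apply, HA2_d_apply, ← mapDomain.addMonoidHom_apply, map_sum]
  simp only [map_zsmul, map_sub, mapDomain.addMonoidHom_apply, e]

theorem IsHom.id : IsHom X X id := fun _ _ _ => rfl

theorem IsHom.comp {f : X.Y → X'.Y} {g : X'.Y → X''.Y} (hg : IsHom X' X'' g) (hf : IsHom X X' f) :
    IsHom X X'' (g ∘ f) := fun i ε y => by simp only [Function.comp, hf i ε y, hg i ε]

/-- A cubical homotopy from `f` to `g`. -/
structure Htpy (X X' : CS) (f g h : X.Y → X'.Y) : Prop where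
  h0 : ∀ y, X'.fc 0 false (h y) = f y
  h1 : ∀ y, X'.fc 0 true (h y) = g y
  hs : ∀ i ε y, X'.fc (i + 1) ε (h y) = h (X.fc i ε y)

theorem Htpy.d_eq {f g h : X.Y → X'.Y} (H : Htpy X X' f g h) (n : ℕ) (c : X.Y →₀ A) :
    X'.d A (n + 1) (mapDomain h c) =
      mapDomain f c - mapDomain g c - mapDomain h (X.d A n c) := by
  have e : ∀ i ε, mapDomain (X'.fc (i + 1) ε) (mapDomain h c) =
      mapDomain h (mapDomain (X.fc i ε) c) := by
    intro i ε
    rw [← mapDomain_comp, ← mapDomain_comp]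
    congr 1
    exact funext (H.hs i ε)
  have e0 : mapDomain (X'.fc 0 false) (mapDomain h c) = mapDomain f c := by
    rw [← mapDomain_comp]
    congr 1
    exact funext H.h0
  have e1 : mapDomain (X'.fc 0 true) (mapDomain h c) = mapDomain g c := by
    rw [← mapDomain_comp]
    congr 1
    exact funext H.h1
  rw [HA2_d_apply, HA2_d_apply, Finset.sum_range_succ', e0, e1,
    ← mapDomain.addMonoidHom_apply h (∑ _ ∈ _, _), map_sum]
  simp only [map_zsmul, map_sub, mapDomain.addMonoidHom_apply, e, pow_succ, mul_neg, mul_one,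
    neg_smul, Finset.sum_neg_distrib, pow_zero, one_smul]
  abel

/-- The two maps agree on integral homology. -/
def Hmlg (X X' : CS) (f g : X.Y → X'.Y) : Prop :=
  ∀ n (c : X.Y →₀ ℤ), X.d ℤ n c = 0 → mapDomain f c - mapDomain g c ∈ (X'.d ℤ (n + 1)).range

theorem Htpy.hmlg {f g h : X.Y → X'.Y} (H : Htpy X X' f g h) : Hmlg X X' f g := by
  intro n c hc
  refine ⟨mapDomain h c, ?_⟩
  rw [H.d_eq, hc, mapDomain_zero, sub_zero]

theorem Hmlg.refl (f : X.Y → X'.Y) : Hmlg X X' f f := by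
  intro n c _
  rw [sub_self]
  exact zero_mem _

theorem Hmlg.symm {f g : X.Y → X'.Y} (h : Hmlg X X' f g) : Hmlg X X' g f := by
  intro n c hc
  rw [← neg_sub]
  exact neg_mem (h n c hc)

theorem Hmlg.trans {f g k : X.Y → X'.Y} (h : Hmlg X X' f g) (h' : Hmlg X X' g k) :
    Hmlg X X' f k := by
  intro n c hc
  rw [← sub_add_sub_cancel _ (mapDomain g c)]
  exact add_mem (h n c hc) (h' n c hc)

theorem Hmlg.comp_left {f g : X.Y → X'.Y} (h : Hmlg X X' f g) {k : X'.Y → X''.Y}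
    (hk : IsHom X' X'' k) : Hmlg X X'' (k ∘ f) (k ∘ g) := by
  intro n c hc
  obtain ⟨b, hb⟩ := h n c hc
  refine ⟨mapDomain k b, ?_⟩
  rw [← hk.comm, hb, mapDomain_sub, mapDomain_comp, mapDomain_comp]

theorem Hmlg.comp_right {f g : X'.Y → X''.Y} (h : Hmlg X' X'' f g) {k : X.Y → X'.Y}
    (hk : IsHom X X' k) : Hmlg X X'' (f ∘ k) (g ∘ k) := by
  intro n c hc
  rw [mapDomain_comp, mapDomain_comp]
  exact h n _ (by rw [← hk.comm, hc, mapDomain_zero])

theorem HA2_dom {f : X.Y → X'.Y} {g : X'.Y → X.Y} (hf : IsHom X X' f) (hg : IsHom X' X g)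
    (h : ∀ n (c : X.Y →₀ A), X.d A n c = 0 →
      mapDomain (g ∘ f) c - c ∈ (X.d A (n + 1)).range) (hX : X'.FT A) : X.FT A := by
  intro n
  obtain ⟨F, ⟨T, hT⟩, hle⟩ := hX n
  have hF : (F.map (mapDomain.addMonoidHom g)).FG := by
    classical
    exact ⟨T.image (mapDomain.addMonoidHom g), by
      rw [← hT, AddMonoidHom.map_closure, Finset.coe_image]⟩
  refine ⟨F.map (mapDomain.addMonoidHom g), hF, fun c hc => ?_⟩
  have hc' : X.d A n c = 0 := hc
  have h1 : mapDomain f c ∈ (X'.d A n).ker := by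
    rw [AddMonoidHom.mem_ker, ← hf.comm, hc', mapDomain_zero]
  obtain ⟨_, ⟨b, rfl⟩, x, hx, e⟩ := AddSubgroup.mem_sup.1 (hle h1)
  have e' : c = (X.d A (n + 1) (mapDomain g b) - (mapDomain (g ∘ f) c - c)) + mapDomain g x := by
    rw [mapDomain_comp, ← e, mapDomain_add, hg.comm]
    abel
  rw [e']
  exact AddSubgroup.add_mem_sup (sub_mem ⟨_, rfl⟩ (h n c hc')) ⟨x, hx, rfl⟩

/-- Retracts up to homology. -/
theorem FT.of_dom {f : X.Y → X'.Y} {g : X'.Y → X.Y} (hf : IsHom X X' f) (hg : IsHom X' X g)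
    (h : Hmlg X X (g ∘ f) id) (hX : X'.FT ℤ) : X.FT ℤ := by
  refine HA2_dom hf hg (fun n c hc => ?_) hX
  have := h n c hc
  rwa [mapDomain_id] at this

theorem FT.of_bij {f : X.Y → X'.Y} (hf : IsHom X X' f) (hb : Function.Bijective f) :
    X.FT A ↔ X'.FT A := by
  obtain ⟨g, h1, h2⟩ := Function.bijective_iff_has_inverse.1 hb
  have hg : IsHom X' X g := fun i ε y => hb.1 (by rw [h2, hf, h2])
  constructor
  · refine HA2_dom hg hf fun n c _ => ?_
    rw [h2.comp_eq_id, mapDomain_id, sub_self]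
    exact zero_mem _
  · refine HA2_dom hf hg fun n c _ => ?_
    rw [h1.comp_eq_id, mapDomain_id, sub_self]
    exact zero_mem _

theorem FT.of_finite [Finite X.Y] : X.FT ℤ := by
  intro n
  have h : AddGroup.FG (X.Y →₀ ℤ) := Module.Finite.iff_addGroup_fg.1 inferInstance
  exact (relFG_bot_top.2 h).mono bot_le le_top

theorem HA2_range {B : Type} [AddCommGroup B] (φ : A →+ B) (n : ℕ) (c : X.Y →₀ A) :
    mapRange.addMonoidHom φ (X.d A n c) = X.d B n (mapRange.addMonoidHom φ c) := by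
  induction c using Finsupp.induction_linear with
  | zero => simp
  | add a b ha hb => simp only [map_add, ha, hb]
  | single y a =>
    rw [d_single, map_sum]
    simp only [map_zsmul, map_sub, mapRange.addMonoidHom_apply, mapRange_single, d_single]

/-- The chain map induced by a map of coefficients. -/
noncomputable def HA2_hom (X : CS) {B : Type} [AddCommGroup B] (φ : A →+ B) :
    Cx.Hom (X.cx A) (X.cx B) where
  f _ := mapRange.addMonoidHom φ
  mem _ _ _ := trivial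
  comm n x _ := HA2_range φ (n + 1) x

theorem HA2_ses {B C : Type} [AddCommGroup B] [AddCommGroup C] (i : A →+ B) (p : B →+ C)
    (hi : Function.Injective i) (hc : ∀ x, p (i x) = 0) (hex : ∀ y, p y = 0 → ∃ x, i x = y)
    (hp : Function.Surjective p) : Cx.SES (HA2_hom X i) (HA2_hom X p) where
  inj n (x : X.Y →₀ A) _ h := by
    refine Finsupp.ext fun y => hi ?_
    have : i (x y) = 0 := DFunLike.congr_fun (F := X.Y →₀ B) h y
    exact this.trans (map_zero i).symm
  comp n (x : X.Y →₀ A) _ := Finsupp.ext fun y => hc (x y)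
  ex n (y : X.Y →₀ B) _ h := by
    have h0 : Function.invFun i 0 = 0 := by
      have := Function.leftInverse_invFun hi 0
      rwa [map_zero] at this
    refine ⟨mapRange (Function.invFun i) h0 y, trivial, Finsupp.ext fun a => ?_⟩
    have : p (y a) = 0 := DFunLike.congr_fun (F := X.Y →₀ C) h a
    exact Function.invFun_eq (hex _ this)
  surj n (z : X.Y →₀ C) _ := by
    obtain ⟨y, hy⟩ := Finsupp.mapRange_surjective (α := X.Y) p (map_zero p) hp z
    exact ⟨y, trivial, hy⟩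

theorem HA2_sub [Subsingleton A] : X.FT A := fun _ =>
  RelFG.of_le fun c _ => by
    rw [Subsingleton.elim c 0]
    exact zero_mem _

theorem HA2_mid {B C : Type} [AddCommGroup B] [AddCommGroup C] (i : A →+ B) (p : B →+ C)
    (hi : Function.Injective i) (hc : ∀ x, p (i x) = 0) (hex : ∀ y, p y = 0 → ∃ x, i x = y)
    (hp : Function.Surjective p) (hA : X.FT A) (hC : X.FT C) : X.FT B :=
  ft_iff.2 fun n => Cx.ses_mid (HA2_ses i p hi hc hex hp) (ft_iff.1 hA n) (ft_iff.1 hC n)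

theorem HA2_right {B C : Type} [AddCommGroup B] [AddCommGroup C] (i : A →+ B) (p : B →+ C)
    (hi : Function.Injective i) (hc : ∀ x, p (i x) = 0) (hex : ∀ y, p y = 0 → ∃ x, i x = y)
    (hp : Function.Surjective p) (hA : X.FT A) (hB : X.FT B) : X.FT C :=
  ft_iff.2 fun n => Cx.ses_right (HA2_ses i p hi hc hex hp) (ft_iff.1 hB n)
    fun m _ => ft_iff.1 hA m

theorem HA2_equiv {B : Type} [AddCommGroup B] (e : A ≃+ B) (hA : X.FT A) : X.FT B :=
  HA2_mid e.toAddMonoidHom (0 : B →+ PUnit) e.injective (fun _ => rfl)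
    (fun y _ => e.surjective y) (fun _ => ⟨0, rfl⟩) hA HA2_sub

theorem HA2_pi (hX : X.FT ℤ) (k : ℕ) : X.FT (Fin k → ℤ) := by
  induction k with
  | zero => exact HA2_sub
  | succ k ih =>
    refine HA2_mid (AddMonoidHom.single (fun _ : Fin (k + 1) => ℤ) 0)
      (AddMonoidHom.mk' (fun v : Fin (k + 1) → ℤ => fun j : Fin k => v j.succ) fun _ _ => rfl)
      (fun a b h => by simpa using congrFun h 0) (fun x => ?_) (fun y hy => ⟨y 0, ?_⟩)
      (fun v => ⟨Fin.cons 0 v, ?_⟩) hX ih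
    · funext j
      simp
    · funext j
      refine Fin.cases ?_ (fun j => ?_) j
      · simp
      · have : y j.succ = 0 := congrFun hy j
        simp [this]
    · funext j
      simp

theorem HA2_free (hX : X.FT ℤ) [Module.Finite ℤ A] [Module.Free ℤ A] : X.FT A :=
  HA2_equiv (Module.finBasis ℤ A).equivFun.symm.toAddEquiv (HA2_pi hX _)

theorem FT.coeff (hX : X.FT ℤ) (hA : AddGroup.FG A) : X.FT A := by
  have : Module.Finite ℤ A := Module.Finite.iff_addGroup_fg.2 hA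
  obtain ⟨k, π, hπ⟩ := Module.Finite.exists_fin' ℤ A
  exact HA2_right (LinearMap.ker π).subtype.toAddMonoidHom π.toAddMonoidHom Subtype.val_injective
    (fun x => x.2) (fun y hy => ⟨⟨y, hy⟩, rfl⟩) hπ (HA2_free hX) (HA2_pi hX k)

/-- The coefficients are a quotient of the homology in degree zero. -/
theorem fg_of_zero [Nonempty X.Y] (h : RelFG (X.d A 1).range ⊤) : AddGroup.FG A := by
  let ε : (X.Y →₀ A) →+ A := Finsupp.liftAddHom fun _ => AddMonoidHom.id A
  have hε : ∀ y a, ε (single y a) = a := fun y a => by simp [ε]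
  have h0 : ∀ c, ε (X.d A 1 c) = 0 := by
    intro c
    induction c using Finsupp.induction_linear with
    | zero => simp
    | add a b ha hb => simp only [map_add, ha, hb, add_zero]
    | single y a => simp [d_single, hε]
  refine relFG_bot_top.1 ((h.map ε).mono ?_ ?_)
  · rintro _ ⟨_, ⟨c, rfl⟩, rfl⟩
    exact h0 c
  · intro a _
    exact ⟨single (Classical.arbitrary _) a, trivial, hε _ a⟩

/-- Subobjects. -/
def sub (X : CS) (p : X.Y → Prop) (hp : ∀ i ε y, p y → p (X.fc i ε y)) : CS where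
  Y := {y // p y}
  fc i ε y := ⟨X.fc i ε y.1, hp i ε y.1 y.2⟩
  fc_fc i j h ε δ y := Subtype.ext (X.fc_fc i j h ε δ y.1)

/-- Chains supported on a predicate. -/
def HA2_supp (X : CS) (p : X.Y → Prop) : AddSubgroup (X.Y →₀ ℤ) where
  carrier := {c | ∀ y, ¬ p y → c y = 0}
  add_mem' ha hb y hy := by rw [Finsupp.add_apply, ha y hy, hb y hy, add_zero]
  zero_mem' _ _ := rfl
  neg_mem' ha y hy := by rw [Finsupp.neg_apply, ha y hy, neg_zero]

theorem HA2_map_mem {p : X.Y → Prop} (x : {y // p y} →₀ ℤ) :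
    mapDomain Subtype.val x ∈ HA2_supp X p := fun y hy =>
  mapDomain_of_notMem_range _ _ (by rintro ⟨z, rfl⟩; exact hy z.2)

theorem HA2_exists {p : X.Y → Prop} {c : X.Y →₀ ℤ} (hc : c ∈ HA2_supp X p) :
    ∃ x : {y // p y} →₀ ℤ, mapDomain Subtype.val x = c := by
  refine ⟨_, mapDomain_comapDomain Subtype.val Subtype.val_injective c fun y hy => ?_⟩
  by_contra h
  exact Finsupp.mem_support_iff.1 hy (hc y fun h' => h ⟨⟨y, h'⟩, rfl⟩)

theorem HA2_val {p : X.Y → Prop} (hp : ∀ i ε y, p y → p (X.fc i ε y)) :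
    IsHom (X.sub p hp) X Subtype.val := fun _ _ _ => rfl

/-- The subcomplex of chains supported on a predicate. -/
noncomputable def HA2_cx (X : CS) (p : X.Y → Prop) (hp : ∀ i ε y, p y → p (X.fc i ε y)) : Cx :=
  (X.cx ℤ).sub (fun _ => HA2_supp X p) (fun _ => le_top) fun n c hc => by
    obtain ⟨x, rfl⟩ := HA2_exists hc
    have e := (HA2_val hp).comm (n + 1) x
    have h := HA2_map_mem ((X.sub p hp).d ℤ (n + 1) x)
    exact e ▸ h

theorem HA2_fg {p : X.Y → Prop} (hp : ∀ i ε y, p y → p (X.fc i ε y)) (h : (X.sub p hp).FT ℤ)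
    (n : ℕ) : (HA2_cx X p hp).FG n := by
  let f : Cx.Hom ((X.sub p hp).cx ℤ) (HA2_cx X p hp) :=
    ⟨fun _ => mapDomain.addMonoidHom (Subtype.val : {y // p y} → X.Y),
      fun _ x _ => HA2_map_mem x, fun n x _ => (HA2_val hp).comm (n + 1) x⟩
  refine Cx.FG.of_surj f (ft_iff.1 h n) fun z hz => ?_
  obtain ⟨x, hx⟩ := HA2_exists hz.1
  have hz2 : X.d ℤ n z = 0 := hz.2
  refine ⟨x, ⟨trivial, ?_⟩, ?_⟩
  · have e := (HA2_val hp).comm n x
    have e2 : mapDomain Subtype.val ((X.sub p hp).d ℤ n x) =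
        mapDomain Subtype.val (0 : {y // p y} →₀ ℤ) := by
      rw [mapDomain_zero]
      exact e.trans ((congrArg _ hx).trans hz2)
    exact mapDomain_injective Subtype.val_injective e2
  · have e : z - f.f n x = 0 := sub_eq_zero.2 hx.symm
    rw [e]
    exact zero_mem _

/-- Mayer-Vietoris. -/
theorem mv {p q : X.Y → Prop} (hp : ∀ i ε y, p y → p (X.fc i ε y))
    (hq : ∀ i ε y, q y → q (X.fc i ε y)) (h₁ : (X.sub p hp).FT ℤ) (h₂ : (X.sub q hq).FT ℤ)
    (h₃ : (X.sub (fun y => p y ∧ q y) fun i ε y h => ⟨hp i ε y h.1, hq i ε y h.2⟩).FT ℤ)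
    (hs : ∀ n (c : X.Y →₀ ℤ), X.d ℤ n c = 0 → ∃ c' : X.Y →₀ ℤ, (∀ y ∈ c'.support, p y ∨ q y) ∧
      c - c' ∈ (X.d ℤ (n + 1)).range) : X.FT ℤ := by
  classical
  have hr : ∀ i ε y, p y ∧ q y → p (X.fc i ε y) ∧ q (X.fc i ε y) :=
    fun i ε y h => ⟨hp i ε y h.1, hq i ε y h.2⟩
  have hu : ∀ i ε y, p y ∨ q y → p (X.fc i ε y) ∨ q (X.fc i ε y) :=
    fun i ε y h => h.imp (hp i ε y) (hq i ε y)
  let ι : Cx.Hom (HA2_cx X _ hr) ((HA2_cx X p hp).prod (HA2_cx X q hq)) :=
    ⟨fun _ => (AddMonoidHom.id (X.Y →₀ ℤ)).prod (-AddMonoidHom.id (X.Y →₀ ℤ)),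
      fun _ x hx => ⟨fun y hy => hx y fun h => hy h.1,
        neg_mem (s := HA2_supp X q) fun y hy => hx y fun h => hy h.2⟩,
      fun n x _ => Prod.ext rfl (map_neg (X.d ℤ (n + 1)) x).symm⟩
  let π : Cx.Hom ((HA2_cx X p hp).prod (HA2_cx X q hq)) (HA2_cx X _ hu) :=
    ⟨fun _ => (AddMonoidHom.id (X.Y →₀ ℤ)).coprod (AddMonoidHom.id (X.Y →₀ ℤ)),
      fun _ x hx => add_mem (s := HA2_supp X fun y => p y ∨ q y)
        (fun y hy => hx.1 y fun h => hy (Or.inl h)) (fun y hy => hx.2 y fun h => hy (Or.inr h)),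
      fun n x _ => (map_add (X.d ℤ (n + 1)) x.1 x.2).symm⟩
  have hses : Cx.SES ι π := by
    refine ⟨fun n x _ h => congrArg Prod.fst h, fun n (x : X.Y →₀ ℤ) _ => add_neg_cancel x, ?_, ?_⟩
    · rintro n ⟨a, b⟩ ⟨ha, hb⟩ h
      change X.Y →₀ ℤ at a b
      have h' : a + b = 0 := h
      have e : -a = b := neg_eq_of_add_eq_zero_right h'
      refine ⟨a, fun y hy => ?_, Prod.ext rfl e⟩
      by_cases h1 : p y
      · have h2 : b y = 0 := hb y fun h2 => hy ⟨h1, h2⟩
        rw [← e, Finsupp.neg_apply, neg_eq_zero] at h2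
        exact h2
      · exact ha y h1
    · intro n (z : X.Y →₀ ℤ) hz
      refine ⟨(z.filter p, z.filter fun y => ¬ p y), ⟨fun y hy => ?_, fun y hy => ?_⟩,
        Finsupp.filter_add_filter_not z p⟩
      · exact Finsupp.filter_apply_neg _ _ hy
      · by_cases h1 : p y
        · exact Finsupp.filter_apply_neg _ _ (not_not.2 h1)
        · exact (Finsupp.filter_apply_pos (fun y => ¬ p y) _ h1).trans
            (hz y fun h => h.elim h1 hy)
  let j : Cx.Hom (HA2_cx X _ hu) (X.cx ℤ) :=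
    ⟨fun _ => AddMonoidHom.id (X.Y →₀ ℤ), fun _ _ _ => trivial, fun _ _ _ => rfl⟩
  refine ft_iff.2 fun n => Cx.FG.of_surj j (Cx.ses_right hses
    ((HA2_fg hp h₁ n).prod (HA2_fg hq h₂ n)) fun m _ => HA2_fg hr h₃ m) ?_
  intro (z : X.Y →₀ ℤ) hz
  have hz2 : X.d ℤ n z = 0 := hz.2
  obtain ⟨c, hc, b, hb⟩ := hs n z hz2
  refine ⟨c, ⟨fun y hy => ?_, ?_⟩, b, trivial, hb⟩
  · by_contra h
    exact hy (hc y (Finsupp.mem_support_iff.2 h))
  · have e := d_d (X := X) n b
    rw [hb, map_sub, hz2, zero_sub, neg_eq_zero] at e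
    exact e

end CS

end RB
end

-- merged part: Pool.Agent.Work.MP_666b5d_gt.Sing
section
/-!
# Singular cubes modelled on the Hilbert cube

A singular cube in `Z` is a continuous map from `Q = ℕ → I`; the face `fc i ε` inserts `ε` in the
`i`-th place.  For a homotopy `H` the prism over `s` is `x ↦ H (s (tl x), x 0)`.
-/

open Set
open scoped unitInterval

namespace RB

/-- The Hilbert cube. -/
abbrev Q : Type := ℕ → I

/-- The end points of the interval. -/
def endI (ε : Bool) : I := if ε then 1 else 0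

/-- Insertion of a coordinate. -/
def ins (i : ℕ) (a : I) : C(Q, Q) :=
  ⟨fun x k => if k < i then x k else if k = i then a else x (k - 1), continuous_pi fun k => by
    split_ifs <;> fun_prop⟩

/-- Deletion of the first coordinate. -/
def tl : C(Q, Q) := ⟨fun x k => x (k + 1), by fun_prop⟩

theorem ins_ins {i j : ℕ} (h : i ≤ j) (a b : I) :
    (ins (j + 1) b).comp (ins i a) = (ins i a).comp (ins j b) := by
  ext1 x
  funext k
  simp only [ins, ContinuousMap.comp_apply, ContinuousMap.coe_mk]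
  split_ifs <;> first | rfl | omega

theorem tl_ins_zero (a : I) : tl.comp (ins 0 a) = ContinuousMap.id Q := by
  ext1 x
  rfl

theorem tl_ins_succ (i : ℕ) (a : I) : tl.comp (ins (i + 1) a) = (ins i a).comp tl := by
  ext1 x
  funext k
  simp only [ins, tl, ContinuousMap.comp_apply, ContinuousMap.coe_mk]
  split_ifs <;> first | rfl | omega | (congr 1; omega)

theorem ins_zero_zero (a : I) (x : Q) : ins 0 a x 0 = a := rfl

theorem ins_succ_zero (i : ℕ) (a : I) (x : Q) : ins (i + 1) a x 0 = x 0 := rfl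

/-- Singular cubes. -/
def Sing (Z : Type) [TopologicalSpace Z] : CS where
  Y := C(Q, Z)
  fc i ε s := s.comp (ins i (endI ε))
  fc_fc i j h ε δ s := by
    rw [ContinuousMap.comp_assoc, ContinuousMap.comp_assoc, ins_ins h]

variable {Z Z' : Type} [TopologicalSpace Z] [TopologicalSpace Z']

/-- The map of singular cubes induced by a continuous map. -/
def sMap (f : C(Z, Z')) : (Sing Z).Y → (Sing Z').Y := fun s => f.comp s

theorem sMap_hom (f : C(Z, Z')) : CS.IsHom _ _ (sMap f) := fun _ _ _ => rfl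

theorem sMap_hmlg {f g : C(Z, Z')} (h : f.Homotopic g) : CS.Hmlg _ _ (sMap f) (sMap g) := by
  obtain ⟨H⟩ := h
  refine CS.Htpy.hmlg (h := fun s : C(Q, Z) =>
    (⟨fun x => H (x 0, s (tl x)), by fun_prop⟩ : C(Q, Z'))) ⟨fun s => ?_, fun s => ?_, ?_⟩
  · exact ContinuousMap.ext fun x => H.apply_zero _
  · exact ContinuousMap.ext fun x => H.apply_one _
  · intro i ε s
    refine ContinuousMap.ext fun x => ?_
    exact congrArg (fun y => H (x 0, (show C(Q, Z) from s) y))
      (ContinuousMap.congr_fun (tl_ins_succ i (endI ε)) x)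

/-- The space has finitely generated homology. -/
def FTs (Z : Type) [TopologicalSpace Z] : Prop := (Sing Z).FT ℤ

theorem FTs.of_dom (f : C(Z, Z')) (g : C(Z', Z)) (h : (g.comp f).Homotopic (ContinuousMap.id Z))
    (hZ : FTs Z') : FTs Z := by
  have e1 : sMap (g.comp f) = sMap g ∘ sMap f := funext fun s => ContinuousMap.comp_assoc g f s
  have e2 : sMap (ContinuousMap.id Z) = id := funext fun s => ContinuousMap.id_comp s
  have k := sMap_hmlg h
  rw [e1, e2] at k
  exact CS.FT.of_dom (sMap_hom f) (sMap_hom g) k hZ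

theorem FTs.homeo (e : Z ≃ₜ Z') (hZ : FTs Z') : FTs Z := by
  refine FTs.of_dom (e : C(Z, Z')) (e.symm : C(Z', Z)) ?_ hZ
  rw [Homeomorph.symm_comp_toContinuousMap]

theorem FTs.of_subsingleton [Subsingleton Z] : FTs Z := by
  have : Finite (Sing Z).Y := inferInstanceAs (Finite C(Q, Z))
  exact CS.FT.of_finite

theorem FTs.of_contractible [ContractibleSpace Z] : FTs Z := by
  obtain ⟨e⟩ := ContractibleSpace.hequiv_unit Z
  exact FTs.of_dom e.toFun e.invFun e.left_inv FTs.of_subsingleton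

end RB
end

-- merged part: Pool.Agent.Work.MP_666b5d_gt.HA4
section
/-!
# A double complex argument

All the groups `C (p, q)` of the double complex equal `G`.  The total complex lives in `ℕ → G`
(indexed by `p`): `D n c p = dh (p + 1) (c (p + 1)) + (-1) ^ p • dv (n - p) (c p)` on
`S n = {c | ∀ p > n, c p = 0}`.

Proof plan.
(1) `Tot` has finitely generated homology: let `F k n = {c ∈ S n | c p = 0 unless n - p < k}`;
`F 0 = 0`, `F k = S n` for `k > n`, and `F k → F (k + 1) → row k` is short exact, where `row k` in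
degree `n` is `⊤` with differential `dh (n - k)` for `n ≥ k` and `⊥` for `n < k` (evaluate at
`p = n - k`).  Use `ses_mid`; homology in degree `n` only depends on `F k`, `k > n + 1`.
(2) Let `τ m n = {c ∈ S n | c p = 0 if n - p < m, and dv m (c p) = 0 if p + m = n}`, `τ 0 = S`.
Let `κ m n ≤ τ m n` be the subcomplex with `c p ∈ range (dv (m + 1))` for `p + m = n`.  Then
`κ m → τ m → (B.Y →₀ A m)[m]` is short exact (by `Φ m` at `p = n - m`), and `τ (m + 1) → κ m` is
injective on homology: if `x ∈ τ (m+1) n` is a cycle, `x = D y`, `y ∈ κ m (n + 1)`, write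
`y (n + 1 - m) = dv (m + 1) w` and replace `y` by `y - ± D (w at p = n + 1 - m)`.
(3) Induct on `m`: if `τ m` has finitely generated homology in all degrees then in degree `n = m`
the map to `H₀ (B; A m)` is onto, so `A m` is finitely generated (`CS.fg_of_zero`); then
`FT.coeff`, `ses_left` and `FG.of_inj` give the claim for `τ (m + 1)`.
-/

open Finsupp

namespace RB

/-- The data of the double complex. -/
structure HA4_DC (G : Type) [AddCommGroup G] where
  dh : ℕ → G →+ G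
  dv : ℕ → G →+ G
  h0 : dh 0 = 0
  v0 : dv 0 = 0
  hh : ∀ n x, dh n (dh (n + 1) x) = 0
  vv : ∀ n x, dv n (dv (n + 1) x) = 0
  hv : ∀ p q x, dh p (dv q x) = dv q (dh p x)

/-- One row, placed in degrees at least `k`. -/
@[reducible] def HA4_row {H : Type} [AddCommGroup H] (d : ℕ → H →+ H) (K : AddSubgroup H) (h0 : d 0 = 0)
    (hK : ∀ n, ∀ x ∈ K, d n x ∈ K) (dd : ∀ n x, d n (d (n + 1) x) = 0) (k : ℕ) : Cx where
  G := H
  d n := d (n - k)
  S n := if k ≤ n then K else ⊥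
  d0 x _ := by rw [Nat.zero_sub, h0]; rfl
  dS n x hx := by
    by_cases h : k ≤ n
    · rw [if_pos (h.trans n.le_succ)] at hx
      rw [if_pos h]
      exact hK _ x hx
    · rw [if_neg h, show n + 1 - k = 0 by omega, h0]
      exact AddSubgroup.mem_bot.2 rfl
  dd n x _ := by
    by_cases h : k ≤ n
    · rw [show n + 1 - k = n - k + 1 by omega]
      exact dd _ x
    · rw [show n - k = 0 by omega, h0]
      rfl

section row

variable {H : Type} [AddCommGroup H] {d : ℕ → H →+ H} {K : AddSubgroup H} {h0 : d 0 = 0}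
  {hK : ∀ n, ∀ x ∈ K, d n x ∈ K} {dd : ∀ n x, d n (d (n + 1) x) = 0} {k : ℕ}

theorem HA4_row_iff (j : ℕ) : (HA4_row d K h0 hK dd k).FG (j + k) ↔
    RelFG (K.map (d (j + 1))) (K ⊓ (d j).ker) := by
  simp only [Cx.FG, Cx.B, Cx.Z, HA4_row]
  rw [if_pos (by omega), if_pos (by omega), show j + k + 1 - k = j + 1 by omega,
    Nat.add_sub_cancel]

theorem HA4_row_fg (h : ∀ j, RelFG (K.map (d (j + 1))) (K ⊓ (d j).ker)) (n : ℕ) :
    (HA4_row d K h0 hK dd k).FG n := by
  by_cases hn : k ≤ n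
  · obtain ⟨j, rfl⟩ : ∃ j, n = j + k := ⟨n - k, by omega⟩
    exact (HA4_row_iff j).2 (h j)
  · refine RelFG.of_le fun x hx => ?_
    have h1 : x ∈ (if k ≤ n then K else ⊥) := hx.1
    rw [if_neg hn, AddSubgroup.mem_bot] at h1
    rw [h1]
    exact AddSubgroup.zero_mem _

theorem HA4_transfer {H' : Type} [AddCommGroup H'] {d' : ℕ → H' →+ H'} (θ : H' →+ H)
    (hi : Function.Injective θ) (hc : ∀ j x, θ (d' j x) = d j (θ x)) (j : ℕ) :
    RelFG (d' (j + 1)).range (d' j).ker ↔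
      RelFG (θ.range.map (d (j + 1))) (θ.range ⊓ (d j).ker) := by
  constructor
  · refine fun h => (h.map θ).mono ?_ ?_
    · rintro _ ⟨_, ⟨x, rfl⟩, rfl⟩
      exact ⟨θ x, ⟨x, rfl⟩, (hc _ x).symm⟩
    · rintro _ ⟨⟨x, rfl⟩, hx⟩
      exact ⟨x, hi (by rw [hc, map_zero]; exact hx), rfl⟩
  · refine fun h => RelFG.of_hom θ h (fun z hz => ⟨⟨z, rfl⟩, ?_⟩) (RelFG.of_le ?_)
    · have hz' : d' j z = 0 := hz
      change d j (θ z) = 0
      rw [← hc, hz', map_zero]
    · rintro z ⟨-, _, ⟨x, rfl⟩, e⟩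
      exact ⟨x, hi ((hc _ x).trans e)⟩

end row

namespace HA4_DC

variable {G : Type} [AddCommGroup G] (X : HA4_DC G)

/-- The total differential. -/
def D (n : ℕ) : (ℕ → G) →+ (ℕ → G) where
  toFun c p := X.dh (p + 1) (c (p + 1)) + (-1 : ℤ) ^ p • X.dv (n - p) (c p)
  map_zero' := by
    funext p
    simp
  map_add' c c' := by
    funext p
    simp only [Pi.add_apply, map_add, smul_add]
    abel

theorem D_apply (n : ℕ) (c : ℕ → G) (p : ℕ) :
    X.D n c p = X.dh (p + 1) (c (p + 1)) + (-1 : ℤ) ^ p • X.dv (n - p) (c p) := rfl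

theorem D_D (n : ℕ) (c : ℕ → G) : X.D n (X.D (n + 1) c) = 0 := by
  funext p
  have e : X.dv (n - p) (X.dv (n + 1 - p) (c p)) = 0 := by
    by_cases h : p ≤ n
    · rw [show n + 1 - p = n - p + 1 by omega]
      exact X.vv _ _
    · rw [show n - p = 0 by omega, X.v0]
      rfl
  simp only [D_apply, map_add, map_neg, map_zsmul, X.hh, X.hv, e, Nat.add_sub_add_right, pow_succ,
    smul_zero, add_zero, zero_add, mul_neg, mul_one, neg_smul, neg_add_cancel, Pi.zero_apply]

/-- Subcomplexes of the total complex. -/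
@[reducible] def cx (S : ℕ → AddSubgroup (ℕ → G)) (hS : ∀ c ∈ S 0, ∀ p, 0 < p → c p = 0)
    (hd : ∀ n, ∀ c ∈ S (n + 1), X.D (n + 1) c ∈ S n) : Cx where
  G := ℕ → G
  d := X.D
  S := S
  d0 c hc := by
    funext p
    rw [D_apply, hS c hc _ p.succ_pos, Nat.zero_sub, X.v0]
    simp
  dS := hd
  dd n c _ := X.D_D n c

/-- The filtration by rows. -/
def FS (k n : ℕ) : AddSubgroup (ℕ → G) where
  carrier := {c | ∀ p, n < p ∨ p + k ≤ n → c p = 0}
  zero_mem' _ _ := rfl
  add_mem' ha hb p hp := by rw [Pi.add_apply, ha p hp, hb p hp, add_zero]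
  neg_mem' ha p hp := by rw [Pi.neg_apply, ha p hp, neg_zero]

/-- The filtration by rows, as complexes. -/
@[reducible] def F (k : ℕ) : Cx := X.cx (FS k) (fun _ hc p hp => hc p (Or.inl hp)) fun n c hc p hp => by
  rw [D_apply, hc (p + 1) (by omega), map_zero, zero_add]
  rcases hp with hp | hp
  · rw [show n + 1 - p = 0 by omega, X.v0]
    simp
  · rw [hc p (by omega), map_zero, smul_zero]

/-- Evaluation at the row `k`. -/
def ev {H : Type} [AddCommGroup H] (π : G →+ H) (k n : ℕ) : (ℕ → G) →+ H :=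
  if k ≤ n then π.comp (Pi.evalAddMonoidHom (fun _ => G) (n - k)) else 0

theorem ev_pos {H : Type} [AddCommGroup H] (π : G →+ H) {k n : ℕ} (h : k ≤ n) (c : ℕ → G) :
    ev π k n c = π (c (n - k)) := by
  rw [ev, if_pos h]
  rfl

theorem ev_neg {H : Type} [AddCommGroup H] (π : G →+ H) {k n : ℕ} (h : ¬ k ≤ n) (c : ℕ → G) :
    ev π k n c = 0 := by
  rw [ev, if_neg h]
  rfl

theorem F_fg (rows : ∀ p, RelFG (X.dh (p + 1)).range (X.dh p).ker) (k : ℕ) :
    ∀ n, (X.F k).FG n := by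
  induction k with
  | zero =>
    refine fun n => RelFG.of_le fun c hc => ?_
    have : c = 0 := funext fun p => hc.1 p (by omega)
    rw [this]
    exact AddSubgroup.zero_mem _
  | succ k ih =>
    let R := HA4_row X.dh ⊤ X.h0 (fun _ _ _ => trivial) X.hh k
    let i : Cx.Hom (X.F k) (X.F (k + 1)) :=
      ⟨fun _ => AddMonoidHom.id _, fun n c hc p hp => hc p (by omega), fun _ _ _ => rfl⟩
    let π : Cx.Hom (X.F (k + 1)) R := ⟨ev (AddMonoidHom.id G) k, fun n c _ => by
      change ev (AddMonoidHom.id G) k n c ∈ (if k ≤ n then ⊤ else ⊥ : AddSubgroup G)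
      by_cases h : k ≤ n
      · rw [if_pos h]
        trivial
      · rw [if_neg h, ev_neg _ h]
        exact AddSubgroup.zero_mem _, fun n c hc => by
      change ev (AddMonoidHom.id G) k n (X.D (n + 1) c) =
        X.dh (n + 1 - k) (ev (AddMonoidHom.id G) k (n + 1) c)
      by_cases h : k ≤ n
      · rw [ev_pos _ h, ev_pos _ (h.trans n.le_succ), D_apply, hc (n - k) (by omega),
          show n + 1 - k = n - k + 1 by omega]
        simp
      · rw [ev_neg _ h, show n + 1 - k = 0 by omega, X.h0]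
        rfl⟩
    have hs : Cx.SES i π := ⟨fun _ _ _ h => h, fun n c hc => ?_, fun n c hc h => ⟨c, ?_, rfl⟩,
      fun n z hz => ?_⟩
    · refine fun n => Cx.ses_mid hs (ih n) (HA4_row_fg (fun j => ?_) n)
      rw [← AddMonoidHom.range_eq_map, top_inf_eq]
      exact rows j
    · change ev (AddMonoidHom.id G) k n c = 0
      by_cases h : k ≤ n
      · rw [ev_pos _ h]
        exact hc _ (by omega)
      · exact ev_neg _ h _
    · intro p hp
      by_cases e : p + k = n
      · have h' : ev (AddMonoidHom.id G) k n c = 0 := h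
        rw [ev_pos _ (by omega), show n - k = p by omega] at h'
        exact h'
      · exact hc p (by omega)
    · by_cases h : k ≤ n
      · refine ⟨Pi.single (n - k) z, fun p hp => Pi.single_eq_of_ne (by omega) _, ?_⟩
        exact (ev_pos _ h _).trans (Pi.single_eq_same _ _)
      · have hz' : z ∈ (if k ≤ n then ⊤ else ⊥ : AddSubgroup G) := hz
        rw [if_neg h, AddSubgroup.mem_bot] at hz'
        exact ⟨0, AddSubgroup.zero_mem _, (map_zero _).trans hz'.symm⟩

/-- The truncations. -/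
def TS (m : ℕ) (K : AddSubgroup G) (n : ℕ) : AddSubgroup (ℕ → G) where
  carrier := {c | (∀ p, n < p + m → c p = 0) ∧ ∀ p, p + m = n → c p ∈ K}
  zero_mem' := ⟨fun _ _ => rfl, fun _ _ => K.zero_mem⟩
  add_mem' ha hb := ⟨fun p hp => by rw [Pi.add_apply, ha.1 p hp, hb.1 p hp, add_zero],
    fun p hp => K.add_mem (ha.2 p hp) (hb.2 p hp)⟩
  neg_mem' ha := ⟨fun p hp => by rw [Pi.neg_apply, ha.1 p hp, neg_zero],
    fun p hp => K.neg_mem (ha.2 p hp)⟩

/-- The truncations, as complexes. -/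
@[reducible] def T (m : ℕ) (K : AddSubgroup G) (h1 : (X.dv (m + 1)).range ≤ K) (h2 : K ≤ (X.dv m).ker)
    (h3 : ∀ p, ∀ x ∈ K, X.dh p x ∈ K) : Cx :=
  X.cx (TS m K) (fun _ hc p hp => hc.1 p (by omega)) fun n c hc => ⟨fun p hp => by
    rw [D_apply, hc.1 (p + 1) (by omega), map_zero, zero_add]
    by_cases e : p + m = n + 1
    · have : X.dv m (c p) = 0 := h2 (hc.2 p e)
      rw [show n + 1 - p = m by omega, this, smul_zero]
    · rw [hc.1 p (by omega), map_zero, smul_zero], fun p hp => by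
    rw [D_apply, show n + 1 - p = m + 1 by omega]
    exact K.add_mem (h3 _ _ (hc.2 _ (by omega))) (K.zsmul_mem (h1 ⟨_, rfl⟩) _)⟩

theorem rk (m : ℕ) : (X.dv (m + 1)).range ≤ (X.dv m).ker := by
  rintro _ ⟨x, rfl⟩
  exact X.vv m x

theorem hr (m p : ℕ) : ∀ x ∈ (X.dv m).range, X.dh p x ∈ (X.dv m).range := by
  rintro _ ⟨x, rfl⟩
  exact ⟨_, (X.hv p m x).symm⟩

theorem hk (m p : ℕ) : ∀ x ∈ (X.dv m).ker, X.dh p x ∈ (X.dv m).ker := fun x hx => by
  have hx' : X.dv m x = 0 := hx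
  change X.dv m (X.dh p x) = 0
  rw [← X.hv, hx', map_zero]

/-- The truncation by cycles. -/
@[reducible] def τ (m : ℕ) : Cx := X.T m (X.dv m).ker (X.rk m) le_rfl (X.hk m)

/-- The truncation by boundaries. -/
@[reducible] def κ (m : ℕ) : Cx := X.T m (X.dv (m + 1)).range le_rfl (X.rk m) (X.hr (m + 1))

theorem τ_zero (rows : ∀ p, RelFG (X.dh (p + 1)).range (X.dh p).ker) (n : ℕ) : (X.τ 0).FG n := by
  refine RelFG.mono (X.F_fg rows (n + 2) n) ?_ ?_
  · rintro _ ⟨c, hc, rfl⟩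
    refine ⟨c, ⟨fun p hp => hc p (Or.inl hp), fun p _ => ?_⟩, rfl⟩
    change X.dv 0 (c p) = 0
    rw [X.v0]
    rfl
  · exact fun c hc => ⟨fun p hp => hc.1.1 p (by omega), hc.2⟩

theorem τ_succ (m n : ℕ) (h : (X.κ m).FG n) : (X.τ (m + 1)).FG n := by
  let i : Cx.Hom (X.τ (m + 1)) (X.κ m) := ⟨fun _ => AddMonoidHom.id _, fun n c hc =>
    ⟨fun p hp => hc.1 p (by omega), fun p hp => by
      rw [show (AddMonoidHom.id _ c : ℕ → G) p = 0 from hc.1 p (by omega)]
      exact AddSubgroup.zero_mem _⟩, fun _ _ _ => rfl⟩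
  refine Cx.FG.of_inj i h ?_
  rintro x hx ⟨y, hy, e⟩
  have e' : X.D (n + 1) y = x := e
  have key : ∀ y' : ℕ → G, (∀ p, n < p + m → y' p = 0) → X.D (n + 1) y' = x →
      x ∈ (X.τ (m + 1)).B n := fun y' a b => ⟨y', ⟨fun p hp => a p (by omega), fun p hp => by
    have c1 : x p = 0 := hx.1.1 p (by omega)
    rw [← b, D_apply, a (p + 1) (by omega), map_zero, zero_add,
      show n + 1 - p = m + 1 by omega] at c1
    change X.dv (m + 1) (y' p) = 0
    rcases neg_one_pow_eq_or ℤ p with s | s <;> simpa [s] using c1⟩, b⟩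
  by_cases hm : m ≤ n + 1
  · obtain ⟨q, hq⟩ : ∃ q, q + m = n + 1 := ⟨n + 1 - m, by omega⟩
    obtain ⟨w, hw⟩ := hy.2 q hq
    refine key (y - (-1 : ℤ) ^ q • X.D (n + 2) (Pi.single q w)) (fun p hp => ?_) ?_
    · rw [Pi.sub_apply, Pi.smul_apply, D_apply, Pi.single_eq_of_ne (by omega), map_zero, zero_add]
      by_cases c : p = q
      · subst c
        rw [Pi.single_eq_same, show n + 2 - p = m + 1 by omega, hw, smul_smul, ← mul_pow]
        simp
      · rw [Pi.single_eq_of_ne c, hy.1 p (by omega)]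
        simp
    · rw [map_sub, map_zsmul, X.D_D, smul_zero, sub_zero, e']
  · exact key y (fun p _ => hy.1 p (by omega)) e'

/-- The horizontal differential modulo vertical boundaries. -/
def dq (m p : ℕ) : G ⧸ (X.dv (m + 1)).range →+ G ⧸ (X.dv (m + 1)).range :=
  QuotientAddGroup.map _ _ (X.dh p) (X.hr (m + 1) p)

theorem dq_mk (m p : ℕ) (x : G) : X.dq m p (x : G ⧸ (X.dv (m + 1)).range) =
    (X.dh p x : G ⧸ (X.dv (m + 1)).range) := rfl

/-- The row of vertical homology groups. -/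
@[reducible] def R (m : ℕ) : Cx :=
  HA4_row (X.dq m) ((X.dv m).ker.map (QuotientAddGroup.mk' _))
    (by
      ext x
      simp [dq_mk, X.h0])
    (by
      rintro n _ ⟨x, hx, rfl⟩
      exact ⟨_, X.hk m n x hx, rfl⟩)
    (fun n x => QuotientAddGroup.induction_on x fun x => by
      rw [dq_mk, dq_mk, X.hh]
      rfl) m

theorem ses (m : ℕ) : ∃ (i : Cx.Hom (X.κ m) (X.τ m)) (π : Cx.Hom (X.τ m) (X.R m)),
    Cx.SES i π := by
  refine ⟨⟨fun _ => AddMonoidHom.id _, fun n c hc => ⟨hc.1, fun p hp => X.rk m (hc.2 p hp)⟩,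
    fun _ _ _ => rfl⟩, ⟨ev (QuotientAddGroup.mk' _) m, fun n c hc => ?_, fun n c hc => ?_⟩,
    fun _ _ _ h => h, fun n c hc => ?_, fun n c hc h => ⟨c, ⟨hc.1, fun p hp => ?_⟩, rfl⟩,
    fun n z hz => ?_⟩
  · change ev (QuotientAddGroup.mk' _) m n c ∈
      (if m ≤ n then (X.dv m).ker.map (QuotientAddGroup.mk' _) else ⊥)
    by_cases h : m ≤ n
    · rw [if_pos h, ev_pos _ h]
      exact ⟨_, hc.2 _ (by omega), rfl⟩
    · rw [if_neg h, ev_neg _ h]
      exact AddSubgroup.zero_mem _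
  · change ev (QuotientAddGroup.mk' _) m n (X.D (n + 1) c) =
      X.dq m (n + 1 - m) (ev (QuotientAddGroup.mk' _) m (n + 1) c)
    by_cases h : m ≤ n
    · rw [ev_pos _ h, ev_pos _ (h.trans n.le_succ), D_apply, show n + 1 - m = n - m + 1 by omega,
        show n + 1 - (n - m) = m + 1 by omega, map_add, map_zsmul]
      have : QuotientAddGroup.mk' (X.dv (m + 1)).range (X.dv (m + 1) (c (n - m))) = 0 :=
        (QuotientAddGroup.eq_zero_iff _).2 ⟨_, rfl⟩
      rw [this, smul_zero, add_zero]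
      rfl
    · rw [ev_neg _ h, show n + 1 - m = 0 by omega]
      refine QuotientAddGroup.induction_on (ev (QuotientAddGroup.mk' _) m (n + 1) c) fun x => ?_
      rw [dq_mk, X.h0]
      rfl
  · change ev (QuotientAddGroup.mk' (X.dv (m + 1)).range) m n c = 0
    by_cases h : m ≤ n
    · rw [ev_pos _ h]
      exact (QuotientAddGroup.eq_zero_iff _).2 (hc.2 _ (by omega))
    · exact ev_neg _ h _
  · have h' : ev (QuotientAddGroup.mk' (X.dv (m + 1)).range) m n c = 0 := h
    rw [ev_pos _ (by omega), show n - m = p by omega] at h'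
    exact (QuotientAddGroup.eq_zero_iff _).1 h'
  · have hz' : z ∈ (if m ≤ n then (X.dv m).ker.map (QuotientAddGroup.mk' (X.dv (m + 1)).range)
      else ⊥) := hz
    by_cases h : m ≤ n
    · rw [if_pos h] at hz'
      obtain ⟨x, hx, rfl⟩ := hz'
      refine ⟨Pi.single (n - m) x, ⟨fun p hp => Pi.single_eq_of_ne (by omega) _, fun p hp => ?_⟩,
        (ev_pos _ h _).trans (congrArg _ (Pi.single_eq_same _ _))⟩
      rw [show n - m = p by omega, Pi.single_eq_same]
      exact hx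
    · rw [if_neg h, AddSubgroup.mem_bot] at hz'
      exact ⟨0, AddSubgroup.zero_mem _, (map_zero _).trans hz'.symm⟩

end HA4_DC

theorem dc_fg {G : Type} [AddCommGroup G] (dh dv : ℕ → G →+ G) (h0 : dh 0 = 0) (v0 : dv 0 = 0)
    (hh : ∀ n x, dh n (dh (n + 1) x) = 0) (vv : ∀ n x, dv n (dv (n + 1) x) = 0)
    (hv : ∀ p q x, dh p (dv q x) = dv q (dh p x))
    (rows : ∀ p, RelFG (dh (p + 1)).range (dh p).ker) (B : CS) [Nonempty B.Y] (hB : B.FT ℤ)
    (A : ℕ → Type) [∀ q, AddCommGroup (A q)] (Φ : ∀ q, (dv q).ker →+ (B.Y →₀ A q))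
    (hs : ∀ q, Function.Surjective (Φ q))
    (hk : ∀ q (x : (dv q).ker), Φ q x = 0 ↔ x.1 ∈ (dv (q + 1)).range)
    (hc : ∀ p q (x y : (dv q).ker), y.1 = dh p x.1 → Φ q y = B.d (A q) p (Φ q x)) (q : ℕ) :
    AddGroup.FG (A q) := by
  let X : HA4_DC G := ⟨dh, dv, h0, v0, hh, vv, hv⟩
  have tr : ∀ m j, RelFG (B.d (A m) (j + 1)).range (B.d (A m) j).ker ↔ (X.R m).FG (j + m) := by
    intro m j
    let θ : (B.Y →₀ A m) →+ G ⧸ (dv (m + 1)).range := (Φ m).liftOfSurjective (hs m)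
      ⟨(QuotientAddGroup.mk' _).comp (dv m).ker.subtype, fun x hx =>
        (QuotientAddGroup.eq_zero_iff _).2 ((hk m x).1 hx)⟩
    have e : ∀ x, θ (Φ m x) = (x.1 : G ⧸ (dv (m + 1)).range) := fun x =>
      AddMonoidHom.liftOfRightInverse_comp_apply _ _ _ _ x
    have hi : Function.Injective θ := (injective_iff_map_eq_zero θ).2 fun z hz => by
      obtain ⟨x, rfl⟩ := hs m z
      rw [e] at hz
      exact (hk m x).2 ((QuotientAddGroup.eq_zero_iff _).1 hz)
    have hr : θ.range = (dv m).ker.map (QuotientAddGroup.mk' _) := by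
      ext z
      constructor
      · rintro ⟨z, rfl⟩
        obtain ⟨x, rfl⟩ := hs m z
        exact ⟨x.1, x.2, (e x).symm⟩
      · rintro ⟨x, hx, rfl⟩
        exact ⟨Φ m ⟨x, hx⟩, e _⟩
    rw [HA4_transfer (d := X.dq m) θ hi (fun j z => ?_) j, hr]
    · exact (HA4_row_iff j).symm
    · obtain ⟨x, rfl⟩ := hs m z
      rw [← hc j m x ⟨_, X.hk m j x.1 x.2⟩ rfl, e, e]
      rfl
  have st : ∀ m, (∀ n, (X.τ m).FG n) → AddGroup.FG (A m) := by
    intro m h
    obtain ⟨i, π, hS⟩ := X.ses m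
    have h1 := (tr m 0).2 (Cx.ses_right hS (h _) fun k hk => RelFG.of_le fun c hc => by
      have : c = 0 := funext fun p => hc.1.1 p (by omega)
      rw [this]
      exact AddSubgroup.zero_mem _)
    refine CS.fg_of_zero (X := B) (h1.mono le_rfl fun x _ => ?_)
    rw [CS.d_zero]
    rfl
  refine st q ?_
  induction q with
  | zero => exact X.τ_zero rows
  | succ m ih =>
    obtain ⟨i, π, hS⟩ := X.ses m
    refine fun n => X.τ_succ m n (Cx.ses_left hS (ih n) (HA4_row_fg (fun j => ?_) _))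
    exact (HA4_row_iff j).1 ((tr m j).1 (hB.coeff (st m ih) j))

end RB
end

-- merged part: Pool.Agent.Work.MP_666b5d_gt.HA5
section
/-!
# Bicubical objects fibred over a cubical object with trivial local system

Proof plan.  Apply `dc_fg` to `G = W →₀ ℤ`, `dh`, `dv` the differentials of the two cubical
structures and `A q = ker (F.d q) ⧸ range (F.d (q + 1))`.  For a chain `c` let `c_b` be its part
supported on the fibre over `b` (`Finsupp.subtypeDomain`; `dv` preserves the decomposition) and put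
`Φ q c = ∑ b, single b [mapDomain (φ b) c_b]`.  It suffices to check the hypotheses on chains
supported on one fibre.  Finish with `relFG_iff_quot`.
-/

open Finsupp

namespace RB

/-- The fibre of a projection that is invariant under the faces. -/
def CS.fib (V : CS) {T : Type} (π : V.Y → T) (hπ : ∀ j δ w, π (V.fc j δ w) = π w) (b : T) : CS :=
  V.sub (fun w => π w = b) fun j δ w h => (hπ j δ w).trans h

theorem HA5_d (X : CS) (A : Type) [AddCommGroup A] (n : ℕ) (c : X.Y →₀ A) : X.d A n c =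
    ∑ i ∈ Finset.range n, (-1 : ℤ) ^ i •
      (mapDomain (X.fc i false) c - mapDomain (X.fc i true) c) := by
  rw [CS.d, AddMonoidHom.finsetSum_apply]
  rfl

section

variable {V : CS} {T : Type} {π : V.Y → T} (hπ : ∀ j δ w, π (V.fc j δ w) = π w)

/-- Inclusion of the chains of a fibre. -/
noncomputable def HA5inc (b : T) : ((V.fib π hπ b).Y →₀ ℤ) →+ (V.Y →₀ ℤ) :=
  mapDomain.addMonoidHom Subtype.val

/-- Restriction of chains to a fibre. -/
noncomputable def HA5res (b : T) : (V.Y →₀ ℤ) →+ ((V.fib π hπ b).Y →₀ ℤ) :=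
  subtypeDomainAddMonoidHom

theorem HA5_inc_d (b : T) (q : ℕ) (c : (V.fib π hπ b).Y →₀ ℤ) :
    V.d ℤ q (HA5inc hπ b c) = HA5inc hπ b ((V.fib π hπ b).d ℤ q c) :=
  (CS.IsHom.comm (X := V.fib π hπ b) (X' := V) (f := Subtype.val) (fun _ _ _ => rfl) q c).symm

theorem HA5_res_inc (b : T) (c : (V.fib π hπ b).Y →₀ ℤ) : HA5res hπ b (HA5inc hπ b c) = c := by
  ext a
  exact mapDomain_apply Subtype.val_injective c a

theorem HA5_inc_ne {b : T} (c : (V.fib π hπ b).Y →₀ ℤ) {w : V.Y} (h : π w ≠ b) :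
    HA5inc hπ b c w = 0 := by
  refine mapDomain_of_notMem_range c w ?_
  rintro ⟨a, rfl⟩
  exact h a.2

theorem HA5_res_ne {b b' : T} (h : b' ≠ b) (c : (V.fib π hπ b).Y →₀ ℤ) :
    HA5res hπ b' (HA5inc hπ b c) = 0 := by
  ext a
  exact HA5_inc_ne hπ c fun e => h (a.2.symm.trans e)

theorem HA5_sum [DecidableEq T] (c : V.Y →₀ ℤ) :
    ∑ b ∈ c.support.image π, HA5inc hπ b (HA5res hπ b c) = c := by
  ext w
  have e : HA5inc hπ (π w) (HA5res hπ (π w) c) w = c w :=
    mapDomain_apply Subtype.val_injective (HA5res hπ (π w) c) ⟨w, rfl⟩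
  rw [Finsupp.finsetSum_apply, Finset.sum_eq_single (π w), e]
  · exact fun b _ hb => HA5_inc_ne hπ _ hb.symm
  · intro h
    rw [e]
    by_contra h'
    exact h (Finset.mem_image_of_mem π (mem_support_iff.2 h'))

theorem HA5_res_d (b : T) (q : ℕ) (c : V.Y →₀ ℤ) :
    HA5res hπ b (V.d ℤ q c) = (V.fib π hπ b).d ℤ q (HA5res hπ b c) := by
  classical
  rw [← HA5_sum hπ c]
  simp only [map_sum]
  refine Finset.sum_congr rfl fun b' _ => ?_
  rw [HA5_inc_d]
  by_cases h : b = b'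
  · subst h
    rw [HA5_res_inc, HA5_res_inc]
  · rw [HA5_res_ne hπ h, HA5_res_ne hπ h, map_zero]

theorem HA5_ind {q : ℕ} {P : (V.d ℤ q).ker → Prop} (h0 : P 0) (hadd : ∀ x y, P x → P y → P (x + y))
    (h1 : ∀ b (c : (V.fib π hπ b).Y →₀ ℤ) (_ : (V.fib π hπ b).d ℤ q c = 0) hx,
      P ⟨HA5inc hπ b c, hx⟩) (x : (V.d ℤ q).ker) : P x := by
  classical
  have hc : ∀ b, (V.fib π hπ b).d ℤ q (HA5res hπ b x.1) = 0 := fun b => by
    rw [← HA5_res_d, show V.d ℤ q x.1 = 0 from x.2, map_zero]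
  have hx : ∀ b, HA5inc hπ b (HA5res hπ b x.1) ∈ (V.d ℤ q).ker := fun b => by
    rw [AddMonoidHom.mem_ker, HA5_inc_d, hc, map_zero]
  have e : x = ∑ b ∈ x.1.support.image π, (⟨_, hx b⟩ : (V.d ℤ q).ker) :=
    Subtype.ext (by rw [AddSubmonoidClass.coe_finsetSum, HA5_sum])
  rw [e]
  exact Finset.sum_induction _ P hadd h0 fun b _ => h1 b _ (hc b) _

/-- The homology groups. -/
abbrev HA5H (F : CS) (q : ℕ) : Type :=
  (F.d ℤ q).ker ⧸ (F.d ℤ (q + 1)).range.addSubgroupOf (F.d ℤ q).ker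

theorem HA5_eq {F : CS} {q : ℕ} {x y : (F.d ℤ q).ker} (h : x.1 - y.1 ∈ (F.d ℤ (q + 1)).range) :
    (QuotientAddGroup.mk x : HA5H F q) = QuotientAddGroup.mk y :=
  (QuotientAddGroup.eq_iff_sub_mem).2 h

theorem HA5_Phi {F : CS} {φ : ∀ b, (V.fib π hπ b).Y → F.Y} (hφ : ∀ b, CS.IsHom _ _ (φ b)) (q : ℕ) :
    ∃ Φ : (V.d ℤ q).ker →+ (T →₀ HA5H F q), ∀ x b hz,
      Φ x b = QuotientAddGroup.mk ⟨mapDomain (φ b) (HA5res hπ b x.1), hz⟩ := by
  classical
  have hz : ∀ (x : (V.d ℤ q).ker) b, mapDomain (φ b) (HA5res hπ b x.1) ∈ (F.d ℤ q).ker :=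
    fun x b => by
      rw [AddMonoidHom.mem_ker, ← (hφ b).comm, ← HA5_res_d, show V.d ℤ q x.1 = 0 from x.2,
        map_zero, mapDomain_zero]
  refine ⟨AddMonoidHom.mk' (fun x => onFinset (x.1.support.image π)
    (fun b => QuotientAddGroup.mk ⟨_, hz x b⟩) fun b hb => ?_) fun x y => ?_, fun x b _ => rfl⟩
  · by_contra h
    refine hb (HA5_eq (y := 0) ?_)
    have e : HA5res hπ b x.1 = 0 := by
      ext a
      by_contra h'
      exact h (Finset.mem_image.2 ⟨a.1, mem_support_iff.2 h', a.2⟩)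
    simp [e]
  · ext b
    rw [Finsupp.add_apply, onFinset_apply, onFinset_apply, onFinset_apply,
      ← QuotientAddGroup.mk_add]
    refine congrArg _ (Subtype.ext ?_)
    simp only [AddSubgroup.coe_add, map_add, mapDomain_add]

end

theorem fib_FT (V : CS) (h : ℕ → Bool → V.Y → V.Y)
    (hh : ∀ i j, i ≤ j → ∀ ε δ y, h i ε (h (j + 1) δ y) = h j δ (h i ε y))
    (hv : ∀ i ε j δ w, h i ε (V.fc j δ w) = V.fc j δ (h i ε w))
    (rows : (CS.mk V.Y h hh).FT ℤ) (B F : CS) [Nonempty B.Y] (hB : B.FT ℤ) (π : V.Y → B.Y)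
    (πh : ∀ i ε w, π (h i ε w) = B.fc i ε (π w)) (πv : ∀ j δ w, π (V.fc j δ w) = π w)
    (φ : ∀ b, (V.fib π πv b).Y → F.Y) (ψ : ∀ b, F.Y → (V.fib π πv b).Y)
    (hφ : ∀ b, CS.IsHom _ _ (φ b)) (hψ : ∀ b, CS.IsHom _ _ (ψ b))
    (φψ : ∀ b, CS.Hmlg F F (φ b ∘ ψ b) id) (ψφ : ∀ b, CS.Hmlg _ _ (ψ b ∘ φ b) id)
    (nat : ∀ b i ε, CS.Hmlg (V.fib π πv b) F
      (fun w => φ (B.fc i ε b) ⟨h i ε w.1, (πh i ε w.1).trans (congrArg _ w.2)⟩) (φ b)) :
    F.FT ℤ := by
  classical
  choose Φ hΦ using HA5_Phi πv hφ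
  have hz : ∀ {q b} {c : (V.fib π πv b).Y →₀ ℤ}, (V.fib π πv b).d ℤ q c = 0 →
      mapDomain (φ b) c ∈ (F.d ℤ q).ker := fun {q b c} hc => by
    rw [AddMonoidHom.mem_ker, ← (hφ b).comm, hc, mapDomain_zero]
  have hzx : ∀ {q} (x : (V.d ℤ q).ker) b, (V.fib π πv b).d ℤ q (HA5res πv b x.1) = 0 :=
    fun {q} x b => by rw [← HA5_res_d, show V.d ℤ q x.1 = 0 from x.2, map_zero]
  have hinc : ∀ q b (c : (V.fib π πv b).Y →₀ ℤ) (hc : (V.fib π πv b).d ℤ q c = 0) hx,
      Φ q ⟨HA5inc πv b c, hx⟩ = single b (QuotientAddGroup.mk ⟨_, hz hc⟩) := by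
    intro q b c hc hx
    ext b'
    rw [hΦ q _ b' (hz (hzx _ b'))]
    by_cases e : b' = b
    · subst e
      rw [single_eq_same]
      exact congrArg _ (Subtype.ext (congrArg (mapDomain (φ b')) (HA5_res_inc πv _ c)))
    · rw [single_eq_of_ne e]
      refine HA5_eq (y := 0) ?_
      simp [HA5_res_ne πv e]
  have hcomm : ∀ i ε q (c : V.Y →₀ ℤ),
      mapDomain (h i ε) (V.d ℤ q c) = V.d ℤ q (mapDomain (h i ε) c) := fun i ε q c =>
    CS.IsHom.comm (X := V) (X' := V) (hv i ε) q c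
  have hker : ∀ i ε {q} (x : (V.d ℤ q).ker), mapDomain (h i ε) x.1 ∈ (V.d ℤ q).ker :=
    fun i ε {q} x => by
      rw [AddMonoidHom.mem_ker, ← hcomm, show V.d ℤ q x.1 = 0 from x.2, mapDomain_zero]
  have hface : ∀ i ε q (x : (V.d ℤ q).ker),
      Φ q ⟨_, hker i ε x⟩ = mapDomain (B.fc i ε) (Φ q x) := by
    intro i ε q x
    induction x using HA5_ind πv with
    | h0 =>
      rw [map_zero, mapDomain_zero]
      exact (congrArg _ (Subtype.ext (mapDomain_zero (f := h i ε)))).trans (map_zero _)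
    | hadd x y hx hy =>
      rw [map_add, mapDomain_add, ← hx, ← hy, ← map_add]
      exact congrArg _ (Subtype.ext mapDomain_add)
    | h1 b c hc hx =>
      let k : (V.fib π πv b).Y → (V.fib π πv (B.fc i ε b)).Y := fun w =>
        ⟨h i ε w.1, (πh i ε w.1).trans (congrArg _ w.2)⟩
      have hk : CS.IsHom _ _ k := fun j δ w => Subtype.ext (hv i ε j δ w.1)
      have hc' : (V.fib π πv (B.fc i ε b)).d ℤ q (mapDomain k c) = 0 := by
        rw [← hk.comm, hc, mapDomain_zero]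
      have e : mapDomain (h i ε) (HA5inc πv b c) = HA5inc πv _ (mapDomain k c) :=
        mapDomain_comp.symm.trans (mapDomain_comp (f := k) (g := Subtype.val))
      rw [hinc q b c hc, mapDomain_single]
      refine (congrArg _ (Subtype.ext e)).trans ((hinc q _ _ hc' (e ▸ hker i ε ⟨_, hx⟩)).trans ?_)
      refine congrArg _ (HA5_eq ?_)
      change mapDomain _ (mapDomain k c) - mapDomain (φ b) c ∈ _
      rw [← mapDomain_comp]
      exact nat b i ε q c hc
  intro n
  refine relFG_iff_quot.2 (dc_fg (G := V.Y →₀ ℤ) ((CS.mk V.Y h hh).d ℤ) (V.d ℤ)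
    (CS.d_zero (X := CS.mk V.Y h hh)) (CS.d_zero (X := V)) (CS.d_d (X := CS.mk V.Y h hh))
    (CS.d_d (X := V)) (fun p q x => ?_) rows B hB (HA5H F) Φ (fun q y => ?_) (fun q x => ⟨fun hx => ?_, ?_⟩)
    (fun p q x y e => ?_) n)
  · rw [HA5_d (CS.mk V.Y h hh), HA5_d (CS.mk V.Y h hh), map_sum]
    refine Finset.sum_congr rfl fun i _ => ?_
    rw [map_zsmul, map_sub, ← hcomm, ← hcomm]
  · induction y using Finsupp.induction_linear with
    | zero => exact ⟨0, map_zero _⟩
    | add y y' hy hy' =>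
      obtain ⟨x, rfl⟩ := hy
      obtain ⟨x', rfl⟩ := hy'
      exact ⟨x + x', map_add _ _ _⟩
    | single b a =>
      obtain ⟨z, rfl⟩ := QuotientAddGroup.mk_surjective a
      have hc : (V.fib π πv b).d ℤ q (mapDomain (ψ b) z.1) = 0 := by
        rw [← (hψ b).comm, show F.d ℤ q z.1 = 0 from z.2, mapDomain_zero]
      refine ⟨⟨HA5inc πv b (mapDomain (ψ b) z.1), by
        rw [AddMonoidHom.mem_ker, HA5_inc_d, hc, map_zero]⟩, (hinc q b _ hc _).trans ?_⟩
      refine congrArg _ (HA5_eq ?_)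
      have := φψ b q z.1 z.2
      rwa [mapDomain_id, mapDomain_comp] at this
  · rw [← HA5_sum πv x.1]
    refine sum_mem fun b _ => ?_
    have h1 : Φ q x b = 0 := by rw [hx]; rfl
    rw [hΦ q x b (hz (hzx x b)), QuotientAddGroup.eq_zero_iff] at h1
    obtain ⟨u, hu⟩ := h1
    obtain ⟨u', hu'⟩ := ψφ b q _ (hzx x b)
    rw [mapDomain_id, mapDomain_comp] at hu'
    refine ⟨HA5inc πv b (mapDomain (ψ b) u - u'), ?_⟩
    rw [HA5_inc_d, map_sub, ← (hψ b).comm, hu, hu']
    exact congrArg _ (sub_sub_cancel _ _)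
  · rintro ⟨y, hy⟩
    ext b
    rw [hΦ q x b (hz (hzx x b))]
    refine (QuotientAddGroup.eq_zero_iff _).2 ⟨mapDomain (φ b) (HA5res πv b y), ?_⟩
    rw [← (hφ b).comm, ← HA5_res_d, hy]
    rfl
  · have e' : y = ∑ i ∈ Finset.range p, (-1 : ℤ) ^ i •
        ((⟨_, hker i false x⟩ : (V.d ℤ q).ker) - ⟨_, hker i true x⟩) :=
      Subtype.ext (by rw [e, HA5_d, AddSubmonoidClass.coe_finsetSum]; rfl)
    rw [e', HA5_d, map_sum]
    refine Finset.sum_congr rfl fun i _ => ?_
    rw [map_zsmul, map_sub, hface, hface]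

end RB
end

-- merged part: Pool.Agent.Work.MP_666b5d_gt.MV
section
/-!
# Small chains and the Mayer-Vietoris principle

Proof plan.  For `s ∈ I` let `φL s t = t (1 + s) / 2`, `φR s t = (1 + s) / 2 + t (1 - s) / 2`,
`φC s t = (1 + s) / 2`, with signs `+, +, -`.  For a word `w : Fin n → {L, R, C}` let
`θ n w (s, x) k = φ_{w k} s (x k)` for `k < n` and `s * x k` for `k ≥ n`.  Let
`sd n σ = ∑ w, sign w • σ ∘ θ n w (0, ·)` and `h n σ = ∑ w, sign w • (x ↦ σ (θ n w (x 0, tl x)))`.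
Because `φL s 0 = 0`, `φR s 0 = φC s = φL s 1`, `φR s 1 = 1`, taking the face `i < n` of `sd n σ`
(resp. `i + 1` of `h n σ`) gives `sd (n - 1)` (resp. `h (n - 1)`) of the face `i` of `σ`; at `s = 1`
one has `φL = id`, `φR = φC = 1`, so the face `0, true` of `h n σ` is `σ`.  Hence for a cycle `c` of
degree `n`, `sd n c` is a cycle and `sd n c - c = d (h n c)`.  (One may also build `sd` and `h` as
products of commuting one-coordinate operators.)  After `m ≥ 1` iterations each cube is `σ`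
composed with a map whose image lies in `{x | x k = 0 for k ≥ n}` and has diameter `≤ 2 ^ (-m)` in
each of the first `n` coordinates; conclude with the Lebesgue number lemma, and then `CS.mv`
(the subobject of cubes with range in `U` is isomorphic to `Sing U`, `FT.of_bij`).
-/

open Set
open scoped unitInterval

namespace RB

variable {Z : Type} [TopologicalSpace Z]

theorem MV_mul_cont {X : Type} [TopologicalSpace X] {f g : X → I} (hf : Continuous f)
    (hg : Continuous g) : Continuous fun x => f x * g x :=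
  continuous_induced_rng.2 ((continuous_subtype_val.comp hf).mul (continuous_subtype_val.comp hg))

/-- One half. -/
noncomputable def MV_half : I := ⟨1 / 2, by norm_num, by norm_num⟩

/-- The moving point of subdivision. -/
noncomputable def MV_C : C(I × I, I) :=
  ⟨fun p => σ (σ p.1 * MV_half), unitInterval.continuous_symm.comp
    (MV_mul_cont (unitInterval.continuous_symm.comp continuous_fst) continuous_const)⟩

/-- The left piece. -/
noncomputable def MV_L : C(I × I, I) :=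
  ⟨fun p => p.2 * MV_C p, MV_mul_cont continuous_snd MV_C.continuous⟩

/-- The right piece. -/
noncomputable def MV_R : C(I × I, I) :=
  ⟨fun p => σ (σ p.2 * σ (MV_C p)), unitInterval.continuous_symm.comp
    (MV_mul_cont (unitInterval.continuous_symm.comp continuous_snd)
      (unitInterval.continuous_symm.comp MV_C.continuous))⟩

theorem MV_C_val (s t : I) : (MV_C (s, t) : ℝ) = 1 - (1 - s) * (1 / 2) := rfl

theorem MV_L_val (s t : I) : (MV_L (s, t) : ℝ) = t * (1 - (1 - s) * (1 / 2)) := rfl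

theorem MV_R_val (s t : I) : (MV_R (s, t) : ℝ) = 1 - (1 - t) * (1 - (1 - (1 - s) * (1 / 2))) := rfl

/-- A new first coordinate. -/
def MV_cons (φ : C(I × I, I)) (θ : C(I × Q, Q)) : C(I × Q, Q) :=
  ⟨fun p k => Nat.casesOn k (φ (p.1, p.2 0)) fun j => θ (p.1, tl p.2) j, by
    refine continuous_pi fun k => ?_
    cases k with
    | zero => exact φ.continuous.comp (continuous_fst.prodMk ((continuous_apply 0).comp continuous_snd))
    | succ j => exact (continuous_apply j).comp (θ.continuous.comp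
        (continuous_fst.prodMk (tl.continuous.comp continuous_snd)))⟩

theorem MV_cons_zero (φ : C(I × I, I)) (θ : C(I × Q, Q)) (p : I × Q) :
    MV_cons φ θ p 0 = φ (p.1, p.2 0) := rfl

theorem MV_cons_succ (φ : C(I × I, I)) (θ : C(I × Q, Q)) (p : I × Q) (j : ℕ) :
    MV_cons φ θ p (j + 1) = θ (p.1, tl p.2) j := rfl

/-- The scaling map. -/
noncomputable def MV_z : C(I × Q, Q) :=
  ⟨fun p k => p.1 * p.2 k, continuous_pi fun k =>
    MV_mul_cont continuous_fst ((continuous_apply k).comp continuous_snd)⟩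

/-- The formal sum of all the pieces of the moving subdivision. -/
noncomputable def MV_T : ℕ → (C(I × Q, Q) →₀ ℤ)
  | 0 => Finsupp.single MV_z 1
  | n + 1 => Finsupp.mapDomain (MV_cons MV_L) (MV_T n) + Finsupp.mapDomain (MV_cons MV_R) (MV_T n)
      - Finsupp.mapDomain (MV_cons MV_C) (MV_T n)

theorem MV_map_T {W : Type} (f : C(I × Q, Q) → W) (n : ℕ) :
    Finsupp.mapDomain f (MV_T (n + 1)) = Finsupp.mapDomain (f ∘ MV_cons MV_L) (MV_T n)
      + Finsupp.mapDomain (f ∘ MV_cons MV_R) (MV_T n)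
      - Finsupp.mapDomain (f ∘ MV_cons MV_C) (MV_T n) := by
  rw [MV_T, Finsupp.mapDomain_sub, Finsupp.mapDomain_add, ← Finsupp.mapDomain_comp,
    ← Finsupp.mapDomain_comp, ← Finsupp.mapDomain_comp]

/-- A face in the source. -/
def MV_A (i : ℕ) (a : I) (θ : C(I × Q, Q)) : C(I × Q, Q) :=
  θ.comp ((ContinuousMap.id I).prodMap (ins i a))

/-- A face in the target. -/
def MV_B (i : ℕ) (a : I) (θ : C(I × Q, Q)) : C(I × Q, Q) := (ins i a).comp θ

theorem MV_tl0 (a : I) (x : Q) : tl (ins 0 a x) = x :=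
  ContinuousMap.congr_fun (tl_ins_zero a) x

theorem MV_tl1 (i : ℕ) (a : I) (x : Q) : tl (ins (i + 1) a x) = ins i a (tl x) :=
  ContinuousMap.congr_fun (tl_ins_succ i a) x

theorem MV_A_zero (a : I) {φ ψ : C(I × I, I)} (h : ∀ s, φ (s, a) = ψ (s, a)) :
    MV_A 0 a ∘ MV_cons φ = MV_A 0 a ∘ MV_cons ψ := by
  funext θ
  ext p k
  cases k with
  | zero => exact congrArg _ (h p.1)
  | succ j => rfl

theorem MV_A_zero' (a : I) {φ : C(I × I, I)} (h : ∀ s, φ (s, a) = a) :
    MV_A 0 a ∘ MV_cons φ = MV_B 0 a := by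
  funext θ
  ext p k
  cases k with
  | zero => exact congrArg _ (h p.1)
  | succ j =>
    change (θ (p.1, tl (ins 0 a p.2)) j : ℝ) = tl (ins 0 a (θ p)) j
    rw [MV_tl0, MV_tl0]

theorem MV_A_succ (i : ℕ) (a : I) (φ : C(I × I, I)) :
    MV_A (i + 1) a ∘ MV_cons φ = MV_cons φ ∘ MV_A i a := by
  funext θ
  ext p k
  cases k with
  | zero => rfl
  | succ j =>
    change (θ (p.1, tl (ins (i + 1) a p.2)) j : ℝ) = θ (p.1, ins i a (tl p.2)) j
    rw [MV_tl1]

theorem MV_B_succ (i : ℕ) (a : I) (φ : C(I × I, I)) :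
    MV_B (i + 1) a ∘ MV_cons φ = MV_cons φ ∘ MV_B i a := by
  funext θ
  ext p k
  cases k with
  | zero => rfl
  | succ j =>
    change (tl (ins (i + 1) a (MV_cons φ θ p)) j : ℝ) = ins i a (θ (p.1, tl p.2)) j
    rw [MV_tl1]
    rfl

theorem MV_face (ε : Bool) (n : ℕ) : ∀ i ≤ n, Finsupp.mapDomain (MV_A i (endI ε)) (MV_T (n + 1)) =
    Finsupp.mapDomain (MV_B i (endI ε)) (MV_T n) := by
  have h0 : ∀ n, Finsupp.mapDomain (MV_A 0 (endI ε)) (MV_T (n + 1)) =
      Finsupp.mapDomain (MV_B 0 (endI ε)) (MV_T n) := by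
    intro n
    rw [MV_map_T]
    cases ε with
    | false =>
      rw [MV_A_zero' (φ := MV_L) _ fun s => Subtype.ext (by rw [MV_L_val]; simp [endI]),
        MV_A_zero (φ := MV_R) (ψ := MV_C) _ fun s => Subtype.ext (by
          rw [MV_R_val, MV_C_val]; simp [endI]), add_sub_cancel_right]
    | true =>
      rw [MV_A_zero' (φ := MV_R) _ fun s => Subtype.ext (by rw [MV_R_val]; simp [endI]),
        MV_A_zero (φ := MV_L) (ψ := MV_C) _ fun s => Subtype.ext (by
          rw [MV_L_val, MV_C_val]; simp [endI]), add_sub_cancel_left]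
  induction n with
  | zero =>
    intro i hi
    obtain rfl : i = 0 := Nat.le_zero.1 hi
    exact h0 0
  | succ n ih =>
    intro i hi
    cases i with
    | zero => exact h0 _
    | succ j =>
      have h1 := ih j (Nat.le_of_succ_le_succ hi)
      rw [MV_map_T _ (n + 1), MV_map_T (MV_B (j + 1) (endI ε)) n]
      simp only [MV_A_succ, MV_B_succ, Finsupp.mapDomain_comp, h1]

/-- A time slice. -/
def MV_at (s : I) (θ : C(I × Q, Q)) : C(Q, Q) :=
  θ.comp ((ContinuousMap.const Q s).prodMk (ContinuousMap.id Q))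

theorem MV_one (n : ℕ) :
    Finsupp.mapDomain (MV_at 1) (MV_T n) = Finsupp.single (ContinuousMap.id Q) 1 := by
  induction n with
  | zero =>
    rw [MV_T, Finsupp.mapDomain_single]
    congr 1
    ext x k
    change ((1 * x k : I) : ℝ) = x k
    rw [one_mul]
  | succ n ih =>
    have e1 : MV_at 1 ∘ MV_cons MV_R = MV_at 1 ∘ MV_cons MV_C := by
      funext θ
      ext x k
      cases k with
      | zero =>
        change (MV_R (1, x 0) : ℝ) = MV_C (1, x 0)
        rw [MV_R_val, MV_C_val]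
        simp
      | succ j => rfl
    have e2 : MV_at 1 ∘ MV_cons MV_L = (fun ψ : C(Q, Q) =>
        MV_at 1 (MV_cons MV_L (ψ.comp ContinuousMap.snd))) ∘ MV_at 1 := rfl
    rw [MV_map_T, e1, add_sub_cancel_right, e2, Finsupp.mapDomain_comp, ih,
      Finsupp.mapDomain_single]
    congr 1
    ext x k
    cases k with
    | zero =>
      change (MV_L (1, x 0) : ℝ) = x 0
      rw [MV_L_val]
      simp
    | succ j => rfl

/-- Contraction by the factor `r` in the first `n` coordinates, the others are killed. -/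
def MV_Lip (n : ℕ) (r : ℝ) (ψ : C(Q, Q)) : Prop :=
  (∀ x y δ, (∀ k < n, dist (x k) (y k) ≤ δ) → ∀ k < n, dist (ψ x k) (ψ y k) ≤ r * δ) ∧
    ∀ x, ∀ k, n ≤ k → ψ x k = 0

theorem MV_Lip.comp {n : ℕ} {r r' : ℝ} {ψ ψ' : C(Q, Q)} (h : MV_Lip n r ψ) (h' : MV_Lip n r' ψ') :
    MV_Lip n (r * r') (ψ.comp ψ') :=
  ⟨fun x y δ hd k hk => by
    rw [mul_assoc]
    exact h.1 _ _ _ (h'.1 x y δ hd) k hk, fun x k hk => h.2 _ k hk⟩

theorem MV_Lip_cons {n : ℕ} {φ : C(I × I, I)} {θ : C(I × Q, Q)}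
    (hφ : ∀ t t', dist (φ (0, t)) (φ (0, t')) ≤ 1 / 2 * dist t t')
    (h : MV_Lip n (1 / 2) (MV_at 0 θ)) : MV_Lip (n + 1) (1 / 2) (MV_at 0 (MV_cons φ θ)) := by
  refine ⟨fun x y δ hd k hk => ?_, fun x k hk => ?_⟩
  · cases k with
    | zero =>
      exact (hφ (x 0) (y 0)).trans (mul_le_mul_of_nonneg_left (hd 0 hk) (by norm_num))
    | succ j =>
      exact h.1 (tl x) (tl y) δ (fun l hl => hd (l + 1) (Nat.succ_lt_succ hl)) j
        (Nat.lt_of_succ_lt_succ hk)
  · cases k with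
    | zero => exact absurd hk (by omega)
    | succ j => exact h.2 (tl x) j (Nat.le_of_succ_le_succ hk)

theorem MV_T_Lip (n : ℕ) : ∀ θ ∈ (MV_T n).support, MV_Lip n (1 / 2) (MV_at 0 θ) := by
  classical
  induction n with
  | zero =>
    intro θ hθ
    obtain rfl : θ = MV_z := Finset.mem_singleton.1 (Finsupp.support_single_subset hθ)
    exact ⟨fun _ _ _ _ k hk => absurd hk (Nat.not_lt_zero k), fun x k _ => zero_mul (x k)⟩
  | succ n ih =>
    have key : ∀ φ : C(I × I, I), (∀ t t', dist (φ (0, t)) (φ (0, t')) ≤ 1 / 2 * dist t t') →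
        ∀ θ ∈ (Finsupp.mapDomain (MV_cons φ) (MV_T n)).support,
          MV_Lip (n + 1) (1 / 2) (MV_at 0 θ) := by
      intro φ hφ θ hθ
      obtain ⟨θ', h1, rfl⟩ := Finset.mem_image.1 (Finsupp.mapDomain_support hθ)
      exact MV_Lip_cons hφ (ih θ' h1)
    intro θ hθ
    rcases Finset.mem_union.1 (Finsupp.support_sub hθ) with h | h
    · rcases Finset.mem_union.1 (Finsupp.support_add h) with h | h
      · refine key _ (fun t t' => le_of_eq ?_) θ h
        have e : (MV_L (0, t) : ℝ) - MV_L (0, t') = 1 / 2 * ((t : ℝ) - t') := by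
          rw [MV_L_val, MV_L_val]
          simp only [Icc.coe_zero]
          ring
        rw [Subtype.dist_eq, Subtype.dist_eq, Real.dist_eq, Real.dist_eq, e, abs_mul,
          abs_of_pos (show (0 : ℝ) < 1 / 2 by norm_num)]
      · refine key _ (fun t t' => le_of_eq ?_) θ h
        have e : (MV_R (0, t) : ℝ) - MV_R (0, t') = 1 / 2 * ((t : ℝ) - t') := by
          rw [MV_R_val, MV_R_val]
          simp only [Icc.coe_zero]
          ring
        rw [Subtype.dist_eq, Subtype.dist_eq, Real.dist_eq, Real.dist_eq, e, abs_mul,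
          abs_of_pos (show (0 : ℝ) < 1 / 2 by norm_num)]
    · refine key _ (fun t t' => ?_) θ h
      change dist (MV_C (0, t)) (MV_C (0, t)) ≤ _
      rw [dist_self]
      positivity

/-- The action of a formal sum of reparametrisations on chains. -/
noncomputable def MV_act (Φ : C(Q, Q) →₀ ℤ) : (C(Q, Z) →₀ ℤ) →+ (C(Q, Z) →₀ ℤ) :=
  Finsupp.liftAddHom fun s => zmultiplesHom _ (Finsupp.mapDomain s.comp Φ)

theorem MV_act_single (Φ : C(Q, Q) →₀ ℤ) (s : C(Q, Z)) (a : ℤ) :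
    MV_act Φ (Finsupp.single s a) = a • Finsupp.mapDomain s.comp Φ := by
  simp [MV_act]

theorem MV_map_act (Φ : C(Q, Q) →₀ ℤ) (e : C(Q, Q)) (c : C(Q, Z) →₀ ℤ) :
    Finsupp.mapDomain (fun s => s.comp e) (MV_act Φ c) =
      MV_act (Finsupp.mapDomain (fun ψ => ψ.comp e) Φ) c := by
  induction c using Finsupp.induction_linear with
  | zero => simp
  | add f g hf hg => rw [map_add, map_add, Finsupp.mapDomain_add, hf, hg]
  | single s a =>
    rw [MV_act_single, MV_act_single, Finsupp.mapDomain_smul, ← Finsupp.mapDomain_comp,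
      ← Finsupp.mapDomain_comp]
    rfl

theorem MV_act_map (Φ : C(Q, Q) →₀ ℤ) (e : C(Q, Q)) (c : C(Q, Z) →₀ ℤ) :
    MV_act Φ (Finsupp.mapDomain (fun s => s.comp e) c) =
      MV_act (Finsupp.mapDomain e.comp Φ) c := by
  induction c using Finsupp.induction_linear with
  | zero => simp
  | add f g hf hg => rw [Finsupp.mapDomain_add, map_add, map_add, hf, hg]
  | single s a =>
    rw [Finsupp.mapDomain_single, MV_act_single, MV_act_single, ← Finsupp.mapDomain_comp]
    rfl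

theorem MV_act_id (c : C(Q, Z) →₀ ℤ) : MV_act (Finsupp.single (ContinuousMap.id Q) 1) c = c := by
  induction c using Finsupp.induction_linear with
  | zero => simp
  | add f g hf hg => rw [map_add, hf, hg]
  | single s a => simp [MV_act_single]

theorem MV_act_supp (Φ : C(Q, Q) →₀ ℤ) (c : C(Q, Z) →₀ ℤ) {t : C(Q, Z)}
    (ht : t ∈ (MV_act Φ c).support) : ∃ s ∈ c.support, ∃ ψ ∈ Φ.support, t = s.comp ψ := by
  classical
  have h1 : t ∈ (c.sum fun s a => a • Finsupp.mapDomain s.comp Φ).support := ht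
  obtain ⟨s, hs, h2⟩ := Finset.mem_biUnion.1 (Finsupp.support_sum h1)
  obtain ⟨ψ, hψ, rfl⟩ := Finset.mem_image.1 (Finsupp.mapDomain_support (Finsupp.support_smul h2))
  exact ⟨s, hs, ψ, hψ, rfl⟩

/-- The prism. -/
def MV_pr (θ : C(I × Q, Q)) : C(Q, Q) := θ.comp (ContinuousMap.prodMk ⟨fun x => x 0, by fun_prop⟩ tl)

theorem MV_d_apply (n : ℕ) (c : C(Q, Z) →₀ ℤ) : (Sing Z).d ℤ n c =
    ∑ i ∈ Finset.range n, (-1 : ℤ) ^ i • (Finsupp.mapDomain (fun s => s.comp (ins i (endI false))) c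
      - Finsupp.mapDomain (fun s => s.comp (ins i (endI true))) c) := by
  rw [CS.d, AddMonoidHom.finsetSum_apply]
  rfl

theorem MV_pr_zero (a : I) (n : ℕ) (c : C(Q, Z) →₀ ℤ) :
    Finsupp.mapDomain (fun s => s.comp (ins 0 a)) (MV_act (Finsupp.mapDomain MV_pr (MV_T n)) c) =
      MV_act (Finsupp.mapDomain (MV_at a) (MV_T n)) c := by
  have e : (fun ψ : C(Q, Q) => ψ.comp (ins 0 a)) ∘ MV_pr = MV_at a := by
    funext θ
    ext x k
    change (θ (a, tl (ins 0 a x)) k : ℝ) = θ (a, x) k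
    rw [MV_tl0]
  rw [MV_map_act, ← Finsupp.mapDomain_comp, e]

theorem MV_pr_succ (ε : Bool) {i n : ℕ} (h : i ≤ n) (c : C(Q, Z) →₀ ℤ) :
    Finsupp.mapDomain (fun s => s.comp (ins (i + 1) (endI ε)))
      (MV_act (Finsupp.mapDomain MV_pr (MV_T (n + 1))) c) =
      MV_act (Finsupp.mapDomain MV_pr (MV_T n))
        (Finsupp.mapDomain (fun s => s.comp (ins i (endI ε))) c) := by
  have e1 : (fun ψ : C(Q, Q) => ψ.comp (ins (i + 1) (endI ε))) ∘ MV_pr =
      MV_pr ∘ MV_A i (endI ε) := by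
    funext θ
    ext x k
    change (θ (x 0, tl (ins (i + 1) (endI ε) x)) k : ℝ) = θ (x 0, ins i (endI ε) (tl x)) k
    rw [MV_tl1]
  have e2 : (ins i (endI ε)).comp ∘ MV_pr = MV_pr ∘ MV_B i (endI ε) := rfl
  rw [MV_map_act, MV_act_map, ← Finsupp.mapDomain_comp, ← Finsupp.mapDomain_comp, e1, e2,
    Finsupp.mapDomain_comp, Finsupp.mapDomain_comp, MV_face ε n i h]

theorem MV_d_pr (n : ℕ) (c : C(Q, Z) →₀ ℤ) (hc : (Sing Z).d ℤ n c = 0) :
    (Sing Z).d ℤ (n + 1) (MV_act (Finsupp.mapDomain MV_pr (MV_T n)) c) =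
      MV_act (Finsupp.mapDomain (MV_at 0) (MV_T n)) c - c := by
  rw [MV_d_apply, Finset.sum_range_succ', pow_zero, one_smul, MV_pr_zero, MV_pr_zero]
  have e1 : endI true = 1 := rfl
  have e0 : endI false = 0 := rfl
  rw [e1, MV_one, MV_act_id, ← e1, add_eq_right.2]
  · rfl
  cases n with
  | zero => rfl
  | succ n =>
    have h1 := (congrArg (MV_act (Finsupp.mapDomain MV_pr (MV_T n)))
      ((MV_d_apply _ c).symm.trans hc)).trans (map_zero (MV_act (Z := Z) _))
    rw [map_sum] at h1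
    rw [← neg_eq_zero, ← Finset.sum_neg_distrib, ← h1]
    refine Finset.sum_congr rfl fun i hi => ?_
    have hi' : i ≤ n := Nat.le_of_lt_succ (Finset.mem_range.1 hi)
    rw [MV_pr_succ false hi', MV_pr_succ true hi', map_zsmul, map_sub, pow_succ, mul_neg, mul_one,
      neg_smul, neg_neg]

theorem MV_iter (n : ℕ) (c : C(Q, Z) →₀ ℤ) (hc : (Sing Z).d ℤ n c = 0) (m : ℕ) :
    ∃ c' : C(Q, Z) →₀ ℤ, (∀ t ∈ c'.support, ∃ s ∈ c.support, ∃ ψ,
      MV_Lip n ((1 / 2) ^ (m + 1)) ψ ∧ t = s.comp ψ) ∧ (Sing Z).d ℤ n c' = 0 ∧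
      c - c' ∈ ((Sing Z).d ℤ (n + 1)).range := by
  classical
  have step : ∀ c : C(Q, Z) →₀ ℤ, (Sing Z).d ℤ n c = 0 → ∃ c' : C(Q, Z) →₀ ℤ,
      (∀ t ∈ c'.support, ∃ s ∈ c.support, ∃ ψ, MV_Lip n (1 / 2) ψ ∧ t = s.comp ψ) ∧
      (Sing Z).d ℤ n c' = 0 ∧ c - c' ∈ ((Sing Z).d ℤ (n + 1)).range := by
    intro c hc
    have h1 := MV_d_pr n c hc
    refine ⟨MV_act (Finsupp.mapDomain (MV_at 0) (MV_T n)) c, fun t ht => ?_, ?_, ?_⟩
    · obtain ⟨s, hs, ψ, hψ, rfl⟩ := MV_act_supp _ _ ht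
      obtain ⟨θ, hθ, rfl⟩ := Finset.mem_image.1 (Finsupp.mapDomain_support hψ)
      exact ⟨s, hs, _, MV_T_Lip n θ hθ, rfl⟩
    · have h2 := CS.d_d (X := Sing Z) n (MV_act (Finsupp.mapDomain MV_pr (MV_T n)) c)
      rw [h1] at h2
      have h3 := (map_sub ((Sing Z).d ℤ n) _ c).symm.trans h2
      exact (sub_eq_zero.1 h3).trans hc
    · rw [← neg_sub]
      exact neg_mem ⟨_, h1⟩
  induction m with
  | zero => simpa only [zero_add, pow_one] using step c hc
  | succ m ih =>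
    obtain ⟨c₁, h1, h2, h3⟩ := ih
    obtain ⟨c₂, h4, h5, h6⟩ := step c₁ h2
    refine ⟨c₂, fun t ht => ?_, h5, ?_⟩
    · obtain ⟨s, hs, ψ, hψ, rfl⟩ := h4 t ht
      obtain ⟨s', hs', ψ', hψ', rfl⟩ := h1 s hs
      exact ⟨s', hs', ψ'.comp ψ, by rw [pow_succ]; exact hψ'.comp hψ, rfl⟩
    · rw [← sub_add_sub_cancel c c₁ c₂]
      exact add_mem h3 h6

theorem MV_leb {U V : Set Z} (hU : IsOpen U) (hV : IsOpen V) (hUV : U ∪ V = univ) (n : ℕ)
    (s : C(Q, Z)) : ∀ᶠ m in Filter.atTop, ∀ ψ, MV_Lip n ((1 / 2) ^ (m + 1)) ψ →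
      (∀ x, s (ψ x) ∈ U) ∨ ∀ x, s (ψ x) ∈ V := by
  let j : (Fin n → I) → Q := fun y k => if h : k < n then y ⟨k, h⟩ else 0
  have hj : Continuous j := by
    refine continuous_pi fun k => ?_
    by_cases h : k < n
    · simp only [j, dif_pos h]
      exact continuous_apply _
    · simp only [j, dif_neg h]
      exact continuous_const
  obtain ⟨δ, hδ, hb⟩ := lebesgue_number_lemma_of_metric (isCompact_univ (X := Fin n → I))
    (c := fun b : Bool => (s ∘ j) ⁻¹' (if b then U else V))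
    (fun b => IsOpen.preimage (s.continuous.comp hj) (by cases b <;> simpa)) (fun y _ => by
      rcases (hUV.symm ▸ mem_univ (s (j y)) : s (j y) ∈ U ∪ V) with h | h
      · exact mem_iUnion.2 ⟨true, h⟩
      · exact mem_iUnion.2 ⟨false, h⟩)
  have ht : Filter.Tendsto (fun m : ℕ => (1 / 2 : ℝ) ^ (m + 1)) Filter.atTop (nhds 0) :=
    (tendsto_pow_atTop_nhds_zero_of_lt_one (by norm_num) (by norm_num)).comp
      (Filter.tendsto_add_atTop_nat 1)
  filter_upwards [ht.eventually (gt_mem_nhds hδ)] with m hm ψ hψ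
  obtain ⟨b, hb⟩ := hb (fun k => ψ 0 k) trivial
  have key : ∀ x, s (ψ x) ∈ (if b then U else V) := by
    intro x
    have e : ψ x = j fun k => ψ x k := by
      funext k
      by_cases h : k < n
      · simp only [j, dif_pos h]
      · simp only [j, dif_neg h]
        exact hψ.2 x k (not_lt.1 h)
    rw [e]
    refine @hb (fun k => ψ x k) ((dist_pi_lt_iff hδ).2 fun k => lt_of_le_of_lt ?_ hm)
    have h1 := hψ.1 x 0 1 (fun l _ => ?_) k k.2
    · rwa [mul_one] at h1
    · rw [Subtype.dist_eq, Real.dist_eq]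
      change |(x l : ℝ) - 0| ≤ 1
      rw [sub_zero, abs_of_nonneg (x l).2.1]
      exact (x l).2.2
  cases b with
  | true => exact Or.inl key
  | false => exact Or.inr key

theorem MV_sub {W : Set Z} {p : (Sing Z).Y → Prop} (hp : ∀ i ε y, p y → p ((Sing Z).fc i ε y))
    (hW : ∀ s : C(Q, Z), p s ↔ ∀ x, s x ∈ W) (h : FTs W) : ((Sing Z).sub p hp).FT ℤ := by
  refine (CS.FT.of_bij (X := Sing W) (X' := (Sing Z).sub p hp) (f := fun t : C(Q, W) =>
    (⟨(⟨Subtype.val, continuous_subtype_val⟩ : C(W, Z)).comp t, (hW _).2 fun x => (t x).2⟩ :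
      {y // p y}))
    (fun _ _ _ => rfl) ⟨fun t t' e => ?_, fun s => ?_⟩).1 h
  · exact ContinuousMap.ext fun x =>
      Subtype.ext (ContinuousMap.congr_fun (congrArg Subtype.val e) x)
  · exact ⟨(⟨fun x => ⟨(show C(Q, Z) from s.1) x, (hW _).1 s.2 x⟩,
      (show C(Q, Z) from s.1).continuous.subtype_mk _⟩ : C(Q, W)), rfl⟩

theorem small_chains {U V : Set Z} (hU : IsOpen U) (hV : IsOpen V) (hUV : U ∪ V = univ) (n : ℕ)
    (c : (Sing Z).Y →₀ ℤ) (hc : (Sing Z).d ℤ n c = 0) :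
    ∃ c' : (Sing Z).Y →₀ ℤ,
      (∀ s ∈ c'.support, (∀ x, (show C(Q, Z) from s) x ∈ U) ∨ ∀ x, (show C(Q, Z) from s) x ∈ V) ∧
      c - c' ∈ ((Sing Z).d ℤ (n + 1)).range := by
  obtain ⟨m, hm⟩ := ((Filter.eventually_all_finset c.support).2
    fun s _ => MV_leb hU hV hUV n s).exists
  obtain ⟨c', h1, -, h2⟩ := MV_iter n c hc m
  refine ⟨c', fun t ht => ?_, h2⟩
  obtain ⟨s, hs, ψ, hψ, rfl⟩ := h1 t ht
  exact hm s hs ψ hψ

theorem FTs.mv {U V : Set Z} (hU : IsOpen U) (hV : IsOpen V) (hUV : U ∪ V = univ) (h₁ : FTs U)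
    (h₂ : FTs V) (h₃ : FTs (U ∩ V : Set Z)) : FTs Z := by
  exact CS.mv (X := Sing Z) (p := fun s => ∀ x, (show C(Q, Z) from s) x ∈ U)
    (q := fun s => ∀ x, (show C(Q, Z) from s) x ∈ V) (fun _ _ _ h x => h _) (fun _ _ _ h x => h _)
    (MV_sub _ (fun _ => Iff.rfl) h₁) (MV_sub _ (fun _ => Iff.rfl) h₂)
    (MV_sub _ (fun _ => forall_and.symm) h₃) (small_chains hU hV hUV)

end RB
end

-- merged part: Pool.Agent.Work.MP_666b5d_gt.SphFT
section
/-!
# Spheres have finitely generated homology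

Proof plan.  `P l = {x : Fin l → ℝ // x ≠ 0}`.  `P 0` is empty; `P (l + 1)` is the union of the
complements of the two closed rays on the first axis, both star-shaped with respect to `± e₀`
(`StarConvex.contractibleSpace`), and their intersection `ℝ × P l` is dominated by `P l`.
`OnePoint B` is the union of `B` and the complement of `0`; the latter is contracted to `∞` by
`(x, t) ↦ (1 - t)⁻¹ • x`, and the intersection is `P l`.
-/

open Set
open scoped unitInterval

namespace RB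

theorem SphFT_mv {Z : Type} [TopologicalSpace Z] {U V : Set Z} (hU : IsOpen U) (hV : IsOpen V)
    (h₁ : FTs U) (h₂ : FTs V) (h₃ : FTs (U ∩ V : Set Z)) : FTs (U ∪ V : Set Z) := by
  have e : Topology.IsEmbedding (Subtype.val : (U ∪ V : Set Z) → Z) := .subtypeVal
  refine FTs.mv (U := Subtype.val ⁻¹' U) (V := Subtype.val ⁻¹' V)
    (hU.preimage continuous_subtype_val) (hV.preimage continuous_subtype_val)
    (eq_univ_of_forall fun x => x.2) ?_ ?_ ?_
  · exact FTs.homeo (e.homeomorphOfSubsetRange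
      (by rw [Subtype.range_coe]; exact subset_union_left)) h₁
  · exact FTs.homeo (e.homeomorphOfSubsetRange
      (by rw [Subtype.range_coe]; exact subset_union_right)) h₂
  · exact FTs.homeo (e.homeomorphOfSubsetRange (s := U ∩ V)
      (by rw [Subtype.range_coe]; exact inter_subset_left.trans subset_union_left)) h₃

/-- The complement of a closed ray. -/
def SphFT_ray (l : ℕ) (s : ℝ) : Set (Fin (l + 1) → ℝ) := {x | 0 < s * x 0 ∨ Fin.tail x ≠ 0}

theorem SphFT_open (l : ℕ) (s : ℝ) : IsOpen (SphFT_ray l s) :=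
  IsOpen.union (s₁ := {x : Fin (l + 1) → ℝ | 0 < s * x 0})
    (s₂ := {x : Fin (l + 1) → ℝ | Fin.tail x ≠ 0})
    (isOpen_lt continuous_const (by fun_prop))
    (isOpen_ne_fun continuous_id.finTail continuous_const)

theorem SphFT_retract {Z Z' : Type} [TopologicalSpace Z] [TopologicalSpace Z'] (f : Z → Z')
    (g : Z' → Z) (hf : Continuous f) (hg : Continuous g) (h : ∀ x, g (f x) = x) (hZ : FTs Z') :
    FTs Z := by
  refine FTs.of_dom ⟨f, hf⟩ ⟨g, hg⟩ ?_ hZ
  rw [show (⟨g, hg⟩ : C(Z', Z)).comp ⟨f, hf⟩ = ContinuousMap.id Z from ContinuousMap.ext h]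

theorem SphFT_star (l : ℕ) {s : ℝ} (hs : s ≠ 0) : FTs (SphFT_ray l s) := by
  have h0 : 0 < s * s := mul_self_pos.2 hs
  have hc : StarConvex ℝ (Fin.cons s 0 : Fin (l + 1) → ℝ) (SphFT_ray l s) := by
    intro y hy a b ha hb hab
    rcases hb.eq_or_lt with rfl | hb'
    · left
      simp only [Pi.add_apply, Pi.smul_apply, Fin.cons_zero, smul_eq_mul]
      nlinarith
    rcases hy with hy | hy
    · left
      simp only [Pi.add_apply, Pi.smul_apply, Fin.cons_zero, smul_eq_mul]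
      nlinarith [mul_nonneg ha h0.le, mul_pos hb' hy]
    · right
      intro h
      refine hy (funext fun i => ?_)
      simpa [Fin.tail, hb'.ne'] using congrFun h i
  have := hc.contractibleSpace ⟨Fin.cons s 0, Or.inl (by simpa using hs)⟩
  exact FTs.of_contractible

theorem SphFT_inter (l : ℕ) (h : FTs {x : Fin l → ℝ // x ≠ 0}) :
    FTs {x : Fin (l + 1) → ℝ | Fin.tail x ≠ 0} := by
  refine FTs.of_dom (Z' := {x : Fin l → ℝ // x ≠ 0})
    ⟨fun x => ⟨Fin.tail x.1, x.2⟩, (continuous_subtype_val.finTail).subtype_mk _⟩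
    ⟨fun y => ⟨Fin.cons 0 y.1, y.2⟩, Continuous.subtype_mk
      (Continuous.finCons (A := fun _ => ℝ) continuous_const continuous_subtype_val) _⟩
    ⟨⟨⟨fun p => ⟨Fin.cons (p.1 * p.2.1 0) (Fin.tail p.2.1), p.2.2⟩, ?_⟩, fun x => ?_,
      fun x => ?_⟩⟩ h
  · exact Continuous.subtype_mk (Continuous.finCons (A := fun _ => ℝ)
      ((continuous_subtype_val.comp continuous_fst).mul
        ((continuous_apply 0).comp (continuous_subtype_val.comp continuous_snd)))
      (continuous_subtype_val.comp continuous_snd).finTail) _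
  · simp
  · simp

theorem fts_punct (l : ℕ) : FTs {x : Fin l → ℝ // x ≠ 0} := by
  induction l with
  | zero => exact FTs.of_subsingleton
  | succ l ih =>
    have e1 : SphFT_ray l 1 ∩ SphFT_ray l (-1) = {x | Fin.tail x ≠ 0} := by
      ext x
      constructor
      · rintro ⟨h | h, h' | h'⟩
        · linarith
        all_goals assumption
      · exact fun h => ⟨Or.inr h, Or.inr h⟩
    have e2 : SphFT_ray l 1 ∪ SphFT_ray l (-1) = {x | x ≠ 0} := by
      ext x
      constructor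
      · rintro ((h | h) | (h | h)) rfl
        · simp at h
        · exact h rfl
        · simp at h
        · exact h rfl
      · intro hx
        by_cases h : Fin.tail x = 0
        · rcases lt_trichotomy (x 0) 0 with h0 | h0 | h0
          · exact Or.inr (Or.inl (by linarith))
          · refine absurd (funext fun i => ?_) hx
            exact Fin.cases h0 (fun j => congrFun h j) i
          · exact Or.inl (Or.inl (by linarith))
        · exact Or.inl (Or.inr h)
    have := SphFT_mv (SphFT_open l 1) (SphFT_open l (-1)) (SphFT_star l one_ne_zero)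
      (SphFT_star l (by norm_num)) (by rw [e1]; exact SphFT_inter l ih)
    rw [e2] at this
    exact this

theorem fts_sphere (B : Type) [NormedAddCommGroup B] [NormedSpace ℝ B] [FiniteDimensional ℝ B] :
    FTs (OnePoint B) := by
  refine FTs.homeo (onePointEquivSphereOfFinrankEq (ι := Fin (Module.finrank ℝ B + 1))
    (Fintype.card_fin _).symm) ?_
  generalize Module.finrank ℝ B + 1 = n
  have hn : ∀ y : {x : Fin n → ℝ // x ≠ 0}, ‖WithLp.toLp 2 y.1‖ ≠ 0 := fun y h =>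
    y.2 (by simpa using h)
  have h1 : ∀ x : Metric.sphere (0 : EuclideanSpace ℝ (Fin n)) 1, x.1.ofLp ≠ 0 := fun x h =>
    ne_zero_of_mem_unit_sphere x (by simpa using h)
  have h2 : ∀ y : {x : Fin n → ℝ // x ≠ 0}, ‖WithLp.toLp 2 y.1‖⁻¹ • WithLp.toLp 2 y.1 ∈
      Metric.sphere (0 : EuclideanSpace ℝ (Fin n)) 1 := fun y => by
    rw [mem_sphere_zero_iff_norm, norm_smul, norm_inv, norm_norm, inv_mul_cancel₀ (hn y)]
  have h3 : Continuous fun y : {x : Fin n → ℝ // x ≠ 0} =>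
      ‖WithLp.toLp 2 y.1‖⁻¹ • WithLp.toLp 2 y.1 :=
    Continuous.fun_smul (Continuous.inv₀ (by fun_prop) hn) (by fun_prop)
  refine SphFT_retract (fun x => ⟨x.1.ofLp, h1 x⟩) (fun y => ⟨_, h2 y⟩)
    (Continuous.subtype_mk (by fun_prop) _) (h3.subtype_mk _) (fun x => Subtype.ext ?_)
    (fts_punct n)
  simp

end RB
end

-- merged part: Pool.Agent.Work.MP_666b5d_gt.Freud2A
section
/-!
# Inversion coordinates on the complement of a point, and homotopies on a half space
-/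

open Set Filter Topology OnePoint
open scoped unitInterval

namespace RB

section inv

variable {V : Type} [NormedAddCommGroup V] [NormedSpace ℝ V]

/-- Inversion in the unit sphere. -/
noncomputable def Freud2_j (w : V) : V := (‖w‖ ^ 2)⁻¹ • w

theorem Freud2_j_norm (w : V) : ‖Freud2_j w‖ = ‖w‖⁻¹ := by
  rw [Freud2_j, norm_smul, norm_inv, norm_pow, norm_norm]
  by_cases h : ‖w‖ = 0
  · simp [h]
  · field_simp

theorem Freud2_j_j (w : V) : Freud2_j (Freud2_j w) = w := by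
  by_cases h : w = 0
  · simp [Freud2_j, h]
  · have h' : ‖w‖ ≠ 0 := norm_ne_zero_iff.2 h
    rw [Freud2_j, Freud2_j_norm, Freud2_j, smul_smul]
    have : (‖w‖⁻¹ ^ 2)⁻¹ * (‖w‖ ^ 2)⁻¹ = 1 := by field_simp
    rw [this, one_smul]

theorem Freud2_j_ne {w : V} (h : w ≠ 0) : Freud2_j w ≠ 0 := by
  rw [← norm_ne_zero_iff, Freud2_j_norm]
  exact inv_ne_zero (norm_ne_zero_iff.2 h)

theorem Freud2_j_cont {w : V} (h : w ≠ 0) : ContinuousAt (Freud2_j : V → V) w :=
  ((continuous_norm.pow 2).continuousAt.inv₀ (pow_ne_zero 2 (norm_ne_zero_iff.2 h))).smul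
    continuousAt_id

/-- The coordinate on the complement of `c`. -/
noncomputable def Freud2_io (c : V) (a : OnePoint V) : V := a.elim 0 fun z => Freud2_j (z - c)

open Classical in
/-- The inverse of the coordinate. -/
noncomputable def Freud2_ka (c : V) (w : V) : OnePoint V :=
  if w = 0 then ∞ else ((c + Freud2_j w : V) : OnePoint V)

theorem Freud2_io_infty (c : V) : Freud2_io c ∞ = 0 := rfl

theorem Freud2_io_coe (c z : V) : Freud2_io c z = Freud2_j (z - c) := rfl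

theorem Freud2_ka_zero (c : V) : Freud2_ka c 0 = ∞ := if_pos rfl

theorem Freud2_ka_io (c : V) {a : OnePoint V} (ha : a ≠ c) : Freud2_ka c (Freud2_io c a) = a := by
  induction a using OnePoint.rec with
  | infty => exact Freud2_ka_zero c
  | coe z =>
    have hz : z - c ≠ 0 := fun h => ha (by rw [sub_eq_zero.1 h])
    rw [Freud2_io_coe, Freud2_ka, if_neg (Freud2_j_ne hz), Freud2_j_j, add_sub_cancel]

theorem Freud2_ka_cont (c : V) : Continuous (Freud2_ka c) := by
  refine cont_of_open (W := {0}ᶜ) isOpen_compl_singleton ?_ (fun w hw => ?_) fun K hK => ?_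
  · refine ContinuousOn.congr (f := fun w => ((c + Freud2_j w : V) : OnePoint V))
      (fun w hw => ?_) fun w hw => if_neg hw
    exact (continuous_coe.continuousAt.comp
      (continuousAt_const.add (Freud2_j_cont hw))).continuousWithinAt
  · exact if_pos (not_not.1 hw)
  · obtain ⟨R, hR, h⟩ := hK.isBounded.subset_ball_lt 0 c
    refine ⟨{w | R⁻¹ ≤ ‖w‖}, isClosed_le continuous_const continuous_norm, fun w hw e => ?_,
      fun w y e hy => ?_⟩
    · rw [mem_singleton_iff.1 e, mem_ofPred_eq, norm_zero] at hw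
      exact absurd hw (not_le.2 (inv_pos.2 hR))
    · rw [Freud2_ka] at e
      split_ifs at e with hw
      · exact absurd e (infty_ne_coe y)
      · have h1 := h hy
        rw [← coe_eq_coe.1 e, mem_ball_iff_norm, add_sub_cancel_left, Freud2_j_norm] at h1
        exact (inv_lt_comm₀ (norm_pos_iff.2 hw) hR).1 h1 |>.le

variable [ProperSpace V]

theorem Freud2_io_cont (c : V) {a : OnePoint V} (ha : a ≠ c) : ContinuousAt (Freud2_io c) a := by
  induction a using OnePoint.rec with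
  | infty =>
    rw [continuousAt_infty', Freud2_io_infty, coclosedCompact_eq_cocompact,
      tendsto_zero_iff_norm_tendsto_zero]
    have h : Tendsto (fun z : V => ‖z - c‖) (cocompact V) atTop := by
      simpa only [dist_eq_norm] using tendsto_dist_right_cocompact_atTop c
    exact h.inv_tendsto_atTop.congr fun z => (Freud2_j_norm (z - c)).symm
  | coe z =>
    have hz : z - c ≠ 0 := fun h => ha (by rw [sub_eq_zero.1 h])
    rw [continuousAt_coe]
    exact ContinuousAt.comp (f := fun z : V => z - c) (Freud2_j_cont hz) (by fun_prop)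

theorem Freud2_io_comp {Z : Type} [TopologicalSpace Z] (c : V) {a : Z → OnePoint V}
    (ha : Continuous a) (hc : ∀ z, a z ≠ c) : Continuous fun z => Freud2_io c (a z) :=
  continuous_iff_continuousAt.2 fun z => (Freud2_io_cont c (hc z)).comp ha.continuousAt

theorem Freud2_io_tend {Z : Type} (c : V) {a : Z → OnePoint V} {l : Filter Z}
    (ha : Tendsto a l (𝓝 ∞)) : Tendsto (fun z => Freud2_io c (a z)) l (𝓝 0) :=
  (Freud2_io_cont c (infty_ne_coe c)).tendsto.comp ha

end inv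

section czero

variable {V X : Type} [NormedAddCommGroup V] [NormedSpace ℝ V] [TopologicalSpace X]

/-- A function vanishing at infinity on `X × I`, cut off in the direction of the line. -/
theorem Freud2_cut {u : X × I → V} (h0 : Tendsto u (cocompact _) (𝓝 0)) :
    Tendsto (fun p : (X × ℝ) × I => max (1 - |p.1.2|) 0 • u (p.1.1, p.2)) (cocompact _) (𝓝 0) := by
  rw [NormedAddGroup.tendsto_nhds_zero] at h0 ⊢
  intro ε hε
  obtain ⟨C, hC, h⟩ := hasBasis_cocompact.eventually_iff.1 (h0 ε hε)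
  refine hasBasis_cocompact.eventually_iff.2
    ⟨((Prod.fst '' C) ×ˢ Icc (-1) 1) ×ˢ univ,
      ((hC.image continuous_fst).prod isCompact_Icc).prod isCompact_univ, fun p hp => ?_⟩
  by_cases h1 : |p.1.2| ≤ 1
  · have h2 : (p.1.1, p.2) ∉ C := fun h2 => hp ⟨⟨⟨_, h2, rfl⟩, abs_le.1 h1⟩, trivial⟩
    refine lt_of_le_of_lt ?_ (h h2)
    rw [norm_smul, Real.norm_of_nonneg (le_max_right _ _)]
    refine mul_le_of_le_one_left (norm_nonneg _) (max_le ?_ zero_le_one)
    linarith [abs_nonneg p.1.2]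
  · rw [max_eq_right (by linarith [not_le.1 h1]), zero_smul, norm_zero]
    exact hε

theorem Freud2_bdd {Z : Type} {l : Filter Z} {r : Z → ℝ} (hr : ∀ z, |r z| ≤ 1) {u : Z → V}
    (hu : Tendsto u l (𝓝 0)) : Tendsto (fun z => r z • u z) l (𝓝 0) := by
  refine squeeze_zero_norm (fun z => ?_) (tendsto_zero_iff_norm_tendsto_zero.1 hu)
  rw [norm_smul]
  exact mul_le_of_le_one_left (norm_nonneg _) (hr z)

variable [ProperSpace V]

/-- Two maps that miss `c` on a half space are homotopic there, extending a given homotopy on the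
boundary that misses `c`. -/
theorem Freud2_half (c : V) (f G : BM (X × ℝ) V) (K : BM (X × I) V) {r : ℝ → ℝ}
    (hr : Continuous r) (hr0 : r 0 = 0) (hf : ∀ x s, f.f (x, r s) ≠ c)
    (hG : ∀ x s, G.f (x, r s) ≠ c) (hK : ∀ p, K.f p ≠ c) (h0 : ∀ x, K.f (x, 0) = f.f (x, 0))
    (h1 : ∀ x, K.f (x, 1) = G.f (x, 0)) :
    ∃ H : (X × ℝ) × I → OnePoint V, Continuous H ∧
      Tendsto H (cocompact _ ⊓ 𝓟 {p | r p.1.2 = p.1.2}) (𝓝 ∞) ∧
      (∀ x s, H ((x, s), 0) = f.f (x, r s)) ∧ (∀ x s, H ((x, s), 1) = G.f (x, r s)) ∧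
      ∀ x τ, H ((x, 0), τ) = K.f (x, τ) := by
  let w : X × I → V := fun q => Freud2_io c (K.f q) -
    ((1 - (q.2 : ℝ)) • Freud2_io c (K.f (q.1, 0)) + (q.2 : ℝ) • Freud2_io c (K.f (q.1, 1)))
  let u : (X × ℝ) × I → V := fun p => (1 - (p.2 : ℝ)) • Freud2_io c (f.f (p.1.1, r p.1.2)) +
    (p.2 : ℝ) • Freud2_io c (G.f (p.1.1, r p.1.2)) + max (1 - |p.1.2|) 0 • w (p.1.1, p.2)
  have cK := Freud2_io_comp c K.cont hK
  have b0 : ∀ t : I, |1 - (t : ℝ)| ≤ 1 := fun t =>
    abs_le.2 ⟨by linarith [t.2.2], by linarith [t.2.1]⟩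
  have b1 : ∀ t : I, |(t : ℝ)| ≤ 1 := fun t => abs_le.2 ⟨by linarith [t.2.1], t.2.2⟩
  have cw : Continuous w := by
    refine cK.sub (Continuous.add (Continuous.smul (by fun_prop) ?_)
      (Continuous.smul (by fun_prop) ?_))
    · exact cK.comp (f := fun q : X × I => (q.1, 0)) (by fun_prop)
    · exact cK.comp (f := fun q : X × I => (q.1, 1)) (by fun_prop)
  have tw : Tendsto w (cocompact _) (𝓝 0) := by
    have e0 := Freud2_bdd (fun q : X × I => b0 q.2)
      (Freud2_io_tend c ((K.pre _ (proper_at 0)).pre _ proper_fst).tend)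
    have e1 := Freud2_bdd (fun q : X × I => b1 q.2)
      (Freud2_io_tend c ((K.pre _ (proper_at 1)).pre _ proper_fst).tend)
    simpa using (Freud2_io_tend c K.tend).sub (e0.add e1)
  have cr : Continuous fun p : (X × ℝ) × I => (p.1.1, r p.1.2) := by fun_prop
  have cu : Continuous u := by
    refine Continuous.add (Continuous.add (Continuous.smul (by fun_prop) ?_)
      (Continuous.smul (by fun_prop) ?_)) (Continuous.smul (by fun_prop) ?_)
    · exact Freud2_io_comp c (f.cont.comp cr) fun p => hf _ _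
    · exact Freud2_io_comp c (G.cont.comp cr) fun p => hG _ _
    · exact cw.comp (by fun_prop)
  have tr : ∀ F : BM (X × ℝ) V, Tendsto (fun p : (X × ℝ) × I => F.f (p.1.1, r p.1.2))
      (cocompact _ ⊓ 𝓟 {p | r p.1.2 = p.1.2}) (𝓝 ∞) := fun F => by
    refine ((F.pre _ proper_fst).tend.mono_left inf_le_left).congr' ?_
    refine eventually_inf_principal.2 (Eventually.of_forall fun p hp => ?_)
    change F.f (p.1.1, p.1.2) = F.f (p.1.1, r p.1.2)
    rw [show r p.1.2 = p.1.2 from hp]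
  have tu : Tendsto u (cocompact _ ⊓ 𝓟 {p | r p.1.2 = p.1.2}) (𝓝 0) := by
    have e0 := Freud2_bdd (fun p : (X × ℝ) × I => b0 p.2) (Freud2_io_tend c (tr f))
    have e1 := Freud2_bdd (fun p : (X × ℝ) × I => b1 p.2) (Freud2_io_tend c (tr G))
    simpa using (e0.add e1).add ((Freud2_cut tw).mono_left inf_le_left)
  refine ⟨fun p => Freud2_ka c (u p), (Freud2_ka_cont c).comp cu, ?_, fun x s => ?_,
    fun x s => ?_, fun x τ => ?_⟩
  · rw [← Freud2_ka_zero c]
    exact ((Freud2_ka_cont c).tendsto 0).comp tu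
  · rw [← Freud2_ka_io c (hf x s)]
    simp [u, w]
  · rw [← Freud2_ka_io c (hG x s)]
    simp [u, w]
  · rw [← Freud2_ka_io c (hK (x, τ))]
    simp [u, w, hr0, h0, h1]

end czero

end RB
end
end

-- merged part: Pool.Agent.Work.MP_666b5d_gt.Loop
section
/-!
# Path spaces, coverings without local hypotheses, the fundamental group

`PS Z z` is the space of paths starting at `z`.  Two such paths are `K`-related if they have the
same end point and the loop they form lies in the subgroup `K`.  The cubes of `PS Z z` modulo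
pointwise relation, `Cov K`, play the role of the singular cubes of the covering with group `K`.

Proof hints.  `PRel.const`: join `x` to `y` by the segment in `Q`; the loop class is constant along
it (a homotopy of loops based at `z`).  `cov_top`: the end point map `Cov ⊤ → Sing Z` is bijective;
lift `s` to `x ↦ γ₀ · (r ↦ s (r • x))` with `γ₀` a path from `z` to `s 0`.
`Nice.comm`: the square `G (γ r, s)` shows that a track commutes with every loop.
`Nice.pi1_fg`: choose paths `c y` from `z` to `y`; send a cube `s` to the class of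
`c (s 0) · (t ↦ s (t, 0, 0, …)) · (c (s e₀))⁻¹` in the abelian group; this kills `d 2` (the square
`(t, r) ↦ s (t, r, 0, …)`) and is onto on cycles of degree `1` (loops, `s x = γ (x 0)`).
-/

open Set
open scoped unitInterval

namespace RB

variable {Z : Type} [TopologicalSpace Z] {z : Z}

/-- Paths starting at `z`. -/
def PS (Z : Type) [TopologicalSpace Z] (z : Z) : Type := {γ : C(I, Z) // γ 0 = z}

instance : TopologicalSpace (PS Z z) := inferInstanceAs (TopologicalSpace (Subtype _))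

/-- Same end point, and the loop formed lies in `K`. -/
def PRel (K : Subgroup (FundamentalGroup Z z)) (γ δ : PS Z z) : Prop :=
  ∃ (y : Z) (p q : Path z y), (∀ t, p t = γ.1 t) ∧ (∀ t, q t = δ.1 t) ∧
    FundamentalGroup.fromPath (⟦p.trans q.symm⟧ : Path.Homotopic.Quotient z z) ∈ K

section LoopAux

theorem loop_contr : ContractibleSpace I :=
  (convex_Icc (0 : ℝ) 1).contractibleSpace ⟨0, by simp⟩

/-- The boundary of a square. -/
theorem loop_square (H : C(I × I, Z)) {a b c d : Z} (p : Path a b) (q : Path b d) (p' : Path a c)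
    (q' : Path c d) (hp : ∀ t, p t = H (t, 0)) (hq : ∀ t, q t = H (1, t))
    (hp' : ∀ t, p' t = H (0, t)) (hq' : ∀ t, q' t = H (t, 1)) :
    (p.trans q).Homotopic (p'.trans q') := by
  obtain rfl : a = H (0, 0) := by rw [← hp 0, p.source]
  obtain rfl : b = H (1, 0) := by rw [← hp 1, p.target]
  obtain rfl : c = H (0, 1) := by rw [← hq' 0, q'.source]
  obtain rfl : d = H (1, 1) := by rw [← hq' 1, q'.target]
  have := loop_contr
  let B : Path ((0, 0) : I × I) (1, 0) := ⟨⟨fun t => (t, 0), by fun_prop⟩, rfl, rfl⟩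
  let R : Path ((1, 0) : I × I) (1, 1) := ⟨⟨fun t => (1, t), by fun_prop⟩, rfl, rfl⟩
  let L : Path ((0, 0) : I × I) (0, 1) := ⟨⟨fun t => (0, t), by fun_prop⟩, rfl, rfl⟩
  let T : Path ((0, 1) : I × I) (1, 1) := ⟨⟨fun t => (t, 1), by fun_prop⟩, rfl, rfl⟩
  obtain rfl : p = B.map H.continuous := by ext t; exact hp t
  obtain rfl : q = R.map H.continuous := by ext t; exact hq t
  obtain rfl : p' = L.map H.continuous := by ext t; exact hp' t
  obtain rfl : q' = T.map H.continuous := by ext t; exact hq' t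
  rw [← Path.map_trans, ← Path.map_trans]
  exact (SimplyConnectedSpace.paths_homotopic _ _).map H

theorem loop_cancel {a b c : Z} (P : Path.Homotopic.Quotient a b)
    (R : Path.Homotopic.Quotient b c) : (P.symm).trans (P.trans R) = R := by
  rw [← Path.Homotopic.Quotient.trans_assoc, Path.Homotopic.Quotient.symm_trans, Path.Homotopic.Quotient.refl_trans]

theorem loop_cancel' {a b c : Z} (P : Path.Homotopic.Quotient b a)
    (R : Path.Homotopic.Quotient b c) : P.symm.symm.trans (P.symm.trans R) = R := by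
  rw [← Path.Homotopic.Quotient.trans_assoc, Path.Homotopic.Quotient.symm_trans, Path.Homotopic.Quotient.refl_trans]

theorem loop_cancel'' {a b c : Z} (P : Path.Homotopic.Quotient a b)
    (R : Path.Homotopic.Quotient a c) : P.trans (P.symm.trans R) = R := by
  rw [← Path.Homotopic.Quotient.trans_assoc, Path.Homotopic.Quotient.trans_symm, Path.Homotopic.Quotient.refl_trans]

theorem loop_symm_symm {a b : Z} (P : Path.Homotopic.Quotient a b) : P.symm.symm = P := by
  induction P using Path.Homotopic.Quotient.ind with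
  | mk p => rw [← Path.Homotopic.Quotient.mk_symm, ← Path.Homotopic.Quotient.mk_symm, Path.symm_symm]

theorem loop_symm_trans {a b c : Z} (P : Path.Homotopic.Quotient a b)
    (R : Path.Homotopic.Quotient b c) : (P.trans R).symm = R.symm.trans P.symm := by
  induction P using Path.Homotopic.Quotient.ind with
  | mk p =>
    induction R using Path.Homotopic.Quotient.ind with
    | mk r => rw [← Path.Homotopic.Quotient.mk_trans, ← Path.Homotopic.Quotient.mk_symm, Path.trans_symm]; rfl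

/-- The class of the loop formed by two paths. -/
noncomputable def loopCl {y : Z} (p q : Path z y) : FundamentalGroup Z z :=
  FundamentalGroup.fromPath (⟦p.trans q.symm⟧ : Path.Homotopic.Quotient z z)

theorem loopCl_eq {y : Z} (p q : Path z y) :
    loopCl p q = (Path.Homotopic.Quotient.mk p).trans (Path.Homotopic.Quotient.mk q).symm := rfl

theorem loopCl_self {y : Z} (p : Path z y) : loopCl p p = 1 := by
  rw [loopCl_eq, Path.Homotopic.Quotient.trans_symm]; rfl

theorem loopCl_inv {y : Z} (p q : Path z y) : loopCl q p = (loopCl p q)⁻¹ := by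
  rw [FundamentalGroup.inv_def, loopCl_eq, loopCl_eq, loop_symm_trans, loop_symm_symm]

theorem loopCl_mul {y : Z} (p q r : Path z y) : loopCl p r = loopCl q r * loopCl p q := by
  rw [FundamentalGroup.mul_def, loopCl_eq, loopCl_eq, loopCl_eq, Path.Homotopic.Quotient.trans_assoc, loop_cancel]

theorem loopCl_eq_one {y : Z} (p q : Path z y) : loopCl p q = 1 ↔ p.Homotopic q := by
  constructor
  · intro h
    rw [loopCl_eq, FundamentalGroup.one_def] at h
    have h' := congrArg (fun P => Path.Homotopic.Quotient.trans P (Path.Homotopic.Quotient.mk q)) h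
    simp only [Path.Homotopic.Quotient.trans_assoc, Path.Homotopic.Quotient.symm_trans, Path.Homotopic.Quotient.trans_refl,
      Path.Homotopic.Quotient.refl_trans] at h'
    exact Path.Homotopic.Quotient.exact h'
  · intro h
    rw [loopCl_eq, Path.Homotopic.Quotient.eq.2 h, Path.Homotopic.Quotient.trans_symm]; rfl

/-- The path underlying an element of the path space. -/
def PS.loopPath (γ : PS Z z) {y : Z} (h : γ.1 1 = y) : Path z y := ⟨γ.1, γ.2, h⟩

end LoopAux

variable {K : Subgroup (FundamentalGroup Z z)}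

theorem loop_prel_iff {γ δ : PS Z z} {y : Z} (p q : Path z y) (hp : ∀ t, p t = γ.1 t)
    (hq : ∀ t, q t = δ.1 t) : PRel K γ δ ↔ loopCl p q ∈ K := by
  constructor
  · rintro ⟨y', p', q', hp', hq', h⟩
    obtain rfl : y = y' := by rw [← p.target, hp, ← hp', p'.target]
    obtain rfl : p = p' := by ext t; rw [hp, hp']
    obtain rfl : q = q' := by ext t; rw [hq, hq']
    exact h
  · intro h
    exact ⟨y, p, q, hp, hq, h⟩

theorem PRel.refl (γ : PS Z z) : PRel K γ γ := by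
  refine (loop_prel_iff (γ.loopPath rfl) (γ.loopPath rfl) (fun _ => rfl) fun _ => rfl).2 ?_
  rw [loopCl_self]
  exact K.one_mem

theorem PRel.symm {γ δ : PS Z z} (h : PRel K γ δ) : PRel K δ γ := by
  obtain ⟨y, p, q, hp, hq, h⟩ := h
  refine (loop_prel_iff q p hq hp).2 ?_
  rw [loopCl_inv]
  exact K.inv_mem h

theorem PRel.trans {γ δ ε : PS Z z} (h : PRel K γ δ) (h' : PRel K δ ε) : PRel K γ ε := by
  obtain ⟨y, p, q, hp, hq, h⟩ := h
  obtain ⟨y', q', r, hq', hr, h'⟩ := h'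
  obtain rfl : y = y' := by rw [← q.target, hq, ← hq', q'.target]
  obtain rfl : q = q' := by ext t; rw [hq, hq']
  refine (loop_prel_iff p r hp hr).2 ?_
  rw [loopCl_mul p q r]
  exact K.mul_mem h' h

theorem PRel.mono {K' : Subgroup (FundamentalGroup Z z)} (hK : K ≤ K') {γ δ : PS Z z}
    (h : PRel K γ δ) : PRel K' γ δ := by
  obtain ⟨y, p, q, hp, hq, h⟩ := h
  exact ⟨y, p, q, hp, hq, hK h⟩

theorem PRel.end_eq {γ δ : PS Z z} (h : PRel K γ δ) : γ.1 1 = δ.1 1 := by
  obtain ⟨y, p, q, hp, hq, -⟩ := h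
  rw [← hp, ← hq, p.target, q.target]

theorem prel_top {γ δ : PS Z z} : PRel ⊤ γ δ ↔ γ.1 1 = δ.1 1 := by
  refine ⟨PRel.end_eq, fun h => ?_⟩
  exact ⟨_, γ.loopPath h, δ.loopPath rfl, fun _ => rfl, fun _ => rfl, Subgroup.mem_top _⟩

theorem prel_bot {γ δ : PS Z z} : PRel ⊥ γ δ ↔ γ.1.HomotopicRel δ.1 {0, 1} := by
  constructor
  · intro h
    have he := h.end_eq
    rw [loop_prel_iff (γ.loopPath he) (δ.loopPath rfl) (fun _ => rfl) fun _ => rfl,
      Subgroup.mem_bot, loopCl_eq_one] at h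
    exact h
  · intro h
    have he : γ.1 1 = δ.1 1 := h.fst_eq_snd (by simp)
    rw [loop_prel_iff (γ.loopPath he) (δ.loopPath rfl) (fun _ => rfl) fun _ => rfl,
      Subgroup.mem_bot, loopCl_eq_one]
    exact h

/-- The relation is locally constant in families with common end points. -/
theorem PRel.const {u v : C(Q, PS Z z)} (he : ∀ x, (u x).1 1 = (v x).1 1) {x : Q}
    (h : PRel K (u x) (v x)) (y : Q) : PRel K (u y) (v y) := by
  have := loop_contr
  let sg : Path x y := PathConnectedSpace.somePath x y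
  have hc : ∀ w : C(Q, PS Z z), Continuous fun a : I × I => (w (sg a.2)).1 a.1 := fun w =>
    Continuous.eval (continuous_subtype_val.comp (w.continuous.comp (sg.continuous.comp
      continuous_snd))) continuous_fst
  let e : Path ((v x).1 1) ((v y).1 1) :=
    ⟨⟨fun t => (v (sg t)).1 1, (hc v).comp (Continuous.prodMk_right 1)⟩, by simp, by simp⟩
  have key : ∀ (w : C(Q, PS Z z)) (hw : ∀ x, (w x).1 1 = (v x).1 1),
      Path.Homotopic.Quotient.mk ((w y).loopPath (hw y)) =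
        (Path.Homotopic.Quotient.mk ((w x).loopPath (hw x))).trans
          (Path.Homotopic.Quotient.mk e) := by
    intro w hw
    have h1 := loop_square ⟨_, hc w⟩ ((w x).loopPath (hw x)) e (Path.refl z)
      ((w y).loopPath (hw y)) (fun t => by simp [PS.loopPath]) (fun t => (hw _).symm)
      (fun t => ((w _).2).symm) (fun t => by simp [PS.loopPath])
    rw [← Path.Homotopic.Quotient.mk_trans, Path.Homotopic.Quotient.eq]
    exact (h1.trans (Path.Homotopic.refl_trans _)).symm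
  rw [loop_prel_iff ((u x).loopPath (he x)) ((v x).loopPath rfl) (fun _ => rfl) fun _ => rfl] at h
  rw [loop_prel_iff ((u y).loopPath (he y)) ((v y).loopPath rfl) (fun _ => rfl) fun _ => rfl]
  rw [loopCl_eq] at h ⊢
  rw [key u he, key v fun _ => rfl, loop_symm_trans, Path.Homotopic.Quotient.trans_assoc,
    loop_cancel'']
  exact h

/-- The cubes of the covering with group `K`. -/
def Cov (K : Subgroup (FundamentalGroup Z z)) : CS where
  Y := Quot fun u v : C(Q, PS Z z) => ∀ x, PRel K (u x) (v x)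
  fc i ε := Quot.map (fun u => u.comp (ins i (endI ε))) fun _ _ h x => h _
  fc_fc i j h ε δ y := by
    induction y using Quot.ind with
    | mk u =>
      refine congrArg (Quot.mk _) ?_
      change (u.comp _).comp _ = (u.comp _).comp _
      rw [ContinuousMap.comp_assoc, ContinuousMap.comp_assoc, ins_ins h]

theorem cov_mk_eq {u v : C(Q, PS Z z)} :
    (Quot.mk _ u : (Cov K).Y) = Quot.mk _ v ↔ ∀ x, PRel K (u x) (v x) := by
  have hE : Equivalence fun u v : C(Q, PS Z z) => ∀ x, PRel K (u x) (v x) :=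
    ⟨fun _ _ => PRel.refl _, fun h x => (h x).symm, fun h h' x => (h x).trans (h' x)⟩
  exact Quot.eq.trans hE.eqvGen_iff

/-- The end point map. -/
def loopEnd (u : C(Q, PS Z z)) : C(Q, Z) :=
  ⟨fun x => (u x).1 1, Continuous.eval_const (continuous_subtype_val.comp u.continuous) 1⟩

/-- The radial contraction of the cube. -/
def loopRad : C(Q × I, Q) := ⟨fun a k => a.2 * a.1 k, by fun_prop⟩

theorem loopEnd_surj [PathConnectedSpace Z] (s : C(Q, Z)) : ∃ u : C(Q, PS Z z), loopEnd u = s := by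
  let γ₀ : Path z (s 0) := PathConnectedSpace.somePath _ _
  let ρ : ∀ x : Q, Path (s 0) (s x) := fun x =>
    ⟨⟨fun t => s (loopRad (x, t)), by fun_prop⟩, congrArg s (funext fun k => zero_mul _),
      congrArg s (funext fun k => one_mul _)⟩
  have hc : Continuous ↿fun x : Q => γ₀.trans (ρ x) :=
    Path.trans_continuous_family (fun _ : Q => γ₀) (γ₀.continuous.comp continuous_snd) ρ
      (s.continuous.comp loopRad.continuous)
  let F : C(Q × I, Z) := ⟨fun a => γ₀.trans (ρ a.1) a.2, hc⟩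
  refine ⟨⟨fun x => ⟨F.curry x, (γ₀.trans (ρ x)).source⟩, F.curry.continuous.subtype_mk _⟩, ?_⟩
  ext x
  exact (γ₀.trans (ρ x)).target

theorem cov_top [PathConnectedSpace Z] (h : FTs Z) :
    (Cov (⊤ : Subgroup (FundamentalGroup Z z))).FT ℤ := by
  let E : (Cov (⊤ : Subgroup (FundamentalGroup Z z))).Y → (Sing Z).Y :=
    Quot.lift loopEnd fun u v huv => ContinuousMap.ext fun x => (huv x).end_eq
  have hE : CS.IsHom _ _ E := by
    intro i ε y
    induction y using Quot.ind with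
    | mk u => rfl
  refine (CS.FT.of_bij hE ⟨?_, ?_⟩).2 h
  · intro a b hab
    induction a using Quot.ind with
    | mk u =>
      induction b using Quot.ind with
      | mk v =>
        exact cov_mk_eq.2 fun x => prel_top.2 (DFunLike.congr_fun (F := C(Q, Z)) hab x)
  · intro s
    obtain ⟨u, hu⟩ := loopEnd_surj (z := z) s
    exact ⟨Quot.mk _ u, hu⟩

/-- Path connected, finitely generated homology, and every loop is the track of a self-homotopy of
the identity. -/
structure Nice (Z : Type) [TopologicalSpace Z] (z : Z) : Prop where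
  conn : PathConnectedSpace Z
  ft : FTs Z
  track : ∀ l : Path z z, ∃ G : C(Z × I, Z), (∀ y, G (y, 0) = y) ∧ (∀ y, G (y, 1) = y) ∧
    ∃ p : Path z z, (∀ t, p t = G (z, t)) ∧ p.Homotopic l

theorem Nice.comm (h : Nice Z z) (a b : FundamentalGroup Z z) : a * b = b * a := by
  obtain ⟨l, rfl⟩ := Path.Homotopic.Quotient.mk_surjective a
  obtain ⟨γ, rfl⟩ := Path.Homotopic.Quotient.mk_surjective b
  obtain ⟨G, h0, h1, p, hp, hl⟩ := h.track l
  have hs := loop_square (G.comp ⟨fun a : I × I => (γ a.1, a.2), by fun_prop⟩) γ p p γ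
    (fun t => (h0 _).symm) (fun t => by simp [hp]) (fun t => by simp [hp]) (fun t => (h1 _).symm)
  rw [FundamentalGroup.mul_def, FundamentalGroup.mul_def, ← Path.Homotopic.Quotient.eq.2 hl]
  exact Path.Homotopic.Quotient.eq.2 hs

section LoopAux2

/-- The class of a path, closed up with chosen paths from the base point. -/
noncomputable def loopEdge (c : ∀ y : Z, Path z y) {a b : Z} (p : Path a b) :
    FundamentalGroup Z z :=
  loopCl ((c a).trans p) (c b)

theorem loopEdge_congr (c : ∀ y : Z, Path z y) {a b : Z} {p q : Path a b} (h : p.Homotopic q) :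
    loopEdge c p = loopEdge c q := by
  rw [loopEdge, loopEdge, loopCl_eq, loopCl_eq, Path.Homotopic.Quotient.mk_trans, Path.Homotopic.Quotient.mk_trans,
    Path.Homotopic.Quotient.eq.2 h]

theorem loopEdge_ext (c : ∀ y : Z, Path z y) {a b a' b' : Z} {p : Path a b} {q : Path a' b'}
    (h : ∀ t, p t = q t) : loopEdge c p = loopEdge c q := by
  obtain rfl : a = a' := by rw [← p.source, h, q.source]
  obtain rfl : b = b' := by rw [← p.target, h, q.target]
  obtain rfl : p = q := by ext t; exact h t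
  rfl

theorem loopEdge_trans (c : ∀ y : Z, Path z y) {a b d : Z} (p : Path a b) (q : Path b d) :
    loopEdge c (p.trans q) = loopEdge c q * loopEdge c p := by
  simp only [loopEdge, FundamentalGroup.mul_def, loopCl_eq, Path.Homotopic.Quotient.mk_trans,
    Path.Homotopic.Quotient.trans_assoc, loop_cancel]

theorem loopEdge_loop (c : ∀ y : Z, Path z y) (hc : ∀ a b : FundamentalGroup Z z, a * b = b * a)
    (p : Path z z) : loopEdge c p = Path.Homotopic.Quotient.mk p := by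
  have h := hc (Path.Homotopic.Quotient.mk p) (Path.Homotopic.Quotient.mk (c z))
  rw [FundamentalGroup.mul_def, FundamentalGroup.mul_def] at h
  rw [loopEdge, loopCl_eq, Path.Homotopic.Quotient.mk_trans, h, Path.Homotopic.Quotient.trans_assoc, Path.Homotopic.Quotient.trans_symm,
    Path.Homotopic.Quotient.trans_refl]

/-- The first coordinate square of the cube. -/
def loopSq : C(I × I, Q) :=
  ⟨fun a k => if k = 0 then a.1 else if k = 1 then a.2 else 0, by
    refine continuous_pi fun k => ?_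
    split_ifs <;> fun_prop⟩

/-- The first edge of a singular cube. -/
def loopFst (s : C(Q, Z)) : Path (s (loopSq (0, 0))) (s (loopSq (1, 0))) :=
  ⟨⟨fun t => s (loopSq (t, 0)), by fun_prop⟩, rfl, rfl⟩

theorem loop_ins_apply (i : ℕ) (a : I) (x : Q) (k : ℕ) :
    ins i a x k = if k < i then x k else if k = i then a else x (k - 1) := rfl

theorem loop_ins_zero (a t : I) : ins 0 a (loopSq (t, 0)) = loopSq (a, t) := by
  funext k
  rcases k with _ | _ | k <;> simp [loop_ins_apply, loopSq]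

theorem loop_ins_one (a t : I) : ins 1 a (loopSq (t, 0)) = loopSq (t, a) := by
  funext k
  rcases k with _ | _ | k <;> simp [loop_ins_apply, loopSq]

theorem loopEdge_square (c : ∀ y : Z, Path z y) (s : C(Q, Z)) :
    loopEdge c (loopFst (s.comp (ins 0 1))) * loopEdge c (loopFst (s.comp (ins 1 0))) =
      loopEdge c (loopFst (s.comp (ins 1 1))) * loopEdge c (loopFst (s.comp (ins 0 0))) := by
  let H : C(I × I, Z) := s.comp loopSq
  let B : Path (H (0, 0)) (H (1, 0)) := ⟨⟨fun t => H (t, 0), by fun_prop⟩, rfl, rfl⟩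
  let R : Path (H (1, 0)) (H (1, 1)) := ⟨⟨fun t => H (1, t), by fun_prop⟩, rfl, rfl⟩
  let L : Path (H (0, 0)) (H (0, 1)) := ⟨⟨fun t => H (0, t), by fun_prop⟩, rfl, rfl⟩
  let T : Path (H (0, 1)) (H (1, 1)) := ⟨⟨fun t => H (t, 1), by fun_prop⟩, rfl, rfl⟩
  have h := loopEdge_congr c (loop_square H B R L T (fun _ => rfl) (fun _ => rfl) (fun _ => rfl)
    fun _ => rfl)
  rw [loopEdge_trans, loopEdge_trans] at h
  rw [loopEdge_ext c (p := loopFst (s.comp (ins 0 1))) (q := R)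
      fun t => congrArg s (loop_ins_zero 1 t),
    loopEdge_ext c (p := loopFst (s.comp (ins 1 0))) (q := B)
      fun t => congrArg s (loop_ins_one 0 t),
    loopEdge_ext c (p := loopFst (s.comp (ins 1 1))) (q := T)
      fun t => congrArg s (loop_ins_one 1 t),
    loopEdge_ext c (p := loopFst (s.comp (ins 0 0))) (q := L)
      fun t => congrArg s (loop_ins_zero 0 t)]
  exact h

end LoopAux2

theorem Nice.pi1_fg (h : Nice Z z) : Group.FG (FundamentalGroup Z z) := by
  have := h.conn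
  let c : ∀ y : Z, Path z y := fun y => PathConnectedSpace.somePath z y
  let : CommGroup (FundamentalGroup Z z) :=
    { (inferInstance : Group (FundamentalGroup Z z)) with mul_comm := h.comm }
  let φ : (Sing Z).Y → Additive (FundamentalGroup Z z) := fun s =>
    Additive.ofMul (loopEdge c (loopFst s))
  let Φ : ((Sing Z).Y →₀ ℤ) →+ Additive (FundamentalGroup Z z) :=
    (Finsupp.linearCombination ℤ φ).toAddMonoidHom
  have hΦ : ∀ s n, Φ (Finsupp.single s n) = n • φ s := fun s n =>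
    Finsupp.linearCombination_single ..
  have hd : Φ.comp ((Sing Z).d ℤ 2) = 0 := by
    refine Finsupp.addHom_ext fun s n => ?_
    have hs : φ ((Sing Z).fc 0 true s) + φ ((Sing Z).fc 1 false s) =
        φ ((Sing Z).fc 1 true s) + φ ((Sing Z).fc 0 false s) :=
      congrArg Additive.ofMul (loopEdge_square c s)
    rw [AddMonoidHom.comp_apply, CS.d_single]
    simp only [Finset.sum_range_succ, Finset.sum_range_zero, zero_add, pow_zero, one_smul, pow_one,
      neg_smul, map_add, map_neg, map_sub, hΦ, AddMonoidHom.zero_apply]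
    rw [eq_sub_of_add_eq hs]
    module
  obtain ⟨F, hF, hle⟩ := h.ft 1
  have htop : (F.map Φ) = ⊤ := by
    rw [eq_top_iff]
    intro a _
    obtain ⟨γ, hγ⟩ := Path.Homotopic.Quotient.mk_surjective (Additive.toMul a)
    let s : (Sing Z).Y := (⟨fun x => γ (x 0), by fun_prop⟩ : C(Q, Z))
    have hs : (Finsupp.single s 1 : (Sing Z).Y →₀ ℤ) ∈ ((Sing Z).d ℤ 1).ker := by
      have e : (Sing Z).fc 0 false s = (Sing Z).fc 0 true s :=
        ContinuousMap.ext fun x => γ.source.trans γ.target.symm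
      rw [AddMonoidHom.mem_ker, CS.d_single]
      simp [e]
    obtain ⟨b, ⟨b', rfl⟩, f, hf, hbf⟩ := AddSubgroup.mem_sup.1 (hle hs)
    refine ⟨f, hf, ?_⟩
    have h1 := congrArg Φ hbf
    have h2 : Φ ((Sing Z).d ℤ (1 + 1) b') = 0 := DFunLike.congr_fun hd b'
    rw [map_add, h2, zero_add, hΦ, one_smul] at h1
    rw [h1]
    change Additive.ofMul (loopEdge c (loopFst s)) = a
    rw [loopEdge_ext c (p := loopFst s) (q := γ) fun t => rfl, loopEdge_loop c h.comm, hγ]
    rfl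
  have hfg : AddGroup.FG (Additive (FundamentalGroup Z z)) := by
    classical
    obtain ⟨S, rfl⟩ := hF
    refine ⟨S.image Φ, ?_⟩
    rw [Finset.coe_image, ← AddMonoidHom.map_closure, htop]
  exact GroupFG.iff_add_fg.2 hfg

end RB
end

-- merged part: Pool.Agent.Work.MP_666b5d_gt.Serre
section
-- merged part: Pool.Agent.Work.MP_666b5d_gt.Grp
section
/-!
# The group structure on homotopy classes of maps out of `(A × J) × B`

`J` is the open unit interval with the trivial action; maps are concatenated in the `J`-direction.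

Proof hints.  `evB f` extends `f` by `∞` to `(A × ℝ) × B`.  Every map `(a, s, b, t) ↦ ev f a (ρ s t) b`
with `ρ` continuous on `[0,1] × I`, `ρ 0 t ≤ 0` and `1 ≤ ρ 1 t` is a based map on
`((A × J) × B) × I` (lemma `ht_reparam`); unit and associativity laws are reparametrisations, and
`rev f + f` is contracted by `ρ s t = (1 - t) * |1 - 2 s| + t`-like formulas (values `≥ 1` at both
ends are allowed as well, see `ht_reparam'`).
-/

open Set Filter Topology OnePoint
open scoped unitInterval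

namespace RB

open Act

/-- The open unit interval. -/
abbrev J : Type := Ioo (0 : ℝ) 1

instance : LocallyCompactSpace J := isOpen_Ioo.locallyCompactSpace

/-- The sign action on the real line. -/
def sg : Act ℤˣ ℝ := fun u r => ((u : ℤ) : ℝ) * r

/-- The conjugation action. -/
noncomputable def cj {K : Type} [Star K] : Act ℤˣ K := tw

/-- An action through a sign character. -/
def Act.via {S X : Type} (e : S → ℤˣ) (s : Act ℤˣ X) : Act S X := fun g => s (e g)

@[simp] theorem Act.via_apply {S X : Type} (e : S → ℤˣ) (s : Act ℤˣ X) (g : S) (x : X) :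
    Act.via e s g x = s (e g) x := rfl

/-- A homeomorphism from the open interval to the line. -/
noncomputable def eJ : J ≃ₜ ℝ where
  toFun s := Real.log (s.1 / (1 - s.1))
  invFun r := ⟨Real.exp r / (1 + Real.exp r), by
    have h := Real.exp_pos r
    refine ⟨by positivity, ?_⟩
    rw [div_lt_one (by positivity)]
    linarith⟩
  left_inv := by
    rintro ⟨s, h0, h1⟩
    have h2 : 0 < 1 - s := by linarith
    apply Subtype.ext
    simp only
    rw [Real.exp_log (div_pos h0 h2)]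
    field_simp
    ring
  right_inv := by
    intro r
    have h := Real.exp_pos r
    have e : Real.exp r / (1 + Real.exp r) / (1 - Real.exp r / (1 + Real.exp r)) = Real.exp r := by
      field_simp
      ring
    simp only
    rw [e, Real.log_exp]
  continuous_toFun := by
    refine Continuous.log (Continuous.div continuous_subtype_val
      (continuous_const.sub continuous_subtype_val) fun s => ?_) fun s => ?_
    · have := s.2.2
      linarith
    · have h0 := s.2.1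
      have h1 : 0 < 1 - s.1 := by have := s.2.2; linarith
      positivity
  continuous_invFun := by
    refine Continuous.subtype_mk (Continuous.div Real.continuous_exp
      (continuous_const.add Real.continuous_exp) fun r => ?_) _
    have h := Real.exp_pos r
    exact (add_pos one_pos h).ne'

/-- The complex line as the sign representation times the open interval. -/
noncomputable def eC : ℂ ≃ₜ ℝ × J where
  toFun z := (z.im, eJ.symm z.re)
  invFun p := ⟨eJ p.2, p.1⟩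
  left_inv := by
    intro z
    apply Complex.ext <;> simp
  right_inv := by
    rintro ⟨r, s⟩
    simp
  continuous_toFun := by
    exact Complex.continuous_im.prodMk (eJ.symm.continuous.comp Complex.continuous_re)
  continuous_invFun := by
    exact Complex.equivRealProdCLM.symm.continuous.comp
      ((eJ.continuous.comp continuous_snd).prodMk continuous_fst)

theorem eC_tw (u : ℤˣ) (z : ℂ) : eC (tw u z) = (sg u (eC z).1, (eC z).2) := by
  have e : ∀ w : ℂ, eC w = (w.im, eJ.symm w.re) := fun _ => rfl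
  rcases Int.units_eq_one_or u with rfl | rfl
  · simp [tw_one, sg]
  · rw [tw_neg_one, e, e]
    simp [sg]

theorem ga_sg : GA univ sg := by
  refine ⟨fun x => by simp [sg], fun g _ h _ x => by simp [sg, mul_assoc], ?_⟩
  refine Continuous.continuousOn ?_
  refine continuous_prod_of_discrete_left.2 fun u => ?_
  change Continuous fun r : ℝ => ((u : ℤ) : ℝ) * r
  fun_prop

theorem ga_cj {K : Type} [TopologicalSpace K] [InvolutiveStar K] [ContinuousStar K] :
    GA univ (cj : Act ℤˣ K) := by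
  refine ⟨fun x => tw_one x, fun g _ h _ x => ?_, ?_⟩
  · rcases Int.units_eq_one_or g with rfl | rfl <;> rcases Int.units_eq_one_or h with rfl | rfl <;>
      simp [cj, tw_one, tw_neg_one]
  · refine Continuous.continuousOn ?_
    refine continuous_prod_of_discrete_left.2 fun u => ?_
    rcases Int.units_eq_one_or u with rfl | rfl
    · have : (fun x : K => (cj : Act ℤˣ K) 1 x) = id := funext fun x => tw_one x
      exact this ▸ continuous_id
    · have : (fun x : K => (cj : Act ℤˣ K) (-1) x) = star := funext fun x => tw_neg_one x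
      exact this ▸ continuous_star

variable {S A B Y : Type} [TopologicalSpace A] [TopologicalSpace B] [TopologicalSpace Y]

open Classical in
/-- Evaluation at a real parameter, `∞` outside the open interval. -/
noncomputable def ev (f : BM ((A × J) × B) Y) (a : A) (s : ℝ) (b : B) : OnePoint Y :=
  if h : s ∈ Ioo (0 : ℝ) 1 then f.f ((a, ⟨s, h⟩), b) else ∞

theorem ev_coe (f : BM ((A × J) × B) Y) (a : A) (s : J) (b : B) : ev f a s b = f.f ((a, s), b) := by
  simp [ev]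

theorem ev_of_mem (f : BM ((A × J) × B) Y) (a : A) {s : ℝ} (h : s ∈ Ioo (0 : ℝ) 1) (b : B) :
    ev f a s b = f.f ((a, ⟨s, h⟩), b) := dif_pos h

theorem ev_of_not (f : BM ((A × J) × B) Y) (a : A) {s : ℝ} (h : s ∉ Ioo (0 : ℝ) 1) (b : B) :
    ev f a s b = ∞ := dif_neg h

/-- The inclusion of the open interval into the line, with parameters. -/
def Grp_j (A B : Type) : (A × J) × B → (A × ℝ) × B := fun p => ((p.1.1, p.1.2), p.2)

theorem Grp_j_emb : IsOpenEmbedding (Grp_j A B) :=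
  (IsOpenEmbedding.id.prodMap isOpen_Ioo.isOpenEmbedding_subtypeVal).prodMap IsOpenEmbedding.id

omit [TopologicalSpace A] [TopologicalSpace B] in
theorem Grp_j_range {a : A} {s : ℝ} {b : B} :
    ((a, s), b) ∈ range (Grp_j A B) ↔ s ∈ Ioo (0 : ℝ) 1 := by
  constructor
  · rintro ⟨⟨⟨a', s'⟩, b'⟩, h⟩
    have : (s' : ℝ) = s := congrArg (fun p : (A × ℝ) × B => p.1.2) h
    exact this ▸ s'.2
  · intro h
    exact ⟨((a, ⟨s, h⟩), b), rfl⟩

theorem Grp_ev_le (f : BM ((A × J) × B) Y) (a : A) {s : ℝ} (h : s ≤ 0) (b : B) :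
    ev f a s b = ∞ := ev_of_not f a (fun h' => absurd h'.1 (not_lt.2 h)) b

theorem Grp_ev_ge (f : BM ((A × J) × B) Y) (a : A) {s : ℝ} (h : 1 ≤ s) (b : B) :
    ev f a s b = ∞ := ev_of_not f a (fun h' => absurd h'.2 (not_lt.2 h)) b

theorem Grp_ev_zero (a : A) (s : ℝ) (b : B) :
    ev (BM.zero : BM ((A × J) × B) Y) a s b = ∞ := by
  unfold ev
  split_ifs <;> rfl

variable [LC A] [LC B] [LC Y]

theorem Grp_ev_eq (f : BM ((A × J) × B) Y) :
    (fun p : (A × ℝ) × B => ev f p.1.1 p.1.2 p.2) = (f.ext0 (Grp_j A B) Grp_j_emb).f := by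
  funext ⟨⟨a, s⟩, b⟩
  by_cases h : s ∈ Ioo (0 : ℝ) 1
  · rw [ev_of_mem f a h b]
    exact (BM.ext0_j f (Grp_j A B) Grp_j_emb ((a, ⟨s, h⟩), b)).symm
  · rw [ev_of_not f a h b]
    exact (BM.ext0_not f (Grp_j A B) Grp_j_emb (fun h' => h (Grp_j_range.1 h'))).symm

theorem Grp_ev_cont (f : BM ((A × J) × B) Y) {X : Type} [TopologicalSpace X] {a : X → A}
    {s : X → ℝ} {b : X → B} (ha : Continuous a) (hs : Continuous s) (hb : Continuous b) :
    Continuous fun x => ev f (a x) (s x) (b x) := by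
  have h : Continuous fun p : (A × ℝ) × B => ev f p.1.1 p.1.2 p.2 := by
    rw [Grp_ev_eq]
    exact BM.cont _
  exact h.comp ((ha.prodMk hs).prodMk hb)

omit [LC A] [LC B] in
theorem Grp_ev_cpt (f : BM ((A × J) × B) Y) {K : Set Y} (hK : IsCompact K) :
    ∃ (CA : Set A) (CB : Set B), IsCompact CA ∧ IsCompact CB ∧
      ∀ a s b (y : Y), ev f a s b = y → y ∈ K → a ∈ CA ∧ b ∈ CB := by
  obtain ⟨C, hC, h⟩ := f.exists_compact hK
  refine ⟨(fun p => p.1.1) '' C, (fun p => p.2) '' C, hC.image (by fun_prop),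
    hC.image (by fun_prop), fun a s b y e hy => ?_⟩
  by_cases hs : s ∈ Ioo (0 : ℝ) 1
  · rw [ev_of_mem f a hs b] at e
    exact ⟨⟨_, h _ y e hy, rfl⟩, ⟨_, h _ y e hy, rfl⟩⟩
  · rw [ev_of_not f a hs b] at e
    exact absurd e (infty_ne_coe y)

omit [LC A] [LC B] in
/-- A continuous map on the closed interval that is `∞` at both ends restricts to a based map. -/
theorem Grp_tend (G : A → ℝ → B → OnePoint Y)
    (hG : Continuous fun p : (A × ℝ) × B => G p.1.1 p.1.2 p.2)
    (h0 : ∀ a b, G a 0 b = ∞) (h1 : ∀ a b, G a 1 b = ∞)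
    (hp : ∀ K : Set Y, IsCompact K → ∃ (CA : Set A) (CB : Set B), IsCompact CA ∧ IsCompact CB ∧
      ∀ a s b (y : Y), G a s b = y → y ∈ K → a ∈ CA ∧ b ∈ CB) :
    Tendsto (fun p : (A × J) × B => G p.1.1 p.1.2 p.2) (cocompact _) (𝓝 ∞) := by
  rw [tend_iff]
  intro K hK
  obtain ⟨CA, CB, hA, hB, h⟩ := hp K hK
  have hK' : IsClosed ((↑) '' K : Set (OnePoint Y)) :=
    isClosed_image_coe.2 ⟨hK.isClosed, hK⟩
  have hC : IsCompact (((CA ×ˢ Icc (0 : ℝ) 1) ×ˢ CB) ∩
      (fun p : (A × ℝ) × B => G p.1.1 p.1.2 p.2) ⁻¹' ((↑) '' K)) :=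
    ((hA.prod isCompact_Icc).prod hB).inter_right (hK'.preimage hG)
  refine ⟨Grp_j A B ⁻¹' _, (Grp_j_emb.isInducing.isCompact_preimage_iff ?_).2 hC, ?_⟩
  · rintro ⟨⟨a, s⟩, b⟩ ⟨⟨⟨-, hs0, hs1⟩, -⟩, y, -, hy⟩
    refine Grp_j_range.2 ⟨lt_of_le_of_ne hs0 ?_, lt_of_le_of_ne hs1 ?_⟩
    · intro e
      have e' : (0 : ℝ) = s := e
      subst e'
      exact coe_ne_infty y (hy.trans (h0 a b))
    · intro e
      have e' : s = (1 : ℝ) := e
      subst e'
      exact coe_ne_infty y (hy.trans (h1 a b))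
  · rintro ⟨⟨a, s⟩, b⟩ y e hy
    obtain ⟨ha, hb⟩ := h a s b y e hy
    exact ⟨⟨⟨ha, s.2.1.le, s.2.2.le⟩, hb⟩, y, hy, e.symm⟩

theorem Grp_cat_cont (f g : BM ((A × J) × B) Y) :
    Continuous fun p : (A × ℝ) × B => if p.1.2 ≤ 1 / 2 then ev f p.1.1 (2 * p.1.2) p.2
      else ev g p.1.1 (2 * p.1.2 - 1) p.2 := by
  refine Continuous.if_le (Grp_ev_cont f (by fun_prop) (by fun_prop) (by fun_prop))
    (Grp_ev_cont g (by fun_prop) (by fun_prop) (by fun_prop)) (by fun_prop) continuous_const ?_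
  intro p hp
  rw [Grp_ev_ge f _ (by rw [hp]; norm_num), Grp_ev_le g _ (by rw [hp]; norm_num)]

/-- The extension by `∞` to real parameters. -/
noncomputable def evB (f : BM ((A × J) × B) Y) : BM ((A × ℝ) × B) Y :=
  ⟨fun p => ev f p.1.1 p.1.2 p.2, by rw [Grp_ev_eq]; exact BM.cont _,
    by rw [Grp_ev_eq]; exact BM.tend _⟩

/-- Concatenation. -/
noncomputable def cat (f g : BM ((A × J) × B) Y) : BM ((A × J) × B) Y :=
  ⟨fun p => if (p.1.2 : ℝ) ≤ 1 / 2 then ev f p.1.1 (2 * p.1.2) p.2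
    else ev g p.1.1 (2 * p.1.2 - 1) p.2, by
    exact (Grp_cat_cont f g).comp (Grp_j_emb (A := A) (B := B)).continuous, by
    refine Grp_tend (fun a s b => if s ≤ 1 / 2 then ev f a (2 * s) b else ev g a (2 * s - 1) b)
      (Grp_cat_cont f g) (fun a b => ?_) (fun a b => ?_) fun K hK => ?_
    · rw [if_pos (by norm_num), Grp_ev_le f _ (by norm_num)]
    · rw [if_neg (by norm_num), Grp_ev_ge g _ (by norm_num)]
    · obtain ⟨CA, CB, hA, hB, h⟩ := Grp_ev_cpt f hK
      obtain ⟨CA', CB', hA', hB', h'⟩ := Grp_ev_cpt g hK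
      refine ⟨CA ∪ CA', CB ∪ CB', hA.union hA', hB.union hB', fun a s b y e hy => ?_⟩
      split_ifs at e
      · exact ⟨Or.inl (h _ _ _ y e hy).1, Or.inl (h _ _ _ y e hy).2⟩
      · exact ⟨Or.inr (h' _ _ _ y e hy).1, Or.inr (h' _ _ _ y e hy).2⟩⟩

theorem cat_f (f g : BM ((A × J) × B) Y) (a : A) (s : J) (b : B) :
    (cat f g).f ((a, s), b) = if (s : ℝ) ≤ 1 / 2 then ev f a (2 * s) b else ev g a (2 * s - 1) b :=
  rfl

/-- Reversal. -/
noncomputable def rev (f : BM ((A × J) × B) Y) : BM ((A × J) × B) Y :=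
  ⟨fun p => ev f p.1.1 (1 - p.1.2) p.2,
    by exact Grp_ev_cont f (by fun_prop) (by fun_prop) (by fun_prop), by
    refine Grp_tend (fun a s b => ev f a (1 - s) b)
      (Grp_ev_cont f (by fun_prop) (by fun_prop) (by fun_prop)) (fun a b => ?_) (fun a b => ?_)
      fun K hK => ?_
    · exact Grp_ev_ge f _ (by norm_num) _
    · exact Grp_ev_le f _ (by norm_num) _
    · obtain ⟨CA, CB, hA, hB, h⟩ := Grp_ev_cpt f hK
      exact ⟨CA, CB, hA, hB, fun a s b y e hy => h _ _ _ y e hy⟩⟩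

theorem Grp_ev_cat (f g : BM ((A × J) × B) Y) (a : A) (s : ℝ) (b : B) :
    ev (cat f g) a s b = if s ≤ 1 / 2 then ev f a (2 * s) b else ev g a (2 * s - 1) b := by
  by_cases h : s ∈ Ioo (0 : ℝ) 1
  · rw [ev_of_mem _ a h b]
    rfl
  · rw [ev_of_not _ a h b]
    rcases le_or_gt s 0 with h0 | h0
    · rw [if_pos (by linarith), Grp_ev_le f _ (by linarith)]
    · have h1 : 1 ≤ s := not_lt.1 fun h1 => h ⟨h0, h1⟩
      rw [if_neg (by linarith), Grp_ev_ge g _ (by linarith)]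

theorem Grp_ev_rev (f : BM ((A × J) × B) Y) (a : A) (s : ℝ) (b : B) :
    ev (rev f) a s b = ev f a (1 - s) b := by
  by_cases h : s ∈ Ioo (0 : ℝ) 1
  · rw [ev_of_mem _ a h b]
    rfl
  · rw [ev_of_not _ a h b, ev_of_not]
    exact fun h' => h ⟨by linarith [h'.2], by linarith [h'.1]⟩

variable {𝒢 : Set S} {α : Act S A} {γ : Act S B} {β : Act S Y} {D : Set Y}
  {f g f' g' : BM ((A × J) × B) Y}

omit [LC A] [LC B] [LC Y] in
theorem Grp_ev_eqv (hf : Good 𝒢 ((α.prod triv).prod γ) β D f) {u : S} (hu : u ∈ 𝒢) (a : A)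
    (s : ℝ) (b : B) : ev f (α u a) s (γ u b) = (ev f a s b).map (β u) := by
  by_cases h : s ∈ Ioo (0 : ℝ) 1
  · rw [ev_of_mem _ _ h, ev_of_mem _ _ h]
    exact hf.eqv u hu ((a, ⟨s, h⟩), b)
  · rw [ev_of_not _ _ h, ev_of_not _ _ h]
    rfl

omit [LC A] [LC B] [LC Y] in
theorem Grp_ev_mem (hf : Good 𝒢 ((α.prod triv).prod γ) β D f) {a : A} {s : ℝ} {b : B} {y : Y}
    (e : ev f a s b = y) : y ∈ D := by
  by_cases h : s ∈ Ioo (0 : ℝ) 1
  · rw [ev_of_mem _ _ h] at e
    exact hf.mem _ y e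
  · rw [ev_of_not _ _ h] at e
    exact absurd e (infty_ne_coe y)

/-- A homotopy with the time coordinate moved into the last factor. -/
noncomputable def Grp_in (H : BM (((A × J) × B) × I) Y) : BM ((A × J) × (B × I)) Y :=
  H.pre (Homeomorph.prodAssoc (A × J) B I).symm (Homeomorph.isProperMap _)

/-- The inverse operation. -/
noncomputable def Grp_out (H : BM ((A × J) × (B × I)) Y) : BM (((A × J) × B) × I) Y :=
  H.pre (Homeomorph.prodAssoc (A × J) B I) (Homeomorph.isProperMap _)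

omit [LC A] [LC B] [LC Y] in
theorem Grp_in_good {H : BM (((A × J) × B) × I) Y}
    (h : Good 𝒢 (((α.prod triv).prod γ).prod triv) β D H) :
    Good 𝒢 ((α.prod triv).prod (γ.prod triv)) β D (Grp_in H) :=
  ⟨fun u hu x => h.eqv u hu ((x.1, x.2.1), x.2.2), fun x y e => h.mem ((x.1, x.2.1), x.2.2) y e⟩

omit [LC A] [LC B] [LC Y] in
theorem Grp_out_good {H : BM ((A × J) × (B × I)) Y}
    (h : Good 𝒢 ((α.prod triv).prod (γ.prod triv)) β D H) :
    Good 𝒢 (((α.prod triv).prod γ).prod triv) β D (Grp_out H) :=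
  ⟨fun u hu x => h.eqv u hu (x.1.1, (x.1.2, x.2)), fun x y e => h.mem (x.1.1, (x.1.2, x.2)) y e⟩

omit [LC A] [LC B] [LC Y] in
theorem Grp_ev_in {H : BM (((A × J) × B) × I) Y} {t : I} (h : ∀ x, H.f (x, t) = f.f x) (a : A)
    (s : ℝ) (b : B) : ev (Grp_in H) a s (b, t) = ev f a s b := by
  by_cases hs : s ∈ Ioo (0 : ℝ) 1
  · rw [ev_of_mem _ _ hs, ev_of_mem _ _ hs]
    exact h _
  · rw [ev_of_not _ _ hs, ev_of_not _ _ hs]

theorem Good.cat (hf : Good 𝒢 ((α.prod triv).prod γ) β D f)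
    (hg : Good 𝒢 ((α.prod triv).prod γ) β D g) : Good 𝒢 ((α.prod triv).prod γ) β D (cat f g) := by
  refine ⟨fun u hu ⟨⟨a, s⟩, b⟩ => ?_, fun ⟨⟨a, s⟩, b⟩ y e => ?_⟩
  · change (RB.cat f g).f ((α u a, s), γ u b) = _
    rw [cat_f, cat_f]
    split_ifs
    · exact Grp_ev_eqv hf hu _ _ _
    · exact Grp_ev_eqv hg hu _ _ _
  · rw [cat_f] at e
    split_ifs at e
    · exact Grp_ev_mem hf e
    · exact Grp_ev_mem hg e

theorem Good.rev (hf : Good 𝒢 ((α.prod triv).prod γ) β D f) :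
    Good 𝒢 ((α.prod triv).prod γ) β D (rev f) :=
  ⟨fun _ hu x => Grp_ev_eqv hf hu x.1.1 _ x.2, fun _ _ e => Grp_ev_mem hf e⟩

theorem Ht.cat (hf : Ht 𝒢 ((α.prod triv).prod γ) β D f f')
    (hg : Ht 𝒢 ((α.prod triv).prod γ) β D g g') :
    Ht 𝒢 ((α.prod triv).prod γ) β D (cat f g) (cat f' g') := by
  obtain ⟨H, hH, a0, a1⟩ := hf
  obtain ⟨L, hL, b0, b1⟩ := hg
  refine ⟨Grp_out (RB.cat (Grp_in H) (Grp_in L)),
    Grp_out_good ((Grp_in_good hH).cat (Grp_in_good hL)), fun ⟨⟨a, s⟩, b⟩ => ?_,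
    fun ⟨⟨a, s⟩, b⟩ => ?_⟩
  · change (RB.cat (Grp_in H) (Grp_in L)).f ((a, s), (b, 0)) = _
    rw [cat_f, cat_f, Grp_ev_in a0, Grp_ev_in b0]
  · change (RB.cat (Grp_in H) (Grp_in L)).f ((a, s), (b, 1)) = _
    rw [cat_f, cat_f, Grp_ev_in a1, Grp_ev_in b1]

theorem Ht.rev (hf : Ht 𝒢 ((α.prod triv).prod γ) β D f f') :
    Ht 𝒢 ((α.prod triv).prod γ) β D (rev f) (rev f') := by
  obtain ⟨H, hH, a0, a1⟩ := hf
  exact ⟨Grp_out (RB.rev (Grp_in H)), Grp_out_good (Grp_in_good hH).rev,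
    fun x => Grp_ev_in a0 x.1.1 _ x.2, fun x => Grp_ev_in a1 x.1.1 _ x.2⟩

/-- Reparametrisation homotopies. -/
theorem ht_reparam' (hf : Good 𝒢 ((α.prod triv).prod γ) β D f) {ρ : ℝ × I → ℝ} (hρ : Continuous ρ)
    (h0 : ∀ t, ρ (0, t) ∉ Ioo (0 : ℝ) 1) (h1 : ∀ t, ρ (1, t) ∉ Ioo (0 : ℝ) 1)
    {f₀ f₁ : BM ((A × J) × B) Y} (e₀ : ∀ a (s : J) b, f₀.f ((a, s), b) = ev f a (ρ (s, 0)) b)
    (e₁ : ∀ a (s : J) b, f₁.f ((a, s), b) = ev f a (ρ (s, 1)) b) :
    Ht 𝒢 ((α.prod triv).prod γ) β D f₀ f₁ := by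
  have hc : Continuous fun p : (A × ℝ) × (B × I) => ev f p.1.1 (ρ (p.1.2, p.2.2)) p.2.1 :=
    Grp_ev_cont f (by fun_prop) (by fun_prop) (by fun_prop)
  let H : BM ((A × J) × (B × I)) Y :=
    ⟨fun p => ev f p.1.1 (ρ (p.1.2, p.2.2)) p.2.1,
      hc.comp (Grp_j_emb (A := A) (B := B × I)).continuous,
      Grp_tend (fun a s (q : B × I) => ev f a (ρ (s, q.2)) q.1) hc
        (fun a q => ev_of_not f a (h0 q.2) q.1) (fun a q => ev_of_not f a (h1 q.2) q.1)
        fun K hK => by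
          obtain ⟨CA, CB, hA, hB, h⟩ := Grp_ev_cpt f hK
          exact ⟨CA, CB ×ˢ univ, hA, hB.prod isCompact_univ, fun a s q y e hy =>
            ⟨(h _ _ _ y e hy).1, (h _ _ _ y e hy).2, trivial⟩⟩⟩
  have hH : Good 𝒢 ((α.prod triv).prod (γ.prod triv)) β D H :=
    ⟨fun _ hu x => Grp_ev_eqv hf hu x.1.1 _ x.2.1, fun _ _ e => Grp_ev_mem hf e⟩
  exact ⟨Grp_out H, Grp_out_good hH, fun x => (e₀ x.1.1 x.1.2 x.2).symm,
    fun x => (e₁ x.1.1 x.1.2 x.2).symm⟩

theorem Grp_assoc {k : BM ((A × J) × B) Y} (hf : Good 𝒢 ((α.prod triv).prod γ) β D f)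
    (hg : Good 𝒢 ((α.prod triv).prod γ) β D g) (hk : Good 𝒢 ((α.prod triv).prod γ) β D k) :
    Ht 𝒢 ((α.prod triv).prod γ) β D (cat (cat f g) k) (cat f (cat g k)) := by
  refine ht_reparam' ((hf.cat hg).cat hk)
    (ρ := fun p => (1 - (p.2 : ℝ)) * p.1 + p.2 * max (p.1 / 2) (max (p.1 - 1 / 4) (2 * p.1 - 1)))
    (by fun_prop) (fun t => ?_) (fun t => ?_) (fun a s b => ?_) (fun a s b => ?_)
  · norm_num
  · norm_num
  · simp [ev_coe]
  · have e : ∀ x : ℝ, (1 - ((1 : I) : ℝ)) * (s : ℝ) + ((1 : I) : ℝ) * x = x := fun x => by simp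
    simp only [e]
    rw [cat_f, Grp_ev_cat, Grp_ev_cat, Grp_ev_cat]
    rcases le_or_gt (s : ℝ) (1 / 2) with h | h
    · have e1 : max ((s : ℝ) / 2) (max ((s : ℝ) - 1 / 4) (2 * s - 1)) = s / 2 :=
        max_eq_left (max_le (by linarith) (by linarith))
      rw [e1, if_pos h, if_pos (by linarith), if_pos (by linarith)]
      congr 1
      ring
    · rcases le_or_gt (s : ℝ) (3 / 4) with h' | h'
      · have e1 : max ((s : ℝ) / 2) (max ((s : ℝ) - 1 / 4) (2 * s - 1)) = s - 1 / 4 := by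
          rw [max_eq_left (show 2 * (s : ℝ) - 1 ≤ s - 1 / 4 by linarith)]
          exact max_eq_right (by linarith)
        rw [e1, if_neg (by linarith), if_pos (by linarith), if_pos (by linarith),
          if_neg (by linarith)]
        congr 1
        ring
      · have e1 : max ((s : ℝ) / 2) (max ((s : ℝ) - 1 / 4) (2 * s - 1)) = 2 * s - 1 := by
          rw [max_eq_right (show (s : ℝ) - 1 / 4 ≤ 2 * s - 1 by linarith)]
          exact max_eq_right (by linarith)
        rw [e1, if_neg (by linarith), if_neg (by linarith), if_neg (by linarith)]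

theorem Grp_zero_add (hf : Good 𝒢 ((α.prod triv).prod γ) β D f) :
    Ht 𝒢 ((α.prod triv).prod γ) β D (cat BM.zero f) f := by
  refine ht_reparam' hf (ρ := fun p => (1 - (p.2 : ℝ)) * (2 * p.1 - 1) + p.2 * p.1)
    (by fun_prop) (fun t => ?_) (fun t => ?_) (fun a s b => ?_) (fun a s b => ?_)
  · intro h
    have h1 := h.1
    have h2 := t.2.2
    simp only at h1
    linarith
  · intro h
    have h1 := h.2
    simp only at h1
    linarith
  · have e : ∀ x y : ℝ, (1 - ((0 : I) : ℝ)) * x + ((0 : I) : ℝ) * y = x := fun x y => by simp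
    simp only [e]
    rw [cat_f]
    split_ifs with h
    · rw [Grp_ev_zero, Grp_ev_le f _ (by linarith)]
    · rfl
  · simp [ev_coe]

theorem Grp_neg_add (hf : Good 𝒢 ((α.prod triv).prod γ) β D f) :
    Ht 𝒢 ((α.prod triv).prod γ) β D (cat (rev f) f) BM.zero := by
  refine ht_reparam' hf (ρ := fun p => (1 - (p.2 : ℝ)) * |1 - 2 * p.1| + p.2)
    (by fun_prop) (fun t => ?_) (fun t => ?_) (fun a s b => ?_) (fun a s b => ?_)
  · norm_num
  · norm_num
  · have e : ∀ x : ℝ, (1 - ((0 : I) : ℝ)) * x + ((0 : I) : ℝ) = x := fun x => by simp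
    simp only [e]
    rw [cat_f]
    split_ifs with h
    · rw [Grp_ev_rev, abs_of_nonneg (by linarith)]
    · rw [abs_of_nonpos (by linarith [not_le.1 h])]
      congr 1
      ring
  · rw [Grp_ev_ge f _ (by simp)]
    rfl

noncomputable instance : Add (HC 𝒢 ((α.prod (triv : Act S J)).prod γ) β D) :=
  ⟨Quot.map₂ (fun f g => ⟨cat f.1 g.1, f.2.cat g.2⟩)
    (fun f _ _ h => (Ht.refl f.2).cat h) (fun _ _ g h => h.cat (Ht.refl g.2))⟩

noncomputable instance : Neg (HC 𝒢 ((α.prod (triv : Act S J)).prod γ) β D) :=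
  ⟨Quot.map (fun f => ⟨rev f.1, f.2.rev⟩) (fun _ _ h => h.rev)⟩

theorem HC.mk_add (hf : Good 𝒢 ((α.prod triv).prod γ) β D f)
    (hg : Good 𝒢 ((α.prod triv).prod γ) β D g) :
    HC.mk f hf + HC.mk g hg = HC.mk (cat f g) (hf.cat hg) := rfl

noncomputable instance : AddGroup (HC 𝒢 ((α.prod (triv : Act S J)).prod γ) β D) :=
  AddGroup.ofLeftAxioms
    (by
      intro x y z
      obtain ⟨f, hf, rfl⟩ := HC.mk_surj x
      obtain ⟨g, hg, rfl⟩ := HC.mk_surj y
      obtain ⟨k, hk, rfl⟩ := HC.mk_surj z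
      exact Quot.sound (Grp_assoc hf hg hk))
    (by
      intro x
      obtain ⟨f, hf, rfl⟩ := HC.mk_surj x
      exact Quot.sound (Grp_zero_add hf))
    (by
      intro x
      obtain ⟨f, hf, rfl⟩ := HC.mk_surj x
      exact Quot.sound (Grp_neg_add hf))

/-- Naturality of concatenation for operations that are fibrewise over `J`. -/
theorem cat_nat {A' B' Y' : Type} [TopologicalSpace A'] [TopologicalSpace B'] [TopologicalSpace Y']
    [LC A'] [LC B'] [LC Y'] {F G K : BM ((A' × J) × B') Y'}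
    (h : ∀ a' b', (∀ s, F.f ((a', s), b') = ∞ ∧ G.f ((a', s), b') = ∞ ∧ K.f ((a', s), b') = ∞) ∨
      ∃ (a : A) (b : B) (k : OnePoint Y → OnePoint Y'), k ∞ = ∞ ∧ ∀ s,
        F.f ((a', s), b') = k (f.f ((a, s), b)) ∧ G.f ((a', s), b') = k (g.f ((a, s), b)) ∧
        K.f ((a', s), b') = k ((cat f g).f ((a, s), b))) : K = cat F G := by
  refine BM.ext fun ⟨⟨a', s⟩, b'⟩ => ?_
  rw [cat_f]
  rcases h a' b' with h | ⟨a, b, k, hk, h⟩
  · have e : ∀ L : BM ((A' × J) × B') Y', (∀ s, L.f ((a', s), b') = ∞) →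
        ∀ r, ev L a' r b' = ∞ := by
      intro L hL r
      by_cases hr : r ∈ Ioo (0 : ℝ) 1
      · rw [ev_of_mem _ _ hr, hL]
      · exact ev_of_not _ _ hr _
    rw [(h s).2.2, e F fun s => (h s).1, e G fun s => (h s).2.1, ite_self]
  · have e : ∀ (L : BM ((A' × J) × B') Y') (l : BM ((A × J) × B) Y),
        (∀ s, L.f ((a', s), b') = k (l.f ((a, s), b))) → ∀ r, ev L a' r b' = k (ev l a r b) := by
      intro L l hL r
      by_cases hr : r ∈ Ioo (0 : ℝ) 1
      · rw [ev_of_mem _ _ hr, ev_of_mem _ _ hr, hL]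
      · rw [ev_of_not _ _ hr, ev_of_not _ _ hr, hk]
    rw [(h s).2.2, e F f fun s => (h s).1, e G g fun s => (h s).2.1, cat_f]
    split_ifs <;> rfl

end RB
end

-- merged part: Pool.Agent.Work.MP_666b5d_gt.Sys
section
/-!
# Filtered systems of levels and the stable groups `E`

A system `sy` has levels `L` with a source factor `sy.B L` and a target factor `sy.T L`, and
transition data between levels.  `E sy 𝒢 α β d` is the colimit of the sets of `𝒢`-homotopy classes
of maps `(X × sy.B L)⁺ → (sy.T L × Y)⁺` whose finite values `(t, y)` satisfy `sy.dg L t = d y`.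

Proof hints.  `big` gives directedness and coequalisation up to homotopy (`Tr.ht_path_prod`,
`Tr.ap_comp`, `Tr.comp_prod`): prove that the relation `Rep.rel` is an equivalence relation, then
`cl_eq_iff` by `Quot.eq` and `Equivalence.eqvGen_iff`.  All the operations commute with `Tr.tr` on
the nose (`BM.ext`, `omap_map`, `ob_map`, `map_ob`), so `hm` in `E.lift` follows from `cl_tr`.
-/

open Set Filter Topology OnePoint
open scoped unitInterval

namespace RB

open Act

universe u v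

/-- Transition with extra factors. -/
abbrev Tr.tr {A T A' T' X Y : Type} [TopologicalSpace A] [TopologicalSpace T] [TopologicalSpace A']
    [TopologicalSpace T'] [TopologicalSpace X] [TopologicalSpace Y] [T2Space T] [T2Space T']
    [T2Space Y] (μ : Tr A T A' T') (f : BM (X × A) (T × Y)) : BM (X × A') (T' × Y) :=
  (μ.prod X Y).ap f

/-- A filtered system of levels. -/
structure Sys (S : Type) (e : S → ℤˣ) where
  Lv : Type u
  B : Lv → Type
  T : Lv → Type
  [tB : ∀ L, TopologicalSpace (B L)]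
  [tT : ∀ L, TopologicalSpace (T L)]
  [lB : ∀ L, LC (B L)]
  [lT : ∀ L, LC (T L)]
  bα : ∀ L, Act S (B L)
  tα : ∀ L, Act S (T L)
  dg : ∀ L, T L → ℂ
  Mor : ∀ L L', Set (Tr (B L) (T L) (B L') (T L'))
  L0 : Lv
  eqv : ∀ {L L'} {μ}, μ ∈ Mor L L' → μ.Eqv univ (bα L) (tα L) (bα L') (tα L')
  dg_eq : ∀ {L L'} {μ}, μ ∈ Mor L L' → ∀ t x, dg L' (μ.Ψ (t, x)) = dg L t
  comp_mem : ∀ {L L' L''} {μ ν}, μ ∈ Mor L L' → ν ∈ Mor L' L'' → μ.comp ν ∈ Mor L L''
  big : ∀ L L', ∃ L'', ∃ s ∈ Mor L L'', ∃ ν ∈ Mor L' L'', ∀ μ ∈ Mor L L',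
    ∃ H : Tr (B L) (T L) (B L'' × I) (T L''),
      H.Eqv univ (bα L) (tα L) ((bα L'').prod triv) (tα L'') ∧
      (∀ t x, dg L'' (H.Ψ (t, x)) = dg L t) ∧ H.slice 0 = s ∧ H.slice 1 = μ.comp ν
  suc : ∀ L, ∃ L', ∃ μ ∈ Mor L L', ∃ (c : B L' ≃ₜ B L × ℂ) (Ψ : T L × ℂ → T L'),
    (∀ g b, c (bα L' g b) = (bα L g (c b).1, tw (e g) (c b).2)) ∧
    PMap univ ((tα L).prod (via e cj)) (tα L') Ψ ∧ (∀ t z, dg L' (Ψ (t, z)) = dg L t) ∧
    (∀ b, μ.a b = (c b).1) ∧ ∀ t b, μ.Ψ (t, b) = Ψ (t, (c b).2)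

attribute [instance] Sys.tB Sys.tT Sys.lB Sys.lT

variable {S : Type} {e : S → ℤˣ} {X Y X' Y' U Z : Type} [TopologicalSpace X] [TopologicalSpace Y]
  [TopologicalSpace X'] [TopologicalSpace Y'] [TopologicalSpace U] [TopologicalSpace Z]

/-- The degree condition. -/
def Sys.D (sy : Sys.{u} S e) (L : sy.Lv) (d : Y → ℤ) : Set (sy.T L × Y) :=
  {p | sy.dg L p.1 = (d p.2 : ℂ)}

/-- Good maps at a level. -/
abbrev Sys.Gd (sy : Sys.{u} S e) (𝒢 : Set S) (α : Act S X) (β : Act S Y) (d : Y → ℤ) (L : sy.Lv)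
    (f : BM (X × sy.B L) (sy.T L × Y)) : Prop :=
  Good 𝒢 (α.prod (sy.bα L)) ((sy.tα L).prod β) (sy.D L d) f

/-- Homotopic maps at a level. -/
abbrev Sys.Hm (sy : Sys.{u} S e) (𝒢 : Set S) (α : Act S X) (β : Act S Y) (d : Y → ℤ) (L : sy.Lv)
    (f g : BM (X × sy.B L) (sy.T L × Y)) : Prop :=
  Ht 𝒢 (α.prod (sy.bα L)) ((sy.tα L).prod β) (sy.D L d) f g

/-- The symmetries form a topological group acting on all levels. -/
structure Sys.Grp [Group S] [TopologicalSpace S] (sy : Sys.{u} S e) : Prop where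
  b : ∀ L, GA univ (sy.bα L)
  t : ∀ L, GA univ (sy.tα L)
  dg : ∀ L g t, sy.dg L (sy.tα L g t) = sy.dg L t

/-- Representatives. -/
structure Rep (sy : Sys.{u} S e) (𝒢 : Set S) (α : Act S X) (β : Act S Y) (d : Y → ℤ) where
  L : sy.Lv
  f : BM (X × sy.B L) (sy.T L × Y)
  hf : sy.Gd 𝒢 α β d L f

variable [LC X] [LC Y] [LC X'] [LC Y'] [LC U] [LC Z]

/-- Stably homotopic representatives. -/
def Rep.rel {sy : Sys.{u} S e} {𝒢 : Set S} {α : Act S X} {β : Act S Y} {d : Y → ℤ}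
    (p q : Rep sy 𝒢 α β d) : Prop :=
  ∃ L, ∃ μ ∈ sy.Mor p.L L, ∃ ν ∈ sy.Mor q.L L, sy.Hm 𝒢 α β d L (μ.tr p.f) (ν.tr q.f)

/-- The stable homotopy classes. -/
def E (sy : Sys.{u} S e) (𝒢 : Set S) (α : Act S X) (β : Act S Y) (d : Y → ℤ) : Type u :=
  Quot (Rep.rel (sy := sy) (𝒢 := 𝒢) (α := α) (β := β) (d := d))

variable {sy : Sys.{u} S e} {𝒢 ℋ : Set S} {α : Act S X} {β : Act S Y} {d : Y → ℤ} {α' : Act S X'}
  {β' : Act S Y'} {d' : Y' → ℤ} {αU : Act S U} {γ : Act S Z}

/-- The class of a representative. -/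
def cl (L : sy.Lv) (f : BM (X × sy.B L) (sy.T L × Y)) (hf : sy.Gd 𝒢 α β d L f) : E sy 𝒢 α β d :=
  Quot.mk _ ⟨L, f, hf⟩

instance : Zero (E sy 𝒢 α β d) := ⟨cl sy.L0 BM.zero Good.zero⟩

theorem cl_surj (x : E sy 𝒢 α β d) : ∃ L f hf, x = cl L f hf := by
  obtain ⟨⟨L, f, hf⟩, rfl⟩ := Quot.exists_rep x
  exact ⟨L, f, hf, rfl⟩

theorem gd_tr {L L' : sy.Lv} {μ} (hμ : μ ∈ sy.Mor L L') {f : BM (X × sy.B L) (sy.T L × Y)}
    (hf : sy.Gd 𝒢 α β d L f) : sy.Gd 𝒢 α β d L' (μ.tr f) :=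
  Tr.good_ap (((sy.eqv hμ).mono (subset_univ _)).prod α β)
    (fun t ht x => (sy.dg_eq hμ t.1 x.2).trans ht) hf

theorem hm_tr {L L' : sy.Lv} {μ} (hμ : μ ∈ sy.Mor L L') {f g : BM (X × sy.B L) (sy.T L × Y)}
    (hf : sy.Hm 𝒢 α β d L f g) : sy.Hm 𝒢 α β d L' (μ.tr f) (μ.tr g) :=
  Tr.ht_ap (((sy.eqv hμ).mono (subset_univ _)).prod α β)
    (fun t ht x => (sy.dg_eq hμ t.1 x.2).trans ht) hf

theorem Sys_tr_comp {L L' L'' : sy.Lv} (μ : Tr (sy.B L) (sy.T L) (sy.B L') (sy.T L'))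
    (ν : Tr (sy.B L') (sy.T L') (sy.B L'') (sy.T L'')) (f : BM (X × sy.B L) (sy.T L × Y)) :
    (μ.comp ν).tr f = ν.tr (μ.tr f) := by
  rw [Tr.tr, Tr.comp_prod, Tr.ap_comp]

theorem Sys_big (L L' : sy.Lv) : ∃ L'', ∃ s ∈ sy.Mor L L'', ∃ ν ∈ sy.Mor L' L'',
    ∀ μ ∈ sy.Mor L L', ∀ f : BM (X × sy.B L) (sy.T L × Y), sy.Gd 𝒢 α β d L f →
      sy.Hm 𝒢 α β d L'' (s.tr f) (ν.tr (μ.tr f)) := by
  obtain ⟨L'', s, hs, ν, hν, h⟩ := sy.big L L'
  refine ⟨L'', s, hs, ν, hν, fun μ hμ f hf => ?_⟩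
  obtain ⟨H, hH, hd, h0, h1⟩ := h μ hμ
  rw [← Sys_tr_comp, ← h0, ← h1]
  exact Tr.ht_path_prod (hH.mono (subset_univ _)) (fun t y ht x => (hd t x).trans ht) hf

theorem Sys_rel_equiv :
    Equivalence (Rep.rel (sy := sy) (𝒢 := 𝒢) (α := α) (β := β) (d := d)) := by
  refine ⟨fun p => ?_, fun {p q} h => ?_, fun {p q r} h h' => ?_⟩
  · obtain ⟨L, s, hs, -⟩ := sy.big p.L p.L
    exact ⟨L, s, hs, s, hs, Ht.refl (gd_tr hs p.hf)⟩
  · obtain ⟨L, μ, hμ, ν, hν, h⟩ := h
    exact ⟨L, ν, hν, μ, hμ, h.symm⟩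
  · obtain ⟨L₁, μ₁, hμ₁, ν₁, hν₁, h₁⟩ := h
    obtain ⟨L₂, μ₂, hμ₂, ν₂, hν₂, h₂⟩ := h'
    obtain ⟨L₃, a, ha, b, hb, -⟩ := sy.big L₁ L₂
    obtain ⟨L₄, s, hs, ν, hν, hb4⟩ := Sys_big (𝒢 := 𝒢) (α := α) (β := β) (d := d) q.L L₃
    refine ⟨L₄, (μ₁.comp a).comp ν, sy.comp_mem (sy.comp_mem hμ₁ ha) hν,
      (ν₂.comp b).comp ν, sy.comp_mem (sy.comp_mem hν₂ hb) hν, ?_⟩
    have e₁ := hb4 _ (sy.comp_mem hν₁ ha) q.f q.hf
    have e₂ := hb4 _ (sy.comp_mem hμ₂ hb) q.f q.hf
    simp only [Sys_tr_comp] at e₁ e₂ ⊢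
    exact ((hm_tr hν (hm_tr ha h₁)).trans e₁.symm).trans (e₂.trans (hm_tr hν (hm_tr hb h₂)))

theorem cl_eq_iff {L L' : sy.Lv} {f : BM (X × sy.B L) (sy.T L × Y)} {g : BM (X × sy.B L') (sy.T L' × Y)}
    {hf : sy.Gd 𝒢 α β d L f} {hg : sy.Gd 𝒢 α β d L' g} : cl L f hf = cl L' g hg ↔
      ∃ L'', ∃ μ ∈ sy.Mor L L'', ∃ ν ∈ sy.Mor L' L'', sy.Hm 𝒢 α β d L'' (μ.tr f) (ν.tr g) :=
  Quot.eq.trans Sys_rel_equiv.eqvGen_iff

theorem cl_eq_iff' {L : sy.Lv} {f g : BM (X × sy.B L) (sy.T L × Y)}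
    {hf : sy.Gd 𝒢 α β d L f} {hg : sy.Gd 𝒢 α β d L g} : cl L f hf = cl L g hg ↔
      ∃ L', ∃ μ ∈ sy.Mor L L', sy.Hm 𝒢 α β d L' (μ.tr f) (μ.tr g) := by
  rw [cl_eq_iff]
  constructor
  · rintro ⟨L', μ, hμ, ν, hν, h⟩
    obtain ⟨L'', s, hs, κ, hκ, hb⟩ := Sys_big (𝒢 := 𝒢) (α := α) (β := β) (d := d) L L'
    exact ⟨L'', s, hs, ((hb μ hμ f hf).trans (hm_tr hκ h)).trans (hb ν hν g hg).symm⟩
  · rintro ⟨L', μ, hμ, h⟩
    exact ⟨L', μ, hμ, μ, hμ, h⟩

theorem cl_htpy {L : sy.Lv} {f g : BM (X × sy.B L) (sy.T L × Y)} (h : sy.Hm 𝒢 α β d L f g) :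
    cl L f h.left = cl L g h.right := by
  obtain ⟨L', s, hs, -⟩ := sy.big L L
  exact cl_eq_iff'.2 ⟨L', s, hs, hm_tr hs h⟩

theorem cl_congr {L : sy.Lv} {f g : BM (X × sy.B L) (sy.T L × Y)} {hf : sy.Gd 𝒢 α β d L f}
    {hg : sy.Gd 𝒢 α β d L g} (h : ∀ x, f.f x = g.f x) : cl L f hf = cl L g hg := by
  have := BM.ext h
  subst this
  rfl

theorem cl_tr {L L' : sy.Lv} {μ} (hμ : μ ∈ sy.Mor L L') {f : BM (X × sy.B L) (sy.T L × Y)}
    (hf : sy.Gd 𝒢 α β d L f) : cl L' (μ.tr f) (gd_tr hμ hf) = cl L f hf := by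
  obtain ⟨L'', s, hs, ν, hν, hb⟩ := Sys_big (𝒢 := 𝒢) (α := α) (β := β) (d := d) L L'
  exact cl_eq_iff.2 ⟨L'', ν, hν, s, hs, (hb μ hμ f hf).symm⟩

theorem cl_zero (L : sy.Lv) : cl L BM.zero Good.zero = (0 : E sy 𝒢 α β d) := by
  obtain ⟨L', s, hs, ν, hν, -⟩ := sy.big L sy.L0
  exact cl_eq_iff.2 ⟨L', s, hs, ν, hν, Ht.of_eq (gd_tr hs Good.zero) fun _ => rfl⟩

theorem cl_eq_zero_iff {L : sy.Lv} {f : BM (X × sy.B L) (sy.T L × Y)} {hf : sy.Gd 𝒢 α β d L f} :
    cl L f hf = 0 ↔ ∃ L', ∃ μ ∈ sy.Mor L L', sy.Hm 𝒢 α β d L' (μ.tr f) BM.zero := by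
  rw [← cl_zero L, cl_eq_iff']
  simp only [Tr.tr, Tr.ap_zero]

theorem cl_eq_zero_of_ht {L : sy.Lv} {f : BM (X × sy.B L) (sy.T L × Y)}
    (h : sy.Hm 𝒢 α β d L f BM.zero) : cl L f h.left = 0 :=
  (cl_htpy h).trans (cl_zero L)

theorem Sys.dir (L L' : sy.Lv) : ∃ L'', (sy.Mor L L'').Nonempty ∧ (sy.Mor L' L'').Nonempty := by
  obtain ⟨L'', s, hs, ν, hν, -⟩ := sy.big L L'
  exact ⟨L'', ⟨s, hs⟩, ⟨ν, hν⟩⟩

theorem cl_common (x y : E sy 𝒢 α β d) : ∃ L f g hf hg, x = cl L f hf ∧ y = cl L g hg := by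
  obtain ⟨L, f, hf, rfl⟩ := cl_surj x
  obtain ⟨L', g, hg, rfl⟩ := cl_surj y
  obtain ⟨L'', ⟨μ, hμ⟩, ⟨ν, hν⟩⟩ := Sys.dir L L'
  exact ⟨L'', _, _, _, _, (cl_tr hμ hf).symm, (cl_tr hν hg).symm⟩

theorem cl_common3 (x y z : E sy 𝒢 α β d) :
    ∃ L f g k hf hg hk, x = cl L f hf ∧ y = cl L g hg ∧ z = cl L k hk := by
  obtain ⟨L, f, g, hf, hg, rfl, rfl⟩ := cl_common x y
  obtain ⟨L', k, hk, rfl⟩ := cl_surj z
  obtain ⟨L'', ⟨μ, hμ⟩, ⟨ν, hν⟩⟩ := Sys.dir L L'
  exact ⟨L'', _, _, _, _, _, _, (cl_tr hμ hf).symm, (cl_tr hμ hg).symm, (cl_tr hν hk).symm⟩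

/-- The class of a homotopy class at a level. -/
def clH (L : sy.Lv) (x : HC 𝒢 (α.prod (sy.bα L)) ((sy.tα L).prod β) (sy.D L d)) : E sy 𝒢 α β d :=
  Quot.lift (fun f : {f // sy.Gd 𝒢 α β d L f} => cl L f.1 f.2) (fun _ _ h => cl_htpy h) x

theorem clH_mk (L : sy.Lv) (f : BM (X × sy.B L) (sy.T L × Y)) (hf : sy.Gd 𝒢 α β d L f) :
    clH L (HC.mk f hf) = cl L f hf := rfl

/-- Operations on stable classes from operations on representatives. -/
def E.lift {S' : Type} {e' : S' → ℤˣ} {sy' : Sys.{v} S' e'} {𝒢' : Set S'} {α' : Act S' X'}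
    {β' : Act S' Y'} (φ : sy.Lv → sy'.Lv)
    (op : ∀ L, BM (X × sy.B L) (sy.T L × Y) → BM (X' × sy'.B (φ L)) (sy'.T (φ L) × Y'))
    (hg : ∀ L f, sy.Gd 𝒢 α β d L f → sy'.Gd 𝒢' α' β' d' (φ L) (op L f))
    (hh : ∀ L f g, sy.Hm 𝒢 α β d L f g → sy'.Hm 𝒢' α' β' d' (φ L) (op L f) (op L g))
    (hm : ∀ L L', ∀ μ, ∀ hμ : μ ∈ sy.Mor L L', ∀ f hf,
      cl (φ L') (op L' (μ.tr f)) (hg L' _ (gd_tr hμ hf)) = cl (φ L) (op L f) (hg L f hf))
    (x : E sy 𝒢 α β d) : E sy' 𝒢' α' β' d' :=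
  Quot.lift (fun p : Rep sy 𝒢 α β d => cl (φ p.L) (op p.L p.f) (hg p.L p.f p.hf)) (by
    rintro p q ⟨L, μ, hμ, ν, hν, h⟩
    exact (hm _ _ μ hμ p.f p.hf).symm.trans
      ((cl_htpy (hh L _ _ h)).trans (hm _ _ ν hν q.f q.hf))) x

/-! ### Operations -/

/-- Pull back along a proper map. -/
def pull {h : X' → X} (hh : PMap 𝒢 α' α h) : E sy 𝒢 α β d → E sy 𝒢 α' β d :=
  E.lift id (fun L f => f.pre _ (hh.prodR (sy.bα L)).proper) (fun _ _ hf => hf.pre (hh.prodR _))
    (fun _ _ _ h => h.pre (hh.prodR _))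
    (fun _ _ _ hμ _ hf => (cl_congr fun _ => rfl).trans (cl_tr hμ (hf.pre (hh.prodR _))))

theorem pull_cl {h : X' → X} (hh : PMap 𝒢 α' α h) (L : sy.Lv) (f) (hf : sy.Gd 𝒢 α β d L f) :
    pull hh (cl L f hf) = cl L (f.pre _ (hh.prodR (sy.bα L)).proper) (hf.pre (hh.prodR _)) := rfl

theorem Sys_ext0_tr {j : U → X} (hj : OEmb 𝒢 αU α j) {L L' : sy.Lv}
    (μ : Tr (sy.B L) (sy.T L) (sy.B L') (sy.T L')) (f : BM (U × sy.B L) (sy.T L × Y))
    (x : X × sy.B L') : ((μ.tr f).ext0 _ (hj.prodR (sy.bα L')).emb).f x =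
      (μ.tr (f.ext0 _ (hj.prodR (sy.bα L)).emb)).f x := by
  obtain ⟨x, b⟩ := x
  by_cases hx : x ∈ range j
  · obtain ⟨u, rfl⟩ := hx
    have h1 := BM.ext0_j (μ.tr f) _ (hj.prodR (sy.bα L')).emb (u, b)
    have h2 := BM.ext0_j f _ (hj.prodR (sy.bα L)).emb (u, μ.a b)
    refine h1.trans ?_
    exact (congrArg (OnePoint.map fun t : sy.T L × Y => (μ.Ψ (t.1, b), t.2)) h2).symm
  · have h1 := BM.ext0_not (μ.tr f) _ (hj.prodR (sy.bα L')).emb (x := (x, b))
      (fun ⟨u, hu⟩ => hx ⟨u.1, congrArg Prod.fst hu⟩)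
    have h2 := BM.ext0_not f _ (hj.prodR (sy.bα L)).emb (x := (x, μ.a b))
      (fun ⟨u, hu⟩ => hx ⟨u.1, congrArg Prod.fst hu⟩)
    refine h1.trans ?_
    exact (congrArg (OnePoint.map fun t : sy.T L × Y => (μ.Ψ (t.1, b), t.2)) h2).symm

/-- Push forward along an open embedding. -/
noncomputable def push {j : U → X} (hj : OEmb 𝒢 αU α j) : E sy 𝒢 αU β d → E sy 𝒢 α β d :=
  E.lift id (fun L f => f.ext0 _ (hj.prodR (sy.bα L)).emb) (fun _ _ hf => hf.ext0 (hj.prodR _))
    (fun _ _ _ h => h.ext0 (hj.prodR _))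
    (fun _ _ μ hμ f hf => (cl_congr (Sys_ext0_tr hj μ f)).trans (cl_tr hμ (hf.ext0 (hj.prodR _))))

theorem push_cl {j : U → X} (hj : OEmb 𝒢 αU α j) (L : sy.Lv) (f) (hf : sy.Gd 𝒢 αU β d L f) :
    push hj (cl L f hf) = cl L (f.ext0 _ (hj.prodR (sy.bα L)).emb) (hf.ext0 (hj.prodR _)) := rfl

theorem gd_postP {h : Y → Y'} (hh : PMap 𝒢 β β' h) (hd : ∀ y, d' (h y) = d y) {L : sy.Lv} {f}
    (hf : sy.Gd 𝒢 α β d L f) : sy.Gd 𝒢 α β' d' L (f.map _ (hh.prodL (sy.tα L)).proper) :=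
  hf.map (hh.prodL _) fun y hy => hy.trans (congrArg _ (hd y.2).symm)

/-- Push forward along a proper map of coefficient spaces. -/
def postP {h : Y → Y'} (hh : PMap 𝒢 β β' h) (hd : ∀ y, d' (h y) = d y) :
    E sy 𝒢 α β d → E sy 𝒢 α β' d' :=
  E.lift id (fun L f => f.map _ (hh.prodL (sy.tα L)).proper) (fun _ _ hf => gd_postP hh hd hf)
    (fun _ _ _ h => h.map (hh.prodL _) fun y hy => hy.trans (congrArg _ (hd y.2).symm))
    (fun _ _ _ hμ _ hf => (cl_congr fun _ => by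
      simp only [BM.map_f, Tr.ap_f, omap_map]; rfl).trans (cl_tr hμ (gd_postP hh hd hf)))

theorem postP_cl {h : Y → Y'} (hh : PMap 𝒢 β β' h) (hd : ∀ y, d' (h y) = d y) (L : sy.Lv) (f)
    (hf : sy.Gd 𝒢 α β d L f) : postP hh hd (cl L f hf) =
      cl L (f.map _ (hh.prodL (sy.tα L)).proper) (gd_postP hh hd hf) := rfl

theorem Sys_coll_mem {j : Y' → Y} (hj : OEmb 𝒢 β' β j) (hd : ∀ y, d' y = d (j y)) (L : sy.Lv) :
    ∀ y ∈ sy.D L d, ∀ y' : sy.T L × Y',
      ((BM.coll j hj.emb).idProd (sy.T L)).f y = y' → y' ∈ sy.D L d' := by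
  rintro ⟨t, y⟩ hy y' h
  obtain ⟨u, hu, rfl⟩ := omap_eq_coe.1 h
  by_cases hr : y ∈ range j
  · obtain ⟨v, rfl⟩ := hr
    rw [BM.coll_j] at hu
    obtain rfl := OnePoint.coe_injective hu
    exact hy.trans (congrArg _ (hd v).symm)
  · rw [BM.coll_not _ _ hr] at hu
    exact absurd hu (OnePoint.infty_ne_coe u)

theorem gd_postC {j : Y' → Y} (hj : OEmb 𝒢 β' β j) (hd : ∀ y, d' y = d (j y)) {L : sy.Lv} {f}
    (hf : sy.Gd 𝒢 α β d L f) :
    sy.Gd 𝒢 α β' d' L (((BM.coll j hj.emb).idProd (sy.T L)).comp f) :=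
  hf.comp (((Good.coll hj).idProd _).monoD (subset_univ _)) (Sys_coll_mem hj hd L)

/-- Collapse onto an open subspace of the coefficient space. -/
noncomputable def postC {j : Y' → Y} (hj : OEmb 𝒢 β' β j) (hd : ∀ y, d' y = d (j y)) :
    E sy 𝒢 α β d → E sy 𝒢 α β' d' :=
  E.lift id (fun L f => ((BM.coll j hj.emb).idProd (sy.T L)).comp f)
    (fun _ _ hf => gd_postC hj hd hf)
    (fun L _ _ h => h.comp (((Good.coll hj).idProd _).monoD (subset_univ _)) (Sys_coll_mem hj hd L))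
    (fun _ _ _ hμ _ hf => (cl_congr fun _ => by
      simp only [BM.comp_f, Tr.ap_f, ob_map, map_ob, BM.idProd_f, omap_map]; rfl).trans
        (cl_tr hμ (gd_postC hj hd hf)))

theorem postC_cl {j : Y' → Y} (hj : OEmb 𝒢 β' β j) (hd : ∀ y, d' y = d (j y)) (L : sy.Lv) (f)
    (hf : sy.Gd 𝒢 α β d L f) : postC hj hd (cl L f hf) =
      cl L (((BM.coll j hj.emb).idProd (sy.T L)).comp f) (gd_postC hj hd hf) := rfl

/-- Exchange of the last two factors. -/
def Sys_swap (X Z B : Type) [TopologicalSpace X] [TopologicalSpace Z] [TopologicalSpace B] :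
    (X × Z) × B ≃ₜ (X × B) × Z where
  toFun p := ((p.1.1, p.2), p.1.2)
  invFun p := ((p.1.1, p.2), p.1.2)
  left_inv _ := rfl
  right_inv _ := rfl
  continuous_toFun := by fun_prop
  continuous_invFun := by fun_prop

omit [LC X] in
theorem Sys_sm_eq {B T : Type} [TopologicalSpace B] [TopologicalSpace T] [T2Space T]
    (f : BM (X × B) (T × Y)) (Z : Type) [TopologicalSpace Z] [T2Space Z] :
    (fun p : (X × Z) × B => (f.f (p.1.1, p.2)).map fun q => (q.1, (q.2, p.1.2))) =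
      (((f.prodId Z).pre _ (Sys_swap X Z B).isProperMap).map _
        (Homeomorph.prodAssoc T Y Z).isProperMap).f := by
  funext p
  simp only [BM.map_f, BM.pre_f, BM.prodId_f, omap_map]
  rfl

/-- Smash product with the identity of `Z`, in the middle position. -/
def BM.sm {B T : Type} [TopologicalSpace B] [TopologicalSpace T] [T2Space T]
    (f : BM (X × B) (T × Y)) (Z : Type) [TopologicalSpace Z] [T2Space Z] :
    BM ((X × Z) × B) (T × (Y × Z)) :=
  ⟨fun p => (f.f (p.1.1, p.2)).map fun q => (q.1, (q.2, p.1.2)),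
    by rw [Sys_sm_eq]; exact BM.cont _, by rw [Sys_sm_eq]; exact BM.tend _⟩

theorem Sys_hm_sm (γ : Act S Z) {d₁ : Y × Z → ℤ} (hd : ∀ y z, d₁ (y, z) = d y) {L : sy.Lv} {f g}
    (h : sy.Hm 𝒢 α β d L f g) : sy.Hm 𝒢 (α.prod γ) (β.prod γ) d₁ L (f.sm Z) (g.sm Z) := by
  have h1 : PMap 𝒢 ((α.prod γ).prod (sy.bα L)) ((α.prod (sy.bα L)).prod γ)
      (Sys_swap X Z (sy.B L)) := PMap.homeo _ fun _ _ _ => rfl
  have h2 : PMap 𝒢 (((sy.tα L).prod β).prod γ) ((sy.tα L).prod (β.prod γ))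
      (Homeomorph.prodAssoc (sy.T L) Y Z) := PMap.homeo _ fun _ _ _ => rfl
  have h3 := ((h.prodId γ).pre h1).map (D' := sy.D L d₁) h2
    fun y hy => hy.1.trans (congrArg _ (hd y.1.2 y.2).symm)
  have e₁ : f.sm Z = _ := BM.ext fun x => congrFun (Sys_sm_eq f Z) x
  have e₂ : g.sm Z = _ := BM.ext fun x => congrFun (Sys_sm_eq g Z) x
  rw [e₁, e₂]
  exact h3

theorem gd_sm (γ : Act S Z) {d₁ : Y × Z → ℤ} (hd : ∀ y z, d₁ (y, z) = d y) {L : sy.Lv} {f}
    (hf : sy.Gd 𝒢 α β d L f) : sy.Gd 𝒢 (α.prod γ) (β.prod γ) d₁ L (f.sm Z) :=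
  (Sys_hm_sm γ hd (Ht.refl hf)).left

/-- Smash product with the identity of `Z`. -/
def sm (γ : Act S Z) {d₁ : Y × Z → ℤ} (hd : ∀ y z, d₁ (y, z) = d y) :
    E sy 𝒢 α β d → E sy 𝒢 (α.prod γ) (β.prod γ) d₁ :=
  E.lift id (fun _ f => f.sm Z) (fun _ _ hf => gd_sm γ hd hf) (fun _ _ _ h => Sys_hm_sm γ hd h)
    (fun _ _ _ hμ _ hf => (cl_congr fun _ => by
      simp only [BM.sm, Tr.ap_f, omap_map]; rfl).trans (cl_tr hμ (gd_sm γ hd hf)))

theorem sm_cl (γ : Act S Z) {d₁ : Y × Z → ℤ} (hd : ∀ y z, d₁ (y, z) = d y) (L : sy.Lv) (f)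
    (hf : sy.Gd 𝒢 α β d L f) : sm γ hd (cl L f hf) = cl L (f.sm Z) (gd_sm γ hd hf) := rfl

/-- Restriction of the symmetries. -/
def res (h : ℋ ⊆ 𝒢) : E sy 𝒢 α β d → E sy ℋ α β d :=
  E.lift id (fun _ f => f) (fun _ _ hf => hf.mono h) (fun _ _ _ hf => hf.mono h)
    (fun _ _ _ hμ _ hf => cl_tr hμ (hf.mono h))

theorem res_cl (h : ℋ ⊆ 𝒢) (L : sy.Lv) (f) (hf : sy.Gd 𝒢 α β d L f) :
    res h (cl L f hf) = cl L f (hf.mono h) := rfl

end RB
end

-- merged part: Pool.Agent.Work.MP_666b5d_gt.SysF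
section
/-!
# Formal properties of the operations on `E`

Everything here follows by choosing a representative (`cl_surj`), computing with the `*_cl` lemmas
and `cl_congr`.
-/

set_option linter.unusedSectionVars false

open Set Filter Topology OnePoint
open scoped unitInterval

namespace RB

open Act

universe u v

variable {S : Type} {e : S → ℤˣ} {X Y X' Y' X'' Y'' U Z : Type} [TopologicalSpace X]
  [TopologicalSpace Y] [TopologicalSpace X'] [TopologicalSpace Y'] [TopologicalSpace X'']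
  [TopologicalSpace Y''] [TopologicalSpace U] [TopologicalSpace Z]
  [LC X] [LC Y] [LC X'] [LC Y'] [LC X''] [LC Y''] [LC U] [LC Z]
  {sy : Sys.{u} S e} {𝒢 ℋ 𝒦 : Set S} {α : Act S X} {β : Act S Y} {d : Y → ℤ} {α' : Act S X'}
  {β' : Act S Y'} {d' : Y' → ℤ} {α'' : Act S X''} {β'' : Act S Y''} {d'' : Y'' → ℤ}
  {αU : Act S U} {γ : Act S Z}

theorem E.lift_zero {S' : Type} {e' : S' → ℤˣ} {sy' : Sys.{v} S' e'} {𝒢' : Set S'}
    {α' : Act S' X'} {β' : Act S' Y'} {φ : sy.Lv → sy'.Lv}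
    {op : ∀ L, BM (X × sy.B L) (sy.T L × Y) → BM (X' × sy'.B (φ L)) (sy'.T (φ L) × Y')} {hg hh hm}
    (h0 : ∀ L, op L BM.zero = BM.zero) :
    E.lift (𝒢' := 𝒢') (α' := α') (β' := β') (d' := d') φ op hg hh hm (0 : E sy 𝒢 α β d) = 0 :=
  (cl_congr (hg := Good.zero) fun x => by rw [h0]).trans (cl_zero (φ sy.L0))

@[simp] theorem pull_zero {h : X' → X} (hh : PMap 𝒢 α' α h) :
    pull hh (0 : E sy 𝒢 α β d) = 0 :=
  E.lift_zero fun _ => BM.ext fun _ => rfl

@[simp] theorem push_zero {j : U → X} (hj : OEmb 𝒢 αU α j) :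
    push hj (0 : E sy 𝒢 αU β d) = 0 :=
  E.lift_zero fun L => BM.ext fun p => by
    simp only [BM.ext0, BM.comp_f]
    induction (BM.coll _ (hj.prodR (sy.bα L)).emb).f p using OnePoint.rec <;> rfl

@[simp] theorem postP_zero {h : Y → Y'} (hh : PMap 𝒢 β β' h) (hd : ∀ y, d' (h y) = d y) :
    postP hh hd (0 : E sy 𝒢 α β d) = 0 :=
  E.lift_zero fun _ => BM.ext fun _ => rfl

@[simp] theorem postC_zero {j : Y' → Y} (hj : OEmb 𝒢 β' β j) (hd : ∀ y, d' y = d (j y)) :
    postC hj hd (0 : E sy 𝒢 α β d) = 0 :=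
  E.lift_zero fun _ => BM.ext fun _ => rfl

@[simp] theorem sm_zero (γ : Act S Z) {d₁ : Y × Z → ℤ} (hd : ∀ y z, d₁ (y, z) = d y) :
    sm γ hd (0 : E sy 𝒢 α β d) = 0 :=
  E.lift_zero fun _ => BM.ext fun _ => rfl

@[simp] theorem res_zero (h : ℋ ⊆ 𝒢) : res h (0 : E sy 𝒢 α β d) = 0 :=
  E.lift_zero fun _ => rfl

theorem pull_pull {h : X' → X} (hh : PMap 𝒢 α' α h) {h' : X'' → X'} (hh' : PMap 𝒢 α'' α' h')
    {k : X'' → X} (hk : PMap 𝒢 α'' α k) (he : ∀ x, k x = h (h' x)) (x : E sy 𝒢 α β d) :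
    pull hh' (pull hh x) = pull hk x := by
  obtain ⟨L, f, hf, rfl⟩ := cl_surj x
  rw [pull_cl, pull_cl, pull_cl]
  exact cl_congr fun p => congrArg f.f (Prod.ext (he p.1).symm rfl)

theorem pull_id {h : X → X} (hh : PMap 𝒢 α α h) (he : ∀ x, h x = x) (x : E sy 𝒢 α β d) :
    pull hh x = x := by
  obtain ⟨L, f, hf, rfl⟩ := cl_surj x
  rw [pull_cl]
  exact cl_congr fun p => congrArg f.f (Prod.ext (he p.1) rfl)

theorem pull_inv {h : X' → X} (hh : PMap 𝒢 α' α h) {h' : X → X'} (hh' : PMap 𝒢 α α' h')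
    (he : ∀ x, h (h' x) = x) (x : E sy 𝒢 α β d) : pull hh' (pull hh x) = x :=
  (pull_pull hh hh' PMap.id (fun x => (he x).symm) x).trans (pull_id _ (fun _ => rfl) x)

theorem pull_congr {h k : X' → X} (hh : PMap 𝒢 α' α h) (hk : PMap 𝒢 α' α k) (he : ∀ x, h x = k x)
    (x : E sy 𝒢 α β d) : pull hh x = pull hk x := by
  obtain rfl : h = k := funext he
  rfl

/-- Vanishing is invariant under equivariant homeomorphisms of the source. -/
theorem van_homeo (c : X' ≃ₜ X) (hc : ∀ g ∈ 𝒢, ∀ x, c (α' g x) = α g (c x))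
    (hv : ∀ x : E sy 𝒢 α' β d, x = 0) (x : E sy 𝒢 α β d) : x = 0 := by
  rw [← pull_inv (PMap.homeo c hc) (PMap.homeo_symm c hc) c.apply_symm_apply x,
    hv (pull (PMap.homeo c hc) x), pull_zero]

/-- Vanishing is invariant under equivariant homeomorphisms of the coefficient space. -/
theorem van_homeoY (c : Y ≃ₜ Y') (hc : ∀ g ∈ 𝒢, ∀ y, c (β g y) = β' g (c y))
    (hd : ∀ y, d' (c y) = d y) (hv : ∀ x : E sy 𝒢 α β' d', x = 0) (x : E sy 𝒢 α β d) : x = 0 := by
  have hd' : ∀ y, d (c.symm y) = d' y := fun y => by rw [← hd, c.apply_symm_apply]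
  have h0 := congrArg (postP (PMap.homeo_symm c hc) hd') (hv (postP (PMap.homeo c hc) hd x))
  obtain ⟨L, f, hf, rfl⟩ := cl_surj x
  rw [postP_cl, postP_cl] at h0
  refine Eq.trans (cl_congr fun p => ?_) (h0.trans (postP_zero _ _))
  rw [BM.map_f, BM.map_f, omap_map]
  exact (omap_id _).symm.trans (omap_congr _ fun y _ => Prod.ext rfl (c.symm_apply_apply _).symm)

theorem van_empty [IsEmpty Y] (x : E sy 𝒢 α β d) : x = 0 := by
  obtain ⟨L, f, hf, rfl⟩ := cl_surj x
  refine Eq.trans (cl_congr fun p => ?_) (cl_zero L)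
  induction f.f p using OnePoint.rec with
  | infty => rfl
  | coe y => exact isEmptyElim y.2

theorem SysF_j {B W : Type} [TopologicalSpace B] [TopologicalSpace W] [T2Space B] [T2Space W]
    (g : BM (U × B) W) {j : U → X} (hj : IsOpenEmbedding (Prod.map j (id : B → B))) (u : U)
    (b : B) : (g.ext0 _ hj).f (j u, b) = g.f (u, b) := BM.ext0_j g _ hj (u, b)

theorem SysF_not {B W : Type} [TopologicalSpace B] [TopologicalSpace W] [T2Space B] [T2Space W]
    (g : BM (U × B) W) {j : U → X} (hj : IsOpenEmbedding (Prod.map j (id : B → B))) {x : X}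
    (hx : x ∉ range j) (b : B) : (g.ext0 _ hj).f (x, b) = ∞ :=
  BM.ext0_not g _ hj fun ⟨q, hq⟩ => hx ⟨q.1, congrArg Prod.fst hq⟩

theorem push_push {j : X' → X} (hj : OEmb 𝒢 α' α j) {j' : X'' → X'} (hj' : OEmb 𝒢 α'' α' j')
    {k : X'' → X} (hk : OEmb 𝒢 α'' α k) (he : ∀ x, k x = j (j' x)) (x : E sy 𝒢 α'' β d) :
    push hj (push hj' x) = push hk x := by
  obtain ⟨L, f, hf, rfl⟩ := cl_surj x
  rw [push_cl, push_cl, push_cl]
  refine cl_congr ?_
  rintro ⟨x, b⟩
  by_cases h1 : x ∈ range k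
  · obtain ⟨u, rfl⟩ := h1
    rw [SysF_j, he, SysF_j, SysF_j]
  rw [SysF_not _ _ h1]
  by_cases h2 : x ∈ range j
  · obtain ⟨u, rfl⟩ := h2
    rw [SysF_j, SysF_not]
    rintro ⟨w, rfl⟩
    exact h1 ⟨w, he w⟩
  · exact SysF_not _ _ h2 b

theorem pull_push_zero {h : X' → X} (hh : PMap 𝒢 α' α h) {j : U → X} (hj : OEmb 𝒢 αU α j)
    (he : ∀ x, h x ∉ range j) (y : E sy 𝒢 αU β d) : pull hh (push hj y) = 0 := by
  obtain ⟨L, f, hf, rfl⟩ := cl_surj y
  rw [push_cl, pull_cl]
  refine Eq.trans (cl_congr fun p => ?_) (cl_zero L)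
  exact SysF_not _ _ (he p.1) p.2

theorem pull_push_self {j : U → X} (hh : PMap 𝒢 αU α j) (hj : OEmb 𝒢 αU α j)
    (y : E sy 𝒢 αU β d) : pull hh (push hj y) = y := by
  obtain ⟨L, f, hf, rfl⟩ := cl_surj y
  rw [push_cl, pull_cl]
  exact cl_congr fun p => SysF_j _ _ p.1 p.2

/-- Base change for a cartesian square. -/
theorem pull_push {h : X' → X} (hh : PMap 𝒢 α' α h) {j : U → X} (hj : OEmb 𝒢 αU α j)
    {h' : X'' → U} (hh' : PMap 𝒢 α'' αU h') {j' : X'' → X'} (hj' : OEmb 𝒢 α'' α' j')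
    (he : ∀ x, h (j' x) = j (h' x)) (hr : ∀ x, h x ∈ range j → x ∈ range j')
    (y : E sy 𝒢 αU β d) : pull hh (push hj y) = push hj' (pull hh' y) := by
  obtain ⟨L, f, hf, rfl⟩ := cl_surj y
  rw [push_cl, pull_cl, pull_cl, push_cl]
  refine cl_congr ?_
  rintro ⟨x, b⟩
  change (f.ext0 _ (hj.prodR (sy.bα L)).emb).f (h x, b) = _
  by_cases h1 : x ∈ range j'
  · obtain ⟨u, rfl⟩ := h1
    rw [SysF_j, he, SysF_j]
    rfl
  · rw [SysF_not _ _ h1, SysF_not _ _ fun k => h1 (hr x k)]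

theorem res_res (h : ℋ ⊆ 𝒢) (h' : 𝒦 ⊆ ℋ) (x : E sy 𝒢 α β d) :
    res h' (res h x) = res (h'.trans h) x := by
  obtain ⟨L, f, hf, rfl⟩ := cl_surj x
  rfl

theorem res_self (h : 𝒢 ⊆ 𝒢) (x : E sy 𝒢 α β d) : res h x = x := by
  obtain ⟨L, f, hf, rfl⟩ := cl_surj x
  rfl

theorem res_pull (h₁ : ℋ ⊆ 𝒢) {h : X' → X} (hh : PMap 𝒢 α' α h) (x : E sy 𝒢 α β d) :
    res h₁ (pull hh x) = pull (hh.mono h₁) (res h₁ x) := by
  obtain ⟨L, f, hf, rfl⟩ := cl_surj x
  rfl

theorem res_push (h₁ : ℋ ⊆ 𝒢) {j : U → X} (hj : OEmb 𝒢 αU α j) (x : E sy 𝒢 αU β d) :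
    res h₁ (push hj x) = push (hj.mono h₁) (res h₁ x) := by
  obtain ⟨L, f, hf, rfl⟩ := cl_surj x
  rfl

theorem postP_postP {h : Y → Y'} (hh : PMap 𝒢 β β' h) (hd : ∀ y, d' (h y) = d y) {h' : Y' → Y''}
    (hh' : PMap 𝒢 β' β'' h') (hd' : ∀ y, d'' (h' y) = d' y) {k : Y → Y''} (hk : PMap 𝒢 β β'' k)
    (hdk : ∀ y, d'' (k y) = d y) (he : ∀ y, k y = h' (h y)) (x : E sy 𝒢 α β d) :
    postP hh' hd' (postP hh hd x) = postP hk hdk x := by
  obtain ⟨L, f, hf, rfl⟩ := cl_surj x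
  rw [postP_cl, postP_cl, postP_cl]
  refine cl_congr fun p => ?_
  rw [BM.map_f, BM.map_f, BM.map_f, omap_map]
  exact omap_congr _ fun y _ => Prod.ext rfl (he y.2).symm

theorem postP_id {h : Y → Y} (hh : PMap 𝒢 β β h) (hd : ∀ y, d (h y) = d y) (he : ∀ y, h y = y)
    (x : E sy 𝒢 α β d) : postP hh hd x = x := by
  obtain ⟨L, f, hf, rfl⟩ := cl_surj x
  rw [postP_cl]
  refine cl_congr fun p => ?_
  obtain rfl : h = id := funext he
  exact omap_id _

theorem postC_postP_zero {h : Y' → Y} (hh : PMap 𝒢 β' β h) (hd : ∀ y, d (h y) = d' y)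
    {j : Y'' → Y} (hj : OEmb 𝒢 β'' β j) (hd' : ∀ y, d'' y = d (j y)) (he : ∀ y, h y ∉ range j)
    (x : E sy 𝒢 α β' d') : postC hj hd' (postP hh hd x) = 0 := by
  obtain ⟨L, f, hf, rfl⟩ := cl_surj x
  rw [postP_cl, postC_cl]
  refine Eq.trans (cl_congr fun p => ?_) (cl_zero L)
  rw [BM.comp_f, BM.map_f, ob_map]
  induction f.f p using OnePoint.rec with
  | infty => rfl
  | coe y =>
    rw [ob_coe, BM.idProd_f, Prod.map_snd, BM.coll_not j hj.emb (he y.2)]
    rfl

section Grp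

variable [Group S] [TopologicalSpace S] [IsTopologicalGroup S]

theorem SysF_proper (hα : GA univ α) (t : S) : IsProperMap (α t) :=
  GA.proper (𝒦 := ⊤) hα trivial

theorem SysF_mul (hα : GA univ α) (g h : S) (x : X) : α g (α h x) = α (g * h) x :=
  (hα.mul g trivial h trivial x).symm

/-- The translate of a based map. -/
def SysF_tl (hα : GA univ α) (hβ : GA univ β) (t : S) (f : BM X Y) : BM X Y :=
  (f.pre _ (SysF_proper hα t⁻¹)).map _ (SysF_proper hβ t)

theorem SysF_tl_f (hα : GA univ α) (hβ : GA univ β) (t : S) (f : BM X Y) (x : X) :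
    (SysF_tl hα hβ t f).f x = (f.f (α t⁻¹ x)).map (β t) := rfl

theorem SysF_good (hα : GA univ α) (hβ : GA univ β) {D : Set Y} {t : S}
    (hD : ∀ y ∈ D, β t y ∈ D) (hc : ∀ g ∈ ℋ, t⁻¹ * g * t ∈ 𝒢) {f : BM X Y}
    (hf : Good 𝒢 α β D f) : Good ℋ α β D (SysF_tl hα hβ t f) := by
  refine ⟨fun g hg x => ?_, fun x y hy => ?_⟩
  · have e1 : α t⁻¹ (α g x) = α (t⁻¹ * g * t) (α t⁻¹ x) := by
      rw [SysF_mul hα, SysF_mul hα, mul_inv_cancel_right]
    rw [SysF_tl_f, SysF_tl_f, e1, hf.eqv _ (hc g hg), omap_map, omap_map]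
    refine omap_congr _ fun y _ => ?_
    rw [SysF_mul hβ, SysF_mul hβ, mul_assoc, mul_inv_cancel_left]
  · obtain ⟨y₀, h1, rfl⟩ := omap_eq_coe.1 hy
    exact hD _ (hf.mem _ _ h1)

theorem SysF_ht (hα : GA univ α) (hβ : GA univ β) {D : Set Y} {t : S}
    (hD : ∀ y ∈ D, β t y ∈ D) (hc : ∀ g ∈ ℋ, t⁻¹ * g * t ∈ 𝒢) {f g : BM X Y}
    (h : Ht 𝒢 α β D f g) : Ht ℋ α β D (SysF_tl hα hβ t f) (SysF_tl hα hβ t g) := by
  obtain ⟨H, hH, h0, h1⟩ := h
  exact ⟨SysF_tl (hα.prod GA.triv) hβ t H, SysF_good _ hβ hD hc hH,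
    fun x => congrArg (OnePoint.map (β t)) (h0 _), fun x => congrArg (OnePoint.map (β t)) (h1 _)⟩

theorem SysF_tl_inv (hα : GA univ α) (hβ : GA univ β) (t : S) (f : BM X Y) :
    SysF_tl hα hβ t⁻¹ (SysF_tl hα hβ t f) = f := by
  refine BM.ext fun x => ?_
  rw [SysF_tl_f, SysF_tl_f, SysF_mul hα, mul_inv_cancel, hα.one, omap_map]
  refine (omap_congr _ fun y _ => ?_).trans (omap_id _)
  rw [SysF_mul hβ, inv_mul_cancel, hβ.one]

theorem SysF_proper_path (hα : GA univ α) {c : I → S} (hc : Continuous c) :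
    IsProperMap fun p : X × I => (α (c p.2) p.1, p.2) := by
  have h1 : Continuous fun p : S × X => α p.1 p.2 := by
    rw [← continuousOn_univ, ← univ_prod_univ]
    exact hα.cont
  refine proper_of_leftInverse (r := fun p : X × I => (α (c p.2)⁻¹ p.1, p.2))
    ((h1.comp ((hc.comp continuous_snd).prodMk continuous_fst)).prodMk continuous_snd)
    ((h1.comp ((hc.comp continuous_snd).inv.prodMk continuous_fst)).prodMk continuous_snd)
    fun p => Prod.ext ?_ rfl
  change α (c p.2)⁻¹ (α (c p.2) p.1) = p.1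
  rw [SysF_mul hα, inv_mul_cancel, hα.one]

theorem SysF_path (hα : GA univ α) (hβ : GA univ β) {D : Set Y} (hD : ∀ t, ∀ y ∈ D, β t y ∈ D)
    {c : I → S} (hc : Continuous c) (h0 : c 0 = 1) (hz : ∀ g ∈ 𝒢, ∀ t, g * c t = c t * g)
    {f : BM X Y} (hf : Good 𝒢 α β D f) : Ht 𝒢 α β D f (SysF_tl hα hβ (c 1) f) := by
  let H : BM (X × I) Y := ((f.prodId I).pre _ (SysF_proper_path hα hc.inv)).map _
    (proper_fst.comp (SysF_proper_path hβ hc))
  have hH : ∀ x t, H.f (x, t) = (SysF_tl hα hβ (c t) f).f x := fun x t => omap_map _ _ _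
  have hg : ∀ t, Good 𝒢 α β D (SysF_tl hα hβ (c t) f) := fun t =>
    SysF_good hα hβ (hD _) (fun g hg => by rwa [mul_assoc, hz g hg, inv_mul_cancel_left]) hf
  refine ⟨H, ⟨fun g hg' p => ?_, fun p y hy => (hg p.2).mem p.1 y ((hH _ _).symm.trans hy)⟩,
    fun x => ?_, fun x => hH x 1⟩
  · exact (hH _ _).trans (((hg p.2).eqv g hg' p.1).trans (congrArg _ (hH _ _).symm))
  · rw [hH, SysF_tl_f, h0, inv_one, hα.one]
    exact (omap_congr _ fun y _ => hβ.one y).trans (omap_id _)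

theorem SysF_D (hs : sy.Grp) (hd : ∀ g y, d (β g y) = d y) (L : sy.Lv) (t : S) :
    ∀ y ∈ sy.D L d, (sy.tα L).prod β t y ∈ sy.D L d := fun y hy => by
  change sy.dg L (sy.tα L t y.1) = (d (β t y.2) : ℂ)
  rw [hs.dg, hd]
  exact hy

/-- The translate of a representative by a symmetry `t`. -/
noncomputable def BM.tl (hs : sy.Grp) (hα : GA univ α) (hβ : GA univ β) (L : sy.Lv) (t : S)
    (f : BM (X × sy.B L) (sy.T L × Y)) : BM (X × sy.B L) (sy.T L × Y) :=
  ⟨fun p => (f.f (α.prod (sy.bα L) t⁻¹ p)).map ((sy.tα L).prod β t),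
    (SysF_tl (hα.prod (hs.b L)) ((hs.t L).prod hβ) t f).cont,
    (SysF_tl (hα.prod (hs.b L)) ((hs.t L).prod hβ) t f).tend⟩

theorem gd_tl (hs : sy.Grp) (hα : GA univ α) (hβ : GA univ β) (hd : ∀ g y, d (β g y) = d y)
    {t : S} (hc : ∀ g ∈ ℋ, t⁻¹ * g * t ∈ 𝒢) {L : sy.Lv} {f} (hf : sy.Gd 𝒢 α β d L f) :
    sy.Gd ℋ α β d L (BM.tl hs hα hβ L t f) :=
  SysF_good (hα.prod (hs.b L)) ((hs.t L).prod hβ) (SysF_D hs hd L t) hc hf

/-- Vanishing is invariant under conjugation of the symmetries. -/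
theorem van_conj (hs : sy.Grp) (hα : GA univ α) (hβ : GA univ β) (hd : ∀ g y, d (β g y) = d y)
    (t : S) (h₁ : ∀ g ∈ ℋ, t⁻¹ * g * t ∈ 𝒢) (h₂ : ∀ g ∈ 𝒢, t * g * t⁻¹ ∈ ℋ)
    (hv : ∀ x : E sy ℋ α β d, x = 0) (x : E sy 𝒢 α β d) : x = 0 := by
  obtain ⟨L, f, hf, rfl⟩ := cl_surj x
  obtain ⟨L', μ, hμ, h⟩ := cl_eq_zero_iff.1 (hv (cl L _ (gd_tl hs hα hβ hd h₁ hf)))
  have e1 : μ.tr (BM.tl hs hα hβ L t f) =
      SysF_tl (hα.prod (hs.b L')) ((hs.t L').prod hβ) t (μ.tr f) := by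
    refine BM.ext fun p => ?_
    have h3 := (sy.eqv hμ).prod α β
    rw [SysF_tl_f, Tr.ap_f, Tr.ap_f, h3.ea _ trivial, omap_map]
    refine (omap_map _ _ _).trans (omap_congr _ fun y _ => ?_)
    rw [← h3.eΨ _ trivial, SysF_mul (hα.prod (hs.b L')), mul_inv_cancel, (hα.prod (hs.b L')).one]
  rw [e1] at h
  have h3 := SysF_ht (hα.prod (hs.b L')) ((hs.t L').prod hβ) (SysF_D hs hd L' t⁻¹)
    (ℋ := 𝒢) (fun g hg => by rw [inv_inv]; exact h₂ g hg) h
  rw [SysF_tl_inv] at h3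
  exact cl_eq_zero_iff.2 ⟨L', μ, hμ, h3⟩

/-- Translation along a path of symmetries that centralise `𝒢` does not change the class. -/
theorem cl_tl (hs : sy.Grp) (hα : GA univ α) (hβ : GA univ β) (hd : ∀ g y, d (β g y) = d y)
    (c : I → S) (hc : Continuous c) (h0 : c 0 = 1) (hz : ∀ g ∈ 𝒢, ∀ t, g * c t = c t * g)
    {L : sy.Lv} {f} (hf : sy.Gd 𝒢 α β d L f) (hf' : sy.Gd 𝒢 α β d L (BM.tl hs hα hβ L (c 1) f)) :
    cl L (BM.tl hs hα hβ L (c 1) f) hf' = cl L f hf :=
  (cl_htpy (SysF_path (hα.prod (hs.b L)) ((hs.t L).prod hβ) (SysF_D hs hd L) hc h0 hz hf)).symm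

end Grp

end RB
end

-- merged part: Pool.Agent.Work.MP_666b5d_gt.Tgt
section
/-!
# Exactness in the target

`TNDR`: a closed subspace `i : Z → Y` with open complement `j : U → Y` and an equivariant proper
deformation `D` of `{ψ ≤ 1}` into `Z = {ψ = 0}`.

Proof plan for `TNDR.core` (carry the factor `K` along, nothing happens in it).  Let `N` be the
null-homotopy of `coll ∘ f`, `ψ' = min ψ 1`, and `D (y, 1) = i (r y)` on `{ψ ≤ 1}`.  For `s ∈ J` let
`c s = 2 s - 1` for `s ≥ 1/2` and `k s = 2 (1 - 2 s) ∈ [0, 2]` for `s ≤ 1/2`.  Let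
`Θ (y, c) = (r y, ψ' y + c)` if `ψ' y + c ∈ J` and `∞` otherwise (used for `c ≥ 0`, so `ψ y < 1`).
Define `g (x, s) = Θ (f x, c s)` for `s ≥ 1/2` and `g (x, s) = Θ (j (N (x, min 1 (k s))), 0)` for
`s ≤ 1/2` (they agree at `s = 1/2`, as `Θ (y, 0) = ∞` on `Z`).  Homotopies:
(1) replace `i (r y)` by `D (y, t)`: `incl ∘ g ≃ g₁`, where `Θ` is replaced by
`Θ₁ (y, c) = (y, ψ' y + c)` (collapsed to `Y × J`);
(2) for `s ≤ 1/2` use `Θ₁ (j (N (x, min 1 ((1 - λ) k s))), - λ k s)`; near `s = 0` either the time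
is `1` or the shift is `≤ -1`; at `λ = 1` this is `Θ₁ (f x, - k s)`;
(3) now the map is `(f x, ψ' (f x) + c' s)` with `c'` continuous, `c' 0 = -2`, `c' 1 = 1`; deform
linearly `(f x, (1 - μ) (ψ' (f x) + c' s) + μ s)`.
A convenient way to see that these are based maps: the maps `(y, c) ↦ …` are based maps on
`Y × ℝ`, `U × (-∞, 0]`, and one uses `cont_ob`, `cont_of_open`, `BM.mk'` and closed covers.
Finite values stay in `E` because `{y | (k, y) ∈ E}` is clopen and `I` is connected.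
-/

open Set Filter Topology OnePoint
open scoped unitInterval

namespace RB

open Act

section aux

variable {S W V X Q : Type} [TopologicalSpace W] [TopologicalSpace V] [TopologicalSpace X]
  [TopologicalSpace Q] {𝒢 : Set S} {ω : Act S W} {ν : Act S V} {α : Act S X}

theorem Tgt_oemb : OEmb 𝒢 (ω.prod triv) (ω.prod triv) (Prod.map id (Subtype.val : J → ℝ)) :=
  OEmb.prodL ⟨isOpen_Ioo.isOpenEmbedding_subtypeVal, fun _ _ _ => rfl, fun _ _ _ h => h⟩ ω

/-- The collapse onto `W × J`. -/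
noncomputable def Tgt_L (W : Type) [TopologicalSpace W] [T2Space W] : BM (W × ℝ) (W × J) :=
  BM.coll (Prod.map id Subtype.val)
    (IsOpenEmbedding.id.prodMap isOpen_Ioo.isOpenEmbedding_subtypeVal)

theorem Tgt_L_coe [T2Space W] (w : W) (s : J) : (Tgt_L W).f (w, s) = ((w, s) : W × J) :=
  BM.coll_j _ _ (w, s)

theorem Tgt_L_not [T2Space W] (w : W) {c : ℝ} (hc : c ∉ Ioo (0 : ℝ) 1) :
    (Tgt_L W).f (w, c) = ∞ :=
  BM.coll_not _ _ fun ⟨u, hu⟩ => hc ((show (u.2 : ℝ) = c from congrArg Prod.snd hu) ▸ u.2.2)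

theorem Tgt_L_fin [T2Space W] {w : W} {c : ℝ} {y : W × J} (h : (Tgt_L W).f (w, c) = y) :
    y.1 = w ∧ c < 1 := by
  by_cases hc : c ∈ Ioo (0 : ℝ) 1
  · rw [Tgt_L_coe w ⟨c, hc⟩] at h
    exact ⟨(congrArg Prod.fst (OnePoint.coe_injective h)).symm, hc.2⟩
  · rw [Tgt_L_not w hc] at h
    exact absurd h (OnePoint.infty_ne_coe y)

theorem Tgt_P [LC W] [CompactSpace Q] {φ : W × Q → ℝ} (hφ : Continuous φ)
    (he : ∀ g ∈ 𝒢, ∀ w q, φ (ω g w, q) = φ (w, q)) :
    PMap 𝒢 (ω.prod triv) (ω.prod triv) fun a : W × Q => (a.1, φ a) :=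
  ⟨proper_of_compact (continuous_fst.prodMk hφ) fun K hK => ⟨(Prod.fst '' K) ×ˢ univ,
    (hK.image continuous_fst).prod isCompact_univ, fun _ hx => ⟨⟨_, hx, rfl⟩, trivial⟩⟩,
    fun g hg x => Prod.ext rfl (he g hg x.1 x.2)⟩

/-- Gluing along a level set. -/
noncomputable def Tgt_glue (A B : BM X W) (e : X → ℝ) (he : Continuous e)
    (h : ∀ x, e x = 0 → A.f x = B.f x) : BM X W :=
  ⟨fun x => if e x ≤ 0 then A.f x else B.f x, A.cont.if_le B.cont he continuous_const h,
    A.tend.if' B.tend⟩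

theorem Tgt_right [LC W] [CompactSpace Q] [T2Space Q] {f : BM X W} {E : Set W}
    (hf : Good 𝒢 α ω E f) {φ : W × Q → ℝ} (hφ : Continuous φ)
    (he : ∀ g ∈ 𝒢, ∀ w q, φ (ω g w, q) = φ (w, q)) :
    ∃ B : BM (X × Q) (W × J), Good 𝒢 (α.prod triv) (ω.prod triv) (E ×ˢ univ) B ∧
      ∀ x q, B.f (x, q) = ob (f.f x) fun w => (Tgt_L W).f (w, φ (w, q)) :=
  ⟨_, (hf.prodId triv).comp ((Good.coll Tgt_oemb).pre (Tgt_P hφ he))
    fun _ hy _ h => ⟨(Tgt_L_fin h).1 ▸ hy.1, trivial⟩, fun _ _ => ob_map _ _ _⟩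

theorem Tgt_left [LC W] [T2Space V] [CompactSpace Q] [T2Space Q] [T2Space X] {j : V → W}
    (hj : OEmb 𝒢 ν ω j) {N : BM (X × I) V} {E : Set W}
    (hN : Good 𝒢 (α.prod triv) ν (j ⁻¹' E) N) {φ : W × Q → ℝ} (hφ : Continuous φ)
    (he : ∀ g ∈ 𝒢, ∀ w q, φ (ω g w, q) = φ (w, q)) (h0 : ∀ w ∉ range j, ∀ q, φ (w, q) ≤ 0)
    {τ : Q → I} (hτ : Continuous τ) :
    ∃ A : BM (X × Q) (W × J), Good 𝒢 (α.prod triv) (ω.prod triv) (E ×ˢ univ) A ∧
      ∀ x q, A.f (x, q) = ob (N.f (x, τ q)) fun v => (Tgt_L W).f (j v, φ (j v, q)) := by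
  have h1 := (Good.coll Tgt_oemb).pre (Tgt_P hφ he)
  have h2 : PMap 𝒢 (α.prod triv) ((α.prod (triv : Act S I)).prod (triv : Act S Q))
      fun a : X × Q => ((a.1, τ a.2), a.2) :=
    ⟨proper_of_leftInverse (r := fun b => (b.1.1, b.2)) (by fun_prop) (by fun_prop) fun _ => rfl,
      fun _ _ _ => rfl⟩
  have h4 := hj.prodR (triv : Act S Q)
  have h3 : Good 𝒢 (ν.prod triv) (ω.prod triv) univ
      (((Tgt_L W).pre _ (Tgt_P hφ he).proper).res0 _ h4.emb fun a ha => Tgt_L_not a.1 fun h =>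
        (h0 a.1 (fun ⟨v, hv⟩ => ha ⟨(v, a.2), Prod.ext hv rfl⟩) a.2).not_gt h.1) :=
    ⟨fun g hg x => by
      rw [BM.res0_f, BM.res0_f, h4.eqv g hg]
      exact h1.eqv g hg _, fun _ _ _ => trivial⟩
  exact ⟨_, ((hN.prodId triv).pre h2).comp h3 fun _ hy _ h => ⟨(Tgt_L_fin h).1 ▸ hy.1, trivial⟩,
    fun _ _ => ob_map _ _ _⟩

/-- The dividing function. -/
def Tgt_e (q : I × I) : ℝ := q.1 - (1 - q.2) * (1 - q.1)

theorem Tgt_e_cont : Continuous Tgt_e := by
  unfold Tgt_e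
  fun_prop

theorem Tgt_iota : IsOpenEmbedding fun a : (X × J) × I =>
    ((a.1.1, (inclusion Ioo_subset_Icc_self a.1.2, a.2)) : X × (I × I)) :=
  (IsOpenEmbedding.id.prodMap ((IsOpenEmbedding.inclusion Ioo_subset_Icc_self
    (isOpen_Ioo.preimage continuous_subtype_val)).prodMap IsOpenEmbedding.id)).comp
    (Homeomorph.prodAssoc X J I).isOpenEmbedding

/-- The suspension of `f` is pushed into the neighbourhood `p < 1`. -/
theorem Tgt_push [LC W] [T2Space V] [T2Space X] {j : V → W} (hj : OEmb 𝒢 ν ω j) {p : W → ℝ}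
    (hp : Continuous p) (p0 : ∀ w, 0 ≤ p w) (p1 : ∀ w, p w ≤ 1)
    (pe : ∀ g ∈ 𝒢, ∀ w, p (ω g w) = p w) (pj : ∀ w ∉ range j, p w = 0) {E : Set W} {f : BM X W}
    (hf : Good 𝒢 α ω E f) {c : BM W V} (c1 : ∀ v, c.f (j v) = v) (c2 : ∀ w ∉ range j, c.f w = ∞)
    (h0 : Ht 𝒢 α ν (j ⁻¹' E) (c.comp f) BM.zero) :
    ∃ g₁, Ht 𝒢 (α.prod triv) (ω.prod triv) (E ×ˢ univ) g₁ (f.prodId J) ∧
      ∀ x (y : W × J), g₁.f x = y → p y.1 < 1 := by
  obtain ⟨N, hN, N0, N1⟩ := h0
  have he := Tgt_e_cont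
  obtain ⟨A, hA, eA⟩ := Tgt_left hj hN
    (φ := fun a : W × (I × I) => (1 - a.2.2) * p a.1 + 2 * a.2.2 * min (Tgt_e a.2) 0)
    (by fun_prop) (fun g hg w q => by simp only [pe g hg])
    (fun w hw q => by
      simp only [pj w hw, mul_zero, zero_add]
      exact mul_nonpos_of_nonneg_of_nonpos (mul_nonneg zero_le_two q.2.2.1) (min_le_right _ _))
    (τ := fun q => projIcc 0 1 zero_le_one (-2 * Tgt_e q))
    (continuous_projIcc.comp (by fun_prop))
  obtain ⟨B, hB, eB⟩ := Tgt_right hf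
    (φ := fun a : W × (I × I) => (1 - a.2.2) * p a.1 + Tgt_e a.2)
    (by fun_prop) (fun g hg w q => by simp only [pe g hg])
  have hAB : ∀ a : X × (I × I), Tgt_e a.2 = 0 → A.f a = B.f a := by
    rintro ⟨x, q⟩ (h : Tgt_e q = 0)
    rw [eA, eB]
    simp only [h, mul_zero, min_self, add_zero, projIcc_left]
    rw [show (⟨0, left_mem_Icc.2 zero_le_one⟩ : I) = 0 from rfl, N0, BM.comp_f, ob_ob]
    congr 1
    funext w
    by_cases hw : w ∈ range j
    · obtain ⟨v, rfl⟩ := hw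
      rw [c1, ob_coe]
    · rw [c2 w hw, ob_infty, pj w hw, mul_zero, Tgt_L_not w fun h => h.1.false]
  let G := Tgt_glue A B (fun a => Tgt_e a.2) (he.comp continuous_snd) hAB
  have eG : ∀ a, G.f a = if Tgt_e a.2 ≤ 0 then A.f a else B.f a := fun _ => rfl
  have hG : Good 𝒢 (α.prod triv) (ω.prod triv) (E ×ˢ univ) G := by
    refine ⟨fun g hg a => ?_, fun a y h => ?_⟩
    · rw [eG, eG, hA.eqv g hg, hB.eqv g hg, apply_ite (OnePoint.map _)]
      rfl
    · rw [eG] at h
      split_ifs at h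
      exacts [hA.mem a y h, hB.mem a y h]
  have oi : ∀ {T : Type} (a : OnePoint T) (k : T → OnePoint (W × J)), (∀ t, k t = ∞) →
      ob a k = ∞ := fun a k h => by
    induction a using OnePoint.rec
    exacts [rfl, h _]
  have G0 : ∀ a ∉ range fun a : (X × J) × I =>
      ((a.1.1, (inclusion Ioo_subset_Icc_self a.1.2, a.2)) : X × (I × I)), G.f a = ∞ := by
    rintro ⟨x, s, t⟩ h
    have t0 : (0 : ℝ) ≤ t := t.2.1
    have t1 : (t : ℝ) ≤ 1 := t.2.2
    rw [eG]
    obtain h1 | h1 := s.2.1.eq_or_lt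
    · have h2 : Tgt_e (s, t) = t - 1 := by simp only [Tgt_e, ← h1]; ring
      rw [if_pos (h2.trans_le (sub_nonpos.2 t1)), eA]
      simp only [h2]
      rcases le_total (t : ℝ) (1 / 2) with h3 | h3
      · rw [projIcc_of_right_le _ (by linarith)]
        exact congrArg (ob · _) (N1 x)
      · refine oi _ _ fun v => Tgt_L_not _ fun h4 => h4.1.not_ge ?_
        rw [min_eq_left (sub_nonpos.2 t1)]
        nlinarith [mul_le_mul_of_nonneg_left (p1 (j v)) (sub_nonneg.2 t1)]
    obtain h2 | h2 := s.2.2.eq_or_lt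
    · have h3 : Tgt_e (s, t) = 1 := by simp only [Tgt_e, h2]; ring
      rw [if_neg (by rw [h3]; exact one_pos.not_ge), eB]
      refine oi _ _ fun w => Tgt_L_not _ fun h4 => h4.2.not_ge ?_
      simp only [h3]
      exact le_add_of_nonneg_left (mul_nonneg (sub_nonneg.2 t1) (p0 w))
    · exact absurd ⟨((x, ⟨s, h1, h2⟩), t), rfl⟩ h
  let H := G.res0 _ Tgt_iota G0
  refine ⟨H.pre _ (proper_at 0), ⟨H, ⟨fun g hg a => hG.eqv g hg (a.1.1, _), fun a y h => hG.mem _ y h⟩,
    fun _ => rfl, fun ⟨x, s⟩ => ?_⟩, fun ⟨x, s⟩ y h => ?_⟩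
  · have h1 : Tgt_e (inclusion Ioo_subset_Icc_self s, 1) = s := by simp [Tgt_e]
    rw [BM.res0_f, eG, if_neg (by rw [h1]; exact s.2.1.not_ge), eB, BM.prodId_f, ← ob_some]
    simp only [h1, Icc.coe_one, sub_self, zero_mul, zero_add, Tgt_L_coe]
  · rw [BM.pre_f, BM.res0_f, eG] at h
    split_ifs at h with h1
    · rw [eA] at h
      obtain ⟨v, -, h2⟩ := ob_eq_coe.1 h
      obtain ⟨h3, h4⟩ := Tgt_L_fin h2
      simpa [h3] using h4
    · rw [eB] at h
      obtain ⟨v, -, h2⟩ := ob_eq_coe.1 h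
      obtain ⟨h3, h4⟩ := Tgt_L_fin h2
      simp only [Icc.coe_zero, sub_zero, one_mul] at h4
      rw [h3]
      linarith [not_le.1 h1]

/-- A map with values in a closed subspace is deformed along a proper homotopy. -/
theorem Tgt_pull [LC W] [T2Space V] {q : W → Prop} (hq : IsClosed {w | q w})
    (qe : ∀ g ∈ 𝒢, ∀ w, q w → q (ω g w)) {P : W × I → W} (hP : ContinuousOn P ({w | q w} ×ˢ univ))
    (Pp : ∀ C : Set W, IsCompact C → ∃ C' : Set W, IsCompact C' ∧
      ∀ w t, q w → P (w, t) ∈ C → w ∈ C')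
    (Pe : ∀ g ∈ 𝒢, ∀ w t, q w → P (ω g w, t) = ω g (P (w, t))) (P0 : ∀ w, q w → P (w, 0) = w)
    {i : V → W} (hi : IsClosedEmbedding i) (ie : ∀ g ∈ 𝒢, ∀ v, i (ν g v) = ω g (i v))
    (P1 : ∀ w, q w → P (w, 1) ∈ range i) {E : Set W} (PE : ∀ w ∈ E, q w → ∀ t, P (w, t) ∈ E)
    {f : BM X W} (hf : Good 𝒢 α ω E f) (hfq : ∀ x (w : W), f.f x = w → q w) :
    ∃ g : BM X V, Good 𝒢 α ν (i ⁻¹' E) g ∧ Ht 𝒢 α ω E f (g.map i hi.isProperMap) := by
  have hv : IsClosedEmbedding (Subtype.val : {w // q w} → W) := hq.isClosedEmbedding_subtypeVal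
  have hr : ∀ x (w : W), f.f x = w → w ∈ range (Subtype.val : {w // q w} → W) :=
    fun x w h => ⟨⟨w, hfq x w h⟩, rfl⟩
  have h1 := hf.lift (γ := ω.sub q) hv (fun g hg z => sub_val ω q (qe g hg _ z.2)) hr
  have h2 : PMap 𝒢 ((ω.sub q).prod triv) ω fun a : {w // q w} × I => P (a.1.1, a.2) := by
    refine ⟨proper_of_compact (hP.comp_continuous (by fun_prop) fun a => ⟨a.1.2, trivial⟩)
      fun K hK => ?_, fun g hg a => ?_⟩
    · obtain ⟨C, hC, h⟩ := Pp K hK
      exact ⟨(Subtype.val ⁻¹' C) ×ˢ univ, (hv.isCompact_preimage hC).prod isCompact_univ,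
        fun a ha => ⟨h _ _ a.1.2 ha, trivial⟩⟩
    · rw [← Pe g hg _ _ a.1.2, ← sub_val ω q (qe g hg _ a.1.2)]
      rfl
  have h3 := (h1.prodId (triv : Act S I)).map h2 fun a ha => PE _ ha.1 a.1.2 a.2
  have h4 := h3.pre (α' := α) (h := fun x => (x, (1 : I))) ⟨proper_at 1, fun _ _ _ => rfl⟩
  refine ⟨_, h4.lift hi ie fun x w h => ?_, _, h3, fun x => ?_, fun x => ?_⟩
  · obtain ⟨a, h5, rfl⟩ := omap_eq_coe.1 h
    obtain ⟨b, -, rfl⟩ := omap_eq_coe.1 h5
    exact P1 _ b.2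
  swap
  · rw [BM.map_f _ i, BM.lift_map]
    rfl
  · rw [BM.map_f, BM.prodId_f, omap_map, ← BM.lift_map f _ hv hr x]
    exact omap_congr _ fun b _ => P0 _ b.2

end aux

variable {S Z Y U X K : Type} [TopologicalSpace Z] [TopologicalSpace Y] [TopologicalSpace U]
  [TopologicalSpace X] [TopologicalSpace K]

/-- Closed subspace with open complement and a deformation of a neighbourhood in the target. -/
structure TNDR (𝒢 : Set S) (βZ : Act S Z) (β : Act S Y) (βU : Act S U) (i : Z → Y) (j : U → Y) :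
    Prop where
  hi : IsClosedEmbedding i
  ei : ∀ g ∈ 𝒢, ∀ z, i (βZ g z) = β g (i z)
  hj : OEmb 𝒢 βU β j
  ex : ∃ (ψ : Y → ℝ) (D : Y × I → Y), Continuous ψ ∧ (∀ y, 0 ≤ ψ y) ∧
    (∀ g ∈ 𝒢, ∀ y, ψ (β g y) = ψ y) ∧ range i = {y | ψ y = 0} ∧ range j = {y | 0 < ψ y} ∧
    ContinuousOn D ({y | ψ y ≤ 1} ×ˢ univ) ∧
    (∀ C : Set Y, IsCompact C → ∃ C' : Set Y, IsCompact C' ∧
      ∀ y t, ψ y ≤ 1 → D (y, t) ∈ C → y ∈ C') ∧
    (∀ y, ψ y ≤ 1 → D (y, 0) = y) ∧ (∀ y, ψ y ≤ 1 → ψ (D (y, 1)) = 0) ∧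
    ∀ g ∈ 𝒢, ∀ y t, ψ y ≤ 1 → D (β g y, t) = β g (D (y, t))

variable {𝒢 : Set S} {βZ : Act S Z} {β : Act S Y} {βU : Act S U} {i : Z → Y} {j : U → Y}

theorem TNDR.pmap (h : TNDR 𝒢 βZ β βU i j) : PMap 𝒢 βZ β i := ⟨h.hi.isProperMap, h.ei⟩

theorem TNDR.core [LC Z] [LC Y] [LC U] [LC X] [LC K] (h : TNDR 𝒢 βZ β βU i j) {α : Act S X}
    {κ : Act S K} {E : Set (K × Y)} (hE : ∀ k, IsClopen {y | (k, y) ∈ E}) {f : BM X (K × Y)}
    (hf : Good 𝒢 α (κ.prod β) E f)
    (h0 : Ht 𝒢 α (κ.prod βU) (Prod.map id j ⁻¹' E)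
      (((BM.coll j h.hj.emb).idProd K).comp f) BM.zero) :
    ∃ g : BM (X × J) ((K × Z) × J),
      Good 𝒢 (α.prod triv) ((κ.prod βZ).prod triv) ((Prod.map id i ⁻¹' E) ×ˢ univ) g ∧
      Ht 𝒢 (α.prod triv) ((κ.prod β).prod triv) (E ×ˢ univ)
        (g.map _ ((h.pmap.prodL κ).prodR (triv : Act S J)).proper) (f.prodId J) := by
  obtain ⟨ψ, D, hψ, ψ0, ψe, ri, rj, hD, Dp, D0, D1, De⟩ := h.ex
  have hj : ∀ w : K × Y, w ∉ range (Prod.map id j : K × U → K × Y) → w.2 ∉ range j :=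
    fun w hw ⟨u, hu⟩ => hw ⟨(w.1, u), Prod.ext rfl hu⟩
  obtain ⟨g₁, h1, h2⟩ := Tgt_push (h.hj.prodL κ) (p := fun w : K × Y => min (ψ w.2) 1)
    (by fun_prop) (fun w => le_min (ψ0 _) zero_le_one) (fun w => min_le_right _ _)
    (fun g hg w => congrArg (min · 1) (ψe g hg w.2))
    (fun w hw => by
      have h3 := hj w hw
      rw [rj] at h3
      rw [le_antisymm (not_lt.1 h3) (ψ0 _), min_eq_left zero_le_one]) hf
    (fun v => by rw [BM.idProd_f]; exact congrArg (OnePoint.map _) (BM.coll_j j h.hj.emb v.2))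
    (fun w hw => by rw [BM.idProd_f, BM.coll_not j h.hj.emb (hj w hw)]; rfl) h0
  obtain ⟨g, h3, h4⟩ := Tgt_pull (ω := (κ.prod β).prod (triv : Act S J))
    (ν := (κ.prod βZ).prod (triv : Act S J)) (q := fun w => ψ w.1.2 ≤ 1)
    (P := fun a => ((a.1.1.1, D (a.1.1.2, a.2)), a.1.2)) (E := E ×ˢ univ)
    (isClosed_le (by fun_prop) continuous_const) (fun g hg w hw => (ψe g hg w.1.2).trans_le hw)
    ((ContinuousOn.prodMk (by fun_prop) (hD.comp (f := fun a : ((K × Y) × J) × I => (a.1.1.2, a.2))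
      (by fun_prop) fun a ha => ⟨ha.1, trivial⟩)).prodMk (by fun_prop))
    (fun C hC => by
      obtain ⟨C', hC', h3⟩ := Dp _ (hC.image (continuous_snd.comp continuous_fst))
      exact ⟨(((fun w => w.1.1) '' C) ×ˢ C') ×ˢ (Prod.snd '' C),
        ((hC.image (continuous_fst.comp continuous_fst)).prod hC').prod (hC.image continuous_snd),
        fun w t hw h4 => ⟨⟨⟨_, h4, rfl⟩, h3 _ t hw ⟨_, h4, rfl⟩⟩, _, h4, rfl⟩⟩)
    (fun g hg w t hw => Prod.ext (Prod.ext rfl (De g hg _ t hw)) rfl)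
    (fun w hw => Prod.ext (Prod.ext rfl (D0 _ hw)) rfl)
    ((IsClosedEmbedding.id.prodMap h.hi).prodMap IsClosedEmbedding.id)
    (fun g hg v => Prod.ext (Prod.ext rfl (h.ei g hg _)) rfl)
    (fun w hw => by
      obtain ⟨z, hz⟩ := ri.ge (D1 _ hw)
      exact ⟨((w.1.1, z), w.2), Prod.ext (Prod.ext rfl hz) rfl⟩)
    (fun w hw hq t => ⟨(((hE w.1.1).preimage (hD.comp_continuous (f := fun t : I => (w.1.2, t))
      (by fun_prop) fun t => ⟨hq, trivial⟩)).eq_univ
        ⟨0, show (w.1.1, D (w.1.2, 0)) ∈ E by rw [D0 _ hq]; exact hw.1⟩).ge (mem_univ t), trivial⟩)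
    h1.left fun x w hw => ((min_lt_iff.1 (h2 x w hw)).resolve_right (lt_irrefl _)).le
  exact ⟨g, h3.monoD fun _ hw => ⟨hw.1, trivial⟩, h4.symm.trans h1⟩

end RB
end

-- merged part: Pool.Agent.Work.MP_666b5d_gt.Tgt2
section
/-!
# Closure properties of `TNDR`
-/

open Set Filter Topology OnePoint
open scoped unitInterval

namespace RB

open Act

variable {S Z Y U K : Type} [TopologicalSpace Z] [TopologicalSpace Y] [TopologicalSpace U]
  [TopologicalSpace K] {𝒢 : Set S} {βZ : Act S Z} {β : Act S Y} {βU : Act S U} {i : Z → Y}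
  {j : U → Y}

theorem TNDR.prodL (h : TNDR 𝒢 βZ β βU i j) (κ : Act S K) :
    TNDR 𝒢 (κ.prod βZ) (κ.prod β) (κ.prod βU) (Prod.map id i) (Prod.map id j) := by
  obtain ⟨ψ, D, c, nn, inv, ri, rj, cD, pr, d0, d1, eD⟩ := h.ex
  refine ⟨IsClosedEmbedding.id.prodMap h.hi, fun g hg z => ?_, h.hj.prodL κ,
    fun p => ψ p.2, fun q => (q.1.1, D (q.1.2, q.2)), c.comp continuous_snd, fun p => nn p.2,
    fun g hg p => inv g hg p.2, ?_, ?_, ?_, ?_, ?_, ?_, ?_⟩
  · exact Prod.ext rfl (h.ei g hg z.2)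
  · rw [range_prodMap, ri, range_id]
    ext p
    simp
  · rw [range_prodMap, rj, range_id]
    ext p
    simp
  · refine (continuous_fst.comp continuous_fst).continuousOn.prodMk ?_
    refine cD.comp (f := fun q : (K × Y) × I => (q.1.2, q.2)) (by fun_prop) ?_
    intro q hq
    exact ⟨hq.1, trivial⟩
  · intro C hC
    obtain ⟨C', hC', H⟩ := pr _ (hC.image continuous_snd)
    refine ⟨(Prod.fst '' C) ×ˢ C', (hC.image continuous_fst).prod hC', fun p t hp hm => ?_⟩
    exact ⟨⟨_, hm, rfl⟩, H p.2 t hp ⟨_, hm, rfl⟩⟩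
  · intro p hp
    exact Prod.ext rfl (d0 p.2 hp)
  · intro p hp
    exact d1 p.2 hp
  · intro g hg p t hp
    exact Prod.ext rfl (eD g hg p.2 t hp)

theorem TNDR.prodR (h : TNDR 𝒢 βZ β βU i j) (κ : Act S K) :
    TNDR 𝒢 (βZ.prod κ) (β.prod κ) (βU.prod κ) (Prod.map i id) (Prod.map j id) := by
  obtain ⟨ψ, D, c, nn, inv, ri, rj, cD, pr, d0, d1, eD⟩ := h.ex
  refine ⟨h.hi.prodMap IsClosedEmbedding.id, fun g hg z => ?_, h.hj.prodR κ,
    fun p => ψ p.1, fun q => (D (q.1.1, q.2), q.1.2), c.comp continuous_fst, fun p => nn p.1,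
    fun g hg p => inv g hg p.1, ?_, ?_, ?_, ?_, ?_, ?_, ?_⟩
  · exact Prod.ext (h.ei g hg z.1) rfl
  · rw [range_prodMap, ri, range_id]
    ext p
    simp
  · rw [range_prodMap, rj, range_id]
    ext p
    simp
  · refine ContinuousOn.prodMk ?_ (continuous_snd.comp continuous_fst).continuousOn
    refine cD.comp (f := fun q : (Y × K) × I => (q.1.1, q.2)) (by fun_prop) ?_
    intro q hq
    exact ⟨hq.1, trivial⟩
  · intro C hC
    obtain ⟨C', hC', H⟩ := pr _ (hC.image continuous_fst)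
    refine ⟨C' ×ˢ (Prod.snd '' C), hC'.prod (hC.image continuous_snd), fun p t hp hm => ?_⟩
    exact ⟨H p.1 t hp ⟨_, hm, rfl⟩, ⟨_, hm, rfl⟩⟩
  · intro p hp
    exact Prod.ext (d0 p.1 hp) rfl
  · intro p hp
    exact d1 p.1 hp
  · intro g hg p t hp
    exact Prod.ext (eD g hg p.1 t hp) rfl

theorem TNDR.mono (h : TNDR 𝒢 βZ β βU i j) {ℋ : Set S} (h' : ℋ ⊆ 𝒢) : TNDR ℋ βZ β βU i j := by
  obtain ⟨ψ, D, c, nn, inv, ri, rj, cD, pr, d0, d1, eD⟩ := h.ex
  exact ⟨h.hi, fun g hg => h.ei g (h' hg), h.hj.mono h', ψ, D, c, nn, fun g hg => inv g (h' hg),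
    ri, rj, cD, pr, d0, d1, fun g hg => eD g (h' hg)⟩

theorem TNDR.of_empty (h : TNDR 𝒢 βZ β βU i j) {S' : Type} (γZ : Act S' Z) (γ : Act S' Y)
    (γU : Act S' U) : TNDR (∅ : Set S') γZ γ γU i j := by
  obtain ⟨ψ, D, c, nn, -, ri, rj, cD, pr, d0, d1, -⟩ := h.ex
  exact ⟨h.hi, fun _ hg => hg.elim, ⟨h.hj.emb, fun _ hg => hg.elim, fun _ hg => hg.elim⟩, ψ, D, c,
    nn, fun _ hg => hg.elim, ri, rj, cD, pr, d0, d1, fun _ hg => hg.elim⟩

theorem TNDR.via {γZ : Act ℤˣ Z} {γ : Act ℤˣ Y} {γU : Act ℤˣ U} (h : TNDR univ γZ γ γU i j)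
    (e : S → ℤˣ) (𝒢 : Set S) : TNDR 𝒢 (via e γZ) (via e γ) (via e γU) i j := by
  obtain ⟨ψ, D, c, nn, inv, ri, rj, cD, pr, d0, d1, eD⟩ := h.ex
  exact ⟨h.hi, fun g _ => h.ei (e g) trivial,
    ⟨h.hj.emb, fun g _ => h.hj.eqv (e g) trivial, fun g _ => h.hj.back (e g) trivial⟩, ψ, D, c, nn,
    fun g _ => inv (e g) trivial, ri, rj, cD, pr, d0, d1, fun g _ => eD (e g) trivial⟩

/-- An invariant clopen subset (`ψ = 0` on it, `ψ = 2` off it, constant deformation). -/
theorem tndr_clopen {p : Y → Prop} (hp : IsClopen {y | p y})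
    (hβ : ∀ g ∈ 𝒢, ∀ y, p (β g y) ↔ p y) :
    TNDR 𝒢 (β.sub p) β (β.sub fun y => ¬ p y) Subtype.val Subtype.val := by
  classical
  refine ⟨hp.isClosed.isClosedEmbedding_subtypeVal, fun g hg z => ?_,
    ⟨hp.compl.isOpen.isOpenEmbedding_subtypeVal, fun g hg z => ?_, fun g hg y hy => ?_⟩,
    fun y => if p y then 0 else 2, Prod.fst, ?_, fun y => ?_, fun g hg y => ?_, ?_, ?_,
    continuous_fst.continuousOn, fun C hC => ⟨C, hC, fun _ _ _ hy => hy⟩, fun _ _ => rfl,
    fun y hy => ?_, fun _ _ _ _ _ => rfl⟩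
  · exact sub_val β p ((hβ g hg z.1).2 z.2)
  · exact sub_val β (fun y => ¬ p y) (fun hz => z.2 ((hβ g hg z.1).1 hz))
  · obtain ⟨z, hz⟩ := hy
    refine ⟨⟨y, fun hy => z.2 ?_⟩, rfl⟩
    rw [hz]
    exact (hβ g hg y).2 hy
  · refine Continuous.if ?_ continuous_const continuous_const
    intro a ha
    rw [hp.frontier_eq] at ha
    exact ha.elim
  · dsimp only
    split_ifs <;> norm_num
  · simp only [hβ g hg y]
  · ext y
    by_cases hy : p y <;> simp [hy]
  · ext y
    by_cases hy : p y <;> simp [hy]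
  · by_cases hpy : p y
    · simp [hpy]
    · simp only [hpy, if_false] at hy
      norm_num at hy

/-- Transport along an equivariant homeomorphism of the ambient space. -/
theorem TNDR.homeo (h : TNDR 𝒢 βZ β βU i j) {Y' : Type} [TopologicalSpace Y'] {β' : Act S Y'}
    (e : Y ≃ₜ Y') (he : ∀ g ∈ 𝒢, ∀ y, e (β g y) = β' g (e y)) :
    TNDR 𝒢 βZ β' βU (e ∘ i) (e ∘ j) := by
  obtain ⟨ψ, D, c, nn, inv, ri, rj, cD, pr, d0, d1, eD⟩ := h.ex
  have he' : ∀ g ∈ 𝒢, ∀ y', e.symm (β' g y') = β g (e.symm y') := fun g hg y' => by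
    apply e.injective
    rw [he g hg, e.apply_symm_apply, e.apply_symm_apply]
  have hr : ∀ {W : Type} (k : W → Y) (y' : Y'), y' ∈ range (e ∘ k) ↔ e.symm y' ∈ range k := by
    intro W k y'
    constructor
    · rintro ⟨w, rfl⟩
      exact ⟨w, (e.symm_apply_apply _).symm⟩
    · rintro ⟨w, hw⟩
      exact ⟨w, by rw [Function.comp_apply, hw, e.apply_symm_apply]⟩
  refine ⟨e.isClosedEmbedding.comp h.hi, fun g hg z => ?_,
    ⟨e.isOpenEmbedding.comp h.hj.emb, fun g hg u => ?_, fun g hg y' hy => ?_⟩,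
    fun y' => ψ (e.symm y'), fun q => e (D (e.symm q.1, q.2)), c.comp e.symm.continuous,
    fun y' => nn _, fun g hg y' => ?_, ?_, ?_, ?_, ?_, ?_, ?_, ?_⟩
  · rw [Function.comp_apply, Function.comp_apply, h.ei g hg, he g hg]
  · rw [Function.comp_apply, Function.comp_apply, h.hj.eqv g hg, he g hg]
  · rw [hr] at hy ⊢
    rw [he' g hg] at hy
    exact h.hj.back g hg _ hy
  · dsimp only
    rw [he' g hg, inv g hg]
  · ext y'
    rw [hr, ri]
    rfl
  · ext y'
    rw [hr, rj]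
    rfl
  · refine e.continuous.comp_continuousOn ?_
    refine cD.comp (f := fun q : Y' × I => (e.symm q.1, q.2)) (by fun_prop) ?_
    intro q hq
    exact ⟨hq.1, trivial⟩
  · intro C hC
    obtain ⟨C', hC', H⟩ := pr _ (hC.image e.symm.continuous)
    refine ⟨e '' C', hC'.image e.continuous, fun y' t hy hm => ?_⟩
    exact ⟨e.symm y', H _ t hy ⟨_, hm, e.symm_apply_apply _⟩, e.apply_symm_apply _⟩
  · intro y' hy
    dsimp only
    rw [d0 _ hy, e.apply_symm_apply]
  · intro y' hy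
    dsimp only
    rw [e.symm_apply_apply]
    exact d1 _ hy
  · intro g hg y' t hy
    dsimp only
    rw [he' g hg, eD g hg _ t hy, he g hg]

end RB
end

-- merged part: Pool.Agent.Work.MP_666b5d_gt.Smooth
section
/-!
# Smoothing near a compact preimage; connectivity of spheres

Proof plan for `smooth_near`.  `K = {x | f x is finite of norm ≤ 3 R + 3}` is compact.  Extend `f|K` to a
continuous map `A → B` (Tietze, `ContinuousMap.exists_restrict_eq`) and approximate it within `1`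
by a smooth map `F` (`Continuous.exists_contDiff_dist_le_of_forall_mem_ball_dist_le`,
`exists_contDiff_forall_mem_convex_of_local_const` or Stone-Weierstrass).  Let `χ : B → [0, 1]` be
`1` for `‖y‖ ≤ R + 1` and `0` for `‖y‖ ≥ R + 2`, and `H (x, t) = (f x).map fun y =>
y + (t * χ y) • (F x - y)` (transition data `Tr` or `cont_ob`; the value moves by at most `1`).
`sphere_conn`: `F` misses a point `p` of the unit ball
(`ContDiff.dense_compl_range_of_finrank_lt_finrank`), so `f'` misses `p`, at distance `≥ δ` by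
compactness; the ray `(x, r) ↦ p + (1 + r) • (f' x - p)` and `null_of_ray` finish the proof.
-/

open Set Filter Topology OnePoint Module
open scoped unitInterval

namespace RB

variable {A B : Type} [NormedAddCommGroup A] [NormedSpace ℝ A] [FiniteDimensional ℝ A]
  [NormedAddCommGroup B] [NormedSpace ℝ B] [FiniteDimensional ℝ B]

theorem Smooth_cont {X : Type} [TopologicalSpace X] {a : X → OnePoint B} (ha : Continuous a)
    {k : B × X → B} (hk : Continuous k) (c : ℝ)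
    (h : ∀ x (y : B), a x = y → ‖y‖ ≤ ‖k (y, x)‖ + c) :
    Continuous fun x => (a x).map fun y => k (y, x) := by
  refine (cont_ob ha (k := fun p => (k p : OnePoint B)) (S := {p | a p.2 = p.1}) (fun _ _ e => e)
    (continuous_coe.comp hk).continuousOn fun _ K hK => ?_).congr fun x => ob_some (a x) _
  obtain ⟨r, hr⟩ := hK.isBounded.subset_closedBall 0
  refine ⟨Metric.closedBall 0 (r + c), isCompact_closedBall _ _, .of_forall fun x y z e e' hz => ?_⟩
  have h1 := h x y e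
  have h2 := mem_closedBall_zero_iff.1 (hr hz)
  rw [← coe_eq_coe.1 e'] at h2
  rw [mem_closedBall_zero_iff]
  linarith

theorem Smooth_approx (f : BM A B) (R : ℝ) : ∃ F : A → B, ContDiff ℝ 1 F ∧
    ∀ x (y : B), f.f x = y → ‖y‖ ≤ R → ‖F x - y‖ ≤ 1 := by
  obtain ⟨F, hF⟩ := exists_contMDiffMap_forall_mem_convex_of_local_const
    (n := 1) (modelWithCornersSelf ℝ A)
    (t := fun x => ⋂ y : B, ⋂ _ : f.f x = y, ⋂ _ : ‖y‖ ≤ R, Metric.closedBall y 1)
    (fun x => convex_iInter fun y => convex_iInter fun _ => convex_iInter fun _ =>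
      convex_closedBall y 1) fun x₀ => by
    have h1 : Tendsto f.f (𝓝 x₀) (𝓝 (f.f x₀)) := f.cont.continuousAt
    simp only [mem_iInter]
    induction h : f.f x₀ using OnePoint.rec with
    | infty =>
      rw [h] at h1
      refine ⟨0, (OP_tend.1 h1 _ (isCompact_closedBall 0 R)).mono fun x hx y e hy => ?_⟩
      exact absurd (mem_closedBall_zero_iff.2 hy) (hx y e)
    | coe y₀ =>
      rw [h] at h1
      have h2 := h1.eventually
        (isOpenEmbedding_coe.image_mem_nhds.2 (Metric.closedBall_mem_nhds y₀ one_pos))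
      refine ⟨y₀, h2.mono fun x hx y e _ => ?_⟩
      obtain ⟨z, hz, e'⟩ := hx
      rw [coe_eq_coe.1 (e.symm.trans e'.symm)]
      exact Metric.mem_closedBall_comm.1 hz
  refine ⟨F, F.contMDiff.contDiff, fun x y e hy => ?_⟩
  have h1 := hF x
  simp only [mem_iInter] at h1
  exact mem_closedBall_iff_norm.1 (h1 y e hy)

theorem Smooth_gap {X : Type} [TopologicalSpace X] (f : BM X B) (p : B) (hp : ∀ x, f.f x ≠ p) :
    ∃ δ : ℝ, 0 < δ ∧ ∀ x (y : B), f.f x = y → δ ≤ ‖y - p‖ := by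
  have h1 := ((f.isCompact_pre (isCompact_closedBall p 1)).image f.cont).isClosed.preimage
    (continuous_coe (X := B))
  obtain ⟨δ, hδ, h2⟩ := Metric.isOpen_iff.1 h1.isOpen_compl p fun ⟨x, _, e⟩ => hp x e
  refine ⟨min δ 1, lt_min hδ one_pos, fun x y e => not_lt.1 fun h => ?_⟩
  rw [lt_min_iff] at h
  exact h2 (mem_ball_iff_norm.2 h.1) ⟨x, ⟨y, mem_closedBall_iff_norm.2 h.2.le, e⟩, e⟩

theorem smooth_near (f : BM A B) (R : ℝ) : ∃ f' : BM A B, Ht0 f f' ∧ ∃ F : A → B,
    ContDiff ℝ 1 F ∧ ∀ x (y : B), f'.f x = y → ‖y‖ < R → y = F x := by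
  obtain ⟨F, hF, hFy⟩ := Smooth_approx f (R + 2)
  have hFc := hF.continuous
  let k : B × (A × I) → B := fun q =>
    q.1 + ((q.2.2 : ℝ) * max 0 (min 1 (R + 2 - ‖q.1‖))) • (F q.2.1 - q.1)
  have hk : Continuous k := by
    simp only [k]
    fun_prop
  have hd : ∀ (q : A × I) (y : B), f.f q.1 = y → ‖y‖ ≤ ‖k (y, q)‖ + 1 := by
    intro q y e
    have h1 : ‖k (y, q) - y‖ ≤ 1 := by
      simp only [k, add_sub_cancel_left]
      by_cases hy : ‖y‖ ≤ R + 2
      · have h2 : 0 ≤ max 0 (min 1 (R + 2 - ‖y‖)) := le_max_left _ _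
        have h3 : max 0 (min 1 (R + 2 - ‖y‖)) ≤ 1 := max_le zero_le_one (min_le_left _ _)
        rw [norm_smul, Real.norm_of_nonneg (mul_nonneg q.2.2.1 h2)]
        exact mul_le_one₀ (mul_le_one₀ q.2.2.2 h2 h3) (norm_nonneg _) (hFy _ y e hy)
      · rw [max_eq_left (min_le_of_right_le (by linarith)), mul_zero, zero_smul, norm_zero]
        exact zero_le_one
    have h2 := norm_sub_norm_le y (k (y, q))
    rw [norm_sub_rev] at h2
    linarith
  let H : BM (A × I) B := BM.mk' (fun q => (f.f q.1).map fun y => k (y, q))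
    (Smooth_cont (f.cont.comp continuous_fst) hk 1 hd) fun K hK => by
      obtain ⟨r, hr⟩ := hK.isBounded.subset_closedBall 0
      obtain ⟨C, hC, h⟩ := f.exists_compact (isCompact_closedBall 0 (r + 1))
      refine ⟨C ×ˢ univ, hC.prod isCompact_univ, fun q z e hz => ⟨?_, trivial⟩⟩
      obtain ⟨y, e1, rfl⟩ := omap_eq_coe.1 e
      have h1 := hd q y e1
      have h2 := mem_closedBall_zero_iff.1 (hr hz)
      exact h _ y e1 (mem_closedBall_zero_iff.2 (by linarith))
  refine ⟨H.pre _ (proper_at 1), ⟨H, Good.empty_univ H, fun x => ?_, fun _ => rfl⟩, F, hF,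
    fun x z e hz => ?_⟩
  · refine (omap_congr _ fun y _ => ?_).trans (omap_id (f.f x))
    simp [k]
  · obtain ⟨y, e1, rfl⟩ := omap_eq_coe.1 e
    have h1 := hd (x, 1) y e1
    simp only [k]
    rw [min_eq_left (by linarith), max_eq_right zero_le_one]
    simp

/-- A map that misses a point is null-homotopic. -/
theorem null_of_miss {X : Type} [TopologicalSpace X] [T2Space X] (f : BM X B) (p : B)
    (hp : ∀ x, f.f x ≠ p) : Ht0 f BM.zero := by
  obtain ⟨δ, hδ, hd⟩ := Smooth_gap f p hp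
  let k : B × (X × Ici (0 : ℝ)) → B := fun q => p + (1 + (q.2.2 : ℝ)) • (q.1 - p)
  have hk : Continuous k := by
    simp only [k]
    fun_prop
  have hn : ∀ (q : X × Ici (0 : ℝ)) (y : B), ‖k (y, q) - p‖ = (1 + (q.2 : ℝ)) * ‖y - p‖ := by
    intro q y
    have h0 : (0 : ℝ) ≤ q.2 := q.2.2
    simp only [k, add_sub_cancel_left]
    rw [norm_smul, Real.norm_of_nonneg (by linarith)]
  have hn' : ∀ (q : X × Ici (0 : ℝ)) (y : B), ‖y - p‖ ≤ ‖k (y, q) - p‖ := by
    intro q y
    have h0 : (0 : ℝ) ≤ q.2 := q.2.2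
    rw [hn]
    exact le_mul_of_one_le_left (norm_nonneg _) (by linarith)
  let H : BM (X × Ici (0 : ℝ)) B := BM.mk' (fun q => (f.f q.1).map fun y => k (y, q))
    (Smooth_cont (f.cont.comp continuous_fst) hk (2 * ‖p‖) fun q y _ => by
      have h1 := hn' q y
      have h2 := norm_sub_norm_le y p
      have h3 := norm_sub_le (k (y, q)) p
      linarith) fun K hK => by
      obtain ⟨r, hr⟩ := hK.isBounded.subset_closedBall p
      obtain ⟨C, hC, h⟩ := f.exists_compact (isCompact_closedBall p r)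
      refine ⟨C ×ˢ (Subtype.val ⁻¹' Icc 0 (r / δ)), hC.prod
        (isClosed_Ici.isClosedEmbedding_subtypeVal.isCompact_preimage isCompact_Icc),
        fun q z e hz => ?_⟩
      obtain ⟨y, e1, rfl⟩ := omap_eq_coe.1 e
      have h0 : (0 : ℝ) ≤ q.2 := q.2.2
      have h1 := mem_closedBall_iff_norm.1 (hr hz)
      refine ⟨h _ y e1 (mem_closedBall_iff_norm.2 ((hn' q y).trans h1)), h0, ?_⟩
      rw [hn] at h1
      have h2 := mul_le_mul_of_nonneg_left (hd _ y e1) (show 0 ≤ 1 + (q.2 : ℝ) by linarith)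
      rw [le_div_iff₀ hδ]
      linarith
  refine null_of_ray (Good.empty_univ H) fun x => ?_
  refine (omap_congr _ fun y _ => ?_).trans (omap_id (f.f x))
  change p + (1 + (0 : ℝ)) • (y - p) = y
  rw [add_zero, one_smul, add_sub_cancel]

theorem sphere_conn (h : finrank ℝ A < finrank ℝ B) (f : BM A B) : Ht0 f BM.zero := by
  obtain ⟨f', hf, F, hF, h1⟩ := smooth_near f 1
  obtain ⟨p, hp1, hp2⟩ := (hF.dense_compl_range_of_finrank_lt_finrank h).exists_mem_open
    Metric.isOpen_ball ⟨0, Metric.mem_ball_self one_pos⟩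
  exact hf.trans (null_of_miss f' p fun x e =>
    hp1 ⟨x, (h1 x p e (mem_ball_zero_iff.1 hp2)).symm⟩)

/-- The same for spaces homeomorphic to vector spaces. -/
theorem sphere_conn' {X Y : Type} [TopologicalSpace X] [TopologicalSpace Y] [T2Space Y]
    (c : X ≃ₜ A) (c' : Y ≃ₜ B) (h : finrank ℝ A < finrank ℝ B) (f : BM X Y) : Ht0 f BM.zero := by
  have h1 := ((sphere_conn h ((f.pre c.symm c.symm.isProperMap).map c' c'.isProperMap)).pre
    (α' := Act.triv) (p := c) ⟨c.isProperMap, fun _ h => h.elim⟩).map (β' := Act.triv) (D' := univ)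
    (p := c'.symm) ⟨c'.symm.isProperMap, fun _ h => h.elim⟩ fun _ _ => trivial
  convert h1 using 1
  · refine BM.ext fun x => ?_
    simp only [BM.map_f, BM.pre_f, omap_map, Homeomorph.symm_apply_apply, omap_id]
  · exact BM.ext fun _ => rfl

end RB
end

-- merged part: Pool.Agent.Work.MP_666b5d_gt.HA3
section
/-!
# Cyclic covers with a deck transformation homotopic to the identity

Proof plan.  Write `C'` and `C` for the chains of `X'` and `X`, `t = mapDomain T`, `P = mapDomain p`.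
(a) `ker P = range (t - 1)` (two elements of one orbit differ by an element of the range; a chain
killed by `P` has coefficient sum zero on every orbit).
(b) `ker (t - 1)`: for `r = 0` it is `0` (a nonzero invariant chain has infinite support); for
`r > 0` it is the range of the injective chain map `N : C → C'`,
`single (p a) ↦ ∑ k < r, single (T ^ k a)`.  So cycles in `ker (t - 1)` are finitely generated
modulo boundaries of `C'`.
(c) For a cycle `z` of degree `n`, `d (h z) = z - t z`, so `φ z = P (h z)` is a cycle of degree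
`n + 1` of `C`.  If `φ z = d (P u)` then `h z - d u = (t - 1) y`, so `z - t z = (t - 1) (d y)` and
`z + d y ∈ ker (t - 1)`.  Conclude with `RelFG.of_hom`.
-/

open Finsupp

namespace RB

section aux

variable {Y Z : Type} {T : Equiv.Perm Y} {p : Y → Z} {s : Z → Y}

theorem HA3_orbit (T : Equiv.Perm Y) (m : ℤ) (a : Y) (n : ℤ) :
    ∃ y : Y →₀ ℤ, single ((T ^ m) a) n - single a n = mapDomain T y - y := by
  induction m using Int.induction_on with
  | zero => exact ⟨0, by simp⟩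
  | succ m ih =>
    obtain ⟨y, hy⟩ := ih
    refine ⟨y + single ((T ^ (m : ℤ)) a) n, ?_⟩
    rw [mapDomain_add, mapDomain_single, add_comm (m : ℤ) 1, zpow_add, zpow_one,
      Equiv.Perm.mul_apply, add_sub_add_comm, ← hy]
    abel
  | pred m ih =>
    obtain ⟨y, hy⟩ := ih
    have e : T ((T ^ (-(m : ℤ) - 1)) a) = (T ^ (-(m : ℤ))) a := by
      rw [← Equiv.Perm.mul_apply, ← zpow_one_add]
      congr 2
      ring
    refine ⟨y + single ((T ^ (-(m : ℤ) - 1)) a) (-n), ?_⟩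
    rw [mapDomain_add, mapDomain_single, e, add_sub_add_comm, ← hy, single_neg, single_neg]
    abel

theorem HA3_ker (fib : ∀ a b, p a = p b ↔ ∃ m : ℤ, (T ^ m) a = b) (hs : ∀ z, p (s z) = z)
    (u : Y →₀ ℤ) : ∃ y : Y →₀ ℤ, u - mapDomain s (mapDomain p u) = mapDomain T y - y := by
  induction u using Finsupp.induction_linear with
  | zero => exact ⟨0, by simp⟩
  | add u v hu hv =>
    obtain ⟨y, hy⟩ := hu
    obtain ⟨y', hy'⟩ := hv
    refine ⟨y + y', ?_⟩
    rw [mapDomain_add, mapDomain_add, mapDomain_add, add_sub_add_comm, hy, hy', add_sub_add_comm]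
  | single a n =>
    obtain ⟨m, hm⟩ := (fib (s (p a)) a).1 (hs _)
    obtain ⟨y, hy⟩ := HA3_orbit T m (s (p a)) n
    refine ⟨y, ?_⟩
    rw [mapDomain_single, mapDomain_single, ← hy, hm]

theorem HA3_inv {c : Y →₀ ℤ} (hc : mapDomain T c = c) (k : ℕ) (a : Y) : c ((T ^ k) a) = c a := by
  induction k with
  | zero => rfl
  | succ k ih =>
    rw [pow_succ', Equiv.Perm.mul_apply, ← ih]
    conv_lhs => rw [← hc]
    exact mapDomain_apply T.injective _ _

theorem HA3_dvd {r : ℕ} (ord : ∀ a (m : ℤ), (T ^ m) a = a ↔ (r : ℤ) ∣ m) {a : Y} {j k : ℕ}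
    (h : (T ^ j) a = (T ^ k) a) : (r : ℤ) ∣ (j : ℤ) - k := by
  refine (ord ((T ^ k) a) _).1 ?_
  rw [← zpow_natCast, ← Equiv.Perm.mul_apply, ← zpow_add, sub_add_cancel, zpow_natCast,
    zpow_natCast, h]

theorem HA3_zero (ord : ∀ a (m : ℤ), (T ^ m) a = a ↔ ((0 : ℕ) : ℤ) ∣ m) {c : Y →₀ ℤ}
    (hc : mapDomain T c = c) : c = 0 := by
  ext a
  by_contra h0
  refine c.support.finite_toSet.not_infinite (Set.infinite_of_injective_forall_mem
    (f := fun k : ℕ => (T ^ k) a) (fun j k h => ?_) fun k => ?_)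
  · have := HA3_dvd ord h
    rw [Nat.cast_zero, zero_dvd_iff] at this
    omega
  · rw [Finset.mem_coe, mem_support_iff, HA3_inv hc]
    exact h0

/-- The norm map. -/
noncomputable def HA3_sum (T : Equiv.Perm Y) (r : ℕ) : (Y →₀ ℤ) →+ (Y →₀ ℤ) :=
  ∑ k ∈ Finset.range r, mapDomain.addMonoidHom ⇑(T ^ k)

theorem HA3_sum_apply (r : ℕ) (u : Y →₀ ℤ) :
    HA3_sum T r u = ∑ k ∈ Finset.range r, mapDomain ⇑(T ^ k) u := by
  rw [HA3_sum, AddMonoidHom.finsetSum_apply]
  rfl

theorem HA3_sum_sub {r : ℕ} (ord : ∀ a (m : ℤ), (T ^ m) a = a ↔ (r : ℤ) ∣ m) (y : Y →₀ ℤ) :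
    HA3_sum T r (mapDomain T y - y) = 0 := by
  have e : T ^ r = 1 := Equiv.ext fun a => by
    rw [← zpow_natCast]
    exact (ord a r).2 dvd_rfl
  rw [map_sub, HA3_sum_apply, HA3_sum_apply, ← Finset.sum_sub_distrib]
  have e' : ∀ k, mapDomain ⇑(T ^ k) (mapDomain T y) = mapDomain ⇑(T ^ (k + 1)) y := fun k => by
    rw [← mapDomain_comp, pow_succ]
    rfl
  simp only [e']
  rw [Finset.sum_range_sub fun k => mapDomain ⇑(T ^ k) y, e, pow_zero, sub_self]

theorem HA3_range (fib : ∀ a b, p a = p b ↔ ∃ m : ℤ, (T ^ m) a = b) (hs : ∀ z, p (s z) = z)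
    {r : ℕ} (hr : r ≠ 0) (ord : ∀ a (m : ℤ), (T ^ m) a = a ↔ (r : ℤ) ∣ m) {c : Y →₀ ℤ}
    (hc : mapDomain T c = c) : ∃ c₀ : Z →₀ ℤ, HA3_sum T r (mapDomain s c₀) = c := by
  have hi : Function.Injective s := Function.LeftInverse.injective hs
  refine ⟨comapDomain s c hi.injOn, ?_⟩
  ext b
  obtain ⟨m, hm⟩ := (fib (s (p b)) b).1 (hs _)
  have hr' : (0 : ℤ) < r := by omega
  obtain ⟨k, hk⟩ := Int.eq_ofNat_of_zero_le (Int.emod_nonneg m hr'.ne')
  have hkr : k < r := by
    have := Int.emod_lt_of_pos m hr'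
    omega
  have hb : (T ^ k) (s (p b)) = b := by
    rw [← zpow_natCast, ← hk]
    conv_rhs => rw [← hm, ← Int.emod_add_mul_ediv m r, zpow_add, Equiv.Perm.mul_apply,
      (ord _ _).2 (dvd_mul_right _ _)]
  rw [HA3_sum_apply, Finsupp.finsetSum_apply, Finset.sum_eq_single k]
  · conv_lhs => rw [← hb]
    rw [mapDomain_apply (T ^ k).injective, mapDomain_apply hi, comapDomain_apply, ← HA3_inv hc k,
      hb]
  · intro j hj hjk
    rw [← mapDomain_comp]
    refine mapDomain_of_notMem_range _ _ ?_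
    rintro ⟨z, hz⟩
    have hz' : (T ^ j) (s z) = b := hz
    have e : z = p b := by
      rw [← hs z]
      exact (fib _ _).2 ⟨j, by rw [zpow_natCast, hz']⟩
    rw [e, ← hb] at hz'
    rw [hb] at hz'
    have h1 := HA3_dvd ord (hz'.trans hb.symm)
    have h2 := Finset.mem_range.1 hj
    have h3 := Int.eq_zero_of_abs_lt_dvd h1 (abs_lt.2 ⟨by omega, by omega⟩)
    omega
  · intro h
    exact (h (Finset.mem_range.2 hkr)).elim

end aux

theorem HA3_fixed {X X' : CS} {p : X'.Y → X.Y} (hp : CS.IsHom X' X p)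
    (hs : Function.Surjective p) (T : Equiv.Perm X'.Y) (hT : CS.IsHom X' X' T)
    (fib : ∀ a b, p a = p b ↔ ∃ m : ℤ, (T ^ m) a = b) (r : ℕ)
    (ord : ∀ a (m : ℤ), (T ^ m) a = a ↔ (r : ℤ) ∣ m) (hX : X.FT ℤ) (n : ℕ) :
    ∃ K : AddSubgroup (X'.Y →₀ ℤ), RelFG (X'.d ℤ (n + 1)).range K ∧
      ∀ c, mapDomain T c = c → X'.d ℤ n c = 0 → c ∈ K := by
  rcases eq_or_ne r 0 with rfl | hr
  · exact ⟨⊥, RelFG.of_le bot_le, fun c hc _ => HA3_zero ord hc⟩
  obtain ⟨s, hs⟩ := hs.hasRightInverse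
  let N : (X.Y →₀ ℤ) →+ (X'.Y →₀ ℤ) := (HA3_sum T r).comp (mapDomain.addMonoidHom s)
  have hN : ∀ c, N c = HA3_sum T r (mapDomain s c) := fun _ => rfl
  have hPs : ∀ c : X.Y →₀ ℤ, mapDomain p (mapDomain s c) = c := fun c => by
    rw [← mapDomain_comp, hs.comp_eq_id, mapDomain_id]
  have h1 : ∀ u, N (mapDomain p u) = HA3_sum T r u := fun u => by
    obtain ⟨y, hy⟩ := HA3_ker fib hs u
    rw [hN, eq_comm, ← sub_eq_zero, ← map_sub, hy, HA3_sum_sub ord]
  have hTk : ∀ k : ℕ, CS.IsHom X' X' ⇑(T ^ k) := fun k => by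
    induction k with
    | zero => exact CS.IsHom.id
    | succ k ih => exact pow_succ T k ▸ ih.comp hT
  have h2 : ∀ m c, N (X.d ℤ m c) = X'.d ℤ m (N c) := fun m c => by
    conv_lhs => rw [← hPs c, ← hp.comm, h1]
    rw [hN, HA3_sum_apply, HA3_sum_apply, map_sum]
    exact Finset.sum_congr rfl fun k _ => (hTk k).comm m _
  have h3 : ∀ c, N c = 0 → c = 0 := fun c hc => by
    have e : ∀ k : ℕ, mapDomain p (mapDomain ⇑(T ^ k) (mapDomain s c)) = c := fun k => by
      have : p ∘ ⇑(T ^ k) = p := funext fun a =>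
        ((fib a _).2 ⟨k, by rw [zpow_natCast]⟩).symm
      rw [← mapDomain_comp, this, hPs]
    have e' := congrArg (mapDomain.addMonoidHom p) hc
    rw [hN, HA3_sum_apply, map_sum, map_zero] at e'
    simp only [mapDomain.addMonoidHom_apply, e, Finset.sum_const, Finset.card_range] at e'
    exact (smul_eq_zero_iff_right hr).1 e'
  refine ⟨_, ((hX n).map N).mono ?_ le_rfl, fun c hc hd => ?_⟩
  · rintro _ ⟨_, ⟨w, rfl⟩, rfl⟩
    exact ⟨N w, (h2 _ w).symm⟩
  · obtain ⟨c₀, h⟩ := HA3_range fib hs hr ord hc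
    refine ⟨c₀, h3 _ ?_, h⟩
    rw [h2, hN, h, hd]

theorem CS.cyc_cover {X X' : CS} {p : X'.Y → X.Y} (hp : CS.IsHom X' X p)
    (hs : Function.Surjective p) (T : Equiv.Perm X'.Y) (hT : CS.IsHom X' X' T)
    (fib : ∀ a b, p a = p b ↔ ∃ m : ℤ, (T ^ m) a = b) (r : ℕ)
    (ord : ∀ a (m : ℤ), (T ^ m) a = a ↔ (r : ℤ) ∣ m) {h : X'.Y → X'.Y}
    (H : CS.Htpy X' X' id T h) (hX : X.FT ℤ) : X'.FT ℤ := by
  intro n
  obtain ⟨K, hK, hK'⟩ := HA3_fixed hp hs T hT fib r ord hX n
  obtain ⟨s, hs'⟩ := hs.hasRightInverse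
  have hpT : p ∘ T = p := funext fun a => ((fib a _).2 ⟨1, by rw [zpow_one]⟩).symm
  have hd : ∀ z, X'.d ℤ n z = 0 → X'.d ℤ (n + 1) (mapDomain h z) = z - mapDomain T z :=
    fun z hz => by rw [H.d_eq, hz, mapDomain_zero, sub_zero, mapDomain_id]
  refine RelFG.of_hom ((mapDomain.addMonoidHom p).comp (mapDomain.addMonoidHom h)) (hX (n + 1))
    (fun z hz => ?_) (((RelFG.of_le le_rfl).sup hK).mono le_rfl ?_)
  · change X.d ℤ (n + 1) (mapDomain p (mapDomain h z)) = 0
    rw [← hp.comm, hd z hz, ← mapDomain.addMonoidHom_apply, map_sub, mapDomain.addMonoidHom_apply,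
      mapDomain.addMonoidHom_apply, ← mapDomain_comp, hpT, sub_self]
  · rintro z ⟨hz, w, hw⟩
    have hz' : X'.d ℤ n z = 0 := hz
    have hw' : X.d ℤ (n + 1 + 1) w = mapDomain p (mapDomain h z) := hw
    obtain ⟨y, hy⟩ := HA3_ker fib hs' (mapDomain h z - X'.d ℤ (n + 1 + 1) (mapDomain s w))
    have e : mapDomain p (mapDomain h z - X'.d ℤ (n + 1 + 1) (mapDomain s w)) = 0 := by
      rw [← mapDomain.addMonoidHom_apply, map_sub, mapDomain.addMonoidHom_apply,
        mapDomain.addMonoidHom_apply, hp.comm, ← mapDomain_comp (f := s), hs'.comp_eq_id,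
        mapDomain_id, hw', sub_self]
    rw [e, mapDomain_zero, sub_zero] at hy
    have e' := congrArg (X'.d ℤ (n + 1)) hy
    rw [map_sub, map_sub, hd z hz', CS.d_d, sub_zero, ← hT.comm] at e'
    have h1 : z + X'.d ℤ (n + 1) y ∈ K := by
      refine hK' _ ?_ (by rw [map_add, hz', CS.d_d, add_zero])
      rw [mapDomain_add, ← sub_eq_zero, add_sub_add_comm, ← e']
      abel
    refine AddSubgroup.mem_sup.2 ⟨_, ⟨-y, rfl⟩, _, h1, ?_⟩
    rw [map_neg]
    abel

end RB
end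

-- merged part: Pool.Agent.Work.MP_666b5d_gt.Loop2
section
/-!
# The universal covering of a nice space has finitely generated homology

Proof plan for `cov_step`.  Let `g = ⟦l⟧`.  Left concatenation with a loop `l` acts on `PS Z z`
continuously (`u ↦ l · u`), and the loop class of `(l · γ, l' · δ)` is `⟦l⟧ ⟦γ δ⁻¹⟧ ⟦l'⟧⁻¹`; as the
group is abelian this gives an action of the fundamental group on `(Cov K).Y` by permutations
commuting with the faces, and `T a` relates `γ` and `l · δ` iff `⟦γ δ⁻¹⟧ ∈ a K`.  With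
`PRel.const` the fibres of `Cov K → Cov (K ⊔ zpowers g)` are the orbits of `T g`, and
`(T g) ^ m a = a ↔ g ^ m ∈ K ↔ r ∣ m` for `r = orderOf` of the class of `g` modulo `K`.
Homotopy from `id` to `T g`: with `G` from `Nice.track`, `h u x` is the path `u (tl x)` followed by
`r ↦ G ((u (tl x)) 1, r * x 0)`.  Apply `CS.cyc_cover`.
`cov_bot`: induct on a finite generating set: `FT (Cov (K ⊔ closure s)) → FT (Cov K)`.
-/

open Set
open scoped unitInterval

namespace RB

variable {Z : Type} [TopologicalSpace Z] {z : Z}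

/-- A point of the path space as a path with prescribed end point. -/
def Loop2_pth (γ : PS Z z) {y : Z} (h : γ.1 1 = y) : Path z y := ⟨γ.1, γ.2, h⟩

/-- A path as a point of the path space. -/
def Loop2_of {y : Z} (p : Path z y) : PS Z z := ⟨p.toContinuousMap, p.source⟩

theorem Loop2_of_end {y : Z} (p : Path z y) : (Loop2_of p).1 1 = y := p.target

open Classical in
/-- The class of the loop formed by two paths. -/
noncomputable def Loop2_cl (γ δ : PS Z z) : FundamentalGroup Z z :=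
  if h : δ.1 1 = γ.1 1 then FundamentalGroup.fromPath
    ((Path.Homotopic.Quotient.mk (Loop2_pth γ rfl)).trans
      (Path.Homotopic.Quotient.mk (Loop2_pth δ h)).symm) else 1

theorem Loop2_cl_eq {γ δ : PS Z z} {y : Z} (hγ : γ.1 1 = y) (hδ : δ.1 1 = y) :
    Loop2_cl γ δ = FundamentalGroup.fromPath ((Path.Homotopic.Quotient.mk (Loop2_pth γ hγ)).trans
      (Path.Homotopic.Quotient.mk (Loop2_pth δ hδ)).symm) := by
  subst hγ
  exact dif_pos hδ

theorem Loop2_cl_of {y : Z} (p q : Path z y) :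
    Loop2_cl (Loop2_of p) (Loop2_of q) = FundamentalGroup.fromPath
      ((Path.Homotopic.Quotient.mk p).trans (Path.Homotopic.Quotient.mk q).symm) :=
  Loop2_cl_eq p.target q.target

theorem Loop2_prel {K : Subgroup (FundamentalGroup Z z)} {γ δ : PS Z z} :
    PRel K γ δ ↔ γ.1 1 = δ.1 1 ∧ Loop2_cl γ δ ∈ K := by
  constructor
  · rintro ⟨y, p, q, hp, hq, h⟩
    have hγ : γ.1 1 = y := (hp 1).symm.trans p.target
    have hδ : δ.1 1 = y := (hq 1).symm.trans q.target
    refine ⟨hγ.trans hδ.symm, ?_⟩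
    obtain rfl : p = Loop2_pth γ hγ := Path.ext (funext hp)
    obtain rfl : q = Loop2_pth δ hδ := Path.ext (funext hq)
    rw [Loop2_cl_eq hγ hδ]
    exact h
  · rintro ⟨he, h⟩
    rw [Loop2_cl_eq he rfl] at h
    exact ⟨_, Loop2_pth γ he, Loop2_pth δ rfl, fun _ => rfl, fun _ => rfl, h⟩

theorem Loop2_cl_self (γ : PS Z z) : Loop2_cl γ γ = 1 := by
  rw [Loop2_cl_eq rfl rfl, Path.Homotopic.Quotient.trans_symm]
  rfl

theorem Loop2_cl_mul {γ δ ε : PS Z z} (h₁ : γ.1 1 = δ.1 1) (h₂ : ε.1 1 = δ.1 1) :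
    Loop2_cl δ ε * Loop2_cl γ δ = Loop2_cl γ ε := by
  rw [Loop2_cl_eq h₁ rfl, Loop2_cl_eq rfl h₂, Loop2_cl_eq h₁ h₂, FundamentalGroup.mul_def,
    Path.Homotopic.Quotient.trans_assoc, ← Path.Homotopic.Quotient.trans_assoc
      (Path.Homotopic.Quotient.symm _), Path.Homotopic.Quotient.symm_trans,
    Path.Homotopic.Quotient.refl_trans]

theorem Loop2_cl_inv {γ δ : PS Z z} (h : γ.1 1 = δ.1 1) : Loop2_cl δ γ = (Loop2_cl γ δ)⁻¹ := by
  rw [eq_inv_iff_mul_eq_one, Loop2_cl_mul h h, Loop2_cl_self]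

/-- A continuous family of paths as a map to the path space. -/
def Loop2_fam {W : Type} [TopologicalSpace W] {b : W → Z} (γ : ∀ w, Path z (b w))
    (hγ : Continuous ↿γ) : C(W, PS Z z) :=
  ⟨fun w => Loop2_of (γ w),
    Continuous.subtype_mk (ContinuousMap.continuous_of_continuous_uncurry _ hγ) _⟩

theorem Loop2_cont_ev : Continuous fun p : PS Z z × I => p.1.1 p.2 :=
  (continuous_subtype_val.comp continuous_fst).eval continuous_snd

theorem Loop2_cont_end : Continuous fun γ : PS Z z => γ.1 1 :=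
  Loop2_cont_ev.comp (continuous_id.prodMk continuous_const)

/-- A loop representing an element of the fundamental group. -/
noncomputable def Loop2_rep (a : FundamentalGroup Z z) : Path z z :=
  (Path.Homotopic.Quotient.mk_surjective (FundamentalGroup.toPath a)).choose

theorem Loop2_rep_mk (a : FundamentalGroup Z z) :
    Path.Homotopic.Quotient.mk (Loop2_rep a) = FundamentalGroup.toPath a :=
  (Path.Homotopic.Quotient.mk_surjective (FundamentalGroup.toPath a)).choose_spec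

/-- Left concatenation with a loop. -/
noncomputable def Loop2_act (a : FundamentalGroup Z z) : C(PS Z z, PS Z z) :=
  Loop2_fam (fun γ : PS Z z => (Loop2_rep a).trans (Loop2_pth γ rfl))
    (Path.trans_continuous_family (fun _ => Loop2_rep a)
      ((Loop2_rep a).continuous.comp continuous_snd) _ Loop2_cont_ev)

theorem Loop2_act_end (a : FundamentalGroup Z z) (γ : PS Z z) : (Loop2_act a γ).1 1 = γ.1 1 :=
  Loop2_of_end _

theorem Loop2_cl_act_self (a : FundamentalGroup Z z) (γ : PS Z z) :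
    Loop2_cl (Loop2_act a γ) γ = a := by
  have h := Loop2_cl_of ((Loop2_rep a).trans (Loop2_pth γ rfl)) (Loop2_pth γ rfl)
  rw [Path.Homotopic.Quotient.mk_trans, Path.Homotopic.Quotient.trans_assoc,
    Path.Homotopic.Quotient.trans_symm, Path.Homotopic.Quotient.trans_refl, Loop2_rep_mk] at h
  exact h

theorem Loop2_cl_act (a : FundamentalGroup Z z) {γ δ : PS Z z} (h : γ.1 1 = δ.1 1) :
    Loop2_cl (Loop2_act a γ) δ = Loop2_cl γ δ * a := by
  rw [← Loop2_cl_mul (Loop2_act_end a γ) h.symm, Loop2_cl_act_self]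

theorem Loop2_cl_act' (a : FundamentalGroup Z z) {γ δ : PS Z z} (h : γ.1 1 = δ.1 1) :
    Loop2_cl γ (Loop2_act a δ) = a⁻¹ * Loop2_cl γ δ := by
  rw [Loop2_cl_inv ((Loop2_act_end a δ).trans h.symm), Loop2_cl_act a h.symm, mul_inv_rev,
    ← Loop2_cl_inv h.symm]

/-- The deck transformations. -/
noncomputable def Loop2_T (K : Subgroup (FundamentalGroup Z z)) [hK : K.Normal]
    (a : FundamentalGroup Z z) : (Cov K).Y → (Cov K).Y :=
  Quot.map (fun u => (Loop2_act a).comp u) fun u v h x => by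
    obtain ⟨he, hc⟩ := Loop2_prel.1 (h x)
    refine Loop2_prel.2 ⟨(Loop2_act_end a _).trans (he.trans (Loop2_act_end a _).symm), ?_⟩
    change Loop2_cl (Loop2_act a (u x)) (Loop2_act a (v x)) ∈ K
    rw [Loop2_cl_act a (he.trans (Loop2_act_end a _).symm), Loop2_cl_act' a he]
    exact hK.conj_mem' _ hc a

theorem Loop2_T_eq (K : Subgroup (FundamentalGroup Z z)) [K.Normal] (a : FundamentalGroup Z z)
    (u v : C(Q, PS Z z)) : Loop2_T K a (Quot.mk _ u) = Quot.mk _ v ↔
      ∀ x, (u x).1 1 = (v x).1 1 ∧ Loop2_cl (u x) (v x) * a ∈ K := by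
  refine cov_mk_eq.trans (forall_congr' fun x => Loop2_prel.trans ?_)
  change (Loop2_act a (u x)).1 1 = _ ∧ Loop2_cl (Loop2_act a (u x)) (v x) ∈ K ↔ _
  rw [Loop2_act_end]
  exact and_congr_right fun he => by rw [Loop2_cl_act a he]

/-- The deck transformations as a homomorphism. -/
noncomputable def Loop2_hom (hc : ∀ a b : FundamentalGroup Z z, a * b = b * a)
    (K : Subgroup (FundamentalGroup Z z)) [K.Normal] :
    FundamentalGroup Z z →* Equiv.Perm (Cov K).Y :=
  MonoidHom.toHomPerm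
    { toFun := fun a => (Loop2_T K a : Function.End (Cov K).Y)
      map_one' := by
        funext y
        induction y using Quot.ind with
        | mk u =>
          exact (Loop2_T_eq K 1 u u).2 fun x =>
            ⟨rfl, by rw [Loop2_cl_self, mul_one]; exact K.one_mem⟩
      map_mul' := fun a b => by
        funext y
        induction y using Quot.ind with
        | mk u =>
          refine (Loop2_T_eq K (a * b) u ((Loop2_act a).comp ((Loop2_act b).comp u))).2 fun x => ?_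
          have e : (u x).1 1 = (Loop2_act b (u x)).1 1 := (Loop2_act_end b _).symm
          refine ⟨e.trans (Loop2_act_end a _).symm, ?_⟩
          change Loop2_cl (u x) (Loop2_act a (Loop2_act b (u x))) * (a * b) ∈ K
          rw [Loop2_cl_act' a e, Loop2_cl_act' b rfl, Loop2_cl_self, mul_one, ← mul_inv_rev,
            hc b a, inv_mul_cancel]
          exact K.one_mem }

theorem Loop2_hom_apply (hc : ∀ a b : FundamentalGroup Z z, a * b = b * a)
    (K : Subgroup (FundamentalGroup Z z)) [K.Normal] (a : FundamentalGroup Z z) (y : (Cov K).Y) :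
    Loop2_hom hc K a y = Loop2_T K a y := rfl

/-- An initial piece of the track of a point. -/
def Loop2_trk (G : C(Z × I, Z)) (h0 : ∀ y, G (y, 0) = y) (y : Z) (s : I) : Path y (G (y, s)) where
  toFun r := G (y, r * s)
  continuous_toFun := by fun_prop
  source' := by rw [zero_mul, h0]
  target' := by rw [one_mul]

/-- Extension of a path by an initial piece of the track of its end point. -/
noncomputable def Loop2_ext (G : C(Z × I, Z)) (h0 : ∀ y, G (y, 0) = y) : C(PS Z z × I, PS Z z) :=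
  Loop2_fam (fun w : PS Z z × I => (Loop2_pth w.1 rfl).trans (Loop2_trk G h0 (w.1.1 1) w.2))
    (Path.trans_continuous_family (fun w : PS Z z × I => Loop2_pth w.1 rfl)
      (Loop2_cont_ev.comp ((continuous_fst.comp continuous_fst).prodMk continuous_snd))
      (fun w : PS Z z × I => Loop2_trk G h0 (w.1.1 1) w.2)
      (G.continuous.comp ((Loop2_cont_end.comp (continuous_fst.comp continuous_fst)).prodMk
        (continuous_snd.mul (continuous_snd.comp continuous_fst)))))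

theorem Loop2_ext_eq (G : C(Z × I, Z)) (h0 : ∀ y, G (y, 0) = y) {γ : PS Z z} {y : Z}
    (h : γ.1 1 = y) (s : I) :
    Loop2_ext G h0 (γ, s) = Loop2_of ((Loop2_pth γ h).trans (Loop2_trk G h0 y s)) := by
  subst h
  rfl

theorem Loop2_cl_ext (G : C(Z × I, Z)) (h0 : ∀ y, G (y, 0) = y) {γ δ : PS Z z}
    (h : γ.1 1 = δ.1 1) (s : I) :
    Loop2_cl (Loop2_ext G h0 (γ, s)) (Loop2_ext G h0 (δ, s)) = Loop2_cl γ δ := by
  rw [Loop2_ext_eq G h0 h, Loop2_ext_eq G h0 rfl, Loop2_cl_of, Loop2_cl_eq h rfl,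
    ← Path.Homotopic.Quotient.mk_symm, Path.trans_symm, Path.Homotopic.Quotient.mk_trans,
    Path.Homotopic.Quotient.mk_trans, Path.Homotopic.Quotient.mk_symm,
    Path.Homotopic.Quotient.mk_symm, Path.Homotopic.Quotient.trans_assoc,
    ← Path.Homotopic.Quotient.trans_assoc _ (Path.Homotopic.Quotient.symm _),
    Path.Homotopic.Quotient.trans_symm, Path.Homotopic.Quotient.refl_trans]

theorem Loop2_prel_of {K : Subgroup (FundamentalGroup Z z)} {y y' : Z} {p : Path z y}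
    {q : Path z y'} (h : y' = y) (hpq : (p.cast rfl h).Homotopic q) :
    PRel K (Loop2_of p) (Loop2_of q) := by
  subst h
  refine Loop2_prel.2 ⟨p.target.trans q.target.symm, ?_⟩
  rw [Loop2_cl_of, Path.Homotopic.Quotient.eq.2 (show p.Homotopic q from hpq),
    Path.Homotopic.Quotient.trans_symm]
  exact K.one_mem

theorem Loop2_ext_zero {K : Subgroup (FundamentalGroup Z z)} (G : C(Z × I, Z))
    (h0 : ∀ y, G (y, 0) = y) (γ : PS Z z) : PRel K (Loop2_ext G h0 (γ, 0)) γ := by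
  rw [Loop2_ext_eq G h0 rfl]
  refine Loop2_prel_of (q := Loop2_pth γ rfl) (h0 _).symm ?_
  have e : ((Loop2_pth γ rfl).trans (Loop2_trk G h0 (γ.1 1) 0)).cast rfl (h0 _).symm =
      (Loop2_pth γ rfl).trans (Path.refl _) := by
    ext t
    simp only [Path.cast_coe, Path.trans_apply]
    split_ifs
    · rfl
    · change G (_, _ * 0) = _
      rw [mul_zero, h0]
      rfl
  rw [e]
  exact Path.Homotopic.trans_refl _

theorem Loop2_ext_one {K : Subgroup (FundamentalGroup Z z)} (G : C(Z × I, Z))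
    (h0 : ∀ y, G (y, 0) = y) (h1 : ∀ y, G (y, 1) = y) {a : FundamentalGroup Z z} {p : Path z z}
    (hp : ∀ t, p t = G (z, t)) (hl : p.Homotopic (Loop2_rep a)) (γ : PS Z z) :
    PRel K (Loop2_ext G h0 (γ, 1)) (Loop2_act a γ) := by
  rw [Loop2_ext_eq G h0 rfl]
  refine Loop2_prel_of (q := (Loop2_rep a).trans (Loop2_pth γ rfl)) (h1 _).symm ?_
  let F : (ContinuousMap.id Z).Homotopy (ContinuousMap.id Z) :=
    { toFun := fun w => G (w.2, w.1)
      continuous_toFun := by fun_prop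
      map_zero_left := h0
      map_one_left := h1 }
  have h := Path.Homotopic.map_trans_evalAt F (Loop2_pth γ rfl)
  have e₁ : ((Loop2_pth γ rfl).trans (Loop2_trk G h0 (γ.1 1) 1)).cast rfl (h1 _).symm =
      ((Loop2_pth γ rfl).map (map_continuous (ContinuousMap.id Z))).trans (F.evalAt (γ.1 1)) := by
    ext t
    refine Eq.trans ?_ (Path.trans_apply _ _ t).symm
    simp only [Path.cast_coe, Path.trans_apply]
    split_ifs
    · rfl
    · change G (_, _ * 1) = G (_, _)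
      rw [mul_one]
  have e₂ : F.evalAt z = p := Path.ext (funext fun t => (hp t).symm)
  rw [e₁]
  refine h.trans ?_
  rw [e₂]
  exact hl.hcomp (Path.Homotopic.refl _)

theorem cov_step (h : Nice Z z) (K : Subgroup (FundamentalGroup Z z)) (g : FundamentalGroup Z z)
    (hK : (Cov (K ⊔ Subgroup.zpowers g)).FT ℤ) : (Cov K).FT ℤ := by
  have hn : K.Normal := ⟨fun n hn a => by rwa [h.comm a n, mul_inv_cancel_right]⟩
  obtain ⟨G, h0, h1, p, hp, hl⟩ := h.track (Loop2_rep g)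
  let P : (Cov K).Y → (Cov (K ⊔ Subgroup.zpowers g)).Y :=
    Quot.map id fun _ _ h x => (h x).mono le_sup_left
  let H : (Cov K).Y → (Cov K).Y :=
    Quot.map (fun u => (Loop2_ext G h0).comp ((u.comp tl).prodMk ⟨fun x => x 0, by fun_prop⟩))
      fun u v huv x => by
        obtain ⟨he, hc⟩ := Loop2_prel.1 (huv (tl x))
        refine Loop2_prel.2 ⟨?_, ?_⟩
        · change (Loop2_ext G h0 (u (tl x), x 0)).1 1 = (Loop2_ext G h0 (v (tl x), x 0)).1 1
          rw [Loop2_ext_eq G h0 he, Loop2_ext_eq G h0 rfl, Loop2_of_end, Loop2_of_end]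
        · change Loop2_cl (Loop2_ext G h0 (u (tl x), x 0)) (Loop2_ext G h0 (v (tl x), x 0)) ∈ K
          rwa [Loop2_cl_ext G h0 he]
  refine CS.cyc_cover (p := P) (fun i ε y => ?_) (fun y => ?_) (Loop2_hom h.comm K g)
    (fun i ε y => ?_) (fun a b => ?_) (orderOf (QuotientGroup.mk g : _ ⧸ K)) (fun a m => ?_)
    (h := H) ⟨fun y => ?_, fun y => ?_, fun i ε y => ?_⟩ hK
  · induction y using Quot.ind with
    | mk u => rfl
  · induction y using Quot.ind with
    | mk u => exact ⟨Quot.mk _ u, rfl⟩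
  · induction y using Quot.ind with
    | mk u => rfl
  · induction a using Quot.ind with
    | mk u =>
    induction b using Quot.ind with
    | mk v =>
    refine cov_mk_eq.trans ?_
    simp only [← map_zpow, Loop2_hom_apply]
    constructor
    · intro huv
      have he : ∀ x, (u x).1 1 = (v x).1 1 := fun x => (huv x).end_eq
      have hc := (Loop2_prel.1 (huv 0)).2
      rw [← SetLike.mem_coe, Subgroup.normal_mul] at hc
      obtain ⟨k, hk, _, ⟨m, rfl⟩, e⟩ := hc
      refine ⟨-m, cov_mk_eq.2 (PRel.const (x := 0) (fun x => (Loop2_act_end _ _).trans (he x)) ?_)⟩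
      refine Loop2_prel.2 ⟨(Loop2_act_end _ _).trans (he 0), ?_⟩
      change Loop2_cl (Loop2_act _ (u 0)) (v 0) ∈ K
      change k * g ^ m = Loop2_cl (u 0) (v 0) at e
      rw [Loop2_cl_act _ (he 0), ← e, zpow_neg, mul_inv_cancel_right]
      exact hk
    · rintro ⟨m, hm⟩ x
      obtain ⟨he, hc⟩ := (Loop2_T_eq K _ u v).1 hm x
      refine Loop2_prel.2 ⟨he, ?_⟩
      have h2 := Subgroup.mul_mem_sup hc (Subgroup.zpow_mem_zpowers g (-m))
      rwa [zpow_neg, mul_inv_cancel_right] at h2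
  · induction a using Quot.ind with
    | mk u =>
    rw [← map_zpow, Loop2_hom_apply, Loop2_T_eq, orderOf_dvd_iff_zpow_eq_one,
      ← QuotientGroup.mk_zpow, QuotientGroup.eq_one_iff]
    simp only [Loop2_cl_self, one_mul, true_and, forall_const]
  · induction y using Quot.ind with
    | mk u =>
    refine cov_mk_eq.2 fun x => ?_
    change PRel K (Loop2_ext G h0 (u ((tl.comp (ins 0 0)) x), 0)) (u x)
    rw [tl_ins_zero]
    exact Loop2_ext_zero G h0 _
  · induction y using Quot.ind with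
    | mk u =>
    refine cov_mk_eq.2 fun x => ?_
    change PRel K (Loop2_ext G h0 (u ((tl.comp (ins 0 1)) x), 1)) (Loop2_act g (u x))
    rw [tl_ins_zero]
    exact Loop2_ext_one G h0 h1 hp hl _
  · induction y using Quot.ind with
    | mk u =>
    refine congrArg (Quot.mk _) (ContinuousMap.ext fun x => ?_)
    change Loop2_ext G h0 (u ((tl.comp (ins (i + 1) (endI ε))) x), x 0) =
      Loop2_ext G h0 (u (((ins i (endI ε)).comp tl) x), x 0)
    rw [tl_ins_succ]

theorem cov_bot (h : Nice Z z) : (Cov (⊥ : Subgroup (FundamentalGroup Z z))).FT ℤ := by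
  classical
  have key : ∀ (s : Finset (FundamentalGroup Z z)) (K : Subgroup (FundamentalGroup Z z)),
      (Cov (K ⊔ Subgroup.closure (s : Set (FundamentalGroup Z z)))).FT ℤ → (Cov K).FT ℤ := by
    intro s
    induction s using Finset.induction_on with
    | empty => intro K hK; simpa using hK
    | insert g s _ ih =>
      intro K hK
      refine cov_step h K g (ih _ ?_)
      rwa [Finset.coe_insert, insert_eq, Subgroup.closure_union, ← Subgroup.zpowers_eq_closure,
        ← sup_assoc] at hK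
  obtain ⟨s, hs⟩ := h.pi1_fg.out
  refine key s ⊥ ?_
  rw [hs, bot_sup_eq]
  have := h.conn
  exact cov_top h.ft

end RB
end

-- merged part: Pool.Agent.Work.MP_666b5d_gt.DressA
section
/-! Families of paths: loops, concatenation and reparametrisation. -/

open Set
open scoped unitInterval

namespace RB

variable {Z : Type} [TopologicalSpace Z] {z : Z} {T : Type} [TopologicalSpace T]

theorem Dress_mul {f g : T → I} (hf : Continuous f) (hg : Continuous g) :
    Continuous fun t => f t * g t :=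
  continuous_induced_rng.2 ((continuous_subtype_val.comp hf).mul (continuous_subtype_val.comp hg))

/-- Scaling in the cube. -/
def Dress_sc (τ : I) (x : Q) : Q := fun k => τ * x k

theorem Dress_sc_cont {f : T → I} {g : T → Q} (hf : Continuous f) (hg : Continuous g) :
    Continuous fun t => Dress_sc (f t) (g t) :=
  continuous_pi fun k => Dress_mul hf ((continuous_apply k).comp hg)

theorem Dress_sc_zero (x : Q) : Dress_sc 0 x = 0 := funext fun _ => zero_mul _

theorem Dress_sc_one (x : Q) : Dress_sc 1 x = x := funext fun _ => one_mul _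

/-- An element of `PS` as a path. -/
def Dress_p (a : PS Z z) {y : Z} (h : a.1 1 = y) : Path z y := ⟨a.1, a.2, h⟩

/-- A path as an element of `PS`. -/
def Dress_q {y : Z} (p : Path z y) : PS Z z := ⟨p.toContinuousMap, p.source⟩

theorem Dress_ps_cont {a : T → PS Z z} (h : Continuous fun p : T × I => (a p.1).1 p.2) :
    Continuous a :=
  continuous_induced_rng.2 (ContinuousMap.continuous_of_continuous_uncurry _ h)

theorem Dress_ev {a : T → PS Z z} {t : T → I} (ha : Continuous a) (ht : Continuous t) :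
    Continuous fun p => (a p).1 (t p) :=
  Continuous.eval (continuous_subtype_val.comp ha) ht

theorem Dress_p_cont {a : T → PS Z z} (ha : Continuous a) {y : T → Z} (h : ∀ t, (a t).1 1 = y t) :
    Continuous ↿fun t => Dress_p (a t) (h t) :=
  Dress_ev (ha.comp continuous_fst) continuous_snd

theorem Dress_q_cont {y : T → Z} {p : ∀ t, Path z (y t)} (h : Continuous ↿p) :
    Continuous fun t => Dress_q (p t) := Dress_ps_cont h

theorem Dress_rel {y : Z} {p q : Path z y} : PRel ⊥ (Dress_q p) (Dress_q q) ↔ p.Homotopic q :=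
  prel_bot

theorem Dress_const {u : I → PS Z z} (hu : Continuous u) (v : PS Z z)
    (he : ∀ τ, (u τ).1 1 = v.1 1) {r : I} (h : PRel ⊥ (u r) v) (τ : I) : PRel ⊥ (u τ) v :=
  PRel.const (u := ⟨fun x => u (x 0), hu.comp (continuous_apply 0)⟩) (v := .const Q v)
    (fun x => he (x 0)) (x := fun _ => r) h fun _ => τ

/-- The reparametrisations. -/
noncomputable def Dress_rho (τ t : ℝ) : ℝ := (1 - τ) * min (2 * t) (3 / 2 - t) + τ * (t / 2)

/-- The homotopy from `(p · q) · q⁻¹` to `p`. -/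
noncomputable def Dress_K {x y w : Z} (p : Path x y) (q : Path y w) (τ : I) : Path x y where
  toFun t := (p.trans q).extend (Dress_rho τ t)
  continuous_toFun := (p.trans q).continuous_extend.comp (by unfold Dress_rho; fun_prop)
  source' := by
    have : Dress_rho τ (0 : I) = 0 := by norm_num [Dress_rho]
    rw [this, Path.extend_zero]
  target' := by
    have : Dress_rho τ (1 : I) = 1 / 2 := by
      norm_num [Dress_rho]
      ring
    rw [this, Path.extend_trans_of_le_half _ _ le_rfl]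
    norm_num

theorem Dress_K_zero {x y w : Z} (p : Path x y) (q : Path y w) :
    Dress_K p q 0 = (p.trans q).trans q.symm := by
  ext t
  change (p.trans q).extend (Dress_rho (0 : I) t) = _
  rw [← Path.extend_extends' ((p.trans q).trans q.symm) t]
  rcases le_total (t : ℝ) (1 / 2) with h | h
  · rw [Path.extend_trans_of_le_half _ _ h]
    congr 1
    rw [Dress_rho, min_eq_left (by linarith)]
    simp
  · have e : Dress_rho (0 : I) t = 3 / 2 - t := by
      rw [Dress_rho, min_eq_right (by linarith)]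
      simp
    rw [Path.extend_trans_of_half_le _ _ h, e, Path.extend_trans_of_half_le _ _
      (by linarith [t.2.2]), Path.extend_symm_apply]
    congr 1
    ring

theorem Dress_K_one {x y w : Z} (p : Path x y) (q : Path y w) : Dress_K p q 1 = p := by
  ext t
  change (p.trans q).extend (Dress_rho (1 : I) t) = _
  have e : Dress_rho (1 : I) t = t / 2 := by simp [Dress_rho]
  rw [e, Path.extend_trans_of_le_half _ _ (by linarith [t.2.2]), ← Path.extend_extends' p t]
  congr 1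
  ring

theorem Dress_K_cont {x y w : T → Z} {p : ∀ t, Path (x t) (y t)} {q : ∀ t, Path (y t) (w t)}
    (hp : Continuous ↿p) (hq : Continuous ↿q) {τ : T → I} (hτ : Continuous τ) :
    Continuous ↿fun t => Dress_K (p t) (q t) (τ t) :=
  (Path.continuous_uncurry_extend_of_continuous_family _
    (Path.trans_continuous_family p hp q hq)).comp
    (f := fun a : T × I => (a.1, Dress_rho (τ a.1) a.2)) (by unfold Dress_rho; fun_prop)

theorem Dress_K_hom {y w : Z} (p : Path z y) (q : Path y w) (τ : I) :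
    (Dress_K p q τ).Homotopic p := by
  refine Dress_rel.1 (Dress_const (u := fun τ => Dress_q (Dress_K p q τ))
    (Dress_q_cont (Dress_K_cont (p.continuous.comp continuous_snd)
      (q.continuous.comp continuous_snd) continuous_id)) _
    (fun τ => (Dress_K p q τ).target.trans p.target.symm) (r := 1) ?_ τ)
  rw [Dress_K_one]
  exact PRel.refl _

/-- The space of null-homotopic loops. -/
abbrev Dress_Om (Z : Type) [TopologicalSpace Z] (z : Z) : Type :=
  {γ : Path z z // γ.Homotopic (Path.refl z)}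

theorem Dress_om_cont {a : T → Dress_Om Z z} (h : Continuous ↿fun t => (a t).1) : Continuous a :=
  continuous_induced_rng.2 (Path.continuous_uncurry_iff.1 h)

theorem Dress_om_cont' {a : T → Dress_Om Z z} (h : Continuous a) :
    Continuous ↿fun t => (a t).1 :=
  Path.continuous_uncurry_iff.2 (continuous_subtype_val.comp h)

/-- The loop `a · b⁻¹`. -/
noncomputable def Dress_lp (a b : PS Z z) (h : PRel ⊥ a b) : Dress_Om Z z :=
  ⟨(Dress_p a rfl).trans (Dress_p b h.end_eq.symm).symm,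
    ((Dress_rel.1 h).hcomp (Path.Homotopic.refl _)).trans (Path.Homotopic.trans_symm _)⟩

theorem Dress_lp_congr {a b a' b' : PS Z z} (ha : a = a') (hb : b = b') (h : PRel ⊥ a b)
    (h' : PRel ⊥ a' b') : Dress_lp a b h = Dress_lp a' b' h' := by
  subst ha hb
  rfl

theorem Dress_lp_cont {a b : T → PS Z z} (ha : Continuous a) (hb : Continuous b)
    (h : ∀ t, PRel ⊥ (a t) (b t)) : Continuous fun t => Dress_lp (a t) (b t) (h t) :=
  Dress_om_cont (Path.trans_continuous_family _ (Dress_p_cont ha fun _ => rfl) _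
    (Path.symm_continuous_family _ (Dress_p_cont hb fun t => (h t).end_eq.symm)))

/-- The path `ω · b`. -/
noncomputable def Dress_act (ω : Dress_Om Z z) (b : PS Z z) : PS Z z :=
  Dress_q (ω.1.trans (Dress_p b rfl))

theorem Dress_act_rel (ω : Dress_Om Z z) (b : PS Z z) : PRel ⊥ (Dress_act ω b) b :=
  (Dress_rel (q := Dress_p b rfl)).2
    ((ω.2.hcomp (Path.Homotopic.refl _)).trans (Path.Homotopic.refl_trans _))

theorem Dress_act_cont {ω : T → Dress_Om Z z} {b : T → PS Z z} (hω : Continuous ω)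
    (hb : Continuous b) : Continuous fun t => Dress_act (ω t) (b t) :=
  Dress_q_cont (Path.trans_continuous_family _ (Dress_om_cont' hω) _
    (Dress_p_cont hb fun _ => rfl))

/-- The homotopy from `(ω · b) · b⁻¹` to `ω`. -/
noncomputable def Dress_K1 (ω : Dress_Om Z z) (b : PS Z z) (τ : I) : Dress_Om Z z :=
  ⟨Dress_K ω.1 (Dress_p b rfl) τ, (Dress_K_hom _ _ τ).trans ω.2⟩

theorem Dress_K1_zero (ω : Dress_Om Z z) (b : PS Z z) :
    Dress_K1 ω b 0 = Dress_lp (Dress_act ω b) b (Dress_act_rel ω b) :=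
  Subtype.ext ((Dress_K_zero _ _).trans (Path.ext rfl))

theorem Dress_K1_one (ω : Dress_Om Z z) (b : PS Z z) : Dress_K1 ω b 1 = ω :=
  Subtype.ext (Dress_K_one _ _)

theorem Dress_K1_cont {ω : T → Dress_Om Z z} {b : T → PS Z z} {τ : T → I} (hω : Continuous ω)
    (hb : Continuous b) (hτ : Continuous τ) : Continuous fun t => Dress_K1 (ω t) (b t) (τ t) :=
  Dress_om_cont (Dress_K_cont (Dress_om_cont' hω) (Dress_p_cont hb fun _ => rfl) hτ)

/-- The homotopy from `(a · b⁻¹) · b` to `a`. -/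
noncomputable def Dress_K2 (a b : PS Z z) (h : PRel ⊥ a b) (τ : I) : PS Z z :=
  Dress_q (Dress_K (Dress_p a rfl) (Dress_p b h.end_eq.symm).symm τ)

theorem Dress_K2_zero (a b : PS Z z) (h : PRel ⊥ a b) :
    Dress_K2 a b h 0 = Dress_act (Dress_lp a b h) b := by
  rw [Dress_K2, Dress_K_zero, Path.symm_symm]
  rfl

theorem Dress_K2_one (a b : PS Z z) (h : PRel ⊥ a b) : Dress_K2 a b h 1 = a := by
  rw [Dress_K2, Dress_K_one]
  rfl

theorem Dress_K2_rel (a b : PS Z z) (h : PRel ⊥ a b) (τ : I) : PRel ⊥ (Dress_K2 a b h τ) b :=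
  ((Dress_rel (q := Dress_p a rfl)).2 (Dress_K_hom _ _ τ)).trans h

theorem Dress_K2_cont {a b : T → PS Z z} {τ : T → I} (ha : Continuous a) (hb : Continuous b)
    (h : ∀ t, PRel ⊥ (a t) (b t)) (hτ : Continuous τ) :
    Continuous fun t => Dress_K2 (a t) (b t) (h t) (τ t) :=
  Dress_q_cont (Dress_K_cont (Dress_p_cont ha fun _ => rfl)
    (Path.symm_continuous_family _ (Dress_p_cont hb fun t => (h t).end_eq.symm)) hτ)

/-- The fibre over a family of paths. -/
abbrev Dress_Fb (s : C(Q, PS Z z)) : Type := {v : C(Q, PS Z z) // ∀ x, PRel ⊥ (v x) (s x)}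

theorem Dress_fb_ev {s : C(Q, PS Z z)} {v : T → Dress_Fb s} {x : T → Q} (hv : Continuous v)
    (hx : Continuous x) : Continuous fun t => (v t).1 (x t) :=
  Continuous.eval (continuous_subtype_val.comp hv) hx

/-- Maps to the fibre. -/
def Dress_mk (s : C(Q, PS Z z)) (f : T × Q → PS Z z) (hf : Continuous f)
    (h : ∀ t x, PRel ⊥ (f (t, x)) (s x)) : C(T, Dress_Fb s) :=
  ⟨fun t => ⟨ContinuousMap.curry ⟨f, hf⟩ t, h t⟩,
    (ContinuousMap.curry ⟨f, hf⟩).continuous.subtype_mk _⟩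

/-- From the fibre to the loops. -/
noncomputable def Dress_phi (s : C(Q, PS Z z)) (x : Q) (γ : PS Z z) (h : PRel ⊥ (s x) γ) :
    C(Dress_Fb s, Dress_Om Z z) :=
  ⟨fun v => Dress_lp (v.1 x) γ ((v.2 x).trans h),
    Dress_lp_cont (Dress_fb_ev continuous_id continuous_const) continuous_const _⟩

/-- From the loops to the fibre. -/
noncomputable def Dress_psi (s : C(Q, PS Z z)) : C(Dress_Om Z z, Dress_Fb s) :=
  Dress_mk s (fun p => Dress_act p.1 (s p.2))
    (Dress_act_cont continuous_fst (s.continuous.comp continuous_snd))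
    fun ω x => Dress_act_rel ω (s x)

theorem Dress_phi_psi (s : C(Q, PS Z z)) :
    ((Dress_phi s 0 (s 0) (PRel.refl _)).comp (Dress_psi s)).Homotopic (ContinuousMap.id _) :=
  ⟨⟨⟨fun p => Dress_K1 p.2 (s 0) p.1,
    Dress_K1_cont continuous_snd continuous_const continuous_fst⟩,
    fun ω => Dress_K1_zero ω _, fun ω => Dress_K1_one ω _⟩⟩

theorem Dress_psi_phi (s : C(Q, PS Z z)) :
    ((Dress_psi s).comp (Dress_phi s 0 (s 0) (PRel.refl _))).Homotopic (ContinuousMap.id _) := by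
  have c1 : Continuous fun p : (I × Dress_Fb s) × Q => Dress_sc p.1.1 p.2 :=
    Dress_sc_cont continuous_fst.fst continuous_snd
  refine ContinuousMap.Homotopic.trans (g := Dress_mk s
    (fun p : Dress_Fb s × Q => Dress_act (Dress_lp (p.1.1 p.2) (s p.2) (p.1.2 _)) (s p.2))
    (Dress_act_cont (Dress_lp_cont (Dress_fb_ev continuous_fst continuous_snd)
      (s.continuous.comp continuous_snd) _) (s.continuous.comp continuous_snd))
    fun _ _ => Dress_act_rel _ _)
    ⟨⟨Dress_mk s (fun p : (I × Dress_Fb s) × Q => Dress_act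
        (Dress_lp (p.1.2.1 (Dress_sc p.1.1 p.2)) (s (Dress_sc p.1.1 p.2)) (p.1.2.2 _)) (s p.2))
      (Dress_act_cont (Dress_lp_cont (Dress_fb_ev continuous_fst.snd c1)
        (s.continuous.comp c1) _) (s.continuous.comp continuous_snd))
      fun _ _ => Dress_act_rel _ _, fun v => ?_, fun v => ?_⟩⟩
    ⟨⟨Dress_mk s (fun p : (I × Dress_Fb s) × Q =>
        Dress_K2 (p.1.2.1 p.2) (s p.2) (p.1.2.2 _) p.1.1)
      (Dress_K2_cont (Dress_fb_ev continuous_fst.snd continuous_snd)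
        (s.continuous.comp continuous_snd) _ continuous_fst.fst)
      fun _ _ => Dress_K2_rel _ _ _ _, fun v => ?_, fun v => ?_⟩⟩
  · refine Subtype.ext (ContinuousMap.ext fun x => congrArg (Dress_act · (s x)) ?_)
    exact Dress_lp_congr (congrArg v.1 (Dress_sc_zero x)) (congrArg s (Dress_sc_zero x))
      (v.2 _) (v.2 _)
  · refine Subtype.ext (ContinuousMap.ext fun x => congrArg (Dress_act · (s x)) ?_)
    exact Dress_lp_congr (congrArg v.1 (Dress_sc_one x)) (congrArg s (Dress_sc_one x))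
      (v.2 _) (v.2 _)
  · exact Subtype.ext (ContinuousMap.ext fun x => Dress_K2_zero _ _ _)
  · exact Subtype.ext (ContinuousMap.ext fun x => Dress_K2_one _ _ (v.2 x))

theorem Dress_nat (s : C(Q, PS Z z)) (x : Q) (γ : PS Z z) (h : PRel ⊥ (s x) γ) :
    (Dress_phi s x γ h).Homotopic (Dress_phi s 0 (s 0) (PRel.refl _)) := by
  obtain ⟨G⟩ := prel_bot.1 h.symm
  let u : I → PS Z z := fun τ => ⟨G.toContinuousMap.curry τ,
    (G.eq_fst τ (mem_insert _ _)).trans γ.2⟩
  have hu : Continuous u := G.toContinuousMap.curry.continuous.subtype_mk _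
  have u0 : u 0 = γ := Subtype.ext (ContinuousMap.ext fun t => G.apply_zero t)
  have u1 : u 1 = s x := Subtype.ext (ContinuousMap.ext fun t => G.apply_one t)
  have hr : ∀ τ, PRel ⊥ (u τ) γ :=
    Dress_const hu γ (fun τ => G.eq_fst τ (mem_insert_of_mem _ rfl)) (r := 0) (u0 ▸ PRel.refl _)
  have c1 : Continuous fun p : I × Dress_Fb s => Dress_sc p.1 x :=
    Dress_sc_cont continuous_fst continuous_const
  refine ContinuousMap.Homotopic.trans (g := Dress_phi s x (s x) (PRel.refl _))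
    ⟨⟨⟨fun p => Dress_lp (p.2.1 x) (u p.1) (((p.2.2 x).trans h).trans (hr _).symm),
      Dress_lp_cont (Dress_fb_ev continuous_snd continuous_const) (hu.comp continuous_fst) _⟩,
      fun v => Dress_lp_congr rfl u0 (((v.2 x).trans h).trans (hr _).symm) ((v.2 x).trans h),
      fun v => Dress_lp_congr rfl u1 (((v.2 x).trans h).trans (hr _).symm) (v.2 x)⟩⟩
    (ContinuousMap.Homotopic.symm
      ⟨⟨⟨fun p => Dress_lp (p.2.1 (Dress_sc p.1 x)) (s (Dress_sc p.1 x)) (p.2.2 _),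
        Dress_lp_cont (Dress_fb_ev continuous_snd c1) (s.continuous.comp c1) _⟩,
        fun v => ?_, fun v => ?_⟩⟩)
  · exact Dress_lp_congr (congrArg v.1 (Dress_sc_zero x)) (congrArg s (Dress_sc_zero x))
      (v.2 _) (v.2 _)
  · exact Dress_lp_congr (congrArg v.1 (Dress_sc_one x)) (congrArg s (Dress_sc_one x))
      (v.2 _) (v.2 _)

end RB
end

-- merged part: Pool.Agent.Work.MP_666b5d_gt.Dress
section
/-!
# The homology of the space of null-homotopic loops

Proof plan.  Apply `fib_FT` with `B = Cov ⊥`, `F = Sing (Om0 Z z)` and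
`W = {u : C(Q × Q, PS Z z) // ∀ x y y', PRel ⊥ (u (x, y)) (u (x, y'))}`, horizontal faces in `x`,
vertical faces in `y`, `π u = [x ↦ u (x, 0)]`.
Rows: by currying, `(W, h) ≅ Sing M` for `M = {w : C(Q, PS Z z) // ∀ y y', PRel ⊥ (w y) (w y')}`,
which is contractible (first `w (s • y)`, then shrink the path).
Fibres: for `b` choose a representative `s`; the fibre over `b` is `Sing (Fb s)` with
`Fb s = {v : C(Q, PS Z z) // ∀ x, PRel ⊥ (v x) (s x)}` (curry the other way; use `PRel.const`).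
`φ v = v 0 · (s 0)⁻¹`, `ψ ω = (x ↦ ω · s x)`.  Homotopies: `(ω · s 0) · (s 0)⁻¹ ≃ ω` and
`(v 0 · (s 0)⁻¹) · s x ≃ (v (τ x) · (s (τ x))⁻¹) · s x ≃ v x`.  All such homotopies are linear
homotopies of reparametrisations: if `W = a · b⁻¹` then `(a · b⁻¹) · b = W ∘ ρ` and `a = W ∘ ρ'`.
Naturality for a face `f = ins i ε`, with `s'` the representative of the face:
`v (f 0) · (s' 0)⁻¹ ≃ v (f 0) · (s (f 0))⁻¹` (a fixed homotopy rel end points, `prel_bot`) and then
`v (τ • f 0) · (s (τ • f 0))⁻¹`.  Use `sMap_hmlg` and `FT.of_bij`.  A lemma on the joint continuity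
of concatenation with variable end points (`ContinuousMap.continuous_of_continuous_uncurry`,
`Continuous.if_le`) is the basic tool.
-/

open Set
open scoped unitInterval

namespace RB

/-- Null-homotopic loops. -/
abbrev Om0 (Z : Type) [TopologicalSpace Z] (z : Z) : Type :=
  {γ : Path z z // γ.Homotopic (Path.refl z)}

section

variable {Z : Type} [TopologicalSpace Z] {z : Z}

/-- Bicubes of paths whose class is constant in the second variable. -/
abbrev Dress_W (Z : Type) [TopologicalSpace Z] (z : Z) : Type :=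
  {u : C(Q × Q, PS Z z) // ∀ x y y', PRel ⊥ (u (x, y)) (u (x, y'))}

/-- The vertical structure. -/
def Dress_V (Z : Type) [TopologicalSpace Z] (z : Z) : CS where
  Y := Dress_W Z z
  fc j δ u := ⟨u.1.comp ((ContinuousMap.id Q).prodMap (ins j (endI δ))), fun x _ _ => u.2 x _ _⟩
  fc_fc _ _ h _ _ u := Subtype.ext (ContinuousMap.ext fun p =>
    congrArg (fun y => u.1 (p.1, y)) (ContinuousMap.congr_fun (ins_ins h _ _) p.2))

/-- The horizontal faces. -/
def Dress_h (i : ℕ) (ε : Bool) (u : Dress_W Z z) : Dress_W Z z :=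
  ⟨u.1.comp ((ins i (endI ε)).prodMap (ContinuousMap.id Q)), fun _ y y' => u.2 _ y y'⟩

theorem Dress_hh (i j : ℕ) (h : i ≤ j) (ε δ : Bool) (u : Dress_W Z z) :
    Dress_h i ε (Dress_h (j + 1) δ u) = Dress_h j δ (Dress_h i ε u) :=
  Subtype.ext (ContinuousMap.ext fun p =>
    congrArg (fun x => u.1 (x, p.2)) (ContinuousMap.congr_fun (ins_ins h _ _) p.1))

/-- The constant path. -/
def Dress_c (Z : Type) [TopologicalSpace Z] (z : Z) : PS Z z := ⟨.const I z, rfl⟩

/-- Initial pieces of a path. -/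
def Dress_sh (τ : I) (γ : PS Z z) : PS Z z :=
  ⟨γ.1.comp ⟨fun t => τ * t, Dress_mul continuous_const continuous_id⟩,
    (congrArg γ.1 (mul_zero τ)).trans γ.2⟩

theorem Dress_sh_zero (γ : PS Z z) : Dress_sh 0 γ = Dress_c Z z :=
  Subtype.ext (ContinuousMap.ext fun t => (congrArg γ.1 (zero_mul t)).trans γ.2)

theorem Dress_sh_one (γ : PS Z z) : Dress_sh 1 γ = γ :=
  Subtype.ext (ContinuousMap.ext fun t => congrArg γ.1 (one_mul t))

theorem Dress_sh_cont {T : Type} [TopologicalSpace T] {τ : T → I} {γ : T → PS Z z}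
    (hτ : Continuous τ) (hγ : Continuous γ) : Continuous fun t => Dress_sh (τ t) (γ t) :=
  have h : Continuous fun p : T × I => (γ p.1).1 (τ p.1 * p.2) :=
    Dress_ev (hγ.comp continuous_fst) (Dress_mul (hτ.comp continuous_fst) continuous_snd)
  Dress_ps_cont h

theorem Dress_tl0 (a : I) (x : Q) : tl (ins 0 a x) = x :=
  ContinuousMap.congr_fun (tl_ins_zero a) x

theorem Dress_tls (i : ℕ) (a : I) (x : Q) : tl (ins (i + 1) a x) = ins i a (tl x) :=
  ContinuousMap.congr_fun (tl_ins_succ i a) x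

theorem Dress_rows : (CS.mk (Dress_W Z z) Dress_h Dress_hh).FT ℤ := by
  let X := CS.mk (Dress_W Z z) Dress_h Dress_hh
  let c : Dress_W Z z := ⟨.const _ (Dress_c Z z), fun _ _ _ => PRel.refl _⟩
  let r : Dress_W Z z → Dress_W Z z := fun u =>
    ⟨u.1.comp ⟨fun p => (p.1, 0), by fun_prop⟩, fun _ _ _ => PRel.refl _⟩
  let H1 : Dress_W Z z → Dress_W Z z := fun u =>
    ⟨u.1.comp ⟨fun p => (tl p.1, Dress_sc (p.1 0) p.2), (tl.continuous.comp continuous_fst).prodMk
      (Dress_sc_cont ((continuous_apply 0).comp continuous_fst) continuous_snd)⟩,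
      fun _ _ _ => u.2 _ _ _⟩
  let H2 : Dress_W Z z → Dress_W Z z := fun u =>
    ⟨⟨fun p => Dress_sh (p.1 0) (u.1 (tl p.1, 0)),
      Dress_sh_cont ((continuous_apply 0).comp continuous_fst)
        (u.1.continuous.comp ((tl.continuous.comp continuous_fst).prodMk continuous_const))⟩,
      fun _ _ _ => PRel.refl _⟩
  have h1 : CS.Htpy X X r id H1 :=
    ⟨fun u => Subtype.ext (ContinuousMap.ext fun p =>
        congrArg u.1 (Prod.ext (Dress_tl0 _ _) (Dress_sc_zero _))),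
      fun u => Subtype.ext (ContinuousMap.ext fun p =>
        congrArg u.1 (Prod.ext (Dress_tl0 _ _) (Dress_sc_one _))),
      fun i ε u => Subtype.ext (ContinuousMap.ext fun p =>
        congrArg u.1 (Prod.ext (Dress_tls _ _ _) rfl))⟩
  have h2 : CS.Htpy X X (fun _ => c) r H2 :=
    ⟨fun u => Subtype.ext (ContinuousMap.ext fun p => Dress_sh_zero _),
      fun u => Subtype.ext (ContinuousMap.ext fun p => (Dress_sh_one _).trans
        (congrArg u.1 (Prod.ext (Dress_tl0 _ _) rfl))),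
      fun i ε u => Subtype.ext (ContinuousMap.ext fun p =>
        congrArg (fun x => Dress_sh (p.1 0) (u.1 (x, 0))) (Dress_tls _ _ _))⟩
  let P : CS := CS.mk Unit (fun _ _ => id) fun _ _ _ _ _ _ => rfl
  have : Finite P.Y := inferInstanceAs (Finite Unit)
  exact CS.FT.of_dom (X := X) (X' := P) (f := fun _ => ()) (g := fun _ => c) (fun _ _ _ => rfl)
    (fun _ _ _ => rfl) (h2.hmlg.trans h1.hmlg) CS.FT.of_finite

/-- The projection to the universal covering. -/
def Dress_pi (u : Dress_W Z z) : (Cov (⊥ : Subgroup (FundamentalGroup Z z))).Y :=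
  Quot.mk _ (u.1.comp ⟨fun x => (x, 0), by fun_prop⟩)

theorem Dress_piv (j : ℕ) (δ : Bool) (u : (Dress_V Z z).Y) :
    Dress_pi ((Dress_V Z z).fc j δ u) = Dress_pi u :=
  Quot.sound fun x => u.2 x _ _

/-- A representative. -/
noncomputable def Dress_rep (b : (Cov (⊥ : Subgroup (FundamentalGroup Z z))).Y) : C(Q, PS Z z) :=
  Quot.out b

theorem Dress_rep_eq (b : (Cov (⊥ : Subgroup (FundamentalGroup Z z))).Y) :
    Quot.mk _ (Dress_rep b) = b := Quot.out_eq b

/-- From the fibre to the cubes of the space of lifts. -/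
noncomputable def Dress_e (b : (Cov (⊥ : Subgroup (FundamentalGroup Z z))).Y)
    (w : ((Dress_V Z z).fib Dress_pi Dress_piv b).Y) : (Sing (Dress_Fb (Dress_rep b))).Y :=
  Dress_mk (Dress_rep b) (fun p : Q × Q => w.1.1 p.swap) (w.1.1.continuous.comp continuous_swap)
    fun y x => (w.1.2 x y 0).trans (cov_mk_eq.1 (w.2.trans (Dress_rep_eq b).symm) x)

/-- The inverse. -/
noncomputable def Dress_e' (b : (Cov (⊥ : Subgroup (FundamentalGroup Z z))).Y)
    (c : C(Q, Dress_Fb (Dress_rep b))) : ((Dress_V Z z).fib Dress_pi Dress_piv b).Y :=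
  ⟨⟨⟨fun p => (c p.2).1 p.1, Dress_fb_ev (c.continuous.comp continuous_snd) continuous_fst⟩,
    fun x y y' => ((c y).2 x).trans ((c y').2 x).symm⟩,
    (Quot.sound fun x => (c 0).2 x).trans (Dress_rep_eq b)⟩

theorem Dress_e_e' (b : (Cov (⊥ : Subgroup (FundamentalGroup Z z))).Y)
    (c : C(Q, Dress_Fb (Dress_rep b))) : Dress_e b (Dress_e' b c) = c :=
  ContinuousMap.ext fun _ => Subtype.ext (ContinuousMap.ext fun _ => rfl)

theorem Dress_e'_e (b : (Cov (⊥ : Subgroup (FundamentalGroup Z z))).Y)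
    (w : ((Dress_V Z z).fib Dress_pi Dress_piv b).Y) : Dress_e' b (Dress_e b w) = w :=
  Subtype.ext (Subtype.ext (ContinuousMap.ext fun _ => rfl))

theorem Dress_congr {X X' : CS} {f g f' g' : X.Y → X'.Y} (h : CS.Hmlg X X' f g)
    (hf : ∀ y, f y = f' y) (hg : ∀ y, g y = g' y) : CS.Hmlg X X' f' g' :=
  funext hf ▸ funext hg ▸ h

theorem Dress_e_hom (b : (Cov (⊥ : Subgroup (FundamentalGroup Z z))).Y) :
    CS.IsHom _ _ (Dress_e b) := fun _ _ _ => rfl

theorem Dress_e'_hom (b : (Cov (⊥ : Subgroup (FundamentalGroup Z z))).Y) :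
    CS.IsHom (Sing (Dress_Fb (Dress_rep b))) _ (Dress_e' b) := fun _ _ _ => rfl

end

theorem dress {Z : Type} [TopologicalSpace Z] {z : Z}
    (h : (Cov (⊥ : Subgroup (FundamentalGroup Z z))).FT ℤ) : FTs (Om0 Z z) := by
  have : Nonempty (Cov (⊥ : Subgroup (FundamentalGroup Z z))).Y :=
    ⟨Quot.mk _ (.const Q (Dress_c Z z))⟩
  refine fib_FT (Dress_V Z z) Dress_h Dress_hh (fun _ _ _ _ _ => rfl) Dress_rows _
    (Sing (Om0 Z z)) h Dress_pi (fun _ _ _ => rfl) Dress_piv
    (fun b => sMap (Dress_phi (Dress_rep b) 0 _ (PRel.refl _)) ∘ Dress_e b)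
    (fun b => Dress_e' b ∘ sMap (Dress_psi (Dress_rep b)))
    (fun b => (sMap_hom _).comp (Dress_e_hom b)) (fun b => (Dress_e'_hom b).comp (sMap_hom _))
    (fun b => ?_) (fun b => ?_) fun b i ε => ?_
  · exact Dress_congr (sMap_hmlg (Dress_phi_psi (Dress_rep b)))
      (fun c => (congrArg (sMap (Dress_phi (Dress_rep b) 0 _ (PRel.refl _)))
        (Dress_e_e' b (sMap (Dress_psi (Dress_rep b)) c))).symm) fun _ => rfl
  · exact Dress_congr (((sMap_hmlg (Dress_psi_phi (Dress_rep b))).comp_left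
      (Dress_e'_hom b)).comp_right (Dress_e_hom b)) (fun _ => rfl) fun w => Dress_e'_e b w
  · have hb : ∀ x, PRel ⊥ (Dress_rep b (ins i (endI ε) x))
        (Dress_rep ((Cov (⊥ : Subgroup (FundamentalGroup Z z))).fc i ε b) x) :=
      (cov_mk_eq (u := (Dress_rep b).comp (ins i (endI ε)))).1
        ((congrArg ((Cov (⊥ : Subgroup (FundamentalGroup Z z))).fc i ε) (Dress_rep_eq b)).trans
          (Dress_rep_eq _).symm)
    exact Dress_congr ((sMap_hmlg (Dress_nat (Dress_rep b) _ _ (hb 0))).comp_right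
      (Dress_e_hom b)) (fun w => ContinuousMap.ext fun y => rfl) fun _ => rfl

end RB
end

-- merged part: Pool.Agent.Work.MP_666b5d_gt.Om
section
/-!
# Iterated loop spaces of a nice space

Proof hints.  `nice_om0`: a homotopy of paths is a path in `Path z z`; for a loop `l` in `Om0` at
the constant loop `c`, concatenate the homotopy `K (ω, r)` from `ω` to `c · ω` (reparametrisation;
`K (c, r) = c`), the homotopy `l s · ω` and the reverse of `K`; the track is homotopic to `l`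
through `K (l s, r)`.  `NiceC`: paths from `z` lie in the path component, so
`pathComponent refl ≃ₜ Om0` of the component and the fundamental groups agree.
`serre`: induct on the cardinality of `N` with `GenLoop.loopHomeo`, `genLoopHomeoOfIsEmpty`
(and `GenLoop.congr`); `homotopyGroupEquivFundamentalGroup` is multiplicative by definition of the
group structure.
-/

open Set
open scoped unitInterval Topology

namespace RB

variable {Z Z' : Type} [TopologicalSpace Z] [TopologicalSpace Z'] {z : Z}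

/-- Every loop is the track of a self-homotopy of the identity. -/
def Om_Trk (Z : Type) [TopologicalSpace Z] (z : Z) : Prop :=
  ∀ l : Path z z, ∃ G : C(Z × I, Z), (∀ y, G (y, 0) = y) ∧ (∀ y, G (y, 1) = y) ∧
    ∃ p : Path z z, (∀ t, p t = G (z, t)) ∧ p.Homotopic l

theorem Om_evalAt {f g h : C(Z, Z')} (F : f.Homotopy g) (G : g.Homotopy h) (x : Z) :
    (F.trans G).evalAt x = (F.evalAt x).trans (G.evalAt x) := by
  ext t
  change (F.trans G) (t, x) = _
  rw [ContinuousMap.Homotopy.trans_apply, Path.trans_apply]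
  split_ifs <;> rfl

theorem Om_three {m : Z} (hm : m = z) {a : Path z m} {b : Path m m} {c : Path m z} {l : Path z z}
    (ha : ∀ t, a t = z) (hc : ∀ t, c t = z) (K : C(I × I, Z)) (h0 : ∀ t, K (0, t) = b t)
    (h1 : ∀ t, K (1, t) = l t) (h2 : ∀ s, K (s, 0) = z) (h3 : ∀ s, K (s, 1) = z) :
    ((a.trans b).trans c).Homotopic l := by
  subst hm
  obtain rfl : a = Path.refl m := Path.ext (funext ha)
  obtain rfl : c = Path.refl m := Path.ext (funext hc)
  refine (Path.Homotopic.trans_refl _).trans ((Path.Homotopic.refl_trans _).trans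
    ⟨⟨⟨K, h0, h1⟩, ?_⟩⟩)
  rintro s t (rfl | rfl)
  · exact (h2 s).trans b.source.symm
  · exact (h3 s).trans b.target.symm

theorem Om_hspace [HSpace Z] : Om_Trk Z HSpace.e := by
  intro l
  let L : C(Z, Z) :=
    HSpace.hmul.comp ((ContinuousMap.const Z HSpace.e).prodMk (ContinuousMap.id Z))
  let E : L.Homotopy (ContinuousMap.id Z) := HSpace.eHmul.toHomotopy
  let F : L.Homotopy L :=
    ⟨⟨fun p => HSpace.hmul (l p.1, p.2), by fun_prop⟩,
      fun y => congrArg (fun a => HSpace.hmul (a, y)) l.source,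
      fun y => congrArg (fun a => HSpace.hmul (a, y)) l.target⟩
  let H := (E.symm.trans F).trans E
  refine ⟨⟨fun p => H (p.2, p.1), by fun_prop⟩, H.apply_zero, H.apply_one, H.evalAt _,
    fun _ => rfl, ?_⟩
  rw [Om_evalAt, Om_evalAt]
  have h1 : ∀ s, HSpace.hmulE (X := Z) (s, HSpace.e) = HSpace.e := fun s =>
    HSpace.hmulE.eq_snd s rfl
  exact Om_three HSpace.hmul_e_e (fun t => HSpace.eHmul.eq_snd _ rfl)
    (fun t => HSpace.eHmul.eq_snd _ rfl) ⟨fun p => HSpace.hmulE (p.1, l p.2), by fun_prop⟩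
    (fun t => HSpace.hmulE.apply_zero _) (fun t => HSpace.hmulE.apply_one _)
    (fun s => (congrArg (fun a => HSpace.hmulE (s, a)) l.source).trans (h1 s))
    fun s => (congrArg (fun a => HSpace.hmulE (s, a)) l.target).trans (h1 s)

theorem Om_mem {f : I → Z} (hf : Continuous f) (h : f 0 ∈ pathComponent z) (t : I) :
    f t ∈ pathComponent z :=
  have : PathConnectedSpace I := isPathConnected_iff_pathConnectedSpace.1
    ((convex_Icc (0 : ℝ) 1).isPathConnected ⟨0, unitInterval.zero_mem⟩)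
  pathComponent_congr h ▸
    (isPathConnected_range hf).mem_pathComponent (mem_range_self 0) (mem_range_self t)

/-- The base point of the path component. -/
abbrev Om_pt (z : Z) : pathComponent z := ⟨z, mem_pathComponent_self z⟩

/-- Loops lie in the path component. -/
def Om_loops (z : Z) : Path (Om_pt z) (Om_pt z) ≃ₜ Path z z where
  toFun γ := γ.map continuous_subtype_val
  invFun γ := ⟨⟨fun t => ⟨γ t, Om_mem γ.continuous (γ.source.symm ▸ mem_pathComponent_self z) t⟩,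
    γ.continuous.subtype_mk _⟩, Subtype.ext γ.source, Subtype.ext γ.target⟩
  left_inv _ := rfl
  right_inv _ := rfl
  continuous_toFun := Path.continuous_uncurry_iff.1 (continuous_subtype_val.comp continuous_eval)
  continuous_invFun := Path.continuous_uncurry_iff.1 (continuous_eval.subtype_mk _)

theorem Om_joined {x y : Z} {γ δ : Path x y} : γ.Homotopic δ ↔ Joined γ δ := by
  constructor
  · rintro ⟨H⟩
    exact ⟨⟨⟨H.eval, Path.continuous_uncurry_iff.1 H.continuous⟩, H.eval_zero, H.eval_one⟩⟩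
  · rintro ⟨P⟩
    refine ⟨⟨⟨⟨fun p => P p.1 p.2, by fun_prop⟩, fun t => ?_, fun t => ?_⟩, ?_⟩⟩
    · exact congrArg (fun a : Path x y => a t) P.source
    · exact congrArg (fun a : Path x y => a t) P.target
    · rintro s t (rfl | rfl)
      · exact (P s).source.trans γ.source.symm
      · exact (P s).target.trans γ.target.symm

theorem Om_joined_homeo (e : Z ≃ₜ Z') {x y : Z} : Joined x y ↔ Joined (e x) (e y) :=
  ⟨fun h => h.map e.continuous, fun h => by simpa using h.map e.symm.continuous⟩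

theorem Om_Trk.comp (h : Om_Trk Z z) : Om_Trk (pathComponent z) (Om_pt z) := by
  intro l
  obtain ⟨G, h0, h1, p, h2, h3⟩ := h (Om_loops z l)
  refine ⟨⟨fun q => ⟨G (q.1, q.2), Om_mem (f := fun t => G (q.1, t)) (by fun_prop)
    (by rw [h0]; exact q.1.2) _⟩, by fun_prop⟩, fun y => Subtype.ext (h0 _),
    fun y => Subtype.ext (h1 _), (Om_loops z).symm p, fun t => Subtype.ext (h2 t), ?_⟩
  rw [Om_joined, Om_joined_homeo (Om_loops z), Homeomorph.apply_symm_apply]
  exact Om_joined.1 h3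

theorem Om_Trk.homeo (h : Om_Trk Z z) (e : Z ≃ₜ Z') : Om_Trk Z' (e z) := by
  intro l
  obtain ⟨G, h0, h1, p, h2, h3⟩ :=
    h ⟨⟨fun t => e.symm (l t), by fun_prop⟩, by simp, by simp⟩
  refine ⟨⟨fun q => e (G (e.symm q.1, q.2)), by fun_prop⟩, fun y => by simp [h0],
    fun y => by simp [h1], p.map e.continuous, fun t => by simp [h2], ?_⟩
  refine Eq.subst (motive := (p.map e.continuous).Homotopic) ?_ (h3.map (e : C(Z, Z')))
  exact Path.ext (funext fun t => e.apply_symm_apply _)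

theorem Om_homeo (h : Nice Z z) (e : Z ≃ₜ Z') : Nice Z' (e z) :=
  have := h.conn
  ⟨e.surjective.pathConnectedSpace e.continuous, h.ft.homeo e.symm, Om_Trk.homeo h.track e⟩

/-- Null-homotopic loops form the path component of the constant loop. -/
def Om_comp (z : Z) : pathComponent (Path.refl z) ≃ₜ Om0 Z z :=
  (Homeomorph.refl _).subtype fun _ => ⟨fun h => (Om_joined.2 h).symm, fun h => Om_joined.1 h.symm⟩

theorem Om_nice (h : Nice Z z) : Nice (pathComponent (Path.refl z)) (Om_pt _) :=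
  ⟨isPathConnected_iff_pathConnectedSpace.1 isPathConnected_pathComponent,
    (dress (cov_bot h)).homeo (Om_comp z), Om_Trk.comp (Om_hspace (Z := Path z z))⟩

theorem nice_om0 (h : Nice Z z) : Nice (Om0 Z z) ⟨Path.refl z, Path.Homotopic.refl _⟩ := by
  exact Om_homeo (Om_nice h) (Om_comp z)

theorem Nice.homeo (h : Nice Z z) (e : Z ≃ₜ Z') : Nice Z' (e z) := by
  exact Om_homeo h e

/-- The path component of the base point is nice. -/
def NiceC (Z : Type) [TopologicalSpace Z] (z : Z) : Prop :=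
  Nice (pathComponent z) ⟨z, mem_pathComponent_self z⟩

theorem Nice.niceC (h : Nice Z z) : NiceC Z z := by
  have := h.conn
  exact h.homeo ((Homeomorph.Set.univ Z).symm.trans
    ((Homeomorph.refl Z).subtype fun y => ⟨fun _ => PathConnectedSpace.joined z y, fun _ => trivial⟩))

theorem NiceC.homeo (h : NiceC Z z) (e : Z ≃ₜ Z') : NiceC Z' (e z) := by
  exact Nice.homeo h (e.subtype fun y => Om_joined_homeo e)

theorem NiceC.loop (h : NiceC Z z) : NiceC (Path z z) (Path.refl z) := by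
  exact NiceC.homeo (Om_nice h) (Om_loops z)

theorem NiceC.fg (h : NiceC Z z) : Group.FG (FundamentalGroup Z z) := by
  have := Nice.pi1_fg h
  refine Group.fg_of_surjective
    (f := FundamentalGroup.map ⟨Subtype.val, continuous_subtype_val⟩ (Om_pt z)) fun q => ?_
  induction q using Path.Homotopic.Quotient.ind with
  | mk γ => exact ⟨Path.Homotopic.Quotient.mk ((Om_loops z).symm γ), rfl⟩

theorem NiceC.genLoop (h : NiceC Z z) (N : Type) [Fintype N] :
    NiceC (GenLoop N Z z) GenLoop.const := by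
  classical
  induction hn : Fintype.card N using Nat.strong_induction_on generalizing N with
  | _ n ih =>
    rcases isEmpty_or_nonempty N with hN | ⟨⟨i⟩⟩
    · exact h.homeo (genLoopHomeoOfIsEmpty N z).symm
    · exact (ih _ (hn ▸ Fintype.card_subtype_lt (p := fun j => j ≠ i) (x := i) (by simp))
        {j // j ≠ i} rfl).loop.homeo (GenLoop.loopHomeo i).symm

theorem serre (h : NiceC Z z) (N : Type) [Fintype N] [DecidableEq N] [Nonempty N] :
    Group.FG (HomotopyGroup N Z z) := by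
  have := (h.genLoop {j // j ≠ Classical.arbitrary N}).fg
  exact Group.fg_of_surjective
    (f := (homotopyGroupEquivFundamentalGroup (Classical.arbitrary N)).mulEquiv.symm.toMonoidHom)
    (MulEquiv.surjective _)

end RB
end

-- merged part: Pool.Agent.Work.MP_666b5d_gt.Serre
section
/-!
# The homotopy groups of spheres are finitely generated

Proof hints.  `nice_sphere`: a loop at `∞` restricts to a based map on `J`, which is null-homotopic
(`sphere_conn'`, `eJ`); extend the null-homotopy by `∞` along `J → I`; take the constant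
self-homotopy.  `hc_fg`: with `N = Option (Fin k)`, `k = finrank A + finrank B`, there is a
homeomorphism `(A × J) × B ≃ₜ (N → J)` whose `none` coordinate is the `J` coordinate.  Restricting
a `GenLoop` to the interior of the cube gives a based map; this is onto (extension by `∞` along
`(N → J) → (N → I)`), respects homotopy, and turns `GenLoop.transAt none` into `cat`
(`HomotopyGroup.mul_spec`), so the images of finitely many generators generate.
-/

open Set Filter Topology OnePoint Module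
open scoped unitInterval

namespace RB

open Act

variable {A B B' : Type} [NormedAddCommGroup A] [NormedSpace ℝ A] [FiniteDimensional ℝ A]
  [NormedAddCommGroup B] [NormedSpace ℝ B] [FiniteDimensional ℝ B]
  [NormedAddCommGroup B'] [NormedSpace ℝ B'] [FiniteDimensional ℝ B']

section aux

variable {X K Y S : Type} [TopologicalSpace X] [TopologicalSpace K] [CompactSpace K]
  [TopologicalSpace Y] [T2Space Y] {j : X → K}

/-- A continuous map on a compact space is a based map. -/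
def Serre_bm (p : C(K, OnePoint Y)) : BM K Y :=
  ⟨p, p.continuous, by rw [cocompact_eq_bot]; exact tendsto_bot⟩

/-- Restriction to an open subspace. -/
def Serre_res (hj : IsOpenEmbedding j) (p : C(K, OnePoint Y)) (hp : ∀ x ∉ range j, p x = ∞) :
    BM X Y := (Serre_bm p).res0 j hj hp

omit [TopologicalSpace X] [TopologicalSpace K] [CompactSpace K] in
theorem Serre_range {q : K × I} : q ∈ range (Prod.map j (id : I → I)) ↔ q.1 ∈ range j :=
  ⟨fun ⟨x, hx⟩ => ⟨x.1, congrArg Prod.fst hx⟩, fun ⟨x, hx⟩ => ⟨(x, q.2), Prod.ext hx rfl⟩⟩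

theorem Serre_ht (hj : IsOpenEmbedding j) {p q : C(K, OnePoint Y)} {T : Set K}
    (hT : ∀ x ∉ range j, x ∈ T) (hp : ∀ x ∉ range j, p x = ∞) (hq : ∀ x ∉ range j, q x = ∞)
    (h : p.HomotopicRel q T) (α : Act S X) (β : Act S Y) :
    Ht (∅ : Set S) α β univ (Serre_res hj p hp) (Serre_res hj q hq) := by
  obtain ⟨H⟩ := h
  refine ⟨Serre_res (hj.prodMap IsOpenEmbedding.id)
    (H.toHomotopy.toContinuousMap.comp ContinuousMap.prodSwap) fun x hx => ?_,
    Good.empty_univ _, fun x => H.apply_zero _, fun x => H.apply_one _⟩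
  have hx' := mt Serre_range.2 hx
  exact (H.eq_fst x.2 (hT _ hx')).trans (hp _ hx')

theorem Serre_null [T2Space X] [T2Space K] (hj : IsOpenEmbedding j) {p : C(K, OnePoint Y)}
    {T : Set K} (hT : ∀ x ∈ T, x ∉ range j) (hp : ∀ x ∉ range j, p x = ∞)
    (h : Ht0 (Serre_res hj p hp) BM.zero) : p.HomotopicRel (.const K ∞) T := by
  obtain ⟨H, -, h0, h1⟩ := h
  have hj' := hj.prodMap (IsOpenEmbedding.id (X := I))
  have e : ∀ x t, x ∉ range j → (H.ext0 _ hj').f (x, t) = ∞ := fun x t hx =>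
    BM.ext0_not _ _ _ (mt Serre_range.1 hx)
  refine ⟨⟨⟨⟨fun q => (H.ext0 _ hj').f q.swap, (BM.cont _).comp continuous_swap⟩, fun x => ?_,
    fun x => ?_⟩, fun t x hx => (e x t (hT x hx)).trans (hp x (hT x hx)).symm⟩⟩
  · by_cases hx : x ∈ range j
    · obtain ⟨u, rfl⟩ := hx
      exact (BM.ext0_j H _ hj' (u, 0)).trans (h0 u)
    · exact (e x 0 hx).trans (hp x hx).symm
  · by_cases hx : x ∈ range j
    · obtain ⟨u, rfl⟩ := hx
      exact (BM.ext0_j H _ hj' (u, 1)).trans (h1 u)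
    · exact e x 1 hx

/-- The open interval in the closed interval. -/
def Serre_i : J → I := inclusion Ioo_subset_Icc_self

theorem Serre_i_emb : IsOpenEmbedding Serre_i :=
  IsOpenEmbedding.inclusion Ioo_subset_Icc_self (isOpen_Ioo.preimage continuous_subtype_val)

theorem Serre_i_range {t : I} : t ∉ range Serre_i ↔ t = 0 ∨ t = 1 := by
  rw [Serre_i, range_inclusion]
  constructor
  · intro h
    by_contra h'
    rw [not_or] at h'
    exact h ⟨unitInterval.pos_iff_ne_zero.2 h'.1, unitInterval.lt_one_iff_ne_one.2 h'.2⟩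
  · rintro (rfl | rfl) h
    exacts [lt_irrefl _ h.1, lt_irrefl _ h.2]

theorem Serre_fg {G H : Type} [Group G] [AddGroup H] (hG : Group.FG G) (φ : G → H)
    (hφ : ∀ a b, φ (a * b) = φ b + φ a) (hs : Function.Surjective φ) : AddGroup.FG H := by
  rw [AddGroup.fg_iff_mul_fg]
  refine Group.fg_of_surjective (f := MonoidHom.mk' (fun a : G => Multiplicative.ofAdd (φ a⁻¹))
    fun a b => by rw [mul_inv_rev, hφ, ofAdd_add]) fun y => ?_
  obtain ⟨a, ha⟩ := hs y.toAdd
  exact ⟨a⁻¹, by simp [ha]⟩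

end aux

/-- The interior of a cube. -/
theorem Serre_cube : ∃ (k : ℕ) (j : (A × J) × B → Option (Fin k) → I), IsOpenEmbedding j ∧
    (∀ x, x ∉ range j ↔ x ∈ Cube.boundary _) ∧ (∀ a s b, j ((a, s), b) none = Serre_i s) ∧
    ∀ a s s' b, j ((a, s'), b) = Function.update (j ((a, s), b)) none (Serre_i s') := by
  let c : A × B ≃ₜ (Fin (finrank ℝ (A × B)) → J) :=
    (ContinuousLinearEquiv.ofFinrankEq (finrank_fin_fun ℝ).symm).toHomeomorph.trans
      (Homeomorph.piCongrRight fun _ => eJ.symm)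
  let e : (A × J) × B ≃ₜ (Option (Fin (finrank ℝ (A × B))) → J) :=
    { toFun := fun p o => o.elim p.1.2 (c (p.1.1, p.2))
      invFun := fun x =>
        (((c.symm fun i => x (Option.some i)).1, x none), (c.symm fun i => x (Option.some i)).2)
      left_inv := fun p => by simp
      right_inv := fun x => by
        funext o
        cases o <;> simp
      continuous_toFun := continuous_pi fun o => by
        cases o
        · exact continuous_fst.snd
        · exact (continuous_apply _).comp (c.continuous.comp (by fun_prop))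
      continuous_invFun := by fun_prop }
  refine ⟨_, Pi.map (fun _ => Serre_i) ∘ e,
    (IsOpenEmbedding.piMap fun _ => Serre_i_emb).comp e.isOpenEmbedding, fun x => ?_,
    fun _ _ _ => rfl, fun a s s' b => ?_⟩
  · rw [e.surjective.range_comp, range_piMap, mem_univ_pi, not_forall]
    exact exists_congr fun _ => Serre_i_range
  · funext o
    cases o <;> rfl

theorem nice_sphere (h : 2 ≤ finrank ℝ B') : Nice (OnePoint B') ∞ := by
  have hc : ∀ y : OnePoint B', Joined y ∞ := fun y => by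
    obtain ⟨H, -, h0, h1⟩ := sphere_conn (A := Fin 0 → ℝ) (by rw [finrank_fin_fun]; omega)
      (Serre_bm (.const _ y))
    exact ⟨⟨⟨fun t => H.f (0, t), H.cont.comp (by fun_prop)⟩, h0 0, h1 0⟩⟩
  refine ⟨⟨⟨∞⟩, fun x y => (hc x).trans (hc y).symm⟩, fts_sphere B', fun l =>
    ⟨ContinuousMap.fst, fun _ => rfl, fun _ => rfl, Path.refl _, fun _ => rfl, ?_⟩⟩
  refine Path.Homotopic.symm (Serre_null (p := l.toContinuousMap) Serre_i_emb
    (fun x hx => Serre_i_range.2 hx) (fun x hx => ?_)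
    (sphere_conn' eJ (Homeomorph.refl B') (by rw [finrank_self]; omega) _))
  rcases Serre_i_range.1 hx with rfl | rfl
  exacts [l.source, l.target]

theorem hc_fg (h : 2 ≤ finrank ℝ B') {S : Type} (α : Act S A) (γ : Act S B) (β : Act S B')
    {D : Set B'} (hD : D = univ) [LC A] [LC B] [LC B'] :
    AddGroup.FG (HC (∅ : Set S) ((α.prod (triv : Act S J)).prod γ) β D) := by
  subst hD
  obtain ⟨k, j, hj, h1, h2, h3⟩ := Serre_cube (A := A) (B := B)
  let r : GenLoop (Option (Fin k)) (OnePoint B') ∞ → BM ((A × J) × B) B' := fun p =>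
    Serre_res hj p.1 fun x hx => p.2 x ((h1 x).1 hx)
  have hr : ∀ p a s (t : ℝ) b, ev (r p) a t b =
      p (Function.update (j ((a, s), b)) none (projIcc 0 1 zero_le_one t)) := by
    intro p a s t b
    by_cases ht : t ∈ Ioo (0 : ℝ) 1
    · rw [ev_of_mem _ _ ht, projIcc_of_mem _ (Ioo_subset_Icc_self ht)]
      exact congrArg p (h3 a s ⟨t, ht⟩ b)
    · rw [ev_of_not _ _ ht]
      refine (p.2 _ ⟨none, ?_⟩).symm
      rw [Function.update_self]
      rcases le_or_gt t 0 with h0 | h0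
      · exact Or.inl (projIcc_of_le_left _ h0)
      · exact Or.inr (projIcc_of_right_le _ (not_lt.1 fun h1 => ht ⟨h0, h1⟩))
  refine Serre_fg (serre (nice_sphere h).niceC (Option (Fin k)))
    (Quotient.lift (fun p => HC.mk (r p) (Good.empty_univ _)) fun p q hpq =>
      Quot.sound (Serre_ht hj (fun x => (h1 x).1) (fun x hx => p.2 x ((h1 x).1 hx))
        (fun x hx => q.2 x ((h1 x).1 hx)) hpq _ _)) ?_ fun y => ?_
  · rintro ⟨p⟩ ⟨q⟩
    refine (congrArg _ (HomotopyGroup.mul_spec (i := none) (p := p) (q := q))).trans ?_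
    change HC.mk (r _) _ = HC.mk (cat (r q) (r p)) (Good.empty_univ _)
    congr 1
    refine BM.ext fun ⟨⟨a, s⟩, b⟩ => ?_
    rw [cat_f, hr q a s, hr p a s]
    change (if ((j ((a, s), b) none : I) : ℝ) ≤ 1 / 2 then _ else _) = _
    rw [h2]
    rfl
  · obtain ⟨f, hf, rfl⟩ := HC.mk_surj y
    refine ⟨⟦⟨⟨(f.ext0 j hj).f, BM.cont _⟩, fun x hx => BM.ext0_not _ _ _ ((h1 x).2 hx)⟩⟧, ?_⟩
    change HC.mk (r _) _ = _
    congr 1
    exact BM.ext fun x => BM.ext0_j f j hj x

end RB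
end
end
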