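import Pool.Agent.Work.MP_666b5d_gt.Br3
import Pool.Agent.Work.MP_666b5d_gt.Serre

-- merged part: Pool.Agent.Work.MP_666b5d_gt.MU
section
/-!
# The system of Thom spaces of Real bordism

Proof hints.  `big` and `cl_mor` come from `MMor.exists_path` (with `Tr.ht_path_prod`, `cl_tr` for
`std` and `nu`).  `suc`: use the level `L.stab (fun _ : Unit => 0)`, the morphism
`(fromRows 1 0, fromRows 1 0, fromBlocks 0 0 0 1)` and `Ψ (q, z) = Ea.sum q (Ea.full fun _ => z)`.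
`cl_reidx`: the morphism `(emb a, emb b, 0)`.  `cl_stab`: the morphism just described.
`cl_zero_std`: if `μ.tr f` is null at level `L'`, then so is `nu.tr (μ.tr f) ≃ std.tr f`.
-/

open Set Filter Topology Matrix
open scoped unitInterval

namespace RB

open Act

/-- Levels: two finite index sets with weights. -/
structure Lv (M : Type) where
  ι : Type
  κ : Type
  [fι : Fintype ι]
  [dι : DecidableEq ι]
  [fκ : Fintype κ]
  [dκ : DecidableEq κ]
  w : ι → M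
  u : κ → M

attribute [instance] Lv.fι Lv.dι Lv.fκ Lv.dκ

namespace Lv

variable {M : Type}

/-- Add indices to the target. -/
abbrev addT (L : Lv M) {ν : Type} [Fintype ν] [DecidableEq ν] (ω : ν → M) : Lv M :=
  Lv.mk L.ι (L.κ ⊕ ν) L.w (Sum.elim L.u ω)

/-- Add indices to the source. -/
abbrev addS (L : Lv M) {ν : Type} [Fintype ν] [DecidableEq ν] (ω : ν → M) : Lv M :=
  Lv.mk (L.ι ⊕ ν) L.κ (Sum.elim L.w ω) L.u

/-- Add indices to both. -/
abbrev stab (L : Lv M) {ν : Type} [Fintype ν] [DecidableEq ν] (ω : ν → M) : Lv M :=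
  Lv.mk (L.ι ⊕ ν) (L.κ ⊕ ν) (Sum.elim L.w ω) (Sum.elim L.u ω)

/-- Replace all weights by zero. -/
abbrev zero (L : Lv M) (M' : Type) [Zero M'] : Lv M' := Lv.mk L.ι L.κ 0 0

/-- The common level of the rotation lemma. -/
abbrev big (L L' : Lv M) : Lv M :=
  Lv.mk (L'.ι ⊕ L.ι) (L'.ι ⊕ L.κ ⊕ L'.κ ⊕ L.ι) (Sum.elim L'.w L.w)
    (Sum.elim L'.w (Sum.elim L.u (Sum.elim L'.u L.w)))

end Lv

/-- The morphism that adds the same indices to source and target. -/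
noncomputable def MU_stab (ι κ ν : Type) [Fintype ι] [DecidableEq ι] [Fintype κ] [DecidableEq κ]
    [Fintype ν] [DecidableEq ν] : MMor ι κ (ι ⊕ ν) (κ ⊕ ν) where
  A := fromRows 1 0
  B := fromRows 1 0
  C := fromBlocks 0 0 0 1
  hA := by simp [conjTranspose_fromRows_eq_fromCols_conjTranspose, fromCols_mul_fromRows]
  hB := by simp [conjTranspose_fromRows_eq_fromCols_conjTranspose, fromCols_mul_fromRows]
  hC := by
    rw [conjTranspose_fromRows_eq_fromCols_conjTranspose, fromRows_mul_fromCols,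
      fromBlocks_conjTranspose, fromBlocks_multiply]
    ext (i | i) (j | j) <;> simp [one_apply]
  hBC := by
    rw [conjTranspose_fromRows_eq_fromCols_conjTranspose, fromCols_mul_fromBlocks]
    simp

section

variable {M : Type} [AddCommGroup M] {ι κ ν : Type} [Fintype ι] [DecidableEq ι] [Fintype κ]
  [DecidableEq κ] [Fintype ν] [DecidableEq ν]

theorem MU_stab_a (v : ι ⊕ ν → ℂ) : (MU_stab ι κ ν).Aᴴ *ᵥ v = v ∘ Sum.inl := by
  simp [MU_stab, conjTranspose_fromRows_eq_fromCols_conjTranspose, fromCols_mulVec]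

theorem MU_stab_Ψ (q : Ea κ) (v : ι ⊕ ν → ℂ) :
    (MU_stab ι κ ν).tr.Ψ (q, v) = Ea.sum q (Ea.full (v ∘ Sum.inr)) := by
  apply Subtype.ext
  rw [MMor.tr_Ψ]
  show _ = (fromBlocks q.1.1 0 0 1, Sum.elim q.1.2 (v ∘ Sum.inr))
  simp only [MU_stab, conjTranspose_fromRows_eq_fromCols_conjTranspose,
    fromRows_mul, fromBlocks_conjTranspose, fromBlocks_multiply,
    fromRows_mulVec, fromBlocks_mulVec]
  refine Prod.ext ?_ ?_
  · ext (i | i) (j | j) <;> simp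
  · ext (i | i) <;> simp

theorem MU_tw_zero (u : ℤˣ) : tw u (0 : ℂ) = 0 := by
  rw [← twR_apply, map_zero]

theorem MU_tw_one (u : ℤˣ) : tw u (1 : ℂ) = 1 := by
  rw [← twR_apply, map_one]

omit [Fintype ι] in
theorem MU_mp_one (w : ι → M) (g : Gam M) (i j : ι) :
    ch g (w i - w j) * tw g.e ((1 : Matrix ι ι ℂ) i j) = (1 : Matrix ι ι ℂ) i j :=
  congrFun (congrFun (mp_one w g) i) j

theorem MU_stab_inv (w : ι → M) (u : κ → M) (ω : ν → M) :
    (MU_stab ι κ ν).Inv univ w u (Sum.elim w ω) (Sum.elim u ω) := by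
  refine ⟨fun g _ => ?_, fun g _ => ?_, fun g _ => ?_⟩
  · ext (i | i) j
    · exact MU_mp_one w g i j
    · simp [MU_stab, mp_apply, MU_tw_zero]
  · ext (i | i) j
    · exact MU_mp_one u g i j
    · simp [MU_stab, mp_apply, MU_tw_zero]
  · ext (i | i) (j | j)
    · simp [MU_stab, mp_apply, MU_tw_zero]
    · simp [MU_stab, mp_apply, MU_tw_zero]
    · simp [MU_stab, mp_apply, MU_tw_zero]
    · exact MU_mp_one ω g i j

/-- Splitting off the last coordinate. -/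
def MU_split (ι : Type) : (ι ⊕ Unit → ℂ) ≃ₜ (ι → ℂ) × ℂ where
  toFun b := (b ∘ Sum.inl, b (Sum.inr ()))
  invFun p := Sum.elim p.1 fun _ => p.2
  left_inv b := by
    ext (i | i) <;> rfl
  right_inv p := rfl
  continuous_toFun := by fun_prop
  continuous_invFun := by
    refine continuous_pi fun i => ?_
    rcases i with i | i
    · exact (continuous_apply i).comp continuous_fst
    · exact continuous_snd

omit [DecidableEq κ] in
theorem MU_suc_pmap (u : κ → M) :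
    PMap univ ((ea u).prod (via Gam.e cj)) (ea (Sum.elim u fun _ : Unit => (0 : M)))
      fun p : Ea κ × ℂ => Ea.sum p.1 (Ea.full fun _ : Unit => p.2) := by
  refine ⟨?_, fun g _ p => ?_⟩
  · have h1 : IsProperMap fun z : ℂ => (fun _ : Unit => z) :=
      (Homeomorph.funUnique Unit ℂ).symm.isProperMap
    exact Ea.sum_proper.comp (isProperMap_id.prodMap (Ea.full_proper.comp h1))
  · rw [← Ea.sum_ea, ← Ea.full_ea]
    refine congrArg (fun z => Ea.sum (ea u g p.1) (Ea.full z)) ?_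
    funext i
    simp only [rp, ch_zero, one_mul]
    rfl

end

/-- The system of Thom spaces. -/
noncomputable abbrev MU (M : Type) [AddCommGroup M] : Sys.{1} (Gam M) Gam.e where
  Lv := Lv M
  B L := L.ι → ℂ
  T L := Ea L.κ
  bα L := rp L.w
  tα L := ea L.u
  dg L q := q.1.1.trace - (Fintype.card L.ι : ℂ)
  Mor L L' := {τ | ∃ μ : MMor L.ι L.κ L'.ι L'.κ, μ.Inv univ L.w L.u L'.w L'.u ∧ τ = μ.tr}
  L0 := Lv.mk Empty Empty Empty.elim Empty.elim
  eqv := by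
    rintro L L' _ ⟨μ, hμ, rfl⟩
    exact hμ.eqv
  dg_eq := by
    rintro L L' _ ⟨μ, -, rfl⟩ t x
    exact μ.tr_trace t x
  comp_mem := by
    rintro L L' L'' _ _ ⟨μ, hμ, rfl⟩ ⟨ν, hν, rfl⟩
    exact ⟨μ.comp ν, hμ.comp hν, (MMor.tr_comp μ ν).symm⟩
  big := by
    intro L L'
    refine ⟨L.big L', _, ⟨_, MMor.std_inv L.w L.u L'.w L'.u, rfl⟩, _,
      ⟨_, MMor.nu_inv L.w L.u L'.w L'.u, rfl⟩, ?_⟩
    rintro _ ⟨μ, hμ, rfl⟩
    exact MMor.exists_path hμ
  suc := by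
    intro L
    refine ⟨L.stab fun _ : Unit => 0, _, ⟨_, MU_stab_inv L.w L.u _, rfl⟩, MU_split L.ι,
      fun p => Ea.sum p.1 (Ea.full fun _ : Unit => p.2), fun g b => ?_, MU_suc_pmap L.u,
      fun t z => ?_, fun b => MU_stab_a (κ := L.κ) b, fun t b => MU_stab_Ψ t b⟩
    · refine Prod.ext rfl ?_
      show ch g 0 * tw g.e (b (Sum.inr ())) = tw g.e (b (Sum.inr ()))
      rw [ch_zero, one_mul]
    · show (Ea.sum t (Ea.full fun _ : Unit => z)).1.1.trace -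
        (Fintype.card (L.ι ⊕ Unit) : ℂ) = t.1.1.trace - (Fintype.card L.ι : ℂ)
      rw [Ea.sum_trace, Ea.full_trace, Fintype.card_sum]
      push_cast
      ring

variable {M : Type} [AddCommGroup M] {X Y : Type} [TopologicalSpace X] [TopologicalSpace Y]

theorem mu_grp : (MU M).Grp := by
  refine ⟨fun L => ga_rp L.w, fun L => ga_ea L.u, fun L g t => ?_⟩
  exact congrArg (· - (Fintype.card L.ι : ℂ)) (ea_trace L.u g t)

/-- Real bordism with coefficients in `Y`. -/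
abbrev EM (𝒢 : Set (Gam M)) [LC X] [LC Y] (α : Act (Gam M) X) (β : Act (Gam M) Y) (d : Y → ℤ) :
    Type 1 := E (MU M) 𝒢 α β d

/-- Real bordism. -/
abbrev E0 (𝒢 : Set (Gam M)) [LC X] (α : Act (Gam M) X) (n : ℤ) : Type 1 :=
  E (MU M) 𝒢 α (triv : Act (Gam M) Unit) fun _ => n

variable [LC X] [LC Y] {𝒢 : Set (Gam M)} {α : Act (Gam M) X} {β : Act (Gam M) Y} {d : Y → ℤ}

theorem gd_mor {L L' : Lv M} {μ : MMor L.ι L.κ L'.ι L'.κ} (hμ : μ.Inv 𝒢 L.w L.u L'.w L'.u)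
    {f : BM (X × (L.ι → ℂ)) (Ea L.κ × Y)} (hf : (MU M).Gd 𝒢 α β d L f) :
    (MU M).Gd 𝒢 α β d L' (μ.tr.tr f) := by
  exact Tr.good_ap (hμ.eqv.prod α β) (fun t ht x => (μ.tr_trace t.1 x.2).trans ht) hf

/-- Invariance under morphisms that commute with `𝒢` only. -/
theorem cl_mor {L L' : Lv M} {μ : MMor L.ι L.κ L'.ι L'.κ} (hμ : μ.Inv 𝒢 L.w L.u L'.w L'.u)
    {f : BM (X × (L.ι → ℂ)) (Ea L.κ × Y)} (hf : (MU M).Gd 𝒢 α β d L f)
    {f' : BM (X × (L'.ι → ℂ)) (Ea L'.κ × Y)} (hf' : (MU M).Gd 𝒢 α β d L' f')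
    (he : ∀ x v, f'.f (x, v) = (f.f (x, μ.Aᴴ *ᵥ v)).map fun p => (μ.tr.Ψ (p.1, v), p.2)) :
    cl (sy := MU M) L' f' hf' = cl (sy := MU M) L f hf := by
  have e : f' = μ.tr.tr f := BM.ext fun p => he p.1 p.2
  subst e
  obtain ⟨H, hH, hd, h0, h1⟩ := MMor.exists_path hμ
  have hs : (MMor.std L.ι L.κ L'.ι L'.κ).tr ∈ (MU M).Mor L (L.big L') :=
    ⟨_, MMor.std_inv L.w L.u L'.w L'.u, rfl⟩
  have hn : (MMor.nu L.ι L.κ L'.ι L'.κ).tr ∈ (MU M).Mor L' (L.big L') :=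
    ⟨_, MMor.nu_inv L.w L.u L'.w L'.u, rfl⟩
  refine cl_eq_iff.2 ⟨L.big L', _, hn, _, hs, Ht.symm ?_⟩
  have key := Tr.ht_path_prod (E := (MU M).D L d) (E' := (MU M).D (L.big L') d) hH
    (fun t y ht x => (hd t x).trans ht) hf
  rw [h0, h1, Tr.comp_prod, Tr.ap_comp] at key
  exact key

/-- Reindexing the source and enlarging the target. -/
theorem cl_reidx {L L' : Lv M} (a : L.ι ≃ L'.ι) (b : L.κ ↪ L'.κ)
    (ha : ∀ g ∈ 𝒢, ∀ i, ch g (L'.w (a i)) = ch g (L.w i))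
    (hb : ∀ g ∈ 𝒢, ∀ j, ch g (L'.u (b j)) = ch g (L.u j))
    {f : BM (X × (L.ι → ℂ)) (Ea L.κ × Y)} (hf : (MU M).Gd 𝒢 α β d L f)
    {f' : BM (X × (L'.ι → ℂ)) (Ea L'.κ × Y)} (hf' : (MU M).Gd 𝒢 α β d L' f')
    (he : ∀ x v, f'.f (x, v) = (f.f (x, v ∘ a)).map fun p => (Ea.ext0 b p.1, p.2)) :
    cl (sy := MU M) L' f' hf' = cl (sy := MU M) L f hf := by
  have hA : emb a * (emb a)ᴴ = 1 := by
    ext i j
    obtain ⟨i, rfl⟩ := a.surjective i
    obtain ⟨j, rfl⟩ := a.surjective j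
    simp only [mul_apply, emb, conjTranspose_apply, of_apply, a.injective.eq_iff, one_apply]
    by_cases h : i = j
    · subst h
      simp
    · simp [h]
  let μ : MMor L.ι L.κ L'.ι L'.κ := ⟨emb a, emb b, 0, emb_iso a.injective, emb_iso b.injective,
    by rw [hA, sub_self, Matrix.mul_zero], Matrix.mul_zero _⟩
  have hμ : μ.Inv 𝒢 L.w L.u L'.w L'.u := ⟨emb_inv ha, emb_inv hb, fun g _ => mp_zero _ _ g⟩
  refine cl_mor hμ hf hf' fun x v => ?_
  rw [he]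
  have e1 : μ.Aᴴ *ᵥ v = v ∘ a := emb_conjTranspose_mulVec a v
  rw [e1]
  refine omap_congr _ fun p _ => Prod.ext (Subtype.ext ?_) rfl
  show (emb b * p.1.1.1 * (emb b)ᴴ, emb b *ᵥ p.1.1.2) = (μ.tr.Ψ (p.1, v)).1
  rw [MMor.tr_Ψ]
  simp [μ]

/-- Changing the weights by weights that are trivial on `𝒢`. -/
theorem cl_weights (L : Lv M) (w' : L.ι → M) (u' : L.κ → M)
    (ha : ∀ g ∈ 𝒢, ∀ i, ch g (w' i) = ch g (L.w i)) (hb : ∀ g ∈ 𝒢, ∀ j, ch g (u' j) = ch g (L.u j))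
    {f : BM (X × (L.ι → ℂ)) (Ea L.κ × Y)} (hf : (MU M).Gd 𝒢 α β d L f)
    (hf' : (MU M).Gd 𝒢 α β d (Lv.mk L.ι L.κ w' u') f) :
    cl (sy := MU M) (Lv.mk L.ι L.κ w' u') f hf' = cl (sy := MU M) L f hf := by
  refine cl_reidx (L := L) (L' := Lv.mk L.ι L.κ w' u') (Equiv.refl _) (Function.Embedding.refl _)
    ha hb hf hf' fun x v => ?_
  have e : ∀ q : Ea L.κ, Ea.ext0 (Function.Embedding.refl L.κ) q = q := fun q =>
    Ea.ext0_eq _ (fun _ _ => rfl) (fun j' hj' => absurd ⟨j', rfl⟩ hj') fun _ => rfl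
  simp only [e]
  exact (omap_id _).symm

/-- Stabilisation. -/
theorem cl_stab (L : Lv M) {ν : Type} [Fintype ν] [DecidableEq ν] (ω : ν → M)
    {f : BM (X × (L.ι → ℂ)) (Ea L.κ × Y)} (hf : (MU M).Gd 𝒢 α β d L f)
    {f' : BM (X × (L.ι ⊕ ν → ℂ)) (Ea (L.κ ⊕ ν) × Y)} (hf' : (MU M).Gd 𝒢 α β d (L.stab ω) f')
    (he : ∀ x v, f'.f (x, v) = (f.f (x, v ∘ Sum.inl)).map
      fun p => (Ea.sum p.1 (Ea.full (v ∘ Sum.inr)), p.2)) :
    cl (sy := MU M) (L.stab ω) f' hf' = cl (sy := MU M) L f hf := by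
  have h := MU_stab_inv L.w L.u ω
  have hμ : (MU_stab L.ι L.κ ν).Inv 𝒢 L.w L.u (L.stab ω).w (L.stab ω).u :=
    ⟨fun g _ => h.hA g trivial, fun g _ => h.hB g trivial, fun g _ => h.hC g trivial⟩
  refine cl_mor (L' := L.stab ω) hμ hf hf' fun x v => ?_
  rw [he, MU_stab_a]
  exact omap_congr _ fun p _ => Prod.ext (MU_stab_Ψ p.1 v).symm rfl

/-- A class is zero iff a standard stabilisation is null-homotopic. -/
theorem cl_zero_std {L : Lv M} {f : BM (X × (L.ι → ℂ)) (Ea L.κ × Y)}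
    {hf : (MU M).Gd 𝒢 α β d L f} (h : cl (sy := MU M) L f hf = 0) :
    ∃ L' : Lv M, (MU M).Hm 𝒢 α β d (L.big L') ((MMor.std L.ι L.κ L'.ι L'.κ).tr.tr f) BM.zero := by
  obtain ⟨L', _, ⟨μ, hμ, rfl⟩, h'⟩ := cl_eq_zero_iff.1 h
  refine ⟨L', ?_⟩
  obtain ⟨H, hH, hd, h0, h1⟩ := MMor.exists_path hμ
  have hn : (MMor.nu L.ι L.κ L'.ι L'.κ).tr ∈ (MU M).Mor L' (L.big L') :=
    ⟨_, MMor.nu_inv L.w L.u L'.w L'.u, rfl⟩
  have key := Tr.ht_path_prod (E := (MU M).D L d) (E' := (MU M).D (L.big L') d)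
    (hH.mono (subset_univ 𝒢)) (fun t y ht x => (hd t x).trans ht) hf
  rw [h0, h1, Tr.comp_prod, Tr.ap_comp] at key
  have h2 := hm_tr hn h'
  rw [Tr.tr, Tr.tr, Tr.tr, Tr.ap_zero] at h2
  exact key.trans h2

end RB
end

-- merged part: Pool.Agent.Work.MP_666b5d_gt.Grp2
section
/-!
# Commutativity (Eckmann-Hilton)

Proof plan.  Transport along `e` to `B = B' × J`.  On `(A × J) × (B' × J)` there is a second
concatenation `cat'` in the last coordinate (conjugate `cat` by the homeomorphism that swaps the two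
`J`-coordinates).  The interchange law `cat (cat' a b) (cat' c d) = cat' (cat a c) (cat b d)` holds
on the nose, and `zero` is a two-sided unit up to homotopy for both; hence
`cat f g ≃ cat (cat' zero f) (cat' g zero) = cat' (cat zero g) (cat f zero) ≃ cat' g f`, and in the
same way `cat g f ≃ cat' g f`.
-/

open Set Filter Topology OnePoint
open scoped unitInterval

namespace RB

open Act

variable {S A B Y : Type} [TopologicalSpace A] [TopologicalSpace B] [TopologicalSpace Y]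
  [LC A] [LC B] [LC Y] {𝒢 : Set S} {α : Act S A} {γ : Act S B} {β : Act S Y} {D : Set Y}

section Aux

variable {B' : Type} [TopologicalSpace B']

/-- The map that swaps the two interval coordinates. -/
def Grp2_sw (e : B ≃ₜ B' × J) (p : (A × J) × B) : (A × J) × B :=
  ((p.1.1, (e p.2).2), e.symm ((e p.2).1, p.1.2))

omit [TopologicalSpace A] [LC A] [LC B] in
theorem Grp2_sw_sw (e : B ≃ₜ B' × J) (p : (A × J) × B) : Grp2_sw e (Grp2_sw e p) = p := by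
  simp [Grp2_sw]

omit [LC A] [LC B] in
theorem Grp2_sw_cont (e : B ≃ₜ B' × J) : Continuous (Grp2_sw (A := A) e) := by
  unfold Grp2_sw
  fun_prop

theorem Grp2_sw_pmap (e : B ≃ₜ B' × J) (γ' : Act S B')
    (he : ∀ g ∈ 𝒢, ∀ b, e (γ g b) = (γ' g (e b).1, (e b).2)) :
    PMap 𝒢 ((α.prod (triv : Act S J)).prod γ) ((α.prod (triv : Act S J)).prod γ) (Grp2_sw e) := by
  refine ⟨proper_of_leftInverse (Grp2_sw_cont e) (Grp2_sw_cont e) (Grp2_sw_sw e), ?_⟩
  intro g hg p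
  refine Prod.ext ?_ ?_
  · simp [Grp2_sw, he g hg]
  · apply e.injective
    simp [Grp2_sw, he g hg]

open Classical in
/-- Evaluation at two real parameters. -/
noncomputable def Grp2_ev (e : B ≃ₜ B' × J) (f : BM ((A × J) × B) Y) (a : A) (b : B')
    (s t : ℝ) : OnePoint Y :=
  if h : t ∈ Ioo (0 : ℝ) 1 then ev f a s (e.symm (b, ⟨t, h⟩)) else ∞

omit [LC A] [LC B] [LC Y] in
theorem Grp2_ext (e : B ≃ₜ B' × J) {f g : BM ((A × J) × B) Y}
    (h : ∀ a b s t, Grp2_ev e f a b s t = Grp2_ev e g a b s t) : f = g := by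
  refine BM.ext fun p => ?_
  obtain ⟨⟨a, s⟩, b⟩ := p
  have := h a (e b).1 s (e b).2
  simp only [Grp2_ev, dif_pos (e b).2.2, ev_coe] at this
  simpa using this

omit [LC A] [LC B] [LC Y] in
theorem Grp2_ev_pre (e : B ≃ₜ B' × J) (f : BM ((A × J) × B) Y)
    (hp : IsProperMap (Grp2_sw (A := A) e)) (a : A) (b : B') (s t : ℝ) :
    Grp2_ev e (f.pre _ hp) a b s t = Grp2_ev e f a b t s := by
  by_cases hs : s ∈ Ioo (0 : ℝ) 1 <;> by_cases ht : t ∈ Ioo (0 : ℝ) 1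
  · simp only [Grp2_ev, dif_pos hs, dif_pos ht, ev_of_mem _ _ hs, ev_of_mem _ _ ht, BM.pre_f,
      Grp2_sw, Homeomorph.apply_symm_apply]
  · simp only [Grp2_ev, dif_pos hs, dif_neg ht, ev_of_not _ _ ht]
  · simp only [Grp2_ev, dif_neg hs, dif_pos ht, ev_of_not _ _ hs]
  · simp only [Grp2_ev, dif_neg hs, dif_neg ht]

theorem Grp2_ev_cat (e : B ≃ₜ B' × J) (f g : BM ((A × J) × B) Y) (a : A) (b : B') (s t : ℝ) :
    Grp2_ev e (cat f g) a b s t =
      if s ≤ 1 / 2 then Grp2_ev e f a b (2 * s) t else Grp2_ev e g a b (2 * s - 1) t := by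
  by_cases ht : t ∈ Ioo (0 : ℝ) 1
  · simp only [Grp2_ev, dif_pos ht]
    by_cases hs : s ∈ Ioo (0 : ℝ) 1
    · rw [ev_of_mem _ _ hs, cat_f]
    · rw [ev_of_not _ _ hs]
      split_ifs with h
      · rw [ev_of_not]
        intro h'
        exact hs ⟨by linarith [h'.1], by linarith⟩
      · rw [ev_of_not]
        intro h'
        exact hs ⟨by linarith, by linarith [h'.2]⟩
  · simp only [Grp2_ev, dif_neg ht, ite_self]

/-- The interchange law. -/
theorem Grp2_inter (e : B ≃ₜ B' × J) (hp : IsProperMap (Grp2_sw (A := A) e))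
    (f g k l : BM ((A × J) × B) Y) :
    cat ((cat (f.pre _ hp) (g.pre _ hp)).pre _ hp) ((cat (k.pre _ hp) (l.pre _ hp)).pre _ hp) =
      (cat ((cat f k).pre _ hp) ((cat g l).pre _ hp)).pre _ hp := by
  refine Grp2_ext e fun a b s t => ?_
  simp only [Grp2_ev_cat, Grp2_ev_pre]
  split_ifs <;> rfl

/-- The swap on homotopy classes. -/
def Grp2_T {e : B ≃ₜ B' × J}
    (hp : PMap 𝒢 ((α.prod (triv : Act S J)).prod γ) ((α.prod (triv : Act S J)).prod γ)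
      (Grp2_sw e)) :
    HC 𝒢 ((α.prod (triv : Act S J)).prod γ) β D → HC 𝒢 ((α.prod (triv : Act S J)).prod γ) β D :=
  Quot.map (fun f => ⟨f.1.pre _ hp.proper, f.2.pre hp⟩) (fun _ _ h => h.pre hp)

omit [LC A] [LC B] [LC Y] in
theorem Grp2_T_mk {e : B ≃ₜ B' × J}
    (hp : PMap 𝒢 ((α.prod (triv : Act S J)).prod γ) ((α.prod (triv : Act S J)).prod γ)
      (Grp2_sw e)) {f : BM ((A × J) × B) Y} (hf : Good 𝒢 ((α.prod triv).prod γ) β D f) :
    Grp2_T hp (HC.mk f hf) = HC.mk (f.pre _ hp.proper) (hf.pre hp) := rfl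

omit [LC A] [LC B] [LC Y] in
theorem Grp2_T_T {e : B ≃ₜ B' × J}
    (hp : PMap 𝒢 ((α.prod (triv : Act S J)).prod γ) ((α.prod (triv : Act S J)).prod γ)
      (Grp2_sw e)) (x : HC 𝒢 ((α.prod (triv : Act S J)).prod γ) β D) :
    Grp2_T hp (Grp2_T hp x) = x := by
  obtain ⟨f, hf, rfl⟩ := HC.mk_surj x
  rw [Grp2_T_mk, Grp2_T_mk]
  congr 1
  refine BM.ext fun p => ?_
  rw [BM.pre_f, BM.pre_f, Grp2_sw_sw]

omit [LC A] [LC B] [LC Y] in
theorem Grp2_T_zero {e : B ≃ₜ B' × J}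
    (hp : PMap 𝒢 ((α.prod (triv : Act S J)).prod γ) ((α.prod (triv : Act S J)).prod γ)
      (Grp2_sw e)) : Grp2_T hp (0 : HC 𝒢 ((α.prod (triv : Act S J)).prod γ) β D) = 0 := rfl

theorem Grp2_T_inter {e : B ≃ₜ B' × J}
    (hp : PMap 𝒢 ((α.prod (triv : Act S J)).prod γ) ((α.prod (triv : Act S J)).prod γ)
      (Grp2_sw e)) (x y z w : HC 𝒢 ((α.prod (triv : Act S J)).prod γ) β D) :
    Grp2_T hp (Grp2_T hp x + Grp2_T hp y) + Grp2_T hp (Grp2_T hp z + Grp2_T hp w) =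
      Grp2_T hp (Grp2_T hp (x + z) + Grp2_T hp (y + w)) := by
  obtain ⟨f, hf, rfl⟩ := HC.mk_surj x
  obtain ⟨g, hg, rfl⟩ := HC.mk_surj y
  obtain ⟨k, hk, rfl⟩ := HC.mk_surj z
  obtain ⟨l, hl, rfl⟩ := HC.mk_surj w
  simp only [Grp2_T_mk, HC.mk_add]
  congr 1
  exact Grp2_inter e hp.proper f g k l

end Aux

theorem HC.add_comm_of {B' : Type} [TopologicalSpace B'] [LC B'] (e : B ≃ₜ B' × J)
    (γ' : Act S B') (he : ∀ g ∈ 𝒢, ∀ b, e (γ g b) = (γ' g (e b).1, (e b).2))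
    (x y : HC 𝒢 ((α.prod (triv : Act S J)).prod γ) β D) : x + y = y + x := by
  have hp : PMap 𝒢 ((α.prod (triv : Act S J)).prod γ) ((α.prod (triv : Act S J)).prod γ)
      (Grp2_sw e) := Grp2_sw_pmap e γ' he
  have h1 := Grp2_T_inter hp 0 x y 0
  have h2 := Grp2_T_inter hp y 0 0 x
  simp only [Grp2_T_zero, zero_add, add_zero, Grp2_T_T] at h1 h2
  exact h1.trans h2.symm

end RB
end

-- merged part: Pool.Agent.Work.MP_666b5d_gt.SysG
section
/-!
# The abelian group structure on `E` for sources of the form `A × J`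

Proof hints.  Transitions commute with `cat` and `rev` on the nose (`cat_nat`), so
`cl L (cat f g)` does not change under a transition; two pairs of representatives become homotopic
at a common level (`cl_eq_iff`, `Sys.big`).  The group laws follow from those of `HC` through
`cl_common3` and `clH`.  Commutativity: pass to the level given by `Sys.suc`, where
`B L' ≃ₜ B L × ℂ ≃ₜ (B L × ℝ) × J` (`eC`, `eC_tw`), and use `HC.add_comm_of`.
-/

open Set Filter Topology OnePoint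
open scoped unitInterval

namespace RB

open Act

universe u v

variable {S : Type} {e : S → ℤˣ} {A Y A' Y' : Type} [TopologicalSpace A] [TopologicalSpace Y]
  [TopologicalSpace A'] [TopologicalSpace Y'] [LC A] [LC Y] [LC A'] [LC Y']
  {sy : Sys.{u} S e} {𝒢 ℋ : Set S} {α : Act S A} {β : Act S Y} {d : Y → ℤ} {α' : Act S A'}
  {β' : Act S Y'} {d' : Y' → ℤ}

theorem tr_cat {L L' : sy.Lv} (μ : Tr (sy.B L) (sy.T L) (sy.B L') (sy.T L'))
    (f g : BM ((A × J) × sy.B L) (sy.T L × Y)) : μ.tr (cat f g) = cat (μ.tr f) (μ.tr g) := by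
  refine cat_nat (f := f) (g := g) fun a b => Or.inr ⟨a, μ.a b,
    OnePoint.map fun q => (μ.Ψ (q.1, b), q.2), rfl, fun s => ⟨rfl, rfl, rfl⟩⟩

theorem SysG_tr_rev {L L' : sy.Lv} (μ : Tr (sy.B L) (sy.T L) (sy.B L') (sy.T L'))
    (f : BM ((A × J) × sy.B L) (sy.T L × Y)) : μ.tr (rev f) = rev (μ.tr f) := by
  refine BM.ext fun p => ?_
  obtain ⟨⟨a, s⟩, b⟩ := p
  change (ev f a (1 - s) (μ.a b)).map (fun q => (μ.Ψ (q.1, b), q.2)) = ev (μ.tr f) a (1 - s) b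
  by_cases h : (1 - (s : ℝ)) ∈ Ioo (0 : ℝ) 1
  · rw [ev_of_mem _ _ h, ev_of_mem _ _ h]; rfl
  · rw [ev_of_not _ _ h, ev_of_not _ _ h]; rfl

theorem SysG_cl_cat_tr {L L' : sy.Lv} {μ} (hμ : μ ∈ sy.Mor L L')
    {f g : BM ((A × J) × sy.B L) (sy.T L × Y)} (hf : sy.Gd 𝒢 (α.prod (triv : Act S J)) β d L f)
    (hg : sy.Gd 𝒢 (α.prod (triv : Act S J)) β d L g) :
    cl L (cat f g) (Good.cat hf hg) =
      cl L' (cat (μ.tr f) (μ.tr g)) (Good.cat (gd_tr hμ hf) (gd_tr hμ hg)) := by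
  rw [← cl_tr hμ (Good.cat hf hg)]
  exact cl_congr fun p => by rw [tr_cat]

theorem SysG_cat_congr {L : sy.Lv} {f f' g g' : BM ((A × J) × sy.B L) (sy.T L × Y)}
    {hf : sy.Gd 𝒢 (α.prod (triv : Act S J)) β d L f}
    {hf' : sy.Gd 𝒢 (α.prod (triv : Act S J)) β d L f'}
    {hg : sy.Gd 𝒢 (α.prod (triv : Act S J)) β d L g}
    {hg' : sy.Gd 𝒢 (α.prod (triv : Act S J)) β d L g'}
    (h₁ : cl L f hf = cl L f' hf') (h₂ : cl L g hg = cl L g' hg') :
    cl L (cat f g) (Good.cat hf hg) = cl L (cat f' g') (Good.cat hf' hg') := by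
  have key : cl L (cat f g) (Good.cat hf hg) = cl L (cat f' g) (Good.cat hf' hg) := by
    obtain ⟨L₁, μ, hμ, h⟩ := cl_eq_iff'.1 h₁
    refine cl_eq_iff'.2 ⟨L₁, μ, hμ, ?_⟩
    rw [tr_cat, tr_cat]
    exact Ht.cat h (Ht.refl (gd_tr hμ hg))
  rw [key]
  obtain ⟨L₁, μ, hμ, h⟩ := cl_eq_iff'.1 h₂
  refine cl_eq_iff'.2 ⟨L₁, μ, hμ, ?_⟩
  rw [tr_cat, tr_cat]
  exact Ht.cat (Ht.refl (gd_tr hμ hf')) h

theorem exists_add (x y : E sy 𝒢 (α.prod (triv : Act S J)) β d) :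
    ∃ z : E sy 𝒢 (α.prod (triv : Act S J)) β d, ∀ L f g hf hg, x = cl L f hf → y = cl L g hg →
      z = cl L (cat f g) (Good.cat hf hg) := by
  obtain ⟨L₀, f₀, g₀, hf₀, hg₀, rfl, rfl⟩ := cl_common x y
  refine ⟨cl L₀ (cat f₀ g₀) (Good.cat hf₀ hg₀), fun L f g hf hg hx hy => ?_⟩
  obtain ⟨L₁, ⟨μ₀, hμ₀⟩, ⟨μ, hμ⟩⟩ := Sys.dir (sy := sy) L₀ L
  rw [SysG_cl_cat_tr hμ₀ hf₀ hg₀, SysG_cl_cat_tr hμ hf hg]
  exact SysG_cat_congr ((cl_tr hμ₀ hf₀).trans (hx.trans (cl_tr hμ hf).symm))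
    ((cl_tr hμ₀ hg₀).trans (hy.trans (cl_tr hμ hg).symm))

theorem exists_neg (x : E sy 𝒢 (α.prod (triv : Act S J)) β d) :
    ∃ z : E sy 𝒢 (α.prod (triv : Act S J)) β d, ∀ L f hf, x = cl L f hf →
      z = cl L (rev f) (Good.rev hf) := by
  obtain ⟨L₀, f₀, hf₀, rfl⟩ := cl_surj x
  refine ⟨cl L₀ (rev f₀) (Good.rev hf₀), fun L f hf hx => ?_⟩
  obtain ⟨L₁, μ, hμ, ν, hν, h⟩ := cl_eq_iff.1 hx
  refine cl_eq_iff.2 ⟨L₁, μ, hμ, ν, hν, ?_⟩
  rw [SysG_tr_rev, SysG_tr_rev]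
  exact Ht.rev h

noncomputable instance : Add (E sy 𝒢 (α.prod (triv : Act S J)) β d) :=
  ⟨fun x y => (exists_add x y).choose⟩

noncomputable instance : Neg (E sy 𝒢 (α.prod (triv : Act S J)) β d) :=
  ⟨fun x => (exists_neg x).choose⟩

theorem cl_add (L : sy.Lv) (f g) (hf : sy.Gd 𝒢 (α.prod (triv : Act S J)) β d L f)
    (hg : sy.Gd 𝒢 (α.prod (triv : Act S J)) β d L g) :
    cl L f hf + cl L g hg = cl L (cat f g) (Good.cat hf hg) :=
  (exists_add _ _).choose_spec L f g hf hg rfl rfl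

theorem cl_neg (L : sy.Lv) (f) (hf : sy.Gd 𝒢 (α.prod (triv : Act S J)) β d L f) :
    - cl L f hf = cl L (rev f) (Good.rev hf) :=
  (exists_neg _).choose_spec L f hf rfl

theorem SysG_add_comm (x y : E sy 𝒢 (α.prod (triv : Act S J)) β d) : x + y = y + x := by
  obtain ⟨L, f, g, hf, hg, rfl, rfl⟩ := cl_common x y
  obtain ⟨L', μ, hμ, c, Ψ, hc, -⟩ := sy.suc L
  rw [← cl_tr hμ hf, ← cl_tr hμ hg, cl_add, cl_add]
  let E₁ : sy.B L' ≃ₜ (sy.B L × ℝ) × J :=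
    c.trans (((Homeomorph.refl (sy.B L)).prodCongr eC).trans (Homeomorph.prodAssoc _ _ _).symm)
  have hE : ∀ b, E₁ b = (((c b).1, (eC (c b).2).1), (eC (c b).2).2) := fun b => rfl
  have := HC.add_comm_of (𝒢 := 𝒢) (α := α) (γ := sy.bα L') (β := (sy.tα L').prod β)
    (D := sy.D L' d) E₁ ((sy.bα L).prod (via e sg))
    (fun g _ b => by
      rw [hE, hE, hc]
      simp only [eC_tw, prod_apply, via_apply])
    (HC.mk (μ.tr f) (gd_tr hμ hf)) (HC.mk (μ.tr g) (gd_tr hμ hg))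
  exact congrArg (clH L') this

noncomputable instance : AddCommGroup (E sy 𝒢 (α.prod (triv : Act S J)) β d) :=
  { AddGroup.ofLeftAxioms (G := E sy 𝒢 (α.prod (triv : Act S J)) β d)
      (by
        intro x y z
        obtain ⟨L, f, g, k, hf, hg, hk, rfl, rfl, rfl⟩ := cl_common3 x y z
        rw [cl_add, cl_add, cl_add, cl_add]
        exact congrArg (clH L) (add_assoc (HC.mk f hf) (HC.mk g hg) (HC.mk k hk))) (by
        intro x
        obtain ⟨L, f, hf, rfl⟩ := cl_surj x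
        rw [← cl_zero L, cl_add]
        exact congrArg (clH L) (zero_add (HC.mk f hf))) (by
        intro x
        obtain ⟨L, f, hf, rfl⟩ := cl_surj x
        rw [cl_neg, cl_add, ← cl_zero L]
        exact congrArg (clH L) (neg_add_cancel (HC.mk f hf))) with
    add_comm := by
      intro x y
      exact SysG_add_comm x y }

/-- The class map at a level as a homomorphism. -/
noncomputable def clHom (L : sy.Lv) :
    HC 𝒢 ((α.prod (triv : Act S J)).prod (sy.bα L)) ((sy.tα L).prod β) (sy.D L d) →+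
      E sy 𝒢 (α.prod (triv : Act S J)) β d :=
  AddMonoidHom.mk' (clH L) (by
    intro x y
    obtain ⟨f, hf, rfl⟩ := HC.mk_surj x
    obtain ⟨g, hg, rfl⟩ := HC.mk_surj y
    exact (cl_add L f g hf hg).symm)

theorem clHom_mk (L : sy.Lv) (f) (hf : sy.Gd 𝒢 (α.prod (triv : Act S J)) β d L f) :
    clHom L (HC.mk f hf) = cl L f hf := rfl

/-- An operation that commutes with concatenation is additive. -/
theorem E.lift_add {S' : Type} {e' : S' → ℤˣ} {sy' : Sys.{v} S' e'} {𝒢' : Set S'} {α' : Act S' A'}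
    {β' : Act S' Y'} {φ : sy.Lv → sy'.Lv}
    {op : ∀ L, BM ((A × J) × sy.B L) (sy.T L × Y) →
      BM ((A' × J) × sy'.B (φ L)) (sy'.T (φ L) × Y')} {hg hh hm}
    (hc : ∀ L f g, op L (cat f g) = cat (op L f) (op L g))
    (x y : E sy 𝒢 (α.prod (triv : Act S J)) β d) :
    E.lift (𝒢' := 𝒢') (α' := α'.prod (triv : Act S' J)) (β' := β') (d' := d') φ op hg hh hm (x + y)
      = E.lift φ op hg hh hm x + E.lift φ op hg hh hm y := by
  obtain ⟨L, f, g, hf, hg', rfl, rfl⟩ := cl_common x y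
  rw [cl_add]
  change cl (φ L) (op L (cat f g)) (hg L _ (Good.cat hf hg')) =
    cl (φ L) (op L f) (hg L f hf) + cl (φ L) (op L g) (hg L g hg')
  rw [cl_add]
  exact cl_congr fun p => by rw [hc]

theorem pull_add {h : A' → A} (hh : PMap 𝒢 α' α h) (x y : E sy 𝒢 (α.prod (triv : Act S J)) β d) :
    pull (hh.prodR triv) (x + y) = pull (hh.prodR triv) x + pull (hh.prodR triv) y := by
  refine E.lift_add (fun L f g => ?_) x y
  exact cat_nat (f := f) (g := g) fun a b => Or.inr ⟨h a, b, id, rfl, fun s => ⟨rfl, rfl, rfl⟩⟩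

theorem push_add {j : A' → A} (hj : OEmb 𝒢 α' α j) (x y : E sy 𝒢 (α'.prod (triv : Act S J)) β d) :
    push (hj.prodR triv) (x + y) = push (hj.prodR triv) x + push (hj.prodR triv) y := by
  refine E.lift_add (fun L f g => ?_) x y
  refine cat_nat (f := f) (g := g) fun a b => ?_
  by_cases ha : a ∈ range j
  · obtain ⟨u, rfl⟩ := ha
    refine Or.inr ⟨u, b, id, rfl, fun s => ⟨?_, ?_, ?_⟩⟩
    · exact BM.ext0_j f _ _ ((u, s), b)
    · exact BM.ext0_j g _ _ ((u, s), b)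
    · exact BM.ext0_j (cat f g) _ _ ((u, s), b)
  · have hn : ∀ s : J, (((a, s), b) : (A × J) × sy.B L) ∉
        range (Prod.map (Prod.map j (id : J → J)) (id : sy.B L → sy.B L)) := by
      rintro s ⟨⟨⟨u, s'⟩, b'⟩, hu⟩
      exact ha ⟨u, congrArg (fun p => p.1.1) hu⟩
    exact Or.inl fun s => ⟨BM.ext0_not f _ _ (hn s), BM.ext0_not g _ _ (hn s),
      BM.ext0_not (cat f g) _ _ (hn s)⟩

theorem postP_add {h : Y → Y'} (hh : PMap 𝒢 β β' h) (hd : ∀ y, d' (h y) = d y)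
    (x y : E sy 𝒢 (α.prod (triv : Act S J)) β d) :
    postP hh hd (x + y) = postP hh hd x + postP hh hd y := by
  refine E.lift_add (fun L f g => ?_) x y
  exact cat_nat (f := f) (g := g) fun a b => Or.inr ⟨a, b, OnePoint.map (Prod.map id h), rfl,
    fun s => ⟨rfl, rfl, rfl⟩⟩

theorem postC_add {j : Y' → Y} (hj : OEmb 𝒢 β' β j) (hd : ∀ y, d' y = d (j y))
    (x y : E sy 𝒢 (α.prod (triv : Act S J)) β d) :
    postC hj hd (x + y) = postC hj hd x + postC hj hd y := by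
  refine E.lift_add (fun L f g => ?_) x y
  exact cat_nat (f := f) (g := g) fun a b => Or.inr ⟨a, b,
    fun q => ob q ((BM.coll j hj.emb).idProd (sy.T L)).f, rfl, fun s => ⟨rfl, rfl, rfl⟩⟩

theorem res_add (h : ℋ ⊆ 𝒢) (x y : E sy 𝒢 (α.prod (triv : Act S J)) β d) :
    res h (x + y) = res h x + res h y := by
  exact E.lift_add (fun L f g => rfl) x y

end RB
end

-- merged part: Pool.Agent.Work.MP_666b5d_gt.EE
section
/-!
# Operations on Real bordism: absorption, regrouping, Thom isomorphism, Euler classes, inflation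

Proof hints for the compatibility `hm` of `E.lift`: the operation applied to `μ.tr.tr f` is the
transition of the operation applied to `f` along an enlarged morphism, so use `cl_mor`:
`(A, fromBlocks B 0 0 1, fromRows C 0)` for `absb` and `su`, `(fromBlocks A 0 0 1, B, fromCols C 0)` for
`reg`, and the same matrices for `infl` (a morphism that commutes with all of `Gam M` has real
entries, as it commutes with `⟨1, -1⟩`, hence commutes with `Gam M'` for the zero weights).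
-/

open Set Filter Topology Matrix
open scoped unitInterval

namespace RB

open Act

variable {M : Type} [AddCommGroup M] {X Y Y' : Type} [TopologicalSpace X] [TopologicalSpace Y]
  [TopologicalSpace Y'] [LC X] [LC Y] [LC Y'] {𝒢 : Set (Gam M)} {α : Act (Gam M) X}
  {β : Act (Gam M) Y} {β' : Act (Gam M) Y'} {d : Y → ℤ} {d' : Y' → ℤ}
  {ν : Type} [Fintype ν] [DecidableEq ν]

/-! ### Absorption of a bundle over the coefficient space -/

omit [LC Y] [LC Y'] [DecidableEq ν] in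
theorem EE_absP {κ : Type} [Fintype κ] {θ : Y → Ea ν × Y'} (hθ : IsProperMap θ) :
    IsProperMap fun p : Ea κ × Y => (Ea.sum p.1 (θ p.2).1, (θ p.2).2) :=
  (Ea.sum_proper.prodMap isProperMap_id).comp
    ((Homeomorph.prodAssoc (Ea κ) (Ea ν) Y').symm.isProperMap.comp (isProperMap_id.prodMap hθ))

/-- Absorption on representatives. -/
def absB {A κ : Type} [TopologicalSpace A] [Fintype κ] (θ : Y → Ea ν × Y') (hθ : IsProperMap θ)
    (f : BM A (Ea κ × Y)) : BM A (Ea (κ ⊕ ν) × Y') :=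
  f.map (fun p => (Ea.sum p.1 (θ p.2).1, (θ p.2).2)) (EE_absP hθ)

theorem absB_f {A κ : Type} [TopologicalSpace A] [Fintype κ] (θ : Y → Ea ν × Y')
    (hθ : IsProperMap θ) (f : BM A (Ea κ × Y)) (x : A) :
    (absB θ hθ f).f x = (f.f x).map fun p => (Ea.sum p.1 (θ p.2).1, (θ p.2).2) := rfl

omit [LC Y] [LC Y'] [DecidableEq ν] in
theorem EE_absPM {κ : Type} [Fintype κ] (u : κ → M) {ω : ν → M} {θ : Y → Ea ν × Y'}
    (hθ : PMap 𝒢 β ((ea ω).prod β') θ) :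
    PMap 𝒢 ((ea u).prod β) ((ea (Sum.elim u ω)).prod β')
      fun p : Ea κ × Y => (Ea.sum p.1 (θ p.2).1, (θ p.2).2) := by
  refine ⟨EE_absP hθ.proper, fun g hg p => ?_⟩
  simp only [prod_apply, hθ.eqv g hg, Ea.sum_ea]

omit [TopologicalSpace Y] [TopologicalSpace Y'] [LC Y] [LC Y'] in
theorem EE_absD {ω : ν → M} {θ : Y → Ea ν × Y'}
    (hd : ∀ y, (d' (θ y).2 : ℂ) = d y + (θ y).1.1.1.trace) (L : Lv M) :
    ∀ p ∈ (MU M).D L d, (Ea.sum p.1 (θ p.2).1, (θ p.2).2) ∈ (MU M).D (L.addT ω) d' := by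
  intro p hp
  have h1 : p.1.1.1.trace - (Fintype.card L.ι : ℂ) = d p.2 := hp
  change (Ea.sum p.1 (θ p.2).1).1.1.trace - (Fintype.card L.ι : ℂ) = d' (θ p.2).2
  rw [Ea.sum_trace, hd, ← h1]
  ring

section Enlarge

variable {ι κ ι' κ' : Type} [Fintype ι] [DecidableEq ι] [Fintype κ] [DecidableEq κ]
  [Fintype ι'] [DecidableEq ι'] [Fintype κ'] [DecidableEq κ']

/-- Enlarging a morphism in the target. -/
noncomputable def EE_morT (μ : MMor ι κ ι' κ') (ν : Type) [Fintype ν] [DecidableEq ν] :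
    MMor ι (κ ⊕ ν) ι' (κ' ⊕ ν) where
  A := μ.A
  B := fromBlocks μ.B 0 0 1
  C := fromRows μ.C 0
  hA := μ.hA
  hB := by
    simp [fromBlocks_conjTranspose, fromBlocks_multiply, μ.hB]
  hC := by
    simp [conjTranspose_fromRows_eq_fromCols_conjTranspose, fromCols_mul_fromRows, μ.hC]
  hBC := by
    simp [fromBlocks_conjTranspose, fromBlocks_mul_fromRows, μ.hBC]

/-- Enlarging a morphism in the source. -/
noncomputable def EE_morS (μ : MMor ι κ ι' κ') (ν : Type) [Fintype ν] [DecidableEq ν] :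
    MMor (ι ⊕ ν) κ (ι' ⊕ ν) κ' where
  A := fromBlocks μ.A 0 0 1
  B := μ.B
  C := fromCols μ.C 0
  hA := by
    simp [fromBlocks_conjTranspose, fromBlocks_multiply, μ.hA]
  hB := μ.hB
  hC := by
    rw [conjTranspose_fromCols_eq_fromRows_conjTranspose, fromRows_mul_fromCols, μ.hC,
      fromBlocks_conjTranspose, fromBlocks_multiply]
    ext (i | i) (j | j) <;> simp [Matrix.one_apply]
  hBC := by
    simp [mul_fromCols, μ.hBC]

omit [Fintype ν] [DecidableEq ν] [Fintype ι] [DecidableEq ι] [Fintype κ] [DecidableEq κ]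
  [Fintype ι'] [DecidableEq ι'] [Fintype κ'] [DecidableEq κ'] in
theorem EE_mp_blocks (u : κ → M) (u' : κ' → M) (w : ι → M) (w' : ι' → M) (g : Gam M)
    (A : Matrix κ ι ℂ) (B : Matrix κ ι' ℂ) (C : Matrix κ' ι ℂ) (D : Matrix κ' ι' ℂ) :
    mp (Sum.elim u u') (Sum.elim w w') g (fromBlocks A B C D) =
      fromBlocks (mp u w g A) (mp u w' g B) (mp u' w g C) (mp u' w' g D) := by
  ext (i | i) (j | j) <;> rfl

omit [Fintype ν] [DecidableEq ν] [Fintype ι] [DecidableEq ι] [Fintype κ] [DecidableEq κ]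
  [Fintype ι'] [DecidableEq ι'] [Fintype κ'] [DecidableEq κ'] in
theorem EE_mp_rows (u : κ → M) (u' : κ' → M) (w : ι → M) (g : Gam M)
    (A : Matrix κ ι ℂ) (C : Matrix κ' ι ℂ) :
    mp (Sum.elim u u') w g (fromRows A C) = fromRows (mp u w g A) (mp u' w g C) := by
  ext (i | i) j <;> rfl

omit [Fintype ν] [DecidableEq ν] [Fintype ι] [DecidableEq ι] [Fintype κ] [DecidableEq κ]
  [Fintype ι'] [DecidableEq ι'] [Fintype κ'] [DecidableEq κ'] in
theorem EE_mp_cols (u : κ → M) (w : ι → M) (w' : ι' → M) (g : Gam M)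
    (A : Matrix κ ι ℂ) (B : Matrix κ ι' ℂ) :
    mp u (Sum.elim w w') g (fromCols A B) = fromCols (mp u w g A) (mp u w' g B) := by
  ext i (j | j) <;> rfl

variable {w : ι → M} {u : κ → M} {w' : ι' → M} {u' : κ' → M}

omit [DecidableEq κ'] in
theorem EE_morT_inv {μ : MMor ι κ ι' κ'} (h : μ.Inv 𝒢 w u w' u') (ω : ν → M) :
    (EE_morT μ ν).Inv 𝒢 w (Sum.elim u ω) w' (Sum.elim u' ω) := by
  refine ⟨h.hA, fun g hg => ?_, fun g hg => ?_⟩
  · change mp _ _ g (fromBlocks μ.B 0 0 1) = fromBlocks μ.B 0 0 1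
    rw [EE_mp_blocks, h.hB g hg, mp_zero, mp_zero, mp_one]
  · change mp _ _ g (fromRows μ.C 0) = fromRows μ.C 0
    rw [EE_mp_rows, h.hC g hg, mp_zero]

omit [DecidableEq κ'] in
theorem EE_morS_inv {μ : MMor ι κ ι' κ'} (h : μ.Inv 𝒢 w u w' u') (ω : ν → M) :
    (EE_morS μ ν).Inv 𝒢 (Sum.elim w ω) u (Sum.elim w' ω) u' := by
  refine ⟨fun g hg => ?_, h.hB, fun g hg => ?_⟩
  · change mp _ _ g (fromBlocks μ.A 0 0 1) = fromBlocks μ.A 0 0 1
    rw [EE_mp_blocks, h.hA g hg, mp_zero, mp_zero, mp_one]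
  · change mp _ _ g (fromCols μ.C 0) = fromCols μ.C 0
    rw [EE_mp_cols, h.hC g hg, mp_zero]

omit [DecidableEq κ'] in
theorem EE_morT_Ψ (μ : MMor ι κ ι' κ') (q : Ea κ) (r : Ea ν) (v : ι' → ℂ) :
    (EE_morT μ ν).tr.Ψ (Ea.sum q r, v) = Ea.sum (μ.tr.Ψ (q, v)) r := by
  refine Subtype.ext (Prod.ext ?_ ?_)
  · change fromBlocks μ.B 0 0 1 * fromBlocks q.1.1 0 0 r.1.1 * (fromBlocks μ.B 0 0 1)ᴴ +
      fromRows μ.C 0 * (fromRows μ.C 0)ᴴ =
        fromBlocks (μ.B * q.1.1 * μ.Bᴴ + μ.C * μ.Cᴴ) 0 0 r.1.1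
    rw [conjTranspose_fromRows_eq_fromCols_conjTranspose, fromRows_mul_fromCols,
      fromBlocks_conjTranspose, fromBlocks_multiply, fromBlocks_multiply, fromBlocks_add]
    simp
  · change fromBlocks μ.B 0 0 1 *ᵥ Sum.elim q.1.2 r.1.2 + fromRows μ.C 0 *ᵥ v =
      Sum.elim (μ.B *ᵥ q.1.2 + μ.C *ᵥ v) r.1.2
    rw [fromBlocks_mulVec, fromRows_mulVec]
    ext (i | i) <;> simp

omit [DecidableEq κ'] in
theorem EE_morS_Ψ (μ : MMor ι κ ι' κ') (q : Ea κ) (v : ι' ⊕ ν → ℂ) :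
    (EE_morS μ ν).tr.Ψ (q, v) = μ.tr.Ψ (q, v ∘ Sum.inl) := by
  refine Subtype.ext (Prod.ext ?_ ?_)
  · change μ.B * q.1.1 * μ.Bᴴ + fromCols μ.C 0 * (fromCols μ.C (0 : Matrix κ' ν ℂ))ᴴ =
      μ.B * q.1.1 * μ.Bᴴ + μ.C * μ.Cᴴ
    rw [conjTranspose_fromCols_eq_fromRows_conjTranspose, fromCols_mul_fromRows]
    simp
  · change μ.B *ᵥ q.1.2 + fromCols μ.C 0 *ᵥ v = μ.B *ᵥ q.1.2 + μ.C *ᵥ (v ∘ Sum.inl)
    rw [fromCols_mulVec]
    simp

omit [DecidableEq κ'] in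
theorem EE_morS_a (μ : MMor ι κ ι' κ') (v : ι' ⊕ ν → ℂ) :
    (EE_morS μ ν).Aᴴ *ᵥ v = Sum.elim (μ.Aᴴ *ᵥ (v ∘ Sum.inl)) (v ∘ Sum.inr) := by
  change (fromBlocks μ.A 0 0 1)ᴴ *ᵥ v = _
  rw [fromBlocks_conjTranspose, fromBlocks_mulVec]
  simp

omit [DecidableEq κ'] in
theorem EE_inv_mono {μ : MMor ι κ ι' κ'} (h : μ.Inv univ w u w' u') : μ.Inv 𝒢 w u w' u' :=
  ⟨fun g _ => h.hA g trivial, fun g _ => h.hB g trivial, fun g _ => h.hC g trivial⟩

end Enlarge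

theorem gd_abs {ω : ν → M} {θ : Y → Ea ν × Y'} (hθ : PMap 𝒢 β ((ea ω).prod β') θ)
    (hd : ∀ y, (d' (θ y).2 : ℂ) = d y + (θ y).1.1.1.trace) {L : Lv M} {f}
    (hf : (MU M).Gd 𝒢 α β d L f) : (MU M).Gd 𝒢 α β' d' (L.addT ω) (absB θ hθ.proper f) :=
  hf.map (EE_absPM L.u hθ) (EE_absD hd L)

theorem EE_hm_abs {ω : ν → M} {θ : Y → Ea ν × Y'} (hθ : PMap 𝒢 β ((ea ω).prod β') θ)
    (hd : ∀ y, (d' (θ y).2 : ℂ) = d y + (θ y).1.1.1.trace) {L : Lv M} {f g}
    (h : (MU M).Hm 𝒢 α β d L f g) :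
    (MU M).Hm 𝒢 α β' d' (L.addT ω) (absB θ hθ.proper f) (absB θ hθ.proper g) :=
  h.map (EE_absPM L.u hθ) (EE_absD hd L)

/-- Absorption. -/
noncomputable def absb (ω : ν → M) {θ : Y → Ea ν × Y'} (hθ : PMap 𝒢 β ((ea ω).prod β') θ)
    (hd : ∀ y, (d' (θ y).2 : ℂ) = d y + (θ y).1.1.1.trace) : EM 𝒢 α β d → EM 𝒢 α β' d' :=
  E.lift (sy := MU M) (sy' := MU M) (fun L => Lv.addT L ω) (fun _ f => absB θ hθ.proper f)
    (fun _ _ hf => gd_abs hθ hd hf) (fun _ _ _ h => EE_hm_abs hθ hd h) (by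
      rintro L L' _ ⟨μ, hμ, rfl⟩ f hf
      refine cl_mor (L := L.addT ω) (L' := L'.addT ω) (μ := EE_morT μ ν)
        (EE_morT_inv (EE_inv_mono hμ) ω) _ _ fun x v => ?_
      simp only [absB_f, Tr.ap_f, omap_map, EE_morT_Ψ]
      rfl)

theorem absb_cl (ω : ν → M) {θ : Y → Ea ν × Y'} (hθ : PMap 𝒢 β ((ea ω).prod β') θ)
    (hd : ∀ y, (d' (θ y).2 : ℂ) = d y + (θ y).1.1.1.trace) (L : Lv M) (f)
    (hf : (MU M).Gd 𝒢 α β d L f) : absb ω hθ hd (cl (sy := MU M) L f hf) =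
      cl (sy := MU M) (L.addT ω) (absB θ hθ.proper f) (gd_abs hθ hd hf) := rfl

/-! ### Regrouping -/

/-- The regrouping homeomorphism. -/
def EE_regH (X ι ν : Type) [TopologicalSpace X] :
    X × (ι ⊕ ν → ℂ) ≃ₜ (X × (ν → ℂ)) × (ι → ℂ) where
  toFun p := ((p.1, p.2 ∘ Sum.inr), p.2 ∘ Sum.inl)
  invFun p := (p.1.1, Sum.elim p.2 p.1.2)
  left_inv p := Prod.ext rfl (funext fun i => by rcases i with i | i <;> rfl)
  right_inv _ := rfl
  continuous_toFun := by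
    refine (continuous_fst.prodMk ?_).prodMk ?_
    · exact continuous_pi fun i => (continuous_apply _).comp continuous_snd
    · exact continuous_pi fun i => (continuous_apply _).comp continuous_snd
  continuous_invFun := by
    refine continuous_fst.fst.prodMk (continuous_pi fun i => ?_)
    rcases i with i | i
    · exact (continuous_apply i).comp continuous_snd
    · exact (continuous_apply i).comp continuous_fst.snd

/-- Regrouping on representatives. -/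
noncomputable def regB {ι T : Type} [TopologicalSpace T] (f : BM ((X × (ν → ℂ)) × (ι → ℂ)) T) :
    BM (X × (ι ⊕ ν → ℂ)) T :=
  f.pre (fun p => ((p.1, p.2 ∘ Sum.inr), p.2 ∘ Sum.inl)) (EE_regH X ι ν).isProperMap

theorem regB_f {ι T : Type} [TopologicalSpace T] (f : BM ((X × (ν → ℂ)) × (ι → ℂ)) T)
    (p : X × (ι ⊕ ν → ℂ)) : (regB f).f p = f.f ((p.1, p.2 ∘ Sum.inr), p.2 ∘ Sum.inl) := rfl

omit [LC X] [Fintype ν] [DecidableEq ν] in
theorem EE_regPM {ι : Type} (w : ι → M) (ω : ν → M) :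
    PMap 𝒢 (α.prod (rp (Sum.elim w ω))) ((α.prod (rp ω)).prod (rp w))
      fun p : X × (ι ⊕ ν → ℂ) => ((p.1, p.2 ∘ Sum.inr), p.2 ∘ Sum.inl) :=
  ⟨(EE_regH X ι ν).isProperMap, fun _ _ _ => rfl⟩

omit [TopologicalSpace Y] [LC Y] in
theorem EE_regD {ω : ν → M} {d₁ : Y → ℤ} (hd : ∀ y, d₁ y = d y + Fintype.card ν) (L : Lv M) :
    (MU M).D L d₁ ⊆ (MU M).D (L.addS ω) d := by
  intro p hp
  have h1 : p.1.1.1.trace - (Fintype.card L.ι : ℂ) = d₁ p.2 := hp
  change p.1.1.1.trace - (Fintype.card (L.ι ⊕ ν) : ℂ) = d p.2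
  rw [hd] at h1
  rw [Fintype.card_sum]
  push_cast at h1 ⊢
  linear_combination h1

theorem gd_reg {ω : ν → M} {d₁ : Y → ℤ} (hd : ∀ y, d₁ y = d y + Fintype.card ν) {L : Lv M} {f}
    (hf : (MU M).Gd 𝒢 (α.prod (rp ω)) β d₁ L f) : (MU M).Gd 𝒢 α β d (L.addS ω) (regB f) :=
  (hf.pre (EE_regPM L.w ω)).monoD (EE_regD hd L)

/-- Regrouping: the Thom isomorphism. -/
noncomputable def reg (ω : ν → M) {d₁ : Y → ℤ} (hd : ∀ y, d₁ y = d y + Fintype.card ν) :
    EM 𝒢 (α.prod (rp ω)) β d₁ → EM 𝒢 α β d :=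
  E.lift (sy := MU M) (sy' := MU M) (fun L => Lv.addS L ω) (fun _ f => regB f)
    (fun _ _ hf => gd_reg hd hf)
    (fun L _ _ h => (h.pre (EE_regPM L.w ω)).monoD (EE_regD hd L)) (by
      rintro L L' _ ⟨μ, hμ, rfl⟩ f hf
      refine cl_mor (L := L.addS ω) (L' := L'.addS ω) (μ := EE_morS μ ν)
        (EE_morS_inv (EE_inv_mono hμ) ω) _ _ fun x v => ?_
      simp only [regB_f, Tr.ap_f, EE_morS_Ψ, EE_morS_a]
      rfl)

theorem reg_cl (ω : ν → M) {d₁ : Y → ℤ} (hd : ∀ y, d₁ y = d y + Fintype.card ν) (L : Lv M) (f)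
    (hf : (MU M).Gd 𝒢 (α.prod (rp ω)) β d₁ L f) :
    reg ω hd (cl (sy := MU M) L f hf) = cl (sy := MU M) (L.addS ω) (regB f) (gd_reg hd hf) := rfl

/-! ### The inverse Thom isomorphism and Euler classes -/

variable {n n' : ℤ}

omit [LC Y] in
theorem EE_fullP : IsProperMap fun p : Y × (ν → ℂ) => (Ea.full p.2, p.1) :=
  (Ea.full_proper.prodMap isProperMap_id).comp (Homeomorph.prodComm Y (ν → ℂ)).isProperMap

omit [LC X] in
theorem EE_su_eq {B κ : Type} [TopologicalSpace B] [Fintype κ] (ν : Type) [Fintype ν]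
    [DecidableEq ν] (f : BM (X × B) (Ea κ × Y)) :
    (fun p : (X × (ν → ℂ)) × B => (f.f (p.1.1, p.2)).map
      fun q => (Ea.sum q.1 (Ea.full p.1.2), q.2)) = (absB _ EE_fullP (f.sm (ν → ℂ))).f := by
  funext p
  simp only [absB_f, BM.sm, omap_map]

/-- The inverse Thom isomorphism on representatives. -/
def suB {B κ : Type} [TopologicalSpace B] [Fintype κ] (ν : Type) [Fintype ν] [DecidableEq ν]
    (f : BM (X × B) (Ea κ × Y)) : BM ((X × (ν → ℂ)) × B) (Ea (κ ⊕ ν) × Y) :=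
  ⟨fun p => (f.f (p.1.1, p.2)).map fun q => (Ea.sum q.1 (Ea.full p.1.2), q.2),
    by rw [EE_su_eq]; exact BM.cont _, by rw [EE_su_eq]; exact BM.tend _⟩

omit [LC X] in
theorem EE_suB_eq {B κ : Type} [TopologicalSpace B] [Fintype κ] (ν : Type) [Fintype ν]
    [DecidableEq ν] (f : BM (X × B) (Ea κ × Y)) :
    suB ν f = absB _ EE_fullP (f.sm (ν → ℂ)) :=
  BM.ext fun x => congrFun (EE_su_eq ν f) x

omit [LC Y] in
theorem EE_fullPM (ω : ν → M) : PMap 𝒢 (β.prod (rp ω)) ((ea ω).prod β)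
    fun p : Y × (ν → ℂ) => (Ea.full p.2, p.1) :=
  ⟨EE_fullP, fun g _ p => Prod.ext (Ea.full_ea ω g p.2) rfl⟩

theorem EE_hm_su (ω : ν → M) (h : n' = n + Fintype.card ν) {L : Lv M} {f g}
    (hf : (MU M).Hm 𝒢 α (triv : Act (Gam M) Unit) (fun _ => n) L f g) :
    (MU M).Hm 𝒢 (α.prod (rp ω)) (triv : Act (Gam M) Unit) (fun _ => n') (L.addT ω) (suB ν f)
      (suB ν g) := by
  rw [EE_suB_eq, EE_suB_eq]
  refine EE_hm_abs (d := fun _ => n) (EE_fullPM ω) (fun y => ?_)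
    (Sys_hm_sm (sy := MU M) (rp ω) (fun _ _ => rfl) hf)
  rw [Ea.full_trace, h]
  push_cast
  rfl

theorem gd_su (ω : ν → M) (h : n' = n + Fintype.card ν) {L : Lv M} {f}
    (hf : (MU M).Gd 𝒢 α (triv : Act (Gam M) Unit) (fun _ => n) L f) :
    (MU M).Gd 𝒢 (α.prod (rp ω)) (triv : Act (Gam M) Unit) (fun _ => n') (L.addT ω) (suB ν f) :=
  (EE_hm_su ω h (Ht.refl hf)).left

/-- The inverse Thom isomorphism. -/
noncomputable def su (ω : ν → M) (h : n' = n + Fintype.card ν) :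
    E0 𝒢 α n → E0 𝒢 (α.prod (rp ω)) n' :=
  E.lift (sy := MU M) (sy' := MU M) (fun L => Lv.addT L ω) (fun _ f => suB ν f)
    (fun _ _ hf => gd_su ω h hf) (fun _ _ _ hh => EE_hm_su ω h hh) (by
      rintro L L' _ ⟨μ, hμ, rfl⟩ f hf
      refine cl_mor (L := L.addT ω) (L' := L'.addT ω) (μ := EE_morT μ ν)
        (EE_morT_inv (EE_inv_mono hμ) ω) _ _ fun x v => ?_
      simp only [suB, Tr.ap_f, omap_map, EE_morT_Ψ]
      rfl)

theorem su_cl (ω : ν → M) (h : n' = n + Fintype.card ν) (L : Lv M) (f)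
    (hf : (MU M).Gd 𝒢 α (triv : Act (Gam M) Unit) (fun _ => n) L f) :
    su ω h (cl (sy := MU M) L f hf) = cl (sy := MU M) (L.addT ω) (suB ν f) (gd_su ω h hf) := rfl

theorem pmap_euler (ω : ν → M) : PMap 𝒢 (triv : Act (Gam M) Unit) ((ea ω).prod triv)
    fun y : Unit => (Ea.full (0 : ν → ℂ), y) := by
  refine ⟨(continuous_const.prodMk continuous_id).isProperMap, fun g _ y => Prod.ext ?_ rfl⟩
  change Ea.full 0 = ea ω g (Ea.full 0)
  rw [← Ea.full_ea, rp_zero]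

theorem EE_eulerD (h : n' = n + Fintype.card ν) :
    (n' : ℂ) = n + (Ea.full (0 : ν → ℂ)).1.1.trace := by
  rw [Ea.full_trace, h]
  push_cast
  rfl

/-- Multiplication by the product of the Euler classes of the characters `ω i`. -/
noncomputable def mF (ω : ν → M) (h : n' = n + Fintype.card ν) : E0 𝒢 α n → E0 𝒢 α n' :=
  absb ω (pmap_euler ω) (fun _ => EE_eulerD h)

theorem gd_mF (ω : ν → M) (h : n' = n + Fintype.card ν) {L : Lv M} {f}
    (hf : (MU M).Gd 𝒢 α (triv : Act (Gam M) Unit) (fun _ => n) L f) :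
    (MU M).Gd 𝒢 α (triv : Act (Gam M) Unit) (fun _ => n') (L.addT ω)
      (absB _ (pmap_euler (𝒢 := 𝒢) ω).proper f) :=
  gd_abs (pmap_euler ω) (fun _ => EE_eulerD h) hf

theorem mF_cl (ω : ν → M) (h : n' = n + Fintype.card ν) (L : Lv M) (f)
    (hf : (MU M).Gd 𝒢 α (triv : Act (Gam M) Unit) (fun _ => n) L f) :
    mF ω h (cl (sy := MU M) L f hf) = cl (sy := MU M) (L.addT ω)
      (absB _ (pmap_euler (𝒢 := 𝒢) ω).proper f) (gd_mF ω h hf) := rfl

theorem deg_unit (h : n' = n + 1) : n' = n + Fintype.card Unit := by simpa using h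

/-- Multiplication by one Euler class. -/
noncomputable def m1 (w : M) (h : n' = n + 1) : E0 𝒢 α n → E0 𝒢 α n' :=
  mF (fun _ : Unit => w) (deg_unit h)

theorem pmap_unit (α : Act (Gam M) X) (w : M) : PMap 𝒢 (α.prod (cw w))
    (α.prod (rp fun _ : Unit => w)) fun p : X × ℂ => (p.1, fun _ => p.2) :=
  ⟨isProperMap_id.prodMap (Homeomorph.funUnique Unit ℂ).symm.isProperMap, fun _ _ _ => rfl⟩

/-- The inverse Thom isomorphism for one character. -/
noncomputable def su1 (w : M) (h : n' = n + 1) (x : E0 𝒢 α n) : E0 𝒢 (α.prod (cw w)) n' :=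
  pull (pmap_unit α w) (su (fun _ : Unit => w) (deg_unit h) x)

theorem pmap_swapJ {Z : Type} [TopologicalSpace Z] (α : Act (Gam M) X) (γ : Act (Gam M) Z) :
    PMap 𝒢 ((α.prod γ).prod (triv : Act (Gam M) J)) ((α.prod triv).prod γ)
      fun p : (X × Z) × J => ((p.1.1, p.2), p.1.2) :=
  ⟨(Sys_swap X Z J).isProperMap, fun _ _ _ => rfl⟩

/-- The inverse Thom isomorphism for one character, keeping the group coordinate last. -/
noncomputable def suJ (w : M) (h : n' = n + 1) (x : E0 𝒢 (α.prod (triv : Act (Gam M) J)) n) :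
    E0 𝒢 ((α.prod (cw w)).prod (triv : Act (Gam M) J)) n' :=
  pull (pmap_swapJ α (cw w)) (su1 w h x)

theorem pmap_eC (α : Act (Gam M) X) :
    PMap 𝒢 ((α.prod (sa sg)).prod (triv : Act (Gam M) J)) (α.prod (cw 0))
      fun p : (X × ℝ) × J => (p.1.1, eC.symm (p.1.2, p.2)) := by
  refine ⟨(isProperMap_id.prodMap eC.symm.isProperMap).comp
    (Homeomorph.prodAssoc X ℝ J).isProperMap, fun g _ p => Prod.ext rfl ?_⟩
  change eC.symm (sg g.e p.1.2, p.2) = ch g 0 * tw g.e (eC.symm (p.1.2, p.2))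
  rw [ch_zero, one_mul]
  apply eC.injective
  rw [eC_tw, eC.apply_symm_apply, eC.apply_symm_apply]

/-- Suspension by the sign representation and a trivial line. -/
noncomputable def sJ (h : n' = n + 1) (x : E0 𝒢 α n) :
    E0 𝒢 ((α.prod (sa sg)).prod (triv : Act (Gam M) J)) n' :=
  pull (pmap_eC α) (su1 0 h x)

/-! ### Inflation -/

variable {M' : Type} [AddCommGroup M']

/-- `ℋ` acts through the sign, and every element of `𝒢` acts on `X` and `Y` like an element of `ℋ`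
with the same sign. -/
structure Infl (ℋ : Set (Gam M)) (𝒢 : Set (Gam M')) (α : Act (Gam M) X) (α' : Act (Gam M') X)
    (β : Act (Gam M) Y) (β' : Act (Gam M') Y) : Prop where
  small : ∀ h ∈ ℋ, h.a = 1
  dom : ∀ g ∈ 𝒢, ∃ h ∈ ℋ, h.e = g.e ∧ α' g = α h ∧ β' g = β h

variable {ℋ : Set (Gam M)} {𝒦 : Set (Gam M')} {α₁ : Act (Gam M') X} {β₁ : Act (Gam M') Y}

theorem EE_good_dom {S S' A T : Type} [TopologicalSpace A] [TopologicalSpace T] {ℋ : Set S}
    {𝒦 : Set S'} {a : Act S A} {t : Act S T} {a' : Act S' A} {t' : Act S' T} {D : Set T}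
    (h : ∀ g ∈ 𝒦, ∃ k ∈ ℋ, a' g = a k ∧ t' g = t k) {f : BM A T} (hf : Good ℋ a t D f) :
    Good 𝒦 a' t' D f := by
  refine ⟨fun g hg x => ?_, hf.mem⟩
  obtain ⟨k, hk, h1, h2⟩ := h g hg
  rw [h1, h2, hf.eqv k hk]

theorem EE_ht_dom {S S' A T : Type} [TopologicalSpace A] [TopologicalSpace T] {ℋ : Set S}
    {𝒦 : Set S'} {a : Act S A} {t : Act S T} {a' : Act S' A} {t' : Act S' T} {D : Set T}
    (h : ∀ g ∈ 𝒦, ∃ k ∈ ℋ, a' g = a k ∧ t' g = t k) {f f' : BM A T} (hf : Ht ℋ a t D f f') :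
    Ht 𝒦 a' t' D f f' := by
  obtain ⟨H, hH, h0, h1⟩ := hf
  refine ⟨H, EE_good_dom (fun g hg => ?_) hH, h0, h1⟩
  obtain ⟨k, hk, e1, e2⟩ := h g hg
  exact ⟨k, hk, funext fun p => Prod.ext (congrFun e1 p.1) rfl, e2⟩

theorem EE_ch_small {k : Gam M} (hk : k.a = 1) (w : M) : ch k w = 1 := by
  rw [ch_eq_one, hk]
  rfl

theorem EE_rp_inf {ι : Type} (w : ι → M) {k : Gam M} {g : Gam M'} (hk : k.a = 1)
    (he : k.e = g.e) : rp (0 : ι → M') g = rp w k := by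
  funext v i
  change ch g 0 * tw g.e (v i) = ch k (w i) * tw k.e (v i)
  rw [ch_zero, EE_ch_small hk, he]

theorem EE_mp_inf {ι κ : Type} (u : κ → M) (w : ι → M) {k : Gam M} {g : Gam M'} (hk : k.a = 1)
    (he : k.e = g.e) (A : Matrix κ ι ℂ) : mp (0 : κ → M') (0 : ι → M') g A = mp u w k A := by
  ext i j
  change ch g (0 - 0) * tw g.e (A i j) = ch k (u i - w j) * tw k.e (A i j)
  rw [sub_zero, ch_zero, EE_ch_small hk, he]

theorem EE_ea_inf {κ : Type} [Fintype κ] (u : κ → M) {k : Gam M} {g : Gam M'} (hk : k.a = 1)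
    (he : k.e = g.e) : ea (0 : κ → M') g = ea u k :=
  funext fun q => Subtype.ext (Prod.ext (EE_mp_inf u u hk he q.1.1)
    (congrFun (EE_rp_inf u hk he) q.1.2))

omit [TopologicalSpace X] [TopologicalSpace Y] [LC X] [LC Y] in
theorem EE_inf_dom (h : Infl ℋ 𝒦 α α₁ β β₁) (L : Lv M) : ∀ g ∈ 𝒦, ∃ k ∈ ℋ,
    α₁.prod (rp (0 : L.ι → M')) g = α.prod (rp L.w) k ∧
      (ea (0 : L.κ → M')).prod β₁ g = (ea L.u).prod β k := by
  intro g hg
  obtain ⟨k, hk, he, h1, h2⟩ := h.dom g hg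
  exact ⟨k, hk,
    funext fun p => Prod.ext (congrFun h1 p.1) (congrFun (EE_rp_inf L.w (h.small k hk) he) p.2),
    funext fun p => Prod.ext (congrFun (EE_ea_inf L.u (h.small k hk) he) p.1) (congrFun h2 p.2)⟩

omit [TopologicalSpace X] [TopologicalSpace Y] [LC X] [LC Y] in
theorem EE_minv_inf (h : Infl ℋ 𝒦 α α₁ β β₁) {ι κ : Type} {u : κ → M} {w : ι → M}
    {A : Matrix κ ι ℂ} (hA : MInv univ u w A) : MInv 𝒦 (0 : κ → M') (0 : ι → M') A := by
  intro g hg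
  obtain ⟨k, hk, he, -⟩ := h.dom g hg
  rw [EE_mp_inf u w (h.small k hk) he, hA k trivial]

theorem gd_inf (h : Infl ℋ 𝒦 α α₁ β β₁) {L : Lv M} {f} (hf : (MU M).Gd ℋ α β d L f) :
    (MU M').Gd 𝒦 α₁ β₁ d (L.zero M') f :=
  EE_good_dom (EE_inf_dom h L) hf

/-- Inflation. -/
noncomputable def infl (h : Infl ℋ 𝒦 α α₁ β β₁) : EM ℋ α β d → EM 𝒦 α₁ β₁ d :=
  E.lift (sy := MU M) (sy' := MU M') (fun L => Lv.zero L M') (fun _ f => f)
    (fun _ _ hf => gd_inf h hf) (fun L _ _ hh => EE_ht_dom (EE_inf_dom h L) hh) (by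
      rintro L L' _ ⟨μ, hμ, rfl⟩ f hf
      exact cl_mor (L := L.zero M') (L' := L'.zero M') (μ := μ)
        ⟨EE_minv_inf h hμ.hA, EE_minv_inf h hμ.hB, EE_minv_inf h hμ.hC⟩ _ _ fun _ _ => rfl)

theorem infl_cl (h : Infl ℋ 𝒦 α α₁ β β₁) (L : Lv M) (f) (hf : (MU M).Gd ℋ α β d L f) :
    infl h (cl (sy := MU M) L f hf) = cl (sy := MU M') (L.zero M') f (gd_inf h hf) := rfl

end RB
end

-- merged part: Pool.Agent.Work.MP_666b5d_gt.EE2
section
/-!
# The Thom isomorphism and formal properties of Euler classes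

Proof hints.  `reg_su` is `cl_stab`.  `su_reg`: for `f` on `(X × ℂ^ν) × ℂ^ι` compare, at the level
`(ι ⊕ ν, κ ⊕ ν)` over `X × ℂ^ν`, the stabilisation `((x, z), v) ↦ f ((x, z), v₁) ⊕ (1, v₂)` and
`((x, z), v) ↦ f ((x, v₂), v₁) ⊕ (1, z)`.  The rotation
`f ((x, c z + s v₂), v₁) ⊕ (1, c v₂ - s z)` (a `Fam` with `B = fromRows 1 0`, then `Tr.prodY`,
`Tr.ht_path`) ends in `f ((x, v₂), v₁) ⊕ (1, - z)`; correct the sign with `cl_mor` for the morphism
`(1, fromBlocks 1 0 0 (-1), 0)`.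
`lemF`: `cl f = reg y` for `y` the class of `f` regrouped, so `y = su (cl f)`, and pull back along
the zero section.  The commutation rules follow from the `*_cl` lemmas, `cl_congr` and `cl_reidx`
(with `Ea.ext0_eq`).
-/

open Set Filter Topology Matrix
open scoped unitInterval

namespace RB

open Act

variable {M : Type} [AddCommGroup M] {X X' U Y Y' : Type} [TopologicalSpace X] [TopologicalSpace X']
  [TopologicalSpace U] [TopologicalSpace Y] [TopologicalSpace Y'] [LC X] [LC X'] [LC U] [LC Y]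
  [LC Y'] {𝒢 ℋ : Set (Gam M)} {α : Act (Gam M) X} {α' : Act (Gam M) X'} {αU : Act (Gam M) U}
  {β : Act (Gam M) Y} {β' : Act (Gam M) Y'} {d : Y → ℤ} {d' : Y' → ℤ}
  {ν ν' : Type} [Fintype ν] [DecidableEq ν] [Fintype ν'] [DecidableEq ν'] {n n' n₁ n₂ : ℤ}

@[simp] theorem absb_zero (ω : ν → M) {θ : Y → Ea ν × Y'} (hθ : PMap 𝒢 β ((ea ω).prod β') θ)
    (hd : ∀ y, (d' (θ y).2 : ℂ) = d y + (θ y).1.1.1.trace) :
    absb ω hθ hd (0 : EM 𝒢 α β d) = 0 := by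
  exact E.lift_zero fun _ => BM.ext fun _ => rfl

@[simp] theorem reg_zero (ω : ν → M) {d₁ : Y → ℤ} (hd : ∀ y, d₁ y = d y + Fintype.card ν) :
    reg ω hd (0 : EM 𝒢 (α.prod (rp ω)) β d₁) = 0 := by
  exact E.lift_zero fun _ => BM.ext fun _ => rfl

@[simp] theorem su_zero (ω : ν → M) (h : n' = n + Fintype.card ν) :
    su ω h (0 : E0 𝒢 α n) = 0 := by
  exact E.lift_zero fun _ => BM.ext fun _ => rfl

@[simp] theorem mF_zero (ω : ν → M) (h : n' = n + Fintype.card ν) :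
    mF ω h (0 : E0 𝒢 α n) = 0 := by
  exact absb_zero _ _ _

@[simp] theorem m1_zero (w : M) (h : n' = n + 1) : m1 w h (0 : E0 𝒢 α n) = 0 := by
  exact mF_zero _ _

@[simp] theorem su1_zero (w : M) (h : n' = n + 1) : su1 w h (0 : E0 𝒢 α n) = 0 := by
  rw [su1, su_zero, pull_zero]

theorem reg_su (ω : ν → M) (h : n' = n + Fintype.card ν) (x : E0 𝒢 α n) :
    reg ω (fun _ => h) (su ω h x) = x := by
  obtain ⟨L, f, hf, rfl⟩ := cl_surj x
  rw [su_cl, reg_cl]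
  exact cl_stab L ω hf _ fun _ _ => rfl

/-- The morphism with the opposite complement. -/
noncomputable def EE2_neg {ι κ ι' κ' : Type} [Fintype ι] [DecidableEq ι] [Fintype κ]
    [DecidableEq κ] [Fintype ι'] [DecidableEq ι'] [Fintype κ'] (μ : MMor ι κ ι' κ') :
    MMor ι κ ι' κ' where
  A := μ.A
  B := μ.B
  C := -μ.C
  hA := μ.hA
  hB := μ.hB
  hC := by rw [conjTranspose_neg, Matrix.neg_mul, Matrix.mul_neg, neg_neg, μ.hC]
  hBC := by rw [Matrix.mul_neg, μ.hBC, neg_zero]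

theorem EE2_neg_Ψ {ι κ ι' κ' : Type} [Fintype ι] [DecidableEq ι] [Fintype κ]
    [DecidableEq κ] [Fintype ι'] [DecidableEq ι'] [Fintype κ'] (μ : MMor ι κ ι' κ') (q : Ea κ)
    (v : ι' → ℂ) : (EE2_neg μ).tr.Ψ (q, v) = μ.tr.Ψ (q, -v) := by
  refine Subtype.ext (Prod.ext ?_ ?_)
  · change μ.B * q.1.1 * μ.Bᴴ + -μ.C * (-μ.C)ᴴ = μ.B * q.1.1 * μ.Bᴴ + μ.C * μ.Cᴴ
    rw [conjTranspose_neg, Matrix.neg_mul, Matrix.mul_neg, neg_neg]
  · change μ.B *ᵥ q.1.2 + (-μ.C) *ᵥ v = μ.B *ᵥ q.1.2 + μ.C *ᵥ (-v)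
    rw [neg_mulVec, mulVec_neg]

/-- The rotation that exchanges the two copies of the representation. -/
def EE2_rot {X ι ν : Type} (c s : ℝ) (p : (X × (ν → ℂ)) × (ι ⊕ ν → ℂ)) :
    (X × (ν → ℂ)) × (ι ⊕ ν → ℂ) :=
  ((p.1.1, fun i => c * p.1.2 i - s * p.2 (Sum.inr i)),
    Sum.elim (fun i => p.2 (Sum.inl i)) fun i => s * p.1.2 i + c * p.2 (Sum.inr i))

theorem EE2_rot_inv {X ι ν : Type} {c s : ℝ} (h : (c : ℂ) ^ 2 + (s : ℂ) ^ 2 = 1)
    (p : (X × (ν → ℂ)) × (ι ⊕ ν → ℂ)) : EE2_rot c (-s) (EE2_rot c s p) = p := by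
  refine Prod.ext (Prod.ext rfl (funext fun i => ?_)) (funext fun i => ?_)
  · simp only [EE2_rot, Sum.elim_inr, Complex.ofReal_neg]
    linear_combination p.1.2 i * h
  · rcases i with i | i
    · rfl
    · simp only [EE2_rot, Sum.elim_inr, Complex.ofReal_neg]
      linear_combination p.2 (Sum.inr i) * h

theorem EE2_rot_cont {X ι ν : Type} [TopologicalSpace X] {c s : I → ℝ} (hc : Continuous c)
    (hs : Continuous s) : Continuous fun p : ((X × (ν → ℂ)) × (ι ⊕ ν → ℂ)) × I =>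
      (EE2_rot (c p.2) (s p.2) p.1, p.2) := by
  refine Continuous.prodMk (Continuous.prodMk (Continuous.prodMk (by fun_prop) ?_)
    (continuous_pi fun i => ?_)) continuous_snd
  · fun_prop
  · rcases i with i | i
    · exact (continuous_apply _).comp continuous_fst.snd
    · simp only [Sum.elim_inr]
      fun_prop

omit [LC X] [Fintype ν] [DecidableEq ν] in
theorem EE2_rot_pmap [T2Space X] {ι : Type} (w : ι → M) (ω : ν → M) {c s : I → ℝ}
    (hc : Continuous c) (hs : Continuous s) (h : ∀ t, (c t : ℂ) ^ 2 + (s t : ℂ) ^ 2 = 1) :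
    PMap 𝒢 (((α.prod (rp ω)).prod (rp (Sum.elim w ω))).prod (triv : Act (Gam M) I))
      ((α.prod (rp ω)).prod (rp (Sum.elim w ω))) fun p => EE2_rot (c p.2) (s p.2) p.1 := by
  refine ⟨proper_fst.comp (proper_of_leftInverse (EE2_rot_cont hc hs) (EE2_rot_cont hc hs.neg)
    fun p => Prod.ext (EE2_rot_inv (h p.2) p.1) rfl), fun g _ p => ?_⟩
  refine Prod.ext (Prod.ext rfl (funext fun i => ?_)) (funext fun i => ?_)
  · simp only [EE2_rot, prod_apply, triv_apply, rp, Sum.elim_inr, ← twR_apply, map_sub, map_mul]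
    simp only [twR_apply, Gam_tw_real]
    ring
  · rcases i with i | i
    · rfl
    · simp only [EE2_rot, prod_apply, triv_apply, rp, Sum.elim_inr, ← twR_apply, map_add, map_mul]
      simp only [twR_apply, Gam_tw_real]
      ring

theorem su_reg (ω : ν → M) (h : n' = n + Fintype.card ν) (y : E0 𝒢 (α.prod (rp ω)) n') :
    su ω h (reg ω (fun _ => h) y) = y := by
  obtain ⟨L, f, hf, rfl⟩ := cl_surj y
  rw [reg_cl, su_cl]
  have hμ : (EE2_neg (MU_stab L.ι L.κ ν)).Inv 𝒢 L.w L.u (L.stab ω).w (L.stab ω).u :=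
    have h1 := EE_inv_mono (𝒢 := 𝒢) (MU_stab_inv L.w L.u ω)
    ⟨h1.hA, h1.hB, Mor_inv_neg h1.hC⟩
  have hP := EE2_rot_pmap (𝒢 := 𝒢) (α := α) L.w ω (c := fun t => Real.cos (Real.pi / 2 * t))
    (s := fun t => Real.sin (Real.pi / 2 * t)) (by fun_prop) (by fun_prop) fun t => by
      exact_mod_cast Real.cos_sq_add_sin_sq (Real.pi / 2 * t)
  have hH : (MU M).Hm 𝒢 (α.prod (rp ω)) triv (fun _ => n') (L.stab ω) (suB ν (regB f))
      ((EE2_neg (MU_stab L.ι L.κ ν)).tr.tr f) := by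
    refine Ht.of_pre (gd_su ω h (gd_reg (fun _ => h) hf)) hP (fun p => ?_) fun p => ?_
    · refine congrArg _ (Prod.ext (Prod.ext rfl (funext fun i => ?_)) (funext fun i => ?_))
      · simp [EE2_rot]
      · rcases i with i | i
        · rfl
        · simp [EE2_rot]
    · have e : EE2_rot (Real.cos (Real.pi / 2 * (1 : I))) (Real.sin (Real.pi / 2 * (1 : I))) p =
          ((p.1.1, (-p.2) ∘ Sum.inr), Sum.elim (p.2 ∘ Sum.inl) p.1.2) := by
        refine Prod.ext (Prod.ext rfl (funext fun i => ?_)) (funext fun i => ?_)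
        · simp [EE2_rot]
        · rcases i with i | i
          · rfl
          · simp [EE2_rot]
      change _ = (suB ν (regB f)).f (EE2_rot _ _ p)
      rw [e]
      change (f.f (p.1, (MU_stab L.ι L.κ ν).Aᴴ *ᵥ p.2)).map
        (fun q => ((EE2_neg (MU_stab L.ι L.κ ν)).tr.Ψ (q.1, p.2), q.2)) = _
      simp only [MU_stab_a, EE2_neg_Ψ, MU_stab_Ψ]
      rfl
  exact (cl_htpy hH).trans (cl_mor (L' := L.stab ω) hμ hf _ fun _ _ => rfl)

omit [LC X] in
theorem EE2_pmap_unit (α : Act (Gam M) X) (w : M) : PMap 𝒢 (α.prod (rp fun _ : Unit => w))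
    (α.prod (cw w)) fun p : X × (Unit → ℂ) => (p.1, p.2 ()) :=
  ⟨isProperMap_id.prodMap (Homeomorph.funUnique Unit ℂ).isProperMap, fun _ _ _ => rfl⟩

theorem su1_inj (w : M) (h : n' = n + 1) {x y : E0 𝒢 α n} (he : su1 w h x = su1 w h y) :
    x = y := by
  have h1 := congrArg (pull (EE2_pmap_unit α w)) he
  rw [su1, su1, pull_inv _ _ fun _ => rfl, pull_inv _ _ fun _ => rfl] at h1
  rw [← reg_su _ (deg_unit h) x, h1, reg_su]

theorem su1_surj (w : M) (h : n' = n + 1) (y : E0 𝒢 (α.prod (cw w)) n') :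
    ∃ x : E0 𝒢 α n, su1 w h x = y := by
  refine ⟨reg _ (fun _ => deg_unit h) (pull (EE2_pmap_unit α w) y), ?_⟩
  rw [su1, su_reg, pull_inv _ _ fun _ => rfl]

theorem pull_su (ω : ν → M) (h : n' = n + Fintype.card ν)
    (hz : PMap 𝒢 α (α.prod (rp ω)) fun x => (x, 0)) (x : E0 𝒢 α n) :
    pull hz (su ω h x) = mF ω h x := by
  obtain ⟨L, f, hf, rfl⟩ := cl_surj x
  rw [su_cl, pull_cl, mF_cl]
  exact cl_congr fun _ => rfl

theorem pull_su1 (w : M) (h : n' = n + 1) (hz : PMap 𝒢 α (α.prod (cw w)) fun x => (x, 0))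
    (x : E0 𝒢 α n) : pull hz (su1 w h x) = m1 w h x := by
  have hk : PMap 𝒢 α (α.prod (rp fun _ : Unit => w)) fun x => (x, 0) := (pmap_unit α w).comp hz
  rw [su1, pull_pull _ hz hk fun _ => rfl, pull_su, m1]

theorem EE2_ext {κ κ' : Type} [Fintype κ] [Fintype κ'] (b : κ ≃ κ') {q : Ea κ} {q' : Ea κ'}
    (h₁ : ∀ j k, q'.1.1 (b j) (b k) = q.1.1 j k) (h₃ : ∀ j, q'.1.2 (b j) = q.1.2 j) :
    q' = Ea.ext0 b.toEmbedding q :=
  (Ea.ext0_eq b.toEmbedding h₁ (fun j hj => absurd (b.surjective j) hj) h₃).symm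

/-- Restricting a representative to some of the source coordinates multiplies by the Euler classes
of the other coordinates. -/
theorem lemF (L : Lv M) {ι₀ : Type} [Fintype ι₀] [DecidableEq ι₀] (c : ι₀ ⊕ ν ≃ L.ι)
    (h : n' = n + Fintype.card ν) {f : BM (X × (L.ι → ℂ)) (Ea L.κ × Unit)}
    (hf : (MU M).Gd 𝒢 α triv (fun _ => n) L f) :
    ∃ (f₀ : BM (X × (ι₀ → ℂ)) (Ea L.κ × Unit))
      (hf₀ : (MU M).Gd 𝒢 α triv (fun _ => n') (Lv.mk ι₀ L.κ (L.w ∘ c ∘ Sum.inl) L.u) f₀),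
      (∀ x v, f₀.f (x, v) = f.f (x, Sum.elim v 0 ∘ c.symm)) ∧
      cl (sy := MU M) (Lv.mk ι₀ L.κ (L.w ∘ c ∘ Sum.inl) L.u) f₀ hf₀ =
        mF (L.w ∘ c ∘ Sum.inr) h (cl (sy := MU M) L f hf) := by
  have hz : PMap 𝒢 α (α.prod (rp (L.w ∘ c ∘ Sum.inr))) fun x => (x, 0) :=
    ⟨proper_of_leftInverse (by fun_prop) continuous_fst fun _ => rfl,
      fun g _ x => Prod.ext rfl (rp_zero _ g).symm⟩
  have hw : ∀ i, Sum.elim (L.w ∘ c ∘ Sum.inl) (L.w ∘ c ∘ Sum.inr) (c.symm i) = L.w i := fun i => by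
    obtain ⟨i | i, rfl⟩ := c.surjective i <;> rw [c.symm_apply_apply] <;> rfl
  have hp : PMap 𝒢 ((α.prod (rp (L.w ∘ c ∘ Sum.inr))).prod (rp (L.w ∘ c ∘ Sum.inl)))
      (α.prod (rp L.w)) fun p => (p.1.1, Sum.elim p.2 p.1.2 ∘ c.symm) := by
    have h0 : IsProperMap fun v : ι₀ ⊕ ν → ℂ => v ∘ c.symm :=
      proper_of_leftInverse (r := fun v : L.ι → ℂ => v ∘ c) (by fun_prop) (by fun_prop)
        fun v => funext fun i => congrArg v (c.symm_apply_apply i)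
    refine ⟨(isProperMap_id.prodMap h0).comp (EE_regH X ι₀ ν).symm.isProperMap,
      fun g _ p => Prod.ext rfl (funext fun i => ?_)⟩
    obtain ⟨i | i, rfl⟩ := c.surjective i <;>
      simp only [prod_apply, rp, Function.comp_apply, c.symm_apply_apply] <;> rfl
  have hg : (MU M).Gd 𝒢 (α.prod (rp (L.w ∘ c ∘ Sum.inr))) triv (fun _ => n')
      (Lv.mk ι₀ L.κ (L.w ∘ c ∘ Sum.inl) L.u) (f.pre _ hp.proper) := by
    refine (hf.pre hp).monoD fun q hq => ?_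
    have h1 : q.1.1.1.trace - (Fintype.card L.ι : ℂ) = n := hq
    change q.1.1.1.trace - (Fintype.card ι₀ : ℂ) = n'
    rw [← Fintype.card_congr c, Fintype.card_sum] at h1
    rw [h]
    push_cast at h1 ⊢
    linear_combination h1
  have h1 : reg _ (fun _ => h) (cl (sy := MU M) _ _ hg) = cl (sy := MU M) L f hf := by
    rw [reg_cl]
    refine cl_reidx (L := L) (L' := (Lv.mk ι₀ L.κ (L.w ∘ c ∘ Sum.inl) L.u).addS (L.w ∘ c ∘ Sum.inr))
      c.symm (Equiv.refl _).toEmbedding (fun g _ i => congrArg _ (hw i))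
      (fun _ _ _ => rfl) hf _ fun x v => ?_
    change f.f (x, Sum.elim (v ∘ Sum.inl) (v ∘ Sum.inr) ∘ c.symm) = _
    rw [Sum.elim_comp_inl_inr]
    exact (omap_id _).symm.trans (omap_congr _ fun q _ =>
      Prod.ext (EE2_ext _ (fun _ _ => rfl) fun _ => rfl) rfl)
  refine ⟨_, hg.pre (hz.prodR _), fun _ _ => rfl, ?_⟩
  rw [← h1, ← pull_su _ h hz, su_reg, pull_cl]

theorem mF_equiv (c : ν ≃ ν') (ω : ν → M) (ω' : ν' → M) (hω : ∀ i, ω' (c i) = ω i)
    (h : n' = n + Fintype.card ν) (h' : n' = n + Fintype.card ν') (x : E0 𝒢 α n) :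
    mF ω h x = mF ω' h' x := by
  obtain ⟨L, f, hf, rfl⟩ := cl_surj x
  rw [mF_cl, mF_cl]
  refine (cl_reidx (L := L.addT ω) (L' := L.addT ω') (Equiv.refl _)
    ((Equiv.refl _).sumCongr c).toEmbedding (fun _ _ _ => rfl) (fun g _ j => ?_) _ _
    fun x v => ?_).symm
  · rcases j with j | j
    · rfl
    · exact congrArg _ (hω j)
  · rw [absB_f, absB_f, omap_map]
    refine omap_congr _ fun q _ => Prod.ext (EE2_ext _ ?_ ?_) rfl
    · rintro (j | j) (k | k) <;> simp [Ea.sum, Ea.full, one_apply]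
    · rintro (j | j) <;> rfl

theorem mF_sum (ω : ν → M) (ω' : ν' → M) (h₁ : n₁ = n + Fintype.card ν)
    (h₂ : n' = n₁ + Fintype.card ν') (h : n' = n + Fintype.card (ν ⊕ ν')) (x : E0 𝒢 α n) :
    mF (Sum.elim ω ω') h x = mF ω' h₂ (mF ω h₁ x) := by
  obtain ⟨L, f, hf, rfl⟩ := cl_surj x
  rw [mF_cl, mF_cl, mF_cl]
  refine cl_reidx (L := (L.addT ω).addT ω') (L' := L.addT (Sum.elim ω ω')) (Equiv.refl _)
    (Equiv.sumAssoc _ _ _).toEmbedding (fun _ _ _ => rfl) (fun g _ j => ?_) _ _ fun x v => ?_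
  · rcases j with (j | j) | j <;> rfl
  · rw [absB_f, absB_f, absB_f, omap_map, omap_map]
    refine omap_congr _ fun q _ => Prod.ext (EE2_ext _ ?_ ?_) rfl
    · rintro ((j | j) | j) ((k | k) | k) <;> simp [Ea.sum, Ea.full, one_apply]
    · rintro ((j | j) | j) <;> rfl

theorem mF_empty [IsEmpty ν] (ω : ν → M) (h : n = n + Fintype.card ν) (x : E0 𝒢 α n) :
    mF ω h x = x := by
  obtain ⟨L, f, hf, rfl⟩ := cl_surj x
  rw [mF_cl]
  refine cl_reidx (L := L) (L' := L.addT ω) (Equiv.refl _) Function.Embedding.inl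
    (fun _ _ _ => rfl) (fun _ _ _ => rfl) _ _ fun x v => ?_
  rw [absB_f]
  refine omap_congr _ fun q _ => Prod.ext (Ea.ext0_eq _ (fun _ _ => rfl) ?_ fun _ => rfl).symm rfl
  rintro (j | j) hj
  · exact absurd ⟨j, rfl⟩ hj
  · exact isEmptyElim j

theorem mF_option (ω : Option ν → M) (h₁ : n₁ = n + Fintype.card ν) (h₂ : n' = n₁ + 1)
    (h : n' = n + Fintype.card (Option ν)) (x : E0 𝒢 α n) :
    mF ω h x = m1 (ω none) h₂ (mF (ω ∘ some) h₁ x) := by
  have h₃ : n' = n + Fintype.card (ν ⊕ Unit) := by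
    rw [h, Fintype.card_congr (Equiv.optionEquivSumPUnit.{0} ν)]
  rw [m1, ← mF_sum _ _ h₁ _ h₃]
  exact mF_equiv (Equiv.optionEquivSumPUnit ν) _ _ (by rintro (_ | i) <;> rfl) _ _ x

theorem mF_option' (ω : Option ν → M) (h₁ : n₁ = n + 1) (h₂ : n' = n₁ + Fintype.card ν)
    (h : n' = n + Fintype.card (Option ν)) (x : E0 𝒢 α n) :
    mF ω h x = mF (ω ∘ some) h₂ (m1 (ω none) h₁ x) := by
  have h₃ : n' = n + Fintype.card (Unit ⊕ ν) := by
    rw [h, Fintype.card_congr ((Equiv.optionEquivSumPUnit.{0} ν).trans (Equiv.sumComm _ _))]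
  rw [m1, ← mF_sum _ _ _ h₂ h₃]
  exact mF_equiv ((Equiv.optionEquivSumPUnit ν).trans (Equiv.sumComm _ _)) _ _
    (by rintro (_ | i) <;> rfl) _ _ x

theorem mF_comm (ω : ν → M) (ω' : ν' → M) (h₁ : n₁ = n + Fintype.card ν)
    (h₂ : n' = n₁ + Fintype.card ν') (h₃ : n₂ = n + Fintype.card ν')
    (h₄ : n' = n₂ + Fintype.card ν) (x : E0 𝒢 α n) :
    mF ω' h₂ (mF ω h₁ x) = mF ω h₄ (mF ω' h₃ x) := by
  have h₅ : n' = n + Fintype.card (ν ⊕ ν') := by
    rw [h₂, h₁, Fintype.card_sum, Nat.cast_add, add_assoc]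
  have h₆ : n' = n + Fintype.card (ν' ⊕ ν) := by
    rw [h₄, h₃, Fintype.card_sum, Nat.cast_add, add_assoc]
  rw [← mF_sum _ _ h₁ h₂ h₅, ← mF_sum _ _ h₃ h₄ h₆]
  exact mF_equiv (Equiv.sumComm _ _) _ _ (by rintro (i | i) <;> rfl) _ _ x

theorem mF_pull (ω : ν → M) (h : n' = n + Fintype.card ν) {p : X' → X} (hp : PMap 𝒢 α' α p)
    (x : E0 𝒢 α n) : mF ω h (pull hp x) = pull hp (mF ω h x) := by
  obtain ⟨L, f, hf, rfl⟩ := cl_surj x
  rw [pull_cl, mF_cl, mF_cl, pull_cl]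
  exact cl_congr fun _ => rfl

theorem mF_push (ω : ν → M) (h : n' = n + Fintype.card ν) {j : U → X} (hj : OEmb 𝒢 αU α j)
    (x : E0 𝒢 αU n) : mF ω h (push hj x) = push hj (mF ω h x) := by
  obtain ⟨L, f, hf, rfl⟩ := cl_surj x
  rw [push_cl, mF_cl, mF_cl, push_cl]
  exact cl_congr fun _ => map_ob _ _ _

theorem mF_res (ω : ν → M) (h : n' = n + Fintype.card ν) (hs : ℋ ⊆ 𝒢) (x : E0 𝒢 α n) :
    mF ω h (res hs x) = res hs (mF ω h x) := by
  obtain ⟨L, f, hf, rfl⟩ := cl_surj x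
  rfl

theorem mF_su1 (ω : ν → M) (w : M) (h₁ : n₁ = n + 1) (h₂ : n' = n₁ + Fintype.card ν)
    (h₃ : n₂ = n + Fintype.card ν) (h₄ : n' = n₂ + 1) (x : E0 𝒢 α n) :
    mF ω h₂ (su1 w h₁ x) = su1 w h₄ (mF ω h₃ x) := by
  obtain ⟨L, f, hf, rfl⟩ := cl_surj x
  rw [su1, su1, su_cl, pull_cl, mF_cl, mF_cl, su_cl, pull_cl]
  refine cl_reidx (L := (L.addT ω).addT fun _ : Unit => w) (L' := (L.addT fun _ : Unit => w).addT ω)
    (Equiv.refl _) ((Equiv.sumAssoc _ _ _).trans (((Equiv.refl _).sumCongr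
      (Equiv.sumComm _ _)).trans (Equiv.sumAssoc _ _ _).symm)).toEmbedding (fun _ _ _ => rfl)
    (fun g _ j => ?_) _ _ fun x v => ?_
  · rcases j with (j | j) | j <;> rfl
  · simp only [absB_f, BM.pre_f, suB, omap_map]
    refine omap_congr _ fun q _ => Prod.ext (EE2_ext _ ?_ ?_) rfl
    · rintro ((j | j) | j) ((k | k) | k) <;> rfl
    · rintro ((j | j) | j) <;> rfl

theorem res_su1 (w : M) (h : n' = n + 1) (hs : ℋ ⊆ 𝒢) (x : E0 𝒢 α n) :
    res hs (su1 w h x) = su1 w h (res hs x) := by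
  obtain ⟨L, f, hf, rfl⟩ := cl_surj x
  rfl

end RB
end

-- merged part: Pool.Agent.Work.MP_666b5d_gt.Corner
section
/-!
# The next two terms of the Puppe sequence of the zero section

`corner_core`: let `N` be the null-homotopy of the extension by `∞` of `y`.  Put
`y'' (x, s, b) = N (x, 0, b, min 1 (s / (1 - s)))` and
`H (x, u, b, λ) = N (x, (1 - λ) • u, b, min 1 (λ * ‖u‖))`.  If `H` has its value in a compact set
then `(x, (1 - λ) • u, b, τ)` lies in a compact set `C` on which `τ < 1` and `(u', τ) ≠ (0, 0)`; so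
`λ ‖u‖ ≤ 1`, `‖u‖` is bounded, and `‖u‖` is bounded away from `0`.

`collp_core`: `H (x, u, b, t) = ev g x ((‖u‖ + t) / (1 + ‖u‖)) b`.
-/

open Set Filter Topology OnePoint
open scoped unitInterval

namespace RB

open Act

variable {S X B Y V : Type} [TopologicalSpace X] [TopologicalSpace B] [TopologicalSpace Y]
  [LC X] [LC B] [LC Y] [NormedAddCommGroup V] [NormedSpace ℝ V] [ProperSpace V]
  {𝒢 : Set S} {α : Act S X} {δ : Act S B} {β : Act S Y} {γ : Act S V} {D : Set Y}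

/-- Truncation to the unit interval. -/
noncomputable abbrev cornerT (r : ℝ) : I := projIcc 0 1 zero_le_one r

theorem cornerT_lt {r : ℝ} (h0 : 0 ≤ r) (h : (cornerT r : ℝ) < 1) : r < 1 ∧ (cornerT r : ℝ) = r := by
  have h1 : r < 1 := by
    by_contra h1
    rw [cornerT, projIcc_of_right_le _ (not_lt.1 h1)] at h
    exact lt_irrefl _ h
  exact ⟨h1, by rw [cornerT, projIcc_of_mem _ ⟨h0, h1.le⟩]⟩

omit [LC X] [LC B] [NormedSpace ℝ V] [ProperSpace V] in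
theorem corner_key (N : BM (((X × V) × B) × I) Y) (h0 : ∀ x b, N.f (((x, 0), b), 0) = ∞)
    (h1 : ∀ p, N.f (p, 1) = ∞) {K : Set Y} (hK : IsCompact K) :
    ∃ (CX : Set X) (CB : Set B) (ε R : ℝ), IsCompact CX ∧ IsCompact CB ∧ 0 < ε ∧
      ∀ x u b (τ : I) (y : Y), N.f (((x, u), b), τ) = y → y ∈ K →
        x ∈ CX ∧ b ∈ CB ∧ ‖u‖ ≤ R ∧ (τ : ℝ) < 1 ∧ ε ≤ ‖u‖ + τ := by
  have hC := N.isCompact_pre hK
  obtain ⟨ε, hε, h2⟩ := hC.exists_forall_le' (f := fun p => ‖p.1.1.2‖ + (p.2 : ℝ))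
    (a := 0) (by fun_prop) (by
      rintro ⟨⟨⟨x, u⟩, b⟩, τ⟩ ⟨y, -, hy⟩
      have h3 := norm_nonneg u
      have h4 := τ.2.1
      by_contra h5
      have h6 : u = 0 := norm_eq_zero.1 (by dsimp only at h5; linarith)
      have h7 : τ = 0 := Subtype.ext (by dsimp only at h5; change (τ : ℝ) = 0; linarith)
      rw [h6, h7, h0] at hy
      exact infty_ne_coe y hy)
  obtain ⟨R, hR⟩ := (hC.image (f := fun p => ‖p.1.1.2‖) (by fun_prop)).bddAbove
  refine ⟨_, _, ε, R, hC.image (f := fun p => p.1.1.1) (by fun_prop),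
    hC.image (f := fun p => p.1.2) (by fun_prop), hε, fun x u b τ y hy hyK => ?_⟩
  have hp : (((x, u), b), τ) ∈ {p | ∃ y ∈ K, N.f p = (y : OnePoint Y)} := ⟨y, hyK, hy⟩
  refine ⟨⟨_, hp, rfl⟩, ⟨_, hp, rfl⟩, hR ⟨_, hp, rfl⟩, ?_, h2 _ hp⟩
  refine lt_of_le_of_ne τ.2.2 fun h3 => ?_
  rw [show τ = 1 from Subtype.ext h3, h1] at hy
  exact infty_ne_coe y hy

theorem corner_J {a b : ℝ} (ha : 0 < a) (hb : b < 1) :
    IsCompact ((↑) ⁻¹' Icc a b : Set J) :=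
  (IsInducing.subtypeVal.isCompact_preimage_iff fun s hs =>
    ⟨(⟨s, ha.trans_le hs.1, hs.2.trans_lt hb⟩ : J), rfl⟩).2 isCompact_Icc

omit [NormedSpace ℝ V] in
theorem corner_Nz {a : ℝ} (ha : 0 < a) (b : ℝ) :
    IsCompact ((↑) ⁻¹' (Metric.closedBall (0 : V) b \ Metric.ball 0 a) : Set (Nz V)) :=
  (IsInducing.subtypeVal.isCompact_preimage_iff fun u hu =>
    ⟨⟨u, fun h => hu.2 (h ▸ Metric.mem_ball_self ha)⟩, rfl⟩).2
      ((isCompact_closedBall 0 b).diff Metric.isOpen_ball)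

omit [ProperSpace V] in
theorem corner_zero (h : NIso 𝒢 γ) {g : S} (hg : g ∈ 𝒢) : γ g 0 = 0 :=
  norm_eq_zero.1 ((h.norm_eq g hg 0).trans norm_zero)

omit [TopologicalSpace X] [TopologicalSpace B] [LC X] [LC B] [NormedSpace ℝ V] [ProperSpace V] in
theorem corner_not (x : X) (b : B) : ((x, (0 : V)), b) ∉
    range (Prod.map (Prod.map id Subtype.val) id : (X × Nz V) × B → (X × V) × B) := by
  rintro ⟨⟨⟨x', u⟩, b'⟩, e⟩
  exact u.2 (congrArg (fun p => p.1.2) e)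

theorem corner_core (h : NIso 𝒢 γ) {y : BM ((X × Nz V) × B) Y}
    (hy : Good 𝒢 ((α.prod γ.nz).prod δ) β D y)
    (h0 : Ht 𝒢 ((α.prod γ).prod δ) β D
      (y.ext0 _ (((nz_oemb h).prodL α).prodR δ).emb) BM.zero) :
    ∃ y'' : BM ((X × J) × B) Y, Good 𝒢 ((α.prod triv).prod δ) β D y'' ∧
      Ht 𝒢 ((α.prod γ.nz).prod δ) β D y (y''.pre _ (((nJ_pmap h).prodL α).prodR δ).proper) := by
  obtain ⟨N, hN, e0, e1⟩ := h0
  have k0 : ∀ x b, N.f (((x, 0), b), 0) = ∞ := fun x b => by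
    rw [e0, BM.ext0_not _ _ _ (corner_not x b)]
  have key := fun K (hK : IsCompact K) => corner_key N k0 e1 hK
  have c1 : Continuous fun p : (X × J) × B => cornerT (p.1.2.1 / (1 - p.1.2.1)) :=
    continuous_projIcc.comp' (Continuous.div (by fun_prop) (by fun_prop)
      fun p => (sub_pos.2 p.1.2.2.2).ne')
  have c2 : Continuous fun p : ((X × Nz V) × B) × I => cornerT (p.2.1 * ‖p.1.1.2.1‖) :=
    continuous_projIcc.comp' (by fun_prop)
  have c3 : Continuous fun p : (X × J) × B =>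
      N.f (((p.1.1, 0), p.2), cornerT (p.1.2.1 / (1 - p.1.2.1))) :=
    N.cont.comp' (Continuous.prodMk (by fun_prop) c1)
  have c4 : Continuous fun p : ((X × Nz V) × B) × I =>
      N.f (((p.1.1.1, (1 - p.2.1) • p.1.1.2.1), p.1.2), cornerT (p.2.1 * ‖p.1.1.2.1‖)) :=
    N.cont.comp' (Continuous.prodMk (by fun_prop) c2)
  refine ⟨BM.mk' _ c3 fun K hK => ?_, ⟨fun g hg p => ?_, fun p z hz => ?_⟩,
    BM.mk' _ c4 fun K hK => ?_, ⟨fun g hg p => ?_, fun p z hz => ?_⟩, fun p => ?_, fun p => ?_⟩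
  · obtain ⟨CX, CB, ε, R, h1, h2, hε, h3⟩ := key K hK
    refine ⟨_, (h1.prod (corner_J (a := ε / 2) (b := 1 / 2) (by positivity) (by norm_num))).prod
      h2, ?_⟩
    rintro ⟨⟨x, s, s0, s1⟩, b⟩ z hz hzK
    obtain ⟨m1, m2, -, m4, m5⟩ := h3 _ _ _ _ _ hz hzK
    have s2 : 0 < 1 - s := sub_pos.2 s1
    obtain ⟨m6, m7⟩ := cornerT_lt (div_pos s0 s2).le m4
    rw [m7, norm_zero, zero_add, le_div_iff₀ s2] at m5
    rw [div_lt_one s2] at m6
    refine ⟨⟨m1, ?_, ?_⟩, m2⟩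
    · change ε / 2 ≤ s
      nlinarith
    · change s ≤ 1 / 2
      linarith
  · have h1 := hN.eqv g hg (((p.1.1, 0), p.2), cornerT (p.1.2.1 / (1 - p.1.2.1)))
    simp only [prod_apply, triv_apply, corner_zero h hg] at h1
    exact h1
  · exact hN.mem _ z hz
  · obtain ⟨CX, CB, ε, R, h1, h2, hε, h3⟩ := key K hK
    refine ⟨_, ((h1.prod (corner_Nz hε (R + 1))).prod h2).prod isCompact_univ, ?_⟩
    rintro ⟨⟨⟨x, u⟩, b⟩, t⟩ z hz hzK
    obtain ⟨m1, m2, m3, m4, m5⟩ := h3 _ _ _ _ _ hz hzK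
    obtain ⟨m6, m7⟩ := cornerT_lt (mul_nonneg t.2.1 (norm_nonneg u.1)) m4
    rw [m7] at m5
    rw [norm_smul, Real.norm_of_nonneg (sub_nonneg.2 t.2.2)] at m3 m5
    refine ⟨⟨⟨m1, ?_, ?_⟩, m2⟩, trivial⟩
    · rw [mem_closedBall_zero_iff]
      dsimp only at m3 m6 ⊢
      linarith
    · rw [mem_ball_zero_iff, not_lt]
      dsimp only at m5 ⊢
      linarith
  · have h1 := hN.eqv g hg (((p.1.1.1, (1 - p.2.1) • p.1.1.2.1), p.1.2),
      cornerT (p.2.1 * ‖p.1.1.2.1‖))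
    simp only [prod_apply, triv_apply, h.smul g hg] at h1
    change N.f (((α g p.1.1.1, (1 - p.2.1) • (γ.nz g p.1.1.2).1), δ g p.1.2),
      cornerT (p.2.1 * ‖(γ.nz g p.1.1.2).1‖)) = _
    rw [h.nz_val hg, h.norm_eq g hg]
    exact h1
  · exact hN.mem _ z hz
  · change N.f (((p.1.1, (1 - (0 : ℝ)) • p.1.2.1), p.2), cornerT ((0 : ℝ) * ‖p.1.2.1‖)) = _
    rw [sub_zero, one_smul, zero_mul, cornerT, projIcc_left]
    exact (e0 _).trans (BM.ext0_j _ _ _ p)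
  · change N.f (((p.1.1, (1 - (1 : ℝ)) • p.1.2.1), p.2), cornerT ((1 : ℝ) * ‖p.1.2.1‖)) =
      N.f (((p.1.1, 0), p.2),
        cornerT (‖p.1.2.1‖ / (1 + ‖p.1.2.1‖) / (1 - ‖p.1.2.1‖ / (1 + ‖p.1.2.1‖))))
    have h1 : 0 < 1 + ‖p.1.2.1‖ := by positivity
    have h2 : ‖p.1.2.1‖ / (1 + ‖p.1.2.1‖) / (1 - ‖p.1.2.1‖ / (1 + ‖p.1.2.1‖)) = ‖p.1.2.1‖ := by
      rw [one_sub_div h1.ne', add_sub_cancel_right, div_div_div_cancel_right₀ h1.ne', div_one]
    rw [sub_self, zero_smul, one_mul, h2]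

omit [LC X] [LC B] [LC Y] in
theorem corner_ev {g : BM ((X × J) × B) Y} {x : X} {s : ℝ} {b : B} {z : Y}
    (h : ev g x s b = z) : ∃ hs : s ∈ Ioo (0 : ℝ) 1, g.f ((x, ⟨s, hs⟩), b) = z := by
  by_cases hs : s ∈ Ioo (0 : ℝ) 1
  · exact ⟨hs, (ev_of_mem g x hs b).symm.trans h⟩
  · rw [ev_of_not g x hs] at h
    exact absurd h (infty_ne_coe z)

theorem collp_core (h : NIso 𝒢 γ) {g : BM ((X × J) × B) Y}
    (hg : Good 𝒢 ((α.prod triv).prod δ) β D g) :
    Ht 𝒢 ((α.prod γ).prod δ) β D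
      ((g.pre _ (((nJ_pmap h).prodL α).prodR δ).proper).ext0 _
        (((nz_oemb h).prodL α).prodR δ).emb) BM.zero := by
  have c1 : Continuous fun p : ((X × V) × B) × I => (‖p.1.1.2‖ + p.2.1) / (1 + ‖p.1.1.2‖) :=
    Continuous.div (by fun_prop) (by fun_prop) fun p => by positivity
  have c2 : Continuous fun p : ((X × V) × B) × I =>
      (evB g).f ((p.1.1.1, (‖p.1.1.2‖ + p.2.1) / (1 + ‖p.1.1.2‖)), p.1.2) :=
    (evB g).cont.comp' (Continuous.prodMk (Continuous.prodMk (by fun_prop) c1) (by fun_prop))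
  refine ⟨BM.mk' _ c2 fun K hK => ?_, ⟨fun a ha p => ?_, fun p z hz => ?_⟩, fun p => ?_,
    fun p => ?_⟩
  · obtain ⟨C, hC, h1⟩ := g.exists_compact hK
    obtain ⟨ε, hε, h2⟩ := hC.exists_forall_le' (f := fun p => 1 - p.1.2.1) (a := 0)
      (by fun_prop) fun p _ => sub_pos.2 p.1.2.2.2
    refine ⟨_, (((hC.image continuous_fst.fst).prod (isCompact_closedBall (0 : V) (1 / ε))).prod
      (hC.image continuous_snd)).prod isCompact_univ, ?_⟩
    rintro ⟨⟨⟨x, u⟩, b⟩, t⟩ z hz hzK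
    obtain ⟨hs, h3⟩ := corner_ev hz
    have h4 := h1 _ z h3 hzK
    refine ⟨⟨⟨⟨_, h4, rfl⟩, ?_⟩, ⟨_, h4, rfl⟩⟩, trivial⟩
    have h5 : ε ≤ 1 - (‖u‖ + t.1) / (1 + ‖u‖) := h2 _ h4
    have h6 : 0 < 1 + ‖u‖ := by positivity
    rw [one_sub_div h6.ne', le_div_iff₀ h6] at h5
    rw [mem_closedBall_zero_iff, le_div_iff₀ hε]
    dsimp only
    nlinarith [t.2.1]
  · change ev g (α a p.1.1.1) ((‖γ a p.1.1.2‖ + p.2.1) / (1 + ‖γ a p.1.1.2‖)) (δ a p.1.2) =
      (ev g p.1.1.1 ((‖p.1.1.2‖ + p.2.1) / (1 + ‖p.1.1.2‖)) p.1.2).map (β a)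
    rw [h.norm_eq a ha]
    by_cases hs : (‖p.1.1.2‖ + p.2.1) / (1 + ‖p.1.1.2‖) ∈ Ioo (0 : ℝ) 1
    · rw [ev_of_mem _ _ hs, ev_of_mem _ _ hs]
      exact hg.eqv a ha ((p.1.1.1, ⟨_, hs⟩), p.1.2)
    · rw [ev_of_not _ _ hs, ev_of_not _ _ hs]
      rfl
  · obtain ⟨hs, h3⟩ := corner_ev hz
    exact hg.mem _ z h3
  · obtain ⟨⟨x, u⟩, b⟩ := p
    change ev g x ((‖u‖ + 0) / (1 + ‖u‖)) b = _
    rw [add_zero]
    by_cases hu : u = 0
    · rw [hu, BM.ext0_not _ _ _ (corner_not x b), ev_of_not]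
      simp
    · exact (ev_coe g x (nJ ⟨u, hu⟩) b).trans 
        (BM.ext0_j (g.pre _ (((nJ_pmap h).prodL α).prodR δ).proper) _
          (((nz_oemb h).prodL α).prodR δ).emb ((x, ⟨u, hu⟩), b)).symm
  · change ev g p.1.1 ((‖p.1.2‖ + 1) / (1 + ‖p.1.2‖)) p.2 = ∞
    rw [add_comm, div_self (by positivity), ev_of_not]
    simp

end RB
end

-- merged part: Pool.Agent.Work.MP_666b5d_gt.Ind
section
/-!
# Induction: `X = 𝒢 ×_ℋ X₀` for a compact group `𝒢`

Proof plan.  `q : 𝒢 × X₀ → X`, `(g, x₀) ↦ α g (i x₀)` is a continuous proper surjection, hence a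
quotient map (it is the composite of `id × i`, the shear homeomorphism `(g, x) ↦ (g, α g x)` of
`𝒢 × X` and the projection off the compact factor).  Put `F (q (g, x₀)) = (f₀ x₀).map (β g)`; this
is well defined by `stab`, and `(g, x₀) ↦ (f₀ x₀).map (β g)` is a based map on `𝒢 × X₀` (`cont_ob`).
For homotopies apply `ind_ext` to `X × I` and use `ind_uniq` at both ends.
-/

open Set Filter Topology OnePoint
open scoped unitInterval

namespace RB

open Act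

variable {S X₀ X Y Z : Type} [TopologicalSpace X₀] [TopologicalSpace X] [TopologicalSpace Y]
  [TopologicalSpace Z]

/-- `X₀` is a slice for the action of `𝒢` on `X` with stabiliser `ℋ`. -/
structure Slice (𝒢 ℋ : Set S) (α₀ : Act S X₀) (α : Act S X) (i : X₀ → X) : Prop where
  sub : ℋ ⊆ 𝒢
  emb : IsClosedEmbedding i
  eqv : ∀ g ∈ ℋ, ∀ x, i (α₀ g x) = α g (i x)
  trans : ∀ x, ∃ g ∈ 𝒢, ∃ x₀, x = α g (i x₀)
  stab : ∀ g ∈ 𝒢, ∀ x₀ x₀', α g (i x₀) = i x₀' → g ∈ ℋ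

theorem Slice.pmap {𝒢 ℋ : Set S} {α₀ : Act S X₀} {α : Act S X} {i : X₀ → X}
    (h : Slice 𝒢 ℋ α₀ α i) : PMap ℋ α₀ α i := ⟨h.emb.isProperMap, h.eqv⟩

variable [Group S] [TopologicalSpace S] [IsTopologicalGroup S] {𝒢 ℋ : Subgroup S}
  {α₀ : Act S X₀} {α : Act S X} {i : X₀ → X} {β : Act S Y} {D : Set Y}

theorem Slice.prodR (h : Slice (𝒢 : Set S) ℋ α₀ α i) {γ : Act S Z} (hγ : GA (𝒢 : Set S) γ) :
    Slice (𝒢 : Set S) ℋ (α₀.prod γ) (α.prod γ) (Prod.map i id) := by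
  refine ⟨h.sub, h.emb.prodMap IsClosedEmbedding.id,
    fun g hg p => Prod.ext (h.eqv g hg p.1) rfl, fun p => ?_,
    fun g hg p p' e => h.stab g hg p.1 p'.1 (congrArg Prod.fst e)⟩
  obtain ⟨g, hg, x₀, e⟩ := h.trans p.1
  refine ⟨g, hg, (x₀, γ g⁻¹ p.2), Prod.ext e ?_⟩
  change p.2 = γ g (γ g⁻¹ p.2)
  rw [← hγ.mul g hg _ (𝒢.inv_mem hg), mul_inv_cancel, hγ.one]

theorem Slice.prodL (h : Slice (𝒢 : Set S) ℋ α₀ α i) {γ : Act S Z} (hγ : GA (𝒢 : Set S) γ) :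
    Slice (𝒢 : Set S) ℋ (γ.prod α₀) (γ.prod α) (Prod.map id i) := by
  refine ⟨h.sub, IsClosedEmbedding.id.prodMap h.emb,
    fun g hg p => Prod.ext rfl (h.eqv g hg p.2), fun p => ?_,
    fun g hg p p' e => h.stab g hg p.2 p'.2 (congrArg Prod.snd e)⟩
  obtain ⟨g, hg, x₀, e⟩ := h.trans p.2
  refine ⟨g, hg, (γ g⁻¹ p.1, x₀), Prod.ext ?_ e⟩
  change p.1 = γ g (γ g⁻¹ p.1)
  rw [← hγ.mul g hg _ (𝒢.inv_mem hg), mul_inv_cancel, hγ.one]

theorem ind_uniq (h : Slice (𝒢 : Set S) ℋ α₀ α i) {F F' : BM X Y} (hF : Good (𝒢 : Set S) α β D F)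
    (hF' : Good (𝒢 : Set S) α β D F') (he : ∀ x₀, F.f (i x₀) = F'.f (i x₀)) : F = F' := by
  refine BM.ext fun x => ?_
  obtain ⟨g, hg, x₀, rfl⟩ := h.trans x
  rw [hF.eqv g hg, hF'.eqv g hg, he]

omit [IsTopologicalGroup S] in
theorem Ind_cont (hβ : GA (𝒢 : Set S) β) : Continuous fun p : 𝒢 × Y => β p.1 p.2 :=
  hβ.cont.comp_continuous (f := fun p : 𝒢 × Y => ((p.1 : S), p.2)) (by fun_prop)
    fun p => ⟨p.1.2, trivial⟩

/-- The saturation of a compact set under a compact group is compact. -/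
theorem Ind_sat [CompactSpace 𝒢] (hβ : GA (𝒢 : Set S) β) {K : Set Y} (hK : IsCompact K) :
    ∃ L : Set Y, IsCompact L ∧ ∀ (g : 𝒢) (y : Y), β g y ∈ K → y ∈ L := by
  refine ⟨(fun p : 𝒢 × Y => β p.1 p.2) '' (univ ×ˢ K),
    (isCompact_univ.prod hK).image (Ind_cont hβ), fun g y hy => ⟨(g⁻¹, β g y), ⟨trivial, hy⟩, ?_⟩⟩
  change β (g : S)⁻¹ (β g y) = y
  rw [← hβ.mul _ (𝒢.inv_mem g.2) _ g.2, inv_mul_cancel, hβ.one]

theorem Ind_proper [LC X] [CompactSpace 𝒢] (hα : GA (𝒢 : Set S) α) (hi : IsProperMap i) :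
    IsProperMap fun p : 𝒢 × X₀ => α p.1 (i p.2) := by
  refine proper_of_compact ((Ind_cont hα).comp (f := fun p : 𝒢 × X₀ => (p.1, i p.2))
    (continuous_fst.prodMk (hi.continuous.comp continuous_snd))) fun K hK => ?_
  obtain ⟨L, hL, h1⟩ := Ind_sat hα hK
  exact ⟨univ ×ˢ (i ⁻¹' L), isCompact_univ.prod (hi.isCompact_preimage hL),
    fun p hp => ⟨trivial, h1 p.1 _ hp⟩⟩

variable [LC X₀] [LC X] [LC Y]

theorem ind_ext (h : Slice (𝒢 : Set S) ℋ α₀ α i) (hc : IsCompact (𝒢 : Set S))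
    (hα : GA (𝒢 : Set S) α) (hβ : GA (𝒢 : Set S) β) (hD : ∀ g ∈ 𝒢, ∀ y ∈ D, β g y ∈ D)
    {f₀ : BM X₀ Y} (hf : Good (ℋ : Set S) α₀ β D f₀) :
    ∃ F : BM X Y, Good (𝒢 : Set S) α β D F ∧ ∀ x₀, F.f (i x₀) = f₀.f x₀ := by
  haveI : CompactSpace 𝒢 := isCompact_iff_compactSpace.1 hc
  -- the values are independent of the representative
  have wd : ∀ g ∈ 𝒢, ∀ g' ∈ 𝒢, ∀ x₀ x₀', α g (i x₀) = α g' (i x₀') →
      (f₀.f x₀).map (β g) = (f₀.f x₀').map (β g') := by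
    intro g hg g' hg' x₀ x₀' e
    have hm : g'⁻¹ * g ∈ 𝒢 := 𝒢.mul_mem (𝒢.inv_mem hg') hg
    have e1 : α (g'⁻¹ * g) (i x₀) = i x₀' := by
      rw [hα.mul _ (𝒢.inv_mem hg') _ hg, e, ← hα.mul _ (𝒢.inv_mem hg') _ hg', inv_mul_cancel,
        hα.one]
    have hh := h.stab _ hm _ _ e1
    have e2 : x₀' = α₀ (g'⁻¹ * g) x₀ := h.emb.injective (by rw [h.eqv _ hh, e1])
    rw [e2, hf.eqv _ hh, omap_map]
    refine omap_congr _ fun y _ => ?_
    rw [← hβ.mul _ hg' _ hm, mul_inv_cancel_left]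
  choose gx hgx x0 hx using h.trans
  let F : X → OnePoint Y := fun x => (f₀.f (x0 x)).map (β (gx x))
  have hF : ∀ g ∈ 𝒢, ∀ x₀, F (α g (i x₀)) = (f₀.f x₀).map (β g) := fun g hg x₀ =>
    wd _ (hgx _) g hg _ x₀ (hx _).symm
  let q : 𝒢 × X₀ → X := fun p => α p.1 (i p.2)
  have hqp : IsProperMap q := Ind_proper hα h.emb.isProperMap
  have hqs : Function.Surjective q := fun x => ⟨(⟨gx x, hgx x⟩, x0 x), (hx x).symm⟩
  have hq : IsQuotientMap q := hqp.isClosedMap.isQuotientMap hqp.continuous hqs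
  have hFq : F ∘ q = fun p : 𝒢 × X₀ => ob (f₀.f p.2) fun y => (β p.1 y : OnePoint Y) := by
    funext p
    rw [ob_some]
    exact hF p.1 p.1.2 p.2
  have hcont : Continuous F := by
    rw [hq.continuous_iff, hFq]
    refine cont_ob (a := fun p : 𝒢 × X₀ => f₀.f p.2) (f₀.cont.comp continuous_snd)
      (k := fun r : Y × 𝒢 × X₀ => (β r.2.1 r.1 : OnePoint Y)) (S := univ)
      (fun _ _ _ => mem_univ _) ?_ fun _ K hK => ?_
    · exact (continuous_coe.comp ((Ind_cont hβ).comp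
        (f := fun r : Y × 𝒢 × X₀ => (r.2.1, r.1)) (by fun_prop))).continuousOn
    · obtain ⟨L, hL, h1⟩ := Ind_sat hβ hK
      exact ⟨L, hL, .of_forall fun p y z _ e hz => h1 p.1 y (by rwa [← coe_eq_coe.1 e] at hz)⟩
  refine ⟨BM.mk' F hcont fun K hK => ?_, ⟨fun g hg x => ?_, fun x y e => ?_⟩, fun x₀ => ?_⟩
  · obtain ⟨L, hL, h1⟩ := Ind_sat hβ hK
    obtain ⟨C, hC, h2⟩ := f₀.exists_compact hL
    refine ⟨q '' (univ ×ˢ C), (isCompact_univ.prod hC).image hqp.continuous, fun x y e hy => ?_⟩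
    obtain ⟨z, e1, rfl⟩ := omap_eq_coe.1 e
    exact ⟨(⟨gx x, hgx x⟩, x0 x), ⟨trivial, h2 _ z e1 (h1 ⟨gx x, hgx x⟩ z hy)⟩, (hx x).symm⟩
  · change F (α g x) = (F x).map (β g)
    have e : α g x = α (g * gx x) (i (x0 x)) := by rw [hα.mul g hg _ (hgx x), ← hx]
    rw [e, hF _ (𝒢.mul_mem hg (hgx x)), omap_map]
    exact omap_congr _ fun y _ => hβ.mul g hg _ (hgx x) y
  · obtain ⟨z, e1, rfl⟩ := omap_eq_coe.1 e
    exact hD _ (hgx x) z (hf.mem _ z e1)
  · change F (i x₀) = _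
    rw [← hα.one (i x₀), hF 1 𝒢.one_mem, funext hβ.one]
    exact omap_id _

theorem ind_ht (h : Slice (𝒢 : Set S) ℋ α₀ α i) (hc : IsCompact (𝒢 : Set S))
    (hα : GA (𝒢 : Set S) α) (hβ : GA (𝒢 : Set S) β) (hD : ∀ g ∈ 𝒢, ∀ y ∈ D, β g y ∈ D)
    {F F' : BM X Y} (hF : Good (𝒢 : Set S) α β D F) (hF' : Good (𝒢 : Set S) α β D F')
    (he : Ht (ℋ : Set S) α₀ β D (F.pre i h.pmap.proper) (F'.pre i h.pmap.proper)) :
    Ht (𝒢 : Set S) α β D F F' := by
  obtain ⟨H₀, hH₀, h0, h1⟩ := he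
  obtain ⟨H, hH, hi⟩ := ind_ext (h.prodR (γ := (triv : Act S I)) GA.triv) hc (hα.prod GA.triv)
    hβ hD hH₀
  have hat : ∀ t : I, PMap (𝒢 : Set S) α (α.prod triv) fun x : X => (x, t) := fun t =>
    ⟨proper_at t, fun _ _ _ => rfl⟩
  have e0 := ind_uniq h (hH.pre (hat 0)) hF fun x₀ => (hi (x₀, 0)).trans (h0 x₀)
  have e1 := ind_uniq h (hH.pre (hat 1)) hF' fun x₀ => (hi (x₀, 1)).trans (h1 x₀)
  exact ⟨H, hH, fun x => by rw [← e0]; rfl, fun x => by rw [← e1]; rfl⟩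

end RB
end

-- merged part: Pool.Agent.Work.MP_666b5d_gt.SysX
section
/-!
# Exact sequences for `E`

Proof hints.  Choose a representative; by `cl_eq_zero_iff` and `cl_tr` replace it by a transition so
that the hypothesis holds on the nose at the level (the operations commute with `Tr.tr`); then
apply `SNDR.core` (to `h.prodR`), `corner_core`, `collp_core`, `ind_ext`, `ind_ht`, `TNDR.core`.
For `tgt_exact`: from `g` on `(X × B L) × J` form `g.prodId ℝ` with the action `via e sg`, rearrange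
with `eC` into a map `(X × B L) × ℂ → (T L × Z) × ℂ`, and use the data of `Sys.suc` to get a
representative at the next level; `f.prodId J` becomes the transition of `f`.
For `sum_push_pull`: `x - ∑ …` is killed by every `pull (i k)`; a class killed by all of these is
zero (pass to a common level and glue the null-homotopies over the clopen pieces).
-/

open Set Filter Topology OnePoint
open scoped unitInterval

namespace RB

open Act

universe u

variable {S : Type} {e : S → ℤˣ} {X Y A U Z : Type} [TopologicalSpace X] [TopologicalSpace Y]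
  [TopologicalSpace A] [TopologicalSpace U] [TopologicalSpace Z]
  [LC X] [LC Y] [LC A] [LC U] [LC Z]
  {sy : Sys.{u} S e} {𝒢 : Set S} {α : Act S X} {β : Act S Y} {d : Y → ℤ}

theorem SysX_tr_pre {L L' : sy.Lv} (μ : Tr (sy.B L) (sy.T L) (sy.B L') (sy.T L'))
    (f : BM (X × sy.B L) (sy.T L × Y)) {h : A → X} (h₁ : IsProperMap (Prod.map h id))
    (h₂ : IsProperMap (Prod.map h id)) :
    μ.tr (f.pre (Prod.map h id) h₁) = (μ.tr f).pre (Prod.map h id) h₂ :=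
  BM.ext fun _ => rfl

theorem SysX_tr_ext0 {L L' : sy.Lv} (μ : Tr (sy.B L) (sy.T L) (sy.B L') (sy.T L'))
    (f : BM (U × sy.B L) (sy.T L × Y)) {j : U → X} (h₁ : IsOpenEmbedding (Prod.map j id))
    (h₂ : IsOpenEmbedding (Prod.map j id)) :
    μ.tr (f.ext0 (Prod.map j id) h₁) = (μ.tr f).ext0 (Prod.map j id) h₂ := by
  refine BM.ext fun ⟨x, b⟩ => ?_
  by_cases hx : x ∈ range j
  · obtain ⟨u, rfl⟩ := hx
    have e1 := BM.ext0_j f (Prod.map j id) h₁ (u, μ.a b)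
    have e2 := BM.ext0_j (μ.tr f) (Prod.map j id) h₂ (u, b)
    exact (congrArg (OnePoint.map _) e1).trans e2.symm
  · have e1 := BM.ext0_not f (Prod.map j id) h₁ (x := (x, μ.a b))
      fun ⟨u, hu⟩ => hx ⟨u.1, congrArg Prod.fst hu⟩
    have e2 := BM.ext0_not (μ.tr f) (Prod.map j id) h₂ (x := (x, b))
      fun ⟨u, hu⟩ => hx ⟨u.1, congrArg Prod.fst hu⟩
    exact (congrArg (OnePoint.map _) e1).trans e2.symm

theorem SysX_tr_idProd {L L' : sy.Lv} (μ : Tr (sy.B L) (sy.T L) (sy.B L') (sy.T L'))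
    (f : BM (X × sy.B L) (sy.T L × Y)) (k : BM Y U) :
    μ.tr ((k.idProd (sy.T L)).comp f) = (k.idProd (sy.T L')).comp (μ.tr f) := by
  refine BM.ext fun x => ?_
  simp only [Tr.ap_f, BM.comp_f, BM.idProd_f, ob_map, map_ob, omap_map]
  rfl

theorem SysX_tr_zero {L L' : sy.Lv} (μ : Tr (sy.B L) (sy.T L) (sy.B L') (sy.T L')) :
    μ.tr (BM.zero : BM (X × sy.B L) (sy.T L × Y)) = BM.zero :=
  Tr.ap_zero _

theorem src_exact {αA : Act S A} {αU : Act S U} {i : A → X} {j : U → X}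
    (h : SNDR 𝒢 αA α αU i j) (x : E sy 𝒢 α β d) (h0 : pull h.pmap x = 0) :
    ∃ y, x = push h.hj y := by
  obtain ⟨L, f, hf, rfl⟩ := cl_surj x
  rw [pull_cl, cl_eq_zero_iff] at h0
  obtain ⟨L', μ, hμ, h0⟩ := h0
  rw [SysX_tr_pre μ f _ (h.pmap.prodR (sy.bα L')).proper] at h0
  obtain ⟨g, hg, hfg⟩ := (h.prodR (sy.bα L')).core (gd_tr hμ hf) h0
  refine ⟨cl L' g hg, ?_⟩
  rw [push_cl, ← cl_tr hμ hf]
  exact cl_htpy hfg

section

variable {V : Type} [NormedAddCommGroup V] [NormedSpace ℝ V] [ProperSpace V] {γ : Act S V}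

theorem corner (h : NIso 𝒢 γ) (y : E sy 𝒢 (α.prod γ.nz) β d)
    (h0 : push ((nz_oemb h).prodL α) y = 0) : ∃ y'', y = pull ((nJ_pmap h).prodL α) y'' := by
  obtain ⟨L, f, hf, rfl⟩ := cl_surj y
  rw [push_cl, cl_eq_zero_iff] at h0
  obtain ⟨L', μ, hμ, h0⟩ := h0
  rw [SysX_tr_ext0 μ f _ (((nz_oemb h).prodL α).prodR (sy.bα L')).emb] at h0
  obtain ⟨g, hg, hfg⟩ := corner_core h (gd_tr hμ hf) h0
  refine ⟨cl L' g hg, ?_⟩
  rw [pull_cl, ← cl_tr hμ hf]
  exact cl_htpy hfg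

theorem collp (h : NIso 𝒢 γ) (y : E sy 𝒢 (α.prod (triv : Act S J)) β d) :
    push ((nz_oemb h).prodL α) (pull ((nJ_pmap h).prodL α) y) = 0 := by
  obtain ⟨L, f, hf, rfl⟩ := cl_surj y
  rw [pull_cl, push_cl]
  exact cl_eq_zero_of_ht (collp_core h hf)

end

theorem SysX_eC (u : ℤˣ) (r : ℝ) (s : J) : eC.symm (sg u r, s) = tw u (eC.symm (r, s)) := by
  apply eC.injective
  rw [eC_tw, Homeomorph.apply_symm_apply, Homeomorph.apply_symm_apply]

/-- The data of `Sys.suc` with the complex line split as `ℝ × J`. -/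
theorem SysX_suc (𝒢 : Set S) (α : Act S X) (L : sy.Lv) : ∃ L', ∃ μ ∈ sy.Mor L L',
    ∃ (p : X × sy.B L' → ((X × sy.B L) × J) × ℝ) (Q : sy.T L × (ℝ × J) → sy.T L'),
      PMap 𝒢 (α.prod (sy.bα L')) (((α.prod (sy.bα L)).prod triv).prod (via e sg)) p ∧
      IsProperMap Q ∧ (∀ g t r s, Q (sy.tα L g t, (sg (e g) r, s)) = sy.tα L' g (Q (t, (r, s)))) ∧
      (∀ t z, sy.dg L' (Q (t, z)) = sy.dg L t) ∧ (∀ x, (p x).1.1 = (x.1, μ.a x.2)) ∧
      ∀ t x, μ.Ψ (t, x.2) = Q (t, ((p x).2, (p x).1.2)) := by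
  obtain ⟨L', μ, hμ, c, Ψ, hc, hΨ, hdg, ha, hm⟩ := sy.suc L
  refine ⟨L', μ, hμ, fun x => (((x.1, (c x.2).1), (eC (c x.2).2).2), (eC (c x.2).2).1),
    fun q => Ψ (q.1, eC.symm q.2), ⟨?_, ?_⟩, ?_, ?_, fun t z => hdg _ _, ?_, ?_⟩
  · refine proper_of_leftInverse (r := fun q => (q.1.1.1, c.symm (q.1.1.2, eC.symm (q.2, q.1.2))))
      (by fun_prop) (by fun_prop) fun x => ?_
    simp
  · intro g _ x
    simp only [prod_apply, hc, eC_tw, triv_apply, via_apply]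
  · exact hΨ.proper.comp ((Homeomorph.refl _).prodCongr eC.symm).isProperMap
  · intro g t r s
    have := hΨ.eqv g trivial (t, eC.symm (r, s))
    simp only [SysX_eC]
    exact this
  · intro x
    rw [ha]
  · intro t x
    rw [hm]
    simp

theorem SysX_q {L L' : sy.Lv} {Q : sy.T L × (ℝ × J) → sy.T L'} (hQ : IsProperMap Q)
    (he : ∀ g t r s, Q (sy.tα L g t, (sg (e g) r, s)) = sy.tα L' g (Q (t, (r, s))))
    (𝒢 : Set S) (β : Act S Y) :
    PMap 𝒢 ((((sy.tα L).prod β).prod (triv : Act S J)).prod (via e sg)) ((sy.tα L').prod β)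
      fun q => (Q (q.1.1.1, (q.2, q.1.2)), q.1.1.2) := by
  refine ⟨?_, fun g _ q => Prod.ext (he g _ _ _) rfl⟩
  have h1 : IsProperMap fun q : ((sy.T L × Y) × J) × ℝ => ((q.1.1.1, (q.2, q.1.2)), q.1.1.2) :=
    proper_of_leftInverse (r := fun q => (((q.1.1, q.2), q.1.2.2), q.1.2.1))
      (by fun_prop) (by fun_prop) fun _ => rfl
  exact (hQ.prodMap (isProperMap_id (X := Y))).comp h1

theorem tgt_exact {βZ : Act S Z} {βU : Act S U} {i : Z → Y} {j : U → Y}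
    (h : TNDR 𝒢 βZ β βU i j) (hd : IsLocallyConstant d) {dZ : Z → ℤ} {dU : U → ℤ}
    (hZ : ∀ z, d (i z) = dZ z) (hU : ∀ u, dU u = d (j u)) (x : E sy 𝒢 α β d)
    (h0 : postC h.hj hU x = 0) : ∃ z : E sy 𝒢 α βZ dZ, x = postP h.pmap hZ z := by
  obtain ⟨L₀, f₀, hf₀, rfl⟩ := cl_surj x
  rw [postC_cl, cl_eq_zero_iff] at h0
  obtain ⟨L, μ₀, hμ₀, h0⟩ := h0
  rw [SysX_tr_idProd] at h0
  rw [← cl_tr hμ₀ hf₀]
  have hf := gd_tr hμ₀ hf₀
  generalize_proofs at *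
  generalize μ₀.tr f₀ = f at *
  have hE : ∀ k, IsClopen {y | (k, y) ∈ sy.D L d} := fun k =>
    ⟨⟨hd {n : ℤ | sy.dg L k = (n : ℂ)}ᶜ⟩, hd {n : ℤ | sy.dg L k = (n : ℂ)}⟩
  obtain ⟨g, hg, hgf⟩ := h.core hE hf (h0.monoD fun q hq => by
    change sy.dg L q.1 = (d (j q.2) : ℂ)
    rw [← hU]
    exact hq)
  obtain ⟨L', μ, hμ, p, Q, hp, hQ, heQ, hdQ, hpa, hpQ⟩ := SysX_suc 𝒢 α L
  have hg' : sy.Gd 𝒢 α βZ dZ L'
      (((g.prodId ℝ).pre p hp.proper).map _ (SysX_q hQ heQ 𝒢 βZ).proper) := by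
    refine ((hg.prodId (via e sg)).pre hp).map (SysX_q hQ heQ 𝒢 βZ) fun q hq => ?_
    change sy.dg L' (Q _) = (dZ q.1.1.2 : ℂ)
    rw [hdQ, ← hZ]
    exact hq.1.1
  refine ⟨cl L' _ hg', ?_⟩
  have h1 : sy.Hm 𝒢 α β d L' _ _ :=
    ((hgf.prodId (via e sg)).pre hp).map (SysX_q hQ heQ 𝒢 β) fun q hq => by
      change sy.dg L' (Q _) = (d q.1.1.2 : ℂ)
      rw [hdQ]
      exact hq.1.1
  rw [postP_cl, ← cl_tr hμ hf]
  refine Eq.trans (cl_congr fun x => ?_) ((cl_htpy h1).symm.trans (cl_congr fun x => ?_))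
  · simp only [Tr.ap_f, BM.map_f, BM.pre_f, BM.prodId_f, omap_map, hpa]
    refine congrArg₂ OnePoint.map (funext fun t => ?_) rfl
    exact Prod.ext (hpQ t.1 x) rfl
  · simp only [BM.map_f, BM.pre_f, BM.prodId_f, omap_map]
    rfl

/-- Gluing of null-homotopies over finitely many clopen pieces. -/
theorem SysX_glue {ν : Type} [Fintype ν] {αA : Act S A} {i : ν → A → X} {D : Set Y}
    (hp : ∀ k, PMap 𝒢 αA α (i k)) (ho : ∀ k, OEmb 𝒢 αA α (i k))
    (hdis : ∀ k l a b, i k a = i l b → k = l) (hcov : ∀ x, ∃ k, x ∈ range (i k)) {f : BM X Y}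
    (h : ∀ k, Ht 𝒢 αA β D (f.pre (i k) (hp k).proper) BM.zero) : Ht 𝒢 α β D f BM.zero := by
  choose H hH h0 h1 using h
  choose c hc using hcov
  have hci : ∀ k a, c (i k a) = k := fun k a => by
    obtain ⟨b, hb⟩ := hc (i k a)
    exact hdis _ _ _ _ hb
  obtain ⟨G, hG, hGj⟩ : ∃ G : ν → BM (X × I) Y, (∀ k, Good 𝒢 (α.prod triv) β D (G k)) ∧
      ∀ k a t, (G k).f (i k a, t) = (H k).f (a, t) :=
    ⟨fun k => (H k).ext0 _ ((ho k).prodR (triv : Act S I)).emb,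
      fun k => (hH k).ext0 ((ho k).prodR triv),
      fun k a t => BM.ext0_j (H k) _ ((ho k).prodR (triv : Act S I)).emb (a, t)⟩
  have hcont : Continuous fun q : X × I => (G (c q.1)).f q := by
    rw [continuous_iff_continuousAt]
    intro q
    refine ((G (c q.1)).cont.continuousAt (x := q)).congr ?_
    have h2 : Prod.fst ⁻¹' range (i (c q.1)) ∈ 𝓝 q :=
      ((ho _).emb.isOpen_range.preimage continuous_fst).mem_nhds (hc q.1)
    filter_upwards [h2] with q' hq'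
    obtain ⟨a, ha⟩ := hq'
    rw [← ha, hci]
  refine ⟨BM.mk' _ hcont fun K hK => ?_, ⟨fun g hg q => ?_, fun q y hy => (hG _).mem q y hy⟩,
    fun x => ?_, fun x => ?_⟩
  · choose C hC hC' using fun k => (G k).exists_compact hK
    exact ⟨⋃ k, C k, isCompact_iUnion hC, fun q y hy hyK => mem_iUnion.2 ⟨_, hC' _ q y hy hyK⟩⟩
  · have e : c (α g q.1) = c q.1 := by
      obtain ⟨a, ha⟩ := hc q.1
      conv_lhs => rw [← ha, ← (ho _).eqv g hg, hci]
    change (G (c (α g q.1))).f (α.prod triv g q) = ((G (c q.1)).f q).map (β g)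
    rw [e]
    exact (hG _).eqv g hg q
  · obtain ⟨a, ha⟩ := hc x
    change (G (c x)).f (x, 0) = f.f x
    generalize c x = k at ha
    subst ha
    rw [hGj, h0]
    rfl
  · obtain ⟨a, ha⟩ := hc x
    change (G (c x)).f (x, 1) = ∞
    generalize c x = k at ha
    subst ha
    rw [hGj, h1]
    rfl

theorem SysX_van {ν : Type} [Fintype ν] {αA : Act S A} {i : ν → A → X}
    (hp : ∀ k, PMap 𝒢 αA α (i k)) (ho : ∀ k, OEmb 𝒢 αA α (i k))
    (hdis : ∀ k l a b, i k a = i l b → k = l) (hcov : ∀ x, ∃ k, x ∈ range (i k))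
    {x : E sy 𝒢 α β d} (h : ∀ k, pull (hp k) x = 0) : x = 0 := by
  classical
  have key : ∀ s : Finset ν, ∃ L f hf, x = cl L f hf ∧
      ∀ k ∈ s, sy.Hm 𝒢 αA β d L (f.pre _ ((hp k).prodR (sy.bα L)).proper) BM.zero := by
    intro s
    induction s using Finset.induction_on with
    | empty =>
      obtain ⟨L, f, hf, e⟩ := cl_surj x
      exact ⟨L, f, hf, e, fun k hk => absurd hk (Finset.notMem_empty k)⟩
    | insert k s _ ih =>
      obtain ⟨L, f, hf, e, hs⟩ := ih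
      have h1 := h k
      rw [e, pull_cl, cl_eq_zero_iff] at h1
      obtain ⟨L', μ, hμ, h1⟩ := h1
      refine ⟨L', μ.tr f, gd_tr hμ hf, e.trans (cl_tr hμ hf).symm, fun l hl => ?_⟩
      rw [← SysX_tr_pre μ f ((hp l).prodR (sy.bα L)).proper]
      rcases Finset.mem_insert.1 hl with rfl | hl
      · exact h1
      · have h2 := hm_tr hμ (hs l hl)
        rwa [SysX_tr_zero] at h2
  obtain ⟨L, f, hf, rfl, hs⟩ := key Finset.univ
  refine cl_eq_zero_of_ht (SysX_glue (fun k => (hp k).prodR (sy.bα L))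
    (fun k => (ho k).prodR (sy.bα L)) (fun k l a b e => hdis k l _ _ (congrArg Prod.fst e))
    (fun q => ?_) fun k => hs k (Finset.mem_univ k))
  obtain ⟨k, a, ha⟩ := hcov q.1
  exact ⟨k, (a, q.2), Prod.ext ha rfl⟩

theorem sum_push_pull {ν : Type} [Fintype ν] {αA : Act S A} {i : ν → A → X}
    (hp : ∀ k, PMap 𝒢 αA α (i k)) (ho : ∀ k, OEmb 𝒢 αA α (i k))
    (hdis : ∀ k l a b, i k a = i l b → k = l) (hcov : ∀ x, ∃ k, x ∈ range (i k))
    (x : E sy 𝒢 (α.prod (triv : Act S J)) β d) :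
    x = ∑ k, push ((ho k).prodR triv) (pull ((hp k).prodR triv) x) := by
  rw [← sub_eq_zero]
  refine SysX_van (fun k => (hp k).prodR (triv : Act S J)) (fun k => (ho k).prodR triv)
    (fun k l a b e => hdis k l _ _ (congrArg Prod.fst e)) (fun q => ?_) fun l => ?_
  · obtain ⟨k, a, ha⟩ := hcov q.1
    exact ⟨k, (a, q.2), Prod.ext ha rfl⟩
  · let φ : E sy 𝒢 (α.prod (triv : Act S J)) β d →+ E sy 𝒢 (αA.prod (triv : Act S J)) β d :=
      AddMonoidHom.mk' (pull ((hp l).prodR triv)) (pull_add (hp l))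
    have hφ : ∀ y, φ y = pull ((hp l).prodR triv) y := fun _ => rfl
    rw [← hφ, map_sub, map_sum, Finset.sum_eq_single l, hφ, hφ, pull_push_self, sub_self]
    · intro k _ hk
      rw [hφ]
      refine pull_push_zero _ _ ?_ _
      rintro a ⟨b, hb⟩
      exact hk (hdis _ _ _ _ (congrArg Prod.fst hb))
    · intro hl
      exact absurd (Finset.mem_univ l) hl

section Ind

variable [Group S] [TopologicalSpace S] [IsTopologicalGroup S] {𝒦 ℋ : Subgroup S}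
  {αA : Act S A} {i : A → X}

omit [LC Y] [IsTopologicalGroup S] in
theorem SysX_D (hs : sy.Grp) (hd : ∀ g ∈ 𝒦, ∀ y, d (β g y) = d y) (L : sy.Lv) :
    ∀ g ∈ 𝒦, ∀ q ∈ sy.D L d, (sy.tα L).prod β g q ∈ sy.D L d := by
  intro g hg q hq
  change sy.dg L (sy.tα L g q.1) = (d (β g q.2) : ℂ)
  rw [hs.dg, hd g hg]
  exact hq

theorem ind_inj (hs : sy.Grp) (h : Slice (𝒦 : Set S) ℋ αA α i) (hc : IsCompact (𝒦 : Set S))
    (hα : GA (𝒦 : Set S) α) (hβ : GA (𝒦 : Set S) β) (hd : ∀ g ∈ 𝒦, ∀ y, d (β g y) = d y)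
    {x y : E sy 𝒦 α β d} (he : pull h.pmap (res h.sub x) = pull h.pmap (res h.sub y)) :
    x = y := by
  obtain ⟨L, f, g, hf, hg, rfl, rfl⟩ := cl_common x y
  rw [res_cl, res_cl, pull_cl, pull_cl, cl_eq_iff'] at he
  obtain ⟨L', μ, hμ, he⟩ := he
  have hb : GA (𝒦 : Set S) (sy.bα L') := (hs.b L').mono (subset_univ _)
  rw [SysX_tr_pre μ f _ (h.prodR hb).pmap.proper, SysX_tr_pre μ g _ (h.prodR hb).pmap.proper] at he
  exact cl_eq_iff'.2 ⟨L', μ, hμ, ind_ht (h.prodR hb) hc (hα.prod hb)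
    (((hs.t L').mono (subset_univ _)).prod hβ) (SysX_D hs hd L') (gd_tr hμ hf) (gd_tr hμ hg) he⟩

theorem ind_surj (hs : sy.Grp) (h : Slice (𝒦 : Set S) ℋ αA α i) (hc : IsCompact (𝒦 : Set S))
    (hα : GA (𝒦 : Set S) α) (hβ : GA (𝒦 : Set S) β) (hd : ∀ g ∈ 𝒦, ∀ y, d (β g y) = d y)
    (y : E sy ℋ αA β d) : ∃ x : E sy 𝒦 α β d, pull h.pmap (res h.sub x) = y := by
  obtain ⟨L, f, hf, rfl⟩ := cl_surj y
  have hb : GA (𝒦 : Set S) (sy.bα L) := (hs.b L).mono (subset_univ _)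
  obtain ⟨F, hF, hFf⟩ := ind_ext (h.prodR hb) hc (hα.prod hb)
    (((hs.t L).mono (subset_univ _)).prod hβ) (SysX_D hs hd L) hf
  refine ⟨cl L F hF, ?_⟩
  rw [res_cl, pull_cl]
  exact cl_congr hFf

end Ind

end RB
end

-- merged part: Pool.Agent.Work.MP_666b5d_gt.L1
section
/-!
# Euler classes: trivial characters, and the subgroup of characters killing a class

Proof hints.  `m1_triv`: the ray `(x, r) ↦ f x ⊕ (1, r)` (`null_of_ray`).
`m1_add`: for `f` on `(X × ℂˣ) × ℂ^ι` pass to the target index set `κ ⊕ Bool` with weights `w`,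
`w + v` (by `cl_reidx`), where the two maps are `f ⊕ (diag (1, 0), 0)` and `f ⊕ (diag (0, 1), 0)`;
they are joined by `f ⊕ (l lᴴ, 0)` with the unit vector `l = (cos (π t / 2), sin (π t / 2) u / ‖u‖)`
(a `Fam` with `a = fst`, `B = fromRows 1 0`; `Tr.prodY`, `Tr.ht_path`).
`m1_add_of`: if `m1 v x = 0` then `su1 v x = push y` (`src_exact`, `sndr_zero`, `pull_su1`); commute
`m1` past `su1` and `push`, use `m1_add` and `su1_inj`.
-/

open Set Filter Topology Matrix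
open scoped unitInterval

namespace RB

open Act

variable {M : Type} [AddCommGroup M] {X : Type} [TopologicalSpace X] [LC X] {𝒢 : Set (Gam M)}
  {α : Act (Gam M) X} {n n' : ℤ}

/-- Transition data from a proper map of targets and a proper parameter map. -/
def L1_tr {A T A' T' R : Type} [TopologicalSpace A] [TopologicalSpace T] [TopologicalSpace A']
    [TopologicalSpace T'] [TopologicalSpace R] (S : T × R → T') (hS : IsProperMap S)
    (P : A' → A × R) (hP : IsProperMap P) : Tr A T A' T' where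
  a x := (P x).1
  Ψ p := S (p.1, (P p.2).2)
  ca := hP.continuous.fst
  cΨ := hS.continuous.comp (continuous_fst.prodMk (hP.continuous.snd.comp continuous_snd))
  p1 _ hK := ⟨_, (hS.isCompact_preimage hK).image continuous_fst, fun _ _ h => ⟨_, h, rfl⟩⟩
  p2 _ _ hK hC := ⟨_, hP.isCompact_preimage
    (hC.prod ((hS.isCompact_preimage hK).image continuous_snd)), fun _ _ h h' => ⟨h', _, h, rfl⟩⟩

theorem L1_sumP (κ ν : Type) [Fintype κ] [Fintype ν] :
    IsProperMap fun p : (Ea κ × Unit) × Ea ν => (Ea.sum p.1.1 p.2, p.1.2) :=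
  (Ea.sum_proper.prodMap isProperMap_id).comp (Sys_swap (Ea κ) Unit (Ea ν)).isProperMap

omit [LC X] in
theorem L1_good {ν A : Type} [Fintype ν] [DecidableEq ν] [TopologicalSpace A] {L : Lv M} {f}
    (hf : (MU M).Gd 𝒢 α (triv : Act (Gam M) Unit) (fun _ => n) L f) (h : n' = n + 1) (ω : ν → M)
    {γ : Act (Gam M) A} {P : A → (X × (L.ι → ℂ)) × Ea ν}
    (hP : PMap 𝒢 γ ((α.prod (rp L.w)).prod (ea ω)) P) (ht : ∀ x, (P x).2.1.1.trace = 1) :
    Good 𝒢 γ ((ea (Sum.elim L.u ω)).prod triv) ((MU M).D (L.addT ω) fun _ : Unit => n')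
      ((L1_tr _ (L1_sumP L.κ ν) P hP.proper).ap f) := by
  refine Tr.good_ap ⟨fun g hg x => congrArg Prod.fst (hP.eqv g hg x), fun g hg t x => ?_⟩
    (fun t ht' x => ?_) hf
  · refine Prod.ext ?_ rfl
    change Ea.sum (ea L.u g t.1) (P (γ g x)).2 = ea _ g (Ea.sum t.1 (P x).2)
    rw [hP.eqv g hg, ← Ea.sum_ea]
    rfl
  · have h1 : t.1.1.1.trace - (Fintype.card L.ι : ℂ) = (n : ℂ) := ht'
    change (Ea.sum t.1 (P x).2).1.1.trace - (Fintype.card L.ι : ℂ) = (n' : ℂ)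
    rw [Ea.sum_trace, ht, h]
    push_cast
    linear_combination h1

theorem m1_triv {w : M} (hw : ∀ g ∈ 𝒢, g.a w = 1) (h : n' = n + 1) (x : E0 𝒢 α n) :
    m1 w h x = 0 := by
  obtain ⟨L, f, hf, rfl⟩ := cl_surj x
  have h1 : IsProperMap fun r : Ici (0 : ℝ) => Ea.full fun _ : Unit => ((r : ℝ) : ℂ) :=
    Ea.full_proper.comp ((Homeomorph.funUnique Unit ℂ).symm.isProperMap.comp
      (Complex.isometry_ofReal.isClosedEmbedding.isProperMap.comp
        isClosed_Ici.isClosedEmbedding_subtypeVal.isProperMap))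
  have hP : PMap 𝒢 ((α.prod (rp L.w)).prod triv) ((α.prod (rp L.w)).prod (ea fun _ : Unit => w))
      fun p : (X × (L.ι → ℂ)) × Ici (0 : ℝ) => (p.1, Ea.full fun _ : Unit => ((p.2 : ℝ) : ℂ)) := by
    refine ⟨isProperMap_id.prodMap h1, fun g hg p => Prod.ext rfl ?_⟩
    change Ea.full _ = ea _ g (Ea.full _)
    rw [← Ea.full_ea]
    congr 1
    funext i
    change ((p.2 : ℝ) : ℂ) = ch g w * tw g.e ((p.2 : ℝ) : ℂ)
    rw [ch_eq_one.2 (hw g hg), Gam_tw_real, one_mul]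
  have h2 := L1_good hf h _ hP fun x => by simpa using Ea.full_trace (ν := Unit) _
  exact cl_eq_zero_of_ht (sy := MU M) (L := Lv.addT L fun _ : Unit => w)
    (null_of_ray (f := absB _ (pmap_euler (𝒢 := 𝒢) fun _ : Unit => w).proper f) h2 fun _ => rfl)

section Line

variable {ν : Type} [Fintype ν]

/-- The line spanned by a unit vector, with the zero vector. -/
def L1_line (l : ν → ℂ) (h : star l ⬝ᵥ l = 1) : Ea ν :=
  ⟨(vecMulVec l (star l), 0), ⟨by rw [conjTranspose_vecMulVec, star_star],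
    by rw [vecMulVec_mul_vecMulVec, h, one_smul]⟩, mulVec_zero _⟩

theorem L1_line_trace (l : ν → ℂ) (h : star l ⬝ᵥ l = 1) : (L1_line l h).1.1.trace = 1 := by
  change (vecMulVec l (star l)).trace = 1
  rw [trace_vecMulVec, dotProduct_comm, h]

theorem L1_line_ea (ω : ν → M) (w : M) (g : Gam M) {l l' : ν → ℂ} (h : star l ⬝ᵥ l = 1)
    (h' : star l' ⬝ᵥ l' = 1) (e : ∀ i, l' i = ch g (ω i - w) * tw g.e (l i)) :
    L1_line l' h' = ea ω g (L1_line l h) := by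
  refine Subtype.ext (Prod.ext ?_ (rp_zero ω g).symm)
  ext i j
  change l' i * star (l' j) = ch g (ω i - ω j) * tw g.e (l i * star (l j))
  rw [e, e, ← sub_sub_sub_cancel_right (ω i) (ω j) w, ch_sub g (ω i - w), Gam_tw_mul, tw_star,
    star_mul']
  ring

/-- The embedding of index sets that sends the new index to `b`. -/
def L1_emb (κ : Type) (b : ν) : κ ⊕ Unit ↪ κ ⊕ ν :=
  (Function.Embedding.refl κ).sumMap ⟨fun _ => b, fun _ _ _ => rfl⟩

theorem L1_ext0 {κ : Type} [Fintype κ] (b : ν) {l : ν → ℂ} (h : star l ⬝ᵥ l = 1)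
    (h0 : ∀ c, c ≠ b → l c = 0) (q : Ea κ) :
    Ea.ext0 (L1_emb κ b) (Ea.sum q (Ea.full 0)) = Ea.sum q (L1_line l h) := by
  refine Ea.ext0_eq _ ?_ ?_ ?_
  · rintro (j | j) (k | k)
    · rfl
    · rfl
    · rfl
    · change l b * star (l b) = 1
      rw [← h, dotProduct, Finset.sum_eq_single b (fun c _ hc => by rw [h0 c hc, mul_zero])
        (by simp), mul_comm]
      rfl
  · rintro (j | j) hj (k | k)
    · exact absurd ⟨Sum.inl j, rfl⟩ hj
    · rfl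
    · rfl
    · change l j * star (l k) = 0
      rw [h0 j fun e => hj ⟨Sum.inr (), congrArg Sum.inr e.symm⟩, zero_mul]
  · rintro (j | j) <;> rfl

end Line

/-- The path of unit vectors. -/
noncomputable def L1_vec (u : Nz ℂ) (t : I) : Bool → ℂ
  | false => (√(1 - (t : ℝ)) : ℝ)
  | true => ((√(t : ℝ) / ‖u.1‖ : ℝ) : ℂ) * u.1

theorem L1_vec_unit (u : Nz ℂ) (t : I) : star (L1_vec u t) ⬝ᵥ L1_vec u t = 1 := by
  have h0 : ‖u.1‖ ≠ 0 := norm_ne_zero_iff.2 u.2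
  have h1 : nsq (L1_vec u t) = 1 := by
    simp only [nsq, Fintype.sum_bool, L1_vec, norm_mul, Complex.norm_real, Real.norm_eq_abs,
      mul_pow, sq_abs, div_pow, Real.sq_sqrt t.2.1, Real.sq_sqrt (sub_nonneg.2 t.2.2)]
    field_simp
    ring
  rw [← nsq_cast, h1]
  rfl

theorem L1_vec_cont : Continuous fun p : Nz ℂ × I => L1_vec p.1 p.2 := by
  refine continuous_pi fun b => ?_
  cases b
  · simp only [L1_vec]
    fun_prop
  · simp only [L1_vec]
    refine (Complex.continuous_ofReal.comp (Continuous.div (by fun_prop) (by fun_prop)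
      fun p => norm_ne_zero_iff.2 p.1.2)).mul (by fun_prop)

theorem L1_vec_eqv (v w : M) (g : Gam M) (u : Nz ℂ) (t : I) (b : Bool) :
    L1_vec ((cw v).nz g u) t b = ch g (cond b (w + v) w - w) * tw g.e (L1_vec u t b) := by
  cases b
  · simp only [L1_vec, cond_false, sub_self, ch_zero, one_mul, Gam_tw_real]
  · simp only [L1_vec, cond_true, add_sub_cancel_left, Gam_tw_mul, Gam_tw_real,
      (niso_cw univ v).nz_val (mem_univ g), (niso_cw univ v).norm_eq g (mem_univ g)]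
    rw [cw]
    ring

theorem m1_add (v w : M) (h : n' = n + 1) (y : E0 𝒢 (α.prod (cw v).nz) n) :
    m1 (w + v) h y = m1 w h y := by
  obtain ⟨L, f, hf, rfl⟩ := cl_surj y
  let ω : Bool → M := fun b => cond b (w + v) w
  have c1 : Continuous fun p : ((X × Nz ℂ) × (L.ι → ℂ)) × I => L1_vec p.1.1.2 p.2 :=
    L1_vec_cont.comp (continuous_fst.fst.snd.prodMk continuous_snd)
  have hP : PMap 𝒢 (((α.prod (cw v).nz).prod (rp L.w)).prod triv)
      (((α.prod (cw v).nz).prod (rp L.w)).prod (ea ω))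
      fun p : ((X × Nz ℂ) × (L.ι → ℂ)) × I => (p.1, L1_line _ (L1_vec_unit p.1.1.2 p.2)) :=
    ⟨isProperMap_of_comp_of_t2 (continuous_fst.prodMk
      (((c1.matrix_vecMulVec c1.star).prodMk continuous_const).subtype_mk _)) continuous_fst
      proper_fst, fun g _ p => Prod.ext rfl
        (L1_line_ea ω w g (L1_vec_unit _ _) (L1_vec_unit _ _) (L1_vec_eqv v w g _ _))⟩
  have h2 := L1_good hf h ω hP fun x => L1_line_trace _ (L1_vec_unit _ _)
  have h3 : (MU M).Hm 𝒢 (α.prod (cw v).nz) triv (fun _ => n') (Lv.addT L ω)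
      (BM.pre ((L1_tr _ (L1_sumP L.κ Bool) _ hP.proper).ap f) _ (proper_at 0))
      (BM.pre ((L1_tr _ (L1_sumP L.κ Bool) _ hP.proper).ap f) _ (proper_at 1)) :=
    ⟨_, h2, fun _ => rfl, fun _ => rfl⟩
  have key : ∀ (b : Bool) (t : I) (hg : (MU M).Gd 𝒢 (α.prod (cw v).nz) triv (fun _ => n')
      (Lv.addT L ω) (BM.pre ((L1_tr _ (L1_sumP L.κ Bool) _ hP.proper).ap f) _ (proper_at t))),
      (∀ u c, c ≠ b → L1_vec u t c = 0) →
      cl (sy := MU M) (Lv.addT L ω) _ hg = m1 (ω b) h (cl L f hf) := fun b t hg h0 => by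
    refine cl_reidx (L := Lv.addT L fun _ : Unit => ω b) (L' := Lv.addT L ω) (Equiv.refl _)
      (L1_emb L.κ b) (fun _ _ _ => rfl) (by rintro g - (j | j) <;> rfl)
      (gd_mF _ (deg_unit h) hf) hg fun x z => ?_
    rw [absB_f, omap_map]
    exact omap_congr _ fun q _ => Prod.ext (L1_ext0 b (L1_vec_unit _ _) (h0 x.2) q.1).symm rfl
  refine (key true 1 h3.right fun u c hc => ?_).symm.trans
    ((cl_htpy h3).symm.trans (key false 0 h3.left fun u c hc => ?_))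
  · rw [Bool.eq_false_iff.2 hc]
    simp [L1_vec]
  · rw [Bool.eq_true_of_not_eq_false hc]
    simp [L1_vec]

theorem exists_push_of_m1 {v : M} (h : n' = n + 1) {x : E0 𝒢 α n} (hx : m1 v h x = 0) :
    ∃ y, su1 v h x = push ((nz_oemb (niso_cw 𝒢 v)).prodL α) y :=
  src_exact (sndr_zero (niso_cw 𝒢 v) α) _ ((pull_su1 v h _ x).trans hx)

theorem m1_add_of {v : M} (h : n' = n + 1) {x : E0 𝒢 α n} (hx : m1 v h x = 0) (w : M) :
    m1 (w + v) h x = m1 w h x := by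
  obtain ⟨y, hy⟩ := exists_push_of_m1 h hx
  have key : ∀ u : M, su1 v rfl (m1 u h x) =
      push ((nz_oemb (niso_cw 𝒢 v)).prodL α) (m1 u rfl y) := fun u => by
    rw [m1, ← mF_su1 _ v h (deg_unit rfl), hy, mF_push]
    rfl
  refine su1_inj v rfl ?_
  rw [key, key, m1_add]

/-- The characters whose Euler class kills `x`. -/
def kil (x : E0 𝒢 α n) : AddSubgroup M where
  carrier := {w | m1 w rfl x = 0}
  add_mem' := fun ha hb => (m1_add_of rfl hb _).trans ha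
  zero_mem' := m1_triv (fun g _ => g.a.map_zero_eq_one) rfl x
  neg_mem' := fun {a} ha => by
    have h := m1_add_of rfl ha (-a)
    rw [neg_add_cancel] at h
    exact h.symm.trans (m1_triv (fun g _ => g.a.map_zero_eq_one) rfl x)

theorem mem_kil {x : E0 𝒢 α n} {w : M} : w ∈ kil x ↔ m1 w rfl x = 0 := Iff.rfl

theorem kil_le_m1 (x : E0 𝒢 α n) (w : M) (h : n' = n + 1) : kil x ≤ kil (m1 w h x) := by
  subst h
  intro v hv
  have h1 : mF (fun _ : Unit => v) (deg_unit rfl) x = 0 := hv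
  rw [mem_kil, m1, m1, mF_comm _ _ _ _ (deg_unit rfl) (deg_unit rfl), h1, mF_zero]

end RB
end
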