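import Pool.Agent.Work.MP_666b5d_gt.L1
import Pool.Agent.Work.MP_666b5d_gt.Br3
import Pool.Agent.Work.MP_666b5d_gt.Serre

-- merged part: Pool.Agent.Work.MP_666b5d_gt.EE3
section
/-!
# Additivity, inflation, the suspensions `sJ` and `suJ`

Proof hints.  Additivity: `E.lift_add` or `cl_common`, `cl_add` with `cat_nat`.  Inflation:
`cl_weights` (all weights act trivially on a group with `h.a = 1`).  `suJ`, `sJ` are pull-backs of
`su1` along equivariant homeomorphisms (`pull_inv`).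
-/

open Set Filter Topology Matrix
open scoped unitInterval

namespace RB

open Act

variable {M M' : Type} [AddCommGroup M] [AddCommGroup M'] {X X' Y Y' : Type} [TopologicalSpace X]
  [TopologicalSpace X'] [TopologicalSpace Y] [TopologicalSpace Y'] [LC X] [LC X'] [LC Y] [LC Y']
  {𝒢 ℋ : Set (Gam M)} {𝒦 𝒦' : Set (Gam M')} {α : Act (Gam M) X} {α' : Act (Gam M) X'}
  {β : Act (Gam M) Y} {β' : Act (Gam M) Y'} {α₁ : Act (Gam M') X} {α₁' : Act (Gam M') X'}
  {β₁ : Act (Gam M') Y} {β₁' : Act (Gam M') Y'} {d : Y → ℤ} {d' : Y' → ℤ}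
  {ν : Type} [Fintype ν] [DecidableEq ν] {n n' n₁ n₂ : ℤ}

omit [LC X] in
theorem EE3_swap_inv {Z : Type} [TopologicalSpace Z] (α : Act (Gam M) X) (γ : Act (Gam M) Z) :
    PMap 𝒢 ((α.prod (triv : Act (Gam M) J)).prod γ) ((α.prod γ).prod triv)
      fun p : (X × J) × Z => ((p.1.1, p.2), p.1.2) :=
  ⟨(Sys_swap X J Z).isProperMap, fun _ _ _ => rfl⟩

omit [LC X] in
theorem EE3_eC_inv (α : Act (Gam M) X) :
    PMap 𝒢 (α.prod (cw 0)) ((α.prod (sa sg)).prod (triv : Act (Gam M) J))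
      fun p : X × ℂ => ((p.1, (eC p.2).1), (eC p.2).2) := by
  refine ⟨(Homeomorph.prodAssoc X ℝ J).symm.isProperMap.comp
    (isProperMap_id.prodMap eC.isProperMap), fun g _ p => ?_⟩
  change ((α g p.1, (eC (ch g 0 * tw g.e p.2)).1), (eC (ch g 0 * tw g.e p.2)).2) = _
  rw [ch_zero, one_mul, eC_tw]
  rfl

theorem mF_add (ω : ν → M) (h : n' = n + Fintype.card ν)
    (x y : E0 𝒢 (α.prod (triv : Act (Gam M) J)) n) : mF ω h (x + y) = mF ω h x + mF ω h y := by
  obtain ⟨L, f, g, hf, hg, rfl, rfl⟩ := cl_common x y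
  rw [cl_add, mF_cl, mF_cl, mF_cl, cl_add]
  refine cl_congr fun p => congrArg (fun k => BM.f k p) ?_
  exact cat_nat (f := f) (g := g) fun a b => Or.inr ⟨a, b,
    OnePoint.map fun q => (Ea.sum q.1 (Ea.full (0 : ν → ℂ)), q.2), rfl, fun s => ⟨rfl, rfl, rfl⟩⟩

theorem suJ_add (w : M) (h : n' = n + 1) (x y : E0 𝒢 (α.prod (triv : Act (Gam M) J)) n) :
    suJ w h (x + y) = suJ w h x + suJ w h y := by
  obtain ⟨L, f, g, hf, hg, rfl, rfl⟩ := cl_common x y
  rw [cl_add]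
  unfold suJ su1
  rw [su_cl, su_cl, su_cl, pull_cl, pull_cl, pull_cl, pull_cl, pull_cl, pull_cl, cl_add]
  refine cl_congr fun p => congrArg (fun k => BM.f k p) ?_
  exact cat_nat (f := f) (g := g) fun a b => Or.inr ⟨a.1, b,
    OnePoint.map fun q => (Ea.sum q.1 (Ea.full fun _ : Unit => a.2), q.2), rfl,
    fun s => ⟨rfl, rfl, rfl⟩⟩

theorem suJ_inj (w : M) (h : n' = n + 1) {x y : E0 𝒢 (α.prod (triv : Act (Gam M) J)) n}
    (he : suJ w h x = suJ w h y) : x = y := by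
  have := congrArg (pull (EE3_swap_inv α (cw w))) he
  unfold suJ at this
  rw [pull_inv _ _ (fun _ => rfl), pull_inv _ _ (fun _ => rfl)] at this
  exact su1_inj w h this

theorem suJ_surj (w : M) (h : n' = n + 1)
    (y : E0 𝒢 ((α.prod (cw w)).prod (triv : Act (Gam M) J)) n') :
    ∃ x : E0 𝒢 (α.prod (triv : Act (Gam M) J)) n, suJ w h x = y := by
  obtain ⟨x, hx⟩ := su1_surj w h (pull (EE3_swap_inv α (cw w)) y)
  refine ⟨x, ?_⟩
  unfold suJ
  rw [hx, pull_inv _ _ (fun _ => rfl)]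

@[simp] theorem suJ_zero (w : M) (h : n' = n + 1) :
    suJ w h (0 : E0 𝒢 (α.prod (triv : Act (Gam M) J)) n) = 0 := by
  unfold suJ
  rw [su1_zero, pull_zero]

theorem res_suJ (w : M) (h : n' = n + 1) (hs : ℋ ⊆ 𝒢)
    (x : E0 𝒢 (α.prod (triv : Act (Gam M) J)) n) : res hs (suJ w h x) = suJ w h (res hs x) := by
  unfold suJ
  rw [res_pull, res_su1]

theorem pull_suJ (w : M) (h : n' = n + 1) (hz : PMap 𝒢 α (α.prod (cw w)) fun x => (x, 0))
    (x : E0 𝒢 (α.prod (triv : Act (Gam M) J)) n) :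
    pull (hz.prodR triv) (suJ w h x) = m1 w h x := by
  have hk : PMap 𝒢 (α.prod (triv : Act (Gam M) J)) ((α.prod triv).prod (cw w))
      fun x => (x, 0) := (pmap_swapJ α (cw w)).comp (hz.prodR triv)
  unfold suJ
  rw [pull_pull _ _ hk (fun _ => rfl), pull_su1]

theorem sJ_inj (h : n' = n + 1) {x y : E0 𝒢 α n} (he : sJ h x = sJ h y) : x = y := by
  have := congrArg (pull (EE3_eC_inv α)) he
  have e : ∀ p : X × ℂ, (p.1, eC.symm ((eC p.2).1, (eC p.2).2)) = p := fun p =>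
    Prod.ext rfl (eC.symm_apply_apply p.2)
  unfold sJ at this
  rw [pull_inv _ _ e, pull_inv _ _ e] at this
  exact su1_inj 0 h this

theorem sJ_surj (h : n' = n + 1) (y : E0 𝒢 ((α.prod (sa sg)).prod (triv : Act (Gam M) J)) n') :
    ∃ x : E0 𝒢 α n, sJ h x = y := by
  obtain ⟨x, hx⟩ := su1_surj 0 h (pull (EE3_eC_inv α) y)
  refine ⟨x, ?_⟩
  unfold sJ
  rw [hx]
  refine pull_inv _ _ (fun p => ?_) y
  dsimp only
  rw [eC.apply_symm_apply]

@[simp] theorem sJ_zero (h : n' = n + 1) : sJ h (0 : E0 𝒢 α n) = 0 := by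
  unfold sJ
  rw [su1_zero, pull_zero]

theorem van_sJ (h : n' = n + 1) : (∀ x : E0 𝒢 α n, x = 0) ↔
    ∀ y : E0 𝒢 ((α.prod (sa sg)).prod (triv : Act (Gam M) J)) n', y = 0 := by
  constructor
  · intro hv y
    obtain ⟨x, rfl⟩ := sJ_surj h y
    rw [hv x, sJ_zero]
  · intro hv x
    exact sJ_inj h ((hv _).trans (sJ_zero h).symm)

theorem mF_sJ (ω : ν → M) (h₁ : n₁ = n + 1) (h₂ : n' = n₁ + Fintype.card ν)
    (h₃ : n₂ = n + Fintype.card ν) (h₄ : n' = n₂ + 1) (x : E0 𝒢 α n) :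
    mF ω h₂ (sJ h₁ x) = sJ h₄ (mF ω h₃ x) := by
  unfold sJ
  rw [mF_pull, mF_su1 ω 0 h₁ h₂ h₃ h₄]

theorem res_sJ (h : n' = n + 1) (hs : ℋ ⊆ 𝒢) (x : E0 𝒢 α n) :
    res hs (sJ h x) = sJ h (res hs x) := by
  unfold sJ
  rw [res_pull, res_su1]

/-- Vanishing in dimension five: three sign lines and two trivial lines. -/
theorem van_five {γ : Act (Gam M) ((ℝ × ℝ) × ℝ × J)}
    (hγ : ∀ g ∈ 𝒢, ∀ p, γ g p = (((sa sg).prod (sa sg)).prod ((sa sg).prod triv)) g p)
    (h : n' = n + 2) (hv : ∀ x : E0 𝒢 (sa sg) n, x = 0)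
    (y : E0 𝒢 (γ.prod (triv : Act (Gam M) J)) n') : y = 0 := by
  have h1 := (van_sJ (n' := n + 1) rfl).1 hv
  have h2 := (van_sJ (n' := n') (by rw [h]; ring)).1 h1
  let c : (((ℝ × ℝ) × J) × ℝ) × J ≃ₜ ((ℝ × ℝ) × ℝ × J) × J :=
    ((Sys_swap (ℝ × ℝ) J ℝ).trans (Homeomorph.prodAssoc (ℝ × ℝ) ℝ J)).prodCongr (Homeomorph.refl J)
  refine van_homeo c (fun g hg p => ?_) h2 y
  rw [prod_apply γ, hγ g hg]
  rfl

/-! ### Inflation -/

@[simp] theorem infl_zero (h : Infl ℋ 𝒦 α α₁ β β₁) : infl h (0 : EM ℋ α β d) = 0 := by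
  exact E.lift_zero fun _ => rfl

theorem Infl.mono (h : Infl ℋ 𝒦 α α₁ β β₁) (hs : 𝒦' ⊆ 𝒦) : Infl ℋ 𝒦' α α₁ β β₁ :=
  ⟨h.small, fun g hg => h.dom g (hs hg)⟩

theorem Infl.prod (h : Infl ℋ 𝒦 α α₁ β β₁) {Z : Type} (s : Act ℤˣ Z) [TopologicalSpace Z] :
    Infl ℋ 𝒦 (α.prod (sa s)) (α₁.prod (sa s)) β β₁ := by
  refine ⟨h.small, fun g hg => ?_⟩
  obtain ⟨k, hk, he, h1, h2⟩ := h.dom g hg
  exact ⟨k, hk, he, funext fun p => Prod.ext (congrFun h1 p.1)
    (congrArg (fun u => s u p.2) he.symm), h2⟩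

theorem Infl.prod_triv (h : Infl ℋ 𝒦 α α₁ β β₁) (Z : Type) [TopologicalSpace Z] :
    Infl ℋ 𝒦 (α.prod (triv : Act (Gam M) Z)) (α₁.prod (triv : Act (Gam M') Z)) β β₁ := by
  refine ⟨h.small, fun g hg => ?_⟩
  obtain ⟨k, hk, he, h1, h2⟩ := h.dom g hg
  exact ⟨k, hk, he, funext fun p => Prod.ext (congrFun h1 p.1) rfl, h2⟩

theorem EE3_small {ε : Bool} : ∀ h ∈ (ctx (⊤ : AddSubgroup M) ε : Set (Gam M)), h.a = 1 := by
  intro h hh
  ext w
  rw [hh.1 w trivial]
  rfl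

theorem infl_ctx (hα : SgnOnly α) (hβ : SgnOnly β) (Λ : AddSubgroup M) (ε : Bool) :
    Infl (ctx (⊤ : AddSubgroup M) ε : Set (Gam M)) (ctx Λ ε : Set (Gam M)) α α β β := by
  exact ⟨EE3_small, fun g hg => ⟨⟨1, g.e⟩, ⟨fun _ _ => rfl, hg.2⟩, rfl, hα.eq _ _ rfl,
    hβ.eq _ _ rfl⟩⟩

theorem infl_ctx' (s : Act ℤˣ X) (t : Act ℤˣ Y) (Λ : AddSubgroup M') (ε : Bool) :
    Infl (ctx (⊤ : AddSubgroup M) ε : Set (Gam M)) (ctx Λ ε : Set (Gam M')) (sa s) (sa s) (sa t)
      (sa t) := by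
  exact ⟨EE3_small, fun g hg => ⟨⟨1, g.e⟩, ⟨fun _ _ => rfl, hg.2⟩, rfl, rfl, rfl⟩⟩

theorem res_infl (h : Infl ℋ 𝒦 α α₁ β β₁) (hs : 𝒦' ⊆ 𝒦) (x : EM ℋ α β d) :
    res hs (infl h x) = infl (h.mono hs) x := by
  obtain ⟨L, f, hf, rfl⟩ := cl_surj x
  rfl

theorem EE3_zero (hs : ∀ h ∈ ℋ, h.a = 1) (L : Lv M) {f} (hf : (MU M).Gd ℋ α β d L f)
    (hf' : (MU M).Gd ℋ α β d (L.zero M) f) :
    cl (sy := MU M) (L.zero M) f hf' = cl (sy := MU M) L f hf :=
  cl_weights L 0 0 (fun g hg _ => by rw [EE_ch_small (hs g hg), EE_ch_small (hs g hg)])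
    (fun g hg _ => by rw [EE_ch_small (hs g hg), EE_ch_small (hs g hg)]) hf hf'

theorem infl_self (h : Infl ℋ ℋ α α β β) (x : EM ℋ α β d) : infl h x = x := by
  obtain ⟨L, f, hf, rfl⟩ := cl_surj x
  exact EE3_zero h.small L hf (gd_inf h hf)

theorem infl_infl (h : Infl ℋ 𝒦 α α₁ β β₁) (h' : Infl 𝒦 ℋ α₁ α β₁ β) (x : EM ℋ α β d) :
    infl h' (infl h x) = x := by
  obtain ⟨L, f, hf, rfl⟩ := cl_surj x
  exact EE3_zero h.small L hf (gd_inf h' (gd_inf h hf))

theorem infl_add (h : Infl ℋ 𝒦 (α.prod (triv : Act (Gam M) J)) (α₁.prod (triv : Act (Gam M') J))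
    β β₁) (x y : EM ℋ (α.prod (triv : Act (Gam M) J)) β d) :
    infl h (x + y) = infl h x + infl h y := by
  exact E.lift_add (fun _ _ _ => rfl) x y

theorem infl_postP (h : Infl ℋ 𝒦 α α₁ β β₁) (h' : Infl ℋ 𝒦 α α₁ β' β₁') {p : Y → Y'}
    (hp : PMap ℋ β β' p) (hp₁ : PMap 𝒦 β₁ β₁' p) (hd : ∀ y, d' (p y) = d y) (x : EM ℋ α β d) :
    infl h' (postP hp hd x) = postP hp₁ hd (infl h x) := by
  obtain ⟨L, f, hf, rfl⟩ := cl_surj x
  rfl

theorem infl_sJ (h : Infl ℋ 𝒦 α α₁ triv (triv : Act (Gam M') Unit)) (hn : n' = n + 1)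
    (x : E0 ℋ α n) : infl ((h.prod sg).prod_triv J) (sJ hn x) = sJ hn (infl h x) := by
  obtain ⟨L, f, hf, rfl⟩ := cl_surj x
  unfold sJ su1
  rw [infl_cl, su_cl, su_cl, pull_cl, pull_cl, pull_cl, pull_cl, infl_cl]
  refine (cl_weights ((Lv.addT L fun _ : Unit => (0 : M)).zero M') 0
    (Sum.elim 0 fun _ : Unit => (0 : M')) (fun _ _ _ => rfl) (fun g _ j => ?_) _ _).symm
  rcases j with j | j <;> rfl

/-- Representatives with zero weights. -/
theorem exists_rep0 (hs : ∀ h ∈ ℋ, h.a = 1) (x : EM ℋ α β d) :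
    ∃ (L : Lv M) (f : BM (X × (L.ι → ℂ)) (Ea L.κ × Y)) (hf : (MU M).Gd ℋ α β d (L.zero M) f),
      x = cl (sy := MU M) (L.zero M) f hf := by
  obtain ⟨L, f, hf, rfl⟩ := cl_surj x
  have h : Infl ℋ ℋ α α β β := ⟨hs, fun g hg => ⟨g, hg, rfl, rfl, rfl⟩⟩
  exact ⟨L, f, gd_inf h hf, (EE3_zero hs L hf _).symm⟩

theorem van_transfer (ε : Bool)
    (hv : ∀ x : E0 (ctx (⊤ : AddSubgroup M') ε : Set (Gam M')) (sa sg) n, x = 0)
    (x : E0 (ctx (⊤ : AddSubgroup M) ε : Set (Gam M)) (sa sg) n) : x = 0 := by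
  have h : Infl (ctx (⊤ : AddSubgroup M) ε : Set (Gam M)) (ctx (⊤ : AddSubgroup M') ε : Set (Gam M'))
      (sa sg) (sa sg) (triv : Act (Gam M) Unit) triv := infl_ctx' sg triv ⊤ ε
  have h' : Infl (ctx (⊤ : AddSubgroup M') ε : Set (Gam M')) (ctx (⊤ : AddSubgroup M) ε : Set (Gam M))
      (sa sg) (sa sg) (triv : Act (Gam M') Unit) triv := infl_ctx' sg triv ⊤ ε
  rw [← infl_infl h h' x, hv (infl h x), infl_zero]

end RB
end

-- merged part: Pool.Agent.Work.MP_666b5d_gt.Pow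
section
/-!
# The power operation in Fourier coordinates

`F` is a unitary matrix that turns the diagonal action of `𝒢` with weights `wt` into a permutation
action.  `asm F q = (1 ⊗ Fᴴ) (⊕ k, q k) (1 ⊗ F)`.

Proof hints.  `asm F q` is `B (blockDiagonal P) Bᴴ` with the unitary `B = 1 ⊗ Fᴴ`
(`Matrix.blockDiagonal`, `Matrix.kronecker`), or compute with sums and `Fᴴ F = 1 = F Fᴴ`.  From
`perm`, `four (rp g W) k = rp 0 g (four W (π k))` and `asm (k ↦ ea 0 g (q (π k))) = ea wt g (asm q)`.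
-/

open Set Filter Topology Matrix
open scoped unitInterval

namespace RB

open Act

/-- Fourier data. -/
structure PowData {M : Type} [AddCommGroup M] (𝒢 : Set (Gam M)) (K : Type) [Fintype K]
    [DecidableEq K] (k₀ : K) where
  F : Matrix K K ℂ
  wt : K → M
  wt0 : wt k₀ = 0
  uni : Fᴴ * F = 1
  c : ℝ
  hc : 0 < c
  col : ∀ k, F k k₀ = c
  perm : ∀ g ∈ 𝒢, ∃ π : Equiv.Perm K, ∀ k j, F k j * ch g (wt j) = tw g.e (F (π k) j)

variable {M : Type} [AddCommGroup M] {X : Type} [TopologicalSpace X] [LC X] {𝒢 : Set (Gam M)}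
  {α : Act (Gam M) X} {K : Type} [Fintype K] [DecidableEq K] {k₀ : K} {ι κ : Type} [Fintype ι]
  [Fintype κ] {n n' : ℤ}

/-- The position coordinates. -/
noncomputable def four (F : Matrix K K ℂ) (W : ι × K → ℂ) (k : K) : ι → ℂ :=
  fun i => ∑ j, F k j * W (i, j)

/-- The inverse of the position coordinates. -/
noncomputable def Pow_unf (F : Matrix K K ℂ) (v : K → ι → ℂ) : ι × K → ℂ :=
  fun a => ∑ k, star (F k a.2) * v k a.1

omit [Fintype ι] in
theorem Pow_four_unf {F : Matrix K K ℂ} (hF : Fᴴ * F = 1) (v : K → ι → ℂ) :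
    four F (Pow_unf F v) = v := by
  funext k i
  have h : ∀ l, ∑ j, F k j * star (F l j) = if k = l then 1 else 0 := fun l =>
    congrFun (congrFun (show F * Fᴴ = 1 from mul_eq_one_comm.1 hF) k) l
  simp only [four, Pow_unf, Finset.mul_sum, ← mul_assoc]
  rw [Finset.sum_comm]
  simp only [← Finset.sum_mul, h, ite_mul, one_mul, zero_mul, Finset.sum_ite_eq, Finset.mem_univ,
    if_true]

omit [Fintype ι] in
theorem Pow_unf_four {F : Matrix K K ℂ} (hF : Fᴴ * F = 1) (W : ι × K → ℂ) :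
    Pow_unf F (four F W) = W := by
  funext a
  have h : ∀ l, ∑ k, star (F k a.2) * F k l = if a.2 = l then 1 else 0 := fun l =>
    congrFun (congrFun hF a.2) l
  simp only [four, Pow_unf, Finset.mul_sum, ← mul_assoc]
  rw [Finset.sum_comm]
  simp only [← Finset.sum_mul, h, ite_mul, one_mul, zero_mul, Finset.sum_ite_eq, Finset.mem_univ,
    if_true]

omit [Fintype ι] [DecidableEq K] in
theorem Pow_cont_four (F : Matrix K K ℂ) : Continuous (four F : (ι × K → ℂ) → K → ι → ℂ) := by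
  unfold four
  fun_prop

omit [Fintype ι] [DecidableEq K] in
theorem Pow_cont_unf (F : Matrix K K ℂ) : Continuous (Pow_unf F : (K → ι → ℂ) → ι × K → ℂ) := by
  unfold Pow_unf
  fun_prop

omit [DecidableEq K] in
theorem Pow_mulVec (F : Matrix K K ℂ) (P : K → Matrix κ κ ℂ) (W : κ × K → ℂ) :
    (Matrix.of fun a b : κ × K => ∑ k, star (F k a.2) * P k a.1 b.1 * F k b.2) *ᵥ W =
      Pow_unf F fun k => P k *ᵥ four F W k := by
  funext a
  simp only [mulVec, dotProduct, of_apply, Pow_unf, four, Finset.sum_mul, Finset.mul_sum, mul_assoc]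
  rw [Finset.sum_comm]
  exact Finset.sum_congr rfl fun k _ => Fintype.sum_prod_type _

theorem Pow_mem {F : Matrix K K ℂ} (hF : Fᴴ * F = 1) (q : K → Ea κ) :
    IsP (Matrix.of fun a b : κ × K => ∑ k, star (F k a.2) * (q k).1.1 a.1 b.1 * F k b.2) ∧
      (Matrix.of fun a b : κ × K => ∑ k, star (F k a.2) * (q k).1.1 a.1 b.1 * F k b.2) *ᵥ
        Pow_unf F (fun k => (q k).1.2) = Pow_unf F fun k => (q k).1.2 := by
  refine ⟨⟨?_, ext_iff_mulVec.2 fun W => ?_⟩, ?_⟩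
  · ext a b
    rw [conjTranspose_apply, of_apply, of_apply, star_sum]
    refine Finset.sum_congr rfl fun k _ => ?_
    have h : star ((q k).1.1 b.1 a.1) = (q k).1.1 a.1 b.1 :=
      congrFun (congrFun (q k).2.1.1 a.1) b.1
    rw [star_mul', star_mul', star_star, h]
    ring
  · rw [← mulVec_mulVec, Pow_mulVec F (fun k => (q k).1.1) W, Pow_mulVec F fun k => (q k).1.1,
      Pow_four_unf hF]
    simp only [mulVec_mulVec, (q _).2.1.2]
  · rw [Pow_mulVec F fun k => (q k).1.1, Pow_four_unf hF]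
    simp only [(q _).2.2]

/-- The assembly of a family in Fourier coordinates. -/
noncomputable def asm (F : Matrix K K ℂ) (hF : Fᴴ * F = 1) (q : K → Ea κ) : Ea (κ × K) :=
  ⟨(Matrix.of fun a b => ∑ k, star (F k a.2) * (q k).1.1 a.1 b.1 * F k b.2,
    fun a => ∑ k, star (F k a.2) * (q k).1.2 a.1), by exact Pow_mem hF q⟩

theorem asm_proper (F : Matrix K K ℂ) (hF : Fᴴ * F = 1) :
    IsProperMap fun q : K → Ea κ × Unit => (asm F hF fun k => (q k).1, ()) := by
  have h1 : ∀ k, Continuous fun q : K → Ea κ × Unit => (q k).1.1 := fun k =>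
    continuous_subtype_val.comp (continuous_apply k).fst
  have h2 : Continuous fun q : K → Ea κ × Unit => asm F hF fun k => (q k).1 := by
    refine Continuous.subtype_mk (Continuous.prodMk (continuous_matrix fun a b => ?_)
      ((Pow_cont_unf F).comp (continuous_pi fun k => (h1 k).snd))) _
    exact continuous_finsetSum _ fun k _ =>
      (continuous_const.mul ((h1 k).fst.matrix_elem a.1 b.1)).mul continuous_const
  refine isProperMap_of_comp_of_t2 (g := fun p : Ea (κ × K) × Unit => four F p.1.1.2)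
    (h2.prodMk continuous_const)
    ((Pow_cont_four F).comp (ea_proper_snd.continuous.comp continuous_fst)) ?_
  have h3 : IsProperMap fun (q : K → Ea κ × Unit) k => (q k).1.1.2 :=
    IsProperMap.pi_map fun _ => ea_proper_snd.comp isProperMap_fst_of_compactSpace
  convert h3 using 1
  exact funext fun q => Pow_four_unf hF _

theorem asm_trace (F : Matrix K K ℂ) (hF : Fᴴ * F = 1) (q : K → Ea κ) :
    (asm F hF q).1.1.trace = ∑ k, (q k).1.1.trace := by
  have h : ∀ k, ∑ j, F k j * star (F k j) = 1 := fun k =>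
    (congrFun (congrFun (show F * Fᴴ = 1 from mul_eq_one_comm.1 hF) k) k).trans (one_apply_eq k)
  simp only [asm, trace, diag, of_apply]
  rw [Finset.sum_comm]
  refine Finset.sum_congr rfl fun k _ => ?_
  rw [Fintype.sum_prod_type]
  refine Finset.sum_congr rfl fun i _ => ?_
  rw [← mul_one ((q k).1.1 i i), ← h k, Finset.mul_sum]
  exact Finset.sum_congr rfl fun j _ => by ring

theorem four_proper (F : Matrix K K ℂ) (hF : Fᴴ * F = 1) :
    IsProperMap (four F : (ι × K → ℂ) → K → ι → ℂ) :=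
  proper_of_leftInverse (Pow_cont_four F) (Pow_cont_unf F) (Pow_unf_four hF)

theorem PowData.four_rp (D : PowData 𝒢 K k₀) {g : Gam M} {π : Equiv.Perm K}
    (h : ∀ k j, D.F k j * ch g (D.wt j) = tw g.e (D.F (π k) j)) (W : ι × K → ℂ) (k : K) :
    four D.F (rp (fun p : ι × K => D.wt p.2) g W) k = rp (0 : ι → M) g (four D.F W (π k)) := by
  funext i
  simp only [four, rp, Pi.zero_apply, ch_zero, one_mul, ← mul_assoc, h, ← twR_apply, map_sum,
    map_mul]

theorem PowData.asm_ea (D : PowData 𝒢 K k₀) {g : Gam M} {π : Equiv.Perm K}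
    (h : ∀ k j, D.F k j * ch g (D.wt j) = tw g.e (D.F (π k) j)) (q : K → Ea κ) :
    asm D.F D.uni (fun k => ea (0 : κ → M) g (q (π k))) =
      ea (fun p : κ × K => D.wt p.2) g (asm D.F D.uni q) := by
  refine Subtype.ext (Prod.ext ?_ ?_)
  · ext a b
    simp only [asm, ea, mp_apply, of_apply, Pi.zero_apply, sub_self, ch_zero, one_mul, ch_sub]
    rw [← twR_apply g.e (∑ k, _), map_sum, Finset.mul_sum]
    refine Eq.trans (Finset.sum_congr rfl fun k _ => ?_) (Equiv.sum_comp π _)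
    rw [map_mul, map_mul, twR_apply, twR_apply, twR_apply, tw_star, ← h, ← h, star_mul']
    have h1 := star_ch_mul g (D.wt a.2)
    have h2 := star_ch_mul g (D.wt b.2)
    linear_combination (-(star (D.F k a.2) * tw g.e ((q (π k)).1.1 a.1 b.1) * D.F k b.2)) * h1 -
      star (D.F k a.2) * tw g.e ((q (π k)).1.1 a.1 b.1) * D.F k b.2 *
        (star (ch g (D.wt a.2)) * ch g (D.wt a.2)) * h2
  · funext a
    simp only [asm, ea, rp, Pi.zero_apply, ch_zero, one_mul]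
    rw [← twR_apply g.e (∑ k, _), map_sum, Finset.mul_sum]
    refine Eq.trans (Finset.sum_congr rfl fun k _ => ?_) (Equiv.sum_comp π _)
    rw [map_mul, twR_apply, twR_apply, tw_star, ← h, star_mul']
    have h1 := star_ch_mul g (D.wt a.2)
    linear_combination (-(star (D.F k a.2) * tw g.e ((q (π k)).1.2 a.1))) * h1

theorem PowData.pi_proper (D : PowData 𝒢 K k₀) :
    IsProperMap fun (p : X × (ι × K → ℂ)) (k : K) => (p.1, four D.F p.2 k) :=
  proper_of_leftInverse (r := fun q : K → X × (ι → ℂ) => ((q k₀).1, Pow_unf D.F fun k => (q k).2))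
    (continuous_pi fun k => continuous_fst.prodMk
      ((continuous_apply k).comp ((Pow_cont_four D.F).comp continuous_snd)))
    ((continuous_apply k₀).fst.prodMk
      ((Pow_cont_unf D.F).comp (continuous_pi fun k => (continuous_apply k).snd)))
    fun p => Prod.ext rfl (Pow_unf_four D.uni p.2)

/-- The power operation on representatives. -/
noncomputable def PowData.pow (D : PowData 𝒢 K k₀) (f : BM (X × (ι → ℂ)) (Ea κ × Unit)) :
    BM (X × (ι × K → ℂ)) (Ea (κ × K) × Unit) :=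
  (BM.pi (fun _ => f) (fun k p => (p.1, four D.F p.2 k)) D.pi_proper).map _ (asm_proper D.F D.uni)

/-- The level of the power operation. -/
abbrev PowData.lv (D : PowData 𝒢 K k₀) (L : Lv M) : Lv M :=
  Lv.mk (L.ι × K) (L.κ × K) (fun p => D.wt p.2) fun p => D.wt p.2

theorem PowData.gd_pow (D : PowData 𝒢 K k₀) (h : n' = Fintype.card K * n) {L : Lv M}
    {f : BM (X × (L.ι → ℂ)) (Ea L.κ × Unit)}
    (hf : (MU M).Gd 𝒢 α triv (fun _ => n) (L.zero M) f) :
    (MU M).Gd 𝒢 α triv (fun _ => n') (D.lv L) (D.pow f) := by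
  refine ⟨fun g hg p => ?_, fun p y e => ?_⟩
  · obtain ⟨π, hπ⟩ := D.perm g hg
    have e : ∀ k, f.f (α g p.1, four D.F (rp (fun p : L.ι × K => D.wt p.2) g p.2) k) =
        (f.f (p.1, four D.F p.2 (π k))).map fun q => (ea (0 : L.κ → M) g q.1, q.2) := fun k => by
      rw [D.four_rp hπ]
      exact hf.eqv g hg (p.1, four D.F p.2 (π k))
    change (tup fun k => f.f (α g p.1, four D.F (rp (fun p : L.ι × K => D.wt p.2) g p.2) k)).map
        (fun q => (asm D.F D.uni fun k => (q k).1, ())) =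
      ((tup fun k => f.f (p.1, four D.F p.2 k)).map
        fun q => (asm D.F D.uni fun k => (q k).1, ())).map
          fun q => (ea (fun p : L.κ × K => D.wt p.2) g q.1, q.2)
    simp only [e]
    by_cases hc : ∀ k, ∃ y : Ea L.κ × Unit, (y : OnePoint _) = f.f (p.1, four D.F p.2 k)
    · choose y hy using hc
      simp only [← hy, OnePoint.map_some, tup_coe]
      exact congrArg (fun z => ((z, ()) : OnePoint (Ea (L.κ × K) × Unit)))
        (D.asm_ea hπ fun k => (y k).1)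
    · obtain ⟨k, hk⟩ := not_forall.1 hc
      have hk' := not_not.1 (mt OnePoint.ne_infty_iff_exists.1 hk)
      rw [tup_infty (a := fun k => f.f (p.1, four D.F p.2 k)) hk', tup_infty (k := π.symm k) (by rw [Equiv.apply_symm_apply, hk']; rfl)]
      rfl
  · obtain ⟨q, hq, rfl⟩ := omap_eq_coe.1 e
    have h1 : ∀ k, (q k).1.1.1.trace = (n : ℂ) + Fintype.card L.ι := fun k =>
      sub_eq_iff_eq_add.1 (hf.mem _ _ (OP_tup_eq hq k))
    change (asm D.F D.uni fun k => (q k).1).1.1.trace - (Fintype.card (L.ι × K) : ℂ) = (n' : ℂ)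
    rw [asm_trace, h]
    simp only [h1, Finset.sum_const, Finset.card_univ, nsmul_eq_mul, Fintype.card_prod]
    push_cast
    ring

/-- Restriction of the symmetries. -/
def PowData.mono (D : PowData 𝒢 K k₀) {ℋ : Set (Gam M)} (h : ℋ ⊆ 𝒢) : PowData ℋ K k₀ :=
  { D with perm := fun g hg => D.perm g (h hg) }

end RB
end

-- merged part: Pool.Agent.Work.MP_666b5d_gt.XS3
section
/-!
# The deformation of `{P none none ≥ 1/2}` into the closed part

Proof plan.  Let `p = P e`, `λ = P none none = |p|²` (real), `q = e - p` (so `P q = 0`, `qᴴ p = 0`)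
and `p_t = p + t q`, `|p_t|² = λ + t² (1 - λ)`.  Put
`P_t = P - λ⁻¹ p pᴴ + |p_t|⁻² p_t p_tᴴ`, `V_t = V + (t / λ) q (pᴴ V)`, `U_t = U - (t / λ) p (qᴴ U)`.
At `t = 1`, `p_1 = e`.  Properness: each column of `V_t` (resp. `U_t`) is the old column plus an
orthogonal vector, so `nsq` does not decrease; use `xs_proper`.  Outside `λ ≥ 1/2` define `D` by
any junk value (for instance `D (q, t) = q`).
-/

open Set Filter Topology Matrix
open scoped unitInterval

namespace RB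

open Act

section alg

variable {𝕜 κ α β : Type} [RCLike 𝕜] [Fintype κ]

/-- The algebraic data of the deformation. -/
structure XS3H (P : Matrix κ κ 𝕜) (p q : Matrix κ Unit 𝕜) (l m t : ℝ) : Prop where
  hP : IsP P
  Pp : P * p = p
  Pq : P * q = 0
  pp : pᴴ * p = (l : 𝕜) • 1
  qq : qᴴ * q = ((1 - l : ℝ) : 𝕜) • 1
  l0 : l ≠ 0
  m0 : m ≠ 0
  hm : m = l + t ^ 2 * (1 - l)

variable {P : Matrix κ κ 𝕜} {p q : Matrix κ Unit 𝕜} {l m t : ℝ}

/-- The deformed projection. -/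
noncomputable def XS3P (P : Matrix κ κ 𝕜) (p q : Matrix κ Unit 𝕜) (l m t : ℝ) : Matrix κ κ 𝕜 :=
  P - ((l⁻¹ : ℝ) : 𝕜) • (p * pᴴ) +
    ((m⁻¹ : ℝ) : 𝕜) • ((p + (t : 𝕜) • q) * (p + (t : 𝕜) • q)ᴴ)

/-- The deformed vectors. -/
noncomputable def XS3V (V : Matrix κ α 𝕜) (p q : Matrix κ Unit 𝕜) (c : ℝ) : Matrix κ α 𝕜 :=
  V + (c : 𝕜) • (q * (pᴴ * V))

theorem XS3H.pP (h : XS3H P p q l m t) : pᴴ * P = pᴴ := by
  rw [← h.hP.1, ← conjTranspose_mul, h.Pp]

theorem XS3H.qP (h : XS3H P p q l m t) : qᴴ * P = 0 := by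
  rw [← h.hP.1, ← conjTranspose_mul, h.Pq, conjTranspose_zero]

theorem XS3H.pq (h : XS3H P p q l m t) : pᴴ * q = 0 := by
  rw [← h.pP, Matrix.mul_assoc, h.Pq, Matrix.mul_zero]

theorem XS3H.qp (h : XS3H P p q l m t) : qᴴ * p = 0 := by
  rw [← h.Pp, ← Matrix.mul_assoc, h.qP, Matrix.zero_mul]

theorem XS3_ct (p q : Matrix κ Unit 𝕜) (t : ℝ) : (p + (t : 𝕜) • q)ᴴ = pᴴ + (t : 𝕜) • qᴴ := by
  rw [conjTranspose_add, conjTranspose_smul, RCLike.star_def, RCLike.conj_ofReal]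

theorem XS3H.rr (h : XS3H P p q l m t) :
    (p + (t : 𝕜) • q)ᴴ * (p + (t : 𝕜) • q) = (m : 𝕜) • 1 := by
  rw [XS3_ct]
  simp only [Matrix.add_mul, Matrix.mul_add, Matrix.smul_mul, Matrix.mul_smul, h.pp, h.pq, h.qp,
    h.qq, smul_zero, add_zero, zero_add, smul_smul]
  rw [← add_smul, h.hm]
  congr 1
  push_cast
  ring

theorem XS3H.P'p (h : XS3H P p q l m t) : (P - ((l⁻¹ : ℝ) : 𝕜) • (p * pᴴ)) * p = 0 := by
  rw [Matrix.sub_mul, h.Pp, Matrix.smul_mul, Matrix.mul_assoc, h.pp, Matrix.mul_smul,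
    Matrix.mul_one, smul_smul, ← RCLike.ofReal_mul, inv_mul_cancel₀ h.l0, RCLike.ofReal_one,
    one_smul, sub_self]

theorem XS3H.P'q (h : XS3H P p q l m t) : (P - ((l⁻¹ : ℝ) : 𝕜) • (p * pᴴ)) * q = 0 := by
  rw [Matrix.sub_mul, h.Pq, Matrix.smul_mul, Matrix.mul_assoc, h.pq, Matrix.mul_zero, smul_zero,
    sub_self]

theorem XS3H.P'r (h : XS3H P p q l m t) :
    (P - ((l⁻¹ : ℝ) : 𝕜) • (p * pᴴ)) * (p + (t : 𝕜) • q) = 0 := by
  rw [Matrix.mul_add, h.P'p, Matrix.mul_smul, h.P'q, smul_zero, add_zero]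

theorem XS3H.P'h (h : XS3H P p q l m t) :
    (P - ((l⁻¹ : ℝ) : 𝕜) • (p * pᴴ))ᴴ = P - ((l⁻¹ : ℝ) : 𝕜) • (p * pᴴ) := by
  rw [conjTranspose_sub, h.hP.1, conjTranspose_smul, RCLike.star_def, RCLike.conj_ofReal,
    conjTranspose_mul, conjTranspose_conjTranspose]

theorem XS3H.rP' (h : XS3H P p q l m t) :
    (p + (t : 𝕜) • q)ᴴ * (P - ((l⁻¹ : ℝ) : 𝕜) • (p * pᴴ)) = 0 := by
  rw [← h.P'h, ← conjTranspose_mul, h.P'r, conjTranspose_zero]

theorem XS3H.P'P (h : XS3H P p q l m t) :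
    (P - ((l⁻¹ : ℝ) : 𝕜) • (p * pᴴ)) * P = P - ((l⁻¹ : ℝ) : 𝕜) • (p * pᴴ) := by
  rw [Matrix.sub_mul, h.hP.2, Matrix.smul_mul, Matrix.mul_assoc, h.pP]

theorem XS3H.P'P' (h : XS3H P p q l m t) :
    (P - ((l⁻¹ : ℝ) : 𝕜) • (p * pᴴ)) * (P - ((l⁻¹ : ℝ) : 𝕜) • (p * pᴴ))
      = P - ((l⁻¹ : ℝ) : 𝕜) • (p * pᴴ) := by
  rw [Matrix.mul_sub, h.P'P, Matrix.mul_smul, ← Matrix.mul_assoc, h.P'p, Matrix.zero_mul,
    smul_zero, sub_zero]

theorem XS3H.PtP' (h : XS3H P p q l m t) :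
    XS3P P p q l m t * (P - ((l⁻¹ : ℝ) : 𝕜) • (p * pᴴ)) = P - ((l⁻¹ : ℝ) : 𝕜) • (p * pᴴ) := by
  rw [XS3P, Matrix.add_mul, h.P'P', Matrix.smul_mul, Matrix.mul_assoc, h.rP', Matrix.mul_zero,
    smul_zero, add_zero]

theorem XS3H.Ptr (h : XS3H P p q l m t) :
    XS3P P p q l m t * (p + (t : 𝕜) • q) = p + (t : 𝕜) • q := by
  rw [XS3P, Matrix.add_mul, h.P'r, Matrix.smul_mul, Matrix.mul_assoc, h.rr, Matrix.mul_smul,
    Matrix.mul_one, smul_smul, ← RCLike.ofReal_mul, inv_mul_cancel₀ h.m0, RCLike.ofReal_one,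
    one_smul, zero_add]

theorem XS3H.isP (h : XS3H P p q l m t) : IsP (XS3P P p q l m t) := by
  constructor
  · rw [XS3P, conjTranspose_add, h.P'h, conjTranspose_smul, RCLike.star_def, RCLike.conj_ofReal,
      conjTranspose_mul, conjTranspose_conjTranspose]
  · conv_lhs => arg 2; rw [XS3P]
    rw [Matrix.mul_add, h.PtP', Matrix.mul_smul, ← Matrix.mul_assoc, h.Ptr, XS3P]

theorem XS3H.trace (h : XS3H P p q l m t) : (XS3P P p q l m t).trace = P.trace := by
  rw [XS3P, trace_add, trace_sub, trace_smul, trace_smul, trace_mul_comm p,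
    trace_mul_comm (p + (t : 𝕜) • q), h.pp, h.rr, trace_smul, trace_smul, smul_smul, smul_smul,
    ← RCLike.ofReal_mul, ← RCLike.ofReal_mul, inv_mul_cancel₀ h.l0, inv_mul_cancel₀ h.m0,
    sub_add_cancel]

theorem XS3H.mulV (h : XS3H P p q l m t) {V : Matrix κ α 𝕜} (hV : P * V = V) :
    XS3P P p q l m t * XS3V V p q (t / l) = XS3V V p q (t / l) := by
  have e : XS3V V p q (t / l) = (P - ((l⁻¹ : ℝ) : 𝕜) • (p * pᴴ)) * V +
      ((l⁻¹ : ℝ) : 𝕜) • ((p + (t : 𝕜) • q) * (pᴴ * V)) := by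
    rw [XS3V, Matrix.sub_mul, hV, Matrix.smul_mul, Matrix.mul_assoc, Matrix.add_mul, smul_add,
      Matrix.smul_mul, smul_smul, ← RCLike.ofReal_mul, inv_mul_eq_div]
    abel
  rw [e, Matrix.mul_add, ← Matrix.mul_assoc, h.PtP', Matrix.mul_smul, ← Matrix.mul_assoc, h.Ptr]

theorem XS3H.mulU (h : XS3H P p q l m t) {U : Matrix κ β 𝕜} (hU : P * U = 0) :
    XS3P P p q l m t * XS3V U q p (-(t / l)) = 0 := by
  have e0 : pᴴ * U = 0 := by rw [← h.pP, Matrix.mul_assoc, hU, Matrix.mul_zero]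
  have e1 : (P - ((l⁻¹ : ℝ) : 𝕜) • (p * pᴴ)) * XS3V U q p (-(t / l)) = 0 := by
    rw [XS3V, Matrix.mul_add, Matrix.mul_smul, ← Matrix.mul_assoc, h.P'p, Matrix.zero_mul,
      smul_zero, add_zero, Matrix.sub_mul, hU, Matrix.smul_mul, Matrix.mul_assoc, e0,
      Matrix.mul_zero, smul_zero, sub_zero]
  have e2 : (p + (t : 𝕜) • q)ᴴ * XS3V U q p (-(t / l)) = 0 := by
    rw [XS3V, XS3_ct, Matrix.mul_add, Matrix.mul_smul, ← Matrix.mul_assoc, Matrix.add_mul,
      Matrix.add_mul, Matrix.smul_mul, Matrix.smul_mul, h.pp, h.qp, e0, smul_zero, add_zero,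
      zero_add, Matrix.smul_mul, Matrix.one_mul, smul_smul, ← add_smul, ← RCLike.ofReal_mul,
      ← RCLike.ofReal_add, neg_mul, div_mul_cancel₀ _ h.l0, add_neg_cancel, RCLike.ofReal_zero,
      zero_smul]
  rw [XS3P, Matrix.add_mul, e1, Matrix.smul_mul, Matrix.mul_assoc, e2, Matrix.mul_zero, smul_zero,
    add_zero]

theorem XS3_col {V : Matrix κ α 𝕜} {p q : Matrix κ Unit 𝕜} (h : Vᴴ * q = 0) (c : ℝ) (i : κ)
    (a : α) : ‖V i a‖ ^ 2 ≤ nsq fun j => XS3V V p q c j a := by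
  have e : (fun j => XS3V V p q c j a) =
      (fun j => V j a) + fun j => ((c : 𝕜) • (q * (pᴴ * V))) j a := rfl
  have e2 : Vᴴ * ((c : 𝕜) • (q * (pᴴ * V))) = 0 := by
    rw [Matrix.mul_smul, ← Matrix.mul_assoc, h, Matrix.zero_mul, smul_zero]
  rw [e, nsq_add (v := fun j => V j a) (c := fun j => ((c : 𝕜) • (q * (pᴴ * V))) j a)
    (congrFun (congrFun e2 a) a)]
  refine le_add_of_le_of_nonneg ?_ (nsq_nonneg _)
  exact Finset.single_le_sum (f := fun j => ‖V j a‖ ^ 2) (fun _ _ => by positivity)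
    (Finset.mem_univ i)

theorem XS3H.Vq (h : XS3H P p q l m t) {V : Matrix κ α 𝕜} (hV : P * V = V) : Vᴴ * q = 0 := by
  rw [← hV, conjTranspose_mul, h.hP.1, Matrix.mul_assoc, h.Pq, Matrix.mul_zero]

theorem XS3H.Up (h : XS3H P p q l m t) {U : Matrix κ β 𝕜} (hU : P * U = 0) : Uᴴ * p = 0 := by
  rw [← h.Pp, ← Matrix.mul_assoc, ← h.hP.1, ← conjTranspose_mul, hU, conjTranspose_zero,
    Matrix.zero_mul]

theorem XS3_map_ct {γ δ : Type} (A : Matrix γ δ 𝕜) :
    (A.map (starRingEnd 𝕜))ᴴ = Aᴴ.map (starRingEnd 𝕜) := rfl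

theorem XS3_map_smul {γ δ : Type} (c : ℝ) (A : Matrix γ δ 𝕜) :
    ((c : 𝕜) • A).map (starRingEnd 𝕜) = (c : 𝕜) • A.map (starRingEnd 𝕜) := by
  ext i j
  simp only [map_apply, Matrix.smul_apply, smul_eq_mul, map_mul, RCLike.conj_ofReal]

theorem XS3P_map (P : Matrix κ κ 𝕜) (p q : Matrix κ Unit 𝕜) (l m t : ℝ) :
    XS3P (P.map (starRingEnd 𝕜)) (p.map (starRingEnd 𝕜)) (q.map (starRingEnd 𝕜)) l m t =
      (XS3P P p q l m t).map (starRingEnd 𝕜) := by
  simp only [XS3P, Matrix.map_add _ (map_add (starRingEnd 𝕜)),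
    Matrix.map_sub _ (map_sub (starRingEnd 𝕜)), XS3_map_smul, Matrix.map_mul, ← XS3_map_ct]

theorem XS3V_map (V : Matrix κ α 𝕜) (p q : Matrix κ Unit 𝕜) (c : ℝ) :
    XS3V (V.map (starRingEnd 𝕜)) (p.map (starRingEnd 𝕜)) (q.map (starRingEnd 𝕜)) c =
      (XS3V V p q c).map (starRingEnd 𝕜) := by
  simp only [XS3V, Matrix.map_add _ (map_add (starRingEnd 𝕜)), XS3_map_smul, Matrix.map_mul,
    ← XS3_map_ct]

omit [Fintype κ] in
theorem XS3_smul_cont {X γ : Type} [TopologicalSpace X] {A : X → Matrix κ γ 𝕜} {c : X → ℝ}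
    (cc : Continuous c) (cA : Continuous A) : Continuous fun x => (c x : 𝕜) • A x := by
  have h : Continuous fun x => (c x : 𝕜) := (RCLike.continuous_ofReal (K := 𝕜)).comp cc
  exact continuous_matrix fun i j => h.mul (cA.matrix_elem i j)

theorem XS3P_cont {X : Type} [TopologicalSpace X] {P : X → Matrix κ κ 𝕜}
    {p q : X → Matrix κ Unit 𝕜} {l m t : X → ℝ} (cP : Continuous P) (cp : Continuous p)
    (cq : Continuous q) (cl : Continuous fun x => (l x)⁻¹) (cm : Continuous fun x => (m x)⁻¹)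
    (ct : Continuous t) : Continuous fun x => XS3P (P x) (p x) (q x) (l x) (m x) (t x) := by
  have cr : Continuous fun x => p x + (t x : 𝕜) • q x :=
    cp.add (XS3_smul_cont ct cq)
  have c1 : Continuous fun x => (((l x)⁻¹ : ℝ) : 𝕜) • (p x * (p x)ᴴ) :=
    XS3_smul_cont cl (cp.matrix_mul cp.matrix_conjTranspose)
  have c2 : Continuous fun x =>
      (((m x)⁻¹ : ℝ) : 𝕜) • ((p x + (t x : 𝕜) • q x) * (p x + (t x : 𝕜) • q x)ᴴ) :=
    XS3_smul_cont cm (cr.matrix_mul cr.matrix_conjTranspose)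
  exact (cP.sub c1).add c2

theorem XS3V_cont {X : Type} [TopologicalSpace X] {V : X → Matrix κ α 𝕜}
    {p q : X → Matrix κ Unit 𝕜} {c : X → ℝ} (cV : Continuous V) (cp : Continuous p)
    (cq : Continuous q) (cc : Continuous c) :
    Continuous fun x => XS3V (V x) (p x) (q x) (c x) := by
  have c1 : Continuous fun x => (c x : 𝕜) • (q x * ((p x)ᴴ * V x)) :=
    XS3_smul_cont cc (cq.matrix_mul (cp.matrix_conjTranspose.matrix_mul cV))
  exact cV.add c1

end alg

variable {𝕜 : Type} [RCLike 𝕜] {ι α β : Type} [Fintype ι] [Fintype α] [Fintype β] {n : ℤ}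

/-- The new basis vector. -/
def XS3e (𝕜 ι : Type) [RCLike 𝕜] : Matrix (Option ι) Unit 𝕜 :=
  Matrix.of fun i _ => i.elim 1 fun _ => 0

/-- The truncated diagonal entry. -/
noncomputable def XS3l (P : Matrix (Option ι) (Option ι) 𝕜) : ℝ :=
  max (RCLike.re (P none none)) (1 / 2)

/-- The truncated square norm of the moving vector. -/
noncomputable def XS3m (P : Matrix (Option ι) (Option ι) 𝕜) (t : ℝ) : ℝ :=
  max (XS3l P + t ^ 2 * (1 - XS3l P)) (1 / 2)

/-- The formula for the deformation. -/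
noncomputable def XS3F
    (x : Matrix (Option ι) (Option ι) 𝕜 × Matrix (Option ι) α 𝕜 × Matrix (Option ι) β 𝕜) (t : ℝ) :
    Matrix (Option ι) (Option ι) 𝕜 × Matrix (Option ι) α 𝕜 × Matrix (Option ι) β 𝕜 :=
  (XS3P x.1 (x.1 * XS3e 𝕜 ι) (XS3e 𝕜 ι - x.1 * XS3e 𝕜 ι) (XS3l x.1) (XS3m x.1 t) t,
    XS3V x.2.1 (x.1 * XS3e 𝕜 ι) (XS3e 𝕜 ι - x.1 * XS3e 𝕜 ι) (t / XS3l x.1),
    XS3V x.2.2 (XS3e 𝕜 ι - x.1 * XS3e 𝕜 ι) (x.1 * XS3e 𝕜 ι) (-(t / XS3l x.1)))

theorem XS3_mul_e {γ : Type} (A : Matrix γ (Option ι) 𝕜) (i : γ) (u : Unit) :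
    (A * XS3e 𝕜 ι) i u = A i none := by
  simp [mul_apply, XS3e, Fintype.sum_option]

theorem XS3_e_mul {γ : Type} (A : Matrix (Option ι) γ 𝕜) (i : γ) (u : Unit) :
    ((XS3e 𝕜 ι)ᴴ * A) u i = A none i := by
  simp [mul_apply, XS3e, Fintype.sum_option]

theorem XS3_real {P : Matrix (Option ι) (Option ι) 𝕜} (h : IsP P) :
    P none none = ((RCLike.re (P none none) : ℝ) : 𝕜) := by
  rw [Ea_diag h none, RCLike.ofReal_re]

theorem XS3_hyp {P : Matrix (Option ι) (Option ι) 𝕜} (h : IsP P)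
    (hl : 1 / 2 ≤ RCLike.re (P none none)) (t : ℝ) :
    XS3H P (P * XS3e 𝕜 ι) (XS3e 𝕜 ι - P * XS3e 𝕜 ι) (XS3l P) (XS3m P t) t := by
  have e1 : XS3l P = RCLike.re (P none none) := max_eq_left hl
  have e2 : RCLike.re (P none none) ≤ 1 := (RCLike.re_le_norm _).trans (h.norm_le _ _)
  have e3 : XS3m P t = XS3l P + t ^ 2 * (1 - XS3l P) := by
    refine max_eq_left ?_
    rw [e1]
    nlinarith [sq_nonneg t, mul_nonneg (sq_nonneg t) (sub_nonneg.2 e2)]
  have pe : (P * XS3e 𝕜 ι)ᴴ = (XS3e 𝕜 ι)ᴴ * P := by rw [conjTranspose_mul, h.1]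
  have ePe : (XS3e 𝕜 ι)ᴴ * (P * XS3e 𝕜 ι) = ((XS3l P : ℝ) : 𝕜) • 1 := by
    ext u v
    rw [XS3_e_mul, XS3_mul_e, e1, ← XS3_real h]
    simp
  have ee : (XS3e 𝕜 ι)ᴴ * XS3e 𝕜 ι = 1 := by
    ext u v
    rw [XS3_mul_e]
    simp [XS3e]
  have PP : P * (P * XS3e 𝕜 ι) = P * XS3e 𝕜 ι := by rw [← Matrix.mul_assoc, h.2]
  refine ⟨h, PP, by rw [Matrix.mul_sub, PP, sub_self], by rw [pe, Matrix.mul_assoc, PP, ePe], ?_,
    (lt_of_lt_of_le one_half_pos (le_max_right _ _)).ne',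
    (lt_of_lt_of_le one_half_pos (le_max_right _ _)).ne', e3⟩
  rw [conjTranspose_sub, pe, Matrix.sub_mul, Matrix.mul_assoc, Matrix.mul_sub P, PP, sub_self,
    Matrix.mul_zero, sub_zero, Matrix.mul_sub, ee, ePe, RCLike.ofReal_sub, sub_smul,
    RCLike.ofReal_one, one_smul]

omit [Fintype α] [Fintype β] in
theorem XS3F_cont' {X : Type} [TopologicalSpace X] {P : X → Matrix (Option ι) (Option ι) 𝕜}
    {V : X → Matrix (Option ι) α 𝕜} {U : X → Matrix (Option ι) β 𝕜} {t : X → ℝ}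
    (c0 : Continuous P) (cV : Continuous V) (cU : Continuous U) (ct : Continuous t) :
    Continuous fun x => XS3F (P x, V x, U x) (t x) := by
  have cl : Continuous fun x => XS3l (P x) :=
    (RCLike.continuous_re.comp (c0.matrix_elem none none)).max continuous_const
  have cm : Continuous fun x => XS3m (P x) (t x) :=
    (cl.add ((ct.pow 2).mul (continuous_const.sub cl))).max continuous_const
  have l0 : ∀ x, XS3l (P x) ≠ 0 := fun x =>
    (lt_of_lt_of_le one_half_pos (le_max_right _ _)).ne'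
  have m0 : ∀ x, XS3m (P x) (t x) ≠ 0 := fun x =>
    (lt_of_lt_of_le one_half_pos (le_max_right _ _)).ne'
  have cp : Continuous fun x => P x * XS3e 𝕜 ι := c0.matrix_mul continuous_const
  have cq : Continuous fun x => XS3e 𝕜 ι - P x * XS3e 𝕜 ι := continuous_const.sub cp
  have cd : Continuous fun x => t x / XS3l (P x) := ct.div cl l0
  exact (XS3P_cont c0 cp cq (cl.inv₀ l0) (cm.inv₀ m0) ct).prodMk
    ((XS3V_cont cV cp cq cd).prodMk (XS3V_cont cU cq cp cd.neg))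

omit [Fintype α] [Fintype β] in
theorem XS3F_zero
    (x : Matrix (Option ι) (Option ι) 𝕜 × Matrix (Option ι) α 𝕜 × Matrix (Option ι) β 𝕜) :
    XS3F x 0 = x := by
  have e : XS3m x.1 0 = XS3l x.1 := by
    rw [XS3m, zero_pow two_ne_zero, zero_mul, add_zero]
    exact max_eq_left (le_max_right _ _)
  simp [XS3F, XS3P, XS3V, e]

omit [Fintype α] [Fintype β] in
theorem XS3F_one
    {x : Matrix (Option ι) (Option ι) 𝕜 × Matrix (Option ι) α 𝕜 × Matrix (Option ι) β 𝕜}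
    (h : IsP x.1) (hl : 1 / 2 ≤ RCLike.re (x.1 none none)) : (XS3F x 1).1 none none = 1 := by
  have e1 : XS3l x.1 = RCLike.re (x.1 none none) := max_eq_left hl
  have e : XS3m x.1 1 = 1 := by rw [(XS3_hyp h hl 1).hm]; ring
  have e2 : x.1 none none = ((XS3l x.1 : ℝ) : 𝕜) := by rw [e1, ← XS3_real h]
  have l0 : ((XS3l x.1 : ℝ) : 𝕜) ≠ 0 := RCLike.ofReal_ne_zero.2 (XS3_hyp h hl 1).l0
  simp only [XS3F, XS3P, e, inv_one, RCLike.ofReal_one, one_smul, add_sub_cancel,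
    Matrix.add_apply, Matrix.sub_apply, Matrix.smul_apply, mul_apply (M := x.1 * XS3e 𝕜 ι),
    mul_apply (M := XS3e 𝕜 ι), Finset.univ_unique, Finset.sum_singleton, conjTranspose_apply,
    XS3_mul_e, e2, RCLike.star_def, RCLike.conj_ofReal, smul_eq_mul, RCLike.ofReal_inv]
  rw [inv_mul_cancel_left₀ l0, sub_self, zero_add]
  simp [XS3e]

omit [Fintype α] [Fintype β] in
theorem XS3F_map (u : ℤˣ)
    (x : Matrix (Option ι) (Option ι) 𝕜 × Matrix (Option ι) α 𝕜 × Matrix (Option ι) β 𝕜) (t : ℝ) :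
    XS3F (x.1.map (tw u), x.2.1.map (tw u), x.2.2.map (tw u)) t =
      ((XS3F x t).1.map (tw u), (XS3F x t).2.1.map (tw u), (XS3F x t).2.2.map (tw u)) := by
  by_cases hu : u = 1
  · have e : (tw u : 𝕜 → 𝕜) = id := funext fun z => if_pos hu
    simp only [e, Matrix.map_id]
  · have e : (tw u : 𝕜 → 𝕜) = starRingEnd 𝕜 := funext fun z => if_neg hu
    have e1 : XS3l (x.1.map (starRingEnd 𝕜)) = XS3l x.1 := by
      simp only [XS3l, map_apply, RCLike.conj_re]
    have e2 : XS3m (x.1.map (starRingEnd 𝕜)) t = XS3m x.1 t := by simp only [XS3m, e1]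
    have e3 : (XS3e 𝕜 ι).map (starRingEnd 𝕜) = XS3e 𝕜 ι := by
      ext i v
      cases i <;> simp [XS3e]
    have e4 : x.1.map (starRingEnd 𝕜) * XS3e 𝕜 ι = (x.1 * XS3e 𝕜 ι).map (starRingEnd 𝕜) := by
      rw [Matrix.map_mul, e3]
    have e5 : XS3e 𝕜 ι - (x.1 * XS3e 𝕜 ι).map (starRingEnd 𝕜) =
        (XS3e 𝕜 ι - x.1 * XS3e 𝕜 ι).map (starRingEnd 𝕜) := by
      rw [Matrix.map_sub _ (map_sub (starRingEnd 𝕜)), e3]
    simp only [e, XS3F, e1, e2, e4, e5, XS3P_map, XS3V_map]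

/-- The deformation. -/
noncomputable def XS3D (x : XS 𝕜 (Option ι) α β n × I) : XS 𝕜 (Option ι) α β n :=
  if h : 1 / 2 ≤ RCLike.re (x.1.1.1 none none) then
    ⟨XS3F x.1.1 x.2, (XS3_hyp x.1.2.1 h x.2).isP,
      (XS3_hyp x.1.2.1 h x.2).trace.trans x.1.2.2.1,
      (XS3_hyp x.1.2.1 h x.2).mulV x.1.2.2.2.1, (XS3_hyp x.1.2.1 h x.2).mulU x.1.2.2.2.2⟩
  else x.1

omit [Fintype α] [Fintype β] in
theorem XS3D_val {q : XS 𝕜 (Option ι) α β n} (h : 1 / 2 ≤ RCLike.re (q.1.1 none none)) (t : I) :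
    (XS3D (q, t)).1 = XS3F q.1 t := by
  rw [XS3D, dif_pos h]

theorem XS3_box (κ γ : Type) (R : ℝ) :
    IsCompact {A : Matrix κ γ 𝕜 | ∀ i a, ‖A i a‖ ^ 2 ≤ R} := by
  have := FiniteDimensional.proper_rclike 𝕜 𝕜
  have hK : IsCompact (X := Matrix κ γ 𝕜)
      (Set.pi univ fun _ : κ => Set.pi univ fun _ : γ => Metric.closedBall (0 : 𝕜) √R) :=
    isCompact_univ_pi fun _ => isCompact_univ_pi fun _ => isCompact_closedBall 0 _
  refine hK.of_isClosed_subset ?_ fun A h i _ j _ => ?_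
  · simp only [Set.ofPred_forall]
    exact isClosed_iInter fun i => isClosed_iInter fun a =>
      isClosed_le ((continuous_id.matrix_elem i a).norm.pow 2) continuous_const
  · rw [mem_closedBall_zero_iff]
    exact Real.le_sqrt_of_sq_le (h i j)

theorem exists_xsD : ∃ D : XS 𝕜 (Option ι) α β n × I → XS 𝕜 (Option ι) α β n,
    ContinuousOn D ({q | 1 / 2 ≤ RCLike.re (q.1.1 none none)} ×ˢ univ) ∧
    (∀ C, IsCompact C → ∃ C', IsCompact C' ∧
      ∀ q t, 1 / 2 ≤ RCLike.re (q.1.1 none none) → D (q, t) ∈ C → q ∈ C') ∧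
    (∀ q, D (q, 0) = q) ∧
    (∀ q, 1 / 2 ≤ RCLike.re (q.1.1 none none) → (D (q, 1)).1.1 none none = 1) ∧
    ∀ u q t, 1 / 2 ≤ RCLike.re (q.1.1 none none) → D (xa u q, t) = xa u (D (q, t)) := by
  refine ⟨XS3D, ?_, fun C hC => ?_, fun q => ?_, fun q h => ?_, fun u q t h => ?_⟩
  · refine IsInducing.subtypeVal.continuousOn_iff.2 ?_
    have c0 : Continuous fun x : XS 𝕜 (Option ι) α β n × I => x.1.1 :=
      continuous_subtype_val.comp continuous_fst
    have ct : Continuous fun x : XS 𝕜 (Option ι) α β n × I => (x.2 : ℝ) :=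
      continuous_subtype_val.comp continuous_snd
    exact (XS3F_cont' c0.fst c0.snd.fst c0.snd.snd ct).continuousOn.congr fun x hx =>
      XS3D_val hx.1 x.2
  · have c0 : Continuous fun x : XS 𝕜 (Option ι) α β n => x.1 := continuous_subtype_val
    have c1 : Continuous fun x : XS 𝕜 (Option ι) α β n =>
        (∑ a, nsq fun j => x.1.2.1 j a) + ∑ b, nsq fun j => x.1.2.2 j b :=
      (continuous_finsetSum _ fun a _ => continuous_nsq.comp
        (continuous_pi fun j => c0.snd.fst.matrix_elem j a)).add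
        (continuous_finsetSum _ fun a _ => continuous_nsq.comp
          (continuous_pi fun j => c0.snd.snd.matrix_elem j a))
    obtain ⟨R, hR⟩ := hC.bddAbove_image c1.continuousOn
    refine ⟨_, xs_proper.isCompact_preimage ((XS3_box _ α R).prod (XS3_box _ β R)),
      fun q t h hq => ?_⟩
    have h1 := hR ⟨_, hq, rfl⟩
    simp only [XS3D_val h] at h1
    have H := XS3_hyp q.2.1 h t
    have n1 : 0 ≤ ∑ a, nsq fun j => (XS3F q.1 t).2.1 j a :=
      Finset.sum_nonneg fun _ _ => nsq_nonneg _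
    have n2 : 0 ≤ ∑ a, nsq fun j => (XS3F q.1 t).2.2 j a :=
      Finset.sum_nonneg fun _ _ => nsq_nonneg _
    refine ⟨fun i a => ?_, fun i a => ?_⟩
    · refine (XS3_col (p := q.1.1 * XS3e 𝕜 ι) (H.Vq q.2.2.2.1) ((t : ℝ) / XS3l q.1.1) i a).trans
        (le_trans ?_ ((le_add_of_nonneg_right n2).trans h1))
      exact Finset.single_le_sum (f := fun a => nsq fun j => (XS3F q.1 t).2.1 j a)
        (fun _ _ => nsq_nonneg _) (Finset.mem_univ a)
    · refine (XS3_col (p := XS3e 𝕜 ι - q.1.1 * XS3e 𝕜 ι) (H.Up q.2.2.2.2)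
        (-((t : ℝ) / XS3l q.1.1)) i a).trans (le_trans ?_ ((le_add_of_nonneg_left n1).trans h1))
      exact Finset.single_le_sum (f := fun a => nsq fun j => (XS3F q.1 t).2.2 j a)
        (fun _ _ => nsq_nonneg _) (Finset.mem_univ a)
  · by_cases h : 1 / 2 ≤ RCLike.re (q.1.1 none none)
    · exact Subtype.ext ((XS3D_val h 0).trans (XS3F_zero _))
    · rw [XS3D, dif_neg h]
  · rw [XS3D_val h]
    exact XS3F_one q.2.1 h
  · have h' : 1 / 2 ≤ RCLike.re ((xa u q).1.1 none none) := by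
      change 1 / 2 ≤ RCLike.re (tw u (q.1.1 none none))
      unfold tw
      split_ifs
      · exact h
      · rwa [RCLike.star_def, RCLike.conj_re]
    refine Subtype.ext ?_
    rw [XS3D_val h']
    change _ = ((XS3D (q, t)).1.1.map (tw u), (XS3D (q, t)).1.2.1.map (tw u),
      (XS3D (q, t)).1.2.2.map (tw u))
    rw [XS3D_val h]
    exact XS3F_map u q.1 t

end RB
end

-- merged part: Pool.Agent.Work.MP_666b5d_gt.XS4
section
/-!
# Cell decompositions of the spaces `XS`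

Proof hints.  `xs_ndr`: `ψ = 2 (1 - re (P none none))`.  `xs_ndr'`: conjugate `xs_ndr` (with `α`, `β`
exchanged) by `xsDual`.  `CellCl.xs`: induct on `ι` with `Fintype.induction_empty_option`, for all
`α β n`; if `n < 0` the space is empty, otherwise the bound for the open part is larger by `n`.
-/

open Set Filter Topology Matrix
open scoped unitInterval

namespace RB

open Act

variable {𝕜 : Type} [RCLike 𝕜] {ι α β : Type} [Fintype ι] [Fintype α] [Fintype β] {n n' : ℤ}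

theorem XS4_re_tw (u : ℤˣ) (z : 𝕜) : RCLike.re (tw u z) = RCLike.re z := by
  unfold tw
  split_ifs
  · rfl
  · exact RCLike.conj_re z

theorem XS4_re_le {κ : Type} [Fintype κ] {P : Matrix κ κ 𝕜} (h : IsP P) (i : κ) :
    RCLike.re (P i i) ≤ 1 := (RCLike.re_le_norm _).trans (h.norm_le i i)

theorem XS4_re_eq {κ : Type} [Fintype κ] {P : Matrix κ κ 𝕜} (h : IsP P) (i : κ) :
    RCLike.re (P i i) = 1 ↔ P i i = 1 := by
  refine ⟨fun e => ?_, fun e => by rw [e, RCLike.one_re]⟩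
  rw [Ea_diag h i] at e ⊢
  rw [RCLike.ofReal_re] at e
  rw [e, RCLike.ofReal_one]

theorem XS4_pre {S Z Y U Z' U' : Type} [TopologicalSpace Z] [TopologicalSpace Y]
    [TopologicalSpace U] [TopologicalSpace Z'] [TopologicalSpace U'] {𝒢 : Set S} {βZ : Act S Z}
    {γ : Act S Y} {βU : Act S U} {i : Z → Y} {j : U → Y} (h : TNDR 𝒢 βZ γ βU i j)
    {γZ : Act S Z'} {γU : Act S U'} (eZ : Z' ≃ₜ Z) (eU : U' ≃ₜ U)
    (hZ : ∀ g ∈ 𝒢, ∀ z, eZ (γZ g z) = βZ g (eZ z)) (hU : ∀ g ∈ 𝒢, ∀ u, eU (γU g u) = βU g (eU u)) :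
    TNDR 𝒢 γZ γ γU (i ∘ eZ) (j ∘ eU) := by
  have r1 : range (i ∘ eZ) = range i := eZ.surjective.range_comp i
  have r2 : range (j ∘ eU) = range j := eU.surjective.range_comp j
  refine ⟨h.hi.comp eZ.isClosedEmbedding, fun g hg z => ?_,
    ⟨h.hj.emb.comp eU.isOpenEmbedding, fun g hg u => ?_, ?_⟩, ?_⟩
  · rw [Function.comp_apply, Function.comp_apply, hZ g hg, h.ei g hg]
  · rw [Function.comp_apply, Function.comp_apply, hU g hg, h.hj.eqv g hg]
  · rw [r2]
    exact h.hj.back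
  · rw [r1, r2]
    exact h.ex

theorem xs_ndr (h : n = n' + 1) :
    ∃ j : XS 𝕜 ι (Option α) β n × (β → 𝕜) → XS 𝕜 (Option ι) α β n,
      TNDR univ (xa.prod cj) xa (xa.prod cj) (xsI h) j := by
  obtain ⟨j, hj1, hj2, hj3⟩ := exists_xsJ (𝕜 := 𝕜) (ι := ι) (α := α) (β := β) (n := n)
  obtain ⟨D, c, pr, d0, d1, eD⟩ := exists_xsD (𝕜 := 𝕜) (ι := ι) (α := α) (β := β) (n := n)
  have hinv : ∀ (u : ℤˣ) (q : XS 𝕜 (Option ι) α β n),
      RCLike.re ((xa u q).1.1 none none) = RCLike.re (q.1.1 none none) :=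
    fun u q => XS4_re_tw u _
  have hle : ∀ q : XS 𝕜 (Option ι) α β n, 2 * (1 - RCLike.re (q.1.1 none none)) ≤ 1 ↔
      1 / 2 ≤ RCLike.re (q.1.1 none none) := fun q => ⟨fun h => by linarith, fun h => by linarith⟩
  refine ⟨j, xsI_emb h, fun u _ p => xsI_eqv h u p, ⟨hj1, fun u _ p => hj2 u p, fun u _ q hq => ?_⟩,
    fun q => 2 * (1 - RCLike.re (q.1.1 none none)), D, ?_, fun q => ?_, fun u _ q => ?_, ?_, ?_, ?_,
    ?_, fun q _ => d0 q, fun q hq => ?_, fun u _ q t hq => eD u q t ((hle q).1 hq)⟩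
  · rw [hj3] at hq ⊢
    intro e
    apply hq
    rw [← XS4_re_eq (xa u q).2.1, hinv, e, RCLike.one_re]
  · have h1 : Continuous fun q : XS 𝕜 (Option ι) α β n => q.1.1 none none :=
      (continuous_subtype_val.fst).matrix_elem none none
    exact continuous_const.mul (continuous_const.sub (RCLike.continuous_re.comp h1))
  · have := XS4_re_le q.2.1 none
    linarith
  · dsimp only
    rw [hinv]
  · rw [xsI_range]
    ext q
    simp only [mem_ofPred_eq]
    rw [← XS4_re_eq q.2.1]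
    constructor <;> intro e <;> linarith
  · rw [hj3]
    ext q
    simp only [mem_ofPred_eq, ne_eq]
    rw [← XS4_re_eq q.2.1]
    have := XS4_re_le q.2.1 none
    constructor
    · intro e
      have := lt_of_le_of_ne this e
      linarith
    · intro e e'
      rw [e'] at e
      norm_num at e
  · exact c.mono fun p hp => ⟨(hle p.1).1 hp.1, trivial⟩
  · intro C hC
    obtain ⟨C', hC', H⟩ := pr C hC
    exact ⟨C', hC', fun q t hq => H q t ((hle q).1 hq)⟩
  · dsimp only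
    rw [d1 q ((hle q).1 hq), RCLike.one_re]
    norm_num

theorem xs_ndr' (h : n = n' + 1) :
    ∃ j : XS 𝕜 ι α (Option β) n' × (α → 𝕜) → XS 𝕜 (Option ι) α β n,
      TNDR univ (xa.prod cj) xa (xa.prod cj) xsK j := by
  classical
  have hm : (Fintype.card ι : ℤ) + 1 - n = (Fintype.card ι - n) + 1 := by ring
  obtain ⟨j, hj⟩ := xs_ndr (𝕜 := 𝕜) (ι := ι) (α := β) (β := α) hm
  have h1 : n = (Fintype.card (Option ι) : ℤ) - ((Fintype.card ι : ℤ) + 1 - n) := by
    rw [Fintype.card_option]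
    push_cast
    ring
  have h2 : (Fintype.card ι : ℤ) + 1 - n = Fintype.card ι - n' := by
    rw [h]
    ring
  have H := XS4_pre (hj.homeo (β' := xa) (xsDual h1) fun u _ q => xsDual_eqv h1 u q)
    (γZ := xa.prod cj) (γU := xa.prod cj)
    ((xsDual (𝕜 := 𝕜) (α := α) (β := β) (n := n) rfl).prodCongr (Homeomorph.refl _))
    ((xsDual (𝕜 := 𝕜) (α := α) (β := Option β) h2).prodCongr (Homeomorph.refl _))
    (fun u _ p => Prod.ext (xsDual_eqv rfl u p.1) rfl)
    (fun u _ p => Prod.ext (xsDual_eqv h2 u p.1) rfl)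
  have e : (xsDual h1 ∘ xsI hm) ∘
      ((xsDual (𝕜 := 𝕜) (α := α) (β := β) (n := n) rfl).prodCongr (Homeomorph.refl (β → 𝕜))) =
        xsK := by
    funext p
    refine Subtype.ext (Prod.ext ?_ rfl)
    ext (_ | i) (_ | k)
    · exact sub_eq_zero.2 (Matrix.one_apply_eq none)
    · exact sub_eq_zero.2 (Matrix.one_apply_ne (by simp))
    · exact sub_eq_zero.2 (Matrix.one_apply_ne (by simp))
    · change (1 : Matrix (Option ι) (Option ι) 𝕜) (some i) (some k) -
        ((1 : Matrix ι ι 𝕜) i k - p.1.1.1 i k) = p.1.1.1 i k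
      simp [Matrix.one_apply]
  rw [e] at H
  exact ⟨_, H⟩

/-- Properties of spaces (with a bound `c` for the dimension of the cells from below) that are
closed under the steps of a cell decomposition over `𝕜`. -/
structure CellCl (𝕜 : Type) [RCLike 𝕜]
    (P : ∀ (Y : Type) [TopologicalSpace Y] [LC Y], Act ℤˣ Y → ℤ → Prop) : Prop where
  empty : ∀ (Y : Type) [TopologicalSpace Y] [LC Y] [IsEmpty Y] (β : Act ℤˣ Y) (c : ℤ), P Y β c
  homeo : ∀ (Y Y' : Type) [TopologicalSpace Y] [LC Y] [TopologicalSpace Y'] [LC Y'] (β : Act ℤˣ Y)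
    (β' : Act ℤˣ Y') (c : ℤ) (e : Y ≃ₜ Y'), (∀ u y, e (β u y) = β' u (e y)) → P Y β c → P Y' β' c
  mono : ∀ (Y : Type) [TopologicalSpace Y] [LC Y] (β : Act ℤˣ Y) (c c' : ℤ), c' ≤ c →
    P Y β c → P Y β c'
  ndr : ∀ (Z Y U : Type) [TopologicalSpace Z] [LC Z] [TopologicalSpace Y] [LC Y]
    [TopologicalSpace U] [LC U] (βZ : Act ℤˣ Z) (β : Act ℤˣ Y) (βU : Act ℤˣ U) (i : Z → Y)
    (j : U → Y) (c : ℤ), TNDR univ βZ β βU i j → P Z βZ c → P U βU c → P Y β c
  vec : ∀ (Y ν : Type) [TopologicalSpace Y] [LC Y] [Fintype ν] (β : Act ℤˣ Y) (c : ℤ),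
    P Y β c → P (Y × (ν → 𝕜)) (β.prod cj) (c + Fintype.card ν)
  unit : P Unit triv 0

theorem CellCl.xs {P : ∀ (Y : Type) [TopologicalSpace Y] [LC Y], Act ℤˣ Y → ℤ → Prop}
    (h : CellCl 𝕜 P) (ι α β : Type) [Fintype ι] [Fintype α] [Fintype β] (n : ℤ) :
    P (XS 𝕜 ι α β n) xa
      (Fintype.card α * n + Fintype.card β * (Fintype.card ι - n)) := by
  revert α β n
  refine Fintype.induction_empty_option
    (P := fun ι _ => ∀ (α β : Type) [Fintype α] [Fintype β] (n : ℤ), P (XS 𝕜 ι α β n) xa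
      (Fintype.card α * n + Fintype.card β * (Fintype.card ι - n))) ?_ ?_ ?_ ι
  · intro ι ι' _ e ih α β _ _ n
    let _ : Fintype ι := Fintype.ofEquiv ι' e.symm
    rw [← Fintype.card_congr e]
    exact h.homeo _ _ _ _ _ (xsRe e) (xsRe_eqv e) (ih α β n)
  · intro α β _ _ n
    by_cases hn : n = 0
    · subst hn
      let _ : Unique (XS 𝕜 PEmpty α β 0) :=
        { default := ⟨(0, 0, 0), ⟨Subsingleton.elim _ _, Subsingleton.elim _ _⟩, by simp,
            Subsingleton.elim _ _, Subsingleton.elim _ _⟩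
          uniq := fun q => Subtype.ext (Subsingleton.elim _ _) }
      refine h.homeo Unit _ triv _ _ (Homeomorph.homeomorphOfUnique Unit _)
        (fun _ _ => Subsingleton.elim _ _) ?_
      simpa using h.unit
    · have : IsEmpty (XS 𝕜 PEmpty α β n) := xs_isEmpty (by simpa using lt_or_gt_of_ne hn)
      exact h.empty _ _ _
  · intro ι _ ih α β _ _ n
    rcases lt_or_ge n 0 with hn | hn
    · have : IsEmpty (XS 𝕜 (Option ι) α β n) := xs_isEmpty (Or.inl hn)
      exact h.empty _ _ _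
    · have hn' : n = (n - 1) + 1 := by ring
      obtain ⟨j, hj⟩ := xs_ndr (𝕜 := 𝕜) (ι := ι) (α := α) (β := β) hn'
      refine h.ndr _ _ _ _ _ _ _ _ _ hj ?_ ?_
      · refine h.mono _ _ _ _ (le_of_eq ?_) (h.vec _ α _ _ (ih α β (n - 1)))
        rw [Fintype.card_option]
        push_cast
        ring
      · refine h.mono _ _ _ _ ?_ (h.vec _ β _ _ (ih (Option α) β n))
        rw [Fintype.card_option, Fintype.card_option]
        push_cast
        nlinarith

end RB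
end

-- merged part: Pool.Agent.Work.MP_666b5d_gt.Pow4
section
/-!
# Fourier data for cyclic groups; the restricted power operations are null

Proof hints.  `exists_powData`: `F k j = (√p)⁻¹ ζ ^ (k j)` with `ζ = exp (2 π i / p)`; for
`g ∈ ctx (p ℤ) false` the number `g.a 1` is a `p`-th root of unity `ζ ^ r`, and `π k = k + r`.
`exists_powData2`: `F = (√2)⁻¹ • !![1, i; 1, -i]`, weights `0, 1`; `π` is the identity or the swap.
`pow_null_cx`: `BM.pi` on `(ℝ × ℂ ^ (ι × K)) × [0, ∞)` with `h k ((s, W), r) = (s + r δ k, four W k)`,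
`δ k₀ = 0` and `δ k = 1` otherwise; `null_of_ray`.
`pow_null_re`: with the null-homotopy `N` of `f` use `BM.pi` for the two maps `N` and
`((s, w), t) ↦ conj (N ((-s, conj w), t))` (conjugation is `ea 0 τ`, `rp 0 τ`, `τ = ⟨1, -1⟩`);
`τ` acts with the permutation `not` (`four_rp`, `asm_ea`), and every element of `ctx ⊤ true` is `1`
or `τ`.
-/

open Set Filter Topology Matrix
open scoped unitInterval

namespace RB

open Act

theorem exists_powData (p : ℕ) [Fact p.Prime] :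
    ∃ D : PowData (ctx (AddSubgroup.zmultiples (p : ℤ)) false : Set (Gam ℤ)) (ZMod p) 0,
      ∀ j, D.wt j = (j.val : ℤ) := by
  have hp : 0 < p := (Fact.out : p.Prime).pos
  have hζ := Complex.isPrimitiveRoot_exp p hp.ne'
  let ψ : AddChar (ZMod p) ℂ := AddChar.zmodChar p hζ.pow_eq_one
  have hψ : ψ.IsPrimitive := AddChar.zmodChar_primitive_of_primitive_root p hζ
  have hc : (0 : ℝ) < (√p)⁻¹ := by positivity
  refine ⟨{
    F := Matrix.of fun k j => ((√p)⁻¹ : ℝ) * ψ (k * j)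
    wt := fun j => (j.val : ℤ)
    wt0 := by simp
    uni := ?_
    c := (√p)⁻¹
    hc := hc
    col := fun k => by simp
    perm := fun g hg => ?_ }, fun _ => rfl⟩
  · ext i j
    have h1 : ∀ k, star (((√p)⁻¹ : ℝ) * ψ (k * i)) * (((√p)⁻¹ : ℝ) * ψ (k * j)) =
        (p : ℂ)⁻¹ * ψ (k * (j - i)) := fun k => by
      have h2 : (((√p)⁻¹ : ℝ) : ℂ) * ((√p)⁻¹ : ℝ) = (p : ℂ)⁻¹ := by
        rw [← Complex.ofReal_mul, ← mul_inv, Real.mul_self_sqrt (Nat.cast_nonneg p)]
        simp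
      rw [star_mul', Complex.star_def, Complex.conj_ofReal, ← AddChar.map_neg_eq_conj, ← h2,
        show k * (j - i) = -(k * i) + k * j by ring, AddChar.map_add_eq_mul]
      ring
    simp only [Matrix.mul_apply, conjTranspose_apply, of_apply, h1]
    rw [← Finset.mul_sum, AddChar.sum_mulShift _ hψ, ZMod.card, one_apply]
    have hp' : (p : ℂ) ≠ 0 := Nat.cast_ne_zero.2 hp.ne'
    by_cases h : i = j
    · simp [h, hp']
    · simp [h, sub_eq_zero, Ne.symm h]
  · have h1 : ∀ m : ℕ, ch g (m : ℤ) = ch g 1 ^ m := fun m => by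
      rw [ch, ch, ← Circle.coe_pow, ← AddChar.map_nsmul_eq_pow, nsmul_one]
    have h2 : ch g 1 ^ p = 1 := by
      rw [← h1, ch_eq_one]
      exact hg.1 _ (AddSubgroup.mem_zmultiples _)
    obtain ⟨r, -, hr⟩ := hζ.eq_pow_of_pow_eq_one h2
    refine ⟨Equiv.addRight (r : ZMod p), fun k j => ?_⟩
    rw [hg.2 rfl, tw_one, h1, ← hr]
    simp only [of_apply, Equiv.coe_addRight]
    rw [add_mul, AddChar.map_add_eq_mul, ← nsmul_eq_mul r j, AddChar.map_nsmul_eq_pow, mul_assoc,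
      ← pow_mul, mul_comm r, pow_mul]
    rfl

theorem exists_powData2 :
    ∃ D : PowData (ctx (AddSubgroup.zmultiples (2 : ℤ)) true : Set (Gam ℤ)) Bool false,
      D.wt true = 1 ∧ ∀ k j, D.F k j = star (D.F (!k) j) := by
  have hc : (0 : ℝ) < (√2)⁻¹ := by positivity
  have h2 : (((√2)⁻¹ : ℝ) : ℂ) * ((√2)⁻¹ : ℝ) = 2⁻¹ := by
    rw [← Complex.ofReal_mul, ← mul_inv, Real.mul_self_sqrt zero_le_two]
    simp
  generalize (√2)⁻¹ = c at hc h2
  let F : Matrix Bool Bool ℂ :=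
    Matrix.of fun k j => c * cond j (cond k (-Complex.I) Complex.I) 1
  have h3 : ∀ k j, F k j = star (F (!k) j) := fun k j => by
    cases k <;> cases j <;> simp [F]
  refine ⟨{
    F := F
    wt := fun j => cond j 1 0
    wt0 := rfl
    uni := ?_
    c := c
    hc := hc
    col := fun k => by simp [F]
    perm := fun g hg => ?_ }, rfl, h3⟩
  · ext i j
    cases i <;> cases j <;>
      simp only [F, Matrix.mul_apply, conjTranspose_apply, of_apply, Fintype.sum_bool, cond_true,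
        cond_false, star_mul', Complex.star_def, Complex.conj_ofReal, map_neg, Complex.conj_I,
        map_one, one_apply, if_true, Bool.false_eq_true, Bool.true_eq_false, if_false]
    · linear_combination 2 * h2
    · ring
    · ring
    · linear_combination 2 * h2 - 2 * c * c * Complex.I_mul_I
  · have h4 : ch g 1 * ch g 1 = 1 := by
      rw [← ch_add, ch_eq_one]
      exact hg.1 _ (AddSubgroup.mem_zmultiples _)
    rcases mul_self_eq_one_iff.1 h4 with h5 | h5 <;> rcases Int.units_eq_one_or g.e with e | e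
    · refine ⟨1, fun k j => ?_⟩
      cases j <;> simp [e, tw_one, h5, ch_zero]
    · refine ⟨Equiv.boolNot, fun k j => ?_⟩
      cases k <;> cases j <;> simp [F, e, tw_neg_one, h5, ch_zero]
    · refine ⟨Equiv.boolNot, fun k j => ?_⟩
      cases k <;> cases j <;> simp [F, e, tw_one, h5, ch_zero]
    · refine ⟨1, fun k j => ?_⟩
      cases k <;> cases j <;> simp [F, e, tw_neg_one, h5, ch_zero]

variable {M : Type} [AddCommGroup M] {𝒢 : Set (Gam M)} {n n' : ℤ}

theorem Pow4_tup_perm {K Y : Type} (a : K → OnePoint Y) (π : Equiv.Perm K) (c : Y → Y) :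
    tup (fun k => (a (π k)).map c) = (tup a).map fun q k => c (q (π k)) := by
  by_cases h : ∀ k, ∃ y : Y, a k = y
  · choose q hq using h
    obtain rfl : a = fun k => (q k : OnePoint Y) := funext hq
    rw [tup_coe]
    exact tup_coe fun k => c (q (π k))
  · obtain ⟨k, hk⟩ := not_forall.1 h
    have h1 : a k = OnePoint.infty := by
      by_contra h2
      obtain ⟨y, hy⟩ := OnePoint.ne_infty_iff_exists.1 h2
      exact hk ⟨y, hy.symm⟩
    rw [tup_infty h1, tup_infty (k := π.symm k) (by rw [Equiv.apply_symm_apply, h1]; rfl)]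
    rfl

theorem Pow4_mem {K : Type} [Fintype K] [DecidableEq K] {k₀ : K} (D : PowData 𝒢 K k₀)
    (h : n' = Fintype.card K * n) {L : Lv M} {a : K → OnePoint (Ea L.κ × Unit)}
    (ha : ∀ k (y : Ea L.κ × Unit), a k = y → y ∈ (MU M).D (L.zero M) fun _ : Unit => n)
    {y : Ea (L.κ × K) × Unit}
    (hy : (tup a).map (fun q : K → Ea L.κ × Unit => (asm D.F D.uni fun k => (q k).1, ())) = y) :
    y ∈ (MU M).D (D.lv L) fun _ : Unit => n' := by
  obtain ⟨q, hq, rfl⟩ := omap_eq_coe.1 hy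
  have h1 : ∀ k, (q k).1.1.1.trace = n + (Fintype.card L.ι : ℂ) := fun k =>
    sub_eq_iff_eq_add.1 (ha k _ (OP_tup_eq hq k))
  change (asm D.F D.uni fun k => (q k).1).1.1.trace - (Fintype.card (L.ι × K) : ℂ) = (n' : ℂ)
  rw [asm_trace, h, Fintype.card_prod]
  simp only [h1, Finset.sum_const, Finset.card_univ, nsmul_eq_mul]
  push_cast
  ring

theorem Pow4_eqv_one {X Y : Type} [TopologicalSpace X] [TopologicalSpace Y] {α : Act (Gam M) X}
    {β : Act (Gam M) Y} (hα : GA univ α) (hβ : GA univ β) (f : BM X Y) (x : X) :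
    f.f (α 1 x) = (f.f x).map (β 1) := by
  rw [hα.one, funext hβ.one, omap_id]

theorem PowData.pow_null_cx {K : Type} [Fintype K] [DecidableEq K] [Nontrivial K] {k₀ : K}
    (D : PowData 𝒢 K k₀) (h : n' = Fintype.card K * n) {L : Lv M}
    {f : BM (ℝ × (L.ι → ℂ)) (Ea L.κ × Unit)}
    (hf : (MU M).Gd (ctx (⊤ : AddSubgroup M) false : Set (Gam M)) (sa sg) triv (fun _ => n)
      (L.zero M) f) :
    (MU M).Hm (ctx (⊤ : AddSubgroup M) false : Set (Gam M)) (sa sg) triv (fun _ => n') (D.lv L)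
      (D.pow f) BM.zero := by
  obtain ⟨k₁, hk₁⟩ := exists_ne k₀
  have hP : IsProperMap fun (x : (ℝ × (L.ι × K → ℂ)) × Ici (0 : ℝ)) (k : K) =>
      (x.1.1 + if k = k₀ then 0 else x.2.1, four D.F x.1.2 k) := by
    have h4 := four_proper (ι := L.ι) D.F D.uni
    refine isProperMap_of_comp_of_t2 (g := fun y : K → ℝ × (L.ι → ℂ) =>
      (((y k₀).1, fun k => (y k).2), projIci (0 : ℝ) ((y k₁).1 - (y k₀).1))) ?_ ?_ ?_
    · refine continuous_pi fun k => Continuous.prodMk ?_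
        ((continuous_apply k).comp (h4.continuous.comp continuous_fst.snd))
      split_ifs <;> fun_prop
    · refine Continuous.prodMk (by fun_prop) (Continuous.subtype_mk (by fun_prop) _)
    · convert (isProperMap_id.prodMap h4).prodMap (isProperMap_id (X := Ici (0 : ℝ))) using 1
      funext x
      refine Prod.ext (Prod.ext (by simp) rfl) ?_
      refine Subtype.ext ?_
      change max 0 (x.1.1 + (if k₁ = k₀ then 0 else x.2.1) -
        (x.1.1 + if k₀ = k₀ then 0 else x.2.1)) = x.2.1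
      rw [if_neg hk₁, if_pos rfl, add_zero, add_sub_cancel_left]
      exact max_eq_right x.2.2
  refine null_of_ray (H := (BM.pi (fun _ => f) _ hP).map _ (asm_proper D.F D.uni))
    ⟨fun g hg x => ?_, fun x y hy => Pow4_mem D h (fun k y hy => hf.mem _ y hy) hy⟩ fun x => ?_
  · rw [eq_one_of_mem_ctx_top hg]
    exact Pow4_eqv_one (((ga_sa ga_sg).prod (ga_rp _)).prod GA.triv) ((ga_ea _).prod GA.triv) _ x
  · simp only [PowData.pow, BM.map_f, BM.pi_f, ite_self, add_zero]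

theorem PowData.pow_null_re (D : PowData 𝒢 Bool false) (hD : ∀ k j, D.F k j = star (D.F (!k) j))
    (h : n' = Fintype.card Bool * n) {L : Lv M} {f : BM (ℝ × (L.ι → ℂ)) (Ea L.κ × Unit)}
    (hf : (MU M).Gd (ctx (⊤ : AddSubgroup M) true : Set (Gam M)) (sa sg) triv (fun _ => n)
      (L.zero M) f)
    (h0 : (MU M).Hm (ctx (⊤ : AddSubgroup M) false : Set (Gam M)) (sa sg) triv (fun _ => n)
      (L.zero M) f BM.zero) :
    (MU M).Hm (ctx (⊤ : AddSubgroup M) true : Set (Gam M)) (sa sg) triv (fun _ => n') (D.lv L)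
      (D.pow f) BM.zero := by
  obtain ⟨N, hN, hN0, hN1⟩ := h0
  let τ : Gam M := ⟨1, -1⟩
  have hτ : τ ∈ ctx (⊤ : AddSubgroup M) true := ⟨fun _ _ => rfl, fun h => absurd h (by decide)⟩
  have hττ : τ * τ = 1 :=
    Gam.ext (by simp [τ, Gam.mul_a, Gam.one_a]) (by simp [τ, Gam.mul_e, Gam.one_e])
  have gA : GA univ ((sa sg : Act (Gam M) ℝ).prod (rp (0 : L.ι → M))) :=
    (ga_sa ga_sg).prod (ga_rp _)
  have gB : GA univ ((ea (0 : L.κ → M)).prod (triv : Act (Gam M) Unit)) := (ga_ea _).prod GA.triv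
  let A := (sa sg : Act (Gam M) ℝ).prod (rp (0 : L.ι → M)) τ
  let c := (ea (0 : L.κ → M)).prod (triv : Act (Gam M) Unit) τ
  have hAA : ∀ x, A (A x) = x := fun x =>
    (gA.mul τ trivial τ trivial x).symm.trans (by rw [hττ, gA.one])
  have hcc : ∀ a : OnePoint (Ea L.κ × Unit), (a.map c).map c = a := fun a => by
    rw [omap_map]
    refine (omap_congr a fun y _ => ?_).trans (omap_id a)
    exact (gB.mul τ trivial τ trivial y).symm.trans (by rw [hττ, gB.one])
  have pA : IsProperMap A := GA.proper (𝒦 := ⊤) gA trivial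
  have pc : IsProperMap c := GA.proper (𝒦 := ⊤) gB trivial
  let N' : BM ((ℝ × (L.ι → ℂ)) × I) (Ea L.κ × Unit) :=
    (N.pre (Prod.map A id) (pA.prodMap isProperMap_id)).map c pc
  have hN' : ∀ x t, N'.f (x, t) = (N.f (A x, t)).map c := fun _ _ => rfl
  have hP : IsProperMap fun (x : (ℝ × (L.ι × Bool → ℂ)) × I) (k : Bool) =>
      ((x.1.1, four D.F x.1.2 k), x.2) := by
    have h4 := four_proper (ι := L.ι) D.F D.uni
    refine isProperMap_of_comp_of_t2 (g := fun y : Bool → (ℝ × (L.ι → ℂ)) × I =>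
      (((y false).1.1, fun k => (y k).1.2), (y false).2)) ?_ (by fun_prop)
      ((isProperMap_id.prodMap h4).prodMap isProperMap_id)
    exact continuous_pi fun k => (continuous_fst.fst.prodMk
      ((continuous_apply k).comp (h4.continuous.comp continuous_fst.snd))).prodMk continuous_snd
  have hperm : ∀ k j, D.F k j * ch τ (D.wt j) = tw τ.e (D.F (Equiv.boolNot k) j) := fun k j =>
    (mul_one _).trans ((hD k j).trans (tw_neg_one _).symm)
  refine ⟨(BM.pi (fun k => cond k N' N) _ hP).map _ (asm_proper D.F D.uni),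
    ⟨fun g hg x => ?_, fun x y hy => Pow4_mem D h (fun k y hy => ?_) hy⟩, fun x => ?_, fun x => ?_⟩
  · rcases Int.units_eq_one_or g.e with e | e
    · rw [eq_one_of_mem_ctx_top ⟨hg.1, fun _ => e⟩]
      exact Pow4_eqv_one (((ga_sa ga_sg).prod (ga_rp _)).prod GA.triv) ((ga_ea _).prod GA.triv) _ x
    · obtain rfl : g = τ := Gam.ext (EE3_small g hg) e
      have h1 : ∀ k : Bool, (cond k N' N).f
          ((sg τ.e x.1.1, four D.F (rp (fun p : L.ι × Bool => D.wt p.2) τ x.1.2) k), x.2) =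
          ((cond (Equiv.boolNot k) N' N).f
            ((x.1.1, four D.F x.1.2 (Equiv.boolNot k)), x.2)).map c := by
        intro k
        rw [D.four_rp hperm]
        cases k
        · exact (hcc _).symm
        · exact (hN' (A (x.1.1, four D.F x.1.2 false)) x.2).trans (by rw [hAA]; rfl)
      rw [BM.map_f, BM.map_f, BM.pi_f, BM.pi_f]
      refine (congrArg (fun a => (tup a).map _) (funext h1)).trans ?_
      rw [Pow4_tup_perm (fun k => (cond k N' N).f ((x.1.1, four D.F x.1.2 k), x.2)) Equiv.boolNot c,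
        omap_map, omap_map]
      exact omap_congr _ fun q _ => Prod.ext (D.asm_ea hperm fun k => (q k).1) rfl
  · cases k
    · exact hN.mem _ y hy
    · obtain ⟨y', h1, rfl⟩ := omap_eq_coe.1 hy
      exact ((mu_grp.dg (L.zero M) τ y'.1).trans (hN.mem _ y' h1) :)
  · rw [PowData.pow, BM.map_f, BM.map_f, BM.pi_f, BM.pi_f]
    refine congrArg (fun a => (tup a).map _) (funext fun k => ?_)
    cases k
    · exact hN0 _
    · refine (hN' _ _).trans ?_
      rw [hN0]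
      exact (congrArg (OnePoint.map c) (hf.eqv τ hτ _)).trans (hcc _)
  · rw [BM.map_f, BM.pi_f, tup_infty (k := false) (hN1 _)]
    rfl

end RB
end

-- merged part: Pool.Agent.Work.MP_666b5d_gt.Sph
section
/-!
# Stable homotopy groups; connectivity

Proof hints.  In `big` take the maximum and constant paths (`Tr.const`).  `cellCl_conn`:
`van_empty`, `van_homeoY`, `tgt_exact` with `TNDR.prodR`, `TNDR.of_empty`; for a point use
`sphere_conn'` at the level of the representative.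
-/

open Set Filter Topology Module
open scoped unitInterval

namespace RB

open Act

theorem Sph_cont {m m' : ℕ} : Continuous fun (p : (Fin m → ℂ) × (Fin m' → ℂ)) (i : Fin m') =>
    if hi : i.1 < m then p.1 ⟨i.1, hi⟩ else p.2 i := by
  refine continuous_pi fun i => ?_
  by_cases hi : i.1 < m
  · simp only [dif_pos hi]
    fun_prop
  · simp only [dif_neg hi]
    fun_prop

/-- Suspension from `ℂ ^ m` to `ℂ ^ m'`. -/
noncomputable def incTr {m m' : ℕ} (h : m ≤ m') :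
    Tr (Fin m → ℂ) (Fin m → ℂ) (Fin m' → ℂ) (Fin m' → ℂ) where
  a b := b ∘ Fin.castLE h
  Ψ p i := if hi : i.1 < m then p.1 ⟨i.1, hi⟩ else p.2 i
  ca := continuous_pi fun _ => continuous_apply _
  cΨ := Sph_cont
  p1 := fun K' hK' =>
    ⟨(fun b : Fin m' → ℂ => b ∘ Fin.castLE h) '' K',
      hK'.image (continuous_pi fun _ => continuous_apply _),
      fun t x hx => ⟨_, hx, funext fun i => dif_pos i.2⟩⟩
  p2 := fun K' C hK' hC =>
    ⟨_, (hC.prod hK').image Sph_cont, fun t x hx hx' => ⟨(_, _), ⟨hx', hx⟩, funext fun i => by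
      by_cases hi : i.1 < m
      · exact dif_pos hi
      · exact (dif_neg hi).trans (dif_neg hi)⟩⟩

theorem Sph_eqv {m m' : ℕ} (h : m ≤ m') : (incTr h).Eqv (univ : Set ℤˣ) cj cj cj cj := by
  refine ⟨fun g _ x => funext fun i => ?_, fun g _ t x => funext fun i => ?_⟩
  · exact (XS_tw_pi g x _).trans (XS_tw_pi g ((incTr h).a x) i).symm
  · refine Eq.trans ?_ (XS_tw_pi g ((incTr h).Ψ (t, x)) i).symm
    by_cases hi : i.1 < m
    · exact ((dif_pos hi).trans (XS_tw_pi g t _)).trans (congrArg (tw g) (dif_pos hi).symm)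
    · exact ((dif_neg hi).trans (XS_tw_pi g x _)).trans (congrArg (tw g) (dif_neg hi).symm)

theorem Sph_comp {m m' m'' : ℕ} (h : m ≤ m') (h' : m' ≤ m'') :
    (incTr h).comp (incTr h') = incTr (h.trans h') := by
  refine Tr.ext (fun _ => rfl) fun t x => funext fun i => ?_
  change (if hi : i.1 < m' then (if hj : i.1 < m then t ⟨i.1, hj⟩ else x (Fin.castLE h' ⟨i.1, hi⟩))
    else x i) = if hi : i.1 < m then t ⟨i.1, hi⟩ else x i
  by_cases hj : i.1 < m
  · rw [dif_pos (hj.trans_le h), dif_pos hj, dif_pos hj]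
  · rw [dif_neg hj]
    by_cases hi : i.1 < m'
    · rw [dif_pos hi, dif_neg hj]
      rfl
    · rw [dif_neg hi]

/-- Splitting off the last coordinate. -/
noncomputable def Sph_c (m : ℕ) : (Fin (m + 1) → ℂ) ≃ₜ (Fin m → ℂ) × ℂ where
  toFun b := (b ∘ Fin.castLE (Nat.le_succ m), b (Fin.last m))
  invFun p i := if hi : i.1 < m then p.1 ⟨i.1, hi⟩ else p.2
  left_inv b := funext fun i => by
    by_cases hi : i.1 < m
    · exact dif_pos hi
    · exact (dif_neg hi).trans (congrArg b (Fin.ext (by have := i.2; simp only [Fin.val_last]; omega)))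
  right_inv p := Prod.ext (funext fun i => dif_pos i.2) (dif_neg (lt_irrefl m))
  continuous_toFun := (continuous_pi fun _ => continuous_apply _).prodMk (continuous_apply _)
  continuous_invFun := by
    refine continuous_pi fun i => ?_
    by_cases hi : i.1 < m
    · simp only [dif_pos hi]
      fun_prop
    · simp only [dif_neg hi]
      fun_prop

theorem Sph_c_eqv (m : ℕ) (g : ℤˣ) (b : Fin (m + 1) → ℂ) :
    Sph_c m (cj g b) = (cj g (Sph_c m b).1, tw g (Sph_c m b).2) :=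
  Prod.ext ((Sph_eqv (Nat.le_succ m)).ea g trivial b) (XS_tw_pi g b _)

theorem Sph_c_Ψ (m : ℕ) (t : Fin m → ℂ) (b : Fin (m + 1) → ℂ) :
    (incTr (Nat.le_succ m)).Ψ (t, b) = (Sph_c m).symm (t, (Sph_c m b).2) := by
  funext i
  change (if hi : i.1 < m then t ⟨i.1, hi⟩ else b i) =
    if hi : i.1 < m then t ⟨i.1, hi⟩ else b (Fin.last m)
  by_cases hi : i.1 < m
  · rw [dif_pos hi, dif_pos hi]
  · rw [dif_neg hi, dif_neg hi]
    exact congrArg b (Fin.ext (by have := i.2; simp only [Fin.val_last]; omega))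

/-- The system of spheres. -/
noncomputable abbrev sph : Sys.{0} ℤˣ id where
  Lv := ℕ
  B m := Fin m → ℂ
  T m := Fin m → ℂ
  bα _ := cj
  tα _ := cj
  dg _ _ := 0
  Mor m m' := {τ | ∃ h : m ≤ m', τ = incTr h}
  L0 := 0
  eqv := by
    rintro L L' μ ⟨h, rfl⟩
    exact Sph_eqv h
  dg_eq := fun _ _ _ => rfl
  comp_mem := by
    rintro L L' L'' μ ν ⟨h, rfl⟩ ⟨h', rfl⟩
    exact ⟨h.trans h', Sph_comp h h'⟩
  big := by
    intro L L'
    refine ⟨max L L', _, ⟨le_max_left L L', rfl⟩, _, ⟨le_max_right L L', rfl⟩, ?_⟩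
    rintro μ ⟨h, rfl⟩
    refine ⟨(incTr (le_max_left L L')).const, (Sph_eqv _).const, fun _ _ => rfl,
      Tr.ext (fun _ => rfl) fun _ _ => rfl, ?_⟩
    rw [Sph_comp]
    exact Tr.ext (fun _ => rfl) fun _ _ => rfl
  suc := fun L => ⟨L + 1, _, ⟨Nat.le_succ L, rfl⟩, Sph_c L, (Sph_c L).symm, Sph_c_eqv L,
    PMap.homeo_symm _ fun g _ b => Sph_c_eqv L g b, fun _ _ => rfl, fun _ => rfl, Sph_c_Ψ L⟩

/-- Stable homotopy classes. -/
abbrev PiS (X Y : Type) [TopologicalSpace X] [TopologicalSpace Y] [LC X] [LC Y] : Type :=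
  E sph ∅ (triv : Act ℤˣ X) (triv : Act ℤˣ Y) fun _ => 0

/-- Stable homotopy groups. -/
abbrev PiJ (X Y : Type) [TopologicalSpace X] [TopologicalSpace Y] [LC X] [LC Y] : Type :=
  E sph ∅ ((triv : Act ℤˣ X).prod (triv : Act ℤˣ J)) (triv : Act ℤˣ Y) fun _ => 0

/-- The stable homotopy groups vanish below dimension `c`. -/
def Conn (Y : Type) [TopologicalSpace Y] [LC Y] (c : ℤ) : Prop :=
  ∀ (A B : Type) [NormedAddCommGroup A] [NormedSpace ℝ A] [FiniteDimensional ℝ A]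
    [NormedAddCommGroup B] [NormedSpace ℝ B] [FiniteDimensional ℝ B],
    (finrank ℝ A : ℤ) < c + finrank ℝ B → ∀ x : PiS A (Y × B), x = 0

theorem Sph_unit {A B : Type} [NormedAddCommGroup A] [NormedSpace ℝ A] [FiniteDimensional ℝ A]
    [NormedAddCommGroup B] [NormedSpace ℝ B] [FiniteDimensional ℝ B]
    (h : finrank ℝ A < finrank ℝ B) (x : PiS A (Unit × B)) : x = 0 := by
  obtain ⟨L, f, hf, rfl⟩ := cl_surj x
  have h0 : Ht0 f BM.zero :=
    sphere_conn' (A := A × (Fin L → ℂ)) (B := (Fin L → ℂ) × B) (Homeomorph.refl _)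
      ((Homeomorph.refl _).prodCongr (Homeomorph.uniqueProd Unit B))
      (by rw [finrank_prod, finrank_prod]; omega) f
  have h1 : sph.Hm ∅ (triv : Act ℤˣ A) (triv : Act ℤˣ (Unit × B)) (fun _ => 0) L f BM.zero :=
    h0.of_empty.monoD fun _ _ => (Int.cast_zero (R := ℂ)).symm
  exact cl_eq_zero_of_ht h1

theorem cellCl_conn (𝕜 : Type) [RCLike 𝕜] :
    CellCl 𝕜 fun Y _ _ _ c => Conn Y (finrank ℝ 𝕜 * c) := by
  refine ⟨?_, ?_, ?_, ?_, ?_, ?_⟩
  · intro Y _ _ _ β c A B _ _ _ _ _ _ _ x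
    exact van_empty x
  · intro Y Y' _ _ _ _ β β' c e _ h A B _ _ _ _ _ _ hc x
    exact van_homeoY (e.symm.prodCongr (Homeomorph.refl B)) (fun _ hg => hg.elim) (fun _ => rfl)
      (h A B hc) x
  · intro Y _ _ β c c' hcc h A B _ _ _ _ _ _ hc x
    have h1 : (finrank ℝ 𝕜 : ℤ) * c' ≤ finrank ℝ 𝕜 * c :=
      mul_le_mul_of_nonneg_left hcc (Int.natCast_nonneg _)
    exact h A B (by omega) x
  · intro Z Y U _ _ _ _ _ _ βZ β βU i j c H hZ hU A B _ _ _ _ _ _ hc x
    have H' := (H.prodR (triv : Act ℤˣ B)).of_empty (triv : Act ℤˣ (Z × B)) (triv : Act ℤˣ (Y × B))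
      (triv : Act ℤˣ (U × B))
    obtain ⟨z, rfl⟩ := tgt_exact H' (IsLocallyConstant.const 0) (dZ := fun _ => 0)
      (dU := fun _ => 0) (fun _ => rfl) (fun _ => rfl) x (hU A B hc _)
    rw [hZ A B hc z]
    exact postP_zero _ _
  · intro Y ν _ _ _ β c h A B _ _ _ _ _ _ hc x
    refine van_homeoY (Homeomorph.prodAssoc Y (ν → 𝕜) B) (fun _ hg => hg.elim) (fun _ => rfl)
      (h A ((ν → 𝕜) × B) ?_) x
    rw [finrank_prod, finrank_pi_fintype, Finset.sum_const, Finset.card_univ, smul_eq_mul]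
    push_cast
    linarith
  · intro A B _ _ _ _ _ _ hc x
    exact Sph_unit (by omega) x

theorem Conn.piJ {Y : Type} [TopologicalSpace Y] [LC Y] {c : ℤ} (h : Conn Y c) {A B : Type}
    [NormedAddCommGroup A] [NormedSpace ℝ A] [FiniteDimensional ℝ A] [NormedAddCommGroup B]
    [NormedSpace ℝ B] [FiniteDimensional ℝ B] (hc : (finrank ℝ A : ℤ) + 1 < c + finrank ℝ B)
    (x : PiJ A (Y × B)) : x = 0 := by
  refine van_homeo ((Homeomorph.refl A).prodCongr eJ.symm) (fun _ hg => hg.elim)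
    (h (A × ℝ) B ?_) x
  rw [finrank_prod, finrank_self]
  push_cast
  exact hc

end RB
end

-- merged part: Pool.Agent.Work.MP_666b5d_gt.Cmp
section
/-!
# From stable homotopy to complex bordism

Proof hints.  For a trivial group of symmetries all maps are equivariant, and `cl_mor`, `cl_reidx`
hold for all matrices.  Compatibility of `Th` with `incTr h`: with `ρ = {i : Fin m' // m ≤ i}` use
`cl_stab` for `ρ` and `cl_reidx` along `Fin m ⊕ ρ ≃ Fin m'`.  `Th_reg`: a representative at level `m`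
is regrouped into one at level `m + card ν` through `Fin m ⊕ ν ≃ Fin (m + card ν)`; `cl_reidx`.
`Th_surj`: `exists_rep0`, `BM.lift` along `xsEa`, level `0`.
-/

set_option linter.unusedSectionVars false

open Set Filter Topology Module
open scoped unitInterval

namespace RB

open Act

variable {M : Type} [AddCommGroup M] {A Z Z' : Type} [TopologicalSpace A] [TopologicalSpace Z]
  [TopologicalSpace Z'] [LC A] [LC Z] [LC Z'] {𝒢 : Set (Gam M)} {α : Act (Gam M) A} {n : ℤ}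
  {ι ι' κ κ' ν : Type} [Fintype ι] [DecidableEq ι] [Fintype ι'] [DecidableEq ι'] [Fintype κ]
  [DecidableEq κ] [Fintype κ'] [DecidableEq κ'] [Fintype ν] [DecidableEq ν]

/-- The group of symmetries is trivial. -/
def TrivG (𝒢 : Set (Gam M)) (α : Act (Gam M) A) : Prop := ∀ g ∈ 𝒢, g = 1 ∧ ∀ x, α g x = x

theorem trivG_ctx (h : GA univ α) : TrivG (ctx (⊤ : AddSubgroup M) false : Set (Gam M)) α := by
  intro g hg
  obtain rfl := eq_one_of_mem_ctx_top hg
  exact ⟨rfl, h.one⟩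

section Aux

variable {S S' X Y : Type} [TopologicalSpace X] [TopologicalSpace Y] {𝒦 : Set S} {a : Act S X}
  {b : Act S Y} {D : Set Y}

theorem Cmp_good (ha : ∀ g ∈ 𝒦, ∀ x, a g x = x) (hb : ∀ g ∈ 𝒦, ∀ y, b g y = y) {f : BM X Y}
    (hf : ∀ x (y : Y), f.f x = y → y ∈ D) : Good 𝒦 a b D f :=
  ⟨fun g hg x => by rw [ha g hg, funext (hb g hg), omap_id], hf⟩

theorem Cmp_ht (ha : ∀ g ∈ 𝒦, ∀ x, a g x = x) (hb : ∀ g ∈ 𝒦, ∀ y, b g y = y) {𝒦' : Set S'}
    {a' : Act S' X} {b' : Act S' Y} {f g : BM X Y} (h : Ht 𝒦' a' b' D f g) : Ht 𝒦 a b D f g := by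
  obtain ⟨H, hH, h0, h1⟩ := h
  exact ⟨H, Cmp_good (a := a.prod triv) (fun g hg p => Prod.ext (ha g hg p.1) rfl) hb hH.mem,
    h0, h1⟩

theorem Cmp_pmap {a' : Act S X} {b' : Act S Y} {h : X → Y} (hh : IsProperMap h) :
    PMap (∅ : Set S) a' b' h := ⟨hh, fun _ hg => hg.elim⟩

theorem Cmp_elim {μ ρ : Type} {u : X → μ → ℂ} {t : X → ρ → ℂ} (hu : Continuous u)
    (ht : Continuous t) : Continuous fun x => Sum.elim (u x) (t x) := by
  refine continuous_pi fun i => ?_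
  rcases i with i | i
  · exact (continuous_apply i).comp hu
  · exact (continuous_apply i).comp ht

theorem Cmp_sub {μ ρ : Type} {u : X → μ → ℂ} (hu : Continuous u) (c : ρ → μ) :
    Continuous fun x => u x ∘ c :=
  continuous_pi fun i => (continuous_apply (c i)).comp hu

theorem Cmp_gdS [LC X] [LC Y] {a' : Act ℤˣ X} {b' : Act ℤˣ Y} (m : ℕ)
    (f : BM (X × (Fin m → ℂ)) ((Fin m → ℂ) × Y)) : sph.Gd ∅ a' b' (fun _ => 0) m f :=
  ⟨fun _ hg => hg.elim, fun _ _ _ => Int.cast_zero.symm⟩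

end Aux

omit [TopologicalSpace A] [LC A] [Fintype ι] [DecidableEq ι] in
theorem Cmp_src (ht : TrivG 𝒢 α) (w : ι → M) :
    ∀ g ∈ 𝒢, ∀ x, ((α.prod (triv : Act (Gam M) J)).prod (rp w)) g x = x := by
  intro g hg x
  refine Prod.ext (Prod.ext ((ht g hg).2 _) rfl) ?_
  rw [(ht g hg).1]
  exact (ga_rp w).one _

omit [TopologicalSpace A] [LC A] [DecidableEq κ] in
theorem Cmp_tgt (ht : TrivG 𝒢 α) (u : κ → M) :
    ∀ g ∈ 𝒢, ∀ y, ((ea u).prod (triv : Act (Gam M) Unit)) g y = y := by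
  intro g hg y
  refine Prod.ext ?_ rfl
  rw [(ht g hg).1]
  exact (ga_ea u).one _

theorem Cmp_reidx (ht : TrivG 𝒢 α) {L L' : Lv M} (a : L.ι ≃ L'.ι) (b : L.κ ↪ L'.κ)
    {f : BM ((A × J) × (L.ι → ℂ)) (Ea L.κ × Unit)}
    (hf : (MU M).Gd 𝒢 (α.prod triv) triv (fun _ => n) L f)
    {f' : BM ((A × J) × (L'.ι → ℂ)) (Ea L'.κ × Unit)}
    (hf' : (MU M).Gd 𝒢 (α.prod triv) triv (fun _ => n) L' f')
    (he : ∀ x v, f'.f (x, v) = (f.f (x, v ∘ a)).map fun p => (Ea.ext0 b p.1, p.2)) :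
    cl (sy := MU M) L' f' hf' = cl (sy := MU M) L f hf :=
  cl_reidx a b (fun g hg _ => by rw [(ht g hg).1, ch_one, ch_one])
    (fun g hg _ => by rw [(ht g hg).1, ch_one, ch_one]) hf hf' he

/-- Merging the last two index sets. -/
def Cmp_mrg (κ : Type) {μ ν ρ : Type} (c : μ ⊕ ν ≃ ρ) : (κ ⊕ μ) ⊕ ν ≃ κ ⊕ ρ :=
  (Equiv.sumAssoc κ μ ν).trans ((Equiv.refl κ).sumCongr c)

omit [DecidableEq κ] in
theorem Cmp_assoc (c : ι ⊕ ν ≃ ι') (q : Ea κ) {u : ι → ℂ} {t : ν → ℂ} {w : ι' → ℂ}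
    (hu : ∀ i, w (c (Sum.inl i)) = u i) (ht : ∀ i, w (c (Sum.inr i)) = t i) :
    Ea.ext0 (Cmp_mrg κ c).toEmbedding (Ea.sum (Ea.sum q (Ea.full u)) (Ea.full t)) =
      Ea.sum q (Ea.full w) := by
  refine Ea.ext0_eq _ ?_ (fun j hj => absurd ((Cmp_mrg κ c).surjective j) hj) ?_
  · rintro ((j | j) | j) ((k | k) | k) <;>
      simp [Cmp_mrg, Ea.sum, Ea.full, Matrix.one_apply]
  · rintro ((j | j) | j)
    · rfl
    · exact hu j
    · exact ht j

omit [DecidableEq κ] in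
theorem Cmp_ext_refl (q : Ea κ) : Ea.ext0 (Function.Embedding.refl κ) q = q :=
  Ea.ext0_eq _ (fun _ _ => rfl) (fun j' hj' => absurd ⟨j', rfl⟩ hj') fun _ => rfl

omit [DecidableEq κ] [DecidableEq κ'] [DecidableEq ν] in
theorem Cmp_ext_sum (b : κ' ↪ κ) (q : Ea κ') (r : Ea ν) :
    Ea.ext0 (b.sumMap (Function.Embedding.refl ν)) (Ea.sum q r) = Ea.sum (Ea.ext0 b q) r := by
  classical
  have e0 : ∀ j' ∉ range b, ∀ j, emb b j' j = 0 := fun j' hj j =>
    if_neg fun e => hj ⟨j, e.symm⟩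
  have e1 : ∀ j k, emb b (b j) k = (1 : Matrix κ' κ' ℂ) j k := fun j k => by
    simp [emb, Matrix.one_apply]
  refine Ea.ext0_eq _ ?_ ?_ ?_
  · rintro (j | j) (k | k)
    · change (emb b * q.1.1 * (emb b).conjTranspose) (b j) (b k) = q.1.1 j k
      simp [Matrix.mul_apply, e1, Matrix.one_apply]
    · rfl
    · rfl
    · rfl
  · rintro (j | j) hj (k | k)
    · change (emb b * q.1.1 * (emb b).conjTranspose) j k = 0
      simp [Matrix.mul_apply, e0 j fun ⟨i, hi⟩ => hj ⟨Sum.inl i, congrArg Sum.inl hi⟩]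
    · rfl
    · rfl
    · exact absurd ⟨Sum.inr j, rfl⟩ hj
  · rintro (j | j)
    · change (emb b).mulVec q.1.2 (b j) = q.1.2 j
      simp [Matrix.mulVec, dotProduct, e1, Matrix.one_apply]
    · rfl

omit [DecidableEq ι] [DecidableEq ν] [Fintype ι] [Fintype ν] in
theorem Cmp_P : IsProperMap fun p : (A × J) × (ι ⊕ ν → ℂ) =>
    (((p.1.1, p.2 ∘ Sum.inl), p.1.2), p.2 ∘ Sum.inr) := by
  refine proper_of_leftInverse (r := fun q => ((q.1.1.1, q.1.2), Sum.elim q.1.1.2 q.2))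
    (((continuous_fst.fst.prodMk (Cmp_sub continuous_snd _)).prodMk continuous_fst.snd).prodMk
      (Cmp_sub continuous_snd _))
    ((continuous_fst.fst.fst.prodMk continuous_fst.snd).prodMk
      (Cmp_elim continuous_fst.fst.snd continuous_snd)) fun p => Prod.ext rfl ?_
  exact Sum.elim_comp_inl_inr p.2

omit [LC Z] [DecidableEq κ] in
theorem Cmp_Q {θ : Z → Ea κ} (hθ : IsProperMap θ) :
    IsProperMap fun q : (ν → ℂ) × Z => (Ea.sum (θ q.2) (Ea.full q.1), ()) :=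
  (Homeomorph.prodUnique _ Unit).symm.isProperMap.comp (Ea.sum_proper.comp
    ((hθ.prodMap Ea.full_proper).comp (Homeomorph.prodComm _ _).isProperMap))

omit [TopologicalSpace Z] [LC Z] in
theorem Cmp_D {θ : Z → Ea κ} (hd : ∀ z, (θ z).1.1.trace = ((n + Fintype.card ι : ℤ) : ℂ))
    (q : (ν → ℂ) × Z) : (Ea.sum (θ q.2) (Ea.full q.1), ()) ∈
      (MU M).D (Lv.mk (ι ⊕ ν) (κ ⊕ ν) 0 0) fun _ : Unit => n := by
  change (Ea.sum (θ q.2) (Ea.full q.1)).1.1.trace - (Fintype.card (ι ⊕ ν) : ℂ) = (n : ℂ)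
  rw [Ea.sum_trace, Ea.full_trace, hd, Fintype.card_sum]
  push_cast
  ring

/-- The comparison on representatives. -/
noncomputable def thB (θ : Z → Ea κ) (hθ : IsProperMap θ) {m : ℕ}
    (f : BM (((A × (ι → ℂ)) × J) × (Fin m → ℂ)) ((Fin m → ℂ) × Z)) :
    BM ((A × J) × (ι ⊕ Fin m → ℂ)) (Ea (κ ⊕ Fin m) × Unit) :=
  ⟨fun p => (f.f (((p.1.1, p.2 ∘ Sum.inl), p.1.2), p.2 ∘ Sum.inr)).map
    fun q => (Ea.sum (θ q.2) (Ea.full q.1), ()),
    by exact ((f.pre _ Cmp_P).map _ (Cmp_Q hθ)).cont,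
    by exact ((f.pre _ Cmp_P).map _ (Cmp_Q hθ)).tend⟩

omit [DecidableEq ι] [DecidableEq κ] [Fintype ι] in
theorem Cmp_thB_f (θ : Z → Ea κ) (hθ : IsProperMap θ) {m : ℕ}
    (f : BM (((A × (ι → ℂ)) × J) × (Fin m → ℂ)) ((Fin m → ℂ) × Z)) (x : A × J)
    (v : ι ⊕ Fin m → ℂ) : (thB θ hθ f).f (x, v) =
      (f.f (((x.1, v ∘ Sum.inl), x.2), v ∘ Sum.inr)).map
        fun q => (Ea.sum (θ q.2) (Ea.full q.1), ()) := rfl

theorem gd_th (ht : TrivG 𝒢 α) {θ : Z → Ea κ} (hθ : IsProperMap θ)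
    (hd : ∀ z, (θ z).1.1.trace = ((n + Fintype.card ι : ℤ) : ℂ)) {m : ℕ}
    (f : BM (((A × (ι → ℂ)) × J) × (Fin m → ℂ)) ((Fin m → ℂ) × Z)) :
    (MU M).Gd 𝒢 (α.prod (triv : Act (Gam M) J)) (triv : Act (Gam M) Unit) (fun _ => n)
      (Lv.mk (ι ⊕ Fin m) (κ ⊕ Fin m) 0 0) (thB θ hθ f) := by
  refine Cmp_good (Cmp_src ht _) (Cmp_tgt ht _) fun x y hy => ?_
  obtain ⟨q, -, rfl⟩ := omap_eq_coe.1 hy
  exact Cmp_D hd q

theorem Cmp_hh (ht : TrivG 𝒢 α) {θ : Z → Ea κ} (hθ : IsProperMap θ)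
    (hd : ∀ z, (θ z).1.1.trace = ((n + Fintype.card ι : ℤ) : ℂ)) {m : ℕ}
    {f g : BM (((A × (ι → ℂ)) × J) × (Fin m → ℂ)) ((Fin m → ℂ) × Z)}
    (h : sph.Hm ∅ ((triv : Act ℤˣ (A × (ι → ℂ))).prod (triv : Act ℤˣ J)) triv (fun _ => 0) m f g) :
    (MU M).Hm 𝒢 (α.prod (triv : Act (Gam M) J)) (triv : Act (Gam M) Unit) (fun _ => n)
      (Lv.mk (ι ⊕ Fin m) (κ ⊕ Fin m) 0 0) (thB θ hθ f) (thB θ hθ g) :=
  Cmp_ht (Cmp_src ht _) (Cmp_tgt ht _) ((h.pre (Cmp_pmap (a' := triv) Cmp_P)).map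
    (Cmp_pmap (b' := triv) (Cmp_Q hθ)) fun q _ => Cmp_D hd q)

theorem Cmp_hm (ht : TrivG 𝒢 α) {θ : Z → Ea κ} (hθ : IsProperMap θ)
    (hd : ∀ z, (θ z).1.1.trace = ((n + Fintype.card ι : ℤ) : ℂ)) {m m' : ℕ} (h : m ≤ m')
    (f : BM (((A × (ι → ℂ)) × J) × (Fin m → ℂ)) ((Fin m → ℂ) × Z)) :
    cl (sy := MU M) (Lv.mk (ι ⊕ Fin m') (κ ⊕ Fin m') 0 0) (thB θ hθ ((incTr h).tr f))
        (gd_th ht hθ hd _) =
      cl (sy := MU M) (Lv.mk (ι ⊕ Fin m) (κ ⊕ Fin m) 0 0) (thB θ hθ f) (gd_th ht hθ hd f) := by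
  obtain ⟨k, rfl⟩ := Nat.exists_eq_add_of_le h
  let L : Lv M := Lv.mk (ι ⊕ Fin m) (κ ⊕ Fin m) 0 0
  have hμ : (MU_stab L.ι L.κ (Fin k)).tr ∈ (MU M).Mor L (L.stab (0 : Fin k → M)) :=
    ⟨_, MU_stab_inv L.w L.u _, rfl⟩
  refine Eq.trans (Cmp_reidx ht (L := L.stab (0 : Fin k → M))
    (L' := Lv.mk (ι ⊕ Fin (m + k)) (κ ⊕ Fin (m + k)) 0 0) (Cmp_mrg ι finSumFinEquiv)
    (Cmp_mrg κ finSumFinEquiv).toEmbedding (gd_tr hμ (gd_th ht hθ hd f)) _ fun x v => ?_)
    (cl_tr hμ (gd_th ht hθ hd f))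
  have e1 : ((MU_stab L.ι L.κ (Fin k)).tr.tr (thB θ hθ f)).f (x, v ∘ Cmp_mrg ι finSumFinEquiv) =
      ((thB θ hθ f).f (x, (v ∘ Cmp_mrg ι finSumFinEquiv) ∘ Sum.inl)).map fun p =>
        (Ea.sum p.1 (Ea.full ((v ∘ Cmp_mrg ι finSumFinEquiv) ∘ Sum.inr)), p.2) := by
    rw [← MU_stab_a (κ := L.κ)]
    exact omap_congr _ fun p _ => Prod.ext (MU_stab_Ψ p.1 _) rfl
  rw [e1, Cmp_thB_f, Cmp_thB_f, Tr.ap_f, omap_map, omap_map, omap_map]
  refine omap_congr _ fun q _ => Prod.ext (Cmp_assoc _ _ (fun i => ?_) fun i => ?_).symm rfl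
  · exact dif_pos i.2
  · exact dif_neg (Nat.le_add_right m i).not_gt

/-- The comparison homomorphism. -/
noncomputable def Th (ht : TrivG 𝒢 α) (ι : Type) [Fintype ι] [DecidableEq ι] (θ : Z → Ea κ)
    (hθ : IsProperMap θ) (hd : ∀ z, (θ z).1.1.trace = ((n + Fintype.card ι : ℤ) : ℂ)) :
    PiJ (A × (ι → ℂ)) Z →+ E0 𝒢 (α.prod (triv : Act (Gam M) J)) n :=
  AddMonoidHom.mk'
    (E.lift (sy := sph) (sy' := MU M) (fun m : ℕ => Lv.mk (ι ⊕ Fin m) (κ ⊕ Fin m) 0 0)
      (fun _ f => thB θ hθ f) (fun _ f _ => gd_th ht hθ hd f) (fun _ _ _ h => Cmp_hh ht hθ hd h)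
      (by
        rintro m m' _ ⟨h, rfl⟩ f -
        exact Cmp_hm ht hθ hd h f))
    (E.lift_add fun _ f g => cat_nat (f := f) (g := g) fun a v =>
      Or.inr ⟨(a, v ∘ Sum.inl), v ∘ Sum.inr,
        OnePoint.map fun q => (Ea.sum (θ q.2) (Ea.full q.1), ()), rfl, fun _ => ⟨rfl, rfl, rfl⟩⟩)

theorem Th_cl (ht : TrivG 𝒢 α) {θ : Z → Ea κ} (hθ : IsProperMap θ)
    (hd : ∀ z, (θ z).1.1.trace = ((n + Fintype.card ι : ℤ) : ℂ)) (m : ℕ) (f) (hf) :
    Th ht ι θ hθ hd (cl (sy := sph) m f hf) =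
      cl (sy := MU M) (Lv.mk (ι ⊕ Fin m) (κ ⊕ Fin m) 0 0) (thB θ hθ f) (gd_th ht hθ hd f) := rfl

theorem Th_postP (ht : TrivG 𝒢 α) {θ : Z → Ea κ} (hθ : IsProperMap θ)
    (hd : ∀ z, (θ z).1.1.trace = ((n + Fintype.card ι : ℤ) : ℂ)) {p : Z' → Z}
    (hp : PMap (∅ : Set ℤˣ) triv triv p) {θ' : Z' → Ea κ'} (hθ' : IsProperMap θ')
    (hd' : ∀ z, (θ' z).1.1.trace = ((n + Fintype.card ι : ℤ) : ℂ)) (b : κ' ↪ κ)
    (he : ∀ z, θ (p z) = Ea.ext0 b (θ' z)) (ξ : PiJ (A × (ι → ℂ)) Z') :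
    Th ht ι θ hθ hd (postP hp (fun _ => rfl) ξ) = Th ht ι θ' hθ' hd' ξ := by
  obtain ⟨m, f, hf, rfl⟩ := cl_surj ξ
  rw [postP_cl, Th_cl, Th_cl]
  refine Cmp_reidx ht (L := Lv.mk (ι ⊕ Fin m) (κ' ⊕ Fin m) 0 0)
    (L' := Lv.mk (ι ⊕ Fin m) (κ ⊕ Fin m) 0 0) (Equiv.refl _)
    (b.sumMap (Function.Embedding.refl _)) _ _ fun x v => ?_
  rw [Cmp_thB_f, Cmp_thB_f, BM.map_f, omap_map, omap_map]
  refine omap_congr _ fun q _ => Prod.ext ?_ rfl
  exact (congrArg (fun r => Ea.sum r (Ea.full q.1)) (he q.2)).trans (Cmp_ext_sum b _ _).symm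

theorem Th_reidx (ht : TrivG 𝒢 α) {θ : Z → Ea κ} (hθ : IsProperMap θ) (c : ι ≃ ι')
    (hd : ∀ z, (θ z).1.1.trace = ((n + Fintype.card ι : ℤ) : ℂ))
    (hd' : ∀ z, (θ z).1.1.trace = ((n + Fintype.card ι' : ℤ) : ℂ)) (ξ' : PiJ (A × (ι' → ℂ)) Z) :
    ∃ ξ, Th ht ι' θ hθ hd' ξ' = Th ht ι θ hθ hd ξ := by
  obtain ⟨m, f, hf, rfl⟩ := cl_surj ξ'
  have hP : IsProperMap fun p : ((A × (ι → ℂ)) × J) × (Fin m → ℂ) =>
      (((p.1.1.1, p.1.1.2 ∘ c.symm), p.1.2), p.2) := by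
    refine proper_of_leftInverse (r := fun p => (((p.1.1.1, p.1.1.2 ∘ c), p.1.2), p.2))
      (((continuous_fst.fst.fst.prodMk (Cmp_sub continuous_fst.fst.snd _)).prodMk
        continuous_fst.snd).prodMk continuous_snd)
      (((continuous_fst.fst.fst.prodMk (Cmp_sub continuous_fst.fst.snd _)).prodMk
        continuous_fst.snd).prodMk continuous_snd)
      fun p => Prod.ext (Prod.ext (Prod.ext rfl (funext fun i => ?_)) rfl) rfl
    exact congrArg p.1.1.2 (c.symm_apply_apply i)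
  refine ⟨cl (sy := sph) m (f.pre _ hP) (Cmp_gdS m _), ?_⟩
  rw [Th_cl, Th_cl]
  refine Cmp_reidx ht (L := Lv.mk (ι ⊕ Fin m) (κ ⊕ Fin m) 0 0)
    (L' := Lv.mk (ι' ⊕ Fin m) (κ ⊕ Fin m) 0 0) (c.sumCongr (Equiv.refl _))
    (Function.Embedding.refl _) _ _ fun x v => ?_
  rw [Cmp_thB_f, Cmp_thB_f, BM.pre_f, omap_map]
  have e : ((v ∘ c.sumCongr (Equiv.refl (Fin m))) ∘ Sum.inl) ∘ c.symm = v ∘ Sum.inl :=
    funext fun i => congrArg (fun j => v (Sum.inl j)) (c.apply_symm_apply i)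
  simp only [e, Cmp_ext_refl]
  rfl

theorem Th_reg (ht : TrivG 𝒢 α) {θ : Z → Ea κ} (hθ : IsProperMap θ)
    (hd : ∀ z, (θ z).1.1.trace = ((n + Fintype.card ι : ℤ) : ℂ)) {θ' : Z × (ν → ℂ) → Ea (κ ⊕ ν)}
    (hθ' : IsProperMap θ') (hd' : ∀ z, (θ' z).1.1.trace = ((n + Fintype.card (ι ⊕ ν) : ℤ) : ℂ))
    (he : ∀ z w, θ' (z, w) = Ea.sum (θ z) (Ea.full w)) (ξ' : PiJ (A × (ι ⊕ ν → ℂ)) (Z × (ν → ℂ))) :
    ∃ ξ, Th ht (ι ⊕ ν) θ' hθ' hd' ξ' = Th ht ι θ hθ hd ξ := by
  obtain ⟨m, f, hf, rfl⟩ := cl_surj ξ'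
  obtain ⟨m', ⟨c⟩⟩ : ∃ m', Nonempty (ν ⊕ Fin m ≃ Fin m') := ⟨_, ⟨Fintype.equivFin _⟩⟩
  have hP : IsProperMap fun p : ((A × (ι → ℂ)) × J) × (Fin m' → ℂ) =>
      (((p.1.1.1, Sum.elim p.1.1.2 (p.2 ∘ c ∘ Sum.inl)), p.1.2), p.2 ∘ c ∘ Sum.inr) := by
    refine proper_of_leftInverse (r := fun p => (((p.1.1.1, p.1.1.2 ∘ Sum.inl), p.1.2),
        Sum.elim (p.1.1.2 ∘ Sum.inr) p.2 ∘ c.symm))
      (((continuous_fst.fst.fst.prodMk (Cmp_elim continuous_fst.fst.snd
        (Cmp_sub continuous_snd _))).prodMk continuous_fst.snd).prodMk (Cmp_sub continuous_snd _))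
      (((continuous_fst.fst.fst.prodMk (Cmp_sub continuous_fst.fst.snd _)).prodMk
        continuous_fst.snd).prodMk
          (Cmp_sub (Cmp_elim (Cmp_sub continuous_fst.fst.snd _) continuous_snd) _))
      fun p => Prod.ext rfl (funext fun i => ?_)
    obtain ⟨j | j, rfl⟩ := c.surjective i <;> simp
  have hQ : IsProperMap fun q : (Fin m → ℂ) × Z × (ν → ℂ) =>
      (Sum.elim q.2.2 q.1 ∘ c.symm, q.2.1) := by
    refine proper_of_leftInverse (r := fun q => (q.1 ∘ c ∘ Sum.inr, q.2, q.1 ∘ c ∘ Sum.inl))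
      ((Cmp_sub (Cmp_elim continuous_snd.snd continuous_fst) _).prodMk continuous_snd.fst)
      ((Cmp_sub continuous_fst _).prodMk (continuous_snd.prodMk (Cmp_sub continuous_fst _)))
      fun q => Prod.ext (funext fun i => ?_) (Prod.ext rfl (funext fun i => ?_)) <;> simp
  refine ⟨cl (sy := sph) m' ((f.pre _ hP).map _ hQ) (Cmp_gdS m' _), ?_⟩
  rw [Th_cl, Th_cl]
  refine (Cmp_reidx ht (L := Lv.mk ((ι ⊕ ν) ⊕ Fin m) ((κ ⊕ ν) ⊕ Fin m) 0 0)
    (L' := Lv.mk (ι ⊕ Fin m') (κ ⊕ Fin m') 0 0) (Cmp_mrg ι c) (Cmp_mrg κ c).toEmbedding _ _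
    fun x v => ?_).symm
  rw [Cmp_thB_f, Cmp_thB_f, BM.map_f, BM.pre_f, omap_map, omap_map]
  have e : (v ∘ Cmp_mrg ι c) ∘ Sum.inl = Sum.elim (v ∘ Sum.inl) ((v ∘ Sum.inr) ∘ c ∘ Sum.inl) :=
    funext fun i => by rcases i with i | i <;> rfl
  rw [e]
  refine omap_congr _ fun q _ => Prod.ext ?_ rfl
  obtain ⟨t, z, u⟩ := q
  dsimp only
  rw [he]
  exact (Cmp_assoc c _ (fun i => by simp) fun i => by simp).symm

/-- The component of rank `N` of the tautological bundle, with a trivial summand. -/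
def xsEa {N : ℤ} (p : XS ℂ κ Unit Empty N × (ν → ℂ)) : Ea (κ ⊕ ν) :=
  Ea.sum ⟨(p.1.1.1, fun j => p.1.1.2.1 j ()),
    p.1.2.1, funext fun j => congrFun (congrFun p.1.2.2.2.1 j) ()⟩ (Ea.full p.2)

/-- The inclusion of the component of rank `N`. -/
def Cmp_xs {N : ℤ} (p : XS ℂ κ Unit Empty N) : Ea κ :=
  ⟨(p.1.1, fun j => p.1.2.1 j ()), p.2.1, funext fun j => congrFun (congrFun p.2.2.2.1 j) ()⟩

omit [DecidableEq κ] in
theorem Cmp_xs_proper {N : ℤ} : IsProperMap (Cmp_xs : XS ℂ κ Unit Empty N → Ea κ) := by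
  have h1 : Continuous fun q : Matrix κ Unit ℂ × Matrix κ Empty ℂ => fun j => q.1 j () :=
    continuous_pi fun j => continuous_fst.matrix_elem j ()
  have h2 : IsProperMap fun q : Matrix κ Unit ℂ × Matrix κ Empty ℂ => fun j => q.1 j () :=
    proper_of_leftInverse (r := fun v => (Matrix.of fun j _ => v j, 0)) h1
      ((continuous_matrix fun j _ => continuous_apply j).prodMk continuous_const)
      fun q => Prod.ext rfl (Matrix.ext fun _ e => e.elim)
  exact proper_to_ea (Continuous.subtype_mk (XS_val.fst.prodMk (h1.comp XS_val.snd)) _)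
    (h2.comp xs_proper)

theorem xsEa_proper {N : ℤ} : IsProperMap (xsEa : XS ℂ κ Unit Empty N × (ν → ℂ) → Ea (κ ⊕ ν)) :=
  Ea.sum_proper.comp (Cmp_xs_proper.prodMap Ea.full_proper)

theorem xsEa_trace {N : ℤ} (h : n + Fintype.card ι = N + Fintype.card ν)
    (p : XS ℂ κ Unit Empty N × (ν → ℂ)) :
    (xsEa p).1.1.trace = ((n + Fintype.card ι : ℤ) : ℂ) := by
  change (Ea.sum (Cmp_xs p.1) (Ea.full p.2)).1.1.trace = _
  rw [Ea.sum_trace, Ea.full_trace, h]
  push_cast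
  exact congrArg (· + _) p.1.2.2.1

/-- The classes that come from the tautological bundle of rank `N` on `ℂ ^ κ`. -/
def RR (ht : TrivG 𝒢 α) (n : ℤ) (κ : Type) [Fintype κ] [DecidableEq κ] (N : ℤ) :
    Set (E0 𝒢 (α.prod (triv : Act (Gam M) J)) n) :=
  {x | ∃ (ι ν : Type) (_ : Fintype ι) (_ : DecidableEq ι) (_ : Fintype ν) (_ : DecidableEq ν)
    (h : n + Fintype.card ι = N + Fintype.card ν)
    (ξ : PiJ (A × (ι → ℂ)) (XS ℂ κ Unit Empty N × (ν → ℂ))),
    x = Th ht ι xsEa xsEa_proper (xsEa_trace h) ξ}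

theorem Th_surj (ht : TrivG 𝒢 α) (x : E0 𝒢 (α.prod (triv : Act (Gam M) J)) n) :
    ∃ (κ : Type) (_ : Fintype κ) (_ : DecidableEq κ) (N : ℤ), n ≤ N ∧ x ∈ RR ht n κ N := by
  obtain ⟨L, f, hf, rfl⟩ := cl_surj x
  have hi : IsClosedEmbedding fun p : XS ℂ L.κ Unit Empty (n + Fintype.card L.ι) =>
      (Cmp_xs p, ()) := by
    have h1 := (Homeomorph.prodUnique _ Unit).symm.isProperMap.comp
      (Cmp_xs_proper (κ := L.κ) (N := n + Fintype.card L.ι))
    refine .of_continuous_injective_isClosedMap h1.continuous (fun p q e => ?_) h1.isClosedMap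
    have h2 := congrArg (fun r : Ea L.κ × Unit => r.1.1.1) e
    have h3 := congrArg (fun r : Ea L.κ × Unit => r.1.1.2) e
    exact Subtype.ext (Prod.ext h2 (Prod.ext
      (Matrix.ext fun j _ => congrFun h3 j) (Matrix.ext fun _ e => e.elim)))
  have hr : ∀ x (y : Ea L.κ × Unit), f.f x = y → y ∈ range
      fun p : XS ℂ L.κ Unit Empty (n + Fintype.card L.ι) => (Cmp_xs p, ()) := by
    intro x y hy
    have h1 : y.1.1.1.trace - (Fintype.card L.ι : ℂ) = (n : ℂ) := hf.mem x y hy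
    refine ⟨⟨(y.1.1.1, Matrix.of fun j _ => y.1.1.2 j, 0), y.1.2.1, ?_,
      Matrix.ext fun j _ => congrFun y.1.2.2 j, Matrix.mul_zero _⟩, rfl⟩
    push_cast
    exact eq_add_of_sub_eq h1
  have hP : IsProperMap fun p : ((A × (L.ι → ℂ)) × J) × (Fin 0 → ℂ) =>
      ((p.1.1.1, p.1.2), p.1.1.2) :=
    proper_of_leftInverse (r := fun q => (((q.1.1, q.2), q.1.2), 0)) (by fun_prop) (by fun_prop)
      fun _ => Prod.ext rfl (Subsingleton.elim _ _)
  have hQ : IsProperMap fun p : XS ℂ L.κ Unit Empty (n + Fintype.card L.ι) =>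
      ((0 : Fin 0 → ℂ), p, (0 : Empty → ℂ)) :=
    proper_of_leftInverse (r := fun q => q.2.1) (by fun_prop) (by fun_prop) fun _ => rfl
  refine ⟨L.κ, inferInstance, inferInstance, n + Fintype.card L.ι, by omega, L.ι, Empty,
    inferInstance, inferInstance, inferInstance, inferInstance, by simp,
    cl (sy := sph) 0 (((f.lift _ hi hr).pre _ hP).map _ hQ) (Cmp_gdS 0 _), ?_⟩
  rw [Th_cl]
  refine (Cmp_reidx ht (L' := Lv.mk (L.ι ⊕ Fin 0) ((L.κ ⊕ Empty) ⊕ Fin 0) 0 0)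
    (Equiv.sumEmpty _ _).symm (Function.Embedding.inl.trans Function.Embedding.inl) hf _
    fun x v => ?_).symm
  rw [Cmp_thB_f, BM.map_f, BM.pre_f, omap_map, ← f.lift_map _ hi hr, omap_map]
  refine omap_congr _ fun p _ => Prod.ext (Ea.ext0_eq _ (fun _ _ => rfl) ?_ fun _ => rfl).symm rfl
  rintro ((j | j) | j) hj
  · exact absurd ⟨j, rfl⟩ hj
  · exact j.elim
  · exact j.elim0

end RB
end

-- merged part: Pool.Agent.Work.MP_666b5d_gt.Freud1
section
/-!
# Freudenthal surjectivity, step 1: separating the preimages of two poles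

Proof plan.  Smooth `f` (`smooth_near`, `R = 10`).  The `C¹` map
`(x, s, s') ↦ (F (x, s), F (x, s'))` from `A × ℝ × ℝ` to `(B × ℝ) × (B × ℝ)` has a range with dense
complement, so there are `p = (p₀, p₁)` near `(0, 1)` and `q = (q₀, q₁)` near `(0, -1)` with `(p, q)`
outside the range.  The projections to `A` of the compact sets `f'⁻¹ p`, `f'⁻¹ q` are disjoint;
their last coordinates are bounded by `M`.  Take (Urysohn) a bounded continuous `h : A → ℝ` equal
to `-(M + 1)` on the first and `M + 1` on the second, and shear: `(x, s) ↦ f' (x, s + t * h x)`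
(`Ht.of_pre`).  Finally compose with the path of affine homeomorphisms of `B × ℝ`
`L_λ (y, t) = (y - λ • (q₀ + τ • (p₀ - q₀)), (1 - λ) t + λ (2 τ - 1))`, `τ = (t - q₁) / (p₁ - q₁)`,
which ends in a map sending `p` to `(0, 1)` and `q` to `(0, -1)`.
-/

open Set Filter Topology OnePoint Module
open scoped unitInterval

namespace RB

variable {A B : Type} [NormedAddCommGroup A] [NormedSpace ℝ A] [FiniteDimensional ℝ A]
  [NormedAddCommGroup B] [NormedSpace ℝ B] [FiniteDimensional ℝ B]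

section Aux

variable {X Y : Type} [TopologicalSpace X] [TopologicalSpace Y] [LC Y]

/-- A path of maps with a continuous path of left inverses is proper. -/
theorem Freud1_proper {L G : Y × I → Y} (hL : Continuous L) (hG : Continuous G)
    (h : ∀ y t, G (L (y, t), t) = y) : IsProperMap L := by
  refine proper_of_compact hL fun K hK => ?_
  refine ⟨(G '' (K ×ˢ univ)) ×ˢ univ,
    ((hK.prod isCompact_univ).image hG).prod isCompact_univ, fun z hz => ?_⟩
  exact ⟨⟨(L z, z.2), ⟨hz, trivial⟩, h z.1 z.2⟩, trivial⟩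

/-- Deformation in the target. -/
theorem Freud1_map (f : BM X Y) {L G : Y × I → Y} (hL : Continuous L) (hG : Continuous G)
    (h : ∀ y t, G (L (y, t), t) = y) (h0 : ∀ y, L (y, 0) = y) :
    ∃ f' : BM X Y, Ht0 f f' ∧ ∀ x, f'.f x = (f.f x).map fun y => L (y, 1) := by
  have hp := Freud1_proper hL hG h
  refine ⟨((f.prodId I).map L hp).pre _ (proper_at 1),
    ⟨(f.prodId I).map L hp, Good.empty_univ _, fun x => ?_, fun x => rfl⟩, fun x => ?_⟩
  · simp only [BM.map_f, BM.prodId_f, omap_map, h0, omap_id]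
  · simp only [BM.pre_f, BM.map_f, BM.prodId_f, omap_map]

/-- Deformation in the source. -/
theorem Freud1_pre (f : BM Y X) {L G : Y × I → Y} (hL : Continuous L) (hG : Continuous G)
    (h : ∀ y t, G (L (y, t), t) = y) (h0 : ∀ y, L (y, 0) = y) :
    ∃ f' : BM Y X, Ht0 f f' ∧ ∀ y, f'.f y = f.f (L (y, 1)) := by
  have hp := Freud1_proper hL hG h
  refine ⟨(f.pre L hp).pre _ (proper_at 1),
    ⟨f.pre L hp, Good.empty_univ _, fun x => ?_, fun x => rfl⟩, fun x => rfl⟩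
  simp only [BM.pre_f, h0]

end Aux

/-- Two points whose preimages have disjoint projections. -/
theorem Freud1_points (h : finrank ℝ A < 2 * finrank ℝ B)
    {F : A × ℝ → B × ℝ} (hF : ContDiff ℝ 1 F) :
    ∃ p q : B × ℝ, ‖p‖ < 10 ∧ ‖q‖ < 10 ∧ q.2 < p.2 ∧ ∀ x s s', F (x, s) = p → F (x, s') ≠ q := by
  let Φ : A × ℝ × ℝ → (B × ℝ) × (B × ℝ) := fun z => (F (z.1, z.2.1), F (z.1, z.2.2))
  have hΦ : ContDiff ℝ 1 Φ := by
    refine ContDiff.prodMk (hF.comp ?_) (hF.comp ?_) <;> fun_prop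
  have hd : Dense (range Φ)ᶜ := by
    refine hΦ.dense_compl_range_of_finrank_lt_finrank ?_
    simp only [finrank_prod, finrank_self]
    omega
  have hW : IsOpen {w : (B × ℝ) × (B × ℝ) | ‖w.1‖ < 10 ∧ ‖w.2‖ < 10 ∧ w.2.2 < w.1.2} := by
    exact (isOpen_lt continuous_fst.norm continuous_const).inter
      ((isOpen_lt continuous_snd.norm continuous_const).inter
        (isOpen_lt continuous_snd.snd continuous_fst.snd))
  obtain ⟨w, hw, hw'⟩ := hd.inter_open_nonempty _ hW ⟨((0, 1), (0, -1)), by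
    simp only [mem_ofPred_eq, Prod.norm_def, norm_zero, norm_neg, norm_one]
    norm_num⟩
  refine ⟨w.1, w.2, hw.1, hw.2.1, hw.2.2, fun x s s' e e' => hw' ⟨(x, s, s'), ?_⟩⟩
  exact Prod.ext e e'

omit [NormedSpace ℝ B] [FiniteDimensional ℝ B] in
/-- The shear in the source. -/
theorem Freud1_shear (f : BM (A × ℝ) (B × ℝ)) {p q : B × ℝ}
    (hpq : ∀ x s s', f.f (x, s) = p → f.f (x, s') ≠ q) :
    ∃ f' : BM (A × ℝ) (B × ℝ), Ht0 f f' ∧ (∀ x s, s ≤ 0 → f'.f (x, s) ≠ p) ∧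
      ∀ x s, 0 ≤ s → f'.f (x, s) ≠ q := by
  have hc : ∀ r : B × ℝ, IsCompact {z | f.f z = r} := fun r => by
    have := f.isCompact_pre (isCompact_singleton (x := r))
    simpa using this
  obtain ⟨M, hM⟩ := (((hc p).union (hc q)).image continuous_snd).isBounded.exists_norm_le
  have hM' : ∀ x s, f.f (x, s) = p ∨ f.f (x, s) = q → |s| ≤ M := fun x s hs =>
    hM s ⟨(x, s), hs, rfl⟩
  obtain ⟨u, u0, u1, -⟩ := exists_continuous_zero_one_of_isClosed
    ((hc p).image continuous_fst).isClosed ((hc q).image continuous_fst).isClosed (by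
      rw [Set.disjoint_left]
      rintro _ ⟨z, hz, rfl⟩ ⟨z', hz', e⟩
      refine hpq z.1 z.2 z'.2 hz ?_
      rw [← e]
      exact hz')
  have hu := u.continuous
  obtain ⟨f', H, hf'⟩ := Freud1_pre f
    (L := fun z => (z.1.1, z.1.2 + (z.2 : ℝ) * ((M + 1) * (2 * u z.1.1 - 1))))
    (G := fun z => (z.1.1, z.1.2 - (z.2 : ℝ) * ((M + 1) * (2 * u z.1.1 - 1))))
    (by fun_prop) (by fun_prop) (fun y t => by simp) (fun y => by simp)
  refine ⟨f', H, fun x s hs e => ?_, fun x s hs e => ?_⟩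
  · rw [hf'] at e
    have h0 : u x = 0 := u0 ⟨_, e, rfl⟩
    have := hM' _ _ (Or.inl e)
    simp only [h0, Icc.coe_one] at this
    linarith [(abs_le.1 this).1]
  · rw [hf'] at e
    have h1 : u x = 1 := u1 ⟨_, e, rfl⟩
    have := hM' _ _ (Or.inr e)
    simp only [h1, Icc.coe_one] at this
    linarith [(abs_le.1 this).2]

/-- Moving two points to the poles. -/
theorem Freud1_move {X : Type} [TopologicalSpace X] (f : BM X (B × ℝ)) {p q : B × ℝ}
    (hpq : q.2 < p.2) :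
    ∃ f' : BM X (B × ℝ), Ht0 f f' ∧
      (∀ x, f'.f x = (((0 : B), (1 : ℝ)) : B × ℝ) → f.f x = p) ∧
      ∀ x, f'.f x = (((0 : B), (-1 : ℝ)) : B × ℝ) → f.f x = q := by
  obtain ⟨d, hd⟩ : ∃ d, d = p.2 - q.2 := ⟨_, rfl⟩
  have d0 : 0 < d := by linarith
  obtain ⟨φ, hφ⟩ : ∃ φ : ℝ → B, φ = fun t => q.1 + ((t - q.2) / d) • (p.1 - q.1) := ⟨_, rfl⟩
  have cφ : Continuous φ := by
    rw [hφ]
    fun_prop
  obtain ⟨f₁, H₁, hf₁⟩ := Freud1_map f
    (L := fun z => (z.1.1 - (z.2 : ℝ) • φ z.1.2, z.1.2))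
    (G := fun z => (z.1.1 + (z.2 : ℝ) • φ z.1.2, z.1.2))
    (by fun_prop) (by fun_prop) (fun y t => by simp) (fun y => by simp)
  have hc : ∀ t : I, (1 - (t : ℝ)) + t * (2 / d) ≠ 0 := fun t => by
    have h1 : 0 < 2 / d := by positivity
    have h2 := t.2.1
    have h3 := t.2.2
    rcases h2.eq_or_lt with h | h
    · rw [← h]
      norm_num
    · have := mul_pos h h1
      linarith
  obtain ⟨f₂, H₂, hf₂⟩ := Freud1_map f₁
    (L := fun z => (z.1.1, ((1 - (z.2 : ℝ)) + z.2 * (2 / d)) * z.1.2 - z.2 * (2 * q.2 / d + 1)))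
    (G := fun z => (z.1.1, (z.1.2 + z.2 * (2 * q.2 / d + 1)) / ((1 - (z.2 : ℝ)) + z.2 * (2 / d))))
    (by fun_prop)
    ((continuous_fst.comp continuous_fst).prodMk
      (Continuous.div (by fun_prop) (by fun_prop) fun z => hc z.2))
    (fun y t => by
      refine Prod.ext rfl ?_
      dsimp only
      rw [sub_add_cancel, mul_div_cancel_left₀ _ (hc t)])
    (fun y => by simp)
  have key : ∀ x (r : ℝ), f₂.f x = (((0 : B), r) : B × ℝ) →
      ∃ y : B × ℝ, f.f x = y ∧ y.1 = φ y.2 ∧ 2 * (y.2 - q.2) = (r + 1) * d := by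
    intro x r e
    rw [hf₂, hf₁, omap_map, omap_eq_coe] at e
    obtain ⟨y, e₁, e₂⟩ := e
    refine ⟨y, e₁, ?_, ?_⟩
    · have := congrArg Prod.fst e₂
      simp only [Icc.coe_one, one_smul] at this
      exact sub_eq_zero.1 this
    · have := congrArg Prod.snd e₂
      simp only [Icc.coe_one] at this
      rw [← this]
      field_simp
      ring
  refine ⟨f₂, H₁.trans H₂, fun x e => ?_, fun x e => ?_⟩
  · obtain ⟨y, e₁, e₂, e₃⟩ := key x 1 e
    have e₄ : y.2 = p.2 := by linarith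
    rw [e₁]
    congr 1
    refine Prod.ext ?_ e₄
    rw [e₂, e₄, hφ]
    dsimp only
    rw [← hd, div_self d0.ne', one_smul, add_sub_cancel]
  · obtain ⟨y, e₁, e₂, e₃⟩ := key x (-1) e
    have e₄ : y.2 = q.2 := by linarith
    rw [e₁]
    congr 1
    refine Prod.ext ?_ e₄
    rw [e₂, e₄, hφ]
    simp

theorem freud_sep (h : finrank ℝ A < 2 * finrank ℝ B) (f : BM (A × ℝ) (B × ℝ)) :
    ∃ f' : BM (A × ℝ) (B × ℝ), Ht0 f f' ∧
      (∀ x s, s ≤ 0 → f'.f (x, s) ≠ (((0 : B), (1 : ℝ)) : B × ℝ)) ∧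
      ∀ x s, 0 ≤ s → f'.f (x, s) ≠ (((0 : B), (-1 : ℝ)) : B × ℝ) := by
  obtain ⟨f₁, H₁, F, hF, hf₁⟩ := smooth_near f 10
  obtain ⟨p, q, hp, hq, hpq, hs⟩ := Freud1_points h hF
  obtain ⟨f₂, H₂, h₁, h₂⟩ := Freud1_shear f₁ (p := p) (q := q) fun x s s' e e' =>
    hs x s s' (hf₁ _ _ e hp).symm (hf₁ _ _ e' hq).symm
  obtain ⟨f₃, H₃, k₁, k₂⟩ := Freud1_move f₂ hpq
  exact ⟨f₃, (H₁.trans H₂).trans H₃, fun x s hs e => h₁ x s hs (k₁ _ e),
    fun x s hs e => h₂ x s hs (k₂ _ e)⟩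

end RB
end

-- merged part: Pool.Agent.Work.MP_666b5d_gt.Freud2
section
/-!
# Freudenthal surjectivity, step 2

Let `p = (0, 1)`, `q = (0, -1)`, `V = B × ℝ`.  The deformation
`(y, t) ↦ d⁻¹ • (y, t * n)`, `d = 1 - τ * min |t| 1`, `n = d + τ * (|t| - 1)` (and `∞` where `d = 0`)
deforms `V⁺ - {p, q}` into the equator `B⁺` and fixes `∞`; applied to `f (x, 0)` it ends in
`(g x, 0)`.  On `s ≥ 0` both `f` and `g × id` miss `q`, on `s ≤ 0` both miss `p`; the homotopy on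
`s = 0` extends over both half spaces (`Freud2_half`).
-/

open Set Filter Topology OnePoint Module
open scoped unitInterval

namespace RB

section deform

variable {Z V : Type} [TopologicalSpace Z] [NormedAddCommGroup V] [NormedSpace ℝ V]

open Classical in
theorem Freud2_quot {u : Z → V} {d : Z → ℝ} (hu : Continuous u) (hd : Continuous d) {z₀ : Z}
    (h : d z₀ = 0 → u z₀ ≠ 0) :
    ContinuousAt (fun z => if d z = 0 then ∞ else (((d z)⁻¹ • u z : V) : OnePoint V)) z₀ := by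
  by_cases h0 : d z₀ = 0
  · rw [ContinuousAt, if_pos h0]
    refine OP_tend.2 fun K hK => ?_
    obtain ⟨R, hR⟩ := hK.isBounded.exists_norm_le
    have h1 : ∀ᶠ z in 𝓝 z₀, R * |d z| < ‖u z‖ :=
      ContinuousAt.eventually_lt (by fun_prop) (by fun_prop)
        (by simpa [h0] using h h0)
    filter_upwards [h1] with z hz y e hy
    split_ifs at e with h2
    · exact absurd e (infty_ne_coe y)
    · have h3 := hR y hy
      rw [← coe_eq_coe.1 e, norm_smul, norm_inv, Real.norm_eq_abs,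
        inv_mul_le_iff₀ (abs_pos.2 h2)] at h3
      linarith
  · refine ContinuousAt.congr (f := fun z => (((d z)⁻¹ • u z : V) : OnePoint V))
      (continuous_coe.continuousAt.comp ((hd.continuousAt.inv₀ h0).smul hu.continuousAt)) ?_
    filter_upwards [hd.continuousAt.eventually_ne h0] with z hz
    rw [if_neg hz]

/-- The denominator of the deformation. -/
noncomputable def Freud2_d (t τ : ℝ) : ℝ := 1 - τ * min |t| 1

/-- The numerator of the deformation. -/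
noncomputable def Freud2_n (t τ : ℝ) : ℝ := 1 - τ + τ * max (|t| - 1) 0

theorem Freud2_d_le (t : ℝ) (τ : I) : Freud2_d t τ ≤ 1 :=
  sub_le_self _ (mul_nonneg τ.2.1 (le_min (abs_nonneg _) zero_le_one))

theorem Freud2_d_nonneg (t : ℝ) (τ : I) : 0 ≤ Freud2_d t τ :=
  sub_nonneg.2 (mul_le_one₀ τ.2.2 (le_min (abs_nonneg _) zero_le_one) (min_le_right _ _))

theorem Freud2_n_nonneg (t : ℝ) (τ : I) : 0 ≤ Freud2_n t τ :=
  add_nonneg (sub_nonneg.2 τ.2.2) (mul_nonneg τ.2.1 (le_max_right _ _))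

theorem Freud2_n_le {t : ℝ} (ht : |t| ≤ 1) (τ : I) : Freud2_n t τ ≤ Freud2_d t τ := by
  rw [Freud2_n, Freud2_d, min_eq_left ht, max_eq_right (sub_nonpos.2 ht)]
  nlinarith [τ.2.1]

theorem Freud2_d_le_n {t : ℝ} (ht : 1 ≤ |t|) (τ : I) : Freud2_d t τ ≤ Freud2_n t τ := by
  rw [Freud2_n, Freud2_d, min_eq_right ht, max_eq_left (sub_nonneg.2 ht)]
  nlinarith [τ.2.1]

theorem Freud2_d_zero {t : ℝ} {τ : I} (h : Freud2_d t τ = 0) :
    1 ≤ |t| ∧ Freud2_n t τ = |t| - 1 := by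
  have h1 : 0 ≤ min |t| 1 := le_min (abs_nonneg _) zero_le_one
  have h2 : min |t| 1 ≤ 1 := min_le_right _ _
  have h3 : min |t| 1 ≤ |t| := min_le_left _ _
  rw [Freud2_d] at h
  have h4 : 1 ≤ |t| := by nlinarith [τ.2.1, τ.2.2]
  rw [min_eq_right h4] at h
  refine ⟨h4, ?_⟩
  rw [Freud2_n, max_eq_left (sub_nonneg.2 h4), show (τ : ℝ) = 1 by linarith]
  ring

open Classical in
/-- The deformation of the complement of the poles into the equator. -/
noncomputable def Freud2_k (z : V × ℝ) (τ : I) : OnePoint (V × ℝ) :=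
  if Freud2_d z.2 τ = 0 then ∞
  else (((Freud2_d z.2 τ)⁻¹ • (z.1, z.2 * Freud2_n z.2 τ) : V × ℝ) : OnePoint (V × ℝ))

theorem Freud2_k_eq {z w : V × ℝ} {τ : I} (e : Freud2_k z τ = w) :
    0 < Freud2_d z.2 τ ∧ z.1 = Freud2_d z.2 τ • w.1 ∧
      z.2 * Freud2_n z.2 τ = Freud2_d z.2 τ * w.2 := by
  rw [Freud2_k] at e
  split_ifs at e with h
  · exact absurd e (infty_ne_coe w)
  · refine ⟨lt_of_le_of_ne (Freud2_d_nonneg _ _) (Ne.symm h), ?_, ?_⟩
    · rw [← coe_eq_coe.1 e, Prod.smul_fst, smul_smul, mul_inv_cancel₀ h, one_smul]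
    · rw [← coe_eq_coe.1 e, Prod.smul_snd, smul_eq_mul, ← mul_assoc, mul_inv_cancel₀ h, one_mul]

theorem Freud2_k_zero (z : V × ℝ) : Freud2_k z 0 = z := by
  simp [Freud2_k, Freud2_d, Freud2_n]

theorem Freud2_k_one {z w : V × ℝ} (e : Freud2_k z 1 = w) : w.2 = 0 := by
  obtain ⟨h1, -, h2⟩ := Freud2_k_eq e
  have h3 : |z.2| < 1 := by
    by_contra h
    simp [Freud2_d, min_eq_right (not_lt.1 h)] at h1
  have h4 : Freud2_n z.2 (1 : I) = 0 := by
    simp [Freud2_n, h3.le]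
  rw [h4, mul_zero] at h2
  exact (mul_eq_zero.1 h2.symm).resolve_left h1.ne'

theorem Freud2_k_norm {z w : V × ℝ} {τ : I} (e : Freud2_k z τ = w) : ‖z‖ ≤ max ‖w‖ 1 := by
  obtain ⟨h1, h2, h3⟩ := Freud2_k_eq e
  refine max_le ?_ ?_
  · refine le_trans ?_ ((norm_fst_le w).trans (le_max_left _ _))
    rw [h2, norm_smul, Real.norm_of_nonneg h1.le]
    exact mul_le_of_le_one_left (norm_nonneg _) (Freud2_d_le _ _)
  · rcases le_total |z.2| 1 with h | h
    · exact le_trans h (le_max_right _ _)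
    · refine le_trans ?_ ((norm_snd_le w).trans (le_max_left _ _))
      have h4 := congrArg abs h3
      rw [abs_mul, abs_mul, abs_of_nonneg (Freud2_n_nonneg _ _), abs_of_pos h1] at h4
      have h5 := Freud2_d_le_n h τ
      change |z.2| ≤ |w.2|
      refine le_of_mul_le_mul_left ?_ h1
      nlinarith

theorem Freud2_k_pole {z w : V × ℝ} {τ : I} (e : Freud2_k z τ = w) (h : w.1 = 0) (h' : |w.2| = 1) :
    z.1 = 0 ∧ |z.2| = 1 := by
  obtain ⟨h1, h2, h3⟩ := Freud2_k_eq e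
  refine ⟨by rw [h2, h, smul_zero], ?_⟩
  have h4 := congrArg abs h3
  rw [abs_mul, abs_mul, abs_of_nonneg (Freud2_n_nonneg _ _), abs_of_pos h1, h'] at h4
  rcases le_total |z.2| 1 with h5 | h5
  · refine le_antisymm h5 (le_of_mul_le_mul_left ?_ h1)
    nlinarith [Freud2_n_le h5 τ, abs_nonneg z.2]
  · refine le_antisymm (le_of_mul_le_mul_left ?_ h1) h5
    nlinarith [Freud2_d_le_n h5 τ]

theorem Freud2_k_cont {q : (V × ℝ) × I} (h : ¬(q.1.1 = 0 ∧ |q.1.2| = 1)) :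
    ContinuousAt (fun q : (V × ℝ) × I => Freud2_k q.1 q.2) q := by
  refine Freud2_quot (u := fun q : (V × ℝ) × I => (q.1.1, q.1.2 * Freud2_n q.1.2 q.2))
    (d := fun q : (V × ℝ) × I => Freud2_d q.1.2 q.2) (by unfold Freud2_n; fun_prop)
    (by unfold Freud2_d; fun_prop) fun h0 e => h ?_
  obtain ⟨h1, h2⟩ := Freud2_d_zero h0
  obtain ⟨e1, e2⟩ := Prod.ext_iff.1 e
  refine ⟨e1, ?_⟩
  rcases mul_eq_zero.1 e2 with e3 | e3
  · rw [e3, abs_zero] at h1
    linarith
  · linarith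

/-- A map that misses both poles deforms into the equator, missing both poles. -/
theorem Freud2_equator [ProperSpace V] (a : BM Z (V × ℝ))
    (ha : ∀ x (z : V × ℝ), a.f x = z → ¬(z.1 = 0 ∧ |z.2| = 1)) :
    ∃ K : BM (Z × I) (V × ℝ), (∀ x, K.f (x, 0) = a.f x) ∧
      (∀ x (w : V × ℝ), K.f (x, 1) = w → w.2 = 0) ∧
      ∀ p (w : V × ℝ), K.f p = w → ¬(w.1 = 0 ∧ |w.2| = 1) := by
  have hb : ∀ K : Set (V × ℝ), IsCompact K → ∃ L : Set (V × ℝ), IsCompact L ∧
      ∀ z τ (w : V × ℝ), Freud2_k z τ = w → w ∈ K → z ∈ L := fun K hK => by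
    obtain ⟨R, hR⟩ := hK.isBounded.exists_norm_le
    exact ⟨Metric.closedBall 0 (max R 1), isCompact_closedBall _ _, fun z τ w e hw =>
      mem_closedBall_zero_iff.2 ((Freud2_k_norm e).trans (max_le_max (hR w hw) le_rfl))⟩
  refine ⟨BM.mk' (fun p => ob (a.f p.1) fun z => Freud2_k z p.2) ?_ fun K hK => ?_,
    fun x => ?_, fun x w e => ?_, fun p w e hw => ?_⟩
  · refine cont_ob (a := fun p : Z × I => a.f p.1) (a.cont.comp continuous_fst)
      (k := fun q : (V × ℝ) × Z × I => Freud2_k q.1 q.2.2)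
      (S := {q | ¬(q.1.1 = 0 ∧ |q.1.2| = 1)}) (fun p z e => ha _ z e) (fun q hq => ?_)
      fun _ K hK => ?_
    · exact (ContinuousAt.comp (f := fun q : (V × ℝ) × Z × I => (q.1, q.2.2))
        (Freud2_k_cont (q := (q.1, q.2.2)) hq) (by fun_prop)).continuousWithinAt
    · obtain ⟨L, hL, h⟩ := hb K hK
      exact ⟨L, hL, .of_forall fun p z w _ e hw => h z _ w e hw⟩
  · obtain ⟨L, hL, h⟩ := hb K hK
    obtain ⟨C, hC, h'⟩ := a.exists_compact hL
    refine ⟨C ×ˢ univ, hC.prod isCompact_univ, fun p w e hw => ⟨?_, trivial⟩⟩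
    obtain ⟨z, e1, e2⟩ := ob_eq_coe.1 e
    exact h' _ z e1 (h z _ w e2 hw)
  · change ob (a.f x) (fun z => Freud2_k z 0) = a.f x
    simp only [Freud2_k_zero]
    exact (ob_some _ _).trans (omap_id _)
  · obtain ⟨z, -, e2⟩ := ob_eq_coe.1 e
    exact Freud2_k_one e2
  · obtain ⟨z, e1, e2⟩ := ob_eq_coe.1 e
    exact ha _ z e1 (Freud2_k_pole e2 hw.1 hw.2)

theorem Freud2_desusp [ProperSpace V] (f : BM (Z × ℝ) (V × ℝ))
    (h₁ : ∀ x s, s ≤ 0 → f.f (x, s) ≠ (((0 : V), (1 : ℝ)) : V × ℝ))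
    (h₂ : ∀ x s, 0 ≤ s → f.f (x, s) ≠ (((0 : V), (-1 : ℝ)) : V × ℝ)) :
    ∃ g : BM Z V, Ht0 f (g.prodId ℝ) := by
  have p0 : IsProperMap fun x : Z => (x, (0 : ℝ)) := by
    refine IsClosedEmbedding.isProperMap ⟨isEmbedding_prodMkLeft _, ?_⟩
    convert (isClosed_singleton (x := (0 : ℝ))).preimage (continuous_snd (X := Z)) using 1
    ext ⟨x, s⟩
    simp [eq_comm]
  obtain ⟨K, k0, k1, k2⟩ := Freud2_equator (f.pre _ p0) fun x z e hz => by
    rcases abs_eq zero_le_one |>.1 hz.2 with h | h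
    · exact h₁ x 0 le_rfl (e.trans (congrArg _ (Prod.ext hz.1 h)))
    · exact h₂ x 0 le_rfl (e.trans (congrArg _ (Prod.ext hz.1 h)))
  have hi : IsClosedEmbedding fun y : V => (y, (0 : ℝ)) :=
    closedEmb_of_leftInverse (r := Prod.fst) (by fun_prop) continuous_fst fun _ => rfl
  let g : BM Z V := (K.pre _ (proper_at 1)).lift _ hi fun x w e =>
    ⟨w.1, Prod.ext rfl (k1 x w e).symm⟩
  have k3 : ∀ x, K.f (x, 1) = (g.prodId ℝ).f (x, 0) := fun x =>
    (BM.lift_map (K.pre _ (proper_at 1)) _ hi _ x).symm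
  have k4 : ∀ x s (w : V × ℝ), (g.prodId ℝ).f (x, s) = w → w.2 = s := fun x s w e => by
    obtain ⟨y, -, rfl⟩ := omap_eq_coe.1 e
    rfl
  obtain ⟨H, c, t, a0, a1, a2⟩ := Freud2_half ((0 : V), (1 : ℝ)) f (g.prodId ℝ) K
    (r := fun s => min s 0) (by fun_prop) (min_self 0) (fun x s => h₁ x _ (min_le_right _ _))
    (fun x s e => by
      have := k4 x _ _ e
      linarith [min_le_right s 0]) (fun p e => k2 p _ e ⟨rfl, abs_one⟩) k0 k3
  obtain ⟨H', c', t', b0, b1, b2⟩ := Freud2_half ((0 : V), (-1 : ℝ)) f (g.prodId ℝ) K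
    (r := fun s => max s 0) (by fun_prop) (max_self 0) (fun x s => h₂ x _ (le_max_right _ _))
    (fun x s e => by
      have := k4 x _ _ e
      linarith [le_max_right s 0]) (fun p e => k2 p _ e ⟨rfl, by simp⟩) k0 k3
  refine ⟨g, ⟨fun p => if p.1.2 ≤ 0 then H p else H' p,
    Continuous.if_le c c' (by fun_prop) continuous_const ?_, Tendsto.if ?_ ?_⟩,
    Good.empty_univ _, ?_, ?_⟩
  · rintro ⟨⟨x, s⟩, τ⟩ (rfl : s = 0)
    rw [a2, b2]
  · exact t.mono_left (inf_le_inf_left _ (principal_mono.2 fun p hp => min_eq_left hp))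
  · exact t'.mono_left (inf_le_inf_left _ (principal_mono.2 fun p hp =>
      max_eq_left (not_le.1 hp).le))
  · rintro ⟨x, s⟩
    change (if s ≤ 0 then _ else _) = _
    split_ifs with h
    · rw [a0, min_eq_left h]
    · rw [b0, max_eq_left (not_le.1 h).le]
  · rintro ⟨x, s⟩
    change (if s ≤ 0 then _ else _) = _
    split_ifs with h
    · rw [a1, min_eq_left h]
    · rw [b1, max_eq_left (not_le.1 h).le]

end deform

theorem freud_desusp {X B : Type} [TopologicalSpace X] [LC X] [NormedAddCommGroup B]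
    [InnerProductSpace ℝ B] [FiniteDimensional ℝ B] (f : BM (X × ℝ) (B × ℝ))
    (h₁ : ∀ x s, s ≤ 0 → f.f (x, s) ≠ (((0 : B), (1 : ℝ)) : B × ℝ))
    (h₂ : ∀ x s, 0 ≤ s → f.f (x, s) ≠ (((0 : B), (-1 : ℝ)) : B × ℝ)) :
    ∃ g : BM X B, Ht0 f (g.prodId ℝ) := by
  have := FiniteDimensional.proper_real B
  exact Freud2_desusp f h₁ h₂

variable {A B : Type} [NormedAddCommGroup A] [NormedSpace ℝ A] [FiniteDimensional ℝ A]
  [NormedAddCommGroup B] [NormedSpace ℝ B] [FiniteDimensional ℝ B]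

theorem freud (h : finrank ℝ A < 2 * finrank ℝ B) (f : BM (A × ℝ) (B × ℝ)) :
    ∃ g : BM A B, Ht0 f (g.prodId ℝ) := by
  have := FiniteDimensional.proper_real B
  obtain ⟨f', hf, h₁, h₂⟩ := freud_sep h f
  obtain ⟨g, hg⟩ := Freud2_desusp f' h₁ h₂
  exact ⟨g, hf.trans hg⟩

/-- The same for spaces homeomorphic to vector spaces, for a complex line. -/
theorem freud' {X Y : Type} [TopologicalSpace X] [TopologicalSpace Y] [LC X] [LC Y]
    (c : X ≃ₜ A) (c' : Y ≃ₜ B) (h : finrank ℝ A < 2 * finrank ℝ B) (f : BM (X × ℂ) (Y × ℂ)) :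
    ∃ g : BM X Y, Ht0 f (g.prodId ℂ) := by
  let e : X × ℂ ≃ₜ (A × ℝ) × ℝ :=
    (c.prodCongr Complex.equivRealProdCLM.toHomeomorph).trans (Homeomorph.prodAssoc _ _ _).symm
  let e' : Y × ℂ ≃ₜ (B × ℝ) × ℝ :=
    (c'.prodCongr Complex.equivRealProdCLM.toHomeomorph).trans (Homeomorph.prodAssoc _ _ _).symm
  obtain ⟨g₁, h₁⟩ := freud (A := A × ℝ) (B := B × ℝ)
    (by simp only [finrank_prod, finrank_self]; omega)
    ((f.pre _ e.symm.isProperMap).map _ e'.isProperMap)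
  obtain ⟨g₂, h₂⟩ := freud h g₁
  have h₃ : Ht0 (g₁.prodId ℝ) ((g₂.prodId ℝ).prodId ℝ) :=
    (h₂.prodId Act.triv).of_empty.monoD (subset_univ _)
  have h₄ := ((h₁.trans h₃).pre (α' := Act.triv) ⟨e.isProperMap, fun _ h => h.elim⟩).map
    (β' := Act.triv) (D' := univ) ⟨e'.symm.isProperMap, fun _ h => h.elim⟩ fun _ _ => trivial
  refine ⟨(g₂.pre _ c.isProperMap).map _ c'.symm.isProperMap, ?_⟩
  convert h₄ using 1
  · ext p
    simp only [BM.map_f, BM.pre_f, omap_map, Homeomorph.symm_apply_apply, omap_id]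
  · ext p
    simp only [BM.map_f, BM.pre_f, BM.prodId_f, omap_map]
    rfl

end RB
end

-- merged part: Pool.Agent.Work.MP_666b5d_gt.Stems
section
/-!
# Stable homotopy groups of the cell complexes `XS` are finitely generated

Proof hints.  `stems_fg`: choose `m₀ ≥ 1` with `a + 1 + 2 m < 2 (2 m + b)` for all `m ≥ m₀`.  By
`freud'` every representative at level `m + 1` is homotopic to the transition of one at level `m`
(rearrange with `Fin (m + 1) → ℂ ≃ₜ (Fin m → ℂ) × ℂ`), so `clHom m₀` is onto; its source is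
finitely generated by `hc_fg`.  `cellCl_fgs`: `fg_of_exact` with `postP`, `postC`, `tgt_exact`.
-/

open Set Filter Topology Module
open scoped unitInterval

namespace RB

open Act

/-- Splitting off the last coordinate. -/
noncomputable def Stems_split (m : ℕ) : (Fin (m + 1) → ℂ) ≃ₜ (Fin m → ℂ) × ℂ where
  toFun b := (b ∘ Fin.castLE (Nat.le_succ m), b (Fin.last m))
  invFun p i := if hi : i.1 < m then p.1 ⟨i.1, hi⟩ else p.2
  left_inv b := by
    funext i
    dsimp only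
    split_ifs with hi
    · rfl
    · exact congrArg b (Fin.ext (by have := i.2; simp only [Fin.val_last]; omega))
  right_inv p := by
    refine Prod.ext (funext fun i => ?_) ?_
    · exact dif_pos i.2
    · exact dif_neg (lt_irrefl m)
  continuous_toFun := by fun_prop
  continuous_invFun := by
    refine continuous_pi fun i => ?_
    by_cases hi : i.1 < m
    · simp only [dif_pos hi]
      fun_prop
    · simp only [dif_neg hi]
      fun_prop

theorem Stems_split_symm (m : ℕ) (t : Fin m → ℂ) (b : Fin (m + 1) → ℂ) :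
    (Stems_split m).symm (t, b (Fin.last m)) = (incTr (Nat.le_succ m)).Ψ (t, b) := by
  funext i
  change (if hi : i.1 < m then t ⟨i.1, hi⟩ else b (Fin.last m)) =
    if hi : i.1 < m then t ⟨i.1, hi⟩ else b i
  split_ifs with hi
  · rfl
  · exact congrArg b (Fin.ext (by have := i.2; simp only [Fin.val_last]; omega))

/-- The source at level `m + 1`. -/
noncomputable def Stems_src (X : Type) [TopologicalSpace X] (m : ℕ) :
    X × (Fin (m + 1) → ℂ) ≃ₜ (X × (Fin m → ℂ)) × ℂ :=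
  ((Homeomorph.refl X).prodCongr (Stems_split m)).trans (Homeomorph.prodAssoc _ _ _).symm

/-- The target at level `m + 1`. -/
noncomputable def Stems_tgt (Y : Type) [TopologicalSpace Y] (m : ℕ) :
    ((Fin m → ℂ) × Y) × ℂ ≃ₜ (Fin (m + 1) → ℂ) × Y :=
  (Sys_swap _ _ _).trans ((Stems_split m).symm.prodCongr (Homeomorph.refl Y))

/-- Desuspension of a representative in the stable range. -/
theorem Stems_step {A B : Type} [NormedAddCommGroup A] [NormedSpace ℝ A] [FiniteDimensional ℝ A]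
    [NormedAddCommGroup B] [NormedSpace ℝ B] [FiniteDimensional ℝ B] {m : ℕ}
    (hm : finrank ℝ A + 1 ≤ m) (f : BM ((A × J) × (Fin (m + 1) → ℂ)) ((Fin (m + 1) → ℂ) × B)) :
    ∃ g : BM ((A × J) × (Fin m → ℂ)) ((Fin m → ℂ) × B),
      Ht0 f ((incTr (Nat.le_succ m)).tr g) := by
  have hd : finrank ℝ ((A × ℝ) × (Fin m → ℂ)) < 2 * finrank ℝ ((Fin m → ℂ) × B) := by
    simp only [finrank_prod, finrank_self, Module.finrank_pi_fintype, Complex.finrank_real_complex,
      Finset.sum_const, Finset.card_univ, Fintype.card_fin, smul_eq_mul]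
    omega
  obtain ⟨g, hg⟩ := freud' (((Homeomorph.refl A).prodCongr eJ).prodCongr (Homeomorph.refl _))
    (Homeomorph.refl _) hd
    ((f.pre _ (Stems_src (A × J) m).symm.isProperMap).map _ (Stems_tgt B m).symm.isProperMap)
  have h1 := (hg.pre (α' := triv) (PMap.homeo (Stems_src (A × J) m) fun _ h => h.elim)).map
    (β' := triv) (D' := univ) (PMap.homeo (Stems_tgt B m) fun _ h => h.elim) fun _ _ => trivial
  refine ⟨g, ((Ht.of_eq (Good.empty_univ _) fun x => ?_).trans h1).trans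
    (Ht.of_eq (Good.empty_univ _) fun x => ?_)⟩
  · simp only [BM.map_f, BM.pre_f, omap_map, Homeomorph.symm_apply_apply,
      Homeomorph.apply_symm_apply, omap_id]
  · simp only [BM.map_f, BM.pre_f, BM.prodId_f, Tr.ap_f, omap_map]
    exact omap_congr _ fun y _ => Prod.ext (Stems_split_symm m y.1 x.2) rfl

theorem stems_fg (A B : Type) [NormedAddCommGroup A] [NormedSpace ℝ A] [FiniteDimensional ℝ A]
    [NormedAddCommGroup B] [NormedSpace ℝ B] [FiniteDimensional ℝ B] : AddGroup.FG (PiJ A B) := by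
  have hD : ∀ m : ℕ, sph.D m (fun _ : B => (0 : ℤ)) = univ := fun m =>
    eq_univ_of_forall fun _ => Int.cast_zero.symm
  have key : ∀ m, finrank ℝ A + 1 ≤ m → ∀ f hf,
      (cl m f hf : PiJ A B) ∈ (clHom (sy := sph) (finrank ℝ A + 1)).range := by
    intro m hm
    induction m, hm using Nat.le_induction with
    | base => exact fun f hf => ⟨HC.mk f hf, rfl⟩
    | succ m hm ih =>
      intro f hf
      obtain ⟨g, hg⟩ := Stems_step hm f
      have hg' : sph.Gd ∅ ((triv : Act ℤˣ A).prod (triv : Act ℤˣ J)) (triv : Act ℤˣ B)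
          (fun _ => 0) m g := (Good.empty_univ g).monoD (hD m).ge
      have hμ : incTr (Nat.le_succ m) ∈ sph.Mor m (m + 1) := ⟨_, rfl⟩
      have h1 : sph.Hm ∅ ((triv : Act ℤˣ A).prod (triv : Act ℤˣ J)) (triv : Act ℤˣ B)
          (fun _ => 0) (m + 1) f ((incTr (Nat.le_succ m)).tr g) :=
        hg.of_empty.monoD (hD (m + 1)).ge
      rw [(cl_htpy h1).trans (cl_tr hμ hg')]
      exact ih g hg'
  have h2 : 2 ≤ finrank ℝ ((Fin (finrank ℝ A + 1) → ℂ) × B) := by
    simp only [finrank_prod, Module.finrank_pi_fintype, Complex.finrank_real_complex,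
      Finset.sum_const, Finset.card_univ, Fintype.card_fin, smul_eq_mul]
    omega
  have := hc_fg h2 (triv : Act ℤˣ A) (sph.bα (finrank ℝ A + 1))
    ((sph.tα (finrank ℝ A + 1)).prod (triv : Act ℤˣ B)) (hD (finrank ℝ A + 1))
  refine AddGroup.fg_of_surjective (f := clHom (sy := sph) (finrank ℝ A + 1)) fun x => ?_
  obtain ⟨L, f, hf, rfl⟩ := cl_surj x
  have hμ : incTr (le_max_left L (finrank ℝ A + 1)) ∈ sph.Mor L (max L (finrank ℝ A + 1)) :=
    ⟨_, rfl⟩
  rw [← cl_tr hμ hf]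
  exact key _ (le_max_right _ _) _ _

/-- The stable homotopy groups are finitely generated. -/
def FGs (Y : Type) [TopologicalSpace Y] [LC Y] : Prop :=
  ∀ (A B : Type) [NormedAddCommGroup A] [NormedSpace ℝ A] [FiniteDimensional ℝ A]
    [NormedAddCommGroup B] [NormedSpace ℝ B] [FiniteDimensional ℝ B], AddGroup.FG (PiJ A (Y × B))

theorem Stems_homeo {A Y Y' : Type} [TopologicalSpace A] [TopologicalSpace Y] [TopologicalSpace Y']
    [LC A] [LC Y] [LC Y'] (c : Y ≃ₜ Y') (h : AddGroup.FG (PiJ A Y)) : AddGroup.FG (PiJ A Y') := by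
  have hc : PMap (∅ : Set ℤˣ) (triv : Act ℤˣ Y) (triv : Act ℤˣ Y') c :=
    PMap.homeo c fun _ h => h.elim
  have hc' : PMap (∅ : Set ℤˣ) (triv : Act ℤˣ Y') (triv : Act ℤˣ Y) c.symm :=
    PMap.homeo c.symm fun _ h => h.elim
  let φ : PiJ A Y →+ PiJ A Y' :=
    AddMonoidHom.mk' (postP hc fun _ => rfl) fun x y => postP_add hc _ x y
  refine AddGroup.fg_of_surjective (f := φ) fun x => ⟨postP hc' (fun _ => rfl) x, ?_⟩
  have h1 := postP_postP (d' := fun _ => 0) (d'' := fun _ => 0) hc' (fun _ => rfl) hc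
    (fun _ => rfl) PMap.id (fun _ => rfl) (fun y => (c.apply_symm_apply y).symm) x
  exact h1.trans (postP_id PMap.id (fun _ => rfl) (fun _ => rfl) x)

theorem cellCl_fgs : CellCl ℂ fun Y _ _ _ _ => FGs Y := by
  refine ⟨fun Y _ _ _ _ _ A B _ _ _ _ _ _ => ?_, fun Y Y' _ _ _ _ _ _ _ e _ h A B _ _ _ _ _ _ => ?_,
    fun _ _ _ _ _ _ _ h => h,
    fun Z Y U _ _ _ _ _ _ βZ β βU i j _ h hZ hU A B _ _ _ _ _ _ => ?_,
    fun Y ν _ _ _ _ _ h A B _ _ _ _ _ _ => ?_, fun A B _ _ _ _ _ _ => ?_⟩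
  · have : Subsingleton (PiJ A (Y × B)) := ⟨fun x y => (van_empty x).trans (van_empty y).symm⟩
    infer_instance
  · exact Stems_homeo (e.prodCongr (Homeomorph.refl B)) (h A B)
  · have h' := (h.prodR (triv : Act ℤˣ B)).of_empty (triv : Act ℤˣ (Z × B)) (triv : Act ℤˣ (Y × B))
      (triv : Act ℤˣ (U × B))
    refine fg_of_exact (hZ A B) (hU A B)
      (AddMonoidHom.mk' (postP h'.pmap fun _ => rfl) fun x y => postP_add h'.pmap _ x y)
      (AddMonoidHom.mk' (postC h'.hj fun _ => rfl) fun x y => postC_add h'.hj _ x y) fun x hx => ?_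
    obtain ⟨z, hz⟩ := tgt_exact h' (IsLocallyConstant.const _) (dZ := fun _ => 0) (fun _ => rfl)
      (fun _ => rfl) x hx
    exact ⟨z, hz.symm⟩
  · exact Stems_homeo (Homeomorph.prodAssoc Y (ν → ℂ) B).symm (h A ((ν → ℂ) × B))
  · exact Stems_homeo (Homeomorph.uniqueProd Unit B).symm (stems_fg A B)

end RB
end

-- merged part: Pool.Agent.Work.MP_666b5d_gt.MuFG
section
/-!
# The complex bordism groups are finitely generated, and vanish in low dimensions

Proof hints.  Let `a = finrank A`.  `rr_zero`: `CellCl.xs` with `cellCl_conn ℂ` gives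
`Conn (XS ℂ κ Unit Empty N) (2 N)`; use `Conn.piJ`.
`rr_range`: by `xs_ndr`, `TNDR.prodR`, `TNDR.of_empty`, `tgt_exact`; the open part has
`Conn … (4 N)`; the closed part `(XS κ (N - 1) × (Unit → ℂ)) × (ν → ℂ)` is rewritten as
`XS κ (N - 1) × (Unit ⊕ ν → ℂ)`; `Th_postP`.  `rr_ker`: the same with `xs_ndr'`, the open part has
`Conn … (2 (card κ + 1))`.
`rr_fg`: with `a₀ = (N - n).toNat`, `b₀ = (n - N).toNat` write `ι ≃ Fin a₀ ⊕ ρ`, `ν ≃ Fin b₀ ⊕ ρ`;
by `Th_reidx`, `Th_postP`, `Th_reg` the set lies in the range of one homomorphism from a finitely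
generated group (`cellCl_fgs`).
`mu_fg`: show by induction on `κ` that every `RR κ N` lies in the supremum of the finitely many
subgroups for `κ = Fin l`, `l ≤ l₀`, `0 ≤ N ≤ N₀` (for `N < 0` or `N > card κ` the space is empty).
-/

open Set Filter Topology Module
open scoped unitInterval

namespace RB

open Act

variable {M : Type} [AddCommGroup M] {A : Type} [NormedAddCommGroup A] [NormedSpace ℝ A]
  [FiniteDimensional ℝ A] {𝒢 : Set (Gam M)} {α : Act (Gam M) A} {n N : ℤ}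
  {κ κ' : Type} [Fintype κ] [DecidableEq κ] [Fintype κ'] [DecidableEq κ']

theorem MuFG_rank (ι : Type) [Fintype ι] : finrank ℝ (ι → ℂ) = 2 * Fintype.card ι := by
  rw [finrank_pi_fintype]
  simp [Complex.finrank_real_complex, mul_comm]

theorem MuFG_van {Y : Type} [TopologicalSpace Y] [LC Y] {c : ℤ} (hc : Conn Y (finrank ℝ ℂ * c))
    {ι ν : Type} [Fintype ι] [Fintype ν]
    (h : (finrank ℝ A : ℤ) + 2 * Fintype.card ι + 1 < 2 * c + 2 * Fintype.card ν)
    (ξ : PiJ (A × (ι → ℂ)) (Y × (ν → ℂ))) : ξ = 0 := by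
  refine hc.piJ ?_ ξ
  rw [finrank_prod, MuFG_rank, MuFG_rank, Complex.finrank_real_complex]
  push_cast
  omega

omit [DecidableEq κ] in
theorem MuFG_xs {ν : Type} [Fintype ν] [DecidableEq ν] (p : XS ℂ κ Unit Empty N × (ν → ℂ)) :
    (xsEa p).1 = (Matrix.fromBlocks p.1.1.1 0 0 1, Sum.elim (fun j => p.1.1.2.1 j ()) p.2) := rfl

theorem MuFG_elim {X ι ν : Type} [TopologicalSpace X] {f : X → ι → ℂ} {g : X → ν → ℂ}
    (hf : Continuous f) (hg : Continuous g) : Continuous fun x => Sum.elim (f x) (g x) := by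
  refine continuous_pi fun i => ?_
  rcases i with i | i
  · exact (continuous_apply i).comp hf
  · exact (continuous_apply i).comp hg

omit [DecidableEq κ] in
theorem MuFG_ext0 (q : Ea κ) : Ea.ext0 (Function.Embedding.refl κ) q = q :=
  Ea.ext0_eq _ (fun _ _ => rfl) (fun j hj => (hj ⟨j, rfl⟩).elim) fun _ => rfl

/-- Comparison of two push-forwards of the same class. -/
theorem MuFG_two (ht : TrivG 𝒢 α) {ι Z Z' W : Type} [Fintype ι] [DecidableEq ι]
    [TopologicalSpace Z] [TopologicalSpace Z'] [TopologicalSpace W] [LC Z] [LC Z'] [LC W]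
    {θ : Z → Ea κ} (hθ : IsProperMap θ)
    (hd : ∀ z, (θ z).1.1.trace = ((n + Fintype.card ι : ℤ) : ℂ))
    {θ' : Z' → Ea κ'} (hθ' : IsProperMap θ')
    (hd' : ∀ z, (θ' z).1.1.trace = ((n + Fintype.card ι : ℤ) : ℂ))
    {p : W → Z} (hp : PMap (∅ : Set ℤˣ) triv triv p)
    {p' : W → Z'} (hp' : PMap (∅ : Set ℤˣ) triv triv p') (b : κ' ↪ κ)
    (he : ∀ z, θ (p z) = Ea.ext0 b (θ' (p' z))) (ξ : PiJ (A × (ι → ℂ)) W) :
    Th ht ι θ hθ hd (postP hp (fun _ => rfl) ξ) =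
      Th ht ι θ' hθ' hd' (postP hp' (fun _ => rfl) ξ) :=
  (Th_postP ht hθ hd hp (θ' := θ' ∘ p') (hθ'.comp hp'.proper) (fun _ => hd' _) b he ξ).trans
    (Th_postP ht hθ' hd' hp' (θ' := θ' ∘ p') (hθ'.comp hp'.proper) (fun _ => hd' _)
      (Function.Embedding.refl _) (fun _ => (MuFG_ext0 _).symm) ξ).symm

theorem MuFG_pmap {Z W : Type} [TopologicalSpace Z] [TopologicalSpace W] [T2Space Z] {p : W → Z}
    (r : Z → W) (hp : Continuous p) (hr : Continuous r) (h : ∀ w, r (p w) = w) :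
    PMap (∅ : Set ℤˣ) triv triv p :=
  ⟨proper_of_leftInverse hp hr h, fun _ hg => hg.elim⟩

/-- If the open part has no homotopy, classes come from the closed part. -/
theorem MuFG_exact {X Z Y U ν : Type} [TopologicalSpace X] [TopologicalSpace Z]
    [TopologicalSpace Y] [TopologicalSpace U] [LC X] [LC Z] [LC Y] [LC U] [Fintype ν]
    {βZ : Act ℤˣ Z} {β : Act ℤˣ Y} {βU : Act ℤˣ U} {i : Z → Y} {j : U → Y}
    (h : TNDR univ βZ β βU i j) (hv : ∀ ξ : PiJ X (U × (ν → ℂ)), ξ = 0)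
    (ξ : PiJ X (Y × (ν → ℂ))) :
    ∃ (hp : PMap (∅ : Set ℤˣ) triv triv (Prod.map i (id : (ν → ℂ) → ν → ℂ)))
      (z : PiJ X (Z × (ν → ℂ))), ξ = postP hp (fun _ => rfl) z :=
  have h' := (h.prodR (triv : Act ℤˣ (ν → ℂ))).of_empty (S' := ℤˣ) triv triv triv
  ⟨h'.pmap, tgt_exact h' (IsLocallyConstant.const 0) (fun _ => rfl) (fun _ => rfl) ξ (hv _)⟩

theorem rr_zero (ht : TrivG 𝒢 α) (h : (finrank ℝ A : ℤ) + 1 < 2 * n)
    {x : E0 𝒢 (α.prod (triv : Act (Gam M) J)) n} (hx : x ∈ RR ht n κ N) : x = 0 := by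
  obtain ⟨ι, ν, _, _, _, _, hh, ξ, rfl⟩ := hx
  have hc := (cellCl_conn ℂ).xs κ Unit Empty N
  rw [MuFG_van hc (by simp only [Fintype.card_unit, Fintype.card_empty]; omega) ξ, map_zero]

omit [DecidableEq κ] [DecidableEq κ'] in
theorem MuFG_re (c : κ ≃ κ') (q : XS ℂ κ Unit Empty N) :
    (xsRe c q).1 = (q.1.1.submatrix c.symm c.symm, q.1.2.1.submatrix c.symm id,
      q.1.2.2.submatrix c.symm id) := rfl

theorem rr_equiv (ht : TrivG 𝒢 α) (c : κ ≃ κ') : RR ht n κ N ⊆ RR ht n κ' N := by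
  rintro _ ⟨ι, ν, _, _, _, _, hh, ξ, rfl⟩
  have hp : PMap (∅ : Set ℤˣ) triv triv
      (Prod.map (xsRe c : XS ℂ κ Unit Empty N ≃ₜ XS ℂ κ' Unit Empty N) (id : (ν → ℂ) → ν → ℂ)) :=
    ⟨(xsRe c).isProperMap.prodMap isProperMap_id, fun _ hg => hg.elim⟩
  refine ⟨ι, ν, _, _, _, _, hh, postP hp (fun _ => rfl) ξ, (Th_postP ht xsEa_proper
    (xsEa_trace hh) hp xsEa_proper (xsEa_trace hh) (c.sumCongr (Equiv.refl ν)).toEmbedding
    (fun z => (Ea.ext0_eq _ ?_ ?_ ?_).symm) ξ).symm⟩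
  · rintro (j | j) (k | k) <;> simp [MuFG_xs, MuFG_re]
  · exact fun j hj => (hj ((c.sumCongr (Equiv.refl ν)).surjective j)).elim
  · rintro (j | j) <;> simp [MuFG_xs, MuFG_re]

theorem rr_range (ht : TrivG 𝒢 α) (h : (finrank ℝ A : ℤ) + 1 - 2 * n < 2 * N) :
    RR ht n (Option κ) N ⊆ RR ht n κ (N - 1) := by
  rintro _ ⟨ι, ν, _, _, _, _, hh, ξ, rfl⟩
  have hN : N = N - 1 + 1 := by omega
  obtain ⟨j, hj⟩ := xs_ndr (𝕜 := ℂ) (ι := κ) (α := Unit) (β := Empty) hN
  have hc := (cellCl_conn ℂ).vec _ Empty xa _ ((cellCl_conn ℂ).xs κ (Option Unit) Empty N)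
  obtain ⟨hp, z, rfl⟩ := MuFG_exact hj (MuFG_van hc (by
    simp only [Fintype.card_option, Fintype.card_unit, Fintype.card_empty]
    push_cast
    omega)) ξ
  have hh' : n + Fintype.card ι = N - 1 + Fintype.card (Unit ⊕ ν) := by
    simp only [Fintype.card_sum, Fintype.card_unit]
    push_cast
    omega
  have hp' : PMap (∅ : Set ℤˣ) triv triv
      fun q : (XS ℂ κ Unit Empty (N - 1) × (Unit → ℂ)) × (ν → ℂ) =>
        (q.1.1, Sum.elim q.1.2 q.2) :=
    MuFG_pmap (fun q => ((q.1, q.2 ∘ Sum.inl), q.2 ∘ Sum.inr))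
      (continuous_fst.fst.prodMk (MuFG_elim continuous_fst.snd continuous_snd)) (by fun_prop)
      fun _ => rfl
  let b : κ ⊕ Unit ⊕ ν ≃ Option κ ⊕ ν :=
    (Equiv.sumAssoc κ Unit ν).symm.trans
      ((Equiv.optionEquivSumPUnit κ).symm.sumCongr (Equiv.refl ν))
  refine ⟨ι, Unit ⊕ ν, _, _, _, _, hh', postP hp' (fun _ => rfl) z, MuFG_two ht xsEa_proper
    (xsEa_trace hh) xsEa_proper (xsEa_trace hh') hp hp' b.toEmbedding
    (fun z => (Ea.ext0_eq _ ?_ ?_ ?_).symm) z⟩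
  · rintro (j | j | j) (k | k | k) <;> simp [b, MuFG_xs, xsI, Matrix.one_apply]
  · exact fun j hj => (hj (b.surjective j)).elim
  · rintro (j | j | j) <;> simp [b, MuFG_xs, xsI]

theorem rr_ker (ht : TrivG 𝒢 α)
    (h : (finrank ℝ A : ℤ) + 1 + 2 * (N - n) < 2 * (Fintype.card κ + 1)) :
    RR ht n (Option κ) N ⊆ RR ht n κ N := by
  rintro _ ⟨ι, ν, _, _, _, _, hh, ξ, rfl⟩
  have hN : N = N - 1 + 1 := by omega
  obtain ⟨j, hj⟩ := xs_ndr' (𝕜 := ℂ) (ι := κ) (α := Unit) (β := Empty) hN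
  have hc := (cellCl_conn ℂ).vec _ Unit xa _ ((cellCl_conn ℂ).xs κ Unit (Option Empty) (N - 1))
  obtain ⟨hp, z, rfl⟩ := MuFG_exact hj (MuFG_van hc (by
    simp only [Fintype.card_option, Fintype.card_unit, Fintype.card_empty]
    push_cast
    omega)) ξ
  have hp' : PMap (∅ : Set ℤˣ) triv triv
      fun q : (XS ℂ κ Unit Empty N × (Empty → ℂ)) × (ν → ℂ) => (q.1.1, q.2) :=
    MuFG_pmap (fun q => ((q.1, 0), q.2)) (by fun_prop) (by fun_prop)
      fun _ => Prod.ext (Prod.ext rfl (Subsingleton.elim _ _)) rfl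
  refine ⟨ι, ν, _, _, _, _, hh, postP hp' (fun _ => rfl) z, MuFG_two ht xsEa_proper
    (xsEa_trace hh) xsEa_proper (xsEa_trace hh) hp hp'
    (Function.Embedding.some.sumMap (Function.Embedding.refl ν))
    (fun z => (Ea.ext0_eq _ ?_ ?_ ?_).symm) z⟩
  · rintro (j | j) (k | k) <;> simp [MuFG_xs, xsK]
  · rintro ((_ | j) | j) hj k
    · rcases k with k | k <;> simp [MuFG_xs, xsK]
    · exact (hj ⟨Sum.inl j, rfl⟩).elim
    · exact (hj ⟨Sum.inr j, rfl⟩).elim
  · rintro (j | j) <;> simp [MuFG_xs, xsK]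

theorem rr_fg (ht : TrivG 𝒢 α) (κ : Type) [Fintype κ] [DecidableEq κ] (N : ℤ) :
    ∃ F : AddSubgroup (E0 𝒢 (α.prod (triv : Act (Gam M) J)) n), F.FG ∧ RR ht n κ N ⊆ F := by
  have h0 : n + Fintype.card (Fin (N - n).toNat) = N + Fintype.card (Fin (n - N).toNat) := by
    simp only [Fintype.card_fin]
    omega
  have hfg : AddGroup.FG (PiJ (A × (Fin (N - n).toNat → ℂ))
      (XS ℂ κ Unit Empty N × (Fin (n - N).toNat → ℂ))) := cellCl_fgs.xs κ Unit Empty N _ _
  refine ⟨(Th ht (Fin (N - n).toNat) (xsEa (κ := κ)) xsEa_proper (xsEa_trace h0)).range,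
    (AddGroup.fg_iff_addSubgroup_fg _).1 (AddGroup.fg_range _), ?_⟩
  rintro _ ⟨ι, ν, _, _, _, _, hh, ξ, rfl⟩
  generalize hr : min (Fintype.card ι) (Fintype.card ν) = r
  let c₁ : Fin (N - n).toNat ⊕ Fin r ≃ ι := Fintype.equivOfCardEq (by
    simp only [Fintype.card_sum, Fintype.card_fin]; omega)
  have c₂ : Fin (n - N).toNat ⊕ Fin r ≃ ν := Fintype.equivOfCardEq (by
    simp only [Fintype.card_sum, Fintype.card_fin]; omega)
  have hh₁ : n + Fintype.card (Fin (N - n).toNat ⊕ Fin r) = N + Fintype.card ν := by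
    rw [Fintype.card_congr c₁, hh]
  obtain ⟨ξ₁, h₁⟩ := Th_reidx ht xsEa_proper c₁ (xsEa_trace hh₁) (xsEa_trace hh) ξ
  have hθ' : IsProperMap fun q : (XS ℂ κ Unit Empty N × (Fin (n - N).toNat → ℂ)) × (Fin r → ℂ) =>
      Ea.sum (xsEa q.1) (Ea.full q.2) :=
    Ea.sum_proper.comp (xsEa_proper.prodMap Ea.full_proper)
  have hd' : ∀ q : (XS ℂ κ Unit Empty N × (Fin (n - N).toNat → ℂ)) × (Fin r → ℂ),
      (Ea.sum (xsEa q.1) (Ea.full q.2)).1.1.trace =
        ((n + Fintype.card (Fin (N - n).toNat ⊕ Fin r) : ℤ) : ℂ) := by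
    intro q
    rw [Ea.sum_trace, Ea.full_trace, xsEa_trace h0, Fintype.card_sum]
    push_cast
    ring
  have hp' : PMap (∅ : Set ℤˣ) triv triv fun q : XS ℂ κ Unit Empty N × (ν → ℂ) =>
      ((q.1, q.2 ∘ c₂ ∘ Sum.inl), q.2 ∘ c₂ ∘ Sum.inr) :=
    MuFG_pmap (fun q => (q.1.1, Sum.elim q.1.2 q.2 ∘ c₂.symm)) (by fun_prop)
      (continuous_fst.fst.prodMk (continuous_pi fun i => (continuous_apply (c₂.symm i)).comp
        (MuFG_elim continuous_fst.snd continuous_snd)))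
      fun q => Prod.ext rfl (funext fun i => by
        obtain ⟨i | i, rfl⟩ := c₂.surjective i <;> simp)
  let b : (κ ⊕ Fin (n - N).toNat) ⊕ Fin r ≃ κ ⊕ ν :=
    (Equiv.sumAssoc _ _ _).trans ((Equiv.refl κ).sumCongr c₂)
  have h₂ := MuFG_two ht xsEa_proper (xsEa_trace hh₁) hθ' hd' PMap.id hp' b.toEmbedding
    (fun z => (Ea.ext0_eq _ ?_ ?_ ?_).symm) ξ₁
  · rw [postP_id _ _ fun _ => rfl] at h₂
    obtain ⟨ξ₃, h₃⟩ := Th_reg ht xsEa_proper (xsEa_trace h0) hθ' hd' (fun _ _ => rfl)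
      (postP hp' (fun _ => rfl) ξ₁)
    exact ⟨ξ₃, (h₁.trans (h₂.trans h₃)).symm⟩
  · rintro ((j | j) | j) ((k | k) | k) <;> simp [b, MuFG_xs, Ea.sum, Ea.full, Matrix.one_apply]
  · exact fun j hj => (hj (b.surjective j)).elim
  · rintro ((j | j) | j) <;> simp [b, MuFG_xs, Ea.sum, Ea.full]

theorem mu_fg (ht : TrivG 𝒢 α) (n : ℤ) :
    AddGroup.FG (E0 𝒢 (α.prod (triv : Act (Gam M) J)) n) := by
  choose F hF hR using fun p : ℕ × ℤ => rr_fg (n := n) ht (Fin p.1) p.2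
  obtain ⟨l₀, hl₀⟩ : ∃ l₀ : ℕ, (finrank ℝ A : ℤ) + 1 - 2 * n ≤ l₀ :=
    ⟨((finrank ℝ A : ℤ) + 1 - 2 * n).toNat, Int.self_le_toNat _⟩
  let s : Finset (ℕ × ℤ) := Finset.range (l₀ + 1) ×ˢ Finset.Icc (-(l₀ : ℤ)) l₀
  have hfg := AddSubgroup.FG.finset_sup s F fun p _ => hF p
  have hle : ∀ p ∈ s, F p ≤ s.sup F := fun p hp => Finset.le_sup hp
  generalize s.sup F = F₀ at hfg hle
  have hs : ∀ (l : ℕ) (N : ℤ), l ≤ l₀ → -(l₀ : ℤ) ≤ N → N ≤ l₀ → RR ht n (Fin l) N ⊆ F₀ :=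
    fun l N h1 h2 h3 => (hR (l, N)).trans (hle (l, N) (by
      simp only [s, Finset.mem_product, Finset.mem_range, Finset.mem_Icc]
      omega))
  have key : ∀ (l : ℕ) (N : ℤ), RR ht n (Fin l) N ⊆ F₀ := by
    intro l
    induction l with
    | zero =>
      intro N
      by_cases hN : N = 0
      · exact hs 0 N (by omega) (by omega) (by omega)
      · rintro _ ⟨ι, ν, _, _, _, _, hh, ξ, rfl⟩
        have := xs_isEmpty (𝕜 := ℂ) (ι := Fin 0) (α := Unit) (β := Empty) (n := N) (by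
          simp only [Fintype.card_fin]
          omega)
        rw [van_empty ξ, map_zero]
        exact zero_mem _
    | succ l ih =>
      intro N
      by_cases h1 : (finrank ℝ A : ℤ) + 1 - 2 * n < 2 * N
      · exact (rr_equiv ht (finSuccEquiv l)).trans ((rr_range ht h1).trans (ih _))
      by_cases h2 : (finrank ℝ A : ℤ) + 1 + 2 * (N - n) < 2 * (Fintype.card (Fin l) + 1)
      · exact (rr_equiv ht (finSuccEquiv l)).trans ((rr_ker ht h2).trans (ih _))
      rw [Fintype.card_fin] at h2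
      exact hs _ N (by omega) (by omega) (by omega)
  have htop : F₀ = ⊤ := by
    refine eq_top_iff.2 fun x _ => ?_
    obtain ⟨κ, _, _, N, -, hx⟩ := Th_surj ht x
    exact key _ N (rr_equiv ht (Fintype.equivFin κ) hx)
  exact ⟨htop ▸ hfg⟩

theorem mu_conn {X : Type} [TopologicalSpace X] [LC X] {γ : Act (Gam M) X} (ht : TrivG 𝒢 γ)
    (c : X ≃ₜ A × J) (h : (finrank ℝ A : ℤ) + 1 < 2 * n) (x : E0 𝒢 γ n) : x = 0 := by
  have ht' : TrivG 𝒢 (triv : Act (Gam M) A) := fun g hg => ⟨(ht g hg).1, fun _ => rfl⟩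
  refine van_homeo (α' := (triv : Act (Gam M) A).prod (triv : Act (Gam M) J)) c.symm
    (fun g hg y => ((ht g hg).2 _).symm) (fun y => ?_) x
  obtain ⟨κ, _, _, N, -, hy⟩ := Th_surj ht' y
  exact rr_zero ht' h hy

end RB
end

-- merged part: Pool.Agent.Work.MP_666b5d_gt.MRb
section
/-!
# Real bordism vanishes in the degrees `k ρ - 1` with `k ≤ 0`

Proof plan.  Let `ℋ = ctx ⊤ true`, `τ = ⟨1, -1⟩`.
`mr_fixed`: the values of `f` are fixed by `τ`, so `f` lifts (`BM.lift`) along the complexification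
`XS ℝ κ Unit Empty N → Ea κ`.  By `cellCl_conn ℝ` and `CellCl.xs` (`Conn … N`) the lift `g` is stably
null: there is `m` and a null-homotopy `H` of `g × id` on `A × ℂ ^ m`.  With `ν = Fin m ⊕ Fin m` put
`z j = re v (inl j) + i re v (inr j)`, and send a value `(t, y)` of `H` to `θ y ⊕ (1, v')`,
`v' (inl j) = re (t j) + i im v (inl j)`, `v' (inr j) = im (t j) + i im v (inr j)`.  This is an
equivariant null-homotopy of the stabilisation of `f` by `ν` (`cl_stab`).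
`mr_signs`: induct on `k`, with `A × (Fin (k + 1) → ℝ) ≃ₜ (A × (Fin k → ℝ)) × ℝ`.  The restriction to
the zero section vanishes by induction, so the class is `push y` (`src_exact`, `sndr_zero`,
`niso_sg`); the positive ray `J → Nz ℝ` is a slice with stabiliser `ctx ⊤ false`, and `y = 0` by
`ind_inj` and `mu_conn`.
`mr_base`: take a representative with zero weights, regroup all source coordinates
(`x = reg y`, `cl_reidx`), and identify `ℝ × ℂ ^ ι` with `(ι → ℝ) × (Fin (card ι + 1) → ℝ)`.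
-/

open Set Filter Topology Module
open scoped unitInterval

namespace RB

open Act

variable {M : Type} [AddCommGroup M] {A : Type} [NormedAddCommGroup A] [NormedSpace ℝ A]
  [FiniteDimensional ℝ A] {κ : Type} [Fintype κ] [DecidableEq κ] {N : ℤ}

omit [DecidableEq κ] in
theorem MRb_isP {R : Matrix κ κ ℝ} : IsP (R.map Complex.ofRealHom) ↔ IsP R := by
  have hi : Function.Injective fun S : Matrix κ κ ℝ => S.map Complex.ofRealHom :=
    Matrix.map_injective Complex.ofReal_injective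
  have e : (R.map Complex.ofRealHom).conjTranspose = R.conjTranspose.map Complex.ofRealHom := by
    ext i j
    simp [Matrix.conjTranspose_apply]
  unfold IsP
  rw [e, ← Matrix.map_mul]
  exact and_congr hi.eq_iff hi.eq_iff

/-- The complexification. -/
noncomputable def MRb_th (q : XS ℝ κ Unit Empty N) : Ea κ :=
  ⟨(q.1.1.map Complex.ofRealHom, fun j => (q.1.2.1 j () : ℂ)), MRb_isP.2 q.2.1, by
    funext j
    have h := congrFun (congrFun q.2.2.2.1 j) ()
    rw [Matrix.mul_apply] at h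
    simp only [Matrix.mulVec, dotProduct, Matrix.map_apply, Complex.ofRealHom_eq_coe]
    exact_mod_cast h⟩

omit [DecidableEq κ] in
theorem MRb_th_proper : IsProperMap (MRb_th : XS ℝ κ Unit Empty N → Ea κ) := by
  have h1 : IsProperMap fun p : Matrix κ Unit ℝ × Matrix κ Empty ℝ => fun j => (p.1 j () : ℂ) := by
    refine proper_of_leftInverse (r := fun v => (Matrix.of fun j _ => (v j).re, 0)) ?_ ?_ ?_
    · exact continuous_pi fun j =>
        Complex.continuous_ofReal.comp (continuous_fst.matrix_elem j ())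
    · exact (continuous_matrix fun j _ =>
        Complex.continuous_re.comp (continuous_apply j)).prodMk continuous_const
    · intro p
      refine Prod.ext ?_ ?_
      · ext j u
        simp
      · ext j u
        exact u.elim
  have h2 := h1.comp (xs_proper (𝕜 := ℝ) (ι := κ) (α := Unit) (β := Empty) (n := N))
  refine proper_to_ea (Continuous.subtype_mk (Continuous.prodMk ?_ h2.continuous) _) h2
  exact continuous_matrix fun i j => Complex.continuous_ofReal.comp (XS_val.fst.matrix_elem i j)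

omit [DecidableEq κ] in
theorem MRb_th_inj : Function.Injective (MRb_th : XS ℝ κ Unit Empty N → Ea κ) := by
  intro q q' h
  have h1 := congrArg (fun r : Ea κ => r.1.1) h
  have h2 := congrArg (fun r : Ea κ => r.1.2) h
  refine Subtype.ext (Prod.ext ?_ (Prod.ext ?_ ?_))
  · ext i j
    exact Complex.ofReal_injective (congrFun (congrFun h1 i) j)
  · ext i j
    exact Complex.ofReal_injective (congrFun h2 i)
  · ext i j
    exact j.elim

omit [DecidableEq κ] in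
theorem MRb_th_trace (q : XS ℝ κ Unit Empty N) : (MRb_th q).1.1.trace = (N : ℂ) := by
  have h := q.2.2.1
  change (q.1.1.map Complex.ofRealHom).trace = _
  simp only [Matrix.trace, Matrix.diag, Matrix.map_apply, Complex.ofRealHom_eq_coe] at h ⊢
  exact_mod_cast h

omit [DecidableEq κ] in
theorem MRb_th_ea (g : Gam M) (q : XS ℝ κ Unit Empty N) :
    ea (0 : κ → M) g (MRb_th q) = MRb_th q := by
  refine Subtype.ext (Prod.ext ?_ ?_)
  · ext i j
    change ch g (0 - 0) * tw g.e ((q.1.1 i j : ℝ) : ℂ) = ((q.1.1 i j : ℝ) : ℂ)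
    rw [sub_zero, ch_zero, one_mul, Gam_tw_real]
  · funext i
    change ch g 0 * tw g.e ((q.1.2.1 i () : ℝ) : ℂ) = ((q.1.2.1 i () : ℝ) : ℂ)
    rw [ch_zero, one_mul, Gam_tw_real]

omit [DecidableEq κ] in
theorem MRb_th_range {g : Gam M} (hg : g.e = -1) {r : Ea κ} (h : ea (0 : κ → M) g r = r)
    (ht : r.1.1.trace = (N : ℂ)) : ∃ q : XS ℝ κ Unit Empty N, MRb_th q = r := by
  have h1 : ∀ i j, (((r.1.1 i j).re : ℝ) : ℂ) = r.1.1 i j := fun i j => by
    have e : ch g (0 - 0) * tw g.e (r.1.1 i j) = r.1.1 i j :=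
      congrFun (congrFun (congrArg (fun s : Ea κ => s.1.1) h) i) j
    rw [sub_zero, ch_zero, one_mul, hg, tw_neg_one] at e
    exact Complex.conj_eq_iff_re.1 e
  have h2 : ∀ i, (((r.1.2 i).re : ℝ) : ℂ) = r.1.2 i := fun i => by
    have e : ch g 0 * tw g.e (r.1.2 i) = r.1.2 i := congrFun (congrArg (fun s : Ea κ => s.1.2) h) i
    rw [ch_zero, one_mul, hg, tw_neg_one] at e
    exact Complex.conj_eq_iff_re.1 e
  have h3 : (r.1.1.map Complex.re).map Complex.ofRealHom = r.1.1 := Matrix.ext h1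
  refine ⟨⟨(r.1.1.map Complex.re, Matrix.of fun j _ => (r.1.2 j).re, 0), MRb_isP.1 ?_, ?_, ?_,
    Matrix.mul_zero _⟩, Subtype.ext (Prod.ext h3 (funext h2))⟩
  · rw [h3]
    exact r.2.1
  · have e := congrArg Complex.re ht
    simpa [Matrix.trace, Matrix.diag] using e
  · ext j u
    refine Complex.ofReal_injective ?_
    have e := congrFun r.2.2 j
    simp only [Matrix.mul_apply, Matrix.map_apply, Matrix.of_apply, Complex.ofReal_sum,
      Complex.ofReal_mul, h1, h2]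
    exact e

/-- Real and imaginary parts of a doubled family of complex coordinates. -/
noncomputable def MRb_c (m : ℕ) :
    (Fin m → ℂ) × (Fin m ⊕ Fin m → ℝ) ≃ₜ (Fin m ⊕ Fin m → ℂ) where
  toFun p k := ⟨Sum.elim (fun j => (p.1 j).re) (fun j => (p.1 j).im) k, p.2 k⟩
  invFun v := (fun j => ⟨(v (Sum.inl j)).re, (v (Sum.inr j)).re⟩, fun k => (v k).im)
  left_inv _ := rfl
  right_inv v := by
    funext k
    rcases k with j | j <;> rfl
  continuous_toFun := by
    refine continuous_pi fun k => Complex.equivRealProdCLM.symm.continuous.comp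
      (Continuous.prodMk ?_ ((continuous_apply k).comp continuous_snd))
    rcases k with j | j
    · exact Complex.continuous_re.comp ((continuous_apply j).comp continuous_fst)
    · exact Complex.continuous_im.comp ((continuous_apply j).comp continuous_fst)
  continuous_invFun := by
    refine Continuous.prodMk (continuous_pi fun j => ?_)
      (continuous_pi fun k => Complex.continuous_im.comp (continuous_apply k))
    exact Complex.equivRealProdCLM.symm.continuous.comp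
      ((Complex.continuous_re.comp (continuous_apply _)).prodMk
        (Complex.continuous_re.comp (continuous_apply _)))

theorem MRb_tw (u : ℤˣ) (a b : ℝ) : tw u (⟨a, b⟩ : ℂ) = ⟨a, sg u b⟩ := by
  rcases Int.units_eq_one_or u with rfl | rfl
  · rw [tw_one]
    simp [sg]
  · rw [tw_neg_one]
    apply Complex.ext <;> simp [sg]

theorem MRb_c_eqv {m : ℕ} (g : Gam M) (t : Fin m → ℂ) (w : Fin m ⊕ Fin m → ℝ) :
    MRb_c m (t, fun k => sg g.e (w k)) = rp (0 : Fin m ⊕ Fin m → M) g (MRb_c m (t, w)) := by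
  funext k
  change _ = ch g 0 * tw g.e (⟨_, w k⟩ : ℂ)
  rw [ch_zero, one_mul, MRb_tw]
  rfl

theorem MRb_c_eqv' {m : ℕ} (g : Gam M) (v : Fin m ⊕ Fin m → ℂ) :
    (MRb_c m).symm (rp (0 : Fin m ⊕ Fin m → M) g v) =
      (((MRb_c m).symm v).1, fun k => sg g.e (((MRb_c m).symm v).2 k)) := by
  rw [Homeomorph.symm_apply_eq, MRb_c_eqv, Homeomorph.apply_symm_apply]

/-- The generator of the group of order two. -/
noncomputable def MRb_tau (M : Type) [AddCommGroup M] : Gam M := ⟨1, -1⟩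

theorem MRb_tau_mem : MRb_tau M ∈ ctx (⊤ : AddSubgroup M) true :=
  mem_ctx.2 ⟨fun _ _ => rfl, fun h => by simp at h⟩

theorem mr_fixed (h : (finrank ℝ A : ℤ) < N) {f : BM (A × (Empty → ℂ)) (Ea κ × Unit)}
    (hf : (MU M).Gd (ctx (⊤ : AddSubgroup M) true : Set (Gam M)) triv triv (fun _ => N)
      (Lv.mk Empty κ 0 0) f) : cl (sy := MU M) (Lv.mk Empty κ 0 0) f hf = 0 := by
  let B := Fin 0 → ℝ
  let i : (Fin 0 → ℂ) × (XS ℝ κ Unit Empty N × B) → Ea κ × Unit := fun p => (MRb_th p.2.1, ())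
  have hu : ∀ {T : Type} [TopologicalSpace T] [T2Space T], IsProperMap fun q : T => (q, ()) :=
    proper_of_leftInverse (r := Prod.fst) (by fun_prop) continuous_fst fun _ => rfl
  have hip : IsProperMap i := hu.comp (MRb_th_proper.comp
    (proper_of_leftInverse (h := fun p : (Fin 0 → ℂ) × (XS ℝ κ Unit Empty N × B) => p.2.1)
      (r := fun y => (0, (y, 0))) (by fun_prop) (by fun_prop) fun p =>
        Prod.ext (Subsingleton.elim _ _) (Prod.ext rfl (Subsingleton.elim _ _))))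
  have hi : IsClosedEmbedding i :=
    .of_continuous_injective_isClosedMap hip.continuous (fun p p' e =>
      Prod.ext (Subsingleton.elim _ _) (Prod.ext (MRb_th_inj (congrArg Prod.fst e))
        (Subsingleton.elim _ _))) hip.isClosedMap
  have hs : IsProperMap fun p : A × (Fin 0 → ℂ) => ((p.1, 0) : A × (Empty → ℂ)) :=
    proper_of_leftInverse (r := fun p => (p.1, 0)) (by fun_prop) (by fun_prop) fun p =>
      Prod.ext rfl (Subsingleton.elim _ _)
  have hr : ∀ x (y : Ea κ × Unit), (f.pre _ hs).f x = y → y ∈ range i := by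
    intro x y e
    have e0 : f.f (x.1, 0) = y := e
    have e1 := hf.eqv _ MRb_tau_mem (x.1, 0)
    have e2 : (triv : Act (Gam M) A).prod (rp (0 : Empty → M)) (MRb_tau M) (x.1, 0) = (x.1, 0) :=
      Prod.ext rfl (Subsingleton.elim _ _)
    have e3 : f.f (x.1, 0) = (f.f (x.1, 0)).map
        ((ea (0 : κ → M)).prod (triv : Act (Gam M) Unit) (MRb_tau M)) :=
      (congrArg f.f e2).symm.trans e1
    rw [e0, OnePoint.map_some, OnePoint.coe_eq_coe] at e3
    have e4 : y.1.1.1.trace - (Fintype.card Empty : ℂ) = (N : ℂ) := hf.mem _ y e0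
    rw [Fintype.card_eq_zero, Nat.cast_zero, sub_zero] at e4
    obtain ⟨q, hq⟩ := MRb_th_range (g := MRb_tau M) rfl (congrArg Prod.fst e3).symm e4
    exact ⟨(0, (q, 0)), Prod.ext hq rfl⟩
  let g := (f.pre _ hs).lift i hi hr
  have hg : sph.Gd ∅ (triv : Act ℤˣ A) triv (fun _ => 0) (0 : ℕ) g :=
    ⟨fun _ h => h.elim, fun _ _ _ => Int.cast_zero.symm⟩
  have hc := (cellCl_conn ℝ).xs κ Unit Empty N A B (by simpa [B] using h) (cl (sy := sph) (0 : ℕ) g hg)
  obtain ⟨m, _, ⟨hm, rfl⟩, H, -, H0, H1⟩ := cl_eq_zero_iff.1 hc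
  have hH : Ht (ctx (⊤ : AddSubgroup M) true : Set (Gam M)) triv triv univ
      ((incTr hm).tr g) BM.zero :=
    ⟨H, ⟨fun _ _ x => (omap_id _).symm, fun _ _ _ => trivial⟩, H0, H1⟩
  let γ : Act (Gam M) (Fin m ⊕ Fin m → ℝ) := fun u w k => sg u.e (w k)
  let c := MRb_c m
  have hp : PMap (ctx (⊤ : AddSubgroup M) true : Set (Gam M))
      ((triv : Act (Gam M) A).prod
        (rp (Sum.elim (0 : Empty → M) (0 : Fin m ⊕ Fin m → M)))) (triv.prod γ)
      fun p : A × (Empty ⊕ Fin m ⊕ Fin m → ℂ) =>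
        ((p.1, (c.symm (p.2 ∘ Sum.inr)).1), (c.symm (p.2 ∘ Sum.inr)).2) := by
    refine ⟨proper_of_leftInverse (r := fun q => (q.1.1, Sum.elim 0 (c (q.1.2, q.2)))) ?_ ?_
      fun p => Prod.ext rfl ?_, fun u _ p => ?_⟩
    · have h1 : Continuous fun p : A × (Empty ⊕ Fin m ⊕ Fin m → ℂ) => c.symm (p.2 ∘ Sum.inr) :=
        c.symm.continuous.comp (continuous_pi fun k => (continuous_apply _).comp continuous_snd)
      exact (continuous_fst.prodMk h1.fst).prodMk h1.snd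
    · refine continuous_fst.fst.prodMk (continuous_pi fun k => ?_)
      rcases k with k | k
      · exact k.elim
      · exact (continuous_apply k).comp
          (c.continuous.comp (continuous_fst.snd.prodMk continuous_snd))
    · funext k
      rcases k with k | k
      · exact k.elim
      · exact congrFun (c.apply_symm_apply (p.2 ∘ Sum.inr)) k
    · have e := MRb_c_eqv' u (p.2 ∘ Sum.inr)
      have e1 := congrArg Prod.fst e
      have e2 := congrArg Prod.snd e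
      exact Prod.ext (Prod.ext rfl e1) e2
  have hq : PMap (ctx (⊤ : AddSubgroup M) true : Set (Gam M)) (triv.prod γ)
      ((ea (Sum.elim (0 : κ → M) (0 : Fin m ⊕ Fin m → M))).prod (triv : Act (Gam M) Unit))
      fun p : ((Fin m → ℂ) × (XS ℝ κ Unit Empty N × B)) × (Fin m ⊕ Fin m → ℝ) =>
        (Ea.sum (MRb_th p.1.2.1) (Ea.full (c (p.1.1, p.2))), ()) := by
    refine ⟨?_, fun u _ p => Prod.ext ?_ rfl⟩
    · have h1 : IsProperMap
          fun p : ((Fin m → ℂ) × (XS ℝ κ Unit Empty N × B)) × (Fin m ⊕ Fin m → ℝ) =>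
            (p.1.2.1, c (p.1.1, p.2)) :=
        proper_of_leftInverse (r := fun q => (((c.symm q.2).1, (q.1, 0)), (c.symm q.2).2))
          (by fun_prop) (by fun_prop) fun p => by
            simp only [Homeomorph.symm_apply_apply]
            exact Prod.ext (Prod.ext rfl (Prod.ext rfl (Subsingleton.elim _ _))) rfl
      exact hu.comp (Ea.sum_proper.comp ((MRb_th_proper.prodMap Ea.full_proper).comp h1))
    · change Ea.sum (MRb_th p.1.2.1) (Ea.full (c (p.1.1, fun k => sg u.e (p.2 k)))) = ea _ u _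
      rw [← Ea.sum_ea, ← Ea.full_ea, MRb_th_ea, MRb_c_eqv]
  have hK := ((hH.prodId γ).pre hp).map hq
    (D' := (MU M).D ((Lv.mk Empty κ 0 0).stab (0 : Fin m ⊕ Fin m → M)) fun _ : Unit => N)
    fun p _ => by
      change (Ea.sum (MRb_th p.1.2.1) (Ea.full (c (p.1.1, p.2)))).1.1.trace -
        (Fintype.card (Empty ⊕ Fin m ⊕ Fin m) : ℂ) = N
      rw [Ea.sum_trace, Ea.full_trace, MRb_th_trace, Fintype.card_sum (α := Empty),
        Fintype.card_eq_zero (α := Empty), zero_add, add_sub_cancel_right]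
  rw [← cl_stab (Lv.mk Empty κ 0 0) (0 : Fin m ⊕ Fin m → M) hf hK.left fun a v => ?_]
  · exact cl_eq_zero_of_ht (sy := MU M) (L := (Lv.mk Empty κ 0 0).stab (0 : Fin m ⊕ Fin m → M)) hK
  · have e1 : f.f (a, v ∘ Sum.inl) =
        (g.f (a, (c.symm (v ∘ Sum.inr)).1 ∘ Fin.castLE hm)).map i :=
      (congrArg (fun w => f.f (a, w)) (Subsingleton.elim _ _)).trans
        (BM.lift_map (f.pre _ hs) i hi hr (a, (c.symm (v ∘ Sum.inr)).1 ∘ Fin.castLE hm)).symm
    rw [e1]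
    simp only [BM.map_f, BM.pre_f, BM.prodId_f, Tr.ap_f, omap_map]
    refine omap_congr _ fun y _ => Prod.ext ?_ rfl
    exact congrArg (fun w => Ea.sum (MRb_th y.2.1) (Ea.full w))
      (c.apply_symm_apply (v ∘ Sum.inr))

/-- Sums of sign representations. -/
def sgs (k : ℕ) : Act ℤˣ (Fin k → ℝ) := fun u v i => sg u (v i)

theorem MRb_ga (k : ℕ) : GA univ (sgs k) := by
  refine ⟨fun v => funext fun i => ga_sg.one _,
    fun g hg h hh v => funext fun i => ga_sg.mul g hg h hh _, ?_⟩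
  have h1 := ga_sg.cont
  rw [univ_prod_univ, continuousOn_univ] at h1 ⊢
  exact continuous_pi fun i =>
    h1.comp (continuous_fst.prodMk ((continuous_apply i).comp continuous_snd))

/-- The positive ray. -/
noncomputable def MRb_ray (s : J) : Nz ℝ := ⟨Real.exp (eJ s), (Real.exp_pos _).ne'⟩

theorem MRb_slice : Slice (ctx (⊤ : AddSubgroup M) true : Set (Gam M))
    (ctx (⊤ : AddSubgroup M) false : Set (Gam M)) (triv : Act (Gam M) J) (sa sg).nz MRb_ray := by
  have hv : ∀ (g : Gam M) (u : Nz ℝ), ((sa sg).nz g u).1 = sg g.e u.1 := fun g u =>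
    (niso_sg univ).nz_val trivial u
  refine ⟨ctx_false_sub _ _, closedEmb_of_leftInverse (r := fun u => eJ.symm (Real.log u.1))
    ((Real.continuous_exp.comp eJ.continuous).subtype_mk _)
    (eJ.symm.continuous.comp (continuous_subtype_val.log fun u => u.2)) fun s => ?_,
    fun g hg s => Subtype.ext ?_, fun u => ?_, fun g hg s s' e => ?_⟩
  · simp [MRb_ray]
  · rw [hv, (mem_ctx.1 hg).2 rfl]
    simp [sg]
  · rcases lt_or_gt_of_ne u.2 with h | h
    · refine ⟨_, MRb_tau_mem, eJ.symm (Real.log u.1), Subtype.ext ?_⟩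
      rw [hv]
      simp [sg, MRb_tau, MRb_ray, Real.exp_log_eq_abs u.2, abs_of_neg h]
    · refine ⟨1, (ctx _ _).one_mem, eJ.symm (Real.log u.1), Subtype.ext ?_⟩
      rw [hv]
      simp [sg, Gam.one_e, MRb_ray, Real.exp_log h]
  · refine mem_ctx.2 ⟨(mem_ctx.1 hg).1, fun _ => ?_⟩
    rcases Int.units_eq_one_or g.e with h | h
    · exact h
    · have e1 := congrArg Subtype.val e
      rw [hv, h] at e1
      have h1 := Real.exp_pos (eJ s)
      have h2 := Real.exp_pos (eJ s')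
      simp only [sg, MRb_ray, Units.val_neg, Units.val_one, Int.cast_neg, Int.cast_one] at e1
      linarith

/-- Splitting off one sign representation. -/
def MRb_cons (A : Type) [TopologicalSpace A] (k : ℕ) :
    (A × (Fin k → ℝ)) × ℝ ≃ₜ A × (Fin (k + 1) → ℝ) where
  toFun p := (p.1.1, Fin.cons p.2 p.1.2)
  invFun q := ((q.1, Fin.tail q.2), q.2 0)
  left_inv p := by simp
  right_inv q := by simp
  continuous_toFun := continuous_fst.fst.prodMk
    (Continuous.finCons (A := fun _ => ℝ) continuous_snd continuous_fst.snd)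
  continuous_invFun := (continuous_fst.prodMk continuous_snd.finTail).prodMk
    ((continuous_apply 0).comp continuous_snd)

theorem mr_signs (h : (finrank ℝ A : ℤ) < N) (k : ℕ) (hk : (finrank ℝ A : ℤ) + k < 2 * N)
    {f : BM ((A × (Fin k → ℝ)) × (Empty → ℂ)) (Ea κ × Unit)}
    (hf : (MU M).Gd (ctx (⊤ : AddSubgroup M) true : Set (Gam M)) (triv.prod (sa (sgs k))) triv
      (fun _ => N) (Lv.mk Empty κ 0 0) f) : cl (sy := MU M) (Lv.mk Empty κ 0 0) f hf = 0 := by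
  induction k with
  | zero =>
    have key : ∀ α : Act (Gam M) (A × (Fin 0 → ℝ)), α = triv →
        ∀ hf : (MU M).Gd (ctx (⊤ : AddSubgroup M) true : Set (Gam M)) α triv (fun _ => N)
          (Lv.mk Empty κ 0 0) f, cl (sy := MU M) (Lv.mk Empty κ 0 0) f hf = 0 := by
      rintro _ rfl hf
      exact mr_fixed (A := A × (Fin 0 → ℝ)) (by simpa using h) hf
    refine key _ ?_ hf
    exact funext fun _ => funext fun _ => Prod.ext rfl (Subsingleton.elim _ _)
  | succ k ih =>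
    let α : Act (Gam M) (A × (Fin k → ℝ)) := triv.prod (sa (sgs k))
    have hα : GA univ α := GA.triv.prod (ga_sa (MRb_ga k))
    have hc : ∀ g ∈ (ctx (⊤ : AddSubgroup M) true : Set (Gam M)), ∀ x,
        MRb_cons A k (α.prod (sa sg) g x) =
          (triv.prod (sa (sgs (k + 1))) : Act (Gam M) _) g (MRb_cons A k x) := by
      intro g _ x
      refine Prod.ext rfl (funext fun i => ?_)
      refine Fin.cases ?_ (fun j => ?_) i <;> rfl
    have hS := sndr_zero (niso_sg (ctx (⊤ : AddSubgroup M) true : Set (Gam M))) α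
    obtain ⟨y, hy⟩ := src_exact hS
      (pull (PMap.homeo _ hc) (cl (sy := MU M) (Lv.mk Empty κ 0 0) f hf))
      (ih (by push_cast at hk; omega) _)
    have hT : TrivG (ctx (⊤ : AddSubgroup M) false : Set (Gam M))
        (α.prod (triv : Act (Gam M) J)) := trivG_ctx (hα.prod GA.triv)
    have hd : (finrank ℝ (A × (Fin k → ℝ)) : ℤ) + 1 < 2 * N := by
      rw [finrank_prod, finrank_fin_fun]
      push_cast at hk ⊢
      omega
    have h0 : y = 0 := ind_inj mu_grp (MRb_slice.prodL (hα.mono (subset_univ _)))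
      (isCompact_ctx _ _) ((hα.prod ga_nz_sg).mono (subset_univ _)) GA.triv (fun _ _ _ => rfl)
      ((mu_conn hT (Homeomorph.refl _) hd _).trans (mu_conn hT (Homeomorph.refl _) hd _).symm)
    rw [← pull_inv (PMap.homeo _ hc) (PMap.homeo_symm _ hc) (MRb_cons A k).apply_symm_apply
      (cl (sy := MU M) (Lv.mk Empty κ 0 0) f hf), hy, h0, push_zero, pull_zero]

/-- Real and imaginary parts. -/
noncomputable def MRb_split (ι : Type) [Fintype ι] :
    (ι → ℝ) × (Fin (Fintype.card ι + 1) → ℝ) ≃ₜ ℝ × (ι → ℂ) where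
  toFun p := (p.2 0, fun i => ⟨p.1 i, p.2 (Fintype.equivFin ι i).succ⟩)
  invFun q := (fun i => (q.2 i).re,
    Fin.cons q.1 fun j => (q.2 ((Fintype.equivFin ι).symm j)).im)
  left_inv p := by
    refine Prod.ext rfl (funext fun j => ?_)
    refine Fin.cases ?_ (fun j => ?_) j <;> simp
  right_inv q := by
    refine Prod.ext rfl (funext fun i => ?_)
    apply Complex.ext <;> simp
  continuous_toFun := by
    refine ((continuous_apply 0).comp continuous_snd).prodMk (continuous_pi fun i => ?_)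
    have h1 : Continuous fun p : (ι → ℝ) × (Fin (Fintype.card ι + 1) → ℝ) =>
        (p.1 i, p.2 (Fintype.equivFin ι i).succ) := by fun_prop
    exact Complex.equivRealProdCLM.symm.continuous.comp h1
  continuous_invFun := by
    refine Continuous.prodMk (continuous_pi fun i =>
      Complex.continuous_re.comp ((continuous_apply i).comp continuous_snd)) ?_
    exact Continuous.finCons (A := fun _ => ℝ) continuous_fst (continuous_pi fun j =>
      Complex.continuous_im.comp ((continuous_apply _).comp continuous_snd))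

theorem mr_base {n : ℤ} (hn : 1 ≤ n)
    (x : E0 (ctx (⊤ : AddSubgroup M) true : Set (Gam M)) (sa sg) n) : x = 0 := by
  obtain ⟨L, f, hf, rfl⟩ := exists_rep0 EE3_small x
  have hp : PMap (ctx (⊤ : AddSubgroup M) true : Set (Gam M))
      (((sa sg).prod (rp (0 : L.ι → M))).prod (rp (0 : Empty → M)))
      ((sa sg).prod (rp (0 : L.ι → M))) Prod.fst :=
    ⟨proper_of_leftInverse (r := fun q => (q, 0)) continuous_fst (by fun_prop) fun p =>
      Prod.ext rfl (Subsingleton.elim _ _), fun _ _ _ => rfl⟩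
  have hf₀ : (MU M).Gd (ctx (⊤ : AddSubgroup M) true : Set (Gam M))
      ((sa sg).prod (rp (0 : L.ι → M))) triv (fun _ : Unit => n + Fintype.card L.ι)
      (Lv.mk Empty L.κ 0 0) (f.pre _ hp.proper) := by
    refine (hf.pre hp).monoD fun p hp => ?_
    have h1 : p.1.1.1.trace - (Fintype.card L.ι : ℂ) = (n : ℂ) := hp
    change p.1.1.1.trace - (Fintype.card Empty : ℂ) = ((n + Fintype.card L.ι : ℤ) : ℂ)
    rw [Fintype.card_eq_zero (α := Empty)]
    push_cast
    linear_combination h1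
  have hc : ∀ g ∈ (ctx (⊤ : AddSubgroup M) true : Set (Gam M)), ∀ x,
      MRb_split L.ι ((triv.prod (sa (sgs _)) : Act (Gam M) _) g x) =
        (sa sg).prod (rp (0 : L.ι → M)) g (MRb_split L.ι x) := by
    intro g _ x
    refine Prod.ext rfl (funext fun i => ?_)
    change _ = ch g 0 * tw g.e (⟨_, _⟩ : ℂ)
    rw [ch_zero, one_mul, MRb_tw]
    rfl
  have h0 : cl (sy := MU M) (Lv.mk Empty L.κ 0 0) _ hf₀ = 0 := by
    rw [← pull_inv (PMap.homeo _ hc) (PMap.homeo_symm _ hc) (MRb_split L.ι).apply_symm_apply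
      (cl (sy := MU M) (Lv.mk Empty L.κ 0 0) _ hf₀), pull_cl (PMap.homeo _ hc),
      mr_signs (A := L.ι → ℝ) (by rw [finrank_fintype_fun_eq_card]; omega) _
        (by rw [finrank_fintype_fun_eq_card]; push_cast; omega), pull_zero]
  have h1 := reg_cl (d := fun _ : Unit => n) (0 : L.ι → M) (fun _ => rfl) (Lv.mk Empty L.κ 0 0) _ hf₀
  rw [h0, reg_zero] at h1
  refine Eq.trans (Eq.symm ?_) h1.symm
  refine cl_reidx (L := L.zero M) (L' := (Lv.mk Empty L.κ 0 0).addS (0 : L.ι → M))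
    (Equiv.emptySum Empty L.ι).symm (Function.Embedding.refl _) (fun _ _ _ => rfl)
    (fun _ _ _ => rfl) hf _ fun x v => ?_
  have e : ∀ q : Ea L.κ, Ea.ext0 (Function.Embedding.refl L.κ) q = q := fun q =>
    Ea.ext0_eq _ (fun _ _ => rfl) (fun j' hj' => absurd ⟨j', rfl⟩ hj') fun _ => rfl
  simp only [e]
  exact (omap_id _).symm

theorem mu_base {n : ℤ} (hn : 1 ≤ n)
    (x : E0 (ctx (⊤ : AddSubgroup M) false : Set (Gam M)) (sa sg) n) : x = 0 := by
  refine mu_conn (A := Fin 0 → ℝ) (trivG_ctx (ga_sa ga_sg))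
    (eJ.symm.trans (Homeomorph.uniqueProd (Fin 0 → ℝ) J).symm) ?_ x
  rw [finrank_fin_fun]
  omega

end RB
end
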