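import Mathlib
import Pool.Agent.Work.MP_666b5d_gt.L1
import Pool.Agent.Work.MP_666b5d_gt.MRb
import Pool.Agent.Work.MP_666b5d_gt.Br3

-- merged part: Pool.Agent.Work.MP_666b5d_gt.Dual
section
/-!
# Characters of abelian groups

Proof hints.  `Additive Circle` is divisible, hence an injective `ℤ`-module
(`Module.Baer.of_divisible`, `Module.Baer.extension_property_addMonoidHom`; compare
`AddCircle`/`CharacterModule`).  `exists_phi`: the quotient of `Λ` by the saturation of `Λ₀` is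
finitely generated, torsion free and nonzero, hence free with a nonempty basis; take a coordinate.
`sub_induction`: `Λ` is free of finite rank; add one basis vector at a time.
-/

namespace RB

variable {M : Type} [AddCommGroup M]

theorem Dual_baer : Module.Baer ℤ (Additive Circle) := by
  let : DivisibleBy (Additive Circle) ℤ := divisibleByOfSMulRightSurj _ _ fun {n} hn a => by
    obtain ⟨x, hx⟩ := Circle.exp_surjective a.toMul
    refine ⟨Additive.ofMul (Circle.exp (x / n)), ?_⟩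
    have h : (n : ℝ) * (x / n) = x := by
      have : (n : ℝ) ≠ 0 := Int.cast_ne_zero.2 hn
      field_simp
    change Additive.ofMul (Circle.exp (x / n) ^ n) = a
    rw [← Circle.exp_intCast_mul, h, hx]
    rfl
  exact Module.Baer.of_divisible _

theorem Dual_ext {A B : Type} [AddCommGroup A] [AddCommGroup B] (f : A →+ B)
    (hf : Function.Injective f) (g : A →+ Additive Circle) :
    ∃ a : AddChar B Circle, ∀ x, a (f x) = (g x).toMul := by
  obtain ⟨h, hh⟩ := Dual_baer.extension_property_addMonoidHom f hf g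
  exact ⟨AddChar.toAddMonoidHomEquiv.symm h, fun x => by rw [← hh]; rfl⟩

theorem char_ext (Λ : AddSubgroup M) (χ : AddChar Λ Circle) :
    ∃ a : AddChar M Circle, ∀ w : Λ, a w = χ w :=
  Dual_ext Λ.subtype Λ.subtype_injective χ.toAddMonoidHom

theorem Dual_quot (Λ : AddSubgroup M) (b : AddChar (M ⧸ Λ) Circle) :
    ∃ a : AddChar M Circle, (∀ w ∈ Λ, a w = 1) ∧ ∀ m, a m = b m := by
  refine ⟨b.compAddMonoidHom (QuotientAddGroup.mk' Λ), fun w hw => ?_, fun _ => rfl⟩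
  change b (w : M ⧸ Λ) = 1
  rw [(QuotientAddGroup.eq_zero_iff w).2 hw, AddChar.map_zero_eq_one]

theorem Dual_onto (Λ : AddSubgroup M) {v : M} (hv : ∀ k : ℤ, k • v ∈ Λ → k = 0) (c : Circle) :
    ∃ a : AddChar M Circle, (∀ w ∈ Λ, a w = 1) ∧ a v = c := by
  obtain ⟨b, hb⟩ := Dual_ext (zmultiplesHom (M ⧸ Λ) (v : M ⧸ Λ))
    ((injective_iff_map_eq_zero _).2 fun k hk => hv k (by
      rw [zmultiplesHom_apply, ← QuotientAddGroup.mk_zsmul, QuotientAddGroup.eq_zero_iff] at hk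
      exact hk)) (zmultiplesHom _ (Additive.ofMul c))
  obtain ⟨a, ha, ha'⟩ := Dual_quot Λ b
  refine ⟨a, ha, ?_⟩
  simpa [ha'] using hb 1

theorem char_sep (Λ : AddSubgroup M) {m : M} (hm : m ∉ Λ) :
    ∃ a : AddChar M Circle, (∀ w ∈ Λ, a w = 1) ∧ a m ≠ 1 := by
  by_cases hf : IsOfFinAddOrder (m : M ⧸ Λ)
  · have : Finite (AddSubgroup.zmultiples (m : M ⧸ Λ)) := hf.finite_zmultiples
    obtain ⟨ψ, hψ⟩ := (AddChar.exists_apply_ne_zero
      (a := (⟨(m : M ⧸ Λ), AddSubgroup.mem_zmultiples _⟩ :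
        AddSubgroup.zmultiples (m : M ⧸ Λ)))).2 fun h =>
      hm ((QuotientAddGroup.eq_zero_iff m).1 (congrArg Subtype.val h))
    obtain ⟨χ, rfl⟩ := AddChar.circleEquivComplex.surjective ψ
    obtain ⟨b, hb⟩ := char_ext _ χ
    obtain ⟨a, ha, ha'⟩ := Dual_quot Λ b
    refine ⟨a, ha, fun h => hψ ?_⟩
    have h1 := hb ⟨(m : M ⧸ Λ), AddSubgroup.mem_zmultiples _⟩
    rw [← ha', h] at h1
    change ((χ _ : Circle) : ℂ) = 1
    rw [← h1, Circle.coe_one]
  · obtain ⟨a, ha, ha'⟩ := Dual_onto Λ (v := m) (fun k hk => by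
      by_contra h
      refine hf (isOfFinAddOrder_iff_zsmul_eq_zero.2 ⟨k, h, ?_⟩)
      rw [← QuotientAddGroup.mk_zsmul, QuotientAddGroup.eq_zero_iff]
      exact hk) (-1)
    refine ⟨a, ha, fun h => ?_⟩
    have h1 := congrArg (fun z : Circle => (z : ℂ)) (ha'.symm.trans h)
    norm_num at h1

theorem char_onto (Λ : AddSubgroup M) {v : M} (hv : ∀ k : ℤ, k • v ∈ Λ → k = 0) (c : Circle) :
    ∃ a : AddChar M Circle, (∀ w ∈ Λ, a w = 1) ∧ a v = c :=
  Dual_onto Λ hv c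

theorem Dual_finite (hM : AddGroup.FG M) (Λ : AddSubgroup M) : Module.Finite ℤ Λ := by
  have := Module.Finite.iff_addGroup_fg.2 hM
  exact Module.Finite.of_injective Λ.subtype.toIntLinearMap Λ.subtype_injective

theorem exists_phi (hM : AddGroup.FG M) {Λ₀ Λ : AddSubgroup M} {v : M} (hvΛ : v ∈ Λ)
    (hv : ∀ k : ℤ, k • v ∈ Λ₀ → k = 0) :
    ∃ (φ : Λ →+ ℤ) (v₁ : Λ), φ v₁ = 1 ∧ ∀ w : Λ, w.1 ∈ Λ₀ → φ w = 0 := by
  have := Dual_finite hM Λ
  let N : Submodule ℤ Λ := (Λ₀.comap Λ.subtype).toIntSubmodule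
  let T := Submodule.torsion ℤ (Λ ⧸ N)
  let π : Λ →ₗ[ℤ] (Λ ⧸ N) ⧸ T := T.mkQ ∘ₗ N.mkQ
  have hπ : Function.Surjective π := T.mkQ_surjective.comp N.mkQ_surjective
  have hne : π ⟨v, hvΛ⟩ ≠ 0 := fun h => by
    obtain ⟨k, hk⟩ := (Submodule.Quotient.mk_eq_zero T).1 h
    have h1 : (k : ℤ) • (⟨v, hvΛ⟩ : Λ) ∈ N := (Submodule.Quotient.mk_eq_zero N).1 hk
    exact nonZeroDivisors.ne_zero k.2 (hv k h1)
  have : Nontrivial ((Λ ⧸ N) ⧸ T) := nontrivial_of_ne _ _ hne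
  let b := Module.Free.chooseBasis ℤ ((Λ ⧸ N) ⧸ T)
  obtain ⟨i⟩ := b.index_nonempty
  obtain ⟨v₁, h₁⟩ := hπ (b i)
  refine ⟨(b.coord i ∘ₗ π).toAddMonoidHom, v₁, ?_, fun w hw => ?_⟩
  · change b.coord i (π v₁) = 1
    rw [h₁]
    simp
  · change b.coord i (T.mkQ (N.mkQ w)) = 0
    rw [show N.mkQ w = 0 from (Submodule.Quotient.mk_eq_zero N).2 hw, map_zero, map_zero]

theorem char_reweight {Λ₀ Λ : AddSubgroup M} (h : Λ₀ ≤ Λ) (φ : Λ →+ ℤ) (v₁ : Λ) (h₁ : φ v₁ = 1)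
    (h₀ : ∀ w : Λ, w.1 ∈ Λ₀ → φ w = 0) (a : AddChar M Circle) (ha : ∀ w ∈ Λ₀, a w = 1) :
    ∃ a' : AddChar M Circle, (∀ w ∈ Λ₀ ⊔ AddSubgroup.zmultiples v₁.1, a' w = 1) ∧
      ∀ w : Λ, a' w = a (w.1 - φ w • v₁.1) := by
  obtain ⟨a', ha'⟩ := char_ext Λ
    (a.compAddMonoidHom (Λ.subtype - (zmultiplesHom M v₁.1).comp φ))
  have h2 : ∀ w : Λ, a' w = a (w.1 - φ w • v₁.1) := ha'
  refine ⟨a', fun w hw => ?_, h2⟩
  obtain ⟨y, hy, z, ⟨k, rfl⟩, rfl⟩ := AddSubgroup.mem_sup.1 hw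
  have h3 := h2 ⟨y, h hy⟩
  have h4 := h2 v₁
  rw [h₀ _ hy, zero_smul, sub_zero, ha y hy] at h3
  rw [h₁, one_smul, sub_self, AddChar.map_zero_eq_one] at h4
  change a' (y + k • v₁.1) = 1
  rw [AddChar.map_add_eq_mul, AddChar.map_zsmul_eq_zpow, h4, one_zpow, mul_one]
  exact h3

theorem exists_maximal_sub (hM : AddGroup.FG M) (P : AddSubgroup M → Prop) (h : ∃ Λ, P Λ) :
    ∃ Λ, P Λ ∧ ∀ Λ', P Λ' → Λ ≤ Λ' → Λ' = Λ := by
  have := Module.Finite.iff_addGroup_fg.2 hM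
  obtain ⟨Λ₀, h₀⟩ := h
  obtain ⟨N, hN, hmax⟩ := set_has_maximal_iff_noetherian.2 (inferInstance : IsNoetherian ℤ M)
    {N | P N.toAddSubgroup} ⟨Λ₀.toIntSubmodule, h₀⟩
  refine ⟨N.toAddSubgroup, hN, fun Λ' h' hle => ?_⟩
  have h1 : N ≤ Λ'.toIntSubmodule := hle
  have h2 := (h1.lt_or_eq.resolve_left (hmax _ h'))
  rw [h2]
  rfl

theorem sub_induction (hM : AddGroup.FG M) (htf : ∀ (k : ℤ) (v : M), k • v = 0 → k = 0 ∨ v = 0)
    (P : AddSubgroup M → Prop) (h0 : P ⊥)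
    (hs : ∀ Λ v, (∀ k : ℤ, k • v ∈ Λ → k = 0) → P Λ → P (Λ ⊔ AddSubgroup.zmultiples v))
    (Λ : AddSubgroup M) : P Λ := by
  classical
  have := Dual_finite hM Λ
  have : Module.IsTorsionFree ℤ Λ := Module.IsTorsionFree.of_smul_eq_zero fun k v hk =>
    (htf k v.1 (congrArg Subtype.val hk)).imp_right Subtype.ext
  let b := Module.Free.chooseBasis ℤ Λ
  have hli : LinearIndependent ℤ (Λ.subtype.toIntLinearMap ∘ b) :=
    b.linearIndependent.map' _ (LinearMap.ker_eq_bot.2 Λ.subtype_injective)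
  have key : ∀ s : Finset (Module.Free.ChooseBasisIndex ℤ Λ),
      P (Submodule.span ℤ ((Λ.subtype.toIntLinearMap ∘ b) '' s)).toAddSubgroup := by
    intro s
    induction s using Finset.induction_on with
    | empty => simpa using h0
    | insert i s hi ih =>
      have h1 := hs _ ((Λ.subtype.toIntLinearMap ∘ b) i) (fun k hk =>
        hli.eq_zero_of_smul_mem_span i k (Submodule.span_mono (Set.image_mono fun j hj =>
          Set.mem_sdiff_of_mem trivial fun h => hi (by rw [← show j = i from h]; exact hj)) hk)) ih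
      rw [Finset.coe_insert, Set.image_insert_eq, Submodule.span_insert, sup_comm,
        Submodule.sup_toAddSubgroup, Submodule.span_singleton_toAddSubgroup_eq_zmultiples]
      exact h1
  have h2 := key Finset.univ
  rw [Finset.coe_univ, Set.image_univ, Set.range_comp, ← Submodule.map_span, b.span_eq,
    Submodule.map_top] at h2
  convert h2 using 1
  ext x
  simp

end RB
end

-- merged part: Pool.Agent.Work.MP_666b5d_gt.LemR
section
/-!
# Fixed points and reweighting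

Proof hints.  `fixed_block`: for `a` killing `Λ` the element `g = ⟨a, 1⟩` acts trivially on the
source, so it fixes the value: `a (u j - u k) P j k = P j k` and `a (u j) v j = v j`; use `char_sep`.
`lemR`: choose a representative at a level `L`, split `L.ι` into the indices with weight in `Λ` and
the others, and let `f₀` be the restriction (`lemF`).  Choose `s : M → M` with `s m - m ∈ Λ`,
`s m = s m'` when `m - m' ∈ Λ`, and `s m = 0` for `m ∈ Λ`.  New weights: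
`w' i = w i - φ (w i) • v₁`, `u' j = u j - φ (u j - s (u j)) • v₁`.  For `g ∈ ctx Λ₀ ε` take `a'`
from `char_reweight` and `g' = ⟨a', g.e⟩ ∈ ctx Λ' ε`; `g` acts on the source with the new weights as
`g'` with the old ones, and the same holds on the values of `f₀` by `fixed_block`.  Finally
`cl_weights` for `ctx Λ' ε`.
-/

open Set Filter Topology Matrix
open scoped unitInterval

namespace RB

open Act

variable {M : Type} [AddCommGroup M] {X : Type} [TopologicalSpace X] [LC X]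
  {α : Act (Gam M) X} {n : ℤ}

omit [LC X] in
theorem LemR_fix (hα : SgnOnly α) {Λ Λ' : AddSubgroup M} (hΛ : Λ' ≤ Λ) {ε : Bool} {L : Lv M}
    (hw : ∀ i, L.w i ∈ Λ) {f : BM (X × (L.ι → ℂ)) (Ea L.κ × Unit)}
    (hf : (MU M).Gd (ctx Λ' ε) α triv (fun _ => n) L f) (x : X × (L.ι → ℂ)) (q : Ea L.κ × Unit)
    (hq : f.f x = q) {a : AddChar M Circle} (ha : ∀ w ∈ Λ, a w = 1) :
    ea L.u ⟨a, 1⟩ q.1 = q.1 := by
  have hg : (⟨a, 1⟩ : Gam M) ∈ ctx Λ' ε := mem_ctx.2 ⟨fun w hw => ha w (hΛ hw), fun _ => rfl⟩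
  have e := hf.eqv _ hg x
  have e1 : α.prod (rp L.w) ⟨a, 1⟩ x = x := by
    refine Prod.ext ?_ (funext fun i => ?_)
    · exact (congrFun (hα.eq ⟨a, 1⟩ 1 rfl) x.1).trans (hα.ga.one x.1)
    · change ch ⟨a, 1⟩ (L.w i) * tw 1 (x.2 i) = x.2 i
      rw [ch_eq_one.2 (ha _ (hw i)), tw_one, one_mul]
  have e2 : f.f x = (f.f x).map ((ea L.u).prod triv ⟨a, 1⟩) := (congrArg f.f e1).symm.trans e
  rw [hq] at e2
  obtain ⟨y, h1, h2⟩ := omap_eq_coe.1 e2.symm
  rw [← OnePoint.coe_eq_coe.1 h1] at h2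
  exact congrArg Prod.fst h2

theorem LemR_mem {Λ : AddSubgroup M} {m : M} {z : ℂ} (hz : z ≠ 0)
    (h : ∀ a : AddChar M Circle, (∀ w ∈ Λ, a w = 1) → ch ⟨a, 1⟩ m * tw 1 z = z) : m ∈ Λ := by
  by_contra hm
  obtain ⟨a, ha, ha'⟩ := char_sep Λ hm
  have e := h a ha
  rw [tw_one, mul_eq_right₀ hz] at e
  exact ha' (ch_eq_one.1 e)

theorem fixed_block (hα : SgnOnly α) {Λ Λ' : AddSubgroup M} (hΛ : Λ' ≤ Λ) {ε : Bool} {L : Lv M}
    (hw : ∀ i, L.w i ∈ Λ) {f : BM (X × (L.ι → ℂ)) (Ea L.κ × Unit)}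
    (hf : (MU M).Gd (ctx Λ' ε) α triv (fun _ => n) L f) (x : X × (L.ι → ℂ)) (q : Ea L.κ × Unit)
    (hq : f.f x = q) : (∀ j k, q.1.1.1 j k ≠ 0 → L.u j - L.u k ∈ Λ) ∧
      ∀ j, q.1.1.2 j ≠ 0 → L.u j ∈ Λ := by
  exact ⟨fun j k h => LemR_mem h fun a ha =>
      congrArg (fun z : Ea L.κ => z.1.1 j k) (LemR_fix hα hΛ hw hf x q hq ha),
    fun j h => LemR_mem h fun a ha =>
      congrArg (fun z : Ea L.κ => z.1.2 j) (LemR_fix hα hΛ hw hf x q hq ha)⟩

theorem LemR_sec (Λ : AddSubgroup M) : ∃ t : M → Λ, (∀ m ∈ Λ, (t m : M) = m) ∧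
    ∀ m m', m - m' ∈ Λ → (t m : M) - t m' = m - m' := by
  classical
  have key : ∀ m : M, m - (m : M ⧸ Λ).out ∈ Λ := fun m => by
    rw [← QuotientAddGroup.eq_iff_sub_mem, QuotientAddGroup.out_eq']
  refine ⟨fun m => if h : m ∈ Λ then ⟨m, h⟩ else ⟨_, key m⟩, fun m hm => by simp only [dif_pos hm],
    fun m m' h => ?_⟩
  by_cases hm : m ∈ Λ
  · have hm' : m' ∈ Λ := by simpa using sub_mem hm h
    simp only [dif_pos hm, dif_pos hm']
  · have hm' : m' ∉ Λ := fun h' => hm (by simpa using add_mem h h')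
    simp only [dif_neg hm, dif_neg hm']
    rw [QuotientAddGroup.eq_iff_sub_mem.2 h]
    abel

theorem LemR_rew {Λ₀ Λ : AddSubgroup M} (h : Λ₀ ≤ Λ) (φ : Λ →+ ℤ) (v₁ : Λ)
    (h₁ : φ v₁ = 1) (h₀ : ∀ w : Λ, w.1 ∈ Λ₀ → φ w = 0) (ε : Bool) : ∃ r : M → M,
      (∀ g ∈ ctx (Λ₀ ⊔ AddSubgroup.zmultiples v₁.1) ε, ∀ m, ch g (r m) = ch g m) ∧
      ∀ g ∈ ctx Λ₀ ε, ∃ g' ∈ ctx (Λ₀ ⊔ AddSubgroup.zmultiples v₁.1) ε, g'.e = g.e ∧
        (∀ m ∈ Λ, ch g (r m) = ch g' m) ∧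
        ∀ m m', m - m' ∈ Λ → ch g (r m - r m') = ch g' (m - m') := by
  obtain ⟨t, t1, t2⟩ := LemR_sec Λ
  refine ⟨fun m => m - φ (t m) • v₁.1, fun g hg m => ?_, fun g hg => ?_⟩
  · rw [ch_sub, ch_eq_one.2 ((mem_ctx.1 hg).1 _
      (AddSubgroup.mem_sup_right (AddSubgroup.zsmul_mem_zmultiples _ _))), star_one, mul_one]
  · obtain ⟨a', ha, ha'⟩ := char_reweight h φ v₁ h₁ h₀ g.a (mem_ctx.1 hg).1
    refine ⟨⟨a', g.e⟩, mem_ctx.2 ⟨ha, (mem_ctx.1 hg).2⟩, rfl, fun m hm => ?_, fun m m' hm => ?_⟩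
    · have e : t m = ⟨m, hm⟩ := Subtype.ext (t1 m hm)
      change ((g.a (m - φ (t m) • v₁.1) : Circle) : ℂ) = ((a' m : Circle) : ℂ)
      rw [e]
      exact congrArg (fun z : Circle => (z : ℂ)) (ha' ⟨m, hm⟩).symm
    · have e : (⟨m - m', hm⟩ : Λ) = t m - t m' := Subtype.ext (t2 m m' hm).symm
      have e1 := ha' ⟨m - m', hm⟩
      have e2 : m - φ (t m) • v₁.1 - (m' - φ (t m') • v₁.1) =
          m - m' - φ ⟨m - m', hm⟩ • v₁.1 := by
        rw [e, map_sub, sub_smul]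
        abel
      change ((g.a _ : Circle) : ℂ) = ((a' (m - m') : Circle) : ℂ)
      rw [e2]
      exact congrArg (fun z : Circle => (z : ℂ)) e1.symm

theorem LemR_gd (hα : SgnOnly α) {Λ₀ Λ' Λ : AddSubgroup M} (hΛ : Λ' ≤ Λ) {ε : Bool} {r : M → M}
    (hr : ∀ g ∈ ctx Λ₀ ε, ∃ g' ∈ ctx Λ' ε, g'.e = g.e ∧ (∀ m ∈ Λ, ch g (r m) = ch g' m) ∧
      ∀ m m', m - m' ∈ Λ → ch g (r m - r m') = ch g' (m - m')) {L : Lv M}
    (hw : ∀ i, L.w i ∈ Λ) {f : BM (X × (L.ι → ℂ)) (Ea L.κ × Unit)}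
    (hf : (MU M).Gd (ctx Λ' ε) α triv (fun _ => n) L f) :
    (MU M).Gd (ctx Λ₀ ε) α triv (fun _ => n) (Lv.mk L.ι L.κ (r ∘ L.w) (r ∘ L.u)) f := by
  refine ⟨fun g hg x => ?_, hf.mem⟩
  obtain ⟨g', hg', he, r1, r2⟩ := hr g hg
  have e1 : α.prod (rp (r ∘ L.w)) g x = α.prod (rp L.w) g' x := by
    refine Prod.ext (congrFun (hα.eq g g' he.symm) x.1) (funext fun i => ?_)
    change ch g (r (L.w i)) * tw g.e (x.2 i) = ch g' (L.w i) * tw g'.e (x.2 i)
    rw [r1 _ (hw i), he]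
  refine (congrArg f.f e1).trans ((hf.eqv g' hg' x).trans (omap_congr _ fun q hq => ?_))
  obtain ⟨b1, b2⟩ := fixed_block hα hΛ hw hf x q hq
  refine Prod.ext (Subtype.ext (Prod.ext (Matrix.ext fun j k => ?_) (funext fun j => ?_))) rfl
  · change ch g' (L.u j - L.u k) * tw g'.e (q.1.1.1 j k) =
      ch g (r (L.u j) - r (L.u k)) * tw g.e (q.1.1.1 j k)
    by_cases h0 : q.1.1.1 j k = 0
    · rw [h0, MU_tw_zero, MU_tw_zero, mul_zero, mul_zero]
    · rw [r2 _ _ (b1 j k h0), he]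
  · change ch g' (L.u j) * tw g'.e (q.1.1.2 j) = ch g (r (L.u j)) * tw g.e (q.1.1.2 j)
    by_cases h0 : q.1.1.2 j = 0
    · rw [h0, MU_tw_zero, MU_tw_zero, mul_zero, mul_zero]
    · rw [r1 _ (b2 j h0), he]

theorem LemR_main (hα : SgnOnly α) {Λ₀ Λ : AddSubgroup M} (h : Λ₀ ≤ Λ) (φ : Λ →+ ℤ) (v₁ : Λ)
    (h₁ : φ v₁ = 1) (h₀ : ∀ w : Λ, w.1 ∈ Λ₀ → φ w = 0) (ε : Bool) (L : Lv M)
    (hw : ∀ i, L.w i ∈ Λ) (f : BM (X × (L.ι → ℂ)) (Ea L.κ × Unit))
    (hf : (MU M).Gd (ctx (Λ₀ ⊔ AddSubgroup.zmultiples v₁.1) ε) α triv (fun _ => n) L f) :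
    ∃ y'' : E0 (ctx Λ₀ ε) α n, res (ctx_mono le_sup_left ε) y'' = cl (sy := MU M) L f hf := by
  obtain ⟨r, r1, r2⟩ := LemR_rew h φ v₁ h₁ h₀ ε
  have hΛ : Λ₀ ⊔ AddSubgroup.zmultiples v₁.1 ≤ Λ :=
    sup_le h (AddSubgroup.zmultiples_le_of_mem v₁.2)
  exact ⟨cl (sy := MU M) (Lv.mk L.ι L.κ (r ∘ L.w) (r ∘ L.u)) f (LemR_gd hα hΛ r2 hw hf),
    cl_weights L _ _ (fun g hg i => r1 g hg _) (fun g hg j => r1 g hg _) hf _⟩

theorem lemR (hα : SgnOnly α) {Λ₀ Λ : AddSubgroup M} (h : Λ₀ ≤ Λ) (φ : Λ →+ ℤ) (v₁ : Λ)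
    (h₁ : φ v₁ = 1) (h₀ : ∀ w : Λ, w.1 ∈ Λ₀ → φ w = 0) (ε : Bool)
    (y : E0 (ctx (Λ₀ ⊔ AddSubgroup.zmultiples v₁.1) ε) α n) :
    ∃ (ν : Type) (_ : Fintype ν) (_ : DecidableEq ν) (ω : ν → M), (∀ i, ω i ∉ Λ) ∧
      ∃ y'' : E0 (ctx Λ₀ ε) α (n + Fintype.card ν),
        res (ctx_mono le_sup_left ε) y'' = mF ω rfl y := by
  classical
  obtain ⟨L, f, hf, rfl⟩ := cl_surj y
  obtain ⟨f₀, hf₀, -, e⟩ := lemF L (Equiv.sumCompl fun i => L.w i ∈ Λ) rfl hf
  obtain ⟨y'', e'⟩ := LemR_main hα h φ v₁ h₁ h₀ ε (Lv.mk _ L.κ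
    (L.w ∘ (Equiv.sumCompl fun i => L.w i ∈ Λ) ∘ Sum.inl) L.u) (fun i => i.2) f₀ hf₀
  exact ⟨_, _, _, _, fun i => i.2, y'', e'.trans e⟩

end RB
end

-- merged part: Pool.Agent.Work.MP_666b5d_gt.ThmA
section
/-!
# Euler classes of non-torsion characters have trivial kernel

Proof plan.  `slice_ray`: `char_onto` gives transitivity; if `ch g v * tw g.e r = r'` with `r, r' > 0`
then `ch g v = 1`.
`thmA`: suppose `x ≠ 0`, `m1 v x = 0`.  Among the subgroups `kil x'` (`x' ≠ 0` of any degree,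
`v ∈ kil x'`) take a maximal one `Λ = kil x'` (`exists_maximal_sub`); `Λ₀ ≤ Λ` by `m1_triv`.  For
`w ∉ Λ`, `m1 w x' ≠ 0` and `kil (m1 w x') = Λ`; by induction on `ν`
(`Fintype.induction_empty_option`, `mF_equiv`, `mF_option`, `mF_empty`) no `mF ω` with all
`ω i ∉ Λ` kills such an `x'`.  Take `φ, v₁` from `exists_phi`.  `su1 v₁ x' = push y`
(`exists_push_of_m1`); let `y' = pull (res y)` along the ray and `ω, y''` from `lemR`.  By `ind_inj`,
`mF ω y = pull nJ y''` (`nJ (ray s) = s`).  So `su1 v₁ (mF ω x') = push (pull nJ y'') = 0`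
(`collp`), a contradiction.
`res_surj`: `ind_surj`, `su1_surj`, `pull_su1`, `pull_push_zero`, `thmA`, `corner`.
`van_sub`: `van_sJ` and `res_surj` for `X = ℝ × ℝ`.  `van_all`: `sub_induction`.
-/

open Set Filter Topology Matrix
open scoped unitInterval

namespace RB

open Act

variable {M : Type} [AddCommGroup M] {X : Type} [TopologicalSpace X] [LC X]
  {α : Act (Gam M) X} {n n' : ℤ}

/-- The positive real ray. -/
noncomputable def ray (s : J) : Nz ℂ := ⟨((s.1 / (1 - s.1) : ℝ) : ℂ),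
  Complex.ofReal_ne_zero.2 (div_pos s.2.1 (sub_pos.2 s.2.2)).ne'⟩

theorem ThmA_pos (s : J) : 0 < s.1 / (1 - s.1) := div_pos s.2.1 (sub_pos.2 s.2.2)

theorem ThmA_norm_ray (s : J) : ‖(ray s).1‖ = s.1 / (1 - s.1) := by
  change ‖((s.1 / (1 - s.1) : ℝ) : ℂ)‖ = _
  rw [Complex.norm_real, Real.norm_of_nonneg (ThmA_pos s).le]

theorem nJ_ray (s : J) : nJ (ray s) = s := by
  apply Subtype.ext
  change ‖(ray s).1‖ / (1 + ‖(ray s).1‖) = s.1
  have h : 1 - s.1 ≠ 0 := (sub_pos.2 s.2.2).ne'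
  rw [ThmA_norm_ray]
  field_simp
  ring

theorem ThmA_ray_nJ (u : Nz ℂ) : (ray (nJ u)).1 = (‖u.1‖ : ℝ) := by
  change ((‖u.1‖ / (1 + ‖u.1‖) / (1 - ‖u.1‖ / (1 + ‖u.1‖)) : ℝ) : ℂ) = _
  have h0 : 0 < ‖u.1‖ := norm_pos_iff.2 u.2
  congr 1
  field_simp
  ring

theorem ray_closedEmb : IsClosedEmbedding ray := by
  refine Function.LeftInverse.isClosedEmbedding (f := nJ) nJ_ray
    (nJ_pmap (niso_cw (M := ℤ) univ 0)).proper.continuous (Continuous.subtype_mk ?_ _)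
  exact Complex.continuous_ofReal.comp
    (Continuous.div (by fun_prop) (by fun_prop) fun s => (sub_pos.2 s.2.2).ne')

theorem ThmA_act (v : M) (g : Gam M) (s : J) :
    ((cw v).nz g (ray s)).1 = ch g v * (ray s).1 := by
  rw [(niso_cw univ v).nz_val (mem_univ g)]
  exact congrArg (ch g v * ·) (Gam_tw_real g.e _)

theorem slice_ray {Λ₀ : AddSubgroup M} {v : M} (hv : ∀ k : ℤ, k • v ∈ Λ₀ → k = 0) (ε : Bool) :
    Slice (ctx Λ₀ ε : Set (Gam M)) (ctx (Λ₀ ⊔ AddSubgroup.zmultiples v) ε) triv (cw v).nz ray := by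
  refine ⟨ctx_mono le_sup_left ε, ray_closedEmb, fun g hg s => Subtype.ext ?_, fun u => ?_,
    fun g hg s s' h => ⟨fun w hw => ?_, hg.2⟩⟩
  · rw [ThmA_act, ch_eq_one.2 (hg.1 v (AddSubgroup.mem_sup_right (AddSubgroup.mem_zmultiples v))),
      one_mul, triv_apply]
  · have h0 : ((‖u.1‖ : ℝ) : ℂ) ≠ 0 := Complex.ofReal_ne_zero.2 (norm_ne_zero_iff.2 u.2)
    obtain ⟨a, ha, hav⟩ := char_onto Λ₀ hv ⟨u.1 / (‖u.1‖ : ℝ), by
      change u.1 / (‖u.1‖ : ℝ) ∈ Metric.sphere (0 : ℂ) 1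
      rw [mem_sphere_zero_iff_norm, norm_div, Complex.norm_real, norm_norm,
        div_self (norm_ne_zero_iff.2 u.2)]⟩
    refine ⟨⟨a, 1⟩, ⟨ha, fun _ => rfl⟩, nJ u, Subtype.ext ?_⟩
    rw [ThmA_act, ThmA_ray_nJ, ch, hav]
    exact (div_mul_cancel₀ u.1 h0).symm
  · have h1 := congrArg Subtype.val h
    rw [ThmA_act] at h1
    have h2 := congrArg norm h1
    rw [norm_mul, norm_ch, one_mul, ThmA_norm_ray, ThmA_norm_ray] at h2
    have h3 : (ray s').1 = (ray s).1 := congrArg Complex.ofReal h2.symm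
    rw [h3] at h1
    have h4 : g.a v = 1 := ch_eq_one.1 (mul_right_cancel₀ (ray s).2 (h1.trans (one_mul _).symm))
    obtain ⟨y, hy, z, ⟨k, rfl⟩, rfl⟩ := AddSubgroup.mem_sup.1 hw
    change g.a (y + k • v) = 1
    rw [AddChar.map_add_eq_mul, AddChar.map_zsmul_eq_zpow, h4, _root_.one_zpow, mul_one]
    exact hg.1 y hy

/-- A property that is preserved by single Euler classes is preserved by their products. -/
theorem ThmA_ind {𝒢 : Set (Gam M)} (Q : ∀ m : ℤ, E0 𝒢 α m → Prop) (W : M → Prop)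
    (hQ : ∀ w, W w → ∀ m x, Q m x → Q (m + 1) (m1 w rfl x)) (ν : Type) [Fintype ν] :
    ∀ [DecidableEq ν] (ω : ν → M), (∀ i, W (ω i)) → ∀ (m m' : ℤ) (h : m' = m + Fintype.card ν)
      (x : E0 𝒢 α m), Q m x → Q m' (mF ω h x) := by
  classical
  refine Fintype.induction_empty_option (P := fun ν _ => ∀ [DecidableEq ν] (ω : ν → M),
    (∀ i, W (ω i)) → ∀ (m m' : ℤ) (h : m' = m + Fintype.card ν) (x : E0 𝒢 α m), Q m x →
      Q m' (mF ω h x)) ?_ ?_ ?_ ν
  · intro ν₁ ν₂ _ c ih _ ω hω m m' h x hx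
    let : Fintype ν₁ := Fintype.ofEquiv ν₂ c.symm
    have h' : m' = m + Fintype.card ν₁ := by rw [Fintype.card_congr c]; exact h
    rw [← mF_equiv c (ω ∘ c) ω (fun _ => rfl) h' h x]
    exact ih (ω ∘ c) (fun i => hω (c i)) m m' h' x hx
  · intro _ ω _ m m' h x hx
    obtain rfl : m' = m := by simpa using h
    rw [mF_empty]
    exact hx
  · intro ν₁ _ ih inst ω hω m m' h x hx
    have h₂ : m' = m + 1 + Fintype.card ν₁ := by
      rw [h, Fintype.card_option]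
      push_cast
      ring
    obtain rfl : inst = Option.instDecidableEq := Subsingleton.elim _ _
    rw [mF_option' ω rfl h₂ h x]
    exact ih _ (fun i => hω (some i)) _ _ h₂ _ (hQ _ (hω none) m x hx)

omit [LC X] in
/-- The slice of the punctured line over `X`. -/
theorem ThmA_slice (hα : SgnOnly α) {Λ₀ : AddSubgroup M} {v : M}
    (hv : ∀ k : ℤ, k • v ∈ Λ₀ → k = 0) (ε : Bool) :
    Slice (ctx Λ₀ ε : Set (Gam M)) (ctx (Λ₀ ⊔ AddSubgroup.zmultiples v) ε)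
      (α.prod (triv : Act (Gam M) J)) (α.prod (cw v).nz) (Prod.map id ray) :=
  (slice_ray hv ε).prodL (hα.ga.mono (subset_univ _))

omit [LC X] in
theorem ThmA_ga (hα : SgnOnly α) (𝒢 : Set (Gam M)) (v : M) : GA 𝒢 (α.prod (cw v).nz) :=
  (hα.ga.prod (ga_nz_cw v)).mono (subset_univ _)

theorem ThmA_pull_nJ (hα : SgnOnly α) {Λ₀ : AddSubgroup M} {v : M}
    (hv : ∀ k : ℤ, k • v ∈ Λ₀ → k = 0) (ε : Bool)
    (y : E0 (ctx Λ₀ ε) (α.prod (triv : Act (Gam M) J)) n) :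
    pull (ThmA_slice hα hv ε).pmap (res (ThmA_slice hα hv ε).sub
      (pull ((nJ_pmap (niso_cw (ctx Λ₀ ε : Set (Gam M)) v)).prodL α) y)) =
      res (ctx_mono le_sup_left ε) y := by
  rw [res_pull]
  exact pull_inv _ _ (fun p => Prod.ext rfl (nJ_ray p.2)) _

theorem thmA (hM : AddGroup.FG M) (hα : SgnOnly α) {Λ₀ : AddSubgroup M} {v : M}
    (hv : ∀ k : ℤ, k • v ∈ Λ₀ → k = 0) {ε : Bool} (h : n' = n + 1) {x : E0 (ctx Λ₀ ε) α n}
    (hx : m1 v h x = 0) : x = 0 := by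
  subst h
  by_contra hx0
  have key := exists_maximal_sub hM
    (fun Λ => ∃ (m : ℤ) (x' : E0 (ctx Λ₀ ε : Set (Gam M)) α m),
      x' ≠ 0 ∧ v ∈ kil x' ∧ Λ = kil x') ⟨kil x, n, x, hx0, mem_kil.2 hx, rfl⟩
  obtain ⟨Λ, ⟨m, x', hx', hvx, rfl⟩, hmax⟩ := key
  have hle : Λ₀ ≤ kil x' := fun w hw => m1_triv (fun g hg => hg.1 w hw) rfl x'
  obtain ⟨φ, v₁, h₁, h₀⟩ := exists_phi hM hvx hv
  have hv₁ : ∀ k : ℤ, k • v₁.1 ∈ Λ₀ → k = 0 := fun k hk => by
    have h2 := h₀ (k • v₁) hk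
    rwa [map_zsmul, h₁, smul_eq_mul, mul_one] at h2
  obtain ⟨y, hy⟩ := exists_push_of_m1 (v := v₁.1) rfl (x := x') v₁.2
  have S := ThmA_slice hα hv₁ ε
  obtain ⟨ν, _, _, ω, hω, y'', hy''⟩ := lemR (hα.prod SgnOnly.triv) hle φ v₁ h₁ h₀ ε
    (pull S.pmap (res S.sub y))
  have h3 : mF ω rfl y =
      pull ((nJ_pmap (niso_cw (ctx Λ₀ ε : Set (Gam M)) v₁.1)).prodL α) y'' := by
    refine ind_inj mu_grp S (isCompact_ctx _ _) (ThmA_ga hα _ _) GA.triv (fun _ _ _ => rfl) ?_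
    rw [ThmA_pull_nJ hα hv₁ ε, hy'', mF_pull, mF_res]
  have h4 : (m + 1 + Fintype.card ν : ℤ) = m + Fintype.card ν + 1 := by ring
  have h5 : su1 v₁.1 h4 (mF ω rfl x') = su1 v₁.1 h4 0 := by
    rw [su1_zero, ← mF_su1 ω v₁.1 rfl rfl rfl h4, hy, mF_push, h3, collp (niso_cw _ _)]
  refine (ThmA_ind (fun _ z => z ≠ 0 ∧ kil z = kil x') (fun w => w ∉ kil x') ?_ ν ω hω m _ rfl x'
    ⟨hx', rfl⟩).1 (su1_inj _ h4 h5)
  rintro w hw k z ⟨-, hz⟩
  have h6 : m1 w rfl z ≠ 0 := fun e => hw (hz ▸ mem_kil.2 e)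
  have h7 : kil x' ≤ kil (m1 w rfl z) := hz ▸ kil_le_m1 z w rfl
  exact ⟨h6, hmax _ ⟨_, _, h6, h7 hvx, rfl⟩ h7⟩

theorem thmA_mF (hM : AddGroup.FG M) (hα : SgnOnly α) {Λ₀ : AddSubgroup M} {ν : Type} [Fintype ν]
    [DecidableEq ν] {ω : ν → M} (hv : ∀ i (k : ℤ), k • ω i ∈ Λ₀ → k = 0) {ε : Bool}
    (h : n' = n + Fintype.card ν) {x : E0 (ctx Λ₀ ε) α n} (hx : mF ω h x = 0) : x = 0 := by
  by_contra hx0
  exact ThmA_ind (fun _ z => z ≠ 0) (fun w => ∀ k : ℤ, k • w ∈ Λ₀ → k = 0)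
    (fun w hw _ z hz e => hz (thmA hM hα hw rfl e)) ν ω hv n n' h x hx0 hx

theorem res_surj (hM : AddGroup.FG M) (hα : SgnOnly α) {Λ₀ : AddSubgroup M} {v : M}
    (hv : ∀ k : ℤ, k • v ∈ Λ₀ → k = 0) {ε : Bool}
    (y : E0 (ctx (Λ₀ ⊔ AddSubgroup.zmultiples v) ε) (α.prod (triv : Act (Gam M) J)) n) :
    ∃ x : E0 (ctx Λ₀ ε) (α.prod (triv : Act (Gam M) J)) n, res (ctx_mono le_sup_left ε) x = y := by
  have S := ThmA_slice hα hv ε
  obtain ⟨z, rfl⟩ := ind_surj mu_grp S (isCompact_ctx _ _) (ThmA_ga hα _ _) GA.triv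
    (fun _ _ _ => rfl) y
  have hn : n = n - 1 + 1 := by ring
  have hc := niso_cw (ctx Λ₀ ε : Set (Gam M)) v
  obtain ⟨x₀, hx₀⟩ := su1_surj v hn (push ((nz_oemb hc).prodL α) z)
  have h1 : m1 v hn x₀ = 0 := by
    rw [← pull_su1 v hn (sndr_zero hc α).pmap, hx₀]
    refine pull_push_zero _ _ ?_ z
    rintro p ⟨q, hq⟩
    exact q.2.2 (congrArg Prod.snd hq)
  rw [thmA hM hα hv hn h1, su1_zero] at hx₀
  obtain ⟨y'', rfl⟩ := corner hc z hx₀.symm
  exact ⟨y'', (ThmA_pull_nJ hα hv ε y'').symm⟩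

theorem van_all (hM : AddGroup.FG M) (htf : ∀ (k : ℤ) (v : M), k • v = 0 → k = 0 ∨ v = 0)
    {ε : Bool} (h0 : ∀ n, ∀ x : E0 (ctx (⊥ : AddSubgroup M) ε : Set (Gam M)) (sa sg) n, x = 0)
    (Λ : AddSubgroup M) (n : ℤ) (x : E0 (ctx Λ ε : Set (Gam M)) (sa sg) n) : x = 0 := by
  refine sub_induction hM htf
    (fun Λ => ∀ n, ∀ x : E0 (ctx Λ ε : Set (Gam M)) (sa sg) n, x = 0) h0 ?_ Λ n x
  intro Λ v hv ih m
  refine (van_sJ rfl).2 fun y => ?_
  obtain ⟨z, rfl⟩ := res_surj hM (sgnOnly_sg.prod sgnOnly_sg) hv y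
  rw [(van_sJ rfl).1 (ih m) z, res_zero]

end RB
end

-- merged part: Pool.Agent.Work.MP_666b5d_gt.Circ
section
/-!
# Rays and sectors in the punctured plane

Proof hints.  `sndr_circ`: with `ν u = (u / ‖u‖) ^ p` take `ψ = 1 - re (ν u)` and
`D (u, t) = u * exp (- i t arcsin (im (ν u)) / p)`; if `re (ν u) ≥ 0` then
`ν u = exp (i arcsin (im (ν u)))`.  An element `g` of `cp p ε` satisfies `(ch g j) ^ p = 1`, so
`ν (g u) = tw g.e (ν u)`.  `D` preserves the norm (properness: `nJ_pmap` or a direct argument).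
A character of `ℤ` is determined by its value at `1`; if `a p = 1` and `a j = 1` with `p` prime not
dividing `j` then `a = 1`; if `c ^ p = 1` there is `a` with `a p = 1`, `a j = c` (invert `j` mod `p`).
`sec0` has the continuous left inverse `u ↦ (log ‖u‖, arg (- ν u) / (2 π) + 1 / 2)`, and its range is
`{u | u / ‖u‖ = exp (i (arg (- ν u) + π) / p)}`; the `p` translates are closed, disjoint and cover,
hence open.
-/

open Set Filter Topology
open scoped unitInterval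

namespace RB

open Act

/-- The `p` rays through the roots of unity. -/
def onRay (p : ℕ) (u : Nz ℂ) : Prop := (u.1 / (‖u.1‖ : ℂ)) ^ p = 1

/-- The rays. -/
abbrev Rays (p : ℕ) : Type := {u : Nz ℂ // onRay p u}

/-- The open sectors. -/
abbrev Sec (p : ℕ) : Type := {u : Nz ℂ // ¬ onRay p u}

/-- The power of the direction. -/
noncomputable def Circ_nu (p : ℕ) (z : ℂ) : ℂ := (z / (‖z‖ : ℂ)) ^ p

theorem Circ_onRay {p : ℕ} {u : Nz ℂ} : onRay p u ↔ Circ_nu p u.1 = 1 := Iff.rfl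

theorem Circ_norm_ne (u : Nz ℂ) : ((‖u.1‖ : ℝ) : ℂ) ≠ 0 :=
  Complex.ofReal_ne_zero.2 (norm_ne_zero_iff.2 u.2)

theorem Circ_cont_nu (p : ℕ) : Continuous fun u : Nz ℂ => Circ_nu p u.1 :=
  (Continuous.div continuous_subtype_val (by fun_prop) Circ_norm_ne).pow p

theorem Circ_norm_nu (p : ℕ) (u : Nz ℂ) : ‖Circ_nu p u.1‖ = 1 := by
  rw [Circ_nu, norm_pow, norm_div, Complex.norm_real, norm_norm,
    div_self (norm_ne_zero_iff.2 u.2), one_pow]

theorem Circ_closed (p : ℕ) : IsClosed {u : Nz ℂ | onRay p u} :=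
  isClosed_eq (Circ_cont_nu p) continuous_const

theorem Circ_open (p : ℕ) : IsOpen {u : Nz ℂ | ¬ onRay p u} := (Circ_closed p).isOpen_compl

instance (p : ℕ) : LocallyCompactSpace (Rays p) := by
  exact (Circ_closed p).locallyCompactSpace

instance (p : ℕ) : LocallyCompactSpace (Sec p) := by
  exact (Circ_open p).locallyCompactSpace

/-- The action on the rays. -/
noncomputable abbrev rayA (p : ℕ) (j : ℤ) : Act (Gam ℤ) (Rays p) := (cw j).nz.sub (onRay p)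

/-- The action on the sectors. -/
noncomputable abbrev secA (p : ℕ) (j : ℤ) : Act (Gam ℤ) (Sec p) :=
  (cw j).nz.sub fun u => ¬ onRay p u

/-- The roots of unity, with or without the conjugation. -/
noncomputable abbrev cp (p : ℕ) (ε : Bool) : Subgroup (Gam ℤ) :=
  ctx (AddSubgroup.zmultiples (p : ℤ)) ε

variable {p : ℕ} {ε : Bool} {j : ℤ}

theorem Circ_a (a : AddChar ℤ Circle) (n : ℤ) : a n = a 1 ^ n := by
  rw [← AddChar.map_zsmul_eq_zpow, smul_eq_mul, mul_one]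

theorem Circ_ch (g : Gam ℤ) (n : ℤ) : ch g n = ch g 1 ^ n := by
  rw [ch, Circ_a, Circle.coe_zpow, ch]

/-- The character of the integers with a given value at `1`. -/
noncomputable def Circ_char (c : Circle) : AddChar ℤ Circle where
  toFun n := c ^ n
  map_zero_eq_one' := zpow_zero c
  map_add_eq_mul' := zpow_add c

theorem Circ_char_apply (c : Circle) (n : ℤ) : Circ_char c n = c ^ n := rfl

theorem Circ_mem_cp {g : Gam ℤ} : g ∈ cp p ε ↔ g.a 1 ^ p = 1 ∧ (ε = false → g.e = 1) := by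
  refine and_congr_left fun _ => ⟨fun h => ?_, fun h w hw => ?_⟩
  · have h1 := h _ (AddSubgroup.mem_zmultiples (p : ℤ))
    rwa [Circ_a, zpow_natCast] at h1
  · obtain ⟨k, rfl⟩ := hw
    change g.a (k • (p : ℤ)) = 1
    rw [AddChar.map_zsmul_eq_zpow, Circ_a, zpow_natCast, h, _root_.one_zpow]

theorem Circ_mem_top {g : Gam ℤ} :
    g ∈ ctx (⊤ : AddSubgroup ℤ) ε ↔ g.a 1 = 1 ∧ (ε = false → g.e = 1) := by
  refine and_congr_left fun _ => ⟨fun h => h 1 trivial, fun h w _ => ?_⟩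
  rw [Circ_a, h, _root_.one_zpow]

theorem Circ_ch_pow {g : Gam ℤ} (hg : g ∈ cp p ε) (j : ℤ) : ch g j ^ p = 1 := by
  rw [ch, Circ_a, ← Circle.coe_pow, ← zpow_natCast, ← zpow_mul, mul_comm, zpow_mul, zpow_natCast,
    (Circ_mem_cp.1 hg).1, _root_.one_zpow, Circle.coe_one]

theorem Circ_nu_mul {c : ℂ} (hc : ‖c‖ = 1) (z : ℂ) : Circ_nu p (c * z) = c ^ p * Circ_nu p z := by
  rw [Circ_nu, Circ_nu, norm_mul, hc, one_mul, mul_div_assoc, mul_pow]

theorem Circ_norm_tw (e : ℤˣ) (z : ℂ) : ‖tw e z‖ = ‖z‖ := by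
  rcases Int.units_eq_one_or e with rfl | rfl
  · rw [tw_one]
  · rw [tw_neg_one, norm_star]

theorem Circ_nu_tw (e : ℤˣ) (z : ℂ) : Circ_nu p (tw e z) = tw e (Circ_nu p z) := by
  rw [Circ_nu, Circ_nu, Circ_norm_tw, ← twR_apply e (_ ^ p), map_pow, map_div₀, twR_apply,
    twR_apply, Gam_tw_real]

theorem Circ_nu_cw {g : Gam ℤ} (hg : g ∈ cp p ε) (z : ℂ) :
    Circ_nu p (cw j g z) = tw g.e (Circ_nu p z) := by
  rw [cw, Circ_nu_mul (norm_ch g j), Circ_ch_pow hg, one_mul, Circ_nu_tw]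

theorem Circ_nz_val (g : Gam ℤ) (u : Nz ℂ) : ((cw j).nz g u).1 = cw j g u.1 :=
  (niso_cw univ j).nz_val (mem_univ g) u

theorem Circ_re_tw (e : ℤˣ) (z : ℂ) : (tw e z).re = z.re := by
  rcases Int.units_eq_one_or e with rfl | rfl
  · rw [tw_one]
  · rw [tw_neg_one]
    exact Complex.conj_re z

theorem Circ_im_tw (e : ℤˣ) (z : ℂ) : (tw e z).im = ((e : ℤ) : ℝ) * z.im := by
  rcases Int.units_eq_one_or e with rfl | rfl
  · simp [tw_one]
  · simp [tw_neg_one]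

theorem onRay_iff {g : Gam ℤ} (hg : g ∈ cp p ε) (u : Nz ℂ) :
    onRay p ((cw j).nz g u) ↔ onRay p u := by
  rw [Circ_onRay, Circ_onRay, Circ_nz_val, Circ_nu_cw hg]
  rcases Int.units_eq_one_or g.e with e | e <;> rw [e]
  · rw [tw_one]
  · rw [tw_neg_one, star_eq_iff_star_eq, star_one, eq_comm]

theorem ga_rayA : GA (cp p ε : Set (Gam ℤ)) (rayA p j) := by
  exact GA.sub ((ga_nz_cw j).mono (subset_univ _)) fun g hg u hu => (onRay_iff hg u).2 hu

theorem ga_secA : GA (cp p ε : Set (Gam ℤ)) (secA p j) := by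
  exact GA.sub ((ga_nz_cw j).mono (subset_univ _)) fun g hg u hu h => hu ((onRay_iff hg u).1 h)

theorem Circ_rayA_val {g : Gam ℤ} (hg : g ∈ cp p ε) (u : Rays p) :
    (rayA p j g u).1 = (cw j).nz g u.1 :=
  sub_val _ _ ((onRay_iff hg u.1).2 u.2)

theorem Circ_secA_val {g : Gam ℤ} (hg : g ∈ cp p ε) (u : Sec p) :
    (secA p j g u).1 = (cw j).nz g u.1 :=
  sub_val _ (fun u => ¬ onRay p u) fun h => u.2 ((onRay_iff hg u.1).1 h)

theorem secA_val {g : Gam ℤ} (hg : g ∈ cp p ε) (u : Sec p) :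
    (secA p j g u).1.1 = cw j g u.1.1 := by
  rw [Circ_secA_val hg, Circ_nz_val]

theorem Circ_oemb :
    OEmb (cp p ε : Set (Gam ℤ)) (secA p j) (cw j).nz (Subtype.val : Sec p → Nz ℂ) := by
  refine ⟨(Circ_open p).isOpenEmbedding_subtypeVal, fun g hg u => Circ_secA_val hg u, ?_⟩
  rintro g hg x ⟨u, hu⟩
  exact ⟨⟨x, fun h => u.2 (hu ▸ (onRay_iff hg x).2 h)⟩, rfl⟩

theorem Circ_eq_one {z : ℂ} (hz : ‖z‖ = 1) : z = 1 ↔ 1 - z.re = 0 := by
  refine ⟨fun h => by simp [h], fun h => ?_⟩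
  have h1 : z.re = 1 := by linarith
  have h2 := Complex.sq_norm z
  rw [hz, Complex.normSq_apply, h1] at h2
  exact Complex.ext h1 (by simpa using h2)

theorem Circ_re_le {z : ℂ} (hz : ‖z‖ = 1) : 0 ≤ 1 - z.re :=
  sub_nonneg.2 (hz ▸ Complex.re_le_norm z)

theorem Circ_arcsin {z : ℂ} (hz : ‖z‖ = 1) (h : 0 ≤ z.re) :
    Complex.exp (Real.arcsin z.im * Complex.I) = z := by
  have h1 := Complex.norm_mul_exp_arg_mul_I z
  rw [Complex.arg_of_re_nonneg h, hz, div_one] at h1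
  simpa using h1

/-- The rotation factor of the deformation. -/
noncomputable def Circ_rot (p : ℕ) (z : ℂ) (t : ℝ) : ℂ :=
  Complex.exp ((-(t * Real.arcsin (Circ_nu p z).im / p) : ℝ) * Complex.I)

theorem Circ_norm_rot (z : ℂ) (t : ℝ) : ‖Circ_rot p z t‖ = 1 :=
  Complex.norm_exp_ofReal_mul_I _

theorem Circ_rot_cw {g : Gam ℤ} (hg : g ∈ cp p ε) (z : ℂ) (t : ℝ) :
    Circ_rot p (cw j g z) t = tw g.e (Circ_rot p z t) := by
  rw [Circ_rot, Circ_rot, Circ_nu_cw hg, Circ_im_tw]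
  rcases Int.units_eq_one_or g.e with e | e <;> rw [e]
  · simp [tw_one]
  · rw [tw_neg_one]
    change _ = (starRingEnd ℂ) _
    rw [← Complex.exp_conj]
    simp [Real.arcsin_neg, neg_div]

theorem Circ_rot_one (hp : p ≠ 0) (u : Nz ℂ) (h : 0 ≤ (Circ_nu p u.1).re) :
    Circ_nu p (Circ_rot p u.1 1 * u.1) = 1 := by
  have hp' : (p : ℂ) ≠ 0 := Nat.cast_ne_zero.2 hp
  rw [Circ_nu_mul (Circ_norm_rot _ _), Circ_rot, ← Complex.exp_nat_mul]
  nth_rewrite 2 [← Circ_arcsin (Circ_norm_nu p u) h]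
  rw [← Complex.exp_add, ← Complex.exp_zero]
  congr 1
  push_cast
  field_simp
  ring

theorem sndr_circ (hp : p ≠ 0) :
    SNDR (cp p ε : Set (Gam ℤ)) (rayA p j) (cw j).nz (secA p j) Subtype.val Subtype.val := by
  let D : Nz ℂ × I → Nz ℂ := fun q => ⟨Circ_rot p q.1.1 q.2 * q.1.1,
    mul_ne_zero (Complex.exp_ne_zero _) q.1.2⟩
  have hD : Continuous D := by
    refine Continuous.subtype_mk (Continuous.mul ?_ (by fun_prop)) _
    have h1 : Continuous fun q : Nz ℂ × I => Real.arcsin (Circ_nu p q.1.1).im :=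
      Real.continuous_arcsin.comp (Complex.continuous_im.comp ((Circ_cont_nu p).comp continuous_fst))
    unfold Circ_rot
    fun_prop
  have hnJ := (nJ_pmap (niso_cw (M := ℤ) univ 0)).proper
  refine ⟨(Circ_closed p).isClosedEmbedding_subtypeVal, fun g hg u => Circ_rayA_val hg u,
    Circ_oemb, fun u => 1 - (Circ_nu p u.1).re, D,
    continuous_const.sub (Complex.continuous_re.comp (Circ_cont_nu p)),
    fun u => Circ_re_le (Circ_norm_nu p u), fun g hg u => ?_, ?_, ?_, ?_, fun u => ?_,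
    fun u hu => ?_, fun g hg u t => ?_⟩
  · simp only [Circ_nz_val, Circ_nu_cw hg, Circ_re_tw]
  · ext u
    rw [Subtype.range_coe_subtype]
    exact Circ_eq_one (Circ_norm_nu p u)
  · ext u
    rw [Subtype.range_coe_subtype]
    exact (not_congr (Circ_eq_one (Circ_norm_nu p u))).trans
      ⟨fun h => (Circ_re_le (Circ_norm_nu p u)).lt_of_ne' h, fun h => h.ne'⟩
  · refine isProperMap_of_comp_of_t2 hD hnJ.continuous ?_
    have h1 : nJ ∘ D = nJ ∘ Prod.fst := by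
      funext q
      apply Subtype.ext
      change ‖Circ_rot p q.1.1 q.2 * q.1.1‖ / (1 + ‖Circ_rot p q.1.1 q.2 * q.1.1‖) =
        ‖q.1.1‖ / (1 + ‖q.1.1‖)
      rw [norm_mul, Circ_norm_rot, one_mul]
    rw [h1]
    exact hnJ.comp proper_fst
  · apply Subtype.ext
    change Circ_rot p u.1 0 * u.1 = u.1
    simp [Circ_rot]
  · change 1 - (Circ_nu p (Circ_rot p u.1 1 * u.1)).re = 0
    rw [Circ_rot_one hp u (by linarith), Complex.one_re, sub_self]
  · apply Subtype.ext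
    rw [Circ_nz_val]
    change Circ_rot p ((cw j).nz g u).1 t * ((cw j).nz g u).1 = cw j g (Circ_rot p u.1 t * u.1)
    rw [Circ_nz_val, Circ_rot_cw hg, cw, cw, Gam_tw_mul]
    ring

theorem oemb_sec : OEmb (cp p ε : Set (Gam ℤ)) (secA p j) (cw j) fun u => u.1.1 := by
  exact (nz_oemb (niso_cw _ j)).comp Circ_oemb

theorem onRay_ray (p : ℕ) (s : J) : onRay p (ray s) := by
  have h : ((‖(ray s).1‖ : ℝ) : ℂ) = (ray s).1 := by
    rw [ThmA_norm_ray]
    rfl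
  rw [onRay, h, div_self (ray s).2, one_pow]

theorem Circ_coprime (hp : p.Prime) (hj : ¬ (p : ℤ) ∣ j) : ∃ x y : ℤ, x * p + y * j = 1 :=
  (Nat.prime_iff_prime_int.1 hp).irreducible.coprime_iff_not_dvd.2 hj

/-- Every root of unity is a value of a character that is trivial at `p`. -/
theorem Circ_exists (hp : p.Prime) (hj : ¬ (p : ℤ) ∣ j) (ε : Bool) {c : ℂ} (hc : c ^ p = 1) :
    ∃ g ∈ cp p ε, g.e = 1 ∧ ch g j = c := by
  obtain ⟨x, y, hxy⟩ := Circ_coprime hp hj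
  have h1 : ‖c‖ = 1 := by
    have h2 := congrArg norm hc
    rw [norm_pow, norm_one] at h2
    exact (pow_eq_one_iff_of_nonneg (norm_nonneg c) hp.ne_zero).1 h2
  obtain ⟨d, rfl⟩ : ∃ d : Circle, (d : ℂ) = c := ⟨⟨c, mem_sphere_zero_iff_norm.2 h1⟩, rfl⟩
  have hd : d ^ (p : ℤ) = 1 := by
    rw [zpow_natCast]
    exact Circle.coe_injective (by rw [Circle.coe_pow, hc, Circle.coe_one])
  refine ⟨⟨Circ_char (d ^ y), 1⟩, Circ_mem_cp.2 ⟨?_, fun _ => rfl⟩, rfl, ?_⟩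
  · change ((d ^ y) ^ (1 : ℤ)) ^ p = 1
    rw [zpow_one, ← zpow_natCast, ← zpow_mul, mul_comm, zpow_mul, hd, _root_.one_zpow]
  · change (((d ^ y) ^ j : Circle) : ℂ) = d
    congr 1
    rw [← zpow_mul, eq_sub_of_add_eq' hxy, zpow_sub, zpow_one, mul_comm x, zpow_mul, hd,
      _root_.one_zpow, inv_one, mul_one]

theorem Circ_stab (hp : p.Prime) (hj : ¬ (p : ℤ) ∣ j) {g : Gam ℤ} (hg : g ∈ cp p ε)
    (h : ch g j = 1) : g ∈ ctx (⊤ : AddSubgroup ℤ) ε := by
  obtain ⟨x, y, hxy⟩ := Circ_coprime hp hj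
  refine Circ_mem_top.2 ⟨?_, hg.2⟩
  rw [← hxy, AddChar.map_add_eq_mul, ← smul_eq_mul x, ← smul_eq_mul y, AddChar.map_zsmul_eq_zpow,
    AddChar.map_zsmul_eq_zpow, ch_eq_one.1 h, hg.1 _ (AddSubgroup.mem_zmultiples _),
    _root_.one_zpow, _root_.one_zpow, one_mul]

theorem slice_rays (hp : p.Prime) (hj : ¬ (p : ℤ) ∣ j) :
    Slice (cp p ε : Set (Gam ℤ)) (ctx (⊤ : AddSubgroup ℤ) ε) triv (rayA p j)
      fun s : J => ⟨ray s, onRay_ray p s⟩ := by
  have hv : ∀ g ∈ cp p ε, ∀ s : J,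
      (rayA p j g ⟨ray s, onRay_ray p s⟩).1.1 = ch g j * (ray s).1 := fun g hg s => by
    rw [Circ_rayA_val hg, ThmA_act]
  refine ⟨ctx_mono le_top ε, ?_, fun g hg s => Subtype.ext (Subtype.ext ?_), fun u => ?_,
    fun g hg s s' h => Circ_stab hp hj hg ?_⟩
  · exact Function.LeftInverse.isClosedEmbedding (f := fun u : Rays p => nJ u.1) nJ_ray
      ((nJ_pmap (niso_cw (M := ℤ) univ 0)).proper.continuous.comp continuous_subtype_val)
      (ray_closedEmb.continuous.subtype_mk _)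
  · rw [hv g (ctx_mono le_top ε hg), ch_eq_one.2 (hg.1 j trivial), one_mul, triv_apply]
  · obtain ⟨g, hg, -, h⟩ := Circ_exists hp hj ε u.2
    refine ⟨g, hg, nJ u.1, Subtype.ext (Subtype.ext ?_)⟩
    rw [hv g hg, ThmA_ray_nJ, h]
    exact (div_mul_cancel₀ _ (Circ_norm_ne u.1)).symm
  · have h1 := congrArg (fun u : Rays p => u.1.1) h
    simp only [hv g hg] at h1
    have h2 := congrArg norm h1
    rw [norm_mul, norm_ch, one_mul, ThmA_norm_ray, ThmA_norm_ray] at h2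
    have h3 : (ray s').1 = (ray s).1 := congrArg Complex.ofReal h2.symm
    rw [h3] at h1
    exact mul_right_cancel₀ (ray s).2 (h1.trans (one_mul _).symm)

theorem Circ_norm_sec (p : ℕ) (x s : ℝ) :
    ‖Complex.exp (x + 2 * Real.pi * Complex.I * s / p)‖ = Real.exp x := by
  have h : (x + 2 * Real.pi * Complex.I * s / p : ℂ) =
      x + ((2 * Real.pi * s / p : ℝ) : ℂ) * Complex.I := by
    push_cast
    ring
  rw [h, Complex.exp_add, norm_mul, Complex.norm_exp_ofReal_mul_I, Complex.norm_exp_ofReal, mul_one]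

theorem Circ_nu_sec (hp : p ≠ 0) (x s : ℝ) :
    Circ_nu p (Complex.exp (x + 2 * Real.pi * Complex.I * s / p)) =
      -Complex.exp (((2 * Real.pi * s - Real.pi : ℝ) : ℂ) * Complex.I) := by
  have hp' : (p : ℂ) ≠ 0 := Nat.cast_ne_zero.2 hp
  rw [Circ_nu, Circ_norm_sec, Complex.ofReal_exp, ← Complex.exp_sub, ← Complex.exp_nat_mul,
    ← mul_neg_one, ← Complex.exp_pi_mul_I, ← Complex.exp_add]
  congr 1
  push_cast
  field_simp
  ring

theorem Circ_arg_sec (hp : p ≠ 0) (x : ℝ) (s : J) :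
    Complex.arg (-Circ_nu p (Complex.exp (x + 2 * Real.pi * Complex.I * s.1 / p))) =
      2 * Real.pi * s.1 - Real.pi := by
  have h0 := Real.pi_pos
  rw [Circ_nu_sec hp, neg_neg, Complex.exp_mul_I]
  refine Complex.arg_cos_add_sin_mul_I ⟨?_, ?_⟩
  · nlinarith [s.2.1]
  · nlinarith [s.2.2]

/-- The first sector. -/
noncomputable def sec0 (hp : p ≠ 0) (q : ℝ × J) : Sec p :=
  ⟨⟨Complex.exp (q.1 + 2 * Real.pi * Complex.I * q.2.1 / p), Complex.exp_ne_zero _⟩, by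
    intro h
    have h1 := Circ_arg_sec hp q.1 q.2
    rw [Circ_onRay.1 h, Complex.arg_neg_one] at h1
    nlinarith [Real.pi_pos, q.2.2.2]⟩

theorem Circ_slit (u : Sec p) : -Circ_nu p u.1.1 ∈ Complex.slitPlane := by
  have h1 := Circ_norm_nu p u.1
  by_contra h
  rw [Complex.mem_slitPlane_iff, not_or, not_lt, not_not, Complex.neg_re, Complex.neg_im,
    neg_eq_zero, neg_nonpos] at h
  refine u.2 (Circ_onRay.2 ?_)
  rw [← Circ_arcsin h1 h.1, h.2]
  simp

/-- Coordinates on the sectors. -/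
noncomputable def Circ_co (u : Sec p) : ℝ × J :=
  (Real.log ‖u.1.1‖, ⟨Complex.arg (-Circ_nu p u.1.1) / (2 * Real.pi) + 1 / 2, by
    have h0 := Real.pi_pos
    have h1 := Complex.neg_pi_lt_arg (-Circ_nu p u.1.1)
    have h2 := (Complex.arg_le_pi _).lt_of_ne (Complex.slitPlane_arg_ne_pi (Circ_slit u))
    constructor
    · rw [← neg_lt_iff_pos_add, lt_div_iff₀ (by positivity)]
      linarith
    · rw [← lt_sub_iff_add_lt, div_lt_iff₀ (by positivity)]
      linarith⟩)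

theorem Circ_cont_co : Continuous (Circ_co : Sec p → ℝ × J) := by
  refine Continuous.prodMk (Continuous.log (by fun_prop) fun u => norm_ne_zero_iff.2 u.1.2)
    (Continuous.subtype_mk ((Continuous.div_const ?_ _).add continuous_const) _)
  exact continuous_iff_continuousAt.2 fun u => ContinuousAt.comp
    (f := fun u : Sec p => -Circ_nu p u.1.1) (Complex.continuousAt_arg (Circ_slit u))
    ((Circ_cont_nu p).comp continuous_subtype_val).neg.continuousAt

theorem Circ_co_sec0 (hp : p ≠ 0) (q : ℝ × J) : Circ_co (sec0 hp q) = q := by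
  refine Prod.ext ?_ (Subtype.ext ?_)
  · change Real.log ‖Complex.exp (q.1 + 2 * Real.pi * Complex.I * q.2.1 / p)‖ = q.1
    rw [Circ_norm_sec, Real.log_exp]
  · change Complex.arg (-Circ_nu p (Complex.exp (q.1 + 2 * Real.pi * Complex.I * q.2.1 / p))) /
      (2 * Real.pi) + 1 / 2 = q.2.1
    have h0 := Real.pi_pos
    rw [Circ_arg_sec hp]
    field_simp
    ring

theorem Circ_closedEmb_sec0 (hp : p ≠ 0) : IsClosedEmbedding (sec0 hp) :=
  Function.LeftInverse.isClosedEmbedding (Circ_co_sec0 hp) Circ_cont_co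
    (Continuous.subtype_mk (Continuous.subtype_mk (by fun_prop) _) _)

theorem Circ_secA_one {g : Gam ℤ} (hg : g ∈ cp p false) (u : Sec p) :
    (secA p j g u).1.1 = ch g j * u.1.1 := by
  rw [secA_val hg, cw, hg.2 rfl, tw_one]

theorem Circ_co_act {g : Gam ℤ} (hg : g ∈ cp p false) (u : Sec p) :
    Circ_co (secA p j g u) = Circ_co u := by
  refine Prod.ext ?_ (Subtype.ext ?_)
  · change Real.log ‖(secA p j g u).1.1‖ = Real.log ‖u.1.1‖
    rw [Circ_secA_one hg, norm_mul, norm_ch, one_mul]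
  · change Complex.arg (-Circ_nu p (secA p j g u).1.1) / (2 * Real.pi) + 1 / 2 =
      Complex.arg (-Circ_nu p u.1.1) / (2 * Real.pi) + 1 / 2
    rw [secA_val hg, Circ_nu_cw hg, hg.2 rfl, tw_one]

/-- A point of a sector differs from a point of the first sector by a root of unity. -/
theorem Circ_root (hp : p ≠ 0) (u : Sec p) :
    ∃ c : ℂ, c ^ p = 1 ∧ u.1.1 = c * (sec0 hp (Circ_co u)).1.1 := by
  have h0 := Real.pi_pos
  have h1 : ‖(sec0 hp (Circ_co u)).1.1‖ = ‖u.1.1‖ :=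
    (Circ_norm_sec p _ _).trans (Real.exp_log (norm_pos_iff.2 u.1.2))
  have h2 : Circ_nu p (sec0 hp (Circ_co u)).1.1 = Circ_nu p u.1.1 := by
    refine (Circ_nu_sec hp _ _).trans ?_
    have h3 : 2 * Real.pi * (Circ_co u).2.1 - Real.pi = Complex.arg (-Circ_nu p u.1.1) := by
      change 2 * Real.pi * (Complex.arg (-Circ_nu p u.1.1) / (2 * Real.pi) + 1 / 2) - Real.pi = _
      field_simp
      ring
    have h4 := Complex.norm_mul_exp_arg_mul_I (-Circ_nu p u.1.1)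
    rw [norm_neg, Circ_norm_nu, Complex.ofReal_one, one_mul] at h4
    rw [h3, h4, neg_neg]
  have h5 : u.1.1 = u.1.1 / (sec0 hp (Circ_co u)).1.1 * (sec0 hp (Circ_co u)).1.1 :=
    (div_mul_cancel₀ _ (sec0 hp (Circ_co u)).1.2).symm
  refine ⟨_, ?_, h5⟩
  have h6 : ‖u.1.1 / (sec0 hp (Circ_co u)).1.1‖ = 1 := by
    rw [norm_div, h1, div_self (norm_ne_zero_iff.2 u.1.2)]
  have h7 := Circ_nu_mul (p := p) h6 (sec0 hp (Circ_co u)).1.1
  rw [← h5, h2] at h7
  refine mul_right_cancel₀ ?_ (h7.symm.trans (one_mul _).symm)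
  rw [← norm_ne_zero_iff, Circ_norm_nu]
  exact one_ne_zero

theorem Circ_ch_eq (hp : p ≠ 0) {g g' : Gam ℤ} (hg : g ∈ cp p false) (hg' : g' ∈ cp p false)
    {x y : ℝ × J} (h : secA p j g (sec0 hp x) = secA p j g' (sec0 hp y)) : ch g j = ch g' j := by
  have h1 := congrArg Circ_co h
  rw [Circ_co_act hg, Circ_co_act hg', Circ_co_sec0, Circ_co_sec0] at h1
  subst h1
  have h2 := congrArg (fun u : Sec p => u.1.1) h
  simp only [Circ_secA_one hg, Circ_secA_one hg'] at h2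
  exact mul_right_cancel₀ (sec0 hp x).1.2 h2

theorem slice_sec0 (hp : p.Prime) (hj : ¬ (p : ℤ) ∣ j) :
    Slice (cp p false : Set (Gam ℤ)) (ctx (⊤ : AddSubgroup ℤ) false) triv (secA p j)
      (sec0 hp.ne_zero) := by
  refine ⟨ctx_mono le_top false, Circ_closedEmb_sec0 _, fun g hg x => ?_, fun u => ?_,
    fun g hg x y h => Circ_stab hp hj hg ?_⟩
  · rw [eq_one_of_mem_ctx_top hg, (ga_secA (ε := false)).one, triv_apply]
  · obtain ⟨c, hc, h⟩ := Circ_root hp.ne_zero u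
    obtain ⟨g, hg, -, rfl⟩ := Circ_exists hp hj false hc
    exact ⟨g, hg, _, Subtype.ext (Subtype.ext (h.trans (Circ_secA_one hg _).symm))⟩
  · rw [← (ga_secA (ε := false) (j := j)).one (sec0 _ y)] at h
    exact Circ_ch_eq _ hg (one_mem _) h

theorem exists_sectors (hp : p.Prime) (hj : ¬ (p : ℤ) ∣ j) :
    IsOpenEmbedding (sec0 hp.ne_zero) ∧ ∃ a : Fin p → Gam ℤ, (∀ k, a k ∈ cp p false) ∧
      (∀ k, IsClosedEmbedding (secA p j (a k) ∘ sec0 hp.ne_zero)) ∧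
      (∀ k, IsOpenEmbedding (secA p j (a k) ∘ sec0 hp.ne_zero)) ∧
      (∀ k l x y, secA p j (a k) (sec0 hp.ne_zero x) = secA p j (a l) (sec0 hp.ne_zero y) →
        k = l) ∧ ∀ u, ∃ k, u ∈ range (secA p j (a k) ∘ sec0 hp.ne_zero) := by
  have : NeZero p := ⟨hp.ne_zero⟩
  have hζ := Complex.isPrimitiveRoot_exp p hp.ne_zero
  have hex : ∀ k : Fin p, ∃ g ∈ cp p false, g.e = 1 ∧
      ch g j = Complex.exp (2 * Real.pi * Complex.I / p) ^ (k : ℕ) := fun k =>
    Circ_exists hp hj false (by rw [← pow_mul, mul_comm (k : ℕ), pow_mul, hζ.pow_eq_one, one_pow])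
  choose a ha _ hch using hex
  have hcl : ∀ k, IsClosedEmbedding (secA p j (a k) ∘ sec0 hp.ne_zero) := fun k =>
    Function.LeftInverse.isClosedEmbedding (f := Circ_co)
      (fun q => (Circ_co_act (ha k) _).trans (Circ_co_sec0 _ q)) Circ_cont_co
      ((ga_secA.continuous (ha k)).comp (Circ_closedEmb_sec0 _).continuous)
  have hinj : ∀ k l x y,
      secA p j (a k) (sec0 hp.ne_zero x) = secA p j (a l) (sec0 hp.ne_zero y) → k = l := by
    intro k l x y h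
    have h1 := Circ_ch_eq _ (ha k) (ha l) h
    rw [hch, hch] at h1
    exact Fin.ext (hζ.pow_inj k.2 l.2 h1)
  have hcov : ∀ u, ∃ k, u ∈ range (secA p j (a k) ∘ sec0 hp.ne_zero) := fun u => by
    obtain ⟨c, hc, h⟩ := Circ_root hp.ne_zero u
    obtain ⟨k, hk, rfl⟩ := hζ.eq_pow_of_pow_eq_one hc
    refine ⟨⟨k, hk⟩, Circ_co u, Subtype.ext (Subtype.ext ?_)⟩
    rw [Function.comp_apply, Circ_secA_one (ha _), hch]
    exact h.symm
  have hop : ∀ k, IsOpenEmbedding (secA p j (a k) ∘ sec0 hp.ne_zero) := fun k => by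
    refine ⟨(hcl k).isEmbedding, ?_⟩
    have h1 : range (secA p j (a k) ∘ sec0 hp.ne_zero) =
        (⋃ l ∈ {l | l ≠ k}, range (secA p j (a l) ∘ sec0 hp.ne_zero))ᶜ := by
      ext u
      simp only [mem_compl_iff, mem_iUnion, not_exists]
      constructor
      · rintro ⟨x, rfl⟩ l hl ⟨y, hy⟩
        exact hl (hinj l k y x hy)
      · intro h
        obtain ⟨l, hl⟩ := hcov u
        by_cases e : l = k
        · exact e ▸ hl
        · exact absurd hl (h l e)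
    rw [h1]
    exact ((toFinite _).isClosed_biUnion fun l _ => (hcl l).isClosed_range).isOpen_compl
  refine ⟨?_, a, ha, hcl, hop, hinj, hcov⟩
  have h0 : secA p j (a 0) ∘ sec0 hp.ne_zero = sec0 hp.ne_zero := by
    funext q
    refine Subtype.ext (Subtype.ext ?_)
    rw [Function.comp_apply, Circ_secA_one (ha _), hch, Fin.val_zero, pow_zero, one_mul]
  exact h0 ▸ hop 0

theorem exists_path_gam {g : Gam ℤ} (hg : g.e = 1) :
    ∃ c : I → Gam ℤ, Continuous c ∧ c 0 = 1 ∧ c 1 = g := by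
  obtain ⟨θ, hθ⟩ := Circle.exp_surjective (g.a 1)
  refine ⟨fun t => ⟨Circ_char (Circle.exp (t * θ)), 1⟩,
    Gam.continuous_iff.2 ⟨fun w => ?_, continuous_const⟩, Gam.ext ?_ rfl, Gam.ext ?_ hg.symm⟩
  · exact (Circle.exp.continuous.comp (by fun_prop)).zpow w
  · ext w
    simp [Circ_char_apply, Gam.one_a]
  · ext w
    rw [Circ_a g.a, ← hθ]
    simp [Circ_char_apply]

theorem Circ_onRay_two (u : Nz ℂ) : onRay 2 u ↔ u.1.im = 0 := by
  have h0 : 0 < ‖u.1‖ := norm_pos_iff.2 u.2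
  rw [onRay, div_pow, div_eq_one_iff_eq (pow_ne_zero 2 (Circ_norm_ne u)), ← Complex.ofReal_pow,
    Complex.sq_norm, Complex.normSq_apply]
  constructor
  · intro h
    have h1 := congrArg Complex.re h
    simp only [sq, Complex.mul_re, Complex.ofReal_re] at h1
    exact mul_self_eq_zero.1 (by linarith)
  · intro h
    apply Complex.ext <;> simp [sq, h]

/-- The upper half plane. -/
noncomputable def uhp (q : ℝ × J) : Sec 2 :=
  ⟨⟨⟨q.1, q.2.1 / (1 - q.2.1)⟩, by exact fun h => (ThmA_pos q.2).ne' (congrArg Complex.im h)⟩, by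
    exact fun h => (ThmA_pos q.2).ne' ((Circ_onRay_two _).1 h)⟩

/-- The stabiliser of the upper half plane. -/
noncomputable def Hs : Subgroup (Gam ℤ) where
  carrier := {g | ch g 1 = ((g.e : ℤ) : ℂ)}
  mul_mem' := by
    intro g h hg hh
    change ch (g * h) 1 = (((g.e * h.e : ℤˣ) : ℤ) : ℂ)
    rw [ch_mul, show ch g 1 = _ from hg, show ch h 1 = _ from hh, ← twR_apply, map_intCast,
      Units.val_mul, Int.cast_mul]
  one_mem' := by
    change ch (1 : Gam ℤ) 1 = (((1 : ℤˣ) : ℤ) : ℂ)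
    rw [ch_one, Units.val_one, Int.cast_one]
  inv_mem' := by
    intro g hg
    change (((g.a ^ (-(g.e : ℤ))) 1 : Circle) : ℂ) = ((g.e : ℤ) : ℂ)
    rw [AddChar.zpow_apply, Circle.coe_zpow, show (g.a 1 : ℂ) = _ from hg]
    rcases Int.units_eq_one_or g.e with e | e <;> simp [e]

theorem Circ_mem_Hs {g : Gam ℤ} : g ∈ Hs ↔ ch g 1 = ((g.e : ℤ) : ℂ) := Iff.rfl

theorem Circ_im_ne (u : Sec 2) : u.1.1.im ≠ 0 := fun h => u.2 ((Circ_onRay_two _).2 h)

/-- Coordinates on the half planes. -/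
noncomputable def Circ_co2 (u : Sec 2) : ℝ × J :=
  (u.1.1.re, nJ (⟨u.1.1.im, Circ_im_ne u⟩ : Nz ℝ))

theorem Circ_closedEmb_uhp : IsClosedEmbedding uhp := by
  refine Function.LeftInverse.isClosedEmbedding (f := Circ_co2) (fun q => ?_) ?_ ?_
  · refine Prod.ext rfl (Subtype.ext ?_)
    change ‖q.2.1 / (1 - q.2.1)‖ / (1 + ‖q.2.1 / (1 - q.2.1)‖) = q.2.1
    have h : 1 - q.2.1 ≠ 0 := (sub_pos.2 q.2.2.2).ne'
    rw [Real.norm_of_nonneg (ThmA_pos q.2).le]
    field_simp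
    ring
  · exact Continuous.prodMk (by fun_prop)
      ((nJ_pmap (niso_sg (M := ℤ) univ)).proper.continuous.comp
        (Continuous.subtype_mk (by fun_prop) _))
  · refine Continuous.subtype_mk (Continuous.subtype_mk ?_ _) _
    exact Complex.equivRealProdCLM.symm.continuous.comp
      (f := fun q : ℝ × J => (q.1, q.2.1 / (1 - q.2.1))) (continuous_fst.prodMk
        (Continuous.div (by fun_prop) (by fun_prop) fun q => (sub_pos.2 q.2.2.2).ne'))

theorem Circ_uhp_range {z : ℂ} (h : 0 < z.im) : ∃ q, (uhp q).1.1 = z := by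
  refine ⟨(z.re, nJ (⟨z.im, h.ne'⟩ : Nz ℝ)), Complex.ext rfl ?_⟩
  change ‖z.im‖ / (1 + ‖z.im‖) / (1 - ‖z.im‖ / (1 + ‖z.im‖)) = z.im
  rw [Real.norm_of_nonneg h.le]
  field_simp
  ring

theorem Circ_uhp_pos (q : ℝ × J) : 0 < (uhp q).1.1.im := ThmA_pos q.2

theorem Circ_sign {g : Gam ℤ} (hg : g ∈ cp 2 ε) : ch g 1 = 1 ∨ ch g 1 = -1 :=
  sq_eq_one_iff.1 (Circ_ch_pow hg 1)

theorem Circ_odd (hj : ¬ (2 : ℤ) ∣ j) {g : Gam ℤ} (hg : g ∈ cp 2 ε) : ch g j = ch g 1 := by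
  rw [Circ_ch]
  rcases Circ_sign hg with h | h <;> rw [h]
  · exact _root_.one_zpow j
  · exact Odd.neg_one_zpow (Int.not_even_iff_odd.1 fun h1 => hj h1.two_dvd)

theorem Circ_Hs_sub : (Hs : Set (Gam ℤ)) ⊆ cp 2 true := fun g hg => by
  refine Circ_mem_cp.2 ⟨Circle.coe_injective ?_, fun h => by simp at h⟩
  rw [Circle.coe_pow, show (g.a 1 : ℂ) = _ from hg]
  rcases Int.units_eq_one_or g.e with e | e <;> simp [e]

theorem slice_uhp (hj : ¬ (2 : ℤ) ∣ j) :
    Slice (cp 2 true : Set (Gam ℤ)) Hs ((sa sg).prod triv) (secA 2 j) uhp := by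
  refine ⟨Circ_Hs_sub, Circ_closedEmb_uhp, fun g hg x => Subtype.ext (Subtype.ext ?_), fun u => ?_,
    fun g hg x y h => ?_⟩
  · rw [secA_val (Circ_Hs_sub hg), cw, Circ_odd hj (Circ_Hs_sub hg), Circ_mem_Hs.1 hg]
    rcases Int.units_eq_one_or g.e with e | e <;> apply Complex.ext <;>
      simp [e, uhp, sg, Circ_re_tw, Circ_im_tw]
  · rcases (Circ_im_ne u).lt_or_gt with h | h
    · obtain ⟨g, hg, he, hch⟩ := Circ_exists Nat.prime_two hj true (c := -1) (by simp)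
      obtain ⟨q, hq⟩ := Circ_uhp_range (z := -u.1.1) (by simpa using h)
      refine ⟨g, hg, q, Subtype.ext (Subtype.ext ?_)⟩
      rw [secA_val hg, cw, hch, he, tw_one, hq, neg_one_mul, neg_neg]
    · obtain ⟨q, hq⟩ := Circ_uhp_range h
      refine ⟨1, one_mem _, q, Subtype.ext (Subtype.ext ?_)⟩
      rw [(ga_secA (ε := true)).one, hq]
  · have h1 := Circ_uhp_pos y
    have h2 := Circ_uhp_pos x
    rw [← h, secA_val hg, cw, Circ_odd hj hg] at h1
    refine Circ_mem_Hs.2 ?_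
    rcases Circ_sign hg with h3 | h3 <;> rcases Int.units_eq_one_or g.e with e | e <;>
      simp [h3, e, Circ_im_tw] at h1 ⊢ <;> linarith

theorem slice_uhp' :
    Slice (ctx (⊤ : AddSubgroup ℤ) true : Set (Gam ℤ)) (ctx (⊤ : AddSubgroup ℤ) false)
      ((sa sg).prod triv) (secA 2 j) uhp := by
  have hv : ∀ g ∈ ctx (⊤ : AddSubgroup ℤ) true, ∀ u : Sec 2,
      (secA 2 j g u).1.1 = tw g.e u.1.1 := fun g hg u => by
    rw [secA_val (ctx_mono le_top true hg), cw, ch_eq_one.2 (hg.1 j trivial), one_mul]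
  refine ⟨ctx_false_sub _ _, Circ_closedEmb_uhp, fun g hg x => ?_, fun u => ?_,
    fun g hg x y h => ⟨hg.1, fun _ => ?_⟩⟩
  · rw [eq_one_of_mem_ctx_top hg, (ga_secA (ε := true)).one, ((ga_sa ga_sg).prod GA.triv).one]
  · rcases (Circ_im_ne u).lt_or_gt with h | h
    · obtain ⟨q, hq⟩ := Circ_uhp_range (z := star u.1.1) (by simpa using h)
      have hg : (⟨1, -1⟩ : Gam ℤ) ∈ ctx (⊤ : AddSubgroup ℤ) true :=
        ⟨fun _ _ => rfl, fun h => by simp at h⟩
      refine ⟨_, hg, q, Subtype.ext (Subtype.ext ?_)⟩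
      rw [hv _ hg, tw_neg_one, hq, star_star]
    · obtain ⟨q, hq⟩ := Circ_uhp_range h
      refine ⟨1, one_mem _, q, Subtype.ext (Subtype.ext ?_)⟩
      rw [(ga_secA (ε := true)).one, hq]
  · have h1 := Circ_uhp_pos y
    have h2 := Circ_uhp_pos x
    rw [← h, hv g hg, Circ_im_tw] at h1
    refine (Int.units_eq_one_or g.e).resolve_right fun e => ?_
    simp [e] at h1
    linarith

theorem exists_conj_Hs : ∃ t : Gam ℤ,
    (∀ g ∈ (ctx (⊤ : AddSubgroup ℤ) true : Set (Gam ℤ)), t⁻¹ * g * t ∈ (Hs : Set (Gam ℤ))) ∧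
    ∀ g ∈ (Hs : Set (Gam ℤ)), t * g * t⁻¹ ∈ (ctx (⊤ : AddSubgroup ℤ) true : Set (Gam ℤ)) := by
  obtain ⟨d, hd⟩ : ∃ d : Circle, (d : ℂ) = Complex.I :=
    ⟨⟨Complex.I, mem_sphere_zero_iff_norm.2 Complex.norm_I⟩, rfl⟩
  obtain ⟨t, he, ht⟩ : ∃ t : Gam ℤ, t.e = 1 ∧ ch t 1 = Complex.I :=
    ⟨⟨Circ_char d, 1⟩, rfl, by rw [ch, Circ_char_apply, zpow_one, hd]⟩
  have ht' : ch t⁻¹ 1 = -Complex.I := by
    have h := ch_mul t⁻¹ t 1
    rw [inv_mul_cancel, ch_one, Gam.inv_e, he, tw_one, ht] at h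
    rw [← Complex.inv_I]
    exact eq_inv_of_mul_eq_one_left h.symm
  refine ⟨t, fun g hg => Circ_mem_Hs.2 ?_, fun g hg => Circ_mem_top.2 ⟨ch_eq_one.1 ?_, by simp⟩⟩
  · rw [ch_mul, ch_mul, ht, ht', ch_eq_one.2 (hg.1 1 trivial)]
    rcases Int.units_eq_one_or g.e with e | e <;>
      simp [Gam.mul_e, Gam.inv_e, he, e, tw_one, tw_neg_one]
  · rw [ch_mul, ch_mul, ht, ht', Circ_mem_Hs.1 hg]
    rcases Int.units_eq_one_or g.e with e | e <;>
      simp [Gam.mul_e, he, e, tw_one, tw_neg_one]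

end RB
end

-- merged part: Pool.Agent.Work.MP_666b5d_gt.LemS
section
/-!
# Classes killed by an Euler class of a group of prime order

Proof plan for `lemS`.  By `src_exact` for `(sndr_zero _ α).prodR triv` and `pull_suJ`,
`suJ j y = push c` with `c` on `(X × Nz ℂ) × J`.  Let `c₀` be the pull-back of `res c` along the ray,
a class for `ctx ⊤ ε` on `(X × J) × J`, and `c₁ = c - pull nJ (infl c₀)` (`infl_ctx`).  The restriction
of `c₁` to the rays vanishes by `ind_inj` for `slice_rays` (with `Slice.prodL`, `Slice.prodR`),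
`res_pull`, `res_infl`, `infl_self`, `pull_pull`, `nJ_ray` and additivity.  So `c₁ = push c'`
(`sndr_circ`).  Finally `push (pull nJ _) = 0`: conjugate `collp` (for `X × J`) by the swap
homeomorphisms (`pmap_swapJ`, `pull_push`, `pull_inv`).
`lemS_cx_inj`, `lemS_re_inj`, `lemS_re_res`: `c'` (resp. `res c'`) vanishes by `ind_inj` for
`slice_sec0`, `slice_uhp`, `slice_uhp'` and `van_five` (and `van_conj` with `exists_conj_Hs`).
`lemS_cx_div`: `suJ (res y) = push (res c')`; decompose `res c'` with `sum_push_pull` along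
`exists_sectors`; on representatives the `k`-th term is the translate `BM.tl` by `a k` of the term for
`sec0`, so all terms agree (`cl_tl`, `exists_path_gam`); use `suJ_surj`, `suJ_add`, `suJ_inj`.
-/

open Set Filter Topology
open scoped unitInterval

namespace RB

open Act

universe u

section Gen

variable {S : Type} {e : S → ℤˣ} {A A' Z W Y : Type} [TopologicalSpace A] [TopologicalSpace A']
  [TopologicalSpace Z] [TopologicalSpace W] [TopologicalSpace Y] [LC A] [LC A'] [LC Z] [LC W] [LC Y]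
  {sy : Sys.{u} S e} {𝒢 ℋ : Set S} {αA : Act S A} {α' : Act S A'} {γ : Act S Z} {δ : Act S W}
  {β : Act S Y} {d : Y → ℤ}

theorem LemS_pull_sub {h : A' → A} (hh : PMap 𝒢 α' αA h)
    (x y : E sy 𝒢 (αA.prod (triv : Act S J)) β d) :
    pull (hh.prodR triv) (x - y) = pull (hh.prodR triv) x - pull (hh.prodR triv) y :=
  (AddMonoidHom.mk' (pull (hh.prodR triv)) (pull_add hh)).map_sub x y

theorem LemS_push_sum {ν : Type} [Fintype ν] {k : A' → A} (hk : OEmb 𝒢 α' αA k)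
    (x : ν → E sy 𝒢 (α'.prod (triv : Act S J)) β d) :
    push (hk.prodR triv) (∑ i, x i) = ∑ i, push (hk.prodR triv) (x i) :=
  map_sum (AddMonoidHom.mk' (push (hk.prodR triv)) (push_add hk)) x _

theorem LemS_collp {V : Type} [NormedAddCommGroup V] [NormedSpace ℝ V] [ProperSpace V]
    {ω : Act S V} (h : NIso 𝒢 ω)
    (z : E sy 𝒢 ((αA.prod (triv : Act S J)).prod (triv : Act S J)) β d) :
    push (((nz_oemb h).prodL αA).prodR triv)
      (pull (((nJ_pmap h).prodL αA).prodR triv) z) = 0 := by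
  have s1 : PMap 𝒢 ((αA.prod ω).prod (triv : Act S J)) ((αA.prod (triv : Act S J)).prod ω)
      (Sys_swap A V J) := PMap.homeo _ fun _ _ _ => rfl
  have s2 : PMap 𝒢 ((αA.prod ω.nz).prod (triv : Act S J)) ((αA.prod (triv : Act S J)).prod ω.nz)
      (Sys_swap A (Nz V) J) := PMap.homeo _ fun _ _ _ => rfl
  have s3 : PMap 𝒢 ((αA.prod (triv : Act S J)).prod (triv : Act S J))
      ((αA.prod (triv : Act S J)).prod (triv : Act S J))
      (Sys_swap A J J) := PMap.homeo _ fun _ _ _ => rfl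
  have h1 := congrArg (pull s1) (collp (α := αA.prod (triv : Act S J)) h (pull s3 z))
  rw [pull_zero, pull_push s1 _ s2 (((nz_oemb h).prodL αA).prodR triv) (fun _ => rfl) ?_,
    pull_pull _ s2 (((nJ_pmap h).prodL _).comp s2) (fun _ => rfl),
    pull_pull s3 _ (((nJ_pmap h).prodL αA).prodR triv) (fun _ => rfl)] at h1
  · exact h1
  · rintro ⟨⟨a, v⟩, s⟩ ⟨⟨q, w⟩, hq⟩
    have h2 : w.1 = v := congrArg Prod.snd hq
    exact ⟨((a, w), s), Prod.ext (Prod.ext rfl h2) rfl⟩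

theorem LemS_tl [Group S] [TopologicalSpace S] [IsTopologicalGroup S] (hs : sy.Grp)
    (hδ : GA univ δ) (hβ : GA univ β) (hd : ∀ g y, d (β g y) = d y) (hsub : ℋ ⊆ 𝒢)
    (hℋ : ∀ g ∈ ℋ, g = 1) {c : I → S} (hc : Continuous c) (h0 : c 0 = 1) (ht : c 1 ∈ 𝒢)
    {i₀ i₁ : A → Z} (p₀ : PMap ℋ αA γ i₀) (p₁ : PMap ℋ αA γ i₁) {k₀ k₁ : A → W}
    (o₀ : OEmb ℋ αA δ k₀) (o₁ : OEmb ℋ αA δ k₁) (ek : ∀ a, δ (c 1) (k₀ a) = k₁ a)
    (ei : ∀ a, γ (c 1) (i₀ a) = i₁ a) (x : E sy 𝒢 γ β d) :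
    push o₁ (pull p₁ (res hsub x)) = push o₀ (pull p₀ (res hsub x)) := by
  obtain ⟨L, f, hf, rfl⟩ := cl_surj x
  rw [res_cl, pull_cl, pull_cl, push_cl, push_cl]
  have hG := ((hf.mono hsub).pre (p₀.prodR (sy.bα L))).ext0 (o₀.prodR (sy.bα L))
  have hG' := gd_tl (ℋ := ℋ) hs hδ hβ hd (t := c 1) (fun g hg => by
    rw [hℋ g hg, mul_one, inv_mul_cancel, ← hℋ g hg]; exact hg) hG
  refine Eq.trans (cl_congr ?_) (cl_tl hs hδ hβ hd c hc h0 (fun g hg t => by
    rw [hℋ g hg, mul_one, one_mul]) hG hG')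
  rintro ⟨w, b⟩
  have inv1 : ∀ w, δ (c 1)⁻¹ (δ (c 1) w) = w := fun w => by
    rw [SysF_mul hδ, inv_mul_cancel, hδ.one]
  have inv2 : ∀ w, δ (c 1) (δ (c 1)⁻¹ w) = w := fun w => by
    rw [SysF_mul hδ, mul_inv_cancel, hδ.one]
  have inv3 : sy.bα L (c 1) (sy.bα L (c 1)⁻¹ b) = b := by
    rw [SysF_mul (hs.b L), mul_inv_cancel, (hs.b L).one]
  change _ = ((BM.ext0 _ _ (o₀.prodR (sy.bα L)).emb).f (δ (c 1)⁻¹ w, sy.bα L (c 1)⁻¹ b)).map _
  by_cases hw : w ∈ range k₁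
  · obtain ⟨a, rfl⟩ := hw
    rw [SysF_j, ← ek, inv1, SysF_j, BM.pre_f, BM.pre_f, ← hf.eqv _ ht]
    congr 1
    exact Prod.ext (ei a).symm inv3.symm
  · rw [SysF_not _ _ hw, SysF_not]
    · rfl
    · rintro ⟨a, ha⟩
      exact hw ⟨a, by rw [← ek, ha, inv2]⟩

end Gen

variable {X : Type} [TopologicalSpace X] [LC X] {α : Act (Gam ℤ) X} {p : ℕ} {ε : Bool} {j : ℤ}
  {n n' : ℤ}

theorem LemS_ray (ε : Bool) (j : ℤ) :
    PMap (ctx (⊤ : AddSubgroup ℤ) ε : Set (Gam ℤ)) triv (cw j).nz ray := by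
  refine ⟨ray_closedEmb.isProperMap, fun g hg s => Subtype.ext ?_⟩
  rw [ThmA_act, ch_eq_one.2 (hg.1 j trivial), one_mul, triv_apply]

theorem lemS (hα : SgnOnly α) (hp : p.Prime) (hj : ¬ (p : ℤ) ∣ j) (h : n' = n + 1)
    {y : E0 (cp p ε : Set (Gam ℤ)) (α.prod (triv : Act (Gam ℤ) J)) n} (hy : m1 j h y = 0) :
    ∃ c' : E0 (cp p ε : Set (Gam ℤ)) ((α.prod (secA p j)).prod (triv : Act (Gam ℤ) J)) n',
      suJ j h y = push ((oemb_sec.prodL α).prodR triv) c' := by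
  have hc := niso_cw (cp p ε : Set (Gam ℤ)) j
  have hz := sndr_zero hc α
  obtain ⟨c, hc₁⟩ := src_exact (hz.prodR (triv : Act (Gam ℤ) J)) (suJ j h y)
    ((pull_suJ j h hz.pmap y).trans hy)
  have hsub : (ctx (⊤ : AddSubgroup ℤ) ε : Set (Gam ℤ)) ⊆ cp p ε := ctx_mono le_top ε
  have hR := ((LemS_ray ε j).prodL α).prodR (triv : Act (Gam ℤ) J)
  have hI := infl_ctx ((hα.prod (SgnOnly.triv (X := J))).prod (SgnOnly.triv (X := J)))
    (SgnOnly.triv (X := Unit)) (AddSubgroup.zmultiples (p : ℤ)) ε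
  have hN := (nJ_pmap hc).prodL α
  have hC := (sndr_circ (ε := ε) (j := j) hp.ne_zero).prodL α
  have hga : GA (cp p ε : Set (Gam ℤ)) α := hα.ga.mono (subset_univ _)
  have S := ((slice_rays (ε := ε) hp hj).prodL hga).prodR (GA.triv (X := J))
  have h1 : pull (hC.pmap.prodR triv) c = pull (hC.pmap.prodR triv)
      (pull (hN.prodR triv) (infl hI (pull hR (res hsub c)))) := by
    refine ind_inj mu_grp S (isCompact_ctx _ _) ((hga.prod ga_rayA).prod GA.triv) GA.triv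
      (fun _ _ _ => rfl) ?_
    rw [res_pull, res_pull, res_pull, pull_pull _ S.pmap hR (fun _ => rfl),
      pull_pull _ S.pmap hR (fun _ => rfl), pull_inv _ hR
        (fun q => Prod.ext (Prod.ext rfl (nJ_ray q.1.2)) rfl), res_infl, infl_self]
  obtain ⟨c', hc'⟩ := src_exact (hC.prodR (triv : Act (Gam ℤ) J))
    (c - pull (hN.prodR triv) (infl hI (pull hR (res hsub c))))
    ((LemS_pull_sub hC.pmap _ _).trans (sub_eq_zero.2 h1))
  refine ⟨c', ?_⟩
  rw [hc₁, sub_eq_iff_eq_add.1 hc']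
  refine (push_add hz.hj _ _).trans ?_
  rw [show push (hz.hj.prodR triv) (pull (hN.prodR triv) (infl hI (pull hR (res hsub c)))) = 0 from
    LemS_collp hc _, add_zero]
  exact push_push (hz.hj.prodR triv) (hC.hj.prodR triv) ((oemb_sec.prodL α).prodR triv)
    (fun _ => rfl) c'

theorem LemS_suJ_nsmul {𝒢 : Set (Gam ℤ)} (h : n' = n + 1) (k : ℕ)
    (x : E0 𝒢 (α.prod (triv : Act (Gam ℤ) J)) n) : suJ j h (k • x) = k • suJ j h x :=
  map_nsmul (AddMonoidHom.mk' (suJ (𝒢 := 𝒢) (α := α) j h) (suJ_add (𝒢 := 𝒢) (α := α) j h)) k x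

theorem lemS_cx_div (hα : SgnOnly α) (hp : p.Prime) (hj : ¬ (p : ℤ) ∣ j) (h : n' = n + 1)
    {y : E0 (cp p false : Set (Gam ℤ)) (α.prod (triv : Act (Gam ℤ) J)) n} (hy : m1 j h y = 0) :
    ∃ y', res (ctx_mono le_top false) y = p • y' := by
  obtain ⟨c', hc'⟩ := lemS hα hp hj h hy
  obtain ⟨ho0, a, ha, hcl, hop, hdis, hcov⟩ := exists_sectors hp hj
  have hsub : (ctx (⊤ : AddSubgroup ℤ) false : Set (Gam ℤ)) ⊆ cp p false := ctx_mono le_top false
  have hone : ∀ g ∈ (ctx (⊤ : AddSubgroup ℤ) false : Set (Gam ℤ)), g = 1 :=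
    fun g hg => eq_one_of_mem_ctx_top hg
  have hs1 : ∀ u, secA p j 1 u = u := (ga_secA (ε := false)).one
  have mkP : ∀ i : ℝ × J → Sec p, IsClosedEmbedding i →
      PMap (ctx (⊤ : AddSubgroup ℤ) false : Set (Gam ℤ)) triv (secA p j) i := fun i hi =>
    ⟨hi.isProperMap, fun g hg x => by rw [hone g hg, hs1, triv_apply]⟩
  have mkO : ∀ i : ℝ × J → Sec p, IsOpenEmbedding i →
      OEmb (ctx (⊤ : AddSubgroup ℤ) false : Set (Gam ℤ)) triv (secA p j) i := fun i hi =>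
    ⟨hi, fun g hg x => by rw [hone g hg, hs1, triv_apply], fun g hg x hx => by
      rwa [hone g hg, hs1] at hx⟩
  have hO := ((oemb_sec (p := p) (ε := false) (j := j)).mono hsub).prodL α
  have P₀ := (mkP _ (slice_sec0 hp hj).emb).prodL α
  have O₀ := (mkO _ ho0).prodL α
  have P := fun k => (mkP _ (hcl k)).prodL α
  have O := fun k => (mkO _ (hop k)).prodL α
  have hsum := sum_push_pull P O
    (fun k l x x' hx => hdis k l x.2 x'.2 (congrArg Prod.snd hx))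
    (fun x => (hcov x.2).imp fun k ⟨q, hq⟩ => ⟨(x.1, q), Prod.ext rfl hq⟩) (res hsub c')
  obtain ⟨y', hy'⟩ := suJ_surj j h
    (push ((hO.comp O₀).prodR triv) (pull (P₀.prodR triv) (res hsub c')))
  refine ⟨y', suJ_inj j h ?_⟩
  rw [LemS_suJ_nsmul, hy', ← res_suJ, hc', res_push]
  refine (congrArg (push (hO.prodR triv)) hsum).trans ?_
  rw [LemS_push_sum hO, Finset.sum_congr rfl (g := fun _ =>
    push ((hO.comp O₀).prodR triv) (pull (P₀.prodR triv) (res hsub c'))), Finset.sum_const,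
    Finset.card_univ, Fintype.card_fin]
  intro k _
  refine (push_push (hO.prodR triv) ((O k).prodR triv) ((hO.comp (O k)).prodR triv)
    (fun _ => rfl) _).trans ?_
  have he : (a k).e = 1 := (ha k).2 rfl
  obtain ⟨c, hc, h0, h1⟩ := exists_path_gam he
  have hx : ∀ x, α (a k) x = x := fun x => by
    rw [hα.eq (a k) 1 he, hα.ga.one]
  refine LemS_tl mu_grp ((hα.ga.prod (ga_cw j)).prod GA.triv) GA.triv (fun _ _ => rfl) hsub hone
    hc h0 (h1 ▸ ha k) _ _ _ _ (fun q => ?_) (fun q => ?_) c'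
  · rw [h1]
    exact Prod.ext (Prod.ext (hx _) (secA_val (ha k) _).symm) rfl
  · rw [h1]
    exact Prod.ext (Prod.ext (hx _) rfl) rfl

/-- The plane with the sign action. -/
abbrev sg2 : Act (Gam ℤ) (ℝ × ℝ) := (sa sg).prod (sa sg)

theorem LemS_sg2 : SgnOnly sg2 := sgnOnly_sg.prod sgnOnly_sg

theorem LemS_van {𝒦 ℋ : Subgroup (Gam ℤ)} (hc : IsCompact (𝒦 : Set (Gam ℤ)))
    (hga : GA (𝒦 : Set (Gam ℤ)) (secA p j)) {γ : Act (Gam ℤ) (ℝ × J)} {i : ℝ × J → Sec p}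
    (S : Slice (𝒦 : Set (Gam ℤ)) ℋ γ (secA p j) i)
    (hγ : ∀ g ∈ (ℋ : Set (Gam ℤ)), ∀ q, γ g q = ((sa sg).prod triv) g q) (h : n' = n + 2)
    (hv : ∀ x : E0 (ℋ : Set (Gam ℤ)) (sa sg) n, x = 0)
    (c : E0 (𝒦 : Set (Gam ℤ)) ((sg2.prod (secA p j)).prod (triv : Act (Gam ℤ) J)) n') :
    c = 0 := by
  have hg : GA (𝒦 : Set (Gam ℤ)) sg2 := LemS_sg2.ga.mono (subset_univ _)
  refine ind_inj mu_grp ((S.prodL hg).prodR (GA.triv (X := J))) hc
    ((hg.prod hga).prod GA.triv) GA.triv (fun _ _ _ => rfl) ?_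
  rw [res_zero, pull_zero]
  exact van_five (γ := sg2.prod γ) (fun g hg q => Prod.ext rfl (hγ g hg q.2)) h hv _

theorem lemS_cx_inj (hp : p.Prime) (hj : ¬ (p : ℤ) ∣ j) (h : n' = n + 1)
    (hv : ∀ x : E0 (ctx (⊤ : AddSubgroup ℤ) false : Set (Gam ℤ)) (sa sg) n, x = 0)
    {y : E0 (cp p false : Set (Gam ℤ)) (sg2.prod (triv : Act (Gam ℤ) J)) n'}
    (hy : m1 j rfl y = 0) : y = 0 := by
  obtain ⟨c', hc'⟩ := lemS LemS_sg2 hp hj rfl hy
  have h0 := LemS_van (isCompact_ctx _ _) ga_secA (slice_sec0 hp hj) (fun g hg q => by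
    rw [eq_one_of_mem_ctx_top hg, triv_apply]
    exact ((sgnOnly_sg.prod (SgnOnly.triv (X := J))).ga.one q).symm)
    (by rw [h]; ring) hv c'
  refine suJ_inj j rfl ?_
  rw [hc', h0, push_zero, suJ_zero]

theorem lemS_re_inj (hj : ¬ (2 : ℤ) ∣ j) (h : n' = n + 1)
    (hv : ∀ x : E0 (ctx (⊤ : AddSubgroup ℤ) true : Set (Gam ℤ)) (sa sg) n, x = 0)
    {y : E0 (cp 2 true : Set (Gam ℤ)) (sg2.prod (triv : Act (Gam ℤ) J)) n'}
    (hy : m1 j rfl y = 0) : y = 0 := by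
  obtain ⟨c', hc'⟩ := lemS LemS_sg2 Nat.prime_two (by exact_mod_cast hj) rfl hy
  obtain ⟨t, h₁, h₂⟩ := exists_conj_Hs
  have h0 := LemS_van (isCompact_ctx _ _) ga_secA (slice_uhp hj) (fun _ _ _ => rfl)
    (by rw [h]; ring)
    (van_conj mu_grp sgnOnly_sg.ga GA.triv (fun _ _ => rfl) t h₁ h₂ hv) c'
  refine suJ_inj j rfl ?_
  rw [hc', h0, push_zero, suJ_zero]

theorem lemS_re_res (hj : ¬ (2 : ℤ) ∣ j) (h : n' = n + 1)
    (hv : ∀ x : E0 (ctx (⊤ : AddSubgroup ℤ) false : Set (Gam ℤ)) (sa sg) n, x = 0)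
    {y : E0 (cp 2 true : Set (Gam ℤ)) (sg2.prod (triv : Act (Gam ℤ) J)) n'}
    (hy : m1 j rfl y = 0) : res (ctx_mono le_top true) y = 0 := by
  obtain ⟨c', hc'⟩ := lemS LemS_sg2 Nat.prime_two (by exact_mod_cast hj) rfl hy
  have hsub : (ctx (⊤ : AddSubgroup ℤ) true : Set (Gam ℤ)) ⊆ cp 2 true := ctx_mono le_top true
  have h0 := LemS_van (isCompact_ctx _ _) (ga_secA.mono hsub) (slice_uhp' (j := j))
    (fun _ _ _ => rfl) (by rw [h]; ring) hv (res hsub c')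
  refine suJ_inj j rfl ?_
  rw [← res_suJ, hc', res_push, h0, push_zero, suJ_zero]

end RB
end

-- merged part: Pool.Agent.Work.MP_666b5d_gt.Van
section
/-!
# Vanishing with coefficients in Grassmannians

Proof hints.  `absb_triv_inj`: for a representative `f` with values `(q, (y, z))` compute
`reg (sm (absb x))`: it is represented at the level `(ι ⊕ ν, κ ⊕ ν)` by
`(x, v) ↦ (q ⊕ (1, z), (y, v₂))`.  The rotation of the target
`(q ⊕ (1, c v₂' + s z), (y, c z - s v₂'))`, `v₂' = - v₂`, joins it to `(q ⊕ (1, - v₂), (y, z))`, which is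
the transition of `f` along `(fromRows 1 0, fromRows 1 0, fromBlocks 0 0 0 (-1))` (`cl_mor`).  (`rp 0`
and `sa cj` agree; move between them with `pull` along the identity or `Good.congr`.)
`cellCl_van`: `van_empty`, `van_homeoY`, `tgt_exact` with `TNDR.prodL`, `TNDR.via`; a locally
constant function on `Y × (ν → ℂ)` does not depend on the second variable.
`van_grB`: induct on the cardinality of `κ`; split off the indices with the weight of a chosen index
(`GrB κ u ≃ₜ Gr κ₁ × GrB κ₂ u`), and cut `Gr κ₁` into the finitely many clopen pieces of constant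
rank (`tndr_clopen`, `rk_locallyConstant`), each homeomorphic to `XS ℂ κ₁ Empty Empty n`.
-/

open Set Filter Topology Matrix
open scoped unitInterval

namespace RB

open Act

variable {M : Type} [AddCommGroup M] {X Y : Type} [TopologicalSpace X] [TopologicalSpace Y] [LC X]
  [LC Y] {𝒢 : Set (Gam M)} {α : Act (Gam M) X}

theorem Van_rp0 {ν : Type} : (rp fun _ : ν => (0 : M)) = sa cj := by
  funext g z i
  change ch g 0 * tw g.e (z i) = tw g.e z i
  rw [ch_zero, one_mul, XS_tw_pi]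

theorem pmap_triv {ν : Type} [Fintype ν] [DecidableEq ν] (β : Act (Gam M) Y) :
    PMap 𝒢 (β.prod (sa cj)) ((ea fun _ : ν => (0 : M)).prod β)
      fun p : Y × (ν → ℂ) => (Ea.full p.2, p.1) := by
  rw [← Van_rp0]
  exact EE_fullPM _

theorem Van_rp_neg {ν : Type} (ω : ν → M) (g : Gam M) (v : ν → ℂ) :
    rp ω g (-v) = -rp ω g v := by
  funext i
  simp only [rp, Pi.neg_apply, ← twR_apply, map_neg, mul_neg]

/-- The cosine along a quarter turn. -/
noncomputable def Van_c (t : I) : ℝ := Real.cos (Real.pi / 2 * t)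

/-- The sine along a quarter turn. -/
noncomputable def Van_s (t : I) : ℝ := Real.sin (Real.pi / 2 * t)

theorem Van_cs (t : I) : (Van_c t : ℂ) ^ 2 + (Van_s t : ℂ) ^ 2 = 1 := by
  exact_mod_cast Real.cos_sq_add_sin_sq _

theorem Van_cont_c : Continuous Van_c := by
  unfold Van_c
  fun_prop

theorem Van_cont_s : Continuous Van_s := by
  unfold Van_s
  fun_prop

/-- The rotation of the target. -/
noncomputable def Van_rot {κ ν : Type} [Fintype κ] [Fintype ν] [DecidableEq ν]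
    (p : ((Ea κ × (Y × (ν → ℂ))) × (ν → ℂ)) × I) : Ea (κ ⊕ ν) × (Y × (ν → ℂ)) :=
  (Ea.sum p.1.1.1 (Ea.full ((Van_c p.2 : ℂ) • p.1.1.2.2 + (Van_s p.2 : ℂ) • p.1.2)),
    (p.1.1.2.1, (Van_s p.2 : ℂ) • p.1.1.2.2 + -((Van_c p.2 : ℂ) • p.1.2)))

theorem Van_rot_pmap {κ ν : Type} [Fintype κ] [Fintype ν] [DecidableEq ν] (u : κ → M) (ω : ν → M)
    (β : Act (Gam M) Y) :
    PMap 𝒢 ((((ea u).prod (β.prod (rp ω))).prod (rp ω)).prod triv)
      ((ea (Sum.elim u ω)).prod (β.prod (rp ω))) Van_rot := by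
  have hc := Van_cont_c
  have hs := Van_cont_s
  refine ⟨?_, fun g _ p => Prod.ext ?_ (Prod.ext rfl ?_)⟩
  · have h1 : IsProperMap fun p : ((Ea κ × (Y × (ν → ℂ))) × (ν → ℂ)) × I =>
        (((p.1.1.1, (p.1.1.2.1, (Van_s p.2 : ℂ) • p.1.1.2.2 + -((Van_c p.2 : ℂ) • p.1.2))),
          (Van_c p.2 : ℂ) • p.1.1.2.2 + (Van_s p.2 : ℂ) • p.1.2), p.2) := by
      refine proper_of_leftInverse (r := fun p : ((Ea κ × (Y × (ν → ℂ))) × (ν → ℂ)) × I =>
        (((p.1.1.1, (p.1.1.2.1, (Van_c p.2 : ℂ) • p.1.2 + (Van_s p.2 : ℂ) • p.1.1.2.2)),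
          (Van_s p.2 : ℂ) • p.1.2 + -((Van_c p.2 : ℂ) • p.1.1.2.2)), p.2))
        (by fun_prop) (by fun_prop) ?_
      rintro ⟨⟨⟨q, y, z⟩, v⟩, t⟩
      refine Prod.ext (Prod.ext (Prod.ext rfl (Prod.ext rfl ?_)) ?_) rfl
      · dsimp only
        linear_combination (norm := module) Van_cs t • z
      · dsimp only
        linear_combination (norm := module) Van_cs t • v
    exact ((Ea.sum_proper.prodMap isProperMap_id).comp
      (((isProperMap_id.prodMap Ea.full_proper).prodMap isProperMap_id).comp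
        (Sys_swap (Ea κ) (Y × (ν → ℂ)) (ν → ℂ)).isProperMap)).comp (proper_fst.comp h1)
  · simp only [Van_rot, prod_apply, triv_apply]
    rw [← Ea.sum_ea, ← Ea.full_ea, rp_add, rp_smul, rp_smul]
  · simp only [Van_rot, prod_apply, triv_apply]
    rw [rp_add, Van_rp_neg, rp_smul, rp_smul]

theorem Van_inj {ν : Type} [Fintype ν] [DecidableEq ν] {β : Act (Gam M) Y} (ω : ν → M)
    {γ : Act (Gam M) (ν → ℂ)} (hγ : γ = rp ω)
    (hp : PMap 𝒢 (β.prod γ) ((ea ω).prod β) fun p : Y × (ν → ℂ) => (Ea.full p.2, p.1))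
    {d : Y × (ν → ℂ) → ℤ} {d' : Y → ℤ}
    (hd : ∀ p : Y × (ν → ℂ), (d' p.1 : ℂ) = d p + (Ea.full p.2).1.1.trace)
    (x : EM 𝒢 α (β.prod γ) d) (h : absb ω hp hd x = 0) : x = 0 := by
  subst hγ
  have hd1 : ∀ p : Y × (ν → ℂ), d' p.1 = d p + Fintype.card ν := fun p => by
    have := hd p
    rw [Ea.full_trace] at this
    exact_mod_cast this
  have hneg : PMap 𝒢 (α.prod (rp ω)) (α.prod (rp ω)) fun p : X × (ν → ℂ) => (p.1, -p.2) :=
    ⟨isProperMap_id.prodMap (Homeomorph.neg (ν → ℂ)).isProperMap,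
      fun g _ p => Prod.ext rfl (Van_rp_neg ω g p.2).symm⟩
  obtain ⟨L, f, hf, rfl⟩ := cl_surj x
  have h0 : reg ω hd1 (pull hneg (sm (d₁ := fun p => d' p.1) (rp ω) (fun _ _ => rfl)
      (absb ω hp hd (cl (sy := MU M) L f hf)))) = 0 := by
    rw [h, sm_zero, pull_zero, reg_zero]
  rw [absb_cl, sm_cl, pull_cl, reg_cl] at h0
  have hG : PMap 𝒢 (α.prod (rp (Sum.elim L.w ω))) ((α.prod (rp L.w)).prod (rp ω))
      (Sys_swap X (ν → ℂ) (L.ι → ℂ) ∘
        fun p : X × (L.ι ⊕ ν → ℂ) => ((p.1, p.2 ∘ Sum.inr), p.2 ∘ Sum.inl)) :=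
    (PMap.homeo (Sys_swap X (ν → ℂ) (L.ι → ℂ)) fun _ _ _ => rfl).comp (EE_regPM L.w ω)
  have hH := (((hf.prodId (rp ω)).pre hG).prodId (triv : Act (Gam M) I)).map
    (D' := (MU M).D (L.stab ω) d) (Van_rot_pmap L.u ω β) fun p hp' => by
      have h1 : p.1.1.1.1.1.trace - (Fintype.card L.ι : ℂ) = d p.1.1.2 := hp'.1.1
      have h2 : d (Van_rot p).2 = d p.1.1.2 := add_right_cancel ((hd1 _).symm.trans (hd1 p.1.1.2))
      change (Ea.sum _ _).1.1.trace - (Fintype.card (L.ι ⊕ ν) : ℂ) = d (Van_rot p).2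
      rw [h2, Ea.sum_trace, Ea.full_trace, Fintype.card_sum, ← h1]
      push_cast
      ring
  have hR := (Van_rot_pmap (𝒢 := 𝒢) L.u ω β).proper
  have hm : (MU M).Hm 𝒢 α (β.prod (rp ω)) d (L.stab ω)
      (BM.pre ((((f.prodId (ν → ℂ)).pre _ hG.proper).prodId I).map _ hR) _ (proper_at 0))
      (BM.pre ((((f.prodId (ν → ℂ)).pre _ hG.proper).prodId I).map _ hR) _ (proper_at 1)) :=
    ⟨_, hH, fun _ => rfl, fun _ => rfl⟩
  refine (cl_stab L ω hf hm.right fun x v => ?_).symm.trans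
    ((cl_htpy hm).symm.trans ((cl_congr fun p => ?_).trans h0))
  · simp only [BM.pre_f, BM.map_f, BM.prodId_f, omap_map]
    refine omap_congr _ fun q _ => ?_
    simp [Van_rot, Van_c, Van_s, Sys_swap]
  · simp only [BM.pre_f, BM.map_f, BM.prodId_f, omap_map, regB_f, BM.sm, absB_f]
    refine omap_congr _ fun q _ => ?_
    simp [Van_rot, Van_c, Van_s, Sys_swap]

/-- The Thom isomorphism for a trivial bundle over the coefficient space is injective. -/
theorem absb_triv_inj {ν : Type} [Fintype ν] [DecidableEq ν] {β : Act (Gam M) Y}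
    {d : Y × (ν → ℂ) → ℤ} {d' : Y → ℤ}
    (hd : ∀ p : Y × (ν → ℂ), (d' p.1 : ℂ) = d p + (Ea.full p.2).1.1.trace)
    (x : EM 𝒢 α (β.prod (sa cj)) d) (h : absb (fun _ : ν => (0 : M)) (pmap_triv β) hd x = 0) :
    x = 0 := by
  exact Van_inj _ (Van_rp0 (M := M) (ν := ν)).symm (pmap_triv β) hd x h

/-- Vanishing with coefficients in `Y` in all degrees `≥ k`. -/
def Van (𝒢 : Set (Gam M)) (α : Act (Gam M) X) (Y : Type) [TopologicalSpace Y] [LC Y]
    (t : Act ℤˣ Y) (k : ℤ) : Prop :=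
  ∀ d : Y → ℤ, IsLocallyConstant d → (∀ y, k ≤ d y) → ∀ x : EM 𝒢 α (sa t) d, x = 0

theorem van_unit {k : ℤ} (h : ∀ n, k ≤ n → ∀ x : E0 𝒢 α n, x = 0) : Van 𝒢 α Unit triv k := by
  exact fun d _ hk x => h (d ()) (hk ()) x

section Closure

variable {Y' Z U : Type} [TopologicalSpace Y'] [LC Y'] [TopologicalSpace Z] [LC Z]
  [TopologicalSpace U] [LC U] {t : Act ℤˣ Y} {t' : Act ℤˣ Y'} {k : ℤ}

theorem Van_homeo (c : Y ≃ₜ Y') (hc : ∀ s y, c (t s y) = t' s (c y)) (h : Van 𝒢 α Y' t' k) :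
    Van 𝒢 α Y t k := fun d hd hk x =>
  van_homeoY c (fun g _ y => hc g.e y) (d' := d ∘ c.symm)
    (fun y => congrArg d (c.symm_apply_apply y))
    (h _ (hd.comp_continuous c.symm.continuous) fun _ => hk _) x

theorem Van_homeo' (c : Y ≃ₜ Y') (hc : ∀ s y, c (t s y) = t' s (c y)) (h : Van 𝒢 α Y t k) :
    Van 𝒢 α Y' t' k :=
  Van_homeo c.symm (fun s y => c.injective (by
    rw [hc, c.apply_symm_apply, c.apply_symm_apply])) h

theorem Van_ndr {sZ : Act ℤˣ Z} {sU : Act ℤˣ U} {i : Z → Y} {j : U → Y}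
    (h : TNDR univ sZ t sU i j) (hZ : Van 𝒢 α Z sZ k) (hU : Van 𝒢 α U sU k) :
    Van 𝒢 α Y t k := by
  intro d hd hk x
  obtain ⟨z, rfl⟩ := tgt_exact (h.via Gam.e 𝒢) hd (dZ := d ∘ i) (dU := d ∘ j) (fun _ => rfl)
    (fun _ => rfl) x (hU _ (hd.comp_continuous h.hj.emb.continuous) (fun _ => hk _) _)
  rw [hZ _ (hd.comp_continuous h.hi.continuous) (fun _ => hk _) z, postP_zero]

theorem Van_vec {ν : Type} [Fintype ν] (h : Van 𝒢 α Y t k) :
    Van 𝒢 α (Y × (ν → ℂ)) (t.prod cj) (k - Fintype.card ν) := by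
  classical
  intro d hd hk x
  have h1 : ∀ p : Y × (ν → ℂ), d (p.1, 0) = d p := fun p =>
    (hd.comp_continuous (g := d) (f := fun z : ν → ℂ => (p.1, z))
      (by fun_prop)).apply_eq_of_preconnectedSpace 0 p.2
  refine absb_triv_inj (β := sa t) (d' := fun y => d (y, 0) + Fintype.card ν) (fun p => ?_) x
    (h _ ?_ (fun y => ?_) _)
  · rw [Ea.full_trace, h1]
    push_cast
    rfl
  · exact (hd.comp_continuous (g := d) (f := fun y : Y => (y, (0 : ν → ℂ))) (by fun_prop)).comp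
      fun n => n + Fintype.card ν
  · have := hk (y, 0)
    omega

omit [LC Y] [LC Z] [LC U] in
/-- A partition into two invariant clopen pieces. -/
theorem Van_tndr {sZ : Act ℤˣ Z} {sU : Act ℤˣ U} {p : Y → Prop} (hp : IsClopen {y | p y})
    (ht : ∀ g y, p (t g y) ↔ p y) {i : Z → Y} {j : U → Y} (hi : IsEmbedding i)
    (hj : IsEmbedding j) (ri : range i = {y | p y}) (rj : range j = {y | p y}ᶜ)
    (ei : ∀ g z, i (sZ g z) = t g (i z)) (ej : ∀ g z, j (sU g z) = t g (j z)) :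
    TNDR univ sZ t sU i j := by
  classical
  refine ⟨⟨hi, ri ▸ hp.isClosed⟩, fun g _ => ei g,
    ⟨⟨hj, rj ▸ hp.compl.isOpen⟩, fun g _ => ej g, fun g _ y hy => ?_⟩,
    fun y => if p y then 0 else 2, Prod.fst, ?_, fun y => ?_, fun g _ y => ?_, ?_, ?_,
    continuous_fst.continuousOn, fun C hC => ⟨C, hC, fun _ _ _ hy => hy⟩, fun _ _ => rfl,
    fun y hy => ?_, fun _ _ _ _ _ => rfl⟩
  · rw [rj] at hy ⊢
    exact fun h => hy ((ht g y).2 h)
  · refine Continuous.if ?_ continuous_const continuous_const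
    intro a ha
    rw [hp.frontier_eq] at ha
    exact ha.elim
  · dsimp only
    split_ifs <;> norm_num
  · simp only [ht g y]
  · rw [ri]
    ext y
    by_cases hy : p y <;> simp [hy]
  · rw [rj]
    ext y
    by_cases hy : p y <;> simp [hy]
  · by_cases hpy : p y
    · simp [hpy]
    · simp only [hpy, if_false] at hy
      norm_num at hy

end Closure

theorem cellCl_van (𝒢 : Set (Gam M)) (α : Act (Gam M) X) :
    CellCl ℂ fun Z _ _ s c => ∀ (Y : Type) [TopologicalSpace Y] [LC Y] (t : Act ℤˣ Y) (k : ℤ),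
      Van 𝒢 α Y t k → Van 𝒢 α (Y × Z) (t.prod s) (k - c) := by
  refine ⟨fun Z _ _ _ s c Y _ _ t k _ d _ _ x => van_empty x,
    fun Z Z' _ _ _ _ s s' c e he hP Y _ _ t k hY => ?_,
    fun Z _ _ s c c' hc hP Y _ _ t k hY d hd hk => hP Y t k hY d hd fun y => ?_,
    fun Z W U _ _ _ _ _ _ sZ r sU i j c h hZ hU Y _ _ t k hY =>
      Van_ndr (h.prodL t) (hZ Y t k hY) (hU Y t k hY),
    fun Z ν _ _ _ s c hP Y _ _ t k hY => ?_, fun Y _ _ t k hY => ?_⟩
  · exact Van_homeo' (t := t.prod s) (t' := t.prod s') ((Homeomorph.refl Y).prodCongr e)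
      (fun u p => Prod.ext rfl (he u p.2)) (hP Y t k hY)
  · have := hk y
    omega
  · rw [← sub_sub]
    exact Van_homeo' (Homeomorph.prodAssoc Y Z (ν → ℂ)) (fun _ _ => rfl) (Van_vec (hP Y t k hY))
  · rw [sub_zero]
    exact Van_homeo (Homeomorph.prodUnique Y Unit) (fun _ _ => rfl) hY

/-- Projections that are block diagonal with respect to the weights. -/
def GrB {κ : Type} [Fintype κ] (u : κ → M) : Type :=
  {P : Matrix κ κ ℂ // IsP P ∧ ∀ j k, P j k ≠ 0 → u j = u k}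

variable {κ : Type} [Fintype κ] {u : κ → M}

instance : TopologicalSpace (GrB u) := inferInstanceAs (TopologicalSpace (Subtype _))

instance : T2Space (GrB u) := inferInstanceAs (T2Space (Subtype _))

instance : CompactSpace (GrB u) := by
  refine isCompact_iff_compactSpace.1 (isCompact_isP.of_isClosed_subset ?_ fun P h => h.1)
  have e : {P : Matrix κ κ ℂ | IsP P ∧ ∀ j k, P j k ≠ 0 → u j = u k} =
      {P | IsP P} ∩ ⋂ j, ⋂ k, ⋂ _ : u j ≠ u k, {P | P j k = 0} := by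
    ext P
    simp only [mem_ofPred_eq, mem_inter_iff, mem_iInter]
    exact and_congr_right fun _ => forall₂_congr fun j k => not_imp_comm
  change IsClosed {P : Matrix κ κ ℂ | IsP P ∧ ∀ j k, P j k ≠ 0 → u j = u k}
  rw [e]
  exact Ea_closedP.inter (isClosed_iInter fun j => isClosed_iInter fun k => isClosed_iInter fun _ =>
    isClosed_eq (continuous_id.matrix_elem j k) continuous_const)

/-- The conjugation action. -/
noncomputable def gra : Act ℤˣ (GrB u) := fun s P => ⟨P.1.map (tw s), by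
  obtain ⟨⟨h1, h2⟩, h3⟩ := P.2
  refine ⟨⟨?_, ?_⟩, fun j k h => h3 j k fun h0 => h ?_⟩
  · ext i j
    change star (tw s (P.1 j i)) = tw s (P.1 i j)
    rw [← tw_star, ← conjTranspose_apply, h1]
  · rw [tw_eq_twR, ← Matrix.map_mul, h2]
  · rw [map_apply, h0, MU_tw_zero]⟩

theorem Van_val : Continuous fun P : GrB u => P.1 := continuous_subtype_val

theorem Van_rk_lc : IsLocallyConstant fun P : GrB u => rk P.1 :=
  rk_locallyConstant Van_val fun P => P.2.1

theorem Van_rk_gra (s : ℤˣ) (P : GrB u) : rk (gra s P).1 = rk P.1 := by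
  refine Int.cast_injective (α := ℂ) ?_
  rw [(gra s P).2.1.rk_cast]
  change (P.1.map (tw s)).trace = _
  rw [tw_eq_twR, ← AddMonoidHom.map_trace, ← P.2.1.rk_cast, map_intCast]

/-- Projections of small rank. -/
abbrev Van_W (u : κ → M) (n : ℤ) : Type := {P : GrB u // rk P.1 < n}

instance Van_W_compact (n : ℤ) : CompactSpace (Van_W u n) :=
  isCompact_iff_compactSpace.1
    ((isClosed_discrete (Iio n)).preimage Van_rk_lc.continuous).isCompact

/-- The action on the projections of small rank. -/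
noncomputable def Van_wa (n : ℤ) : Act ℤˣ (Van_W u n) :=
  fun s P => ⟨gra s P.1, (Van_rk_gra s P.1).symm ▸ P.2⟩

theorem Van_step (hu : ∀ j k, u j = u k) (n : ℤ) :
    ∃ (i : XS ℂ κ Empty Empty n → Van_W u (n + 1)) (j : Van_W u n → Van_W u (n + 1)),
      TNDR univ xa (Van_wa (n + 1)) (Van_wa n) i j := by
  have hr : ∀ q : XS ℂ κ Empty Empty n, rk q.1.1 = n := fun q =>
    Int.cast_injective (α := ℂ) (q.2.1.rk_cast.trans q.2.2.1)
  have hl : IsLocallyConstant fun P : Van_W u (n + 1) => rk P.1.1 :=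
    Van_rk_lc.comp_continuous continuous_subtype_val
  refine ⟨fun q => ⟨⟨q.1.1, q.2.1, fun j k _ => hu j k⟩, (hr q).trans_lt (lt_add_one n)⟩,
    fun P => ⟨P.1, P.2.trans (lt_add_one n)⟩,
    Van_tndr (p := fun P : Van_W u (n + 1) => rk P.1.1 = n) (hl.isClopen_fiber n)
      (fun g P => by rw [show rk (Van_wa (n + 1) g P).1.1 = rk P.1.1 from Van_rk_gra g P.1])
      (Continuous.isClosedEmbedding ?_ ?_).isEmbedding
      (Continuous.isClosedEmbedding ?_ ?_).isEmbedding ?_ ?_ (fun _ _ => rfl) fun _ _ => rfl⟩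
  · exact (XS_val.fst.subtype_mk _).subtype_mk _
  · intro q q' e
    refine Subtype.ext (Prod.ext (congrArg (fun P : Van_W u (n + 1) => P.1.1) e) (Prod.ext ?_ ?_))
    · ext i a
      exact a.elim
    · ext i a
      exact a.elim
  · exact continuous_subtype_val.subtype_mk _
  · intro P P' e
    exact Subtype.ext (congrArg (fun P : Van_W u (n + 1) => P.1) e)
  · ext P
    constructor
    · rintro ⟨q, rfl⟩
      exact hr q
    · intro hP
      have hP' : rk P.1.1 = n := hP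
      exact ⟨⟨(P.1.1, 0, 0), P.1.2.1, by rw [← P.1.2.1.rk_cast, hP'], Matrix.mul_zero _,
        Matrix.mul_zero _⟩, rfl⟩
  · ext P
    constructor
    · rintro ⟨Q, rfl⟩
      exact Q.2.ne
    · intro hP
      exact ⟨⟨P.1, lt_of_le_of_ne (Int.lt_add_one_iff.1 P.2) hP⟩, rfl⟩

theorem Van_const {t : Act ℤˣ Y} (h : ∀ k, Van 𝒢 α Y t k) (hu : ∀ j k, u j = u k) (k : ℤ) :
    Van 𝒢 α (Y × GrB u) (t.prod gra) k := by
  have h1 : ∀ n : ℕ, Van 𝒢 α (Y × Van_W u n) (t.prod (Van_wa n)) k := by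
    intro n
    induction n with
    | zero =>
      have : IsEmpty (Van_W u (0 : ℕ)) := ⟨fun P => P.2.not_ge P.1.2.1.rk_nonneg⟩
      exact fun _ _ _ x => van_empty x
    | succ n ih =>
      obtain ⟨i, j, hij⟩ := Van_step hu n
      refine Van_ndr (hij.prodL t) ?_ ih
      have := (cellCl_van 𝒢 α).xs κ Empty Empty n Y t k (h k)
      simpa using this
  let c : Van_W u (Fintype.card κ + 1 : ℕ) ≃ₜ GrB u :=
    { toFun := Subtype.val
      invFun := fun P => ⟨P, P.2.1.rk_le.trans_lt (by omega)⟩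
      left_inv := fun _ => rfl
      right_inv := fun _ => rfl
      continuous_toFun := continuous_subtype_val
      continuous_invFun := continuous_id.subtype_mk _ }
  exact Van_homeo' ((Homeomorph.refl Y).prodCongr c) (fun _ _ => rfl) (h1 _)

theorem Van_split {κ₁ κ₂ : Type} [Fintype κ₁] [Fintype κ₂] (e : κ₁ ⊕ κ₂ ≃ κ)
    (hu : ∀ i j, u (e (Sum.inl i)) ≠ u (e (Sum.inr j))) :
    ∃ c : GrB u ≃ₜ GrB (fun i => u (e (Sum.inl i))) × GrB (fun j => u (e (Sum.inr j))),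
      ∀ s P, c (gra s P) = gra.prod gra s (c P) := by
  have h12 : ∀ (P : GrB u) i j, P.1 (e (Sum.inl i)) (e (Sum.inr j)) = 0 := fun P i j =>
    not_not.1 fun h => hu i j (P.2.2 _ _ h)
  have h21 : ∀ (P : GrB u) j i, P.1 (e (Sum.inr j)) (e (Sum.inl i)) = 0 := fun P j i =>
    not_not.1 fun h => hu i j (P.2.2 _ _ h).symm
  have hm : ∀ (P : GrB u) a b, ∑ i, P.1 a (e (Sum.inl i)) * P.1 (e (Sum.inl i)) b +
      ∑ j, P.1 a (e (Sum.inr j)) * P.1 (e (Sum.inr j)) b = P.1 a b := fun P a b => by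
    conv_rhs => rw [← P.2.1.2, mul_apply, ← e.sum_comp, Fintype.sum_sum_type]
  let F : GrB u → GrB (fun i => u (e (Sum.inl i))) × GrB (fun j => u (e (Sum.inr j))) := fun P =>
    (⟨P.1.submatrix (fun i => e (Sum.inl i)) (fun i => e (Sum.inl i)),
      ⟨by rw [conjTranspose_submatrix, P.2.1.1], by
        ext a b
        simpa [mul_apply, h12] using hm P (e (Sum.inl a)) (e (Sum.inl b))⟩,
      fun _ _ h => P.2.2 _ _ h⟩,
    ⟨P.1.submatrix (fun i => e (Sum.inr i)) (fun i => e (Sum.inr i)),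
      ⟨by rw [conjTranspose_submatrix, P.2.1.1], by
        ext a b
        simpa [mul_apply, h21] using hm P (e (Sum.inr a)) (e (Sum.inr b))⟩,
      fun _ _ h => P.2.2 _ _ h⟩)
  have hF : Continuous F :=
    ((Van_val.matrix_submatrix _ _).subtype_mk _).prodMk
      ((Van_val.matrix_submatrix _ _).subtype_mk _)
  have hb : Function.Bijective F := by
    constructor
    · intro P Q h
      refine Subtype.ext (Matrix.ext fun a b => ?_)
      obtain ⟨a | a, rfl⟩ := e.surjective a <;> obtain ⟨b | b, rfl⟩ := e.surjective b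
      · exact congrArg (fun R => R.1.1 a b) h
      · rw [h12, h12]
      · rw [h21, h21]
      · exact congrArg (fun R => R.2.1 a b) h
    · rintro ⟨P, Q⟩
      refine ⟨⟨(fromBlocks P.1 0 0 Q.1).submatrix e.symm e.symm, ⟨?_, ?_⟩, fun a b => ?_⟩,
        Prod.ext (Subtype.ext ?_) (Subtype.ext ?_)⟩
      · simp only [conjTranspose_submatrix, fromBlocks_conjTranspose, conjTranspose_zero, P.2.1.1,
          Q.2.1.1]
      · simp only [submatrix_mul_equiv, fromBlocks_multiply, Matrix.mul_zero, Matrix.zero_mul,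
          add_zero, zero_add, P.2.1.2, Q.2.1.2]
      · obtain ⟨a | a, rfl⟩ := e.surjective a <;> obtain ⟨b | b, rfl⟩ := e.surjective b
        · simpa using P.2.2 a b
        · simp
        · simp
        · simpa using Q.2.2 a b
      · ext a b
        simp [F]
      · ext a b
        simp [F]
  exact ⟨Continuous.homeoOfEquivCompactToT2 (f := Equiv.ofBijective F hb) hF, fun _ _ => rfl⟩

theorem Van_grB_aux (n : ℕ) : ∀ (κ : Type) [Fintype κ] (u : κ → M) (Y : Type) [TopologicalSpace Y]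
    [LC Y] (t : Act ℤˣ Y), Fintype.card κ ≤ n → (∀ k, Van 𝒢 α Y t k) →
      ∀ k, Van 𝒢 α (Y × GrB u) (t.prod gra) k := by
  classical
  induction n with
  | zero =>
    intro κ _ u Y _ _ t hn h
    have : IsEmpty κ := Fintype.card_eq_zero_iff.1 (Nat.le_zero.1 hn)
    exact Van_const h fun j => isEmptyElim j
  | succ n ih =>
    intro κ _ u Y _ _ t hn h k
    rcases isEmpty_or_nonempty κ with hκ | ⟨⟨j₀⟩⟩
    · exact Van_const h (fun j => isEmptyElim j) k
    obtain ⟨c, hc⟩ := Van_split (u := u) (Equiv.sumCompl fun j => u j = u j₀)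
      fun i j e => j.2 (e.symm.trans i.2)
    have hlt : Fintype.card {j // ¬ u j = u j₀} < Fintype.card κ :=
      Fintype.card_subtype_lt (x := j₀) (not_not.2 rfl)
    refine Van_homeo (((Homeomorph.refl Y).prodCongr c).trans (Homeomorph.prodAssoc _ _ _).symm)
      (t' := (t.prod gra).prod gra) (fun s p => ?_)
      (ih _ _ _ _ (by omega) (Van_const h fun i j => i.2.trans j.2.symm) k)
    exact congrArg (fun R => ((t s p.1, R.1), R.2)) (hc s p.2)

theorem van_grB {t : Act ℤˣ Y} (h : ∀ k, Van 𝒢 α Y t k) (u : κ → M) (k : ℤ) :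
    Van 𝒢 α (Y × GrB u) (t.prod gra) k := by
  exact Van_grB_aux _ κ u Y t le_rfl h k

end RB
end

-- merged part: Pool.Agent.Work.MP_666b5d_gt.T1
section
/-!
# Moving the Grassmannian coordinate to a base point; products of Euler classes

Proof hints.  `t1`: induct on `κ` (`Fintype.induction_empty_option`, `xsRe`) for all `N`.  For
`N < 0` the space is empty, for `N = 0` it is one point (`IsP.eq_zero`).  For `N > 0` use `xs_ndr`,
`TNDR.via` and `tgt_exact`: the open part has cells of dimension `≥ N ≥ 1` (`CellCl.xs`,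
`cellCl_van`, `van_unit` with `k = n + 1`), so the class comes from the closed part, and
`xsI (xsPt S) = xsPt (insert none (S.map some))`.
`t2`: induct on `ν` with `mF_option`.
-/

open Set Filter Topology Matrix
open scoped unitInterval

namespace RB

open Act

variable {M : Type} [AddCommGroup M] {X : Type} [TopologicalSpace X] [LC X] {𝒢 : Set (Gam M)}
  {α : Act (Gam M) X} {n n' : ℤ}

/-- A coordinate projection as a point of the Grassmannian. -/
def xsPt {κ : Type} [Fintype κ] [DecidableEq κ] {N : ℤ} (S : Finset κ) (hS : (S.card : ℤ) = N) :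
    XS ℂ κ Empty Empty N :=
  ⟨(diagonal fun j => if j ∈ S then 1 else 0, 0, 0), by
    refine ⟨⟨?_, ?_⟩, ?_, Matrix.mul_zero _, Matrix.mul_zero _⟩
    · rw [diagonal_conjTranspose]
      congr 1
      funext j
      by_cases hj : j ∈ S <;> simp [hj]
    · rw [diagonal_mul_diagonal]
      congr 1
      funext j
      by_cases hj : j ∈ S <;> simp [hj]
    · rw [trace_diagonal, ← hS]
      simp⟩

theorem T1_ext {κ : Type} [Fintype κ] {N : ℤ} {q q' : XS ℂ κ Empty Empty N}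
    (h : q.1.1 = q'.1.1) : q = q' :=
  Subtype.ext (Prod.ext h (Prod.ext (Subsingleton.elim _ _) (Subsingleton.elim _ _)))

theorem pmap_xsPt {κ : Type} [Fintype κ] [DecidableEq κ] {N : ℤ} (S : Finset κ)
    (hS : (S.card : ℤ) = N) :
    PMap 𝒢 (triv : Act (Gam M) Unit) (sa xa) fun _ => xsPt S hS := by
  refine ⟨continuous_const.isProperMap, fun g _ _ => T1_ext ?_⟩
  ext i j
  change _ = tw g.e ((diagonal fun j => if j ∈ S then (1 : ℂ) else 0) i j)
  change (diagonal fun j => if j ∈ S then (1 : ℂ) else 0) i j = _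
  rw [diagonal_apply]
  split_ifs
  · exact (XS_tw_one _).symm
  · exact (XS_tw_zero _).symm
  · exact (XS_tw_zero _).symm

theorem T1_id {Y Y' : Type} [TopologicalSpace Y] [TopologicalSpace Y'] [LC Y] [LC Y']
    {β : Act (Gam M) Y} {β' : Act (Gam M) Y'} {p : Y → Y'} {q : Y' → Y} (hp : PMap 𝒢 β β' p)
    (hq : PMap 𝒢 β' β q) (he : ∀ y, y = q (p y)) (x : EM 𝒢 α β fun _ => n) :
    postP (d' := fun _ => n) hq (fun _ => rfl) (postP (d' := fun _ => n) hp (fun _ => rfl) x) =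
      x := by
  have hi : PMap 𝒢 β β id := ⟨isProperMap_id, fun _ _ _ => rfl⟩
  exact (postP_postP (d := fun _ => n) (d' := fun _ => n) (d'' := fun _ => n) hp (fun _ => rfl) hq
    (fun _ => rfl) hi (fun _ => rfl) he x).trans
    (postP_id (d := fun _ => n) hi (fun _ => rfl) (fun _ => rfl) x)

/-- The conclusion of `t1` for one index set. -/
def T1_Q (𝒢 : Set (Gam M)) (α : Act (Gam M) X) (n : ℤ) (κ : Type) [Fintype κ] [DecidableEq κ]
    (N : ℤ) : Prop :=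
  ∀ x : EM 𝒢 α (sa (xa : Act ℤˣ (XS ℂ κ Empty Empty N))) fun _ => n,
    x = 0 ∨ ∃ (S : Finset κ) (hS : (S.card : ℤ) = N) (y : E0 𝒢 α n),
      x = postP (pmap_xsPt S hS) (fun _ => rfl) y

/-- Classes in the image of a map that sends base points to base points. -/
theorem T1_post {κ κ' : Type} [Fintype κ] [DecidableEq κ] [Fintype κ'] [DecidableEq κ']
    {N N' : ℤ} (hQ : T1_Q 𝒢 α n κ N) {p : XS ℂ κ Empty Empty N → XS ℂ κ' Empty Empty N'}
    (hp : PMap 𝒢 (sa xa) (sa xa) p)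
    (hpt : ∀ S hS, ∃ (S' : Finset κ') (hS' : (S'.card : ℤ) = N'), xsPt S' hS' = p (xsPt S hS))
    (z : EM 𝒢 α (sa (xa : Act ℤˣ (XS ℂ κ Empty Empty N))) fun _ => n) :
    postP (d' := fun _ => n) hp (fun _ => rfl) z = 0 ∨
      ∃ (S : Finset κ') (hS : (S.card : ℤ) = N') (y : E0 𝒢 α n),
        postP (d' := fun _ => n) hp (fun _ => rfl) z = postP (pmap_xsPt S hS) (fun _ => rfl) y := by
  rcases hQ z with rfl | ⟨S, hS, y, rfl⟩
  · exact Or.inl (postP_zero _ _)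
  · obtain ⟨S', hS', h⟩ := hpt S hS
    exact Or.inr ⟨S', hS', y, postP_postP _ _ _ _ _ _ (fun _ => h) y⟩

theorem T1_empty {κ : Type} [Fintype κ] [DecidableEq κ] {N : ℤ}
    (h : N < 0 ∨ (Fintype.card κ : ℤ) < N) : T1_Q 𝒢 α n κ N := fun x => by
  have := xs_isEmpty (𝕜 := ℂ) (α := Empty) (β := Empty) h
  exact Or.inl (van_empty x)

theorem T1_zero {κ : Type} [Fintype κ] [DecidableEq κ] : T1_Q 𝒢 α n κ 0 := fun x => by
  have hc : PMap 𝒢 (sa (xa : Act ℤˣ (XS ℂ κ Empty Empty 0))) (triv : Act (Gam M) Unit)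
      fun _ => () := ⟨continuous_const.isProperMap, fun _ _ _ => rfl⟩
  refine Or.inr ⟨∅, rfl, postP hc (fun _ => rfl) x,
    (T1_id hc (pmap_xsPt ∅ rfl) (fun q => T1_ext ?_) x).symm⟩
  rw [q.2.1.eq_zero (q.2.2.1.trans Int.cast_zero),
    (xsPt (∅ : Finset κ) rfl).2.1.eq_zero ((xsPt (∅ : Finset κ) rfl).2.2.1.trans Int.cast_zero)]

theorem T1_equiv {κ κ' : Type} [Fintype κ] [DecidableEq κ] [Fintype κ'] [DecidableEq κ'] {N : ℤ}
    (e : κ ≃ κ') (hQ : T1_Q 𝒢 α n κ N) : T1_Q 𝒢 α n κ' N := fun x => by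
  have hp : PMap 𝒢 (sa xa) (sa xa) (xsRe e : XS ℂ κ Empty Empty N → XS ℂ κ' Empty Empty N) :=
    ⟨(xsRe e).isProperMap, fun _ _ _ => rfl⟩
  have hp' : PMap 𝒢 (sa xa) (sa xa)
      ((xsRe e).symm : XS ℂ κ' Empty Empty N → XS ℂ κ Empty Empty N) :=
    ⟨(xsRe e).symm.isProperMap, fun _ _ _ => rfl⟩
  rw [← T1_id hp' hp (fun q => ((xsRe e).apply_symm_apply q).symm) x]
  refine T1_post hQ hp (fun S hS => ⟨S.map e.toEmbedding, by rw [Finset.card_map, hS],
    T1_ext ?_⟩) _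
  ext i j
  change (diagonal fun j => if j ∈ S.map e.toEmbedding then (1 : ℂ) else 0) i j =
    (diagonal fun j => if j ∈ S then (1 : ℂ) else 0) (e.symm i) (e.symm j)
  simp [diagonal_apply, Finset.mem_map_equiv]

theorem T1_open (hv : ∀ k, n < k → ∀ x : E0 𝒢 α k, x = 0) {κ : Type} [Fintype κ] {N : ℤ}
    (hN : 0 < N)
    (x : EM 𝒢 α (sa ((xa : Act ℤˣ (XS ℂ κ (Option Empty) Empty N)).prod
      (cj : Act ℤˣ (Empty → ℂ)))) fun _ => n) : x = 0 := by
  have h1 := (cellCl_van 𝒢 α).vec _ Empty _ _ ((cellCl_van 𝒢 α).xs κ (Option Empty) Empty N)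
    Unit triv (n + 1) (van_unit fun k hk => hv k (by omega))
  refine van_homeoY (β' := sa ((triv : Act ℤˣ Unit).prod (xa.prod cj))) (d' := fun _ => n)
    (Homeomorph.punitProd _).symm (fun _ _ _ => rfl) (fun _ => rfl)
    (h1 _ (IsLocallyConstant.const n) fun _ => ?_) x
  simp only [Fintype.card_option, Fintype.card_empty]
  omega

theorem T1_option (hv : ∀ k, n < k → ∀ x : E0 𝒢 α k, x = 0) {κ : Type} [Fintype κ]
    [DecidableEq κ] [DecidableEq (Option κ)] {N N' : ℤ} (h : N = N' + 1) (hN : 0 < N)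
    (hQ : T1_Q 𝒢 α n κ N') : T1_Q 𝒢 α n (Option κ) N := fun x => by
  obtain ⟨j, hj⟩ := xs_ndr (𝕜 := ℂ) (ι := κ) (α := Empty) (β := Empty) h
  obtain ⟨z, hz⟩ := tgt_exact (d := fun _ => n) (hj.via Gam.e 𝒢) (IsLocallyConstant.const n)
    (dZ := fun _ => n) (dU := fun _ => n) (fun _ => rfl) (fun _ => rfl) x (T1_open hv hN _)
  have hf : PMap 𝒢 (sa ((xa : Act ℤˣ (XS ℂ κ Empty Empty N')).prod (cj : Act ℤˣ (Empty → ℂ))))
      (sa xa) Prod.fst := ⟨continuous_fst.isProperMap, fun _ _ _ => rfl⟩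
  have hp : PMap 𝒢 (sa xa) (sa xa) fun q : XS ℂ κ Empty Empty N' => xsI h (q, 0) := by
    refine ⟨((xsI_emb h).continuous.comp (continuous_id.prodMk continuous_const)).isProperMap,
      fun g _ q => ?_⟩
    refine Eq.trans (congrArg (xsI h) ?_) (xsI_eqv h g.e (q, 0))
    exact Prod.ext rfl (Subsingleton.elim _ _)
  rw [hz, ← postP_postP hf (d' := fun _ => n) (d'' := fun _ => n) (fun _ => rfl) hp (fun _ => rfl)
    (hj.via Gam.e 𝒢).pmap (fun _ => rfl)
    (fun q => congrArg (xsI h) (Prod.ext rfl (Subsingleton.elim _ _))) z]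
  refine T1_post hQ hp (fun S hS => ⟨Finset.insertNone S, ?_, T1_ext ?_⟩) _
  · rw [Finset.card_insertNone, h, ← hS]
    push_cast
    rfl
  · ext (_ | a) (_ | b) <;> simp [xsPt, xsI, diagonal_apply]

theorem t1 (hv : ∀ k, n < k → ∀ x : E0 𝒢 α k, x = 0) (κ : Type) [Fintype κ] [DecidableEq κ]
    (N : ℤ) (x : EM 𝒢 α (sa (xa : Act ℤˣ (XS ℂ κ Empty Empty N))) fun _ => n) :
    x = 0 ∨ ∃ (S : Finset κ) (hS : (S.card : ℤ) = N) (y : E0 𝒢 α n),
      x = postP (pmap_xsPt S hS) (fun _ => rfl) y := by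
  have key : ∀ (κ : Type) [Fintype κ], ∀ [DecidableEq κ] (N : ℤ), T1_Q 𝒢 α n κ N := by
    intro κ _
    refine Fintype.induction_empty_option
      (P := fun κ _ => ∀ [DecidableEq κ] (N : ℤ), T1_Q 𝒢 α n κ N) ?_ ?_ ?_ κ
    · intro κ κ' _ e ih _ N
      classical
      let _ : Fintype κ := Fintype.ofEquiv κ' e.symm
      exact T1_equiv e (ih N)
    · intro _ N
      rcases lt_trichotomy N 0 with h | rfl | h
      · exact T1_empty (Or.inl h)
      · exact T1_zero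
      · exact T1_empty (Or.inr (by simpa using h))
    · intro κ _ ih _ N
      classical
      rcases lt_trichotomy N 0 with h | rfl | h
      · exact T1_empty (Or.inl h)
      · exact T1_zero
      · exact T1_option hv (N' := N - 1) (by omega) h (ih _)
  exact key κ N x

theorem t2 (P : M → Prop)
    (hinj : ∀ w, P w → ∀ k, n < k → ∀ y : E0 𝒢 α k, m1 w rfl y = 0 → y = 0)
    {ν : Type} [Fintype ν] [DecidableEq ν] (ω : ν → M) (hω : ∀ i, P (ω i))
    (h : n' = n + Fintype.card ν) (z : E0 𝒢 α n) (hz : mF ω h z = 0) :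
    z = 0 ∨ ∃ w, P w ∧ m1 w rfl z = 0 := by
  have key : ∀ (ν : Type) [Fintype ν], ∀ [DecidableEq ν] (ω : ν → M), (∀ i, P (ω i)) →
      ∀ (n' : ℤ) (h : n' = n + Fintype.card ν), mF ω h z = 0 →
        z = 0 ∨ ∃ w, P w ∧ m1 w rfl z = 0 := by
    intro ν _
    refine Fintype.induction_empty_option
      (P := fun ν _ => ∀ [DecidableEq ν] (ω : ν → M), (∀ i, P (ω i)) →
        ∀ (n' : ℤ) (h : n' = n + Fintype.card ν), mF ω h z = 0 →
          z = 0 ∨ ∃ w, P w ∧ m1 w rfl z = 0) ?_ ?_ ?_ ν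
    · intro ν ν' _ e ih _ ω hω n' h hz
      classical
      let _ : Fintype ν := Fintype.ofEquiv ν' e.symm
      have h' : n' = n + Fintype.card ν := by rw [h, Fintype.card_congr e]
      exact ih (ω ∘ e) (fun i => hω _) n' h'
        ((mF_equiv e (ω ∘ e) ω (fun _ => rfl) h' h z).trans hz)
    · intro _ ω _ n' h hz
      obtain rfl : n' = n := by simpa using h
      exact Or.inl ((mF_empty ω h z).symm.trans hz)
    · intro ν _ ih inst ω hω n' h hz
      obtain ⟨dν⟩ : Nonempty (DecidableEq ν) := ⟨Classical.decEq ν⟩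
      obtain rfl : inst = Option.instDecidableEq := Subsingleton.elim _ _
      rcases isEmpty_or_nonempty ν with he | he
      · obtain rfl : n' = n + 1 := by simpa using h
        have h1 : n = n + Fintype.card ν := by simp
        have h2 := (mF_option ω h1 rfl h z).symm.trans hz
        rw [mF_empty] at h2
        exact Or.inr ⟨_, hω none, h2⟩
      · have hc : 0 < Fintype.card ν := Fintype.card_pos
        obtain rfl : n' = n + Fintype.card ν + 1 := by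
          rw [h, Fintype.card_option]; push_cast; ring
        have h2 := (mF_option ω rfl rfl h z).symm.trans hz
        exact ih (ω ∘ some) (fun i => hω _) _ rfl (hinj _ (hω none) _ (by omega) _ h2)
  exact key ν ω hω n' h hz

end RB
end

-- merged part: Pool.Agent.Work.MP_666b5d_gt.Pow2
section
/-!
# The power operation on fixed points and the Thom diagonal

Let `Z = {j // j ≠ k₀}`.

Proof plan for `pow_fixed`.  Apply `lemF` with `ι ⊕ ι × Z ≃ ι × K`.  On `W = v ⊗ e_{k₀}` all position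
coordinates equal `c v`, and `asm (const (P, u)) = (P ⊗ 1, c⁻¹ u ⊗ e_{k₀})`, because
`∑ k, star (F k j) * c = (Fᴴ F) j k₀`.  Deform `c` to `1` through `c_t = (1 - t) c + t > 0` (transition
data on `(X × ℂ ^ ι) × I`).  The result `(P ⊗ 1, u ⊗ e_{k₀})` is the reindexing along
`κ ⊕ κ × Z ≃ κ × K` of `absB (tens) (diag f)` (`cl_reidx`, `Ea.ext0_eq`).
-/

open Set Filter Topology Matrix
open scoped unitInterval

namespace RB

open Act

variable {M : Type} [AddCommGroup M] {X : Type} [TopologicalSpace X] [LC X] {𝒢 : Set (Gam M)}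
  {α : Act (Gam M) X} {K : Type} [Fintype K] [DecidableEq K] {k₀ : K} {κ Z : Type} [Fintype κ]
  [Fintype Z] [DecidableEq Z] {n n' n₁ N : ℤ}

theorem Pow2_isP {P : Matrix κ κ ℂ} (hP : IsP P) :
    IsP (Matrix.of fun a b : κ × Z => if a.2 = b.2 then P a.1 b.1 else 0) := by
  have h1 : ∀ i j, star (P j i) = P i j := fun i j => congrFun (congrFun hP.1 i) j
  have h2 : ∀ i j, ∑ k, P i k * P k j = P i j := fun i j =>
    (mul_apply ..).symm.trans (congrFun (congrFun hP.2 i) j)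
  refine ⟨?_, ?_⟩
  · ext a b
    rw [conjTranspose_apply, of_apply, of_apply]
    by_cases h : a.2 = b.2
    · rw [if_pos h, if_pos h.symm, h1]
    · rw [if_neg h, if_neg fun e => h e.symm, star_zero]
  · ext a b
    rw [mul_apply, Fintype.sum_prod_type, of_apply]
    by_cases h : a.2 = b.2
    · rw [if_pos h, ← h2]
      refine Finset.sum_congr rfl fun k _ => ?_
      rw [Finset.sum_eq_single a.2 (fun z _ hz => by simp [hz.symm]) (by simp)]
      simp [h]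
    · rw [if_neg h]
      refine Finset.sum_eq_zero fun k _ => Finset.sum_eq_zero fun z _ => ?_
      by_cases h' : a.2 = z
      · subst h'
        simp [h]
      · simp [h']

theorem Pow2_trace (P : Matrix κ κ ℂ) :
    (Matrix.of fun a b : κ × Z => if a.2 = b.2 then P a.1 b.1 else 0).trace =
      (Fintype.card Z : ℂ) * P.trace := by
  simp [trace, Fintype.sum_prod_type, Finset.mul_sum]

omit [Fintype κ] [Fintype Z] in
theorem Pow2_cont {A : Type} [TopologicalSpace A] {P : A → Matrix κ κ ℂ} (hP : Continuous P) :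
    Continuous fun x => (Matrix.of fun a b : κ × Z => if a.2 = b.2 then P x a.1 b.1 else 0) := by
  refine continuous_matrix fun a b => ?_
  by_cases h : a.2 = b.2
  · simp only [of_apply, if_pos h]
    exact hP.matrix_elem _ _
  · simp only [of_apply, if_neg h]
    exact continuous_const

omit [Fintype κ] [Fintype Z] in
theorem Pow2_mp (ω : Z → M) (g : Gam M) (P : Matrix κ κ ℂ) :
    (Matrix.of fun a b : κ × Z => if a.2 = b.2 then tw g.e (P a.1 b.1) else 0) =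
      mp (fun p : κ × Z => ω p.2) (fun p : κ × Z => ω p.2) g
        (Matrix.of fun a b : κ × Z => if a.2 = b.2 then P a.1 b.1 else 0) := by
  ext a b
  rw [mp_apply, of_apply, of_apply]
  by_cases h : a.2 = b.2
  · rw [if_pos h, if_pos h, h, sub_self, ch_zero, one_mul]
  · rw [if_neg h, if_neg h, MU_tw_zero, mul_zero]

/-- The sum of copies of the tautological bundle, with the zero vector. -/
def tens (Z : Type) [Fintype Z] [DecidableEq Z] (q : XS ℂ κ Empty Empty N) : Ea (κ × Z) × Unit :=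
  (⟨(Matrix.of fun a b => if a.2 = b.2 then q.1.1 a.1 b.1 else 0, 0), by
    exact ⟨Pow2_isP q.2.1, mulVec_zero _⟩⟩, ())

theorem pmap_tens (ω : Z → M) : PMap 𝒢 (sa xa) ((ea fun p : κ × Z => ω p.2).prod triv)
    (tens Z : XS ℂ κ Empty Empty N → Ea (κ × Z) × Unit) := by
  refine ⟨Continuous.isProperMap ?_, fun g _ q => Prod.ext (Subtype.ext (Prod.ext ?_ ?_)) rfl⟩
  · exact (Continuous.subtype_mk ((Pow2_cont XS_val.fst).prodMk continuous_const) _).prodMk
      continuous_const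
  · exact Pow2_mp ω g q.1.1
  · exact (rp_zero _ g).symm

theorem tens_deg (h : n' = n + Fintype.card Z * N) (q : XS ℂ κ Empty Empty N) :
    ((n' : ℤ) : ℂ) = (n : ℤ) + (tens Z q).1.1.1.trace := by
  have e : (tens Z q).1.1.1.trace = (Fintype.card Z : ℂ) * q.1.1.trace := Pow2_trace q.1.1
  rw [e, q.2.2.1, h]
  push_cast
  rfl

/-- The Thom diagonal of a representative with zero weights. -/
theorem exists_diag {L : Lv M} (hN : N = n + Fintype.card L.ι)
    {f : BM (X × (L.ι → ℂ)) (Ea L.κ × Unit)} :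
    (∀ x (q : Ea L.κ × Unit), f.f x = q → q.1.1.1.trace = (N : ℂ)) →
    ∃ g : BM (X × (L.ι → ℂ)) (Ea L.κ × XS ℂ L.κ Empty Empty N),
      (∀ x, (g.f x).map (fun p => (p.1, ())) = f.f x) ∧
      (∀ x (p : Ea L.κ × XS ℂ L.κ Empty Empty N), g.f x = p → p.2.1.1 = p.1.1.1) ∧
      ∀ ℋ : Set (Gam M), (MU M).Gd ℋ α triv (fun _ => n) (L.zero M) f →
        (MU M).Gd ℋ α (sa xa) (fun _ => n) (L.zero M) g := by
  intro hf
  have hv : Continuous fun q : Ea L.κ × Unit => q.1.1.1 :=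
    (continuous_subtype_val.comp continuous_fst).fst
  have hi : IsClosedEmbedding
      (Subtype.val : {q : Ea L.κ × Unit // q.1.1.1.trace = (N : ℂ)} → Ea L.κ × Unit) :=
    (isClosed_eq hv.matrix_trace continuous_const).isClosedEmbedding_subtypeVal
  have hr : ∀ x (q : Ea L.κ × Unit), f.f x = q → q ∈ range
      (Subtype.val : {q : Ea L.κ × Unit // q.1.1.1.trace = (N : ℂ)} → Ea L.κ × Unit) :=
    fun x q e => ⟨⟨q, hf x q e⟩, rfl⟩
  let φ : {q : Ea L.κ × Unit // q.1.1.1.trace = (N : ℂ)} → Ea L.κ × XS ℂ L.κ Empty Empty N :=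
    fun q => (q.1.1, ⟨(q.1.1.1.1, 0, 0), q.1.1.2.1, q.2, Matrix.mul_zero _, Matrix.mul_zero _⟩)
  have hc : Continuous φ := continuous_subtype_val.fst.prodMk
    (Continuous.subtype_mk ((hv.comp continuous_subtype_val).prodMk continuous_const) _)
  have hφ : IsProperMap φ :=
    isProperMap_of_comp_of_t2 (g := fun p : Ea L.κ × XS ℂ L.κ Empty Empty N => (p.1, ())) hc
      (continuous_fst.prodMk continuous_const) hi.isProperMap
  refine ⟨(f.lift _ hi hr).map φ hφ, fun x => ?_, fun x p e => ?_, fun ℋ hG => ?_⟩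
  · rw [BM.map_f, omap_map]
    exact f.lift_map _ hi hr x
  · obtain ⟨y, -, rfl⟩ := omap_eq_coe.1 e
    rfl
  · let γ : Act (Gam M) {q : Ea L.κ × Unit // q.1.1.1.trace = (N : ℂ)} := fun g q =>
      ⟨(ea (0 : L.κ → M) g q.1.1, ()), (ea_trace _ g _).trans q.2⟩
    have h1 := Good.lift (γ := γ) hG hi (fun _ _ _ => rfl) hr
    refine h1.map (β' := (ea (0 : L.κ → M)).prod (sa xa)) ⟨hφ, fun g _ q => ?_⟩ fun y hy => hy
    refine Prod.ext rfl (Subtype.ext (Prod.ext ?_ (Prod.ext ?_ ?_)))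
    · ext i j
      change ch g (0 - 0) * tw g.e (q.1.1.1.1 i j) = tw g.e (q.1.1.1.1 i j)
      rw [sub_self, ch_zero, one_mul]
    · ext i j
      exact isEmptyElim j
    · ext i j
      exact isEmptyElim j

/-- Splitting off the base index. -/
def Pow2_c (ι : Type) (k₀ : K) : ι ⊕ ι × {j // j ≠ k₀} ≃ ι × K where
  toFun := Sum.elim (fun i => (i, k₀)) fun p => (p.1, p.2.1)
  invFun p := if h : p.2 = k₀ then Sum.inl p.1 else Sum.inr (p.1, ⟨p.2, h⟩)
  left_inv := by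
    rintro (i | ⟨i, j, hj⟩)
    · exact dif_pos rfl
    · exact dif_neg hj
  right_inv := by
    rintro ⟨i, j⟩
    by_cases h : j = k₀
    · subst h
      simp
    · simp [h]

/-- Scaling the vector. -/
def Pow2_sc (r : ℂ) (q : Ea κ) : Ea κ :=
  ⟨(q.1.1, r • q.1.2), by exact ⟨q.2.1, by rw [mulVec_smul, q.2.2]⟩⟩

theorem Pow2_sc_cont {A : Type} [TopologicalSpace A] {r : A → ℂ} {q : A → Ea κ}
    (hr : Continuous r) (hq : Continuous q) : Continuous fun x => Pow2_sc (r x) (q x) := by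
  have h : Continuous fun x => (q x).1 := continuous_subtype_val.comp hq
  exact Continuous.subtype_mk (h.fst.prodMk (hr.smul h.snd)) _

theorem Pow2_sc_sc {r : ℂ} (hr : r ≠ 0) (q : Ea κ) : Pow2_sc r (Pow2_sc r⁻¹ q) = q :=
  Subtype.ext (Prod.ext rfl (smul_inv_smul₀ hr _))

/-- The path of scaling transitions. -/
noncomputable def Pow2_H (ι κ : Type) [Fintype κ] (r : I → ℝ) (hr : Continuous r)
    (h0 : ∀ t, r t ≠ 0) : Tr (ι → ℂ) (Ea κ) ((ι → ℂ) × I) (Ea κ) where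
  a x := (r x.2 : ℂ) • x.1
  Ψ p := Pow2_sc (r p.2.2 : ℂ)⁻¹ p.1
  ca := by
    exact (Complex.continuous_ofReal.comp (hr.comp continuous_snd)).smul continuous_fst
  cΨ := by
    exact Pow2_sc_cont ((Complex.continuous_ofReal.comp (hr.comp continuous_snd.snd)).inv₀
      fun p => Complex.ofReal_ne_zero.2 (h0 _)) continuous_fst
  p1 := by
    intro K' hK'
    have hc : Continuous fun p : Ea κ × I => Pow2_sc (r p.2 : ℂ) p.1 :=
      Pow2_sc_cont (Complex.continuous_ofReal.comp (hr.comp continuous_snd)) continuous_fst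
    exact ⟨_, (hK'.prod isCompact_univ).image hc, fun t x hx =>
      ⟨(_, x.2), ⟨hx, trivial⟩, Pow2_sc_sc (Complex.ofReal_ne_zero.2 (h0 _)) t⟩⟩
  p2 := by
    intro K' C _ hC
    have hc : Continuous fun p : (ι → ℂ) × I => ((r p.2 : ℂ)⁻¹ • p.1, p.2) :=
      (((Complex.continuous_ofReal.comp (hr.comp continuous_snd)).inv₀
        fun p => Complex.ofReal_ne_zero.2 (h0 _)).smul continuous_fst).prodMk continuous_snd
    exact ⟨_, (hC.prod isCompact_univ).image hc, fun t x _ hx =>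
      ⟨(_, x.2), ⟨hx, trivial⟩,
        Prod.ext (inv_smul_smul₀ (Complex.ofReal_ne_zero.2 (h0 _)) _) rfl⟩⟩

theorem Pow2_H_eqv {ι : Type} (w : ι → M) (u : κ → M) {r : I → ℝ} (hr : Continuous r)
    (h0 : ∀ t, r t ≠ 0) :
    (Pow2_H ι κ r hr h0).Eqv 𝒢 (rp w) (ea u) ((rp w).prod triv) (ea u) := by
  refine ⟨fun g _ x => (rp_smul w g (r x.2) x.1).symm,
    fun g _ t x => Subtype.ext (Prod.ext rfl ?_)⟩
  change (r x.2 : ℂ)⁻¹ • rp u g t.1.2 = rp u g ((r x.2 : ℂ)⁻¹ • t.1.2)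
  rw [← Complex.ofReal_inv, rp_smul]

/-- The sum of copies of the projection, with the vector in the base copy. -/
def Pow2_th (k₀ : K) (q : Ea κ) : Ea (κ × K) :=
  ⟨(Matrix.of fun a b => if a.2 = b.2 then q.1.1 a.1 b.1 else 0,
    fun a => if a.2 = k₀ then q.1.2 a.1 else 0), by
    refine ⟨Pow2_isP q.2.1, funext fun a => ?_⟩
    have h := congrFun q.2.2 a.1
    rw [mulVec, dotProduct] at h ⊢
    rw [Fintype.sum_prod_type]
    by_cases e : a.2 = k₀
    · simp [e, ← h]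
    · simp only [of_apply, if_neg e]
      refine Finset.sum_eq_zero fun k _ => Finset.sum_eq_zero fun z _ => ?_
      by_cases h' : a.2 = z
      · subst h'
        simp [e]
      · simp [h']⟩

theorem Pow2_th_pmap {wt : K → M} (h0 : wt k₀ = 0) :
    PMap 𝒢 ((ea (0 : κ → M)).prod (triv : Act (Gam M) Unit))
      ((ea fun p : κ × K => wt p.2).prod triv)
      fun p : Ea κ × Unit => (Pow2_th k₀ p.1, p.2) := by
  have hv : Continuous fun q : Ea κ => q.1 := continuous_subtype_val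
  have h1 : Continuous fun (q : Ea κ) (a : κ × K) => if a.2 = k₀ then q.1.2 a.1 else 0 := by
    refine continuous_pi fun a => ?_
    split_ifs
    · exact (continuous_apply _).comp hv.snd
    · exact continuous_const
  have h2 : IsProperMap fun (q : Ea κ) (a : κ × K) => if a.2 = k₀ then q.1.2 a.1 else 0 := by
    refine isProperMap_of_comp_of_t2 (g := fun (W : κ × K → ℂ) (i : κ) => W (i, k₀)) h1
      (by fun_prop) ?_
    convert ea_proper_snd (κ := κ) using 1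
    funext q i
    exact if_pos rfl
  have h3 : IsProperMap (Pow2_th k₀ : Ea κ → Ea (κ × K)) :=
    proper_to_ea (Continuous.subtype_mk ((Pow2_cont hv.fst).prodMk h1) _) h2
  refine ⟨h3.prodMap isProperMap_id, fun g _ p => Prod.ext (Subtype.ext (Prod.ext ?_ ?_)) rfl⟩
  · refine Eq.trans ?_ (Pow2_mp wt g p.1.1.1)
    ext a b
    change (if a.2 = b.2 then ch g (0 - 0) * tw g.e (p.1.1.1 a.1 b.1) else 0) =
      if a.2 = b.2 then tw g.e (p.1.1.1 a.1 b.1) else 0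
    rw [sub_self, ch_zero, one_mul]
  · funext a
    change (if a.2 = k₀ then ch g 0 * tw g.e (p.1.1.2 a.1) else 0) =
      ch g (wt a.2) * tw g.e (if a.2 = k₀ then p.1.1.2 a.1 else 0)
    by_cases e : a.2 = k₀
    · rw [if_pos e, if_pos e, e, h0]
    · rw [if_neg e, if_neg e, MU_tw_zero, mul_zero]

theorem Pow2_four (D : PowData 𝒢 K k₀) {ι : Type} (v : ι → ℂ) (k : K) :
    four D.F (Sum.elim v 0 ∘ (Pow2_c ι k₀).symm) k = (D.c : ℂ) • v := by
  funext i
  rw [four, Finset.sum_eq_single k₀ (fun j _ hj => ?_) (by simp), D.col]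
  · change _ * Sum.elim v 0 (if h : k₀ = k₀ then _ else _) = _
    rw [dif_pos rfl]
    rfl
  · change _ * Sum.elim v 0 (if h : j = k₀ then _ else _) = _
    rw [dif_neg hj]
    exact mul_zero _

theorem Pow2_asm (D : PowData 𝒢 K k₀) (q : Ea κ) :
    asm D.F D.uni (fun _ => q) = Pow2_th k₀ (Pow2_sc (D.c : ℂ)⁻¹ q) := by
  have h : ∀ j j', ∑ k, star (D.F k j) * D.F k j' = if j = j' then 1 else 0 := fun j j' =>
    (mul_apply (M := D.Fᴴ) (N := D.F) (i := j) (k := j')).symm.trans (by rw [D.uni, one_apply])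
  have hc : (D.c : ℂ) ≠ 0 := Complex.ofReal_ne_zero.2 D.hc.ne'
  refine Subtype.ext (Prod.ext ?_ ?_)
  · ext a b
    change ∑ k, star (D.F k a.2) * q.1.1 a.1 b.1 * D.F k b.2 =
      if a.2 = b.2 then q.1.1 a.1 b.1 else 0
    simp only [mul_right_comm _ (q.1.1 a.1 b.1), ← Finset.sum_mul, h, ite_mul, one_mul, zero_mul]
  · funext a
    change ∑ k, star (D.F k a.2) * q.1.2 a.1 =
      if a.2 = k₀ then (D.c : ℂ)⁻¹ * q.1.2 a.1 else 0
    have h1 := h a.2 k₀
    simp only [D.col, ← Finset.sum_mul] at h1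
    rw [← Finset.sum_mul, (eq_mul_inv_iff_mul_eq₀ hc).2 h1]
    split_ifs <;> simp

omit [Fintype K] [DecidableEq K] in
theorem Pow2_tup {Y : Type} (k₀ : K) (a : OnePoint Y) :
    tup (fun _ : K => a) = a.map fun y _ => y := by
  induction a using OnePoint.rec with
  | infty => exact tup_infty (k := k₀) rfl
  | coe y => exact tup_coe fun _ => y

theorem Pow2_ext0 (q : Ea κ) (r : XS ℂ κ Empty Empty N) (h : r.1.1 = q.1.1) :
    Ea.ext0 (Pow2_c κ k₀).toEmbedding (Ea.sum q (tens {j // j ≠ k₀} r).1) = Pow2_th k₀ q := by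
  refine Ea.ext0_eq _ ?_ (fun j hj => absurd ((Pow2_c κ k₀).surjective j) hj) ?_
  · rintro (j | j) (k | k)
    · exact if_pos rfl
    · exact if_neg fun e => k.2.2 e.symm
    · exact if_neg j.2.2
    · change (if j.2.1 = k.2.1 then q.1.1 j.1 k.1 else 0) =
        if j.2 = k.2 then r.1.1 j.1 k.1 else 0
      simp only [h, Subtype.ext_iff]
  · rintro (j | j)
    · exact if_pos rfl
    · exact if_neg j.2.2

theorem PowData.pow_fixed (D : PowData 𝒢 K k₀) {L : Lv M} (h : n₁ = Fintype.card K * n)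
    (h₁ : n' = n₁ + Fintype.card (L.ι × {j // j ≠ k₀}))
    (h₂ : n' = n + Fintype.card {j // j ≠ k₀} * N) {f : BM (X × (L.ι → ℂ)) (Ea L.κ × Unit)}
    (hf : (MU M).Gd 𝒢 α triv (fun _ => n) (L.zero M) f)
    {g : BM (X × (L.ι → ℂ)) (Ea L.κ × XS ℂ L.κ Empty Empty N)}
    (hg : (MU M).Gd 𝒢 α (sa xa) (fun _ => n) (L.zero M) g)
    (h₃ : ∀ x, (g.f x).map (fun p => (p.1, ())) = f.f x)
    (h₄ : ∀ x (p : Ea L.κ × XS ℂ L.κ Empty Empty N), g.f x = p → p.2.1.1 = p.1.1.1) :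
    mF (fun p : L.ι × {j // j ≠ k₀} => D.wt p.2) h₁
        (cl (sy := MU M) (D.lv L) (D.pow f) (D.gd_pow h hf)) =
      absb (fun p : L.κ × {j // j ≠ k₀} => D.wt p.2)
        (pmap_tens fun j : {j // j ≠ k₀} => D.wt j.1) (tens_deg h₂)
        (cl (sy := MU M) (L.zero M) g hg) := by
  obtain ⟨f₀, hf₀, e₀, e₁⟩ := lemF (D.lv L) (Pow2_c L.ι k₀) h₁ (D.gd_pow h hf)
  refine e₁.symm.trans ?_
  rw [absb_cl]
  have hr : Continuous fun t : I => (1 - (t : ℝ)) * D.c + t := by fun_prop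
  have h0 : ∀ t : I, (1 - (t : ℝ)) * D.c + t ≠ 0 := fun t => by
    have h1 := t.2.1
    have h2 := t.2.2
    have h3 := D.hc
    have h4 : 0 ≤ (1 - (t : ℝ)) * D.c := mul_nonneg (by linarith) h3.le
    rcases h1.eq_or_lt with h5 | h5
    · rw [← h5]
      linarith
    · linarith
  have k1 := Tr.ht_path_prod (E := (MU M).D (L.zero M) fun _ : Unit => n)
    (E' := (MU M).D (L.zero M) fun _ : Unit => n)
    (Pow2_H_eqv (𝒢 := 𝒢) (0 : L.ι → M) (0 : L.κ → M) hr h0) (fun t y ht x => ht) hf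
  let L' : Lv M := Lv.mk L.ι (L.κ × K) ((D.lv L).w ∘ Pow2_c L.ι k₀ ∘ Sum.inl) (D.lv L).u
  have hw : ((D.lv L).w ∘ Pow2_c L.ι k₀ ∘ Sum.inl) = 0 := funext fun _ => D.wt0
  have k2 := k1.map (D' := (MU M).D L' fun _ : Unit => n') (Pow2_th_pmap D.wt0) fun y hy => by
    have a1 : y.1.1.1.trace - (Fintype.card L.ι : ℂ) = (n : ℤ) := hy
    have a2 : (Pow2_th k₀ y.1).1.1.trace = (Fintype.card K : ℂ) * y.1.1.1.trace := Pow2_trace _
    have a3 := Fintype.card_congr (Pow2_c L.ι k₀)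
    rw [Fintype.card_sum, Fintype.card_prod L.ι K] at a3
    have a4 := congrArg (Nat.cast : ℕ → ℂ) a3
    change (Pow2_th k₀ y.1).1.1.trace - (Fintype.card L.ι : ℂ) = (n' : ℤ)
    rw [a2, h₁, h]
    push_cast at a4 ⊢
    linear_combination (Fintype.card K : ℂ) * a1 - a4
  have k3 : (MU M).Hm 𝒢 α triv (fun _ => n') L' _ _ :=
    k2.congr (α₁ := α.prod (rp L'.w)) (fun _ _ _ => by rw [show L'.w = 0 from hw])
      fun _ _ _ => rfl
  refine (cl_congr (hg := k3.left) fun p => ?_).trans ((cl_htpy k3).trans ?_)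
  · obtain ⟨x, v⟩ := p
    rw [e₀]
    change (tup fun k => f.f (x, four D.F _ k)).map _ =
      ((f.f (x, (((1 - ((0 : I) : ℝ)) * D.c + (0 : I) : ℝ) : ℂ) • v)).map fun t =>
        (Pow2_sc (((1 - ((0 : I) : ℝ)) * D.c + (0 : I) : ℝ) : ℂ)⁻¹ t.1, t.2)).map _
    simp only [Pow2_four, Pow2_tup k₀, omap_map, Pow2_asm, Icc.coe_zero, sub_zero, one_mul,
      add_zero]
  · refine cl_reidx (L := (L.zero M).addT fun p : L.κ × {j // j ≠ k₀} => D.wt p.2) (L' := L')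
      (Equiv.refl _) (Pow2_c L.κ k₀).toEmbedding (fun g _ _ => congrArg (ch g) D.wt0)
      (fun g _ j => ?_) _ _ fun x v => ?_
    · rcases j with j | j
      · exact congrArg (ch g) D.wt0
      · rfl
    · change ((f.f (x, (((1 - ((1 : I) : ℝ)) * D.c + (1 : I) : ℝ) : ℂ) • v)).map fun t =>
        (Pow2_sc (((1 - ((1 : I) : ℝ)) * D.c + (1 : I) : ℝ) : ℂ)⁻¹ t.1, t.2)).map _ =
          (((g.f (x, v)).map _).map _)
      have e : ∀ q : Ea L.κ, Pow2_sc 1 q = q := fun q => Subtype.ext (Prod.ext rfl (one_smul _ _))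
      simp only [Icc.coe_one, sub_self, zero_mul, zero_add, Complex.ofReal_one, one_smul, inv_one,
        e, ← h₃, omap_map]
      exact omap_congr _ fun p hp => Prod.ext (Pow2_ext0 p.1 p.2 (h₄ _ p hp)).symm rfl

/-- At a coordinate projection the absorption is a product of Euler classes. -/
theorem absb_tens_pt [DecidableEq κ] (ω : Z → M) (S : Finset κ) (hS : (S.card : ℤ) = N)
    (h₂ : n' = n + Fintype.card Z * N) (h₃ : n' = n + Fintype.card (S × Z)) (y : E0 𝒢 α n) :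
    absb (fun p : κ × Z => ω p.2) (pmap_tens ω) (tens_deg h₂)
        (postP (pmap_xsPt S hS) (fun _ => rfl) y) = mF (fun p : S × Z => ω p.2) h₃ y := by
  obtain ⟨L, f, hf, rfl⟩ := cl_surj y
  rw [postP_cl, absb_cl, mF_cl]
  let b : L.κ ⊕ S × Z ↪ L.κ ⊕ κ × Z := (Function.Embedding.refl L.κ).sumMap
    ((Function.Embedding.subtype _).prodMap (Function.Embedding.refl Z))
  refine cl_reidx (L := Lv.addT L fun p : S × Z => ω p.2) (L' := Lv.addT L fun p : κ × Z => ω p.2)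
    (Equiv.refl _) b (fun _ _ _ => rfl) (fun g _ j => by rcases j with j | j <;> rfl) _ _
    fun x v => ?_
  simp only [absB_f, BM.map_f, omap_map]
  refine omap_congr _ fun p _ => Prod.ext (Ea.ext0_eq b ?_ ?_ ?_).symm rfl
  · rintro (j | j) (k | k)
    · rfl
    · rfl
    · rfl
    · change (if j.2 = k.2 then diagonal (fun j => if j ∈ S then (1 : ℂ) else 0) j.1.1 k.1.1
        else 0) = (1 : Matrix (S × Z) (S × Z) ℂ) j k
      obtain ⟨⟨j, hj⟩, z⟩ := j
      obtain ⟨⟨k, hk⟩, z'⟩ := k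
      by_cases h : z = z' <;> by_cases h' : j = k <;> simp [one_apply, h, h', hk]
  · rintro (j | j) hj (k | k)
    · exact absurd ⟨Sum.inl j, rfl⟩ hj
    · exact absurd ⟨Sum.inl j, rfl⟩ hj
    · rfl
    · have hj' : j.1 ∉ S := fun h => hj ⟨Sum.inr (⟨j.1, h⟩, j.2), rfl⟩
      change (if j.2 = k.2 then diagonal (fun j => if j ∈ S then (1 : ℂ) else 0) j.1 k.1
        else 0) = 0
      simp [diagonal_apply, hj']
  · rintro (j | j) <;> rfl

end RB
end

-- merged part: Pool.Agent.Work.MP_666b5d_gt.Pow3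
section
/-!
# The key relation of the Quillen argument

Proof plan for `pow_main`.  Let `N = n + card ι`, `g` the Thom diagonal (`exists_diag`), and
`x = cl f` for `ℋ = ctx ⊤ ε`.  `postP` along `XS → Unit` (proper, as `XS … Empty Empty N` is compact)
sends `cl g` to `x`.  By `t1` either `cl g = 0`, so `x = 0`, or `cl g = postP (xsPt S) y`, and then
`y = x` (`postP_postP`, `postP_id`).  Inflate to `𝒢` (`infl_ctx`, `infl_cl`, `infl_postP`, `ga_xa`) and
combine `pow_fixed` with `absb_tens_pt`.  As `card ι = card S + (-n)`, choose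
`ι ≃ Fin (-n).toNat ⊕ S` and use `mF_equiv`, `mF_sum`.
`quil_step`: apply `sJ` (`mF_sJ`, `infl_sJ`, `res_sJ`), put `z = mF (sJ (cl (pow f))) - infl (sJ x)`,
use `mF_add`, `res_add`, `mF_res`, `res_infl`, `infl_self` and `t2`.
-/

open Set Filter Topology Matrix
open scoped unitInterval

namespace RB

open Act

variable {M : Type} [AddCommGroup M] {X : Type} [TopologicalSpace X] [LC X] {α : Act (Gam M) X}
  {K : Type} [Fintype K] [DecidableEq K] {k₀ : K} {Λ : AddSubgroup M} {ε : Bool} {n n₁ : ℤ}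

theorem Pow3_card (k₀ : K) : (Fintype.card K : ℤ) = Fintype.card {j // j ≠ k₀} + 1 := by
  have h1 : Fintype.card {j // j ≠ k₀} = Fintype.card K - 1 := by
    rw [Fintype.card_subtype_compl, Fintype.card_subtype_eq]
  have h2 : 0 < Fintype.card K := Fintype.card_pos_iff.2 ⟨k₀⟩
  omega

theorem Pow3_mF_sub {𝒢 : Set (Gam M)} {ν : Type} [Fintype ν] [DecidableEq ν] (ω : ν → M)
    (h : n₁ = n + Fintype.card ν) (x y : E0 𝒢 (α.prod (triv : Act (Gam M) J)) n) :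
    mF ω h (x - y) = mF ω h x - mF ω h y :=
  map_sub (AddMonoidHom.mk' (mF ω h) (mF_add ω h)) x y

theorem Pow3_res_sub {𝒢 ℋ : Set (Gam M)} (h : ℋ ⊆ 𝒢)
    (x y : E0 𝒢 (α.prod (triv : Act (Gam M) J)) n) : res h (x - y) = res h x - res h y :=
  map_sub (AddMonoidHom.mk' (res h) (res_add h)) x y

theorem PowData.pow_main (D : PowData (ctx Λ ε : Set (Gam M)) K k₀) (hα : SgnOnly α) (hn : n ≤ 0)
    (hv : ∀ k, n < k → ∀ x : E0 (ctx (⊤ : AddSubgroup M) ε : Set (Gam M)) α k, x = 0) {L : Lv M}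
    {f : BM (X × (L.ι → ℂ)) (Ea L.κ × Unit)}
    (hf : (MU M).Gd (ctx (⊤ : AddSubgroup M) ε : Set (Gam M)) α triv (fun _ => n) (L.zero M) f)
    (hf' : (MU M).Gd (ctx Λ ε : Set (Gam M)) α triv (fun _ => n) (L.zero M) f)
    (h : n₁ = Fintype.card K * n) :
    cl (sy := MU M) (L.zero M) f hf = 0 ∨
      ∃ (S Q : Type) (_ : Fintype S) (_ : DecidableEq S) (_ : Fintype Q) (_ : DecidableEq Q)
        (h₁ : n = n₁ + Fintype.card (Q × {j // j ≠ k₀})),
        mF (fun p : S × {j // j ≠ k₀} => D.wt p.2) rfl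
            (mF (fun p : Q × {j // j ≠ k₀} => D.wt p.2) h₁
              (cl (sy := MU M) (D.lv L) (D.pow f) (D.gd_pow h hf'))) =
          mF (fun p : S × {j // j ≠ k₀} => D.wt p.2) rfl (cl (sy := MU M) (L.zero M) f hf') := by
  have htr : ∀ x (q : Ea L.κ × Unit), f.f x = q →
      q.1.1.1.trace = ((n + Fintype.card L.ι : ℤ) : ℂ) := by
    intro x q hq
    have h1 : q.1.1.1.trace - (Fintype.card L.ι : ℂ) = (n : ℂ) := hf.mem x q hq
    push_cast
    linear_combination h1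
  obtain ⟨g, h₃, h₄, hg⟩ := exists_diag (α := α) (n := n) rfl htr
  have pU : PMap (ctx (⊤ : AddSubgroup M) ε : Set (Gam M))
      (sa (xa : Act ℤˣ (XS ℂ L.κ Empty Empty (n + Fintype.card L.ι)))) (triv : Act (Gam M) Unit)
      fun _ => () := ⟨continuous_const.isProperMap, fun _ _ _ => rfl⟩
  have hx : postP pU (fun _ => rfl) (cl (sy := MU M) (L.zero M) g (hg _ hf)) =
      cl (sy := MU M) (L.zero M) f hf := by
    rw [postP_cl]
    exact cl_congr h₃
  rcases t1 hv L.κ _ (cl (sy := MU M) (L.zero M) g (hg _ hf)) with h0 | ⟨S, hS, y, hy⟩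
  · left
    rw [← hx, h0, postP_zero]
  right
  have hyx : y = cl (sy := MU M) (L.zero M) f hf := by
    rw [← hx, hy]
    exact ((postP_postP (d := fun _ => n) (d' := fun _ => n) (d'' := fun _ => n) (pmap_xsPt S hS)
      (fun _ => rfl) pU (fun _ => rfl) PMap.id (fun _ => rfl) (fun _ => rfl) y).trans
      (postP_id (d := fun _ => n) PMap.id (fun _ => rfl) (fun _ => rfl) y)).symm
  have hG : cl (sy := MU M) (L.zero M) g (hg _ hf') =
      postP (pmap_xsPt S hS) (fun _ => rfl) (cl (sy := MU M) (L.zero M) f hf') := by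
    have h1 := congrArg (infl (infl_ctx hα (SgnOnly.sa ga_xa) Λ ε)) hy
    rw [infl_postP (infl_ctx hα SgnOnly.triv Λ ε) _ _ (pmap_xsPt S hS), hyx] at h1
    exact h1
  have hK : (Fintype.card K : ℤ) = Fintype.card {j // j ≠ k₀} + 1 := Pow3_card k₀
  have hQ : ((Fintype.card (Fin (-n).toNat) : ℕ) : ℤ) = -n := by
    rw [Fintype.card_fin, Int.toNat_of_nonneg (by omega)]
  have hSc : ((Fintype.card S : ℕ) : ℤ) = n + Fintype.card L.ι := by
    rw [Fintype.card_coe, hS]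
  have hc : Fintype.card (Fin (-n).toNat ⊕ S) = Fintype.card L.ι := by
    rw [Fintype.card_sum]
    omega
  let c : Fin (-n).toNat × {j // j ≠ k₀} ⊕ S × {j // j ≠ k₀} ≃ L.ι × {j // j ≠ k₀} :=
    (Equiv.sumProdDistrib _ _ _).symm.trans
      ((Fintype.equivOfCardEq hc).prodCongr (Equiv.refl _))
  have e₁ : n = n₁ + Fintype.card (Fin (-n).toNat × {j // j ≠ k₀}) := by
    rw [h, hK, Fintype.card_prod, Nat.cast_mul, hQ]
    ring
  have e₂ : n + (Fintype.card (S × {j // j ≠ k₀}) : ℤ) =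
      n + Fintype.card {j // j ≠ k₀} * (n + Fintype.card L.ι) := by
    rw [Fintype.card_prod, Nat.cast_mul, hSc]
    ring
  have e₃ : n + (Fintype.card (S × {j // j ≠ k₀}) : ℤ) =
      n₁ + Fintype.card (L.ι × {j // j ≠ k₀}) := by
    rw [e₂, h, hK, Fintype.card_prod, Nat.cast_mul]
    ring
  have e₄ : n + (Fintype.card (S × {j // j ≠ k₀}) : ℤ) =
      n₁ + Fintype.card (Fin (-n).toNat × {j // j ≠ k₀} ⊕ S × {j // j ≠ k₀}) := by
    rw [e₃, Fintype.card_congr c]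
  refine ⟨S, Fin (-n).toNat, inferInstance, inferInstance, inferInstance, inferInstance, e₁, ?_⟩
  rw [← mF_sum _ _ e₁ rfl e₄, mF_equiv c _ (fun p : L.ι × {j // j ≠ k₀} => D.wt p.2)
    (by rintro (p | p) <;> rfl) e₄ e₃, D.pow_fixed h e₃ e₂ hf' (hg _ hf') h₃ h₄, hG]
  exact absb_tens_pt (fun j : {j // j ≠ k₀} => D.wt j.1) S hS e₂ rfl _

theorem PowData.quil_step (D : PowData (ctx Λ ε : Set (Gam M)) K k₀) (hα : SgnOnly α) (hn : n ≤ 0)
    (hv : ∀ k, n < k → ∀ x : E0 (ctx (⊤ : AddSubgroup M) ε : Set (Gam M)) α k, x = 0)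
    (hinj : ∀ j, j ≠ k₀ → ∀ k, n + 1 < k →
      ∀ y : E0 (ctx Λ ε : Set (Gam M)) ((α.prod (sa sg)).prod (triv : Act (Gam M) J)) k,
        m1 (D.wt j) rfl y = 0 → y = 0)
    {L : Lv M} {f : BM (X × (L.ι → ℂ)) (Ea L.κ × Unit)}
    (hf : (MU M).Gd (ctx (⊤ : AddSubgroup M) ε : Set (Gam M)) α triv (fun _ => n) (L.zero M) f)
    (hnull : (MU M).Hm (ctx (⊤ : AddSubgroup M) ε : Set (Gam M)) α triv
      (fun _ => (Fintype.card K * n : ℤ)) (D.lv L) (D.pow f) BM.zero) :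
    cl (sy := MU M) (L.zero M) f hf = 0 ∨
      ∃ z : E0 (ctx Λ ε : Set (Gam M)) ((α.prod (sa sg)).prod (triv : Act (Gam M) J)) (n + 1),
        res (ctx_mono le_top ε) z = - sJ rfl (cl (sy := MU M) (L.zero M) f hf) ∧
        (z = 0 ∨ ∃ j, j ≠ k₀ ∧ m1 (D.wt j) rfl z = 0) := by
  have hf' : (MU M).Gd (ctx Λ ε : Set (Gam M)) α triv (fun _ => n) (L.zero M) f :=
    gd_inf (L := L.zero M) (infl_ctx hα SgnOnly.triv Λ ε) hf
  rcases D.pow_main hα hn hv hf hf' rfl with h0 | ⟨S, Q, _, _, _, _, h₁, he⟩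
  · exact Or.inl h0
  right
  have hP : res (ctx_mono le_top ε)
      (cl (sy := MU M) (D.lv L) (D.pow f) (D.gd_pow rfl hf')) = 0 := cl_eq_zero_of_ht hnull
  refine ⟨sJ rfl (mF (fun p : Q × {j // j ≠ k₀} => D.wt p.2) h₁
      (cl (sy := MU M) (D.lv L) (D.pow f) (D.gd_pow rfl hf'))) -
      sJ rfl (cl (sy := MU M) (L.zero M) f hf'), ?_, ?_⟩
  · rw [Pow3_res_sub, res_sJ, res_sJ, ← mF_res, hP, mF_zero, sJ_zero, zero_sub]
    rfl
  · have e : (n + 1 + Fintype.card (S × {j // j ≠ k₀}) : ℤ) =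
        n + Fintype.card (S × {j // j ≠ k₀}) + 1 := by ring
    refine (t2 (fun w => ∃ j, j ≠ k₀ ∧ w = D.wt j) ?_ (fun p : S × {j // j ≠ k₀} => D.wt p.2)
      (fun p => ⟨p.2.1, p.2.2, rfl⟩) rfl _ ?_).imp id ?_
    · rintro _ ⟨j, hj, rfl⟩
      exact hinj j hj
    · rw [Pow3_mF_sub, mF_sJ _ rfl rfl rfl e, mF_sJ _ rfl rfl rfl e, he, sub_self]
    · rintro ⟨_, ⟨j, hj, rfl⟩, hz⟩
      exact ⟨j, hj, hz⟩

end RB
end

-- merged part: Pool.Agent.Work.MP_666b5d_gt.Torus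
section
/-!
# Reduction from the torus to the group of order two

Proof plan.  Take a representative `f` at `L`; split `L.ι` into weight zero and nonzero indices and
let `f₀` be the restriction (`lemF`); by `thmA_mF` it is enough to show `cl f₀ = 0`.  By
`fixed_block` (`Λ = Λ' = ⊥`) the values `(P, v)` of `f₀` are block diagonal and `v` is supported on
`κ₀ = {j // u j = 0}`.  With `κ₁ = {j // u j ≠ 0}` lift `f₀` along the closed embedding
`Ea κ₀ × (Unit × GrB u₁) → Ea κ × Unit` (`BM.lift`) to `g`, a representative at the level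
`(ι₀, κ₀)` with zero weights for `ctx ⊤ ε` with degree function `n' - rk Q`.  Its class is zero
(`van_grB`, `van_unit`; the degree is bounded below by `n' - card κ₁`), and
`cl f₀ = absb θ (infl (cl g))` with `θ (_, Q) = ((Q, 0), ())` (`infl_ctx'`, `cl_reidx`).
-/

open Set Filter Topology Matrix
open scoped unitInterval

namespace RB

open Act

variable {M : Type} [AddCommGroup M]

section Aux

variable {ι κ κ₀ κ₁ : Type} [Fintype ι] [DecidableEq ι] [Fintype κ] [DecidableEq κ] [Fintype κ₀]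
  [DecidableEq κ₀] [Fintype κ₁] [DecidableEq κ₁]

/-- A block diagonal projection with the zero vector. -/
def Torus_th (u₁ : κ₁ → M) (y : Unit × GrB u₁) : Ea κ₁ × Unit :=
  (⟨(y.2.1, 0), y.2.2.1, mulVec_zero _⟩, ())

omit [DecidableEq κ₁] in
theorem Torus_pmap (𝒢 : Set (Gam M)) (u₁ : κ₁ → M) :
    PMap 𝒢 (sa ((triv : Act ℤˣ Unit).prod gra)) ((ea u₁).prod triv) (Torus_th u₁) := by
  refine ⟨Continuous.isProperMap (Continuous.prodMk (Continuous.subtype_mk
    ((continuous_subtype_val.comp continuous_snd).prodMk continuous_const) _) continuous_const),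
    fun g _ y => Prod.ext (Subtype.ext (Prod.ext ?_ (rp_zero u₁ g).symm)) rfl⟩
  ext j k
  change tw g.e (y.2.1 j k) = ch g (u₁ j - u₁ k) * tw g.e (y.2.1 j k)
  by_cases h : y.2.1 j k = 0
  · rw [h, MU_tw_zero, mul_zero]
  · rw [y.2.2.2 j k h, sub_self, ch_zero, one_mul]

/-- The closed embedding of the block diagonal elements. -/
def Torus_emb (κ₀ : Type) [Fintype κ₀] (u₁ : κ₁ → M) (p : Ea κ₀ × (Unit × GrB u₁)) :
    Ea (κ₀ ⊕ κ₁) × Unit :=
  (Ea.sum p.1 (Torus_th u₁ p.2).1, (Torus_th u₁ p.2).2)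

omit [DecidableEq κ₀] [DecidableEq κ₁] in
theorem Torus_emb_closed (u₁ : κ₁ → M) : IsClosedEmbedding (Torus_emb κ₀ u₁) := by
  have hp : IsProperMap (Torus_emb κ₀ u₁) := EE_absP (Torus_pmap univ u₁).proper
  refine IsClosedEmbedding.of_continuous_injective_isClosedMap hp.continuous ?_ hp.isClosedMap
  intro p q h
  have h1 : fromBlocks p.1.1.1 0 0 p.2.2.1 = fromBlocks q.1.1.1 0 0 q.2.2.1 :=
    congrArg (fun r : Ea (κ₀ ⊕ κ₁) × Unit => r.1.1.1) h
  have h2 : Sum.elim p.1.1.2 (0 : κ₁ → ℂ) = Sum.elim q.1.1.2 0 :=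
    congrArg (fun r : Ea (κ₀ ⊕ κ₁) × Unit => r.1.1.2) h
  obtain ⟨h3, -, -, h4⟩ := fromBlocks_inj.1 h1
  exact Prod.ext (Subtype.ext (Prod.ext h3 (funext fun j => congrFun h2 (Sum.inl j))))
    (Prod.ext rfl (Subtype.ext h4))

omit [DecidableEq κ₀] [DecidableEq κ₁] in
theorem Torus_range {u₁ : κ₁ → M} (hu : ∀ j, u₁ j ≠ 0) (q : Ea (κ₀ ⊕ κ₁) × Unit)
    (h₁ : ∀ j k, q.1.1.1 j k ≠ 0 → Sum.elim (0 : κ₀ → M) u₁ j = Sum.elim (0 : κ₀ → M) u₁ k)
    (h₂ : ∀ j, q.1.1.2 j ≠ 0 → Sum.elim (0 : κ₀ → M) u₁ j = 0) :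
    q ∈ range (Torus_emb κ₀ u₁) := by
  obtain ⟨⟨⟨P, v⟩, ⟨hP₁, hP₂⟩, hv⟩, ⟨⟩⟩ := q
  obtain ⟨A, D, rfl⟩ : ∃ A D, P = fromBlocks A 0 0 D := by
    refine ⟨P.toBlocks₁₁, P.toBlocks₂₂, ?_⟩
    ext (j | j) (k | k)
    · rfl
    · by_contra h
      exact hu k (h₁ _ _ h).symm
    · by_contra h
      exact hu j (h₁ _ _ h)
    · rfl
  obtain ⟨z, rfl⟩ : ∃ z : κ₀ → ℂ, v = Sum.elim z (0 : κ₁ → ℂ) := by
    refine ⟨v ∘ Sum.inl, ?_⟩
    ext (j | j)
    · rfl
    · by_contra h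
      exact hu j (h₂ (Sum.inr j) h)
  dsimp only at hP₁ hP₂ hv h₁
  rw [fromBlocks_conjTranspose, fromBlocks_inj] at hP₁
  rw [fromBlocks_multiply, fromBlocks_inj] at hP₂
  simp only [Matrix.mul_zero, Matrix.zero_mul, add_zero, zero_add] at hP₂
  have hz : A *ᵥ z = z := by
    funext j
    have := congrFun hv (Sum.inl j)
    simpa [fromBlocks_mulVec] using this
  exact ⟨(⟨(A, z), ⟨hP₁.1, hP₂.1⟩, hz⟩, ((), ⟨D, ⟨hP₁.2.2.2, hP₂.2.2.2⟩,
    fun j k h => h₁ (Sum.inr j) (Sum.inr k) h⟩)), rfl⟩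

theorem Torus_core {ε : Bool}
    (hv : ∀ n, ∀ x : E0 (ctx (⊤ : AddSubgroup M) ε : Set (Gam M)) (sa sg) n, x = 0)
    {u₁ : κ₁ → M} (hu : ∀ j, u₁ j ≠ 0) {n : ℤ} {f : BM (ℝ × (ι → ℂ)) (Ea (κ₀ ⊕ κ₁) × Unit)}
    (hf : (MU M).Gd (ctx (⊥ : AddSubgroup M) ε : Set (Gam M)) (sa sg) triv (fun _ => n)
      (Lv.mk ι (κ₀ ⊕ κ₁) 0 (Sum.elim 0 u₁)) f) :
    cl (sy := MU M) (Lv.mk ι (κ₀ ⊕ κ₁) 0 (Sum.elim 0 u₁)) f hf = 0 := by
  have hi := Torus_emb_closed (κ₀ := κ₀) u₁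
  have hr : ∀ x (q : Ea (κ₀ ⊕ κ₁) × Unit), f.f x = q → q ∈ range (Torus_emb κ₀ u₁) := by
    intro x q hq
    obtain ⟨h₁, h₂⟩ := fixed_block (Λ := ⊥) (L := Lv.mk ι (κ₀ ⊕ κ₁) 0 (Sum.elim 0 u₁)) sgnOnly_sg
      le_rfl (fun _ => zero_mem _) hf x q hq
    exact Torus_range hu q (fun j k h => sub_eq_zero.1 (AddSubgroup.mem_bot.1 (h₁ j k h)))
      fun j h => AddSubgroup.mem_bot.1 (h₂ j h)
  have hd : ∀ y : Unit × GrB u₁, ((n : ℤ) : ℂ) =
      ((n - rk y.2.1 : ℤ) : ℂ) + (Torus_th u₁ y).1.1.1.trace := by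
    intro y
    change _ = _ + y.2.1.trace
    rw [Int.cast_sub, y.2.2.1.rk_cast, sub_add_cancel]
  have hg : (MU M).Gd (ctx (⊤ : AddSubgroup M) ε : Set (Gam M)) (sa sg)
      (sa ((triv : Act ℤˣ Unit).prod gra)) (fun y : Unit × GrB u₁ => n - rk y.2.1)
      (Lv.mk ι κ₀ 0 0) (f.lift _ hi hr) := by
    refine ((hf.mono (ctx_mono bot_le ε)).lift hi
      (EE_absPM (0 : κ₀ → M) (Torus_pmap _ u₁)).eqv hr).monoD fun p hp => ?_
    have h1 : (Ea.sum p.1 (Torus_th u₁ p.2).1).1.1.trace - (Fintype.card ι : ℂ) = (n : ℂ) := hp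
    rw [Ea.sum_trace, hd p.2] at h1
    change p.1.1.1.trace - (Fintype.card ι : ℂ) = ((n - rk p.2.2.1 : ℤ) : ℂ)
    linear_combination h1
  have hlc : IsLocallyConstant fun y : Unit × GrB u₁ => n - rk y.2.1 :=
    (rk_locallyConstant (F := fun y : Unit × GrB u₁ => y.2.1)
      (continuous_subtype_val.comp continuous_snd) fun y => y.2.2.1).comp fun m => n - m
  have h0 := van_grB (fun k => van_unit fun m _ => hv m) u₁ (n - Fintype.card κ₁) _ hlc
    (fun y => sub_le_sub_left y.2.2.1.rk_le n) (cl (sy := MU M) (Lv.mk ι κ₀ 0 0) _ hg)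
  have h1 : cl (sy := MU M) (Lv.mk ι (κ₀ ⊕ κ₁) 0 (Sum.elim 0 u₁)) f hf =
      absb (d' := fun _ => n) u₁ (Torus_pmap _ u₁) hd
        (infl (infl_ctx' sg ((triv : Act ℤˣ Unit).prod gra) ⊥ ε)
          (cl (sy := MU M) (Lv.mk ι κ₀ 0 0) _ hg)) := by
    rw [infl_cl, absb_cl]
    exact cl_congr fun x => (BM.lift_map f _ hi hr x).symm
  rw [h1, h0, infl_zero, absb_zero]

theorem Torus_zero {ε : Bool}
    (hv : ∀ n, ∀ x : E0 (ctx (⊤ : AddSubgroup M) ε : Set (Gam M)) (sa sg) n, x = 0)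
    {w : ι → M} (hw : w = 0) {u : κ → M} {n : ℤ} {f : BM (ℝ × (ι → ℂ)) (Ea κ × Unit)}
    (hf : (MU M).Gd (ctx (⊥ : AddSubgroup M) ε : Set (Gam M)) (sa sg) triv (fun _ => n)
      (Lv.mk ι κ w u) f) : cl (sy := MU M) (Lv.mk ι κ w u) f hf = 0 := by
  classical
  subst hw
  let b := (Equiv.sumCompl fun j => u j = 0).symm
  let u₁ : {j // ¬ u j = 0} → M := fun j => u j.1
  let μ : MMor ι κ ι ({j // u j = 0} ⊕ {j // ¬ u j = 0}) := ⟨1, emb b, 0, by simp,
    emb_iso b.injective, by simp, Matrix.mul_zero _⟩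
  have hb : ∀ j, Sum.elim (0 : {j // u j = 0} → M) u₁ (b j) = u j := by
    intro j
    obtain ⟨k | k, rfl⟩ := b.symm.surjective j
    · rw [Equiv.apply_symm_apply]
      exact k.2.symm
    · rw [Equiv.apply_symm_apply]
      rfl
  have hμ : μ.Inv (ctx (⊥ : AddSubgroup M) ε : Set (Gam M)) 0 u 0 (Sum.elim 0 u₁) :=
    ⟨Mor_inv_one, emb_inv fun g _ j => by rw [hb], Mor_inv_zero⟩
  have hf' := gd_mor (L := Lv.mk ι κ 0 u) (L' := Lv.mk ι _ 0 (Sum.elim 0 u₁)) hμ hf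
  rw [← cl_mor (L := Lv.mk ι κ 0 u) (L' := Lv.mk ι _ 0 (Sum.elim 0 u₁)) hμ hf hf' fun _ _ => rfl]
  exact Torus_core hv (fun j => j.2) hf'

end Aux

theorem van_torus (hM : AddGroup.FG M) (htf : ∀ (k : ℤ) (v : M), k • v = 0 → k = 0 ∨ v = 0)
    {ε : Bool} (hv : ∀ n, ∀ x : E0 (ctx (⊤ : AddSubgroup M) ε : Set (Gam M)) (sa sg) n, x = 0)
    (n : ℤ) (x : E0 (ctx (⊥ : AddSubgroup M) ε : Set (Gam M)) (sa sg) n) : x = 0 := by
  classical
  obtain ⟨L, f, hf, rfl⟩ := cl_surj x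
  obtain ⟨f₀, hf₀, -, he⟩ := lemF L (Equiv.sumCompl fun i => L.w i = 0) rfl hf
  refine thmA_mF hM sgnOnly_sg (ω := L.w ∘ (Equiv.sumCompl fun i => L.w i = 0) ∘ Sum.inr)
    (fun i k hk => (htf k _ (AddSubgroup.mem_bot.1 hk)).resolve_right i.2) rfl ?_
  rw [← he]
  exact Torus_zero hv (funext fun i => i.2) hf₀

end RB
end

-- merged part: Pool.Agent.Work.MP_666b5d_gt.Quil
section
/-!
# The Quillen argument for complex and Real bordism; all quasi-abelian subgroups of `Gam M`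

Proof plan.  Descending induction on `n`, starting from `mu_base`, `mr_base`.
`mu_step`: by `van_sJ`, `mu_fg` (`A = ℝ × ℝ`, `trivG_ctx`) and `eq_zero_of_divisible` it is enough
to show that `sJ x` is divisible by every prime `p`; use `exists_rep0`, `exists_powData`,
`pow_null_cx`, `quil_step` (with `lemS_cx_inj`; `j.val` is not divisible by `p` for `j ≠ 0`) and
`lemS_cx_div`.
`mr_step`: choose the representative so that it is null-homotopic for `ctx ⊤ false` at its level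
(`mu_van`, `res_cl`, `cl_eq_zero_iff`, `cl_tr`; then replace the weights by zero with `gd_inf`,
`infl_ctx`, `infl_self`, `Ht.congr`); use `exists_powData2`, `pow_null_re`, `quil_step` with
`lemS_re_inj`, then `lemS_re_res` and `sJ_inj`.
`van_ctx`: `van_all`, `van_torus`, `van_transfer`.
-/

open Set Filter Topology
open scoped unitInterval

namespace RB

open Act

theorem Quil_desc {P : ℤ → Prop} (hb : ∀ n, 1 ≤ n → P n)
    (hs : ∀ n, n ≤ 0 → (∀ k, n < k → P k) → P n) (n : ℤ) : P n := by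
  have key : ∀ m : ℕ, ∀ k, 1 - (m : ℤ) ≤ k → P k := by
    intro m
    induction m with
    | zero => intro k hk; exact hb k (by simpa using hk)
    | succ m ih =>
      intro k hk
      by_cases h : 1 - (m : ℤ) ≤ k
      · exact ih k h
      · exact hs k (by omega) fun l hl => ih l (by push_cast at hk; omega)
  exact key (1 - n).toNat n (by omega)

theorem Quil_sgn : SgnOnly (sg2 : Act (Gam ℤ) (ℝ × ℝ)) := sgnOnly_sg.prod sgnOnly_sg

theorem mu_step {n : ℤ} (hn : n ≤ 0)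
    (hv : ∀ k, n < k → ∀ x : E0 (ctx (⊤ : AddSubgroup ℤ) false : Set (Gam ℤ)) (sa sg) k, x = 0)
    (x : E0 (ctx (⊤ : AddSubgroup ℤ) false : Set (Gam ℤ)) (sa sg) n) : x = 0 := by
  refine (van_sJ (n' := n + 1) rfl).2 (fun w => ?_) x
  refine eq_zero_of_divisible (mu_fg (trivG_ctx Quil_sgn.ga) (n + 1)) (fun p hp w => ?_) w
  obtain ⟨x, rfl⟩ := sJ_surj (n := n) rfl w
  obtain ⟨L, f, hf, rfl⟩ := exists_rep0 (fun h hh => by rw [eq_one_of_mem_ctx_top hh]; rfl) x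
  have := Fact.mk hp
  obtain ⟨D, hD⟩ := exists_powData p
  have hj : ∀ j : ZMod p, j ≠ 0 → ¬ (p : ℤ) ∣ D.wt j := by
    intro j hj h
    rw [hD] at h
    apply hj
    have := (ZMod.intCast_zmod_eq_zero_iff_dvd (j.val : ℤ) p).2 h
    simpa using this
  rcases D.quil_step sgnOnly_sg hn hv (fun j h0 k hk y hy =>
      lemS_cx_inj hp (hj j h0) (n := k - 1) (by ring) (hv _ (by omega)) hy) hf
      (D.pow_null_cx rfl hf) with h | ⟨z, hz, h | ⟨j, h0, h⟩⟩
  · exact ⟨0, by rw [h]; simp⟩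
  · refine ⟨0, ?_⟩
    rw [h, res_zero] at hz
    rw [neg_eq_zero.1 hz.symm]; simp
  · obtain ⟨y, hy⟩ := lemS_cx_div Quil_sgn hp (hj j h0) rfl h
    refine ⟨-y, ?_⟩
    rw [smul_neg, ← hy, hz, neg_neg]

theorem mu_van (n : ℤ) (x : E0 (ctx (⊤ : AddSubgroup ℤ) false : Set (Gam ℤ)) (sa sg) n) :
    x = 0 :=
  Quil_desc (P := fun n => ∀ x : E0 (ctx (⊤ : AddSubgroup ℤ) false : Set (Gam ℤ)) (sa sg) n, x = 0)
    (fun _ hn x => mu_base hn x) (fun _ hn hv x => mu_step hn hv x) n x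

theorem Quil_rep {n : ℤ} (x : E0 (ctx (⊤ : AddSubgroup ℤ) true : Set (Gam ℤ)) (sa sg) n) :
    ∃ (L : Lv ℤ) (f : BM (ℝ × (L.ι → ℂ)) (Ea L.κ × Unit))
      (hf : (MU ℤ).Gd (ctx (⊤ : AddSubgroup ℤ) true : Set (Gam ℤ)) (sa sg) triv (fun _ => n)
        (L.zero ℤ) f), x = cl (sy := MU ℤ) (L.zero ℤ) f hf ∧
      (MU ℤ).Hm (ctx (⊤ : AddSubgroup ℤ) false : Set (Gam ℤ)) (sa sg) triv (fun _ => n)
        (L.zero ℤ) f BM.zero := by
  obtain ⟨L, f, hf, rfl⟩ := cl_surj x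
  have h0 := mu_van n (res (ctx_false_sub ⊤ true) (cl L f hf))
  rw [res_cl, cl_eq_zero_iff] at h0
  obtain ⟨L', μ, hμ, h0⟩ := h0
  have hI := infl_ctx (M := ℤ) sgnOnly_sg (SgnOnly.triv (X := Unit)) ⊤ true
  refine ⟨L', μ.tr f, gd_inf hI (gd_tr hμ hf), ?_, ?_⟩
  · rw [← infl_cl hI L' _ (gd_tr hμ hf), infl_self, cl_tr hμ]
  · refine Ht.congr h0 (fun g hg x => ?_) (fun g hg y => ?_)
    · rw [eq_one_of_mem_ctx_top hg]
      exact ((ga_sa ga_sg).prod (ga_rp _)).one x |>.trans (((ga_sa ga_sg).prod (ga_rp _)).one x).symm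
    · rw [eq_one_of_mem_ctx_top hg]
      exact ((ga_ea _).prod GA.triv).one y |>.trans (((ga_ea _).prod GA.triv).one y).symm

theorem mr_step {n : ℤ} (hn : n ≤ 0)
    (hv : ∀ k, n < k → ∀ x : E0 (ctx (⊤ : AddSubgroup ℤ) true : Set (Gam ℤ)) (sa sg) k, x = 0)
    (x : E0 (ctx (⊤ : AddSubgroup ℤ) true : Set (Gam ℤ)) (sa sg) n) : x = 0 := by
  obtain ⟨L, f, hf, rfl, h0⟩ := Quil_rep x
  obtain ⟨D, hD, hF⟩ := exists_powData2
  have hj : ∀ j : Bool, j ≠ false → ¬ (2 : ℤ) ∣ D.wt j := by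
    intro j hj
    obtain rfl : j = true := by simpa using hj
    rw [hD]; decide
  rcases D.quil_step sgnOnly_sg hn hv (fun j h0 k hk y hy =>
      lemS_re_inj (hj j h0) (n := k - 1) (by ring) (hv _ (by omega)) hy) hf
      (D.pow_null_re hF rfl hf h0) with h | ⟨z, hz, h | ⟨j, h0, h⟩⟩
  · exact h
  · rw [h, res_zero] at hz
    exact sJ_inj rfl ((neg_eq_zero.1 hz.symm).trans (sJ_zero rfl).symm)
  · have := lemS_re_res (hj j h0) rfl (mu_van n) h
    rw [this] at hz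
    exact sJ_inj rfl ((neg_eq_zero.1 hz.symm).trans (sJ_zero rfl).symm)

theorem mr_van (n : ℤ) (x : E0 (ctx (⊤ : AddSubgroup ℤ) true : Set (Gam ℤ)) (sa sg) n) :
    x = 0 :=
  Quil_desc (P := fun n => ∀ x : E0 (ctx (⊤ : AddSubgroup ℤ) true : Set (Gam ℤ)) (sa sg) n, x = 0)
    (fun _ hn x => mr_base hn x) (fun _ hn hv x => mr_step hn hv x) n x

theorem van_ctx {M : Type} [AddCommGroup M] (hM : AddGroup.FG M)
    (htf : ∀ (k : ℤ) (v : M), k • v = 0 → k = 0 ∨ v = 0) (Λ : AddSubgroup M) (ε : Bool) (n : ℤ)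
    (x : E0 (ctx Λ ε : Set (Gam M)) (sa sg) n) : x = 0 := by
  refine van_all hM htf (van_torus hM htf fun n => van_transfer (M' := ℤ) ε ?_) Λ n x
  cases ε
  · exact mu_van n
  · exact mr_van n

end RB
end

-- merged part: Pool.Agent.Work.MP_666b5d_gt.Br4
section
/-!
# From the model `E0` back to the statement

Proof plan.  Let `f₀ = BM.ofC f` and `f₁ (r, v) = (SUᴴ P SU, SUᴴ u)` for `(P, u) = f₀ (SW v, r)`; it is
a good representative at the level `(W.ι, U.ι, w, u)` in degree `m - card W.ι` (every element of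
`𝒢` is `ρ g`; `W.act g (SW v) = SW (rp w (ρ g) v)`, and similarly for `U`; `SW SWᴴ = 1`).  By
`cl_zero_std` there are `L'` and a null-homotopy `H` of the standard stabilisation.  Take
`V = diagRep L'.w` and `U' = diagRep (Sum.elim L'.u w)`.  Precompose `H` with
`(v, r) ↦ (r, (1 ⊕ SWᴴ) v)`, conjugate the values by the unitary `1 ⊕ SU ⊕ 1`, lift along the closed
embedding `Tot _ (card V.ι + m) → Ea _ × Unit` (`BM.lift`; the degree condition gives the trace) and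
apply `BM.toCI`.  At time `0` use `MMor.std_a`, `MMor.std_Ψ`.
-/

open Set Matrix OnePoint
open scoped unitInterval

namespace RB

open Act

universe u

variable {G : Type u} [Group G] [TopologicalSpace G] {η : G →* ℤˣ} {M : Type} [AddCommGroup M]

/-- The sum of Real characters pulled back along `ρ`. -/
noncomputable def diagRep (ρ : G →* Gam M) (hρ : Continuous ρ) (he : ∀ g, (ρ g).e = η g)
    {ι : Type} [Fintype ι] [DecidableEq ι] (w : ι → M) : RealRep η where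
  ι := ι
  mat g := diagonal fun i => ch (ρ g) (w i)
  cont := by
    exact Continuous.matrix_diagonal (continuous_pi fun i => (continuous_ch (w i)).comp hρ)
  unitary := by
    intro g
    rw [diagonal_conjTranspose, diagonal_mul_diagonal, ← diagonal_one]
    exact congrArg diagonal (funext fun i => star_ch_mul _ _)
  mat_one := by
    rw [map_one, ← diagonal_one]
    exact congrArg diagonal (funext fun i => ch_one _)
  mat_mul := by
    intro g h
    rw [diagonal_map (MU_tw_zero _), diagonal_mul_diagonal, map_mul]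
    exact congrArg diagonal (funext fun i => by rw [ch_mul, he])

/-- The unitary `S` diagonalises `R` with the weights `w`. -/
structure Br4_Diag (ρ : G →* Gam M) (R : RealRep η) (S : Matrix R.ι R.ι ℂ) (w : R.ι → M) :
    Prop where
  iso : Sᴴ * S = 1
  dg : ∀ g, Sᴴ * R.mat g * S.map (tw (η g)) = diagonal fun i => ch (ρ g) (w i)

section

variable {ρ : G →* Gam M}

theorem Br4_diagRep (hρ : Continuous ρ) (he : ∀ g, (ρ g).e = η g) {ι : Type} [Fintype ι]
    [DecidableEq ι] (w : ι → M) : Br4_Diag ρ (diagRep ρ hρ he w) (1 : Matrix ι ι ℂ) w := by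
  have h1 : (1 : Matrix ι ι ℂ)ᴴ * (1 : Matrix ι ι ℂ) = 1 := by
    rw [conjTranspose_one, Matrix.mul_one]
  have h2 : ∀ g, (1 : Matrix ι ι ℂ)ᴴ * diagonal (fun i => ch (ρ g) (w i)) *
      (1 : Matrix ι ι ℂ).map (tw (η g)) = diagonal fun i => ch (ρ g) (w i) := fun g => by
    rw [conjTranspose_one, Matrix.one_mul, Matrix.map_one _ (MU_tw_zero _) (MU_tw_one _),
      Matrix.mul_one]
  exact ⟨h1, h2⟩

theorem Br4_sum {R R' : RealRep η} {S : Matrix R.ι R.ι ℂ} {S' : Matrix R'.ι R'.ι ℂ} {w : R.ι → M}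
    {w' : R'.ι → M} (h : Br4_Diag ρ R S w) (h' : Br4_Diag ρ R' S' w') :
    Br4_Diag ρ (R.sum R') (fromBlocks S 0 0 S') (Sum.elim w w') := by
  refine ⟨?_, fun g => ?_⟩
  · change (fromBlocks S 0 0 S')ᴴ * fromBlocks S 0 0 S' = (1 : Matrix (R.ι ⊕ R'.ι) (R.ι ⊕ R'.ι) ℂ)
    rw [fromBlocks_conjTranspose, fromBlocks_multiply, h.iso, h'.iso]
    simp
  · change (fromBlocks S 0 0 S')ᴴ * fromBlocks (R.mat g) 0 0 (R'.mat g) *
      (fromBlocks S 0 0 S').map (tw (η g)) =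
        diagonal fun i : R.ι ⊕ R'.ι => ch (ρ g) (Sum.elim w w' i)
    rw [fromBlocks_conjTranspose, fromBlocks_map, fromBlocks_multiply, fromBlocks_multiply,
      Matrix.map_zero _ (MU_tw_zero _), Matrix.map_zero _ (MU_tw_zero _)]
    simp only [conjTranspose_zero, Matrix.mul_zero, Matrix.zero_mul, add_zero, zero_add, h.dg, h'.dg,
      fromBlocks_diagonal]
    refine congrArg diagonal (funext fun i => ?_)
    rcases i with i | i <;> rfl

variable {R : RealRep η} {S : Matrix R.ι R.ι ℂ} {w : R.ι → M}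

theorem Br4_Diag.iso' (h : Br4_Diag ρ R S w) : S * Sᴴ = 1 := mul_eq_one_comm.1 h.iso

theorem Br4_map_ct {ι κ : Type} (e : ℤˣ) (A : Matrix ι κ ℂ) :
    Aᴴ.map (tw e) = (A.map (tw e))ᴴ := by
  ext i j
  exact tw_star e (A j i)

theorem Br4_map_mul {ι κ ν : Type} [Fintype κ] (e : ℤˣ) (A : Matrix ι κ ℂ) (B : Matrix κ ν ℂ) :
    (A * B).map (tw e) = A.map (tw e) * B.map (tw e) := by
  rw [tw_eq_twR, Matrix.map_mul]

theorem Br4_Diag.left (h : Br4_Diag ρ R S w) (g : G) :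
    Sᴴ * R.mat g = diagonal (fun i => ch (ρ g) (w i)) * Sᴴ.map (tw (η g)) := by
  rw [← h.dg, Matrix.mul_assoc, ← Br4_map_mul, h.iso',
    Matrix.map_one _ (MU_tw_zero _) (MU_tw_one _), Matrix.mul_one]

theorem Br4_Diag.vec (h : Br4_Diag ρ R S w) (he : ∀ g, (ρ g).e = η g) (g : G) (v : R.ι → ℂ) :
    Sᴴ *ᵥ R.act g v = rp w (ρ g) (Sᴴ *ᵥ v) := by
  rw [RealRep.act, mulVec_mulVec, h.left, ← mulVec_mulVec]
  funext i
  rw [mulVec_diagonal]
  change _ = ch (ρ g) (w i) * tw (ρ g).e ((Sᴴ *ᵥ v) i)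
  rw [he, tw_eq_twR, RingHom.map_mulVec]
  rfl

theorem Br4_Diag.vec' (h : Br4_Diag ρ R S w) (he : ∀ g, (ρ g).e = η g) (g : G) (v : R.ι → ℂ) :
    S *ᵥ rp w (ρ g) v = R.act g (S *ᵥ v) := by
  have := h.vec he g (S *ᵥ v)
  rw [mulVec_mulVec v, h.iso, one_mulVec] at this
  rw [← this, mulVec_mulVec, h.iso', one_mulVec]

theorem Br4_Diag.mat (h : Br4_Diag ρ R S w) (he : ∀ g, (ρ g).e = η g) (g : G)
    (P : Matrix R.ι R.ι ℂ) :
    Sᴴ * (R.mat g * P.map (tw (η g)) * (R.mat g)ᴴ) * S = mp w w (ρ g) (Sᴴ * P * S) := by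
  have h1 : (R.mat g)ᴴ * S = S.map (tw (η g)) * (diagonal fun i => ch (ρ g) (w i))ᴴ := by
    have := congrArg conjTranspose (h.left g)
    rwa [conjTranspose_mul, conjTranspose_mul, conjTranspose_conjTranspose, Br4_map_ct,
      conjTranspose_conjTranspose] at this
  have h2 : Sᴴ * (R.mat g * P.map (tw (η g)) * (R.mat g)ᴴ) * S =
      (Sᴴ * R.mat g) * P.map (tw (η g)) * ((R.mat g)ᴴ * S) := by
    simp only [Matrix.mul_assoc]
  have h3 : diagonal (fun i => ch (ρ g) (w i)) * Sᴴ.map (tw (η g)) * P.map (tw (η g)) *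
      (S.map (tw (η g)) * (diagonal fun i => ch (ρ g) (w i))ᴴ) =
      diagonal (fun i => ch (ρ g) (w i)) * (Sᴴ * P * S).map (tw (η g)) *
        (diagonal fun i => ch (ρ g) (w i))ᴴ := by
    simp only [Br4_map_mul, Matrix.mul_assoc]
  rw [h2, h.left, h1, h3, diagonal_conjTranspose]
  ext i j
  rw [mul_diagonal, diagonal_mul, mp_apply, ch_sub, he, map_apply, Pi.star_apply]
  ring

end

section

variable {ι : Type} [Fintype ι] [DecidableEq ι] {S : Matrix ι ι ℂ}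

instance Br4_t2 (m : ℕ) : T2Space (Tot ι m) := inferInstanceAs (T2Space (Subtype _))

/-- Conjugation by a unitary, from the statement to the model. -/
noncomputable def Br4_to (hS : Sᴴ * S = 1) (m : ℕ) (q : Tot ι m) : Ea ι × Unit :=
  (⟨(Sᴴ * q.1.1 * S, Sᴴ *ᵥ q.1.2), by
    have hS' : S * Sᴴ = 1 := mul_eq_one_comm.1 hS
    obtain ⟨h1, h2, -, h4⟩ := q.2
    refine ⟨⟨?_, ?_⟩, ?_⟩
    · simp only [conjTranspose_mul, conjTranspose_conjTranspose, h1, Matrix.mul_assoc]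
    · simp only [Matrix.mul_assoc]
      rw [← Matrix.mul_assoc S, hS', Matrix.one_mul, ← Matrix.mul_assoc q.1.1, h2]
    · simp only [mulVec_mulVec, Matrix.mul_assoc, hS', Matrix.mul_one]
      rw [← mulVec_mulVec, h4]⟩, ())

theorem Br4_to_range (hS : Sᴴ * S = 1) (m : ℕ) :
    range (Br4_to hS m) = {p | p.1.1.1.trace = (m : ℂ)} := by
  have hS' : S * Sᴴ = 1 := mul_eq_one_comm.1 hS
  ext p
  constructor
  · rintro ⟨q, rfl⟩
    change (Sᴴ * q.1.1 * S).trace = m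
    rw [trace_mul_cycle, hS', Matrix.one_mul, q.2.2.2.1]
  · intro hp
    obtain ⟨⟨h1, h2⟩, h4⟩ := p.1.2
    refine ⟨⟨(S * p.1.1.1 * Sᴴ, S *ᵥ p.1.1.2), ?_, ?_, ?_, ?_⟩, Prod.ext (Subtype.ext
      (Prod.ext ?_ ?_)) rfl⟩
    · simp only [conjTranspose_mul, conjTranspose_conjTranspose, h1, Matrix.mul_assoc]
    · simp only [Matrix.mul_assoc]
      rw [← Matrix.mul_assoc Sᴴ, hS, Matrix.one_mul, ← Matrix.mul_assoc p.1.1.1, h2]
    · rw [trace_mul_cycle, hS, Matrix.one_mul]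
      exact hp
    · simp only [mulVec_mulVec, Matrix.mul_assoc, hS, Matrix.mul_one]
      rw [← mulVec_mulVec, h4]
    · change Sᴴ * (S * p.1.1.1 * Sᴴ) * S = p.1.1.1
      simp only [Matrix.mul_assoc, hS, Matrix.mul_one]
      rw [← Matrix.mul_assoc, hS, Matrix.one_mul]
    · change Sᴴ *ᵥ (S *ᵥ p.1.1.2) = p.1.1.2
      rw [mulVec_mulVec, hS, one_mulVec]

theorem Br4_to_emb (hS : Sᴴ * S = 1) (m : ℕ) : Topology.IsClosedEmbedding (Br4_to hS m) := by
  have hS' : S * Sᴴ = 1 := mul_eq_one_comm.1 hS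
  have c1 : Continuous fun q : Tot ι m => q.1 := continuous_subtype_val
  have c2 : Continuous fun p : Ea ι × Unit => p.1.1 := continuous_subtype_val.comp continuous_fst
  have c3 : Continuous (Br4_to hS m) :=
    (Continuous.subtype_mk (((continuous_const.matrix_mul c1.fst).matrix_mul
      continuous_const).prodMk (continuous_const.matrix_mulVec c1.snd)) _).prodMk continuous_const
  refine ⟨Topology.IsEmbedding.of_comp c3
    (g := fun p : Ea ι × Unit => (S * p.1.1.1 * Sᴴ, S *ᵥ p.1.1.2))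
    (((continuous_const.matrix_mul c2.fst).matrix_mul continuous_const).prodMk
      (continuous_const.matrix_mulVec c2.snd)) ?_, ?_⟩
  · have e : (fun p : Ea ι × Unit => (S * p.1.1.1 * Sᴴ, S *ᵥ p.1.1.2)) ∘ Br4_to hS m =
        Subtype.val := by
      funext q
      refine Prod.ext ?_ ?_
      · change S * (Sᴴ * q.1.1 * S) * Sᴴ = q.1.1
        simp only [Matrix.mul_assoc, hS', Matrix.mul_one]
        rw [← Matrix.mul_assoc, hS', Matrix.one_mul]
      · change S *ᵥ (Sᴴ *ᵥ q.1.2) = q.1.2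
        rw [mulVec_mulVec, hS', one_mulVec]
    rw [e]
    exact Topology.IsEmbedding.subtypeVal
  · rw [Br4_to_range]
    exact isClosed_eq c2.fst.matrix_trace continuous_const

theorem Br4_src (hS : Sᴴ * S = 1) : IsProperMap fun p : ℝ × (ι → ℂ) => (S *ᵥ p.2, p.1) :=
  proper_of_leftInverse (r := fun p : (ι → ℂ) × ℝ => (p.2, Sᴴ *ᵥ p.1))
    ((continuous_const.matrix_mulVec continuous_snd).prodMk continuous_fst)
    (continuous_snd.prodMk (continuous_const.matrix_mulVec continuous_fst))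
    fun p => Prod.ext rfl (by
      change Sᴴ *ᵥ (S *ᵥ p.2) = p.2
      rw [mulVec_mulVec, hS, one_mulVec])

theorem Br4_src' (hS : Sᴴ * S = 1) :
    IsProperMap fun p : ((ι → ℂ) × ℝ) × I => ((p.1.2, Sᴴ *ᵥ p.1.1), p.2) :=
  proper_of_leftInverse (r := fun p : (ℝ × (ι → ℂ)) × I => ((S *ᵥ p.1.2, p.1.1), p.2))
    ((continuous_fst.snd.prodMk (continuous_const.matrix_mulVec continuous_fst.fst)).prodMk
      continuous_snd)
    (((continuous_const.matrix_mulVec continuous_fst.snd).prodMk continuous_fst.fst).prodMk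
      continuous_snd)
    fun p => Prod.ext (Prod.ext (by
      change S *ᵥ (Sᴴ *ᵥ p.1.1) = p.1.1
      rw [mulVec_mulVec, mul_eq_one_comm.1 hS, one_mulVec]) rfl) rfl

theorem Br4_block {ι' κ κ' : Type} [Fintype ι'] [DecidableEq ι'] [Fintype κ] [DecidableEq κ]
    [Fintype κ'] [DecidableEq κ'] {T : Matrix κ κ ℂ} (hT : Tᴴ * T = 1)
    (hT' : (fromBlocks (1 : Matrix ι' ι' ℂ) 0 0 (fromBlocks T 0 0 (1 : Matrix (κ' ⊕ ι) (κ' ⊕ ι) ℂ)))ᴴ *
      fromBlocks 1 0 0 (fromBlocks T 0 0 1) = 1) {m : ℕ} (q : Tot κ m) (v v' : ι' ⊕ ι → ℂ)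
    (hv : v' ∘ Sum.inl = v ∘ Sum.inl) :
    Br4_to hT' _ (addBlock (v ∘ Sum.inl) q) =
      ((MMor.std ι κ ι' κ').tr.Ψ ((Br4_to hT m q).1, v'), ()) := by
  refine Prod.ext (Subtype.ext ?_) rfl
  rw [MMor.std_Ψ, hv]
  refine Prod.ext ?_ ?_
  · change (fromBlocks 1 0 0 (fromBlocks T 0 0 1))ᴴ * fromBlocks 1 0 0 (fromBlocks q.1.1 0 0 0) *
      fromBlocks 1 0 0 (fromBlocks T 0 0 1) = fromBlocks 1 0 0 (fromBlocks (Tᴴ * q.1.1 * T) 0 0 0)
    simp [fromBlocks_conjTranspose, fromBlocks_multiply]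
  · change (fromBlocks 1 0 0 (fromBlocks T 0 0 1))ᴴ *ᵥ Sum.elim (v ∘ Sum.inl) (Sum.elim q.1.2 0) =
      Sum.elim (v ∘ Sum.inl) (Sum.elim (Tᴴ *ᵥ q.1.2) 0)
    simp [fromBlocks_conjTranspose, fromBlocks_mulVec]

end

theorem Br4_to_eqv {ρ : G →* Gam M} {R : RealRep η} {S : Matrix R.ι R.ι ℂ} {w : R.ι → M}
    (h : Br4_Diag ρ R S w) (he : ∀ g, (ρ g).e = η g) (m : ℕ) (g : G) (q : Tot R.ι m) :
    Br4_to h.iso m (R.actTot m g q) =
      (ea w).prod (triv : Act (Gam M) Unit) (ρ g) (Br4_to h.iso m q) :=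
  Prod.ext (Subtype.ext (Prod.ext (h.mat he g q.1.1) (h.vec he g q.1.2))) rfl

/-- From a null-homotopy in the model to a null-homotopy in the statement. -/
theorem Br4_back {ρ : G →* Gam M} (he : ∀ g, (ρ g).e = η g) {𝒢 : Set (Gam M)}
    (hr : range ρ = 𝒢) {A B : RealRep η} {SA : Matrix A.ι A.ι ℂ} {SB : Matrix B.ι B.ι ℂ}
    {a : A.ι → M} {b : B.ι → M} (hA : Br4_Diag ρ A SA a) (hB : Br4_Diag ρ B SB b) {k : ℕ}
    {D : Set (Ea B.ι × Unit)} (hD : ∀ p ∈ D, p.1.1.1.trace = k)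
    {φ : BM (ℝ × (A.ι → ℂ)) (Ea B.ι × Unit)}
    (hφ : Ht 𝒢 ((sa sg).prod (rp a)) ((ea b).prod triv) D φ BM.zero)
    {F : OnePoint ((A.ι → ℂ) × ℝ) → OnePoint (Tot B.ι k)} (h0 : F ∞ = ∞)
    (hF : ∀ x : (A.ι → ℂ) × ℝ, (F x).map (Br4_to hB.iso k) = φ.f (x.2, SAᴴ *ᵥ x.1)) :
    NullHtp A.actSig (B.actTot k) F := by
  obtain ⟨H, hH, H0, H1⟩ := hφ
  have hi := Br4_to_emb hB.iso k
  have hm : ∀ x (y : Ea B.ι × Unit), (H.pre _ (Br4_src' hA.iso)).f x = y →
      y ∈ range (Br4_to hB.iso k) := fun x y e => by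
    rw [Br4_to_range]
    exact hD y (hH.mem _ y e)
  have key : ∀ (x : (A.ι → ℂ) × ℝ) (t : I),
      (((H.pre _ (Br4_src' hA.iso)).lift _ hi hm).toCI ((x : OnePoint _), t)).map
        (Br4_to hB.iso k) = H.f ((x.2, SAᴴ *ᵥ x.1), t) := fun x t => BM.lift_map _ _ hi hm (x, t)
  refine ⟨((H.pre _ (Br4_src' hA.iso)).lift _ hi hm).toCI, fun x => ?_, fun x => ?_,
    fun t => rfl, fun t g x => ?_⟩
  · induction x using OnePoint.rec with
    | infty => exact h0.symm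
    | coe x => exact omap_injective hi.injective (by rw [key, H0, hF])
  · induction x using OnePoint.rec with
    | infty => rfl
    | coe x => exact omap_injective hi.injective (by rw [key, H1]; rfl)
  · induction x using OnePoint.rec with
    | infty => rfl
    | coe x =>
      refine omap_injective hi.injective ?_
      have e1 := hH.eqv (ρ g) (hr ▸ mem_range_self g) ((x.2, SAᴴ *ᵥ x.1), t)
      rw [← key, omap_map] at e1
      rw [map_some, key, omap_map]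
      simp only [Br4_to_eqv hB he]
      rw [← e1]
      refine congrArg H.f (Prod.ext (Prod.ext ?_ (hA.vec he g x.1)) rfl)
      change ((η g : ℤ) : ℝ) * x.2 = (((ρ g).e : ℤ) : ℝ) * x.2
      rw [he]

theorem bridge (ρ : G →* Gam M) (hρ : Continuous ρ) (he : ∀ g, (ρ g).e = η g) {𝒢 : Set (Gam M)}
    (hr : range ρ = 𝒢) (W U : RealRep η) (w : W.ι → M) (u : U.ι → M) {SW : Matrix W.ι W.ι ℂ}
    {SU : Matrix U.ι U.ι ℂ} (hW : SWᴴ * SW = 1) (hU : SUᴴ * SU = 1)
    (dW : ∀ g, SWᴴ * W.mat g * SW.map (tw (η g)) = diagonal fun i => ch (ρ g) (w i))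
    (dU : ∀ g, SUᴴ * U.mat g * SU.map (tw (η g)) = diagonal fun i => ch (ρ g) (u i)) (m : ℕ)
    (hv : ∀ x : E0 𝒢 (sa sg) ((m : ℤ) - Fintype.card W.ι), x = 0)
    (f : C(OnePoint ((W.ι → ℂ) × ℝ), OnePoint (Tot U.ι m))) (h0 : f ∞ = ∞)
    (hf : Equivar W.actSig (U.actTot m) f) :
    ∃ V U' : RealRep η,
      NullHtp (V.sum W).actSig ((V.sum (U.sum U')).actTot _) (stab V W U U' f) := by
  have DW : Br4_Diag ρ W SW w := ⟨hW, dW⟩
  have DU : Br4_Diag ρ U SU u := ⟨hU, dU⟩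
  have hi := Br4_to_emb hU m
  have hg : (MU M).Gd 𝒢 (sa sg) (triv : Act (Gam M) Unit)
      (fun _ => (m : ℤ) - Fintype.card W.ι) (Lv.mk W.ι U.ι w u)
      (((BM.ofC f h0).pre _ (Br4_src hW)).map _ hi.isProperMap) := by
    refine ⟨fun k hk x => ?_, fun x y e => ?_⟩
    · obtain ⟨g, rfl⟩ : k ∈ range ρ := hr ▸ hk
      have e1 := hf g ((SW *ᵥ x.2, x.1) : (W.ι → ℂ) × ℝ)
      change (f ((SW *ᵥ rp w (ρ g) x.2, (((ρ g).e : ℤ) : ℝ) * x.1) : (W.ι → ℂ) × ℝ)).map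
        (Br4_to hU m) = ((f ((SW *ᵥ x.2, x.1) : (W.ι → ℂ) × ℝ)).map (Br4_to hU m)).map
          ((ea u).prod (triv : Act (Gam M) Unit) (ρ g))
      rw [DW.vec' he, he, omap_map]
      simp only [← Br4_to_eqv DU he]
      exact (congrArg (OnePoint.map (Br4_to hU m)) e1).trans (omap_map _ _ _)
    · obtain ⟨q, -, rfl⟩ := omap_eq_coe.1 e
      have e1 : Br4_to hU m q ∈ range (Br4_to hU m) := mem_range_self q
      rw [Br4_to_range] at e1
      change (Br4_to hU m q).1.1.1.trace - (Fintype.card W.ι : ℂ) =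
        (((m : ℤ) - Fintype.card W.ι : ℤ) : ℂ)
      rw [show (Br4_to hU m q).1.1.1.trace = m from e1]
      push_cast
      rfl
  obtain ⟨L', hL⟩ := cl_zero_std (hv (cl (sy := MU M) _ _ hg))
  have D1 := Br4_diagRep hρ he L'.w
  have D2 := Br4_diagRep hρ he (Sum.elim L'.u w)
  refine ⟨diagRep ρ hρ he L'.w, diagRep ρ hρ he (Sum.elim L'.u w),
    Br4_back he hr (Br4_sum D1 DW) (Br4_sum D1 (Br4_sum DU D2)) (fun p hp => ?_) hL rfl
      fun x => ?_⟩
  · have e1 : p.1.1.1.trace - (Fintype.card (L'.ι ⊕ W.ι) : ℂ) =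
        (((m : ℤ) - Fintype.card W.ι : ℤ) : ℂ) := hp
    change p.1.1.1.trace = ((Fintype.card L'.ι + m : ℕ) : ℂ)
    rw [Fintype.card_sum] at e1
    push_cast at e1 ⊢
    linear_combination e1
  · obtain ⟨v, r⟩ := x
    change L'.ι ⊕ W.ι → ℂ at v
    have e1 : ((fromBlocks (1 : Matrix L'.ι L'.ι ℂ) 0 0 SW)ᴴ *ᵥ v) =
        Sum.elim (v ∘ Sum.inl) (SWᴴ *ᵥ (v ∘ Sum.inr)) := by
      rw [fromBlocks_conjTranspose, fromBlocks_mulVec]
      simp
    change ((f ((v ∘ Sum.inr, r) : (W.ι → ℂ) × ℝ)).map (addBlock (v ∘ Sum.inl))).map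
      (Br4_to (Br4_sum D1 (Br4_sum DU D2)).iso _) =
      ((f ((SW *ᵥ (MMor.std W.ι U.ι L'.ι L'.κ).tr.a
        ((fromBlocks (1 : Matrix L'.ι L'.ι ℂ) 0 0 SW)ᴴ *ᵥ (v : L'.ι ⊕ W.ι → ℂ)), r) :
          (W.ι → ℂ) × ℝ)).map (Br4_to hU m)).map
        fun t => ((MMor.std W.ι U.ι L'.ι L'.κ).tr.Ψ
          (t.1, (fromBlocks (1 : Matrix L'.ι L'.ι ℂ) 0 0 SW)ᴴ *ᵥ (v : L'.ι ⊕ W.ι → ℂ)), t.2)
    rw [MMor.std_a, e1, Sum.elim_comp_inr, mulVec_mulVec, DW.iso', one_mulVec, omap_map]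
    exact (omap_map _ _ _).trans
      (omap_congr _ fun q _ => Br4_block hU _ q v _ (Sum.elim_comp_inl _ _))

end RB
end

-- merged part: Pool.Agent.Work.MP_666b5d_gt.Main
section
/-!
# Evenness of Real bordism for compact quasi-abelian augmented groups
-/

namespace RB

universe u

theorem main {G : Type u} [Group G] [TopologicalSpace G] [IsTopologicalGroup G] [CompactSpace G]
    (η : G →* ℤˣ) (hη : Continuous η) (hq : IsQuasiAbelian η) (k : ℤ) : PiVanishes η k := by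
  intro W U m _ f h0 hf
  obtain ⟨ρ, Λ, ε, SW, SU, hρ, he, hr, hW, hU, dW, dU⟩ := exists_rho hη hq W U
  refine bridge ρ hρ he hr W U _ _ hW hU dW dU m (fun x => van_ctx ?_ ?_ Λ ε _ x) f h0 hf
  · exact Module.Finite.iff_addGroup_fg.1 inferInstance
  · intro k v h
    exact smul_eq_zero.1 h

end RB
end
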